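import Pool.Agent.P.MP_9344a7_nt.Dual

/-! A function field of genus two is a quadratic extension of a rational function field. -/

namespace Pool.Agent.P.MP_9344a7_nt.Mod1x

open WithZero Polynomial Module
open Pool.Agent.P.MP_6f117a_ag (Place FF)
open Pool.Agent.P.MP_ab3ecb_nt.Inv
open Pool.Agent.P.MP_9344a7_nt.R
open scoped IntermediateField Classical

variable {k E : Type} [Field k] [IsAlgClosed k] [Field E] [Algebra k E] [FF k E]
  {W W' D A B : Dv k E} {x y z : E} {n : ℕ}

/-- `W` is a canonical divisor, in genus two. -/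
def Can (W : Dv k E) : Prop :=
  ∀ D : Dv k E, (finrank k (LS D) : ℤ) = deg D - 1 + finrank k (LS (W - D))

lemma Can.two (h : Can W) : finrank k (LS W) = 2 ∧ deg W = 2 := by
  have h1 := h 0
  have h2 := h W
  rw [sub_zero, rr_zero, map_zero] at h1
  rw [sub_self, rr_zero] at h2
  omega

lemma Can.big (h : Can W) (hD : 3 ≤ deg D) : (finrank k (LS D) : ℤ) = deg D - 1 := by
  have h1 := h D
  rw [LS_eq_bot (D := W - D) (by rw [map_sub, h.two.2]; omega), finrank_bot] at h1
  omega

lemma Can.congr (h : Can W) (hp : R.Prin (W' - W)) : Can W' := fun D => by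
  rw [h D, R.Prin.finrank_eq (D := W' - D) (D' := W - D) (by rwa [sub_sub_sub_cancel_right])]

lemma Can.prin (h : Can W) (h1 : deg D = 2) (h2 : finrank k (LS D) = 2) : R.Prin (D - W) := by
  have h3 := h D
  obtain ⟨A, a1, a2⟩ := exists_eff (D := W - D) (by omega)
  have a3 := a2.deg_eq
  rw [map_sub, h.two.2, h1, sub_self] at a3
  rwa [eq_zero_of_deg a1 a3, zero_sub, neg_sub] at a2

omit [IsAlgClosed k] [FF k E] in
lemma mul_mem_LS (h : x ∈ LS A) (h' : y ∈ LS B) : x * y ∈ LS (A + B) := mem_LS.2 fun P => by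
  rw [map_mul, Finsupp.add_apply, exp_add]
  exact mul_le_mul' (mem_LS.1 h P) (mem_LS.1 h' P)

omit [IsAlgClosed k] [FF k E] in
lemma pow_mem_LS (h : x ∈ LS D) (n : ℕ) : x ^ n ∈ LS (n • D) := mem_LS.2 fun P => by
  rw [map_pow, Finsupp.smul_apply, exp_nsmul]
  exact pow_le_pow_left' (mem_LS.1 h P) _

omit [IsAlgClosed k] [FF k E] in
lemma aeval_mem_LS (h0 : 0 ≤ D) (h : x ∈ LS D) {p : k[X]} (hp : p.natDegree ≤ n) :
    aeval x p ∈ LS (n • D) := by
  rw [aeval_eq_sum_range]
  refine Submodule.sum_mem _ fun i hi => Submodule.smul_mem _ _ ?_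
  exact LS_mono (nsmul_le_nsmul_left h0 (by have := Finset.mem_range.1 hi; omega))
    (pow_mem_LS h i)

/-- The values `p x + q x * y` of pairs of polynomials of bounded degree. -/
noncomputable def TT (x y : E) (a b : ℕ) : (degreeLT k a × degreeLT k b) →ₗ[k] E :=
  ((aeval x : k[X] →ₐ[k] E).toLinearMap ∘ₗ (degreeLT k a).subtype).coprod
    (LinearMap.mulRight k y ∘ₗ (aeval x : k[X] →ₐ[k] E).toLinearMap ∘ₗ (degreeLT k b).subtype)

omit [IsAlgClosed k] [FF k E] in
lemma TT_apply (x y : E) (a b : ℕ) (p : degreeLT k a × degreeLT k b) :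
    TT x y a b p = aeval x p.1.1 + aeval x p.2.1 * y := rfl

omit [IsAlgClosed k] [FF k E] in
lemma TT_rank {a b : ℕ} (h : ∀ p q : k[X], q ∈ degreeLT k b → aeval x p + aeval x q * y = 0 →
    p = 0 ∧ q = 0) : finrank k (LinearMap.range (TT (k := k) x y a b)) = a + b := by
  have f : ∀ a, finrank k (degreeLT k a) = a := fun a => by
    simpa using finrank_eq_card_basis (degreeLT.basis k a)
  rw [LinearMap.finrank_range_of_inj, finrank_prod, f, f]
  refine (injective_iff_map_eq_zero _).2 fun p hp => ?_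
  obtain ⟨h1, h2⟩ := h _ _ p.2.2 hp
  exact Prod.ext (Subtype.ext h1) (Subtype.ext h2)

omit [IsAlgClosed k] in
lemma nd_le {p : k[X]} (h : p ∈ degreeLT k (n + 1)) : p.natDegree ≤ n :=
  (eq_or_ne p 0).elim (fun e => by simp [e]) fun e =>
    Nat.le_of_lt_succ ((natDegree_lt_iff_degree_lt e).2 (mem_degreeLT.1 h))

omit [IsAlgClosed k] [FF k E] in
lemma TT0_rank (hx : Transcendental k x) (a : ℕ) :
    finrank k (LinearMap.range (TT (k := k) x 0 a 0)) = a :=
  TT_rank fun p q hq h => ⟨by_contra fun hp => MP_6f117a_ag.aeval_ne hx hp (by simpa using h),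
    by simpa [mem_degreeLT] using hq⟩

omit [IsAlgClosed k] [FF k E] in
lemma TT0_le (h0 : 0 ≤ D) (h : x ∈ LS D) (n : ℕ) :
    LinearMap.range (TT (k := k) x 0 (n + 1) 0) ≤ LS (n • D) := by
  rintro _ ⟨p, rfl⟩
  simpa [TT_apply] using aeval_mem_LS h0 h (nd_le p.1.2)

lemma Can.pt (h : Can W) (Q : Place k E) : finrank k (LS (Finsupp.single Q 1)) ≤ 1 := by
  have s0 : (0 : Dv k E) ≤ Finsupp.single Q 1 := Finsupp.single_nonneg.2 zero_le_one
  have := rr_fd (0 : Dv k E)
  rw [← rr_zero (k := k) (E := E)]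
  refine Submodule.finrank_mono fun z hz => ?_
  rcases MP_6f117a_ag.const_or_trans (L := k) z with ⟨c, rfl⟩ | ht
  · exact mem_LS.2 fun P => by simpa using P.triv c
  · have := rr_fd (3 • Finsupp.single Q 1 : Dv k E)
    have h1 := Submodule.finrank_mono ((TT0_le s0 hz 2).trans
      (LS_mono (nsmul_le_nsmul_left s0 (by omega : 2 ≤ 3))))
    have h2 := h.big (D := 3 • Finsupp.single Q 1) (by simp)
    rw [TT0_rank ht] at h1
    rw [map_nsmul, deg_single] at h2
    simp only [nsmul_eq_mul, Nat.cast_ofNat, mul_one] at h2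
    omega

variable (k) in
/-- `D` is an effective canonical divisor and `x` is a nonconstant section. -/
structure Hy (D : Dv k E) (x : E) : Prop where
  can : Can D
  eff : 0 ≤ D
  mem : x ∈ LS D
  tr : Transcendental k x

lemma Hy.pole (h : Hy k D x) {Q : Place k E} (hQ : 0 < D Q) : Q.v x = exp (D Q) := by
  by_contra h1
  have h2 : x ∈ LS (D - Finsupp.single Q 1) := mem_LS.2 fun P => by
    by_cases e : P = Q
    · subst e
      by_contra h3
      rw [Finsupp.sub_apply, Finsupp.single_eq_same] at h3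
      have := exact_of_not (O := P) (n := D P - 1) (by simpa using mem_LS.1 h.mem P) h3
      exact h1 (by simpa using this)
    · simpa [Finsupp.single_eq_of_ne e] using mem_LS.1 h.mem P
  have h3 : 0 ≤ D - Finsupp.single Q 1 := fun P => by
    by_cases e : P = Q
    · subst e
      simp only [Finsupp.sub_apply, Finsupp.single_eq_same, Finsupp.zero_apply]
      omega
    · simpa [Finsupp.single_eq_of_ne e] using h.eff P
  have := rr_fd (1 • (D - Finsupp.single Q 1))
  have h4 := Submodule.finrank_mono (TT0_le h3 h2 1)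
  rw [TT0_rank h.tr, one_smul] at h4
  have h5 := h.can (Finsupp.single Q 1)
  have h6 := h.can.pt Q
  rw [deg_single] at h5
  omega

lemma Hy.deg_le (h : Hy k D x) {p : k[X]} (hp : aeval x p ∈ LS (n • D)) : p.natDegree ≤ n := by
  rcases eq_or_ne p 0 with rfl | p0
  · simp
  obtain ⟨Q, hQ⟩ := PL.exists_pole h.tr
  have h1 : 0 < D Q := by
    have := hQ.trans_le (mem_LS.1 h.mem Q)
    rwa [← exp_zero, exp_lt_exp] at this
  have : Q.v.IsTrivialOn k := ⟨fun a ha => Q.v_const ha⟩
  have h2 := mem_LS.1 hp Q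
  rw [valuation_aeval_eq_valuation_X_pow_natDegree_of_one_lt_valuation_X x hQ p0, h.pole h1,
    ← exp_nsmul, exp_le_exp, Finsupp.smul_apply, nsmul_eq_mul, nsmul_eq_mul] at h2
  exact_mod_cast le_of_mul_le_mul_right h2 h1

lemma Hy.poly (h : Hy k D x) (hz : z ∈ LS (n • D)) (m : ℕ) : ∀ a b : k[X], b ≠ 0 →
    b.natDegree = m → z * aeval x b = aeval x a → ∃ p : k[X], z = aeval x p := by
  induction m with
  | zero =>
    intro a b b0 hb e
    rw [eq_C_of_natDegree_eq_zero hb] at e b0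
    have c0 : algebraMap k E (b.coeff 0) ≠ 0 := by simpa using b0
    refine ⟨a * C (b.coeff 0)⁻¹, ?_⟩
    rw [map_mul, ← e, aeval_C, aeval_C, map_inv₀, mul_inv_cancel_right₀ c0]
  | succ m ih =>
    intro a b b0 hb e
    obtain ⟨r, hr⟩ := IsAlgClosed.exists_root b (by
      rw [degree_eq_natDegree b0, hb]; exact_mod_cast m.succ_ne_zero)
    have t1 := MP_6f117a_ag.trans_sub h.tr r
    have t0 := MP_6f117a_ag.trans_ne t1
    obtain ⟨Q, hQ⟩ := PL.exists_pole (MP_6f117a_ag.trans_inv t1)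
    rw [map_inv₀, one_lt_inv₀ (zero_lt_iff.2 (v_ne Q t0))] at hQ
    have v1 := le_one_of_sub hQ
    have d0 : D Q = 0 := le_antisymm (not_lt.1 fun h1 => by
      rw [h.pole h1, ← exp_zero, exp_le_exp] at v1
      omega) (h.eff Q)
    have vp : ∀ p : k[X], Q.v (aeval x p) ≤ 1 := fun p => by
      simpa [d0] using mem_LS.1 (aeval_mem_LS h.eff h.mem (le_refl p.natDegree)) Q
    have vr : ∀ p : k[X], p.IsRoot r → Q.v (aeval x p) < 1 := fun p hp => by
      obtain ⟨q, rfl⟩ := dvd_iff_isRoot.2 hp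
      rw [map_mul, map_mul, map_sub, aeval_X, aeval_C]
      exact mul_lt_one_of_lt_of_le hQ (vp q)
    have vz : Q.v z ≤ 1 := by simpa [d0] using mem_LS.1 hz Q
    have ha : a.IsRoot r := by
      by_contra h1
      have h2 := vr (a - C (a.eval r)) (by simp)
      have h3 : Q.v (aeval x a) < 1 := by
        rw [← e, map_mul, mul_comm]
        exact mul_lt_one_of_lt_of_le (vr b hr) vz
      have h4 := Q.v.map_sub_lt h3 h2
      rw [← map_sub (aeval x : k[X] →ₐ[k] E), sub_sub_cancel, aeval_C, Q.v_const h1] at h4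
      exact lt_irrefl _ h4
    obtain ⟨a', rfl⟩ := dvd_iff_isRoot.2 ha
    obtain ⟨b', rfl⟩ := dvd_iff_isRoot.2 hr
    have b1 : b' ≠ 0 := right_ne_zero_of_mul b0
    rw [natDegree_mul (X_sub_C_ne_zero r) b1, natDegree_X_sub_C] at hb
    refine ih a' b' b1 (by omega) (mul_left_cancel₀ t0 ?_)
    simp only [map_mul, map_sub, aeval_X, aeval_C] at e
    linear_combination e

lemma Hy.rank (h : Hy k D x) (hn : 2 ≤ n) : finrank k (LS (n • D)) = 2 * n - 1 := by
  have e : deg (n • D) = n * 2 := by rw [map_nsmul, h.can.two.2, nsmul_eq_mul]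
  have := h.can.big (D := n • D) (by omega)
  omega

/-- An element whose square is a polynomial of degree at most four is a polynomial. -/
lemma Hy.sq (h : Hy k D x) {g : k[X]} (hg : g.natDegree ≤ 4) (e : z ^ 2 = aeval x g) :
    ∃ p : k[X], z = aeval x p := by
  have h1 : z ∈ LS (2 • D) := mem_LS.2 fun P => by
    have := mem_LS.1 (aeval_mem_LS h.eff h.mem hg) P
    rw [← e, map_pow, show (4 • D) P = 2 • (2 • D) P by simp; ring, exp_nsmul] at this
    exact (pow_le_pow_iff_left₀ zero_le zero_le two_ne_zero).1 this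
  have := rr_fd (2 • D)
  rw [← Submodule.eq_of_le_of_finrank_eq (TT0_le h.eff h.mem 2)
    (by rw [TT0_rank h.tr, h.rank le_rfl])] at h1
  obtain ⟨p, rfl⟩ := h1
  exact ⟨p.1.1, by simp [TT_apply]⟩

lemma Hy.ind (h : Hy k D x) (hy : y ∈ LS (3 • D))
    (hn : y ∉ LinearMap.range (TT (k := k) x 0 4 0)) (p q : k[X])
    (e : aeval x p + aeval x q * y = 0) : p = 0 ∧ q = 0 := by
  have hq : q = 0 := by
    by_contra q0
    obtain ⟨r, rfl⟩ := h.poly hy _ (-p) q q0 rfl (by rw [map_neg]; linear_combination e)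
    refine hn ⟨(⟨r, mem_degreeLT.2 ?_⟩, 0), by simp [TT_apply]⟩
    exact degree_le_natDegree.trans_lt (by exact_mod_cast Nat.lt_succ_of_le (h.deg_le hy))
  subst hq
  exact ⟨by_contra fun hp => MP_6f117a_ag.aeval_ne h.tr hp (by simpa using e), rfl⟩

lemma Hy.quad (h : Hy k D x) (hy : y ∈ LS (3 • D))
    (hi : ∀ p q : k[X], aeval x p + aeval x q * y = 0 → p = 0 ∧ q = 0) :
    ∃ a b : k[X], a.natDegree ≤ 6 ∧ b.natDegree ≤ 3 ∧ y ^ 2 = aeval x a + aeval x b * y := by
  have e : 3 • D + 3 • D = 6 • D := (add_nsmul D 3 3).symm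
  have h1 : LinearMap.range (TT (k := k) x y 7 4) ≤ LS (6 • D) := by
    rintro _ ⟨p, rfl⟩
    exact add_mem (aeval_mem_LS h.eff h.mem (nd_le p.1.2))
      (e ▸ mul_mem_LS (aeval_mem_LS h.eff h.mem (nd_le p.2.2)) hy)
  have := rr_fd (6 • D)
  have h2 : y ^ 2 ∈ LS (6 • D) := by rw [pow_two]; exact e ▸ mul_mem_LS hy hy
  rw [← Submodule.eq_of_le_of_finrank_eq h1
    (by rw [TT_rank fun p q _ => hi p q, h.rank (by omega)])] at h2
  obtain ⟨p, hp⟩ := h2
  exact ⟨_, _, nd_le p.1.2, nd_le p.2.2, hp.symm⟩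

lemma Hy.top (h : Hy k D x)
    (hi : ∀ p q : k[X], aeval x p + aeval x q * y = 0 → p = 0 ∧ q = 0) :
    IntermediateField.adjoin k {x, y} = ⊤ := by
  obtain ⟨Z, h1, h2⟩ := PL.exists_poles h.tr
  have := FF.fin x h.tr
  have h3 : (finrank k⟮x⟯ E : ℤ) ≤ 2 := by
    rw [← h2, ← h.can.two.2, deg_eq_of_subset (S := Z ∪ D.support) Finset.subset_union_right]
    refine (Finset.sum_le_sum fun P hP => ?_).trans (Finset.sum_le_sum_of_subset_of_nonneg
      Finset.subset_union_left fun P _ _ => h.eff P)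
    exact (log_le_iff_le_exp (v_ne P (MP_6f117a_ag.trans_ne h.tr))).2 (mem_LS.1 h.mem P)
  have h4 : LinearIndependent k⟮x⟯ ![(1 : E), y] := by
    refine LinearIndependent.pair_iff.2 fun s t e => ?_
    obtain ⟨a, b, hs⟩ := (IntermediateField.mem_adjoin_simple_iff k (s : E)).1 s.2
    obtain ⟨c, d, ht⟩ := (IntermediateField.mem_adjoin_simple_iff k (t : E)).1 t.2
    have e' : (s : E) * 1 + t * y = 0 := e
    have y0 : y ≠ 0 := fun y0 => one_ne_zero (hi 0 1 (by simp [y0])).2
    by_cases b0 : aeval x b = 0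
    · have s0 : (s : E) = 0 := by rw [hs, b0, div_zero]
      rw [s0, zero_mul, zero_add, mul_eq_zero, or_iff_left y0] at e'
      exact ⟨Subtype.ext s0, Subtype.ext e'⟩
    by_cases d0 : aeval x d = 0
    · have t0 : (t : E) = 0 := by rw [ht, d0, div_zero]
      rw [t0, zero_mul, add_zero, mul_one] at e'
      exact ⟨Subtype.ext e', Subtype.ext t0⟩
    rw [hs, ht] at e'
    obtain ⟨h5, h6⟩ := hi (a * d) (c * b) (by
      rw [map_mul, map_mul]
      field_simp at e'
      linear_combination e')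
    have a0 := (mul_eq_zero.1 h5).resolve_right fun e => d0 (by rw [e, map_zero])
    have c0 := (mul_eq_zero.1 h6).resolve_right fun e => b0 (by rw [e, map_zero])
    exact ⟨Subtype.ext (by rw [hs, a0]; simp), Subtype.ext (by rw [ht, c0]; simp)⟩
  have h5 := h4.fintype_card_le_finrank
  have h6 := h4.span_eq_top_of_card_eq_finrank' (by simp at h5 ⊢; omega)
  refine eq_top_iff.2 fun z _ => ?_
  have h7 : z ∈ Submodule.span k⟮x⟯ (Set.range ![(1 : E), y]) := h6 ▸ Submodule.mem_top
  rw [Matrix.range_cons, Matrix.range_cons, Matrix.range_empty, Set.union_empty,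
    Set.singleton_union, Submodule.mem_span_pair] at h7
  obtain ⟨s, t, rfl⟩ := h7
  have h8 : k⟮x⟯ ≤ IntermediateField.adjoin k {x, y} :=
    IntermediateField.adjoin.mono _ _ _ (by simp)
  exact add_mem (mul_mem (h8 s.2) (one_mem _))
    (mul_mem (h8 t.2) (IntermediateField.subset_adjoin _ _ (by simp)))

end Pool.Agent.P.MP_9344a7_nt.Mod1x
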