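import Pool.Agent.P.MP_9344a7_nt.Tor.Iface

/-! Step LAU. -/

set_option autoImplicit false
set_option linter.unusedSectionVars false

namespace Pool.Agent.P.MP_9344a7_nt.Tor

open Polynomial WithZero
open Pool.Agent.P.MP_6f117a_ag (Place FF)
open Pool.Agent.P.MP_ab3ecb_nt.Inv (ord Dv dv deg SA LS)
open scoped Classical IntermediateField

lemma lau_lt_one {g : ℤᵐ⁰} (h : g < 1) : g ≤ exp (-1 : ℤ) := by
  rcases eq_or_ne g 0 with rfl | h0
  · exact zero_le
  · rw [← exp_log h0] at h ⊢
    rw [← exp_zero, exp_lt_exp] at h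
    exact exp_le_exp.2 (by omega)

lemma lau_exp_lt : (exp (-1 : ℤ) : ℤᵐ⁰) < 1 := by
  rw [← exp_zero, exp_lt_exp]; omega

section
variable {K : Type} [Field K]

lemma lau_v (D : ℤ) (f : LaurentSeries K) :
    Valued.v f ≤ exp (-D : ℤ) ↔ ∀ n : ℤ, n < D → f.coeff n = 0 :=
  LaurentSeries.valuation_le_iff_coeff_lt_eq_zero K

lemma lau_t : Valued.v (tL K) = exp (-1 : ℤ) := LaurentSeries.valuation_single_zpow K 1

lemma lau_triv (c : K) : Valued.v (algebraMap K (LaurentSeries K) c) ≤ 1 := by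
  have := (lau_v 0 (algebraMap K (LaurentSeries K) c)).2 (fun n hn => by
    rw [LaurentSeries.algebraMap_apply, HahnSeries.C_apply, HahnSeries.coeff_single_of_ne hn.ne])
  simpa using this

lemma lau_res (z : LaurentSeries K) (hz : Valued.v z ≤ 1) :
    ∃ c, Valued.v (z - algebraMap K (LaurentSeries K) c) < 1 := by
  refine ⟨z.coeff 0, lt_of_le_of_lt ((lau_v 1 _).2 fun n hn => ?_) lau_exp_lt⟩
  have h0 := (lau_v 0 z).1 (by simpa using hz)
  rw [LaurentSeries.algebraMap_apply, HahnSeries.C_apply, HahnSeries.coeff_sub]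
  rcases eq_or_ne n 0 with rfl | hn0
  · simp
  · rw [HahnSeries.coeff_single_of_ne hn0, h0 n (by omega), sub_zero]

lemma lau_ban (z0 : LaurentSeries K) (Ψ : LaurentSeries K → LaurentSeries K)
    (h1 : ∀ z, Valued.v (z - z0) < 1 → Valued.v (Ψ z - z0) < 1)
    (h2 : ∀ z z', Valued.v (z - z0) < 1 → Valued.v (z' - z0) < 1 →
      Valued.v (Ψ z - Ψ z') ≤ Valued.v (tL K) * Valued.v (z - z')) :
    ∃ z, Valued.v (z - z0) < 1 ∧ Ψ z = z := by
  have hs : ∀ n : ℕ, Valued.v (Ψ^[n] z0 - z0) < 1 := by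
    intro n
    induction n with
    | zero => simp
    | succ n ih => rw [Function.iterate_succ_apply']; exact h1 _ ih
  have hstep : ∀ (k : ℤ) (z z' : LaurentSeries K), Valued.v (z - z0) < 1 →
      Valued.v (z' - z0) < 1 → Valued.v (z - z') ≤ exp (-k) →
      Valued.v (Ψ z - Ψ z') ≤ exp (-(k + 1)) := by
    intro k z z' a b c
    refine (h2 z z' a b).trans ?_
    rw [lau_t, show -(k + 1) = -1 + -k by ring, exp_add]
    exact mul_le_mul_right c _
  have hd : ∀ n : ℕ, Valued.v (Ψ^[n + 1] z0 - Ψ^[n] z0) ≤ exp (-((n : ℤ) + 1)) := by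
    intro n
    induction n with
    | zero => simpa using lau_lt_one (hs 1)
    | succ n ih =>
      have := hstep _ _ _ (hs (n + 1)) (hs n) ih
      rw [← Function.iterate_succ_apply' Ψ (n + 1), ← Function.iterate_succ_apply' Ψ n] at this
      simpa using this
  have hc : ∀ k n : ℕ, k ≤ n → Valued.v (Ψ^[n] z0 - Ψ^[k] z0) ≤ exp (-((k : ℤ) + 1)) := by
    intro k n hkn
    induction n, hkn using Nat.le_induction with
    | base => simp
    | succ n hkn ih =>
      rw [← sub_add_sub_cancel _ (Ψ^[n] z0)]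
      refine Valuation.map_add_le _ ((hd n).trans (exp_le_exp.2 (by omega))) ih
  let F : PowerSeries K := PowerSeries.mk fun k => (Ψ^[k] z0 - z0).coeff k
  have hF : ∀ n : ℕ, Valued.v (Ψ^[n] z0 - (z0 + (F : LaurentSeries K))) ≤
      exp (-((n : ℤ) + 1)) := by
    intro n
    refine (lau_v _ _).2 fun j hj => ?_
    rw [← sub_sub, HahnSeries.coeff_sub, PowerSeries.coeff_coe]
    split_ifs with hneg
    · rw [sub_zero]
      exact (lau_v 1 _).1 (lau_lt_one (hs n)) j (by omega)
    · obtain ⟨k, rfl⟩ := Int.eq_ofNat_of_zero_le (not_lt.1 hneg)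
      have := (lau_v _ _).1 (hc k n (by omega)) k (by omega)
      simp only [Int.natAbs_natCast, F, PowerSeries.coeff_mk]
      rw [← HahnSeries.coeff_sub, sub_sub_sub_cancel_right]
      exact this
  have hz : Valued.v (z0 + (F : LaurentSeries K) - z0) < 1 := by
    have := hF 0
    rw [Function.iterate_zero_apply, ← Valuation.map_neg, neg_sub] at this
    exact lt_of_le_of_lt (by simpa using this) lau_exp_lt
  refine ⟨z0 + (F : LaurentSeries K), hz, ?_⟩
  rw [← sub_eq_zero]
  ext j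
  obtain ⟨n, hn⟩ : ∃ n : ℕ, j < (n : ℤ) + 1 + 1 := ⟨j.toNat, by omega⟩
  have a1 := hstep _ _ _ (hs n) hz (hF n)
  have a2 := hF (n + 1)
  rw [Function.iterate_succ_apply'] at a2
  have a3 : Valued.v (Ψ (z0 + (F : LaurentSeries K)) - (z0 + (F : LaurentSeries K))) ≤
      exp (-((n : ℤ) + 1 + 1)) := by
    rw [← sub_sub_sub_cancel_left _ _ (Ψ (Ψ^[n] z0))]
    refine Valuation.map_sub_le _ (by simpa using a2) a1
  simpa using (lau_v _ _).1 a3 j hn

lemma lau_sq (h2 : (2 : K) ≠ 0) (z : LaurentSeries K) (c : K) (hc : c ≠ 0)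
    (hz : Valued.v (z - algebraMap K (LaurentSeries K) (c ^ 2)) < 1) :
    ∃ y, y ^ 2 = z ∧ Valued.v (y - algebraMap K (LaurentSeries K) c) < 1 := by
  set a := algebraMap K (LaurentSeries K) c with ha
  set e := algebraMap K (LaurentSeries K) (2 * c)⁻¹ with he
  have hea : e * (2 * a) = 1 := by
    rw [he, ha, ← map_ofNat (algebraMap K (LaurentSeries K)) 2, ← map_mul, ← map_mul,
      inv_mul_cancel₀ (mul_ne_zero h2 hc), map_one]
  have he1 : Valued.v e ≤ 1 := lau_triv _
  have he0 : e ≠ 0 := left_ne_zero_of_mul_eq_one hea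
  rw [map_pow, ← ha] at hz
  obtain ⟨y, hy, hΨ⟩ := lau_ban a (fun y => y - e * (y ^ 2 - z)) (fun y hy => by
    have : y - e * (y ^ 2 - z) - a = e * ((z - a ^ 2) - (y - a) * (y - a)) := by
      linear_combination (a - y) * hea
    rw [this, map_mul]
    refine lt_of_le_of_lt (mul_le_of_le_one_left' he1) (Valuation.map_sub_lt _ hz ?_)
    rw [map_mul]
    exact lt_of_le_of_lt (mul_le_of_le_one_left' hy.le) hy) (fun y y' hy hy' => by
    have : y - e * (y ^ 2 - z) - (y' - e * (y' ^ 2 - z)) =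
        e * (-((y - a) + (y' - a))) * (y - y') := by
      linear_combination (y' - y) * hea
    rw [this, map_mul, map_mul, Valuation.map_neg, lau_t]
    refine mul_le_mul_left ((mul_le_of_le_one_left' he1).trans (lau_lt_one ?_)) _
    exact Valuation.map_add_lt _ hy hy')
  refine ⟨y, ?_, hy⟩
  have : e * (y ^ 2 - z) = 0 := by simpa using hΨ
  exact sub_eq_zero.1 ((mul_eq_zero.1 this).resolve_left he0)

lemma lau_aeval (w : LaurentSeries K) (hw : Valued.v w ≤ 1) (q : K[X]) :
    Valued.v (aeval w q) ≤ 1 := by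
  induction q using Polynomial.induction_on' with
  | add p q hp hq => rw [map_add]; exact Valuation.map_add_le _ hp hq
  | monomial n a =>
    rw [aeval_monomial, map_mul, map_pow]
    exact mul_le_one' (lau_triv a) (pow_le_one' hw n)

lemma lau_cst (z : LaurentSeries K) (c : K) (hz : IsAlgebraic K z)
    (hv : Valued.v (z - algebraMap K (LaurentSeries K) c) < 1) :
    z = algebraMap K (LaurentSeries K) c := by
  by_contra hne
  set w := z - algebraMap K (LaurentSeries K) c with hw
  have hw0 : w ≠ 0 := sub_ne_zero.2 hne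
  have hi : IsIntegral K w := (hz.sub (isAlgebraic_algebraMap c)).isIntegral
  have h0 := minpoly.coeff_zero_ne_zero hi hw0
  have h1 := minpoly.aeval K w
  rw [← X_mul_divX_add (minpoly K w), map_add, map_mul, aeval_X, aeval_C] at h1
  have h3 : Valued.v (algebraMap K (LaurentSeries K) ((minpoly K w).coeff 0)) < 1 := by
    rw [eq_neg_of_add_eq_zero_right h1, Valuation.map_neg, map_mul]
    exact lt_of_le_of_lt (mul_le_of_le_one_right' (lau_aeval w hv.le _)) hv
  have h4 : Valued.v (algebraMap K (LaurentSeries K) (((minpoly K w).coeff 0)⁻¹ *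
      (minpoly K w).coeff 0)) < 1 := by
    rw [map_mul, map_mul]
    exact lt_of_le_of_lt (mul_le_of_le_one_left' (lau_triv _)) h3
  rw [inv_mul_cancel₀ h0, map_one, map_one] at h4
  exact lt_irrefl _ h4

lemma lau_cl (z : LaurentSeries K) (hz : IsAlgebraic (AL K) z) :
    ∃ a, algebraMap (AL K) (LaurentSeries K) a = z := by
  have h : IsAlgebraic
      (algebraicClosure (IntermediateField.adjoin K {tL K}) (LaurentSeries K)) z := hz
  exact ⟨⟨z, mem_ALf.2 (h.restrictScalars _)⟩, rfl⟩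

end

theorem p_LAU :
    S_LAU := by
  intro K _ h2
  refine ⟨Valued.v, ⟨?_, lau_cl⟩⟩
  change Ana K _ (tL K)
  refine ⟨lau_triv, ?_, ?_, fun z hz => ?_, lau_res, lau_ban, lau_sq h2, lau_cst⟩
  · exact HahnSeries.single_ne_zero one_ne_zero
  · rw [lau_t]; exact lau_exp_lt
  · rw [lau_t]; exact lau_lt_one hz

end Pool.Agent.P.MP_9344a7_nt.Tor
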