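import Pool.Agent.P.MP_9344a7_nt.Tor.Iface

/-! Step FRE. -/

set_option autoImplicit false
set_option linter.unusedSectionVars false

namespace Pool.Agent.P.MP_9344a7_nt.Tor

open Polynomial WithZero
open Pool.Agent.P.MP_6f117a_ag (Place FF)
open Pool.Agent.P.MP_ab3ecb_nt.Inv (ord Dv dv deg SA LS)
open scoped Classical IntermediateField

def freRep {G G' : Type} [AddCommGroup G] [AddCommGroup G'] (D : Finset G) (l : G → G')
    (n : ℕ) (a : G) (v : G') : Prop :=
  ∃ x y : Fin n → G, (∀ i, x i ∈ D) ∧ (∀ i, y i ∈ D) ∧ a = ∑ i, x i - ∑ i, y i ∧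
    v = ∑ i, l (x i) - ∑ i, l (y i)

section
variable {G G' : Type} [AddCommGroup G] [AddCommGroup G'] {D : Finset G} {l : G → G'}

lemma fre_mem {n m : ℕ} {x : Fin n → G} {y : Fin m → G} (hx : ∀ i, x i ∈ D) (hy : ∀ i, y i ∈ D) :
    ∀ i, Fin.append x y i ∈ D := by
  intro i
  refine Fin.addCases (fun j => ?_) (fun j => ?_) i
  · simpa using hx j
  · simpa using hy j

lemma fre_sum {H : Type} [AddCommGroup H] (φ : G → H) {n m : ℕ} (x : Fin n → G) (y : Fin m → G) :
    ∑ i, φ (Fin.append x y i) = ∑ i, φ (x i) + ∑ i, φ (y i) := by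
  rw [Fin.sum_univ_add]
  simp

lemma fre_add {n m : ℕ} {a b : G} {v w : G'} (h : freRep D l n a v) (h' : freRep D l m b w) :
    freRep D l (n + m) (a + b) (v + w) := by
  obtain ⟨x, y, hx, hy, rfl, rfl⟩ := h
  obtain ⟨x', y', hx', hy', rfl, rfl⟩ := h'
  refine ⟨Fin.append x x', Fin.append y y', fre_mem hx hx', fre_mem hy hy', ?_, ?_⟩
  · have h1 := fre_sum (fun z : G => z) x x'
    have h2 := fre_sum (fun z : G => z) y y'
    rw [h1, h2]; abel
  · rw [fre_sum l x x', fre_sum l y y']; abel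

lemma fre_neg {n : ℕ} {a : G} {v : G'} (h : freRep D l n a v) : freRep D l n (-a) (-v) := by
  obtain ⟨x, y, hx, hy, rfl, rfl⟩ := h
  exact ⟨y, x, hy, hx, by abel, by abel⟩

lemma fre_zero : freRep D l 0 0 0 :=
  ⟨Fin.elim0, Fin.elim0, fun i => i.elim0, fun i => i.elim0, by simp, by simp⟩

lemma fre_one {d d' : G} (hd : d ∈ D) (hd' : d' ∈ D) : freRep D l 1 (d - d') (l d - l d') :=
  ⟨fun _ => d, fun _ => d', fun _ => hd, fun _ => hd', by simp, by simp⟩

lemma fre_succ {n : ℕ} {a : G} {v : G'} (h : freRep D l (n + 1) a v) :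
    ∃ a' v' d d', d ∈ D ∧ d' ∈ D ∧ freRep D l n a' v' ∧ a = a' + (d - d') := by
  obtain ⟨x, y, hx, hy, rfl, rfl⟩ := h
  refine ⟨_, _, x 0, y 0, hx 0, hy 0,
    ⟨fun i => x i.succ, fun i => y i.succ, fun i => hx _, fun i => hy _, rfl, rfl⟩, ?_⟩
  rw [Fin.sum_univ_succ, Fin.sum_univ_succ]; abel

lemma fre_uniq {M : ℕ} (hM : ∀ m ≤ M, ∀ a b : Fin m → G, (∀ i, a i ∈ D) →
    (∀ i, b i ∈ D) → ∑ i, a i = ∑ i, b i → ∑ i, l (a i) = ∑ i, l (b i))
    {n m : ℕ} (hnm : n + m ≤ M) {a : G} {v w : G'} (h : freRep D l n a v)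
    (h' : freRep D l m a w) : v = w := by
  obtain ⟨x, y, hx, hy, ha, rfl⟩ := h
  obtain ⟨x', y', hx', hy', ha', rfl⟩ := h'
  have key := hM (n + m) hnm (Fin.append x y') (Fin.append y x') (fre_mem hx hy') (fre_mem hy hx')
    (by
      have h1 := fre_sum (fun z : G => z) x y'
      have h2 := fre_sum (fun z : G => z) y x'
      rw [h1, h2]
      have h3 : ∑ i, x i - ∑ i, y i = ∑ i, x' i - ∑ i, y' i := ha.symm.trans ha'
      rw [sub_eq_sub_iff_add_eq_add] at h3
      rw [h3, add_comm])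
  rw [fre_sum l x y', fre_sum l y x'] at key
  rw [sub_eq_sub_iff_add_eq_add, key, add_comm]

end

theorem p_FRE :
    S_FRE := by
  intro C0 G G' _ _ _ D l hH hD hM
  have hG : 0 < Fintype.card G := Fintype.card_pos
  have hDpos : 0 < D.card := by
    rcases Nat.eq_zero_or_pos D.card with h | h
    · rw [h] at hD; omega
    · exact h
  obtain ⟨d0, hd0⟩ := Finset.card_pos.mp hDpos
  let H : AddSubgroup G :=
    { carrier := {a | ∃ n v, freRep D l n a v}
      add_mem' := fun ⟨n, v, h⟩ ⟨m, w, h'⟩ => ⟨_, _, fre_add h h'⟩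
      zero_mem' := ⟨0, 0, fre_zero⟩
      neg_mem' := fun ⟨n, v, h⟩ => ⟨n, _, fre_neg h⟩ }
  have hHtop : H = ⊤ := by
    apply hH
    refine hD.trans (Nat.mul_le_mul_left _ ?_)
    have : Nat.card D ≤ Nat.card H := by
      refine Nat.card_le_card_of_injective
        (fun d : D => (⟨d.1 - d0, 1, _, fre_one d.2 hd0⟩ : H)) ?_
      intro d d' h
      have h1 : d.1 - d0 = d'.1 - d0 := congrArg Subtype.val h
      exact Subtype.ext (sub_left_injective h1)
    simpa using this
  have hall : ∀ a : G, ∃ n, ∃ v, freRep D l n a v := by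
    intro a
    have : a ∈ H := hHtop ▸ AddSubgroup.mem_top a
    exact this
  let len : G → ℕ := fun a => Nat.find (hall a)
  have hlen : ∀ a, ∃ v, freRep D l (len a) a v := fun a => Nat.find_spec (hall a)
  have hmin : ∀ a n v, freRep D l n a v → len a ≤ n := fun a n v h => Nat.find_min' _ ⟨v, h⟩
  have hstep : ∀ a d d', d ∈ D → d' ∈ D → len (a + (d - d')) ≤ len a + 1 := by
    intro a d d' hd hd'
    obtain ⟨v, hv⟩ := hlen a
    exact hmin _ _ _ (fre_add hv (fre_one hd hd'))
  have hdown : ∀ n k a, len a = k + n → ∃ b, len b = k := by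
    intro n
    induction n with
    | zero => intro k a h; exact ⟨a, h⟩
    | succ n ih =>
      intro k a h
      obtain ⟨v, hv⟩ := hlen a
      rw [h, ← add_assoc] at hv
      obtain ⟨a', v', d, d', hd, hd', h1, h2⟩ := fre_succ hv
      have h3 := hmin _ _ _ h1
      have h4 := hstep a' d d' hd hd'
      rw [← h2] at h4
      exact ih k a' (by omega)
  have hbd : ∀ a, len a ≤ 2 * C0 := by
    intro a
    by_contra hc
    have hex : ∀ i : Fin (C0 + 1), ∃ b, len b = 2 * (i : ℕ) := by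
      intro i
      have := i.2
      exact hdown (len a - 2 * i) (2 * i) a (by omega)
    choose b hb using hex
    have hinj : Function.Injective fun z : Fin (C0 + 1) × D => b z.1 + z.2.1 := by
      rintro ⟨i, d⟩ ⟨j, d'⟩ h
      simp only at h
      have h1 : b j = b i + (d.1 - d'.1) := by rw [← add_sub_assoc, h]; abel
      have h2 : b i = b j + (d'.1 - d.1) := by rw [← add_sub_assoc, ← h]; abel
      have h3 := hstep (b i) _ _ d.2 d'.2
      have h4 := hstep (b j) _ _ d'.2 d.2
      rw [← h1, hb, hb] at h3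
      rw [← h2, hb, hb] at h4
      have hij : i = j := Fin.ext (by omega)
      subst hij
      exact Prod.ext rfl (Subtype.ext (add_left_cancel h))
    have hc2 := Fintype.card_le_of_injective _ hinj
    simp only [Fintype.card_prod, Fintype.card_fin, Fintype.card_coe] at hc2
    have : (C0 + 1) * D.card ≤ C0 * D.card := hc2.trans hD
    rw [add_mul] at this
    omega
  choose V hV using hlen
  have hadd : ∀ a b, V (a + b) = V a + V b := by
    intro a b
    have h1 := hbd a
    have h2 := hbd b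
    have h3 := hbd (a + b)
    exact fre_uniq hM (by omega) (hV (a + b)) (fre_add (hV a) (hV b))
  refine ⟨AddMonoidHom.mk' V hadd, l d0 - V d0, fun d hd => ?_⟩
  have h1 := hbd (d - d0)
  have h2 : V (d - d0) = l d - l d0 := fre_uniq hM (by omega) (hV (d - d0)) (fre_one hd hd0)
  have h3 := hadd (d - d0) d0
  rw [sub_add_cancel, h2] at h3
  change l d = V d + (l d0 - V d0)
  rw [h3]; abel

end Pool.Agent.P.MP_9344a7_nt.Tor
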