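import Pool.Agent.P.MP_9344a7_nt.Tor.Iface

/-! Step HUA. -/

set_option autoImplicit false
set_option linter.unusedSectionVars false

namespace Pool.Agent.P.MP_9344a7_nt.Tor

open Polynomial WithZero
open Pool.Agent.P.MP_6f117a_ag (Place FF)
open Pool.Agent.P.MP_ab3ecb_nt.Inv (ord Dv dv deg SA LS)
open scoped Classical IntermediateField

theorem p_HUA (hLIN : S_LIN) :
    S_HUA := by
  intro F _ _ S Λ Λ' a b hS h2 h hinj
  obtain ⟨n, hp, hq⟩ := FiniteField.card F (ringChar F)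
  set p := ringChar F
  have := Fact.mk hp
  have : ExpChar F p := ExpChar.prime hp
  obtain ⟨u, hu⟩ := hLIN F p n hq Λ
  obtain ⟨v, hv⟩ := hLIN F p n hq Λ'
  obtain ⟨m, hm⟩ : ∃ m : ℕ, (n : ℕ) = m + 1 := ⟨n - 1, by have := n.pos; omega⟩
  have hD : ∀ i : Fin n, p ^ (i : ℕ) ≤ p ^ m := fun i =>
    Nat.pow_le_pow_right hp.pos (by have := i.2; omega)
  have hS' : 2 * p ^ m < S.card := by
    rw [hq, hm, pow_succ] at hS
    exact lt_of_mul_lt_mul_left (a := p) (by linarith) (Nat.zero_le _)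
  let L : F[X] := ∑ i : Fin n, C (u i) * X ^ p ^ (i : ℕ) + C a
  let M : F[X] := ∑ i : Fin n, C (v i) * X ^ (p ^ m - p ^ (i : ℕ)) + C b * X ^ p ^ m
  have eL : ∀ w, L.eval w = Λ w + a := fun w => by simp [L, eval_finsetSum, hu]
  have eM : ∀ w, w ≠ 0 → M.eval w = w ^ p ^ m * (Λ' w⁻¹ + b) := fun w hw => by
    simp only [M, eval_add, eval_finsetSum, eval_mul, eval_C, eval_pow, eval_X, hv, mul_add,
      Finset.mul_sum]
    congr 1
    · exact Finset.sum_congr rfl fun i _ => by rw [pow_sub₀ _ hw (hD i), inv_pow]; ring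
    · ring
  have dL : L.natDegree ≤ p ^ m := natDegree_add_le_of_degree_le
    (natDegree_sum_le_of_forall_le _ _ fun i _ => (natDegree_C_mul_X_pow_le _ _).trans (hD i))
    (by simp)
  have dM : M.natDegree ≤ p ^ m := natDegree_add_le_of_degree_le
    (natDegree_sum_le_of_forall_le _ _ fun i _ =>
      (natDegree_C_mul_X_pow_le _ _).trans (Nat.sub_le _ _)) (natDegree_C_mul_X_pow_le _ _)
  have e : L * M - X ^ p ^ m = 0 := by
    refine eq_zero_of_natDegree_lt_card_of_eval_eq_zero' _ S (fun w hw => ?_) ?_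
    · rw [eval_sub, eval_mul, eL, eM w (h w hw).1, mul_left_comm, (h w hw).2]; simp
    · refine lt_of_le_of_lt (natDegree_sub_le_of_le (m := 2 * p ^ m) (n := 2 * p ^ m)
        (natDegree_mul_le.trans (by omega)) (by rw [natDegree_X_pow]; omega)) (by simpa using hS')
  obtain ⟨j, -, t, ht⟩ := (dvd_prime_pow prime_X _).1 ⟨M, (sub_eq_zero.1 e).symm⟩
  obtain ⟨c, hc, hc'⟩ := Polynomial.isUnit_iff.1 t⁻¹.isUnit
  have hL : L = C c * X ^ j := by rw [hc', ← ht, mul_comm, mul_assoc]; simp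
  have hj : j ≠ 0 := by
    rintro rfl
    obtain ⟨x, hx, y, hy, hxy⟩ := Finset.one_lt_card.1 h2
    refine hxy (hinj hx hy (add_right_cancel (b := a) ?_))
    rw [← eL, ← eL, hL]; simp
  obtain ⟨i, hi⟩ : ∃ i : Fin n, j = p ^ (i : ℕ) := by
    by_contra hh
    push Not at hh
    have := congrArg (fun r => r.coeff j) hL
    simp [L, coeff_C, hj, coeff_X_pow, hh] at this
    exact hc.ne_zero this.symm
  exact ⟨iterateFrobeniusEquiv F p i, c, hc.ne_zero, fun w => by
    rw [← eL, hL, hi, iterateFrobeniusEquiv_def]; simp⟩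

end Pool.Agent.P.MP_9344a7_nt.Tor
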