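import Pool.Agent.P.MP_9344a7_nt.Tor.Iface

/-! Step IRR. -/

set_option autoImplicit false
set_option linter.unusedSectionVars false

namespace Pool.Agent.P.MP_9344a7_nt.Tor

open Polynomial WithZero
open Pool.Agent.P.MP_6f117a_ag (Place FF)
open Pool.Agent.P.MP_ab3ecb_nt.Inv (ord Dv dv deg SA LS)
open scoped Classical IntermediateField

lemma irr_alg {K : Type} [Field K] (c : K) :
    algebraMap K (LaurentSeries K) c = HahnSeries.C c := by
  rw [HahnSeries.algebraMap_apply', PowerSeries.algebraMap_eq, HahnSeries.ofPowerSeries_C]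

/-- The coefficientwise map of Laurent series. -/
noncomputable def irrMap {K E : Type} [Field K] [Field E] (ρ : K →+* E) :
    LaurentSeries K →+* LaurentSeries E where
  toFun x := x.map ρ
  map_one' := HahnSeries.map_one ρ.toMonoidWithZeroHom
  map_mul' _ _ := HahnSeries.map_mul ρ.toNonUnitalRingHom
  map_zero' := by ext; simp
  map_add' _ _ := by ext; simp

/-- Evaluation after extension of the coefficients. -/
noncomputable def irrEv {K E : Type} [Field K] [Field E] (ρ : K →+* E) (t θ : LaurentSeries K) :
    E[X][X] →+* LaurentSeries E :=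
  eval₂RingHom (eval₂RingHom HahnSeries.C (irrMap ρ t)) (irrMap ρ θ)

lemma irr_ev_map {K E : Type} [Field K] [Field E] (ρ : K →+* E) (t θ : LaurentSeries K)
    (Ψ : K[X][X]) : irrEv ρ t θ (Ψ.map (mapRingHom ρ)) = irrMap ρ (aevalAeval t θ Ψ) := by
  have : (irrEv ρ t θ).comp (mapRingHom (mapRingHom ρ)) =
      (irrMap ρ).comp (aevalAeval (R := K) t θ : K[X][X] →+* LaurentSeries K) := by
    refine Polynomial.ringHom_ext' (Polynomial.ringHom_ext (fun a => ?_) ?_) ?_
    · have h : aevalAeval (R := K) t θ (C (C a)) = HahnSeries.C a := by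
        rw [aevalAeval_C, aeval_C, irr_alg]
      have h2 : irrMap ρ (HahnSeries.C a) = HahnSeries.C (ρ a) := HahnSeries.map_C a ρ
      simp only [RingHom.comp_apply, RingHom.coe_coe, h, h2]
      simp [irrEv]
    · simp only [RingHom.comp_apply, RingHom.coe_coe, aevalAeval_X]
      simp [irrEv]
    · simp only [RingHom.comp_apply, RingHom.coe_coe, aevalAeval_Y]
      simp [irrEv]
  exact DFunLike.congr_fun this Ψ

lemma irr_fun {K E : Type} [Field K] [Field E] (ρ : K →+* E) (t θ : LaurentSeries K)
    (l : E →+ K) (hl : ∀ c a, l (c * ρ a) = l c * a) (G : E[X][X]) :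
    ∃ G' : K[X][X], (∀ i j, (G'.coeff i).coeff j = l ((G.coeff i).coeff j)) ∧
      ∀ n, (aevalAeval t θ G').coeff n = l ((irrEv ρ t θ G).coeff n) := by
  induction G using Polynomial.induction_on' with
  | add p q hp hq =>
    obtain ⟨p', h1, h2⟩ := hp
    obtain ⟨q', h3, h4⟩ := hq
    exact ⟨p' + q', fun i j => by simp [h1, h3], fun n => by
      rw [map_add, map_add, HahnSeries.coeff_add, HahnSeries.coeff_add, map_add, h2, h4]⟩
  | monomial i p =>
    induction p using Polynomial.induction_on' with
    | add p q hp hq =>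
      obtain ⟨p', h1, h2⟩ := hp
      obtain ⟨q', h3, h4⟩ := hq
      exact ⟨p' + q', fun i j => by simp [h1, h3], fun n => by
        rw [map_add, map_add, map_add, HahnSeries.coeff_add, HahnSeries.coeff_add, map_add, h2,
          h4]⟩
    | monomial j c =>
      refine ⟨monomial i (monomial j (l c)), fun a b => ?_, fun n => ?_⟩
      · simp only [coeff_monomial]
        split_ifs
        · simp only [coeff_monomial]
          split_ifs <;> simp
        · simp
      · have e1 : aevalAeval t θ (monomial i (monomial j (l c))) =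
            HahnSeries.C (l c) * (t ^ j * θ ^ i) := by
          rw [← C_mul_X_pow_eq_monomial, map_mul, map_pow, aevalAeval_C, aevalAeval_Y,
            aeval_monomial, irr_alg, mul_assoc]
        have e2 : irrEv ρ t θ (monomial i (monomial j c)) =
            HahnSeries.C c * irrMap ρ (t ^ j * θ ^ i) := by
          simp only [irrEv, coe_eval₂RingHom, eval₂_monomial, map_mul, map_pow, mul_assoc]
        rw [e1, e2, HahnSeries.C_mul_eq_smul, HahnSeries.C_mul_eq_smul, HahnSeries.coeff_smul,
          HahnSeries.coeff_smul, smul_eq_mul, smul_eq_mul, ← hl]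
        rfl

theorem p_IRR :
    S_IRR := by
  intro K _ θ Ψ hm hd h0 hmin E _ ρ
  letI : Algebra K E := ρ.toAlgebra
  have key : ∀ G : E[X][X], G.natDegree < Ψ.natDegree → irrEv ρ (tL K) θ G = 0 → G = 0 := by
    intro G hG hG0
    ext i j
    rw [coeff_zero, coeff_zero, ← Module.forall_dual_apply_eq_zero_iff K]
    intro l
    obtain ⟨G', h1, h2⟩ := irr_fun ρ (tL K) θ l.toAddMonoidHom (fun c a => by
      change l (c * ρ a) = l c * a
      rw [mul_comm, mul_comm (l c), ← smul_eq_mul a, ← map_smul]; rfl) G
    have h3 : G' = 0 := by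
      refine hmin G' (lt_of_le_of_lt (natDegree_le_iff_coeff_eq_zero.2 fun N hN => ?_) hG) ?_
      · ext k
        rw [h1, coeff_eq_zero_of_natDegree_lt hN]; simp
      · ext n
        rw [h2, hG0]; simp
    have := h1 i j
    rw [h3] at this
    simpa using this.symm
  have hm' := hm.map (mapRingHom ρ)
  have hd' : (Ψ.map (mapRingHom ρ)).natDegree = Ψ.natDegree := hm.natDegree_map _
  rw [hm'.irreducible_iff_natDegree]
  refine ⟨fun h => by rw [h, natDegree_one] at hd'; omega, fun f g hf hg e => ?_⟩
  have h1 : irrEv ρ (tL K) θ f * irrEv ρ (tL K) θ g = 0 := by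
    rw [← map_mul, e, irr_ev_map, h0, map_zero]
  have h2 : f.natDegree + g.natDegree = Ψ.natDegree := by rw [← hf.natDegree_mul hg, e, hd']
  by_contra hc
  rcases mul_eq_zero.1 h1 with h | h
  · exact hf.ne_zero (key f (by omega) h)
  · exact hg.ne_zero (key g (by omega) h)

end Pool.Agent.P.MP_9344a7_nt.Tor
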