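import Pool.Agent.P.MP_9344a7_nt.Tor.Iface

/-! Step LIN. -/

set_option autoImplicit false
set_option linter.unusedSectionVars false

namespace Pool.Agent.P.MP_9344a7_nt.Tor

open Polynomial WithZero
open Pool.Agent.P.MP_6f117a_ag (Place FF)
open Pool.Agent.P.MP_ab3ecb_nt.Inv (ord Dv dv deg SA LS)
open scoped Classical IntermediateField

theorem p_LIN :
    S_LIN := by
  intro F _ _ p n _ hcard Λ
  have hp : p.Prime := CharP.char_is_prime F p
  haveI : Fact p.Prime := ⟨hp⟩
  letI : Algebra (ZMod p) F := ZMod.algebra F p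
  have hn : Module.finrank (ZMod p) F = n := by
    have h1 := FiniteField.pow_finrank_eq_card p F
    rw [hcard] at h1
    exact Nat.pow_right_injective hp.two_le h1
  subst hn
  have hli : LinearIndependent F (fun i : Fin (Module.finrank (ZMod p) F) =>
      (FiniteField.frobeniusAlgHom (ZMod p) F ^ i.1).toLinearMap) :=
    (linearIndependent_algHom_toLinearMap (ZMod p) F F).comp _
      (FiniteField.bijective_frobeniusAlgHom_pow (ZMod p) F).1
  have hsp := hli.span_eq_top_of_card_eq_finrank'
    (by rw [Fintype.card_fin, Module.finrank_linearMap_self])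
  have hmem : Λ.toZModLinearMap p ∈ Submodule.span F (Set.range
      (fun i : Fin (Module.finrank (ZMod p) F) =>
        (FiniteField.frobeniusAlgHom (ZMod p) F ^ i.1).toLinearMap)) := by
    rw [hsp]; trivial
  obtain ⟨a, ha⟩ := (Submodule.mem_span_range_iff_exists_fun F).1 hmem
  refine ⟨a, fun w => ?_⟩
  have h2 := LinearMap.congr_fun ha w
  rw [AddMonoidHom.coe_toZModLinearMap] at h2
  rw [← h2, LinearMap.sum_apply]
  refine Finset.sum_congr rfl fun i _ => ?_
  rw [LinearMap.smul_apply, smul_eq_mul, AlgHom.toLinearMap_apply, AlgHom.coe_pow,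
    FiniteField.coe_frobeniusAlgHom, pow_iterate, ZMod.card]

end Pool.Agent.P.MP_9344a7_nt.Tor
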