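import Pool.Agent.P.MP_9344a7_nt.Tor.Iface

/-! Step PAC. -/

set_option autoImplicit false
set_option linter.unusedSectionVars false

namespace Pool.Agent.P.MP_9344a7_nt.Tor

open Polynomial WithZero
open Pool.Agent.P.MP_6f117a_ag (Place FF)
open Pool.Agent.P.MP_ab3ecb_nt.Inv (ord Dv dv deg SA LS)
open scoped Classical IntermediateField

lemma pac_ev {F : ℕ → Type} [∀ n, Field (F n)] {K : Type} [Field K] {U : Ultrafilter ℕ}
    {π : (∀ n, F n) →+* K} (h : IsUP U π) {G : (∀ n, F n)[X]} (hG : G.map π = 0) :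
    ∀ᶠ n in U, G.map (Pi.evalRingHom F n) = 0 := by
  have h1 : ∀ᶠ n in U, ∀ i ∈ G.support, G.coeff i n = 0 :=
    (Filter.eventually_all_finset _).2 fun i _ => (h.ker _).1 (by rw [← coeff_map, hG, coeff_zero])
  refine h1.mono fun n hn => Polynomial.ext fun i => ?_
  rw [coeff_map, coeff_zero]
  by_cases hi : i ∈ G.support
  · exact hn i hi
  · rw [notMem_support_iff.1 hi, map_zero]

lemma pac_pick {F : Type} [Field F] [Fintype F] {κ : Type} [Fintype κ] (A : Set F) (b : F[X])
    (B : Finset F) (Q : κ → F → F[X]) (d : ℕ) (hb : b ≠ 0) (hQ : ∀ j β, Q j β ≠ 0)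
    (h1 : b.natDegree ≤ d) (h2 : ∀ j β, (Q j β).natDegree ≤ d)
    (h3 : d + Fintype.card κ * B.card * d < A.ncard) :
    ∃ a ∈ A, b.eval a ≠ 0 ∧ ∀ j, ∀ β ∈ B, (Q j β).eval a ≠ 0 := by
  have h4 : (b.roots.toFinset ∪ ((Finset.univ : Finset κ) ×ˢ B).biUnion
      fun z => (Q z.1 z.2).roots.toFinset).card < A.toFinset.card := by
    rw [← Set.ncard_eq_toFinset_card']
    refine ((Finset.card_union_le _ _).trans (add_le_add ?_ ?_)).trans_lt h3
    · exact (Multiset.toFinset_card_le _).trans ((card_roots' _).trans h1)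
    · refine (Finset.card_biUnion_le_card_mul _ _ d fun z _ => ?_).trans (by simp)
      exact (Multiset.toFinset_card_le _).trans ((card_roots' _).trans (h2 _ _))
  obtain ⟨a, a1, a2⟩ := Finset.exists_mem_notMem_of_card_lt_card h4
  refine ⟨a, Set.mem_toFinset.1 a1, fun e => a2 (Finset.mem_union_left _ ?_),
    fun j β hβ e => a2 (Finset.mem_union_right _ (Finset.mem_biUnion.2 ⟨(j, β), by simpa, ?_⟩))⟩
  · exact Multiset.mem_toFinset.2 ((mem_roots hb).2 e)
  · exact Multiset.mem_toFinset.2 ((mem_roots (hQ j β)).2 e)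

theorem p_PAC (hUP : S_UP) (hAIR : S_AIR) (hLWQ : S_LWQ) :
    S_PAC := by
  intro F _ _ U K _ π hπ hU hch B hB Ψ b hm hb hi κ _ P hP
  let _ := Fintype.ofFinite κ
  have s1 : Function.Surjective (mapRingHom π) := Polynomial.map_surjective π hπ.surj
  have s2 := Polynomial.map_surjective _ s1
  obtain ⟨Ψ, rfl, -, hm⟩ := lifts_and_natDegree_eq_and_monic ((mem_lifts _).2 (s2 Ψ)) hm
  obtain ⟨b, rfl⟩ := Polynomial.map_surjective π hπ.surj b
  choose a ha using hP
  choose a' ha' using fun j i => Polynomial.map_surjective π hπ.surj (a j i)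
  choose P' hP' using fun j => s2 (P j)
  obtain ⟨N, n1, n2, n3, n4⟩ : ∃ N, Ψ.natDegree ≤ N ∧ (∀ i, (Ψ.coeff i).natDegree ≤ N) ∧
      b.natDegree ≤ N ∧ ∀ j, (P' j).natDegree ≤ N := by
    refine ⟨Ψ.natDegree + (Ψ.support.sup fun i => (Ψ.coeff i).natDegree) + b.natDegree +
      Finset.univ.sup fun j => (P' j).natDegree, by omega, fun i => ?_, by omega, fun j => ?_⟩
    · by_cases h : i ∈ Ψ.support
      · have := Finset.le_sup (f := fun i => (Ψ.coeff i).natDegree) h
        omega
      · simp [notMem_support_iff.1 h]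
    · have := Finset.le_sup (f := fun j => (P' j).natDegree) (Finset.mem_univ j)
      omega
  obtain ⟨C0, p0, h0⟩ := hLWQ N
  have e1 := hAIR F U K π hπ Ψ hm fun Ω _ ρ => by
    rw [← mapRingHom_comp, ← Polynomial.map_map]
    exact hi Ω ρ
  have e2 : ∀ᶠ n in U, b.map (Pi.evalRingHom F n) ≠ 0 := by
    obtain ⟨i, h⟩ := support_nonempty.2 hb
    rw [mem_support_iff, coeff_map, Ne, hπ.ker, ← Ultrafilter.eventually_not] at h
    exact h.mono fun n hn e => hn (by simpa using congrArg (coeff · i) e)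
  have e3 : ∀ᶠ n in U, ∀ j, (∑ i ∈ Finset.range ((P j).natDegree + 1),
      a' j i * (P' j).coeff i - 1).map (Pi.evalRingHom F n) = 0 :=
    Filter.eventually_all.2 fun j => pac_ev hπ (by
      rw [Polynomial.map_sub, Polynomial.map_one, sub_eq_zero, ← ha j, Polynomial.map_sum]
      refine Finset.sum_congr rfl fun i _ => ?_
      rw [Polynomial.map_mul, ha', ← hP' j, coeff_map, coe_mapRingHom])
  have e4 : ∀ᶠ n in U, p0 + 2 * (C0 * N) + 2 * (C0 * (Fintype.card κ * N)) ≤ n :=
    hU (Filter.eventually_ge_atTop _)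
  have e5 : ∀ᶠ n in U, ∃ z : F n × F n,
      (Ψ.map (mapRingHom (Pi.evalRingHom F n))).evalEval z.1 z.2 = 0 ∧
      (b.map (Pi.evalRingHom F n)).eval z.1 ≠ 0 ∧ ∀ j, ∀ β ∈ B n,
        ((P' j).map (mapRingHom (Pi.evalRingHom F n))).evalEval β z.1 ≠ 0 := by
    filter_upwards [e1, e2, e3, e4] with n a1 a2 a3 a4
    have a5 := hch n
    have a6 := h0 (F n) _ (by omega) (hm.map _) (natDegree_map_le.trans n1)
      (fun i => by rw [coeff_map]; exact natDegree_map_le.trans (n2 i)) a1
    have a7 : ringChar (F n) ≤ Fintype.card (F n) :=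
      Nat.le_of_dvd Fintype.card_pos (ringChar.dvd (FiniteField.cast_card_eq_zero _))
    rw [Nat.card_eq_fintype_card] at a6
    obtain ⟨x, ⟨y, y1, -⟩, x1, x2⟩ := pac_pick _ _ (B n)
      (fun j β => ((P' j).map (mapRingHom (Pi.evalRingHom F n))).map (evalRingHom β)) N a2
      (fun j β e => by
        have a8 := congrArg (eval β) (a3 j)
        rw [Polynomial.map_sub, Polynomial.map_one, Polynomial.map_sum, eval_sub, eval_finsetSum,
          Finset.sum_eq_zero fun i _ => by
            have := congrArg (coeff · i) e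
            simp only [coeff_map, coe_mapRingHom, coe_evalRingHom, coeff_zero] at this
            rw [Polynomial.map_mul, eval_mul, this, mul_zero]] at a8
        simp at a8)
      (natDegree_map_le.trans n3) (fun j β => natDegree_map_le.trans (natDegree_map_le.trans (n4 j)))
      (Nat.lt_of_mul_lt_mul_left (a := C0) (lt_of_lt_of_le (by
        have a8 := hB n
        have a9 : (B n).card * (2 * (C0 * (Fintype.card κ * N))) ≤ (B n).card * n :=
          Nat.mul_le_mul_left _ (by omega)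
        have : C0 * (N + Fintype.card κ * (B n).card * N) * 2 =
          2 * (C0 * N) + (B n).card * (2 * (C0 * (Fintype.card κ * N))) := by ring
        omega) a6))
    exact ⟨(x, y), y1, x1, fun j β hβ => by simpa only [map_evalRingHom_eval] using x2 j β hβ⟩
  obtain ⟨z, hz⟩ := Filter.skolem.1 e5
  refine ⟨π fun n => (z n).1, π fun n => (z n).2, ?_, ?_, fun j ζ h => ?_⟩
  · rw [map_mapRingHom_evalEval, hπ.ker]
    exact hz.mono fun n hn =>
      (map_mapRingHom_evalEval (Pi.evalRingHom F n) Ψ _ _).symm.trans hn.1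
  · rw [eval_map, eval₂_at_apply, Ne, hπ.ker, ← Ultrafilter.eventually_not]
    exact hz.mono fun n hn e => hn.2.1 (by
      rw [eval_map]
      exact (eval₂_at_apply (Pi.evalRingHom F n) fun n => (z n).1).trans e)
  · rw [← hP' j, map_mapRingHom_evalEval, hπ.ker] at h
    filter_upwards [hz, h] with n a1 a2 a3
    exact a1.2.2 j _ a3 ((map_mapRingHom_evalEval (Pi.evalRingHom F n) (P' j) ζ
      fun n => (z n).1).trans a2)

end Pool.Agent.P.MP_9344a7_nt.Tor
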