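import Pool.Agent.P.MP_9344a7_nt.Tor.Iface

/-! Step PJ. -/

set_option autoImplicit false
set_option linter.unusedSectionVars false

namespace Pool.Agent.P.MP_9344a7_nt.Tor

open Polynomial WithZero
open Pool.Agent.P.MP_6f117a_ag (Place FF)
open Pool.Agent.P.MP_ab3ecb_nt.Inv (ord Dv dv deg SA LS)
open scoped Classical IntermediateField

theorem pj_rel {K L : Type} [Field K] [Field L] [Algebra K L] (t z : L)
    (h : IsAlgebraic (IntermediateField.adjoin K {t}) z) :
    ∃ Q : K[X][X], Q ≠ 0 ∧ aevalAeval t z Q = 0 := by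
  obtain ⟨f, hf0, hf⟩ := IntermediateField.isAlgebraic_adjoin_iff.1 h
  let φ : K[X] →ₐ[K] Algebra.adjoin K {t} := aeval ⟨t, Algebra.self_mem_adjoin_singleton K t⟩
  have hφ : ∀ p, ((φ p : Algebra.adjoin K {t}) : L) = aeval t p := fun p =>
    (aeval_algHom_apply (Algebra.adjoin K {t}).val _ p).symm
  have hs : Function.Surjective (φ : K[X] →+* Algebra.adjoin K {t}) := by
    rintro ⟨y, hy⟩
    rw [Algebra.adjoin_singleton_eq_range_aeval] at hy
    obtain ⟨p, rfl⟩ := hy
    exact ⟨p, Subtype.ext (hφ p)⟩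
  obtain ⟨Q, rfl⟩ := map_surjective _ hs f
  refine ⟨Q, fun h0 => hf0 (by rw [h0, Polynomial.map_zero]), ?_⟩
  rw [← hf]
  clear hf hf0
  induction Q using Polynomial.induction_on' with
  | add p q hp hq => rw [map_add, Polynomial.map_add, map_add, hp, hq]
  | monomial n a =>
    rw [Polynomial.map_monomial, aeval_monomial, ← C_mul_X_pow_eq_monomial, map_mul, map_pow,
      aevalAeval_C, aevalAeval_Y, ← hφ]
    rfl

theorem p_PJ :
    S_PJ := by
  intro K _ z hz
  obtain ⟨Q, hQ0, hQ⟩ := pj_rel (tL K) z.1 (mem_ALf.1 z.2)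
  have hv : ∀ P : K[X][X], ((aevalAeval z (tA K) P : AL K) : LaurentSeries K) =
      aevalAeval z.1 (tL K) P := fun P => by
    have : (ALf K).val.comp (aevalAeval z (tA K)) = aevalAeval z.1 (tL K) := by
      refine algHom_ext' ?_ ?_
      · ext; simp
      · simp [tA]
    exact DFunLike.congr_fun this P
  have h1 : aevalAeval z (tA K) (Bivariate.swap Q) = 0 :=
    Subtype.ext (by rw [hv, Bivariate.aevalAeval_swap, hQ]; rfl)
  have h0 : Bivariate.swap Q ≠ 0 := by simpa using hQ0
  generalize Bivariate.swap Q = P at h0 h1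
  obtain ⟨g, hg⟩ := Finset.gcd_eq_sum_mul (Finset.range (P.primPart.natDegree + 1))
    P.primPart.coeff
  refine ⟨P.primPart, g, ?_, ?_⟩
  · rw [P.eq_C_content_mul_primPart, map_mul, aevalAeval_C] at h1
    exact (mul_eq_zero.1 h1).resolve_left fun h => hz ⟨_, content_eq_zero_iff.not.2 h0, h⟩
  · rw [← content_eq_gcd_range_succ, content_primPart] at hg
    rw [hg]
    exact Finset.sum_congr rfl fun i _ => mul_comm _ _

end Pool.Agent.P.MP_9344a7_nt.Tor
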