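import Pool.Agent.P.MP_9344a7_nt.Tor.Iface

/-! Step REG. -/

set_option autoImplicit false
set_option linter.unusedSectionVars false

namespace Pool.Agent.P.MP_9344a7_nt.Tor

open Polynomial WithZero
open Pool.Agent.P.MP_6f117a_ag (Place FF)
open Pool.Agent.P.MP_ab3ecb_nt.Inv (ord Dv dv deg SA LS)
open scoped Classical IntermediateField

section reg

variable {K M : Type} [Field K] [Field M] [Algebra K M]

lemma reg_ev (t θ : M) (G : K[X][X]) :
    aevalAeval t θ G = (G.map (aeval t : K[X] →ₐ[K] M).toRingHom).eval θ := by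
  induction G using Polynomial.induction_on' with
  | add p q hp hq => rw [map_add, hp, hq, Polynomial.map_add, eval_add]
  | monomial n a =>
    rw [← C_mul_X_pow_eq_monomial, map_mul, map_pow, aevalAeval_C, aevalAeval_Y]
    simp

lemma reg_clear (t : M) (q : (K⟮t⟯)[X]) : ∃ (b : K[X]) (g : K[X][X]), aeval t b ≠ 0 ∧
    C (aeval t b) * q.map (algebraMap K⟮t⟯ M) = g.map (aeval t : K[X] →ₐ[K] M).toRingHom := by
  induction q using Polynomial.induction_on' with
  | add p q hp hq =>
    obtain ⟨b1, g1, h1, e1⟩ := hp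
    obtain ⟨b2, g2, h2, e2⟩ := hq
    refine ⟨b1 * b2, g1 * C b2 + g2 * C b1, by rw [map_mul]; exact mul_ne_zero h1 h2, ?_⟩
    rw [Polynomial.map_add, Polynomial.map_add, Polynomial.map_mul, Polynomial.map_mul, ← e1, ← e2,
      map_C, map_C, map_mul, C_mul]
    simp only [AlgHom.toRingHom_eq_coe, RingHom.coe_coe]
    ring
  | monomial n a =>
    obtain ⟨r, s, h⟩ := (IntermediateField.mem_adjoin_simple_iff K (a : M)).1 a.2
    by_cases hs : aeval t s = 0
    · refine ⟨1, 0, by simp, ?_⟩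
      have : a = 0 := Subtype.ext (by rw [h, hs, div_zero]; rfl)
      simp [this]
    · refine ⟨s, monomial n r, hs, ?_⟩
      rw [map_monomial, map_monomial, C_mul_monomial]
      congr 1
      change aeval t s * (a : M) = aeval t r
      rw [h, mul_div_cancel₀ _ hs]

lemma reg_core [CharZero K] {t : M} (ht : Transcendental K t) {κ : Type} [Finite κ] (z : κ → M)
    (hz : ∀ j, IsAlgebraic K⟮t⟯ (z j)) :
    ∃ (θ : M) (Ψ : K[X][X]) (b : κ → K[X]) (g : κ → K[X][X]), Ψ.Monic ∧ 0 < Ψ.natDegree ∧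
      (∀ G, aevalAeval t θ G = 0 ↔ Ψ ∣ G) ∧ (∀ j, b j ≠ 0) ∧
      ∀ j, aeval t (b j) * z j = aevalAeval t θ (g j) := by
  have hinj : Function.Injective (aeval t : K[X] →ₐ[K] M) := transcendental_iff_injective.1 ht
  have : CharZero K⟮t⟯ := charZero_of_injective_algebraMap (algebraMap K K⟮t⟯).injective
  let E := IntermediateField.adjoin K⟮t⟯ (Set.range z)
  have : FiniteDimensional K⟮t⟯ E := IntermediateField.finiteDimensional_adjoin (by
    rintro _ ⟨j, rfl⟩
    exact (hz j).isIntegral)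
  obtain ⟨α, hα⟩ := Field.exists_primitive_element K⟮t⟯ E
  have hE : (K⟮t⟯)⟮(α : M)⟯ = E := by
    rw [← IntermediateField.lift_adjoin_simple, hα, IntermediateField.lift_top]
  have halg : IsAlgebraic K⟮t⟯ (α : M) :=
    IntermediateField.isAlgebraic_iff.1 (IsAlgebraic.of_finite _ α)
  let : Algebra K[X] M := (aeval t : K[X] →ₐ[K] M).toRingHom.toAlgebra
  have hae : ∀ (θ : M) (G : K[X][X]), aeval θ G = aevalAeval t θ G := fun θ G => by
    rw [reg_ev, ← eval_map_algebraMap]
    rfl
  have : Module.IsTorsionFree K[X] M :=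
    (Module.isTorsionFree_iff_algebraMap_injective).2 hinj
  have halg' : IsAlgebraic K[X] (α : M) := by
    obtain ⟨q, hq0, hq⟩ := halg
    obtain ⟨b, g, hb, e⟩ := reg_clear t q
    refine ⟨g, ?_, ?_⟩
    · rintro rfl
      rw [Polynomial.map_zero, mul_eq_zero, C_eq_zero, Polynomial.map_eq_zero] at e
      exact e.elim hb hq0
    · rw [hae, reg_ev, ← e, eval_mul, eval_map_algebraMap, hq, mul_zero]
  obtain ⟨c, hc0, hc⟩ := halg'.exists_integral_multiple
  have hct : aeval t c ≠ 0 := fun h => hc0 (hinj (h.trans (map_zero _).symm))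
  have hθ : c • (α : M) = aeval t c * (α : M) := Algebra.smul_def _ _
  have hcm : aeval t c ∈ K⟮t⟯ :=
    (IntermediateField.mem_adjoin_simple_iff K _).2 ⟨c, 1, by simp⟩
  have hle : E ≤ (K⟮t⟯)⟮c • (α : M)⟯ := by
    refine hE.ge.trans (IntermediateField.adjoin_simple_le_iff.2 ?_)
    have h1 : (algebraMap K⟮t⟯ M ⟨_, hcm⟩)⁻¹ * (c • (α : M)) ∈ (K⟮t⟯)⟮c • (α : M)⟯ :=
      mul_mem (inv_mem (IntermediateField.algebraMap_mem _ _))
        (IntermediateField.mem_adjoin_simple_self _ _)
    have h2 : (algebraMap K⟮t⟯ M ⟨_, hcm⟩)⁻¹ * (c • (α : M)) = α := by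
      rw [hθ]
      exact inv_mul_cancel_left₀ hct _
    rw [h2] at h1
    exact h1
  have halgθ : IsAlgebraic K⟮t⟯ (c • (α : M)) := by
    rw [hθ]
    exact (isAlgebraic_algebraMap (⟨_, hcm⟩ : K⟮t⟯)).mul halg
  have hj : ∀ j, ∃ (b : K[X]) (g : K[X][X]), b ≠ 0 ∧
      aeval t b * z j = aevalAeval t (c • (α : M)) g := fun j => by
    have h1 : z j ∈ (K⟮t⟯)⟮c • (α : M)⟯ :=
      hle (IntermediateField.subset_adjoin _ _ ⟨j, rfl⟩)
    have h2 : z j ∈ ((K⟮t⟯)⟮c • (α : M)⟯).toSubalgebra := h1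
    rw [IntermediateField.adjoin_simple_toSubalgebra_of_isAlgebraic halgθ,
      Algebra.adjoin_singleton_eq_range_aeval] at h2
    obtain ⟨q, hq⟩ := h2
    obtain ⟨b, g, hb, e⟩ := reg_clear t q
    refine ⟨b, g, fun h => hb (by rw [h, map_zero]), ?_⟩
    rw [reg_ev, ← e, eval_mul, eval_C, eval_map_algebraMap]
    exact congrArg _ hq.symm
  choose b g hb hg using hj
  exact ⟨c • (α : M), minpoly K[X] (c • (α : M)), b, g, minpoly.monic hc, minpoly.natDegree_pos hc,
    fun G => by rw [← hae]; exact minpoly.isIntegrallyClosed_dvd_iff hc G, hb, hg⟩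

lemma reg_spec {t θ : M} {κ : Type} {z : κ → M} {b : κ → K[X]} {g : κ → K[X][X]}
    (hg : ∀ j, aeval t (b j) * z j = aevalAeval t θ (g j)) {a θ' : K}
    (hb : ∀ j, (b j).eval a ≠ 0) (p : MvPolynomial (Option κ) K) :
    ∃ (d : K[X]) (G : K[X][X]), d.eval a ≠ 0 ∧
      aeval t d * MvPolynomial.aeval (fun o => o.elim t z) p = aevalAeval t θ G ∧
      d.eval a * MvPolynomial.aeval
        (fun o => o.elim a fun j => (g j).evalEval a θ' / (b j).eval a) p = G.evalEval a θ' := by
  induction p using MvPolynomial.induction_on with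
  | C c => exact ⟨1, C (C c), by simp, by simp, by simp⟩
  | add p q hp hq =>
    obtain ⟨d1, G1, h1, e1, f1⟩ := hp
    obtain ⟨d2, G2, h2, e2, f2⟩ := hq
    refine ⟨d1 * d2, G1 * C d2 + G2 * C d1, by rw [eval_mul]; exact mul_ne_zero h1 h2, ?_, ?_⟩
    · rw [map_add, map_add, map_mul, map_mul, map_mul, aevalAeval_C, aevalAeval_C, ← e1, ← e2]
      ring
    · rw [map_add, evalEval_add, evalEval_mul, evalEval_mul, evalEval_C, evalEval_C, ← f1, ← f2,
        eval_mul]
      ring
  | mul_X p o hp =>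
    obtain ⟨d, G, h, e, f⟩ := hp
    cases o with
    | none =>
      refine ⟨d, G * C X, h, ?_, ?_⟩
      · rw [map_mul, map_mul, aevalAeval_X, MvPolynomial.aeval_X, ← e]
        simp only [Option.elim]
        ring
      · rw [map_mul, evalEval_mul, evalEval_C, eval_X, MvPolynomial.aeval_X, ← f]
        simp only [Option.elim]
        ring
    | some j =>
      refine ⟨d * b j, G * g j, by rw [eval_mul]; exact mul_ne_zero h (hb j), ?_, ?_⟩
      · rw [map_mul, map_mul, map_mul, MvPolynomial.aeval_X, ← e, ← hg]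
        simp only [Option.elim]
        ring
      · rw [map_mul, evalEval_mul, eval_mul, MvPolynomial.aeval_X, ← f]
        simp only [Option.elim]
        have := hb j
        field_simp

end reg

lemma reg_tr (K : Type) [Field K] : Transcendental K (tL K) := by
  rw [transcendental_iff_injective]
  have : ∀ p : K[X], aeval (tL K) p = HahnSeries.ofPowerSeries ℤ K (p : PowerSeries K) := by
    intro p
    induction p using Polynomial.induction_on' with
    | add p q hp hq => rw [map_add, hp, hq, Polynomial.coe_add, map_add]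
    | monomial n a =>
      rw [← C_mul_X_pow_eq_monomial, map_mul, map_pow, aeval_C, aeval_X, Polynomial.coe_mul,
        Polynomial.coe_pow, Polynomial.coe_C, Polynomial.coe_X, map_mul, map_pow,
        HahnSeries.ofPowerSeries_X, HahnSeries.ofPowerSeries_C, LaurentSeries.algebraMap_apply, tL]
  intro p q h
  rw [this, this] at h
  exact Polynomial.coe_injective K (HahnSeries.ofPowerSeries_injective h)

theorem p_REG (hIRR : S_IRR) :
    S_REG := by
  intro K κ _ _ _ z
  have := Fintype.ofFinite κ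
  obtain ⟨θ, Ψ, b, g, hm, hd, hdv, hb, hg⟩ :=
    reg_core (reg_tr K) (fun j => (z j : LaurentSeries K)) fun j => mem_ALf.1 (z j).2
  refine ⟨Ψ, ∏ j, b j, hm, Finset.prod_ne_zero_iff.2 fun j _ => hb j,
    hIRR K θ Ψ hm hd ((hdv Ψ).2 dvd_rfl) fun G hG h0 =>
      eq_zero_of_dvd_of_natDegree_lt ((hdv G).1 h0) hG, fun a θ' h0 hba => ?_⟩
  rw [eval_prod] at hba
  have hb' : ∀ j, (b j).eval a ≠ 0 := fun j => Finset.prod_ne_zero_iff.1 hba j (Finset.mem_univ j)
  refine ⟨fun j => (g j).evalEval a θ' / (b j).eval a, fun p hp => ?_⟩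
  obtain ⟨d, G, h, e, f⟩ := reg_spec (θ' := θ') hg hb' p
  have hp' : MvPolynomial.aeval (fun o : Option κ => o.elim (tL K)
      fun j => (z j : LaurentSeries K)) p = 0 := by
    have := congrArg (ALf K).val hp
    rw [map_zero, MvPolynomial.comp_aeval_apply] at this
    convert this using 3
    funext o
    cases o <;> rfl
  rw [hp', mul_zero] at e
  obtain ⟨H, rfl⟩ := (hdv G).1 e.symm
  rw [evalEval_mul, h0, zero_mul] at f
  exact (mul_eq_zero.1 f).resolve_left h

end Pool.Agent.P.MP_9344a7_nt.Tor
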