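import Pool.Agent.P.MP_9344a7_nt.Tor.Iface

/-! Step UP. -/

set_option autoImplicit false
set_option linter.unusedSectionVars false

namespace Pool.Agent.P.MP_9344a7_nt.Tor

open Polynomial WithZero
open Pool.Agent.P.MP_6f117a_ag (Place FF)
open Pool.Agent.P.MP_ab3ecb_nt.Inv (ord Dv dv deg SA LS)
open scoped Classical IntermediateField

/-- The ideal of sequences that vanish along an ultrafilter. -/
def upI (F : ℕ → Type) [∀ n, Field (F n)] (U : Ultrafilter ℕ) : Ideal (∀ n, F n) where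
  carrier := {x | ∀ᶠ n in U, x n = 0}
  add_mem' := fun {a b} ha hb => by
    filter_upwards [ha, hb] with n h1 h2
    rw [Pi.add_apply, h1, h2, add_zero]
  zero_mem' := Filter.Eventually.of_forall fun _ => rfl
  smul_mem' := fun c a ha => by
    filter_upwards [ha] with n h1
    rw [smul_eq_mul, Pi.mul_apply, h1, mul_zero]

lemma up_mem (F : ℕ → Type) [∀ n, Field (F n)] (U : Ultrafilter ℕ) (x : ∀ n, F n) :
    x ∈ upI F U ↔ ∀ᶠ n in U, x n = 0 := Iff.rfl

lemma up_max (F : ℕ → Type) [∀ n, Field (F n)] (U : Ultrafilter ℕ) : (upI F U).IsMaximal := by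
  rw [Ideal.isMaximal_iff]
  constructor
  · intro h
    obtain ⟨n, hn⟩ := ((up_mem F U 1).1 h).exists
    exact one_ne_zero hn
  · intro J x hle hx hxJ
    have h1 : ∀ᶠ n in U, ¬ x n = 0 := Ultrafilter.eventually_not.2 hx
    have h2 : (1 - (fun n => (x n)⁻¹) * x : ∀ n, F n) ∈ upI F U := by
      rw [up_mem]
      filter_upwards [h1] with n hn
      rw [Pi.sub_apply, Pi.mul_apply, inv_mul_cancel₀ hn, Pi.one_apply, sub_self]
    have h3 := J.add_mem (hle h2) (J.mul_mem_left (fun n => (x n)⁻¹) hxJ)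
    rwa [sub_add_cancel] at h3

theorem p_UP :
    S_UP := by
  intro F _ U
  have := up_max F U
  let _ : Field ((∀ n, F n) ⧸ upI F U) := Ideal.Quotient.field _
  refine ⟨(∀ n, F n) ⧸ upI F U, inferInstance, Ideal.Quotient.mk _, ?_⟩
  exact ⟨Ideal.Quotient.mk_surjective, fun x => Ideal.Quotient.eq_zero_iff_mem⟩

end Pool.Agent.P.MP_9344a7_nt.Tor
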