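import Pool.Agent.P.MP_9344a7_nt.Tor.Iface

/-! Step EXF. -/

set_option autoImplicit false
set_option linter.unusedSectionVars false

namespace Pool.Agent.P.MP_9344a7_nt.Tor

open Polynomial WithZero
open Pool.Agent.P.MP_6f117a_ag (Place FF)
open Pool.Agent.P.MP_ab3ecb_nt.Inv (ord Dv dv deg SA LS)
open scoped Classical IntermediateField

lemma exf_iff {ι : Type} {S S' : Prd ι} (h : ExF S)
    (e : ∀ (L : Type) [Field L] (x : ι → L), S' L x ↔ S L x) : ExF S' := by
  obtain ⟨κ, μ, h1, h2, p, hp⟩ := h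
  exact ⟨κ, μ, h1, h2, p, fun L _ x => (e L x).trans (hp L x)⟩

lemma exf_all {ι μ : Type} [Finite μ] {S : μ → Prd ι} (h : ∀ j, ExF (S j)) :
    ExF fun L _ x => ∀ j, S j L x := by
  choose κ ν h1 h2 p hp using h
  refine ⟨Σ j, κ j, Σ j, ν j, inferInstance, inferInstance,
    fun a => MvPolynomial.rename (Sum.map id (Sigma.mk a.1)) (p a.1 a.2), fun L _ x => ?_⟩
  have key : ∀ (z : (Σ j, κ j) → L) (j : μ) (q : MvPolynomial (ι ⊕ κ j) ℤ),
      MvPolynomial.aeval (Sum.elim x z) (MvPolynomial.rename (Sum.map id (Sigma.mk j)) q) =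
        MvPolynomial.aeval (Sum.elim x fun k => z ⟨j, k⟩) q := by
    intro z j q
    rw [MvPolynomial.aeval_rename]
    congr 2
    funext a
    cases a <;> rfl
  simp only [hp, key]
  constructor
  · intro h
    choose z hz using h
    exact ⟨fun a => z a.1 a.2, fun a => hz a.1 a.2⟩
  · rintro ⟨z, hz⟩ j
    exact ⟨fun k => z ⟨j, k⟩, fun k => hz ⟨j, k⟩⟩

lemma exf_and {ι : Type} {S S' : Prd ι} (h : ExF S) (h' : ExF S') :
    ExF fun L _ x => S L x ∧ S' L x := by
  refine exf_iff (exf_all (μ := Bool) (S := fun b => cond b S S') fun b => ?_) fun L _ x => ?_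
  · cases b
    · exact h'
    · exact h
  · rw [Bool.forall_bool]
    exact and_comm

lemma exf_or {ι : Type} {S S' : Prd ι} (h : ExF S) (h' : ExF S') :
    ExF fun L _ x => S L x ∨ S' L x := by
  obtain ⟨κ, μ, h1, h2, p, hp⟩ := h
  obtain ⟨κ', μ', h1', h2', p', hp'⟩ := h'
  refine ⟨κ ⊕ κ', μ × μ', inferInstance, inferInstance,
    fun a => MvPolynomial.rename (Sum.map id Sum.inl) (p a.1) *
      MvPolynomial.rename (Sum.map id Sum.inr) (p' a.2), fun L _ x => ?_⟩
  have k1 : ∀ (z : κ ⊕ κ' → L) (q : MvPolynomial (ι ⊕ κ) ℤ),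
      MvPolynomial.aeval (Sum.elim x z) (MvPolynomial.rename (Sum.map id Sum.inl) q) =
        MvPolynomial.aeval (Sum.elim x fun k => z (Sum.inl k)) q := by
    intro z q
    rw [MvPolynomial.aeval_rename]
    congr 2
    funext a
    cases a <;> rfl
  have k2 : ∀ (z : κ ⊕ κ' → L) (q : MvPolynomial (ι ⊕ κ') ℤ),
      MvPolynomial.aeval (Sum.elim x z) (MvPolynomial.rename (Sum.map id Sum.inr) q) =
        MvPolynomial.aeval (Sum.elim x fun k => z (Sum.inr k)) q := by
    intro z q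
    rw [MvPolynomial.aeval_rename]
    congr 2
    funext a
    cases a <;> rfl
  simp only [hp, hp', map_mul, k1, k2, mul_eq_zero]
  constructor
  · rintro (⟨z, hz⟩ | ⟨z, hz⟩)
    · exact ⟨Sum.elim z 0, fun a => Or.inl (hz a.1)⟩
    · exact ⟨Sum.elim 0 z, fun a => Or.inr (hz a.2)⟩
  · rintro ⟨z, hz⟩
    by_cases e : ∀ j, MvPolynomial.aeval (Sum.elim x fun k => z (Sum.inl k)) (p j) = 0
    · exact Or.inl ⟨_, e⟩
    · obtain ⟨j, hj⟩ := not_forall.1 e
      exact Or.inr ⟨_, fun j' => (hz (j, j')).resolve_left hj⟩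

lemma exf_zero {ι μ : Type} [Finite μ] (p : μ → MvPolynomial ι ℤ) :
    ExF fun L _ (x : ι → L) => ∀ j, MvPolynomial.aeval x (p j) = 0 := by
  refine ⟨Empty, μ, inferInstance, inferInstance, fun j => MvPolynomial.rename Sum.inl (p j),
    fun L _ x => ?_⟩
  simp only [MvPolynomial.aeval_rename, Sum.elim_comp_inl, exists_const]

lemma exf_ex {ι κ : Type} [Finite κ] {S : Prd (ι ⊕ κ)} (h : ExF S) :
    ExF fun L _ (x : ι → L) => ∃ z : κ → L, S L (Sum.elim x z) := by
  obtain ⟨κ', μ, h1, h2, p, hp⟩ := h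
  refine ⟨κ ⊕ κ', μ, inferInstance, h2,
    fun j => MvPolynomial.rename (Equiv.sumAssoc ι κ κ') (p j), fun L _ x => ?_⟩
  have key : ∀ (z : κ ⊕ κ' → L) (q : MvPolynomial ((ι ⊕ κ) ⊕ κ') ℤ),
      MvPolynomial.aeval (Sum.elim x z) (MvPolynomial.rename (Equiv.sumAssoc ι κ κ') q) =
        MvPolynomial.aeval (Sum.elim (Sum.elim x fun k => z (Sum.inl k)) fun k => z (Sum.inr k))
          q := by
    intro z q
    rw [MvPolynomial.aeval_rename]
    congr 2
    funext a
    rcases a with (a | a) | a <;> rfl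
  simp only [hp, key]
  constructor
  · rintro ⟨z, z', hz⟩
    exact ⟨Sum.elim z z', hz⟩
  · rintro ⟨z, hz⟩
    exact ⟨_, _, hz⟩

lemma exf_sub {ι κ : Type} {S : Prd κ} {e : ∀ (L : Type) [Field L], (ι → L) → κ → L} (h : ExF S)
    (he : ∀ j, Tm fun L _ x => e L x j) : ExF fun L _ x => S L (e L x) := by
  obtain ⟨κ', μ, h1, h2, p, hp⟩ := h
  choose q hq using he
  refine ⟨κ', μ, h1, h2, fun j => MvPolynomial.aeval
    (Sum.elim (fun k => MvPolynomial.rename Sum.inl (q k)) fun k => MvPolynomial.X (Sum.inr k))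
      (p j), fun L _ x => ?_⟩
  have key : ∀ (z : κ' → L) (r : MvPolynomial (κ ⊕ κ') ℤ),
      MvPolynomial.aeval (Sum.elim x z) (MvPolynomial.aeval
        (Sum.elim (fun k => MvPolynomial.rename Sum.inl (q k))
          fun k => (MvPolynomial.X (Sum.inr k) : MvPolynomial (ι ⊕ κ') ℤ)) r) =
        MvPolynomial.aeval (Sum.elim (e L x) z) r := by
    intro z r
    rw [← AlgHom.comp_apply, MvPolynomial.comp_aeval]
    congr 2
    funext a
    rcases a with a | a
    · simp only [Sum.elim_inl, MvPolynomial.aeval_rename, Sum.elim_comp_inl]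
      exact (hq a L x).symm
    · simp
  simp only [hp, key]

theorem p_EXF :
    S_EXF := by
  refine
    { var := fun i => ⟨MvPolynomial.X i, fun L _ x => by simp⟩
      int := fun n => ⟨(n : MvPolynomial _ ℤ), fun L _ x => by simp⟩
      add := fun ⟨p, hp⟩ ⟨q, hq⟩ => ⟨p + q, fun L _ x => by rw [map_add, ← hp, ← hq]⟩
      sub := fun ⟨p, hp⟩ ⟨q, hq⟩ => ⟨p - q, fun L _ x => by rw [map_sub, ← hp, ← hq]⟩
      mul := fun ⟨p, hp⟩ ⟨q, hq⟩ => ⟨p * q, fun L _ x => by rw [map_mul, ← hp, ← hq]⟩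
      neg := fun ⟨p, hp⟩ => ⟨-p, fun L _ x => by rw [map_neg, ← hp]⟩
      pow := fun n ⟨p, hp⟩ => ⟨p ^ n, fun L _ x => by rw [map_pow, ← hp]⟩
      eval := fun ⟨p, hp⟩ ⟨q, hq⟩ => ⟨p.eval q, fun L _ x => ?_⟩
      pC := fun ⟨p, hp⟩ => ⟨C p, fun L _ x => by
        rw [Polynomial.map_C]; exact congrArg C (hp L x)⟩
      pX := ⟨X, fun L _ x => by rw [Polynomial.map_X]⟩
      padd := fun ⟨p, hp⟩ ⟨q, hq⟩ => ⟨p + q, fun L _ x => by rw [Polynomial.map_add, ← hp, ← hq]⟩
      psub := fun ⟨p, hp⟩ ⟨q, hq⟩ => ⟨p - q, fun L _ x => by rw [Polynomial.map_sub, ← hp, ← hq]⟩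
      pmul := fun ⟨p, hp⟩ ⟨q, hq⟩ => ⟨p * q, fun L _ x => by rw [Polynomial.map_mul, ← hp, ← hq]⟩
      ppow := fun n ⟨p, hp⟩ => ⟨p ^ n, fun L _ x => by rw [Polynomial.map_pow, ← hp]⟩
      pder := fun ⟨p, hp⟩ => ⟨derivative p, fun L _ x => by rw [← derivative_map, ← hp]⟩
      ppol := fun h => ?_
      eq := fun ⟨p, hp⟩ ⟨q, hq⟩ => exf_iff (exf_zero fun _ : Unit => p - q) fun L _ x => by
        rw [forall_const, map_sub, ← hp, ← hq, sub_eq_zero]
      ne := fun ⟨p, hp⟩ ⟨q, hq⟩ => ?_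
      peq := fun ⟨p, hp⟩ ⟨q, hq⟩ => ?_
      and := exf_and
      or := exf_or
      all := fun h => exf_all h
      imp := fun c h => ?_
      ex := fun h => exf_ex h
      sub' := exf_sub
      iff := exf_iff }
  · show (_ : L[X]).eval _ = _
    rw [hp, hq]
    exact eval_map_apply (f := ((MvPolynomial.aeval x : MvPolynomial _ ℤ →ₐ[ℤ] L) : _ →+* L)) q
  · choose q hq using h
    refine ⟨pol q, fun L _ x => ?_⟩
    rw [pol_map]
    exact congrArg pol (funext fun i => hq i L x)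
  · refine ⟨Unit, Unit, inferInstance, inferInstance, fun _ =>
      MvPolynomial.rename Sum.inl (p - q) * MvPolynomial.X (Sum.inr ()) - 1, fun L _ x => ?_⟩
    simp only [map_sub, map_mul, MvPolynomial.aeval_rename, Sum.elim_comp_inl, map_one,
      MvPolynomial.aeval_X, Sum.elim_inr, forall_const, ← hp, ← hq]
    constructor
    · intro h
      exact ⟨fun _ => (_ - _)⁻¹, by rw [mul_inv_cancel₀ (sub_ne_zero.2 h), sub_self]⟩
    · rintro ⟨z, hz⟩ h
      rw [h, sub_self, zero_mul, zero_sub, neg_eq_zero] at hz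
      exact one_ne_zero hz
  · refine exf_iff (exf_zero fun j : (p - q).support => (p - q).coeff j) fun L _ x => ?_
    rw [hp, hq, ← sub_eq_zero, ← Polynomial.map_sub]
    constructor
    · intro h j
      have := congrArg (fun r => coeff r j) h
      simp only [coeff_map, coeff_zero] at this
      exact this
    · intro h
      ext j
      rw [coeff_map, coeff_zero]
      by_cases e : j ∈ (p - q).support
      · exact h ⟨j, e⟩
      · rw [notMem_support_iff.1 e, map_zero]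
  · by_cases e : c
    · exact exf_iff (h e) fun L _ x => ⟨fun h => h e, fun h _ => h⟩
    · exact exf_iff (exf_zero (μ := Empty) fun j => j.elim) fun L _ x =>
        ⟨fun _ j => j.elim, fun _ h => absurd h e⟩

end Pool.Agent.P.MP_9344a7_nt.Tor
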