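import Pool.Agent.P.MP_9344a7_nt.Tor.Iface

/-! Step AFF. -/

set_option autoImplicit false
set_option linter.unusedSectionVars false

namespace Pool.Agent.P.MP_9344a7_nt.Tor

open Polynomial WithZero
open Pool.Agent.P.MP_6f117a_ag (Place FF)
open Pool.Agent.P.MP_ab3ecb_nt.Inv (ord Dv dv deg SA LS)
open scoped Classical IntermediateField

theorem aff_top {F : Type} [Field F] [Fintype F] {K : ℕ} (hK : K < ringChar F)
    (H : AddSubgroup F) (h : Fintype.card F ≤ K * Nat.card H) : H = ⊤ := by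
  obtain ⟨n, hp, hn⟩ := FiniteField.card F (ringChar F)
  have h1 : H.index * Nat.card H = Fintype.card F := by
    rw [H.index_mul_card, Nat.card_eq_fintype_card]
  have h2 : H.index ≤ K := Nat.le_of_mul_le_mul_right (h1.le.trans h) Nat.card_pos
  obtain ⟨j, -, hj⟩ := (Nat.dvd_prime_pow hp).1 (show H.index ∣ ringChar F ^ (n : ℕ) from
    ⟨_, by rw [← hn, h1]⟩)
  rcases j with _ | j
  · exact AddSubgroup.index_eq_one.1 (by simpa using hj)
  · have := Nat.le_self_pow (show j + 1 ≠ 0 by omega) (ringChar F)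
    omega

theorem p_AFF (hTRB : S_TRB) (hNB : S_NB) (hTEL : S_TEL) (hFRE : S_FRE) :
    S_AFF := by
  obtain ⟨c1, p1, h1⟩ := hNB
  choose c p hcp using hTEL
  refine ⟨2 * c1 + ∑ m ∈ Finset.range (9 * (2 * c1) + 10), c m,
    p1 + 2 * c1 + ∑ m ∈ Finset.range (9 * (2 * c1) + 10), p m, ?_⟩
  intro F G G' _ _ _ _ f g T hp hB Q X hQ hX hQX hQB hXB
  have hT := hTRB F G G' f g T
  set N : Finset F := Finset.univ.filter (fun a => ∃ C, T.Nb Q X C ∧ C.a = a) with hN
  have hNm : ∀ a, a ∈ N ↔ ∃ C, T.Nb Q X C ∧ C.a = a := fun a => by simp [hN]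
  have hBK : T.B.card * (2 * c1) ≤ Fintype.card F :=
    (Nat.mul_le_mul_left _ (Nat.le_add_right _ _)).trans hB
  have hcard : Fintype.card F ≤ 2 * c1 * N.card := by
    by_contra hc
    have h2 : (T.B ∪ N).card * c1 ≤ Fintype.card F := by
      have := Nat.mul_le_mul_right c1 (Finset.card_union_le T.B N)
      nlinarith
    obtain ⟨C, R1, R2, ha, hC, hR1, hR2⟩ := h1 F (by omega) f T.gf Q X (T.B ∪ N) hQ hX hQX h2
    simp only [Finset.mem_union, not_or] at hC hR1 hR2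
    exact hC.2 ((hNm _).2 ⟨C, ⟨R1, R2, ha, hC.1, hR1.1, hR2.1⟩, rfl⟩)
  have hinj : Function.Injective fun a : F => (a - Q.a)⁻¹ := fun a b h =>
    sub_left_injective (inv_injective h)
  have hD : ∀ d ∈ N.image fun a : F => (a - Q.a)⁻¹, ∃ C, T.Nb Q X C ∧ zz Q C = d := by
    intro d hd
    obtain ⟨a, ha, rfl⟩ := Finset.mem_image.1 hd
    obtain ⟨C, hC, rfl⟩ := (hNm a).1 ha
    exact ⟨C, hC, rfl⟩
  have : Nonempty (Pt f F) := ⟨Q⟩
  choose! s hs using fun d (h : ∃ C, T.Nb Q X C ∧ zz Q C = d) => h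
  obtain ⟨Λ, e, hΛ⟩ := hFRE (2 * c1) F F (N.image fun a : F => (a - Q.a)⁻¹)
    (fun d => zz (T.φ Q) (T.φ (s d))) (aff_top (by omega))
    (by rw [Finset.card_image_of_injective _ hinj]; exact hcard) (by
      intro m hm a b ha hb hab
      have hm' : m ∈ Finset.range (9 * (2 * c1) + 10) := Finset.mem_range.2 (by omega)
      have h2 := Finset.single_le_sum (f := c) (fun _ _ => Nat.zero_le _) hm'
      have h3 := Finset.single_le_sum (f := p) (fun _ _ => Nat.zero_le _) hm'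
      refine hcp m F G G' f g T (by omega) ((Nat.mul_le_mul_left _ (by omega)).trans hB) Q X
        (fun i => s (a i)) (fun i => s (b i)) hQB hXB (fun i => (hs _ (hD _ (ha i))).1)
        (fun i => (hs _ (hD _ (hb i))).1) ?_
      rw [Finset.sum_congr rfl fun i _ => (hs _ (hD _ (ha i))).2,
        Finset.sum_congr rfl fun i _ => (hs _ (hD _ (hb i))).2, hab])
  refine ⟨N, Λ, e, hcard.trans (Nat.mul_le_mul_right _ (Nat.le_add_right _ _)), fun a ha => ?_⟩
  have hd := Finset.mem_image_of_mem (fun a : F => (a - Q.a)⁻¹) ha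
  obtain ⟨C, ⟨R1, R2, hA, hC, -, -⟩, rfl⟩ := (hNm a).1 ha
  refine ⟨hC, fun h => ?_, ⟨C, hA.ok.2.2.1, rfl⟩, fun P hP => ?_⟩
  · exact absurd (hA.ne (a₁ := 2) (a₂ := 0) h) (by decide)
  · obtain ⟨⟨_, _, -, h2, -, -⟩, h3⟩ := hs _ (hD _ hd)
    have h4 : (s (C.a - Q.a)⁻¹).a = P.a := (hinj h3).trans hP.symm
    have h5 := (hT.a _ P h2 (hP ▸ hC)).2 h4
    have h6 := hΛ _ hd
    rw [zz, zz, hP, ← h6, zz, h5]

end Pool.Agent.P.MP_9344a7_nt.Tor
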