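import Pool.Agent.P.MP_9344a7_nt.Tor.Iface

/-! Step AIR. -/

set_option autoImplicit false
set_option linter.unusedSectionVars false

namespace Pool.Agent.P.MP_9344a7_nt.Tor

open Polynomial WithZero
open Pool.Agent.P.MP_6f117a_ag (Place FF)
open Pool.Agent.P.MP_ab3ecb_nt.Inv (ord Dv dv deg SA LS)
open scoped Classical IntermediateField

theorem air_swap {R : Type} [CommRing R] (p : R[X][X]) (i j : ℕ) :
    ((Bivariate.swap p).coeff j).coeff i = (p.coeff i).coeff j := by
  induction p using Polynomial.induction_on' with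
  | add p q hp hq => simp only [map_add, coeff_add, hp, hq]
  | monomial n a =>
    induction a using Polynomial.induction_on' with
    | add p q hp hq => simp only [map_add, coeff_add, hp, hq]
    | monomial m r =>
      rw [Bivariate.swap_monomial_monomial]
      by_cases h1 : n = i <;> by_cases h2 : m = j <;> simp [coeff_monomial, h1, h2]

/-- All coefficients outside the box vanish. -/
def airBox {R : Type} [CommRing R] (D E : ℕ) (p : R[X][X]) : Prop :=
  p.natDegree < D ∧ ∀ i, (p.coeff i).natDegree < E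

theorem air_dvd {A : Type} [Field A] {D E : ℕ} {p q : A[X][X]} (hq : q ≠ 0) (h : p ∣ q)
    (hb : airBox D E q) : airBox D E p := by
  refine ⟨(natDegree_le_of_dvd h hq).trans_lt hb.1, fun i => ?_⟩
  have hE : 0 < E := (Nat.zero_le _).trans_lt (hb.2 0)
  have h1 : (Bivariate.swap q).natDegree ≤ E - 1 := by
    rw [natDegree_le_iff_coeff_eq_zero]
    intro j hj
    ext k
    rw [air_swap, coeff_zero]
    exact coeff_eq_zero_of_natDegree_lt (by have := hb.2 k; omega)
  have hq' : Bivariate.swap q ≠ 0 := by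
    intro e
    apply hq
    ext a b
    rw [← air_swap, e, coeff_zero, coeff_zero, coeff_zero, coeff_zero]
  have hd : Bivariate.swap p ∣ Bivariate.swap q := by
    obtain ⟨r, hr⟩ := h
    exact ⟨Bivariate.swap r, by rw [hr, map_mul]⟩
  have h2 : (Bivariate.swap p).natDegree ≤ (Bivariate.swap q).natDegree :=
    natDegree_le_of_dvd hd hq'
  have h3 : (p.coeff i).natDegree ≤ E - 1 := by
    rw [natDegree_le_iff_coeff_eq_zero]
    intro j hj
    rw [← air_swap, coeff_eq_zero_of_natDegree_lt ((h2.trans h1).trans_lt hj), coeff_zero]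
  omega

theorem air_lift {A : ℕ → Type} [∀ n, Field (A n)] (D E : ℕ) (g : ∀ n, (A n)[X][X]) :
    ∃ G : (∀ n, A n)[X][X], ∀ n, airBox D E (g n) →
      G.map (mapRingHom (Pi.evalRingHom A n)) = g n := by
  refine ⟨pol fun i : Fin D => pol fun j : Fin E => fun n => ((g n).coeff i).coeff j,
    fun n hn => ?_⟩
  rw [pol_map]
  refine Eq.trans (congrArg pol (funext fun i => ?_)) (pol_coeff hn.1)
  rw [Function.comp_apply, coe_mapRingHom, pol_map]
  exact pol_coeff (hn.2 i)

theorem air_zero {A : ℕ → Type} [∀ n, Field (A n)] {U : Ultrafilter ℕ} {Ω : Type} [Field Ω]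
    {π : (∀ n, A n) →+* Ω} (h : IsUP U π) {p : (∀ n, A n)[X][X]}
    (hp : ∀ᶠ n in U, p.map (mapRingHom (Pi.evalRingHom A n)) = 0) :
    p.map (mapRingHom π) = 0 := by
  ext i j
  simp only [coeff_map, coe_mapRingHom, coeff_zero]
  rw [h.ker]
  filter_upwards [hp] with n hn
  have := congrArg (fun q => (q.coeff i).coeff j) hn
  simpa only [coeff_map, coe_mapRingHom, coeff_zero, Pi.evalRingHom_apply] using this

theorem air_unit {A : ℕ → Type} [∀ n, Field (A n)] {U : Ultrafilter ℕ} {Ω : Type} [Field Ω]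
    {π : (∀ n, A n) →+* Ω} (h : IsUP U π) {G : (∀ n, A n)[X][X]}
    (hG : ∀ᶠ n in U, (G.map (mapRingHom (Pi.evalRingHom A n))).Monic ∧
      (G.map (mapRingHom (Pi.evalRingHom A n))).natDegree ≠ 0) :
    ¬ IsUnit (G.map (mapRingHom π)) := by
  intro hu
  have h0 := natDegree_eq_zero_of_isUnit hu
  have h1 : ∀ i ∈ Finset.Icc 1 G.natDegree, ∀ᶠ n in U, (G.coeff i).coeff 0 n = 0 := by
    intro i hi
    rw [← h.ker]
    have h2 : (G.map (mapRingHom π)).coeff i = 0 :=
      coeff_eq_zero_of_natDegree_lt (by have := (Finset.mem_Icc.1 hi).1; omega)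
    have := congrArg (fun q => q.coeff 0) h2
    simpa only [coeff_map, coe_mapRingHom, coeff_zero] using this
  have h3 := (Filter.eventually_all_finset _).2 h1
  obtain ⟨n, ⟨hm, hd⟩, hn⟩ := (hG.and h3).exists
  have h4 := hn _ (Finset.mem_Icc.2 ⟨Nat.one_le_iff_ne_zero.2 hd, natDegree_map_le⟩)
  have h5 := congrArg (fun q => q.coeff 0) hm.coeff_natDegree
  simp only [coeff_map, coe_mapRingHom, coeff_one_zero, Pi.evalRingHom_apply] at h5
  exact zero_ne_one (h4.symm.trans h5)

theorem air_core {A : ℕ → Type} [∀ n, Field (A n)] {U : Ultrafilter ℕ} {Ω : Type} [Field Ω]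
    {π : (∀ n, A n) →+* Ω} (h : IsUP U π) {Ψ : (∀ n, A n)[X][X]} (hm : Ψ.Monic)
    (hi : Irreducible (Ψ.map (mapRingHom π))) :
    ∀ᶠ n in U, Irreducible (Ψ.map (mapRingHom (Pi.evalRingHom A n))) := by
  by_contra hc
  rw [← Ultrafilter.eventually_not] at hc
  have hd : Ψ.natDegree ≠ 0 := by
    intro h0
    rw [← hm.natDegree_map (mapRingHom π), (hm.map _).natDegree_eq_zero] at h0
    exact hi.ne_one h0
  have key : ∀ n, ∃ g k : (A n)[X][X],
      ¬ Irreducible (Ψ.map (mapRingHom (Pi.evalRingHom A n))) →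
      g.Monic ∧ k.Monic ∧ g * k = Ψ.map (mapRingHom (Pi.evalRingHom A n)) ∧
        g.natDegree ≠ 0 ∧ k.natDegree ≠ 0 := by
    intro n
    by_cases hn : Irreducible (Ψ.map (mapRingHom (Pi.evalRingHom A n)))
    · exact ⟨0, 0, fun h => (h hn).elim⟩
    · have h1 : Ψ.map (mapRingHom (Pi.evalRingHom A n)) ≠ 1 := by
        intro e
        rw [← (hm.map _).natDegree_eq_zero, hm.natDegree_map] at e
        exact hd e
      have h2 := hn
      rw [(hm.map _).irreducible_iff_natDegree, and_iff_right h1] at h2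
      push Not at h2
      obtain ⟨g, k, h2⟩ := h2
      exact ⟨g, k, fun _ => h2⟩
  choose g k hgk using key
  have hb : ∀ n, airBox (Ψ.natDegree + 1) ((Bivariate.swap Ψ).natDegree + 1)
      (Ψ.map (mapRingHom (Pi.evalRingHom A n))) := by
    intro n
    refine ⟨Nat.lt_succ_of_le natDegree_map_le, fun i => Nat.lt_succ_of_le ?_⟩
    rw [coeff_map, coe_mapRingHom]
    refine natDegree_map_le.trans ?_
    rw [natDegree_le_iff_coeff_eq_zero]
    intro j hj
    rw [← air_swap, coeff_eq_zero_of_natDegree_lt hj, coeff_zero]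
  obtain ⟨G, hG⟩ := air_lift (Ψ.natDegree + 1) ((Bivariate.swap Ψ).natDegree + 1) g
  obtain ⟨H, hH⟩ := air_lift (Ψ.natDegree + 1) ((Bivariate.swap Ψ).natDegree + 1) k
  have hG' : ∀ᶠ n in U, G.map (mapRingHom (Pi.evalRingHom A n)) = g n := by
    filter_upwards [hc] with n hn
    exact hG n (air_dvd (hm.map _).ne_zero ⟨_, (hgk n hn).2.2.1.symm⟩ (hb n))
  have hH' : ∀ᶠ n in U, H.map (mapRingHom (Pi.evalRingHom A n)) = k n := by
    filter_upwards [hc] with n hn
    exact hH n (air_dvd (hm.map _).ne_zero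
      ⟨_, (hgk n hn).2.2.1.symm.trans (mul_comm _ _)⟩ (hb n))
  have e : (Ψ - G * H).map (mapRingHom π) = 0 := by
    refine air_zero h ?_
    filter_upwards [hc, hG', hH'] with n hn h1 h2
    rw [Polynomial.map_sub, Polynomial.map_mul, h1, h2, (hgk n hn).2.2.1, sub_self]
  rw [Polynomial.map_sub, Polynomial.map_mul, sub_eq_zero] at e
  rcases hi.isUnit_or_isUnit e with hu | hu
  · refine air_unit h ?_ hu
    filter_upwards [hc, hG'] with n hn h1
    rw [h1]
    exact ⟨(hgk n hn).1, (hgk n hn).2.2.2.1⟩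
  · refine air_unit h ?_ hu
    filter_upwards [hc, hH'] with n hn h1
    rw [h1]
    exact ⟨(hgk n hn).2.1, (hgk n hn).2.2.2.2⟩

theorem p_AIR (hUP : S_UP) :
    S_AIR := by
  intro F _ U K _ π hπ Ψ hm hi
  obtain ⟨Ω, _, π', hπ'⟩ := hUP (fun n => AlgebraicClosure (F n)) U
  let ι : (∀ n, F n) →+* ∀ n, AlgebraicClosure (F n) :=
    RingHom.pi fun n => (algebraMap (F n) (AlgebraicClosure (F n))).comp (Pi.evalRingHom F n)
  have hk : RingHom.ker π ≤ RingHom.ker (π'.comp ι) := by
    intro x hx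
    rw [RingHom.mem_ker] at hx ⊢
    rw [RingHom.comp_apply, hπ'.ker]
    filter_upwards [(hπ.ker x).1 hx] with n hn
    change algebraMap (F n) (AlgebraicClosure (F n)) (x n) = 0
    rw [hn, map_zero]
  have h1 := hi Ω (π.liftOfSurjective hπ.surj ⟨_, hk⟩)
  rw [RingHom.liftOfSurjective_comp] at h1
  have h2 : Irreducible ((Ψ.map (mapRingHom ι)).map (mapRingHom π')) := by
    rw [Polynomial.map_map, mapRingHom_comp]
    exact h1
  filter_upwards [air_core hπ' (hm.map _) h2] with n hn
  rw [Polynomial.map_map, mapRingHom_comp] at hn ⊢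
  exact hn

end Pool.Agent.P.MP_9344a7_nt.Tor
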