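import Pool.Agent.P.MP_9344a7_nt.Tor.Iface

/-! Step AL2. -/

set_option autoImplicit false
set_option linter.unusedSectionVars false

namespace Pool.Agent.P.MP_9344a7_nt.Tor

open Polynomial WithZero
open Pool.Agent.P.MP_6f117a_ag (Place FF)
open Pool.Agent.P.MP_ab3ecb_nt.Inv (ord Dv dv deg SA LS)
open scoped Classical IntermediateField

theorem al2_pt {k0 A M : Type} [Field k0] [Field A] [Field M] [Algebra k0 A] [Algebra k0 M]
    [Algebra A M] [IsScalarTower k0 A M] {f : k0[X]}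
    (h : ∀ z : M, IsAlgebraic A z → ∃ a, algebraMap A M a = z) (P : Pt f M)
    (hP : IsAlgebraic A P.a) : ∃ P' : Pt f A, P'.map (IsScalarTower.toAlgHom k0 A M) = P := by
  obtain ⟨a, ha⟩ := h _ hP
  obtain ⟨b, hb, hn⟩ : ∃ b : A, algebraMap A M b = P.b ∧ (b = 1 ∨ (b = 0 ∧ a = 1)) := by
    rcases P.nf with e | ⟨e, e'⟩
    · exact ⟨1, by rw [map_one, e], .inl rfl⟩
    · exact ⟨0, by rw [map_zero, e], .inr ⟨rfl, (algebraMap A M).injective (by
        rw [ha, e', map_one])⟩⟩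
  have e : P.y ^ 2 = algebraMap A M (hev 6 (f.map (algebraMap k0 A)) a b) := by
    rw [P.eq, ← hev_map, ha, hb, Polynomial.map_map, ← IsScalarTower.algebraMap_eq]
  obtain ⟨y, hy⟩ := h P.y (IsAlgebraic.of_pow two_pos (e ▸ isAlgebraic_algebraMap _))
  exact ⟨⟨a, b, y, hn, (algebraMap A M).injective (by rw [map_pow, hy, e])⟩, Pt.ext ha hb hy⟩

theorem al2_alg {k0 A M : Type} [Field k0] [Field A] [Field M] [Algebra k0 M]
    [Algebra A M] {f : k0[X]} {g : A[X]} {r : M[X]} (P : Pt f M) (hr : r ≠ 0)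
    (h : g.map (algebraMap A M) = r * P.ell) : IsAlgebraic A P.a := by
  rcases P.nf with e | ⟨-, e⟩
  · refine ⟨g, fun h0 => mul_ne_zero hr P.ell_ne (by rw [← h, h0, Polynomial.map_zero]), ?_⟩
    rw [← eval_map_algebraMap, h, Pt.ell_aff e]
    simp
  · rw [e]
    exact isAlgebraic_one

theorem p_AL2 (hFB : S_FB) :
    S_AL2 := by
  intro k0 A M _ _ _ _ _ _ _ f hf h
  refine ⟨al2_pt h, ?_⟩
  rintro p P V1 V2 ⟨t0, t1, ht⟩
  obtain ⟨s0, s1, hs, ho⟩ := (hFB k0 A f hf).on_ex p P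
  obtain ⟨⟨t, t0, e⟩, -⟩ := (hFB k0 M f hf).re _ _ _ _ _ _ _ _ ht
    (hs.imp (_root_.map_ne_zero _).2 (_root_.map_ne_zero _).2)
    ((Pen.On.map (IsScalarTower.toAlgHom k0 A M)).2 ho)
  rw [Pen.map_V] at e
  have c0 := mul_ne_zero (C_ne_zero.2 t0) (P.map (IsScalarTower.toAlgHom k0 A M)).ell_ne
  obtain ⟨U1, h1⟩ := al2_pt h V1 (al2_alg (g := p.V s0 s1) V1 (mul_ne_zero c0 V2.ell_ne)
    (e.trans (mul_right_comm _ _ _)))
  obtain ⟨U2, h2⟩ := al2_pt h V2 (al2_alg (g := p.V s0 s1) V2 (mul_ne_zero c0 V1.ell_ne) e)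
  exact ⟨U1, U2, h1, h2⟩

end Pool.Agent.P.MP_9344a7_nt.Tor
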