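import Pool.Agent.P.MP_9344a7_nt.Tor.Iface
import Pool.Agent.P.MP_ab3ecb_nt.Inv.J.Dalg

/-! Step ALG. -/

set_option autoImplicit false
set_option linter.unusedSectionVars false

namespace Pool.Agent.P.MP_9344a7_nt.Tor

open Polynomial WithZero
open Pool.Agent.P.MP_6f117a_ag (Place FF)
open Pool.Agent.P.MP_ab3ecb_nt.Inv (ord Dv dv deg SA LS)
open scoped Classical IntermediateField

theorem alg_lin {M : Type} [Field M] {xa ya xc zc yb zb x y z dx dy dz : M} (hx : x ≠ 0)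
    (hJ : xa * yb * zc - xc * ya * zb ≠ 0) (e1 : xa / x * dx + ya / y * dy = 0)
    (e2 : xc / (-x) * dx + zc / z * dz = 0) (e3 : yb / y * dy + zb / z * dz = 0) : dx = 0 := by
  have h : (xa * yb * zc - xc * ya * zb) * (x⁻¹ * dx) = 0 := by
    rw [div_neg] at e2
    linear_combination yb * zc * e1 - ya * zc * e3 + ya * zb * e2
  exact (mul_eq_zero.1 ((mul_eq_zero.1 h).resolve_left hJ)).resolve_left (inv_ne_zero hx)

theorem p_ALG (hDER : S_DER) (hAL2 : S_AL2) :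
    S_ALG := by
  intro k0 A M _ _ _ _ _ _ _ _ f hf hcl p1 p2 p3 κ hin hok hJ
  have hz : CharZero M := charZero_of_injective_algebraMap (algebraMap A M).injective
  obtain ⟨h1, h2, h3⟩ := hin
  obtain ⟨oX, oY, oZ, oA, oB, oC⟩ := hok
  have hX : IsAlgebraic (IntermediateField.adjoin A (∅ : Set M)) κ.X.a := by
    refine (MP_ab3ecb_nt.Inv.p_DALG A M ∅ κ.X.a).1 fun δ _ => ?_
    exact alg_lin oX.2 hJ (hDER k0 A M f δ p1 _ _ _ oX oY oA h1).1
      (hDER k0 A M f δ p2 _ _ _ (Pt.ok_io.2 oX) oZ oC h2).1 (hDER k0 A M f δ p3 _ _ _ oY oZ oB h3).1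
  have hal : Algebra.IsAlgebraic A (IntermediateField.adjoin A (∅ : Set M)) :=
    IntermediateField.isAlgebraic_adjoin fun _ h => h.elim
  obtain ⟨ha, hb⟩ := hAL2 k0 A M f hf hcl
  obtain ⟨X', eX⟩ := ha κ.X (hX.restrictScalars A)
  obtain ⟨Y', A', eY, eA⟩ := hb p1 X' κ.Y κ.A (eX ▸ h1)
  obtain ⟨Z', C', eZ, eC⟩ := hb p2 X'.io κ.Z κ.C (by rw [Pt.map_io, eX]; exact h2)
  obtain ⟨-, B', -, eB⟩ := hb p3 Y' κ.Z κ.B (eY ▸ h3)
  exact ⟨⟨X', Y', Z', A', B', C'⟩, Cfg.ext eX eY eZ eA eB eC⟩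

end Pool.Agent.P.MP_9344a7_nt.Tor
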