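import Pool.Agent.P.MP_9344a7_nt.Tor.Iface

/-! Step COM. -/

set_option autoImplicit false
set_option linter.unusedSectionVars false

namespace Pool.Agent.P.MP_9344a7_nt.Tor

open Polynomial WithZero
open Pool.Agent.P.MP_6f117a_ag (Place FF)
open Pool.Agent.P.MP_ab3ecb_nt.Inv (ord Dv dv deg SA LS)
open scoped Classical IntermediateField

section com

variable {k0 L L' : Type} [Field k0] [Field L] [Algebra k0 L] [Field L'] [Algebra k0 L']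
  {f : k0[X]} (φ : L →ₐ[k0] L')

lemma com_ne {P Q : Pt f L} (h : P ≠ Q) : P.map φ ≠ Q.map φ := fun e => h (Pt.map_inj φ e)

lemma com_ne_io {P Q : Pt f L} (h : P.io ≠ Q) : (P.map φ).io ≠ Q.map φ := by
  rw [← Pt.map_io]
  exact com_ne φ h

lemma com_a {P Q : Pt f L} (h : P.a ≠ Q.a) : (P.map φ).a ≠ (Q.map φ).a :=
  fun e => h (φ.injective e)

lemma com_J (κ : Cfg f L) : (κ.map φ).J = φ κ.J := by
  simp [Cfg.J, Cfg.ap]

lemma com_in {κ : Cfg f L} {p1 p2 p3 : Pen f L} (h : κ.In p1 p2 p3) :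
    (κ.map φ).In (p1.map φ) (p2.map φ) (p3.map φ) := by
  refine ⟨h.1.map φ, ?_, h.2.2.map φ⟩
  have := h.2.1.map φ
  rw [Pt.map_io] at this
  exact this

lemma com_nd {κ : Cfg f L} (h : κ.Nd) : (κ.map φ).Nd := by
  obtain ⟨⟨o1, o2, o3, o4, o5, o6⟩, ⟨a1, a2, a3⟩, ⟨b1, b2, b3⟩, c1, c2, c3⟩ := h
  exact ⟨⟨(Pt.ok_map φ).2 o1, (Pt.ok_map φ).2 o2, (Pt.ok_map φ).2 o3, (Pt.ok_map φ).2 o4,
    (Pt.ok_map φ).2 o5, (Pt.ok_map φ).2 o6⟩, ⟨com_a φ a1, com_a φ a2, com_a φ a3⟩,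
    ⟨com_a φ b1, com_a φ b2, com_a φ b3⟩, com_a φ c1, com_a φ c2, com_a φ c3⟩

lemma com_cl {κ : Cfg f L} {p1 : Pen f L} {U1 U2 : Pt f L} (h : κ.Cl p1 U1 U2) :
    (κ.map φ).Cl (p1.map φ) (U1.map φ) (U2.map φ) := by
  obtain ⟨h0, h1, h2, h3, h4, h5, h6, h7⟩ := h
  exact ⟨h0.map φ, com_ne φ h1, com_ne φ h2, com_ne_io φ h3, com_ne_io φ h4, com_ne_io φ h5,
    com_ne_io φ h6, com_ne_io φ h7⟩

lemma com_fam {κ0 : Cfg f L} {κs : Fin 10 → Cfg f L} {p1 p2 p3 : Pen f L}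
    (h : Fam κ0 κs p1 p2 p3) :
    Fam (κ0.map φ) (fun j => (κs j).map φ) (p1.map φ) (p2.map φ) (p3.map φ) :=
  ⟨com_in φ h.in0, com_nd φ h.nd, fun j => com_in φ (h.ins j),
    fun j => ⟨com_ne_io φ (h.ur j).1, com_ne φ (h.ur j).2⟩, fun j => com_ne φ (h.ne j),
    fun i j h1 h2 h3 => h.inj i j (Pt.map_inj φ h1) (Pt.map_inj φ h2) (Pt.map_inj φ h3)⟩

end com

theorem p_COM (hFC : S_FC) :
    S_COM := by
  intro k0 L L' G _ _ _ _ _ _ f hf φ I H hK hcl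
  let I' : PicI f L H :=
    { cl := fun P => ⟨I.cl (P.map φ), hcl P⟩
      K := ⟨I.K, hK⟩
      conj := fun P => Subtype.ext (by
        change I.cl (P.map φ) + I.cl (P.io.map φ) = I.K
        rw [Pt.map_io, I.conj])
      one := fun P Q h => Pt.map_inj φ (I.one (congrArg Subtype.val h))
      two := fun P1 P2 Q1 Q2 h => by
        rcases I.two _ _ _ _ (congrArg Subtype.val h) with ⟨h1, h2⟩ | ⟨h1, h2⟩ | ⟨h1, h2⟩
        · exact .inl ⟨Pt.map_inj φ h1, Pt.map_inj φ h2⟩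
        · exact .inr (.inl ⟨Pt.map_inj φ h1, Pt.map_inj φ h2⟩)
        · rw [← Pt.map_io] at h1 h2
          exact .inr (.inr ⟨Pt.map_inj φ h1, Pt.map_inj φ h2⟩)
      fib := fun p P1 P2 P3 Q1 Q2 Q3 h => by
        have h1 := I.fib (p.map φ) _ _ _ (Q1.map φ) (Q2.map φ) (Q3.map φ) (h.map φ)
        rw [Subtype.ext_iff]
        exact ⟨fun h2 => h1.1 (h2.map φ), fun h2 => (hFC k0 L f hf).refl L' φ _ _ _ _ (h1.2 h2)⟩ }
  have hrel : ∀ (κ0 : Cfg f L) (κs : Fin 10 → Cfg f L),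
      I'.Rel κ0 κs ↔ I.Rel (κ0.map φ) fun j => (κs j).map φ := by
    intro κ0 κs
    rw [PicI.Rel, PicI.Rel, Subtype.ext_iff]
    push_cast
    simp only [I', Pt.map_io, Cfg.ap]
  refine ⟨I', fun P => rfl, rfl, fun hD => ⟨?_, ?_⟩⟩
  · rintro κ0 κs p1 p2 p3 hF hJ ⟨j, U1, U2, h1, h2, h3⟩
    refine (hrel κ0 κs).2 (hD.dc _ _ _ _ _ (com_fam φ hF) (by rw [com_J, hJ, map_zero])
      ⟨j, _, _, com_nd φ h1, ?_, com_cl φ h3⟩)
    rw [com_J]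
    exact (map_ne_zero φ).2 h2
  · intro κ0 κs p1 p2 p3 U1 U2 hF hC hR
    have := hD.dd _ _ _ _ _ _ _ (com_fam φ hF) (com_cl φ hC) ((hrel κ0 κs).1 hR)
    rw [com_J] at this
    exact (map_eq_zero φ).1 this

end Pool.Agent.P.MP_9344a7_nt.Tor
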