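import Pool.Agent.P.MP_9344a7_nt.Tor.Iface

/-! Step CONJ. -/

set_option autoImplicit false
set_option linter.unusedSectionVars false

namespace Pool.Agent.P.MP_9344a7_nt.Tor

open Polynomial WithZero
open Pool.Agent.P.MP_6f117a_ag (Place FF)
open Pool.Agent.P.MP_ab3ecb_nt.Inv (ord Dv dv deg SA LS)
open scoped Classical IntermediateField

section conj

variable {L Γ : Type} [Field L] [LinearOrderedCommGroupWithZero Γ] (v : Valuation L Γ)

lemma conj_eval {q : L[X]} (hq : ∀ i, v (q.coeff i) ≤ 1) {a : L} (ha : v a ≤ 1) :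
    v (q.eval a) ≤ 1 := by
  rw [eval_eq_sum_range]
  refine v.map_sum_le fun i _ => ?_
  rw [map_mul, map_pow]
  exact mul_le_one' (hq i) (pow_le_one' ha i)

lemma conj_der {q : L[X]} (hq : ∀ i, v (q.coeff i) ≤ 1) {a : L} (ha : v a ≤ 1) :
    v ((derivative q).eval a) ≤ 1 := by
  refine conj_eval v (fun i => ?_) ha
  rw [coeff_derivative, map_mul]
  have h : v ((i + 1 : ℕ) : L) ≤ 1 := natCast_mem v.integer (i + 1)
  rw [Nat.cast_succ] at h
  exact mul_le_one' (hq (i + 1)) h

lemma conj_comb {s0 s1 x y : L} (hx : v x ≤ 1) (hy : v y ≤ 1) :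
    v (s0 * x + s1 * y) ≤ max (v s0) (v s1) := by
  refine (v.map_add _ _).trans (max_le_max ?_ ?_)
  · rw [map_mul]
    exact mul_le_of_le_one_right' hx
  · rw [map_mul]
    exact mul_le_of_le_one_right' hy

lemma conj_key {F A u l : L[X]} {σ a a' y : L} {m : Γ} (hm : m ≠ 0)
    (h : C (σ ^ 2) * F - A ^ 2 = u * ((X - C a) * (X - C a') * l)) (hA : A.eval a = σ * y)
    (hF : v ((derivative F).eval a) = 1) (hA' : v ((derivative A).eval a) ≤ m)
    (hu : v (u.eval a) ≤ 1) (hl : v (l.eval a) ≤ m ^ 2) (hσ : v σ ≤ m) (hy : v y < 1)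
    (ha : v (a - a') < 1) : v σ < m := by
  have h1 := congrArg (fun q => (derivative q).eval a) h
  simp only [derivative_sub, derivative_mul, derivative_C, derivative_X, derivative_sq, eval_sub,
    eval_add, eval_mul, eval_C, eval_X, zero_mul, zero_add, sub_self, mul_zero, add_zero,
    eval_one, sub_zero, one_mul, hA] at h1
  have h2 : σ ^ 2 * (derivative F).eval a =
      (2 * (σ * (derivative A).eval a)) * y + (u.eval a * l.eval a) * (a - a') := by
    linear_combination h1
  have hm2 : 0 < m ^ 2 := pow_pos (zero_lt_iff.2 hm) 2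
  have h3 : v ((2 * (σ * (derivative A).eval a)) * y) < m ^ 2 := by
    have e2 : v (2 : L) ≤ 1 := ofNat_mem v.integer 2
    have e : v (2 * (σ * (derivative A).eval a)) ≤ m ^ 2 := by
      rw [map_mul, map_mul, sq]
      exact (mul_le_of_le_one_left' e2).trans (mul_le_mul' hσ hA')
    rw [map_mul]
    exact (mul_le_mul_left e _).trans_lt (mul_lt_of_lt_one_right hm2 hy)
  have h4 : v ((u.eval a * l.eval a) * (a - a')) < m ^ 2 := by
    have e : v (u.eval a * l.eval a) ≤ m ^ 2 := by
      rw [map_mul]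
      exact (mul_le_of_le_one_left' hu).trans hl
    rw [map_mul]
    exact (mul_le_mul_left e _).trans_lt (mul_lt_of_lt_one_right hm2 ha)
  have h5 := v.map_add_lt h3 h4
  rw [← h2, map_mul, hF, mul_one, map_pow] at h5
  exact lt_of_pow_lt_pow_left₀ 2 zero_le h5

end conj

theorem p_CONJ (hDD : S_DD) (hRHO : S_RHO) (hGAU : S_GAU) :
    S_CONJ := by
  intro k0 L Γ _ _ _ _ v f hf p hp P1 P2 P3 ⟨s0, s1, hF⟩
  have D := hDD k0 L Γ v f hf
  have R := hRHO k0 L Γ v f hf p hp
  have hs := hF.ne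
  obtain ⟨⟨t, -, hV⟩, o1, o2, -⟩ := hF
  have G := hGAU k0 L Γ v f hf p hp s0 s1 t P1 P2 P3 hV
  by_contra hne
  have hlt : dd v P1 P2.io < 1 := lt_of_le_of_ne (D.le _ _) hne
  have sm : ∀ P Q : Pt f L, p.On s0 s1 P → p.On s0 s1 Q → dd v P.io Q < 1 →
      v P.y < nm v P ^ 3 := fun P Q hP hQ h => by
    have e := R.lip s0 s1 P.io Q
    rw [R.zero _ _ _ hQ, R.io _ _ _ hs hP, D.self, max_eq_right zero_le] at e
    exact (div_lt_one₀ (pow_pos (zero_lt_iff.2 (D.nm_ne P)) 3)).1 (e.trans_lt h)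
  have y1 := sm P1 P2 o1 o2 (by rwa [← D.io, Pt.io_io])
  have y2 := sm P2 P1 o2 o1 (by rwa [D.symm])
  obtain ⟨b1, a1, f1⟩ := D.small P1 y1
  obtain ⟨b2, a2, -⟩ := D.small P2 y2
  have n1 : nm v P1 = 1 := by rw [nm, b1, map_one, max_eq_right a1]
  have n2 : nm v P2 = 1 := by rw [nm, b2, map_one, max_eq_right a2]
  rw [n1, one_pow] at y1
  rw [D.aff P1 P2.io b1 b2 a1 a2] at hlt
  have ha : v (P1.a - P2.a) < 1 := (le_max_left _ _).trans_lt hlt
  rw [n1, n2, mul_one, mul_one] at G
  have hm : max (v s0) (v s1) ≠ 0 := fun e => by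
    rcases hs with h | h
    · exact h (v.zero_iff.1 (le_zero_iff.1 (e ▸ le_max_left _ _)))
    · exact h (v.zero_iff.1 (le_zero_iff.1 (e ▸ le_max_right _ _)))
  have hl : v ((C t * P3.ell).eval P1.a) ≤ max (v s0) (v s1) ^ 2 := by
    have e : (C t * P3.ell).eval P1.a = t * (P3.a * (-1) + P3.b * P1.a) := by
      simp only [Pt.ell, eval_mul, eval_sub, eval_C, eval_X]
      ring
    rw [e, map_mul, ← G]
    exact mul_le_mul_right (conj_comb v (by rw [v.map_neg, map_one]) a1) _
  have hF' : v ((derivative (f.map (algebraMap k0 L))).eval P1.a) = 1 := by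
    rw [derivative_map, eval_map_algebraMap, f1]
  have iu := fun i => (hp i).1
  have ic := fun i => (hp i).2.1
  have iw := fun i => (hp i).2.2
  rw [Pt.ell_aff b1, Pt.ell_aff b2, Pen.V] at hV
  simp only [Pen.On, Pt.ev_aff b1 p.du, Pt.ev_aff b1 p.dc, Pt.ev_aff b1 p.dw] at o1
  have k0' : v s0 < max (v s0) (v s1) := by
    refine conj_key v (A := C s0 * p.c + C s1 * p.u) (u := p.u) hm ?_ ?_ hF' ?_
      (conj_eval v iu a1) hl (le_max_left _ _) y1 ha
    · rw [p.eq]
      simp only [map_pow, map_mul, map_ofNat] at hV ⊢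
      linear_combination p.u * hV
    · simp only [eval_add, eval_mul, eval_C]
      linear_combination -o1.1
    · simp only [derivative_add, derivative_C_mul, eval_add, eval_mul, eval_C]
      exact conj_comb v (conj_der v ic a1) (conj_der v iu a1)
  have k1' : v s1 < max (v s0) (v s1) := by
    refine conj_key v (A := C s0 * p.w + C s1 * (-p.c)) (u := -p.w) hm ?_ ?_ hF' ?_
      (by rw [eval_neg, v.map_neg]; exact conj_eval v iw a1) hl (le_max_right _ _) y1 ha
    · rw [p.eq]
      simp only [map_pow, map_mul, map_ofNat] at hV ⊢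
      linear_combination (-p.w) * hV
    · simp only [eval_add, eval_mul, eval_C, eval_neg]
      linear_combination -o1.2
    · simp only [derivative_add, derivative_C_mul, eval_add, eval_mul, eval_C, derivative_neg,
        eval_neg]
      exact conj_comb v (conj_der v iw a1) (by rw [v.map_neg]; exact conj_der v ic a1)
  exact lt_irrefl _ (max_lt k0' k1')

end Pool.Agent.P.MP_9344a7_nt.Tor
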