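import Pool.Agent.P.MP_9344a7_nt.Tor.Iface

/-! Step CUB. -/

set_option autoImplicit false
set_option linter.unusedSectionVars false

namespace Pool.Agent.P.MP_9344a7_nt.Tor

open Polynomial WithZero
open Pool.Agent.P.MP_6f117a_ag (Place FF)
open Pool.Agent.P.MP_ab3ecb_nt.Inv (ord Dv dv deg SA LS)
open scoped Classical IntermediateField

theorem cub_fib {K : Type} [Field K] [IsAlgClosed K] (w : K[X]) (x v : K) (hx : w.eval x ≠ 0)
    (hw : w.natDegree ≤ 6) (U : Finset K[X])
    (hU : ∀ u ∈ U, u ∣ w ∧ u.eval x ^ 2 - v * u.eval x + w.eval x = 0) : U.card ≤ 128 := by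
  have w0 : w ≠ 0 := by rintro rfl; simp at hx
  let Q : K[X] := X ^ 2 - C v * X + C (w.eval x)
  have dQ : Q.natDegree = 2 := by unfold Q; compute_degree!
  have Q0 : Q ≠ 0 := by intro h; simp [h] at dQ
  refine (Finset.card_le_card_of_injOn (t := w.roots.powerset.toFinset ×ˢ Q.roots.toFinset)
    (fun u => (u.roots, u.eval x)) (fun u hu => ?_) fun u hu u' hu' e => ?_).trans ?_
  · have := hU u hu
    simp only [Finset.coe_product, Set.mem_prod, Finset.mem_coe, Multiset.mem_toFinset,
      Multiset.mem_powerset, mem_roots Q0]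
    exact ⟨roots.le_of_dvd w0 this.1, by simpa [Q] using this.2⟩
  · obtain ⟨e1, e2⟩ := Prod.mk.inj e
    have h0 : u.eval x ≠ 0 := fun h => hx (by obtain ⟨r, rfl⟩ := (hU u hu).1; simp [h])
    have a1 := (IsAlgClosed.splits u).eq_prod_roots
    have a2 := (IsAlgClosed.splits u').eq_prod_roots
    rw [← e1] at a2
    rw [a1, eval_mul] at h0
    rw [a1, a2, eval_mul, eval_mul, eval_C, eval_C] at e2
    rw [a1, a2, mul_right_cancel₀ (right_ne_zero_of_mul h0) e2]
  · rw [Finset.card_product]
    have a1 : w.roots.powerset.toFinset.card ≤ 2 ^ 6 := (Multiset.toFinset_card_le _).trans (by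
      rw [Multiset.card_powerset]
      exact Nat.pow_le_pow_right (by norm_num) ((card_roots' _).trans hw))
    have a2 : Q.roots.toFinset.card ≤ 2 :=
      (Multiset.toFinset_card_le _).trans ((card_roots' _).trans dQ.le)
    exact Nat.mul_le_mul a1 a2

theorem p_CUB :
    S_CUB := by
  intro F _ _ f g W h2 hq hf hg hne hW
  choose! c' γ hc using fun c hc => (hW c hc).2
  have hx : ∀ y : F, ∃ x, (f - C y * g).eval x ≠ 0 := fun y => by
    by_contra h
    push Not at h
    refine hne y (sub_eq_zero.1 (eq_zero_of_natDegree_lt_card_of_eval_eq_zero' _ Finset.univ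
      (fun x _ => h x) (lt_of_le_of_lt ?_ hq)))
    exact (natDegree_sub_le_of_le hf ((natDegree_C_mul_le _ _).trans hg)).trans (by simp)
  choose x hx using hx
  let K := AlgebraicClosure F
  let ι := algebraMap F K
  refine (Finset.card_le_mul_card_image_of_maps_to (t := Finset.univ)
    (f := fun c => (γ c, c.eval (x (γ c)))) (by simp) 128 fun ⟨y, v⟩ _ => ?_).trans ?_
  swap
  · simp only [Finset.card_univ, Fintype.card_prod]; nlinarith
  obtain ⟨s, hs⟩ := IsAlgClosed.exists_pow_nat_eq (ι y) two_pos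
  let u : F[X] → K[X] := fun c => c.map ι - C s * (c' c).map ι
  let u' : F[X] → K[X] := fun c => c.map ι + C s * (c' c).map ι
  have k1 : ∀ c ∈ W, γ c = y → u c * u' c = (f - C y * g).map ι := fun c h1 h3 => by
    have : f - C y * g = c ^ 2 - C y * c' c ^ 2 := by
      rw [← h3]; linear_combination (hc c h1).2
    rw [this]
    simp only [u, u', Polynomial.map_sub, Polynomial.map_mul, Polynomial.map_pow, map_C, ← hs,
      C_pow]
    ring
  have k2 : ∀ c, u c + u' c = 2 * c.map ι := fun c => by simp only [u, u']; ring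
  have k0 : ((f - C y * g).map ι).eval (ι (x y)) ≠ 0 := by
    rw [eval_map_apply]; exact (map_ne_zero ι).2 (hx y)
  rw [← Finset.card_image_of_injOn (f := u) fun a ha b hb e => ?_]
  · refine cub_fib _ (ι (x y)) (2 * ι v) k0 (natDegree_map_le.trans
      ((natDegree_sub_le_of_le hf ((natDegree_C_mul_le _ _).trans hg)).trans (by simp))) _
      fun t ht => ?_
    obtain ⟨c, h1, rfl⟩ := Finset.mem_image.1 ht
    obtain ⟨h1, h3⟩ := Finset.mem_filter.1 h1
    obtain ⟨h3, h4⟩ := Prod.mk.inj h3
    refine ⟨⟨_, (k1 c h1 h3).symm⟩, ?_⟩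
    have := congrArg (eval (ι (x y))) (k2 c)
    rw [eval_add, eval_mul, eval_map_apply, ← h3, h4, h3] at this
    rw [← k1 c h1 h3, eval_mul]
    simp only [eval_ofNat] at this
    rw [← this]; ring
  · obtain ⟨a1, a2⟩ := Finset.mem_filter.1 ha
    obtain ⟨b1, b2⟩ := Finset.mem_filter.1 hb
    have a3 := k1 a a1 (Prod.mk.inj a2).1
    have b3 := k1 b b1 (Prod.mk.inj b2).1
    have u0 : u a ≠ 0 := fun h => k0 (by rw [← a3, h]; simp)
    have e' : u' a = u' b := mul_left_cancel₀ u0 (by rw [a3, e, b3])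
    have t0 : (2 : K[X]) ≠ 0 := fun h => h2 ((map_eq_zero ι).1 (by
      have := congrArg (eval 0) h
      simpa [map_ofNat] using this))
    exact map_injective ι ι.injective (mul_left_cancel₀ t0 (by rw [← k2, ← k2, e, e']))

end Pool.Agent.P.MP_9344a7_nt.Tor
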