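import Pool.Agent.P.MP_9344a7_nt.Tor.Iface

/-! Step DA. -/

set_option autoImplicit false
set_option linter.unusedSectionVars false

namespace Pool.Agent.P.MP_9344a7_nt.Tor

open Polynomial WithZero
open Pool.Agent.P.MP_6f117a_ag (Place FF)
open Pool.Agent.P.MP_ab3ecb_nt.Inv (ord Dv dv deg SA LS)
open scoped Classical IntermediateField

section da

variable {k0 L Γ : Type} [Field k0] [Field L] [Algebra k0 L] [LinearOrderedCommGroupWithZero Γ]
  (v : Valuation L Γ) {f : k0[X]}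

/-- The distance of normalised triples. -/
noncomputable def da_D (a b y a' b' y' : L) : Γ :=
  max (v (a * b' - a' * b)) (max (v (y * b' ^ 3 - y' * b ^ 3)) (v (y * a' ^ 3 - y' * a ^ 3)))

variable {v}

lemma da_mul {x c : L} {r : Γ} (hx : v x ≤ r) (hc : v c ≤ 1) : v (x * c) ≤ r := by
  rw [map_mul]
  exact (mul_le_mul' hx hc).trans (mul_one r).le

lemma da_pow {c : L} (hc : v c ≤ 1) (n : ℕ) : v (c ^ n) ≤ 1 := by
  rw [map_pow]
  exact pow_le_one' hc n

lemma da_can {x c : L} {r : Γ} (hc : v c = 1) (n : ℕ) (hx : v (x * c ^ n) ≤ r) : v x ≤ r := by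
  rwa [map_mul, map_pow, hc, one_pow, mul_one] at hx

lemma da_le {a b y a' b' y' : L} (ha : v a ≤ 1) (hb : v b ≤ 1) (hy : v y ≤ 1)
    (ha' : v a' ≤ 1) (hb' : v b' ≤ 1) (hy' : v y' ≤ 1) : da_D v a b y a' b' y' ≤ 1 :=
  max_le (v.map_sub_le (da_mul ha hb') (da_mul ha' hb))
    (max_le (v.map_sub_le (da_mul hy (da_pow hb' 3)) (da_mul hy' (da_pow hb 3)))
      (v.map_sub_le (da_mul hy (da_pow ha' 3)) (da_mul hy' (da_pow ha 3))))

lemma da_tri {a b y a' b' y' a'' b'' y'' : L} (ha : v a ≤ 1) (hb : v b ≤ 1)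
    (h1 : v a' = 1 ∨ v b' = 1) (hy' : v y' ≤ 1) (ha'' : v a'' ≤ 1) (hb'' : v b'' ≤ 1) :
    da_D v a b y a'' b'' y'' ≤ max (da_D v a b y a' b' y') (da_D v a' b' y' a'' b'' y'') := by
  set r := max (da_D v a b y a' b' y') (da_D v a' b' y' a'' b'' y'') with hr
  have p1 : v (a * b' - a' * b) ≤ r := le_max_of_le_left (le_max_left _ _)
  have p2 : v (y * b' ^ 3 - y' * b ^ 3) ≤ r :=
    le_max_of_le_left (le_max_of_le_right (le_max_left _ _))
  have p3 : v (y * a' ^ 3 - y' * a ^ 3) ≤ r :=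
    le_max_of_le_left (le_max_of_le_right (le_max_right _ _))
  have q1 : v (a' * b'' - a'' * b') ≤ r := le_max_of_le_right (le_max_left _ _)
  have q2 : v (y' * b'' ^ 3 - y'' * b' ^ 3) ≤ r :=
    le_max_of_le_right (le_max_of_le_right (le_max_left _ _))
  have q3 : v (y' * a'' ^ 3 - y'' * a' ^ 3) ≤ r :=
    le_max_of_le_right (le_max_of_le_right (le_max_right _ _))
  have hbr : v (a * b'' - a'' * b) ≤ r := by
    rcases h1 with h | h
    · refine da_can h 1 ?_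
      rw [show (a * b'' - a'' * b) * a' ^ 1 =
        (a * b' - a' * b) * a'' + (a' * b'' - a'' * b') * a by ring]
      exact v.map_add_le (da_mul p1 ha'') (da_mul q1 ha)
    · refine da_can h 1 ?_
      rw [show (a * b'' - a'' * b) * b' ^ 1 =
        (a * b' - a' * b) * b'' + (a' * b'' - a'' * b') * b by ring]
      exact v.map_add_le (da_mul p1 hb'') (da_mul q1 hb)
  have hm : v ((a * b'' - a'' * b) *
      (((a * b'') ^ 2 + (a * b'') * (a'' * b) + (a'' * b) ^ 2) * y')) ≤ r :=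
    da_mul hbr (da_mul (v.map_add_le (v.map_add_le (da_pow (da_mul ha hb'') 2)
      (da_mul (da_mul ha hb'') (da_mul ha'' hb))) (da_pow (da_mul ha'' hb) 2)) hy')
  refine max_le hbr (max_le ?_ ?_)
  · rcases h1 with h | h
    · refine da_can h 3 ?_
      rw [show (y * b'' ^ 3 - y'' * b ^ 3) * a' ^ 3 =
        (y * a' ^ 3 - y' * a ^ 3) * b'' ^ 3 + (y' * a'' ^ 3 - y'' * a' ^ 3) * b ^ 3 +
        (a * b'' - a'' * b) *
          (((a * b'') ^ 2 + (a * b'') * (a'' * b) + (a'' * b) ^ 2) * y') by ring]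
      exact v.map_add_le (v.map_add_le (da_mul p3 (da_pow hb'' 3)) (da_mul q3 (da_pow hb 3))) hm
    · refine da_can h 3 ?_
      rw [show (y * b'' ^ 3 - y'' * b ^ 3) * b' ^ 3 =
        (y * b' ^ 3 - y' * b ^ 3) * b'' ^ 3 + (y' * b'' ^ 3 - y'' * b' ^ 3) * b ^ 3 by ring]
      exact v.map_add_le (da_mul p2 (da_pow hb'' 3)) (da_mul q2 (da_pow hb 3))
  · rcases h1 with h | h
    · refine da_can h 3 ?_
      rw [show (y * a'' ^ 3 - y'' * a ^ 3) * a' ^ 3 =
        (y * a' ^ 3 - y' * a ^ 3) * a'' ^ 3 + (y' * a'' ^ 3 - y'' * a' ^ 3) * a ^ 3 by ring]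
      exact v.map_add_le (da_mul p3 (da_pow ha'' 3)) (da_mul q3 (da_pow ha 3))
    · refine da_can h 3 ?_
      rw [show (y * a'' ^ 3 - y'' * a ^ 3) * b' ^ 3 =
        (y * b' ^ 3 - y' * b ^ 3) * a'' ^ 3 + (y' * b'' ^ 3 - y'' * b' ^ 3) * a ^ 3 -
        (a * b'' - a'' * b) *
          (((a * b'') ^ 2 + (a * b'') * (a'' * b) + (a'' * b) ^ 2) * y') by ring]
      exact v.map_sub_le (v.map_add_le (da_mul p2 (da_pow ha'' 3)) (da_mul q2 (da_pow ha 3))) hm

lemma da_nm (P : Pt f L) : nm v P ≠ 0 := by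
  have h1 : (1 : Γ) ≤ nm v P := by
    rcases P.nf with h | ⟨_, h⟩
    · exact le_max_of_le_right (by rw [h, map_one])
    · exact le_max_of_le_left (by rw [h, map_one])
  exact (zero_lt_one.trans_le h1).ne'

lemma da_y (h : VS v f) (P : Pt f L) : v P.y ≤ nm v P ^ 3 := by
  have h2 : v P.y ^ 2 ≤ (nm v P ^ 3) ^ 2 := by
    rw [← map_pow, P.eq, hev, ← pow_mul]
    refine v.map_sum_le fun i hi => ?_
    have hi' : i ≤ 6 := Nat.lt_succ_iff.1 (Finset.mem_range.1 hi)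
    rw [map_mul, map_mul, map_pow, map_pow, coeff_map]
    calc v (algebraMap k0 L (f.coeff i)) * v P.a ^ i * v P.b ^ (6 - i)
        ≤ 1 * nm v P ^ i * nm v P ^ (6 - i) :=
          mul_le_mul' (mul_le_mul' (h.triv _) (pow_le_pow_left' (le_max_left _ _) _))
            (pow_le_pow_left' (le_max_right _ _) _)
      _ = nm v P ^ (3 * 2) := by rw [one_mul, ← pow_add, Nat.add_sub_cancel' hi']
  exact le_of_pow_le_pow_left₀ two_ne_zero zero_le h2

lemma da_maxdiv (x y z : Γ) : max x y / z = max (x / z) (y / z) := by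
  have hm : Monotone fun t : Γ => t / z := fun _ _ hh => by
    simp only [div_eq_mul_inv]
    exact mul_le_mul' hh le_rfl
  exact hm.map_max

lemma da_eq (P Q : Pt f L) {t s : L} (ht : v t = nm v P) (hs : v s = nm v Q) :
    dd v P Q = da_D v (P.a / t) (P.b / t) (P.y / t ^ 3) (Q.a / s) (Q.b / s) (Q.y / s ^ 3) := by
  have t0 : t ≠ 0 := fun e => da_nm P (by rw [← ht, e, map_zero])
  have s0 : s ≠ 0 := fun e => da_nm Q (by rw [← hs, e, map_zero])
  have e1 : P.a / t * (Q.b / s) - Q.a / s * (P.b / t) = br P Q / (t * s) := by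
    rw [br]; field_simp
  have e2 : P.y / t ^ 3 * (Q.b / s) ^ 3 - Q.y / s ^ 3 * (P.b / t) ^ 3 =
      (P.y * Q.b ^ 3 - Q.y * P.b ^ 3) / (t * s) ^ 3 := by field_simp
  have e3 : P.y / t ^ 3 * (Q.a / s) ^ 3 - Q.y / s ^ 3 * (P.a / t) ^ 3 =
      (P.y * Q.a ^ 3 - Q.y * P.a ^ 3) / (t * s) ^ 3 := by field_simp
  rw [da_D, e1, e2, e3, dd, da_maxdiv]
  simp only [map_div₀, map_pow, map_mul, ht, hs]

lemma da_norm (h : VS v f) (P : Pt f L) : ∃ t : L, v t = nm v P ∧ v (P.a / t) ≤ 1 ∧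
    v (P.b / t) ≤ 1 ∧ v (P.y / t ^ 3) ≤ 1 ∧ (v (P.a / t) = 1 ∨ v (P.b / t) = 1) := by
  have h0 : 0 < nm v P := zero_lt_iff.2 (da_nm P)
  have key : ∀ t : L, v t = nm v P →
      v (P.a / t) ≤ 1 ∧ v (P.b / t) ≤ 1 ∧ v (P.y / t ^ 3) ≤ 1 := fun t ht => by
    simp only [map_div₀, map_pow, ht]
    exact ⟨(div_le_one₀ h0).2 (le_max_left _ _), (div_le_one₀ h0).2 (le_max_right _ _),
      (div_le_one₀ (pow_pos h0 3)).2 (da_y h P)⟩
  rcases max_choice (v P.a) (v P.b) with e | e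
  · have e' : v P.a = nm v P := e.symm
    obtain ⟨k1, k2, k3⟩ := key _ e'
    exact ⟨P.a, e', k1, k2, k3, .inl (by rw [map_div₀, e', div_self h0.ne'])⟩
  · have e' : v P.b = nm v P := e.symm
    obtain ⟨k1, k2, k3⟩ := key _ e'
    exact ⟨P.b, e', k1, k2, k3, .inr (by rw [map_div₀, e', div_self h0.ne'])⟩

lemma da_two (h : VS v f) : v (2 : L) = 1 := by
  have h1 := h.triv 2
  have h2 := h.triv (2 : k0)⁻¹
  rw [map_inv₀, map_inv₀] at h2
  rw [map_ofNat] at h1 h2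
  have h0 : v (2 : L) ≠ 0 := by
    rw [← map_ofNat (algebraMap k0 L) 2]
    exact (v.ne_zero_iff).2 ((_root_.map_ne_zero _).2 h.gd.two)
  exact le_antisymm h1 ((inv_le_one₀ (zero_lt_iff.2 h0)).1 h2)

lemma da_zero (P Q : Pt f L) : dd v P Q = 0 ↔ P = Q := by
  constructor
  · intro e
    have n0 : nm v P * nm v Q ≠ 0 := mul_ne_zero (da_nm P) (da_nm Q)
    rw [dd, da_maxdiv, ← le_zero_iff, max_le_iff, max_le_iff] at e
    simp only [le_zero_iff, div_eq_zero_iff, n0, pow_ne_zero 3 n0, or_false, map_eq_zero,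
      br, sub_eq_zero] at e
    obtain ⟨e1, e2, e3⟩ := e
    rcases P.nf with h | ⟨h, h'⟩ <;> rcases Q.nf with g | ⟨g, g'⟩
    · refine Pt.ext ?_ (h.trans g.symm) ?_
      · simpa [h, g] using e1
      · simpa [h, g] using e2
    · simp [h, g, g'] at e1
    · simp [h, g, h'] at e1
    · refine Pt.ext (h'.trans g'.symm) (h.trans g.symm) ?_
      simpa [h', g'] using e3
  · rintro rfl
    simp [dd, br]

end da

theorem p_DA :
    S_DA := by
  intro k0 L Γ _ _ _ _ v f h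
  refine ⟨da_nm, da_y h, fun P Q => ?_, fun P Q => ?_, da_zero, fun P Q => ?_, fun P Q R => ?_,
    fun P => ?_⟩
  · obtain ⟨t, ht, a1, a2, a3, -⟩ := da_norm h P
    obtain ⟨s, hs, b1, b2, b3, -⟩ := da_norm h Q
    rw [da_eq P Q ht hs]
    exact da_le a1 a2 a3 b1 b2 b3
  · rw [dd, dd, br, br, mul_comm (nm v P), v.map_sub_swap (P.a * Q.b),
      v.map_sub_swap (P.y * Q.b ^ 3), v.map_sub_swap (P.y * Q.a ^ 3)]
  · have e1 : ∀ x y z w : L, -x * y - -z * w = -(x * y - z * w) := fun _ _ _ _ => by ring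
    simp only [dd, br, nm, Pt.io_a, Pt.io_b, Pt.io_y, e1, Valuation.map_neg]
  · obtain ⟨t, ht, a1, a2, -, -⟩ := da_norm h P
    obtain ⟨s, hs, -, -, b3, b4⟩ := da_norm h Q
    obtain ⟨u, hu, c1, c2, -, -⟩ := da_norm h R
    rw [da_eq P Q ht hs, da_eq Q R hs hu, da_eq P R ht hu]
    exact da_tri a1 a2 b4 b3 c1 c2
  · have e1 : ∀ x y : L, x * y - -x * y = 2 * (x * y) := fun _ _ => by ring
    have n0 := da_nm (v := v) P
    have e2 : nm v P.io = nm v P := rfl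
    have e3 : max (v P.y * v P.b ^ 3) (v P.y * v P.a ^ 3) = v P.y * nm v P ^ 3 := by
      have hm : Monotone fun t : Γ => v P.y * t ^ 3 := fun _ _ hh =>
        mul_le_mul' le_rfl (pow_le_pow_left' hh 3)
      rw [nm, max_comm (v P.a)]
      exact hm.map_max.symm
    simp only [dd, br, e2, Pt.io_a, Pt.io_b, Pt.io_y, e1, sub_self, map_zero, zero_div, map_mul,
      map_pow, da_two h, one_mul, e3, zero_le, max_eq_right]
    rw [mul_pow, mul_div_mul_right _ _ (pow_ne_zero 3 n0)]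

end Pool.Agent.P.MP_9344a7_nt.Tor
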