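import Pool.Agent.P.MP_9344a7_nt.Tor.TDA

/-! Step DD. -/

set_option autoImplicit false
set_option linter.unusedSectionVars false

namespace Pool.Agent.P.MP_9344a7_nt.Tor

open Polynomial WithZero
open Pool.Agent.P.MP_6f117a_ag (Place FF)
open Pool.Agent.P.MP_ab3ecb_nt.Inv (ord Dv dv deg SA LS)
open scoped Classical IntermediateField

section ddd

variable {k0 L Γ : Type} [Field k0] [Field L] [Algebra k0 L] [LinearOrderedCommGroupWithZero Γ]
  {v : Valuation L Γ} {f : k0[X]}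

lemma dd_unit {k : Type} [Field k] (φ : k →+* L) (hφ : ∀ c, v (φ c) ≤ 1) {c : k} (hc : c ≠ 0) :
    v (φ c) = 1 := by
  have h2 := hφ c⁻¹
  rw [map_inv₀, map_inv₀] at h2
  have h0 : v (φ c) ≠ 0 := (v.ne_zero_iff).2 ((_root_.map_ne_zero _).2 hc)
  exact le_antisymm (hφ c) ((inv_le_one₀ (zero_lt_iff.2 h0)).1 h2)

lemma dd_red {a b y a' b' y' : L} (ha : v a ≤ 1) (hb : v b ≤ 1) (ha' : v a' ≤ 1)
    (hb' : v b' = 1) (hy' : v y' ≤ 1) :
    da_D v a b y a' b' y' = max (v (a * b' - a' * b)) (v (y * b' ^ 3 - y' * b ^ 3)) := by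
  refine le_antisymm (max_le (le_max_left _ _) (max_le (le_max_right _ _) ?_))
    (max_le_max le_rfl (le_max_left _ _))
  refine da_can hb' 3 ?_
  rw [show (y * a' ^ 3 - y' * a ^ 3) * b' ^ 3 = (y * b' ^ 3 - y' * b ^ 3) * a' ^ 3 -
    (a * b' - a' * b) * (((a * b') ^ 2 + (a * b') * (a' * b) + (a' * b) ^ 2) * y') by ring]
  exact v.map_sub_le (da_mul (le_max_right _ _) (da_pow ha' 3)) (da_mul (le_max_left _ _)
    (da_mul (v.map_add_le (v.map_add_le (da_pow (da_mul ha hb'.le) 2)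
      (da_mul (da_mul ha hb'.le) (da_mul ha' hb))) (da_pow (da_mul ha' hb) 2)) hy'))

lemma dd_swap (a b y a' b' y' : L) : da_D v a b y a' b' y' = da_D v b a y b' a' y' := by
  rw [da_D, da_D, max_comm (v (y * b' ^ 3 - y' * b ^ 3)), v.map_sub_swap (a * b'), mul_comm a' b,
    mul_comm a b']

lemma dd_core1 {p q : L} {r : Γ} (h2 : v (2 : L) = 1) (hp : v p = 1) (hq : v q ≤ 1) (hr : r ≤ 1)
    (h : v (p ^ 2 - q ^ 2) ≤ r) : max r (v (p - q)) * max r (v (p + q)) = r := by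
  have h1 : v (p - q) ≤ 1 := v.map_sub_le hp.le hq
  have h3 : v (p + q) ≤ 1 := v.map_add_le hp.le hq
  rw [show p ^ 2 - q ^ 2 = (p - q) * (p + q) by ring, map_mul] at h
  have h4 : 1 ≤ max (v (p - q)) (v (p + q)) := by
    have := v.map_add (p - q) (p + q)
    rwa [show p - q + (p + q) = 2 * p by ring, map_mul, h2, hp, one_mul] at this
  rcases le_max_iff.1 h4 with e | e
  · have e' := le_antisymm h1 e
    rw [e', one_mul] at h
    rw [e', max_eq_right hr, one_mul, max_eq_left h]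
  · have e' := le_antisymm h3 e
    rw [e', mul_one] at h
    rw [e', max_eq_right hr, mul_one, max_eq_left h]

lemma dd_core2 {p q : L} {r : Γ} (hp : v p ≤ 1) (hq : v q ≤ 1)
    (h : v (p ^ 2 - q ^ 2) = r) : max r (v (p - q)) * max r (v (p + q)) = r := by
  have h1 : v (p - q) ≤ 1 := v.map_sub_le hp hq
  have h3 : v (p + q) ≤ 1 := v.map_add_le hp hq
  rw [show p ^ 2 - q ^ 2 = (p - q) * (p + q) by ring, map_mul] at h
  have e1 : r ≤ v (p - q) := h ▸ mul_le_of_le_one_right' h3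
  have e2 : r ≤ v (p + q) := h ▸ mul_le_of_le_one_left' h1
  rw [max_eq_right e1, max_eq_right e2, h]

lemma dd_br1 {a b y a' b' y' : L} (h2 : v (2 : L) = 1) (ha : v a ≤ 1) (hb : v b ≤ 1)
    (hy : v y = 1) (ha' : v a' ≤ 1) (hb' : v b' = 1) (hy' : v y' ≤ 1)
    (h : v ((y * b' ^ 3) ^ 2 - (y' * b ^ 3) ^ 2) ≤ v (a * b' - a' * b)) :
    da_D v a b y a' b' y' * da_D v a b y a' b' (-y') = v (a * b' - a' * b) := by
  rw [dd_red ha hb ha' hb' hy', dd_red ha hb ha' hb' (by rwa [Valuation.map_neg]), neg_mul,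
    sub_neg_eq_add]
  exact dd_core1 h2 (by rw [map_mul, map_pow, hy, hb', one_pow, mul_one])
    (da_mul hy' (da_pow hb 3)) (v.map_sub_le (da_mul ha hb'.le) (da_mul ha' hb)) h

lemma dd_powsub {x z : L} {r : Γ} (hx : v x ≤ 1) (hz : v z ≤ 1) (h : v (x - z) ≤ r) (n : ℕ) :
    v (x ^ n - z ^ n) ≤ r := by
  induction n with
  | zero => simp
  | succ n ih =>
    rw [show x ^ (n + 1) - z ^ (n + 1) = (x ^ n - z ^ n) * x + (x - z) * z ^ n by ring]
    exact v.map_add_le (da_mul ih hx) (da_mul h (da_pow hz n))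

lemma dd_hev (h : VS v f) {a b a' b' : L} {r : Γ} (ha : v a ≤ 1) (hb : v b ≤ 1) (ha' : v a' ≤ 1)
    (hb' : v b' ≤ 1) (h1 : v (a - a') ≤ r) (h2 : v (b - b') ≤ r) :
    v (hev 6 (f.map (algebraMap k0 L)) a b - hev 6 (f.map (algebraMap k0 L)) a' b') ≤ r := by
  rw [hev, hev, ← Finset.sum_sub_distrib]
  refine v.map_sum_le fun i _ => ?_
  rw [coeff_map, show algebraMap k0 L (f.coeff i) * a ^ i * b ^ (6 - i) -
    algebraMap k0 L (f.coeff i) * a' ^ i * b' ^ (6 - i) =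
    ((a ^ i - a' ^ i) * b ^ (6 - i) + (b ^ (6 - i) - b' ^ (6 - i)) * a' ^ i) *
      algebraMap k0 L (f.coeff i) by ring]
  exact da_mul (v.map_add_le (da_mul (dd_powsub ha ha' h1 _) (da_pow hb _))
    (da_mul (dd_powsub hb hb' h2 _) (da_pow ha' _))) (h.triv _)

lemma dd_nm1 {P : Pt f L} (hb : P.b = 1) (ha : v P.a ≤ 1) : nm v P = 1 := by
  rw [nm, hb, map_one, max_eq_right ha]

lemma dd_aff (h : VS v f) (P Q : Pt f L) (hP : P.b = 1) (hQ : Q.b = 1) (ha : v P.a ≤ 1)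
    (ha' : v Q.a ≤ 1) : dd v P Q = max (v (P.a - Q.a)) (v (P.y - Q.y)) := by
  have hy := da_y h Q
  rw [dd_nm1 hQ ha', one_pow] at hy
  rw [da_eq P Q (t := 1) (s := 1) (by rw [dd_nm1 hP ha, map_one]) (by rw [dd_nm1 hQ ha', map_one])]
  simp only [one_pow, div_one, hP, hQ]
  rw [dd_red ha (map_one v).le ha' (map_one v) hy]
  simp only [one_pow, mul_one]

lemma dd_near (P Q : Pt f L) (hQ : Q.b = 1) (ha' : v Q.a ≤ 1) (h : v (br P Q) < nm v P) :
    P.b = 1 ∧ v P.a ≤ 1 := by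
  rw [br, nm, hQ, mul_one] at h
  rcases P.nf with e | ⟨e, e'⟩
  · refine ⟨e, not_lt.1 fun h1 => ?_⟩
    rw [e, mul_one, map_one, max_eq_left h1.le, v.map_sub_eq_of_lt_left (ha'.trans_lt h1)] at h
    exact h.false
  · simp [e, e'] at h

lemma dd_brle (P Q : Pt f L) : v (br P Q) / (nm v P * nm v Q) ≤ dd v P Q := le_max_left _ _

lemma dd_aeval (h : VS v f) {a : L} (ha : v a ≤ 1) (p : k0[X]) : v (aeval a p) ≤ 1 := by
  rw [aeval_eq_sum_range]
  refine v.map_sum_le fun i _ => ?_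
  rw [Algebra.smul_def]
  exact da_mul (h.triv _) (da_pow ha _)

lemma dd_top (h : VS v f) {a b : L} (hab : v b < v a) :
    v (hev 6 (f.map (algebraMap k0 L)) a b) = v a ^ 6 := by
  have h0 : 0 < v a := zero_le.trans_lt hab
  have hc : v (algebraMap k0 L (f.coeff 6)) = 1 := by
    refine dd_unit _ h.triv ?_
    rw [← h.gd.deg]
    exact leadingCoeff_ne_zero.2 h.gd.sep.ne_zero
  have e : v ((f.map (algebraMap k0 L)).coeff 6 * a ^ 6 * b ^ (6 - 6)) = v a ^ 6 := by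
    rw [coeff_map, Nat.sub_self, pow_zero, mul_one, map_mul, hc, one_mul, map_pow]
  rw [hev, Finset.sum_range_succ, v.map_add_eq_of_lt_right, e]
  rw [e]
  refine v.map_sum_lt (pow_pos h0 6).ne' fun i hi => ?_
  have hi' : i < 6 := Finset.mem_range.1 hi
  rw [map_mul, map_mul, map_pow, map_pow, coeff_map]
  calc v (algebraMap k0 L (f.coeff i)) * v a ^ i * v b ^ (6 - i)
      ≤ 1 * v a ^ i * v b ^ (6 - i) := mul_le_mul' (mul_le_mul' (h.triv _) le_rfl) le_rfl
    _ < v a ^ i * v a ^ (6 - i) := by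
      rw [one_mul]
      exact mul_lt_mul_of_pos_left (pow_lt_pow_left₀ hab zero_le (by omega)) (pow_pos h0 i)
    _ = v a ^ 6 := by rw [← pow_add, Nat.add_sub_cancel' hi'.le]

lemma dd_small (h : VS v f) (P : Pt f L) (hy : v P.y < nm v P ^ 3) :
    P.b = 1 ∧ v P.a ≤ 1 ∧ v (aeval P.a (derivative f)) = 1 := by
  have h1 : v P.a ≤ v P.b := by
    refine not_lt.1 fun hab => ?_
    have e := dd_top h hab
    rw [← P.eq, map_pow] at e
    rw [nm, max_eq_left hab.le] at hy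
    have := pow_lt_pow_left₀ hy zero_le two_ne_zero
    rw [e, ← pow_mul] at this
    exact this.false
  have hb : P.b = 1 := by
    rcases P.nf with e | ⟨e, e'⟩
    · exact e
    · simp [e, e'] at h1
  rw [hb, map_one] at h1
  refine ⟨hb, h1, ?_⟩
  rw [dd_nm1 hb h1, one_pow] at hy
  obtain ⟨A, B, e⟩ := h.gd.sep
  have e1 := congrArg (aeval P.a) e
  rw [map_add, map_mul, map_mul, map_one, ← Pt.eq_aff h.gd.deg.le hb] at e1
  have e2 : v (aeval P.a A * P.y ^ 2) < 1 := by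
    rw [show aeval P.a A * P.y ^ 2 = P.y * (P.y * aeval P.a A) by ring]
    exact (da_mul le_rfl (da_mul hy.le (dd_aeval h h1 A))).trans_lt hy
  have e3 := v.map_one_sub_of_lt e2
  rw [← eq_sub_of_add_eq' e1] at e3
  exact le_antisymm (dd_aeval h h1 _) (e3 ▸ (mul_comm (aeval P.a B) _) ▸
    da_mul le_rfl (dd_aeval h h1 B))

lemma dd_taylor (h : VS v f) {a d : L} (ha : v a ≤ 1) (hd : v d ≤ 1) (p : k0[X]) :
    ∃ k, v k ≤ 1 ∧ aeval (a + d) p = aeval a p + aeval a (derivative p) * d + k * d ^ 2 := by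
  let ψ : k0 →+* v.integer := (algebraMap k0 L).codRestrict v.integer h.triv
  obtain ⟨k, hk⟩ := (p.map ψ).binomExpansion ⟨a, ha⟩ ⟨d, hd⟩
  have e : ∀ (q : k0[X]) (x : v.integer),
      v.integer.subtype ((q.map ψ).eval x) = aeval (x : L) q := by
    intro q x
    rw [eval_map, hom_eval₂, aeval_def]
    rfl
  refine ⟨k, k.2, ?_⟩
  have := congrArg v.integer.subtype hk
  rw [map_add, map_add, map_mul, map_mul, map_pow, derivative_map, e, e, e] at this
  exact this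

lemma dd_br (h : VS v f) (P Q : Pt f L) (hle : ∀ P Q : Pt f L, dd v P Q ≤ 1) :
    v (br P Q) = dd v P Q * dd v P Q.io * (nm v P * nm v Q) := by
  have n0 : 0 < nm v P * nm v Q := zero_lt_iff.2 (mul_ne_zero (da_nm P) (da_nm Q))
  rcases (da_y h P).eq_or_lt with hy | hy
  · obtain ⟨t, ht, a1, a2, -, -⟩ := da_norm h P
    obtain ⟨s, hs, b1, b2, b3, b4⟩ := da_norm h Q
    have t0 : t ≠ 0 := fun e => da_nm P (by rw [← ht, e, map_zero])
    have s0 : s ≠ 0 := fun e => da_nm Q (by rw [← hs, e, map_zero])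
    have a3 : v (P.y / t ^ 3) = 1 := by
      rw [map_div₀, map_pow, ht, hy, div_self (pow_ne_zero 3 (da_nm P))]
    have e1 : P.a / t * (Q.b / s) - Q.a / s * (P.b / t) = br P Q / (t * s) := by
      rw [br]; field_simp
    have key : ∀ (R : Pt f L) (u c : L), u ≠ 0 → (R.y / u ^ 3 * c ^ 3) ^ 2 =
        hev 6 (f.map (algebraMap k0 L)) (R.a / u * c) (R.b / u * c) := by
      intro R u c hu
      rw [show R.a / u * c = c / u * R.a by ring, show R.b / u * c = c / u * R.b by ring,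
        hev_smul, ← R.eq]
      field_simp
    rw [da_eq P Q ht hs, da_eq P Q.io ht hs, Pt.io_a, Pt.io_b, Pt.io_y, neg_div,
      ← div_eq_iff n0.ne', ← ht, ← hs, ← map_mul, ← map_div₀, ← e1]
    rcases b4 with b4 | b4
    · rw [dd_swap, dd_swap (P.a / t), v.map_sub_swap, mul_comm (Q.a / s), mul_comm (P.a / t)]
      refine (dd_br1 (da_two h) a2 a1 a3 b2 b4 b3 ?_).symm
      rw [key P t _ t0, key Q s _ s0]
      exact dd_hev h (da_mul a1 b1) (da_mul a2 b1) (da_mul b1 a1) (da_mul b2 a1)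
        (by rw [mul_comm, sub_self, map_zero]; exact zero_le) le_rfl
    · refine (dd_br1 (da_two h) a1 a2 a3 b1 b4 b3 ?_).symm
      rw [key P t _ t0, key Q s _ s0]
      exact dd_hev h (da_mul a1 b2) (da_mul a2 b2) (da_mul b1 a2) (da_mul b2 a2) le_rfl
        (by rw [mul_comm, sub_self, map_zero]; exact zero_le)
  · obtain ⟨hb, ha, hd⟩ := dd_small h P hy
    rcases lt_or_ge (v (br P Q)) (nm v P * nm v Q) with hlt | hge
    · have hlt' := hlt
      rw [dd_nm1 hb ha, one_mul, br, v.map_sub_swap] at hlt'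
      obtain ⟨hb', ha'⟩ := dd_near Q P hb ha hlt'
      have y1 := da_y h P
      have y2 := da_y h Q
      rw [dd_nm1 hb ha, dd_nm1 hb' ha', mul_one, br, hb, hb', mul_one, mul_one] at hlt
      rw [dd_nm1 hb ha, one_pow] at y1
      rw [dd_nm1 hb' ha', one_pow] at y2
      rw [dd_aff h P Q hb hb' ha ha', dd_aff h P Q.io hb hb' ha ha', dd_nm1 hb ha, dd_nm1 hb' ha',
        mul_one, mul_one, br, hb, hb', mul_one, mul_one, Pt.io_a, Pt.io_y, sub_neg_eq_add]
      refine (dd_core2 y1 y2 ?_).symm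
      obtain ⟨k, hk, e⟩ := dd_taylor h ha (v.map_sub_le ha' ha) f
      rw [add_sub_cancel, ← Pt.eq_aff h.gd.deg.le hb, ← Pt.eq_aff h.gd.deg.le hb'] at e
      have e4 : v (aeval P.a (derivative f) - (P.a - Q.a) * k) = 1 := by
        rw [v.map_sub_eq_of_lt_left, hd]
        rw [hd]
        exact (da_mul le_rfl hk).trans_lt hlt
      rw [e, show P.y ^ 2 - (P.y ^ 2 + aeval P.a (derivative f) * (Q.a - P.a) +
        k * (Q.a - P.a) ^ 2) = (P.a - Q.a) * (aeval P.a (derivative f) - (P.a - Q.a) * k) by ring,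
        map_mul, e4, mul_one]
    · have e1 : 1 ≤ v (br P Q) / (nm v P * nm v Q) := (one_le_div₀ n0).2 hge
      have e2 : dd v P Q = 1 := le_antisymm (hle _ _) (e1.trans (dd_brle P Q))
      have e3 : dd v P Q.io = 1 := le_antisymm (hle _ _) (e1.trans (dd_brle P Q.io))
      rw [e2, e3, one_mul, one_mul]
      exact le_antisymm ((div_le_one₀ n0).1 ((dd_brle P Q).trans e2.le)) hge

lemma dd_cst {k : Type} [Field k] [Algebra k0 k] (φ : k →ₐ[k0] L) (hφ : ∀ c, v (φ c) ≤ 1)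
    (P Q : Pt f k) (hne : P ≠ Q) : dd v (P.map φ) (Q.map φ) = 1 := by
  have z : ∀ c, v (φ c) = 0 ∨ v (φ c) = 1 := fun c => by
    by_cases hc : c = 0
    · exact .inl (by rw [hc, map_zero, map_zero])
    · exact .inr (dd_unit (φ : k →+* L) hφ hc)
  have m : ∀ x y : Γ, x = 0 ∨ x = 1 → y = 0 ∨ y = 1 → max x y = 0 ∨ max x y = 1 := by
    intro x y hx hy
    rcases max_choice x y with e | e <;> rw [e] <;> assumption
  have n1 : ∀ R : Pt f k, nm v (R.map φ) = 1 := fun R =>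
    (m _ _ (z R.a) (z R.b)).resolve_left (da_nm (R.map φ))
  refine Or.resolve_left ?_ fun e => hne (Pt.map_inj φ ((da_zero (v := v) _ _).1 e))
  rw [dd, n1, n1, br]
  simp only [mul_one, one_pow, div_one, Pt.map_a, Pt.map_b, Pt.map_y, ← map_pow, ← map_mul,
    ← map_sub]
  exact m _ _ (z _) (m _ _ (z _) (z _))

end ddd

theorem p_DD (hDA : S_DA) :
    S_DD := by
  intro k0 L Γ _ _ _ _ v f h
  have hA := hDA k0 L Γ v f h
  refine ⟨hA, dd_aff h, fun P Q hb ha hlt => dd_near P Q hb ha ?_, dd_small h,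
    fun k _ _ φ hφ P Q => dd_cst φ hφ P Q, fun P Q => dd_br h P Q hA.le⟩
  have e := (dd_brle P Q).trans_lt hlt
  rw [dd_nm1 hb ha, mul_one] at e
  exact (div_lt_one₀ (zero_lt_iff.2 (da_nm P))).1 e

end Pool.Agent.P.MP_9344a7_nt.Tor
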