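import Pool.Agent.P.MP_9344a7_nt.Tor.Iface

/-! Step DE. -/

set_option autoImplicit false
set_option linter.unusedSectionVars false

namespace Pool.Agent.P.MP_9344a7_nt.Tor

open Polynomial WithZero
open Pool.Agent.P.MP_6f117a_ag (Place FF)
open Pool.Agent.P.MP_ab3ecb_nt.Inv (ord Dv dv deg SA LS)
open scoped Classical IntermediateField

section

variable {k0 k : Type} [Field k0] [Field k] [Algebra k0 k] {f : k0[X]}

lemma de_cst [IsAlgClosed k] (hC : FC f k) (p1 p2 p3 : Pen f k) : Nonempty (CstD p1 p2 p3) := by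
  obtain ⟨A0, A1, A2, hA⟩ := hC.full inferInstance p1 0 1 (.inr one_ne_zero)
  obtain ⟨B0, B1, B2, hB⟩ := hC.full inferInstance p3 0 1 (.inr one_ne_zero)
  have hT := hC.thru IsAlgClosed.exists_eq_mul_self
  choose a0 a1 ha using fun i => hT p2 (![A0, A1, A2] i).io
  choose b0 b1 hb using fun i => hT p3 (![A0, A1, A2] i)
  choose c0 c1 hc using fun i => hT p2 (![B0, B1, B2] i).io
  exact ⟨⟨![A0, A1, A2], ![B0, B1, B2], fun i => ![a0 i, a1 i], fun i => ![b0 i, b1 i],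
    fun i => ![c0 i, c1 i], hA, hB, ha, hb, hc⟩⟩

/-- The divisor of a family of points. -/
noncomputable def deS {ι : Type} [Fintype ι] (t : ι → Pt f k) : Pt f k →₀ ℤ :=
  ∑ i, Finsupp.single (t i) 1

lemma deS_apply {ι : Type} [Fintype ι] (t : ι → Pt f k) (Z0 : Pt f k) :
    deS t Z0 = cnt t Z0 := by
  simp [deS, cnt, Finsupp.finsetSum_apply, Finsupp.single_apply]

lemma de_sum {G : Type} [AddCommGroup G] (c : Pt f k → G) (D : Pt f k →₀ ℤ) :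
    (D.sum fun P n => n • c P) = Finsupp.liftAddHom (fun P => zmultiplesHom G (c P)) D := rfl

lemma de_lift {G ι : Type} [AddCommGroup G] [Fintype ι] (c : Pt f k → G) (t : ι → Pt f k) :
    Finsupp.liftAddHom (fun P => zmultiplesHom G (c P)) (deS t) = ∑ i, c (t i) := by
  simp [deS]

lemma de_dom {G E : Type} [AddCommGroup G] [Field E] [Algebra k E] (pl : Pt f k ≃ Place k E)
    (c : Pt f k → G) (ρ : Dv k E →+ G) (h : ∀ P, c P = ρ (Finsupp.single (pl P) 1)) (W : Dv k E) :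
    Finsupp.liftAddHom (fun P => zmultiplesHom G (c P)) (Finsupp.domCongr pl.symm W) = ρ W := by
  induction W using Finsupp.induction_linear with
  | zero => simp
  | add a b ha hb => rw [map_add, map_add, map_add, ha, hb]
  | single P n => simp [h, ← map_zsmul]

lemma de_pow {Γ : Type} [LinearOrderedCommGroupWithZero Γ] (θ : ℤᵐ⁰ →*₀ Γ) (n : ℕ) :
    θ (exp (-1)) ^ n = θ (exp (-(n : ℤ))) := by
  rw [← map_pow, ← exp_nsmul]
  simp

end

theorem p_DE (hFC : S_FC) (hEXT : S_EXT) (hDDM : S_DDM) (hGD : S_GD) (hDF : S_DF) (hDL : S_DL) (hDU : S_DU) :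
    S_DE := by
  intro k0 k E _ _ _ _ _ _ _ _ _ f x y h pl hpl I hI p1 p2 p3 κ U1 U2 hin hnd hJ hcl
  obtain ⟨M, _, _, _, _, g, G, H, hG, hH⟩ := hGD k0 k E f x y h p1 p2 p3
  obtain ⟨e⟩ := de_cst (hFC k0 k f h.gd) p1 p2 p3
  have hA : ∀ Z0, ∃ (Γ : Type) (_ : LinearOrderedCommGroupWithZero Γ) (v : Valuation M Γ)
      (θ : ℤᵐ⁰ →*₀ Γ), StrictMono θ ∧ (∀ z, v (algebraMap E M z) = θ ((pl Z0).v z)) ∧
      Abv v ((IsScalarTower.toAlgHom k0 E M).comp (IsScalarTower.toAlgHom k0 k E))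
        (h.Z.map (IsScalarTower.toAlgHom k0 E M)) Z0 (θ (exp (-1))) := fun Z0 => by
    obtain ⟨Γ, _, v, θ, h1, h2⟩ := hEXT k E M (pl Z0)
    refine ⟨Γ, inferInstance, v, θ, h1, h2, h.gd, fun c => (h2 _).trans_le ?_, ?_, ?_, fun P => ?_⟩
    · exact (h1.monotone ((pl Z0).triv c)).trans_eq (map_one θ)
    · exact (map_ne_zero θ).2 exp_ne_zero
    · exact (h1 (exp_lt_exp.2 (show (-1 : ℤ) < 0 by decide))).trans_eq (map_one θ)
    · rw [← Pt.map_map, hDDM k0 E M _ Γ (pl Z0).v v θ _ f h1.monotone h2, hpl, apply_ite θ, map_one]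
  obtain ⟨hG0, hH0⟩ : G ≠ 0 ∧ H ≠ 0 := by
    obtain ⟨Γ, _, v, θ, -, -, h3⟩ := hA κ.Z
    have := (hDU _ _ _ _ v f _ p1 p2 p3 _ _ g κ h3 hin hnd).2 hJ U1 U2 hcl
    exact ⟨fun e => this.2.1 (by rw [← hG, e, map_zero]),
      fun e => this.2.2 (by rw [← hH, e, map_zero])⟩
  obtain ⟨D, hD⟩ : ∃ D : Pt f k →₀ ℤ, D = Finsupp.domCongr pl.symm (dv k G - dv k H) +
    2 • (deS (Function.uncurry e.t21) + deS (Function.uncurry e.t31)) -
      (deS (Function.uncurry e.t23) + 2 • deS e.e3) := ⟨_, rfl⟩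
  have hB : ∀ Z0, ∃ (Γ : Type) (_ : LinearOrderedCommGroupWithZero Γ) (v : Valuation M Γ)
      (θ : ℤᵐ⁰ →*₀ Γ), StrictMono θ ∧ g.Pr v = θ (exp (-D Z0)) ∧ g.Pr v ≤ 1 ∧
      Abv v ((IsScalarTower.toAlgHom k0 E M).comp (IsScalarTower.toAlgHom k0 k E))
        (h.Z.map (IsScalarTower.toAlgHom k0 E M)) Z0 (θ (exp (-1))) := fun Z0 => by
    obtain ⟨Γ, _, v, θ, h1, h2, h3⟩ := hA Z0
    obtain ⟨h4, h5⟩ := hDF _ _ _ _ v f _ p1 p2 p3 _ Z0 _ e g h3
    refine ⟨Γ, inferInstance, v, θ, h1, ?_, h4, h3⟩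
    rw [← hG, ← hH, h2, h2, de_pow, de_pow, MP_ab3ecb_nt.Inv.v_eq _ hG0,
      MP_ab3ecb_nt.Inv.v_eq _ hH0, ← map_mul, ← map_mul, ← exp_add, ← exp_add] at h5
    refine mul_left_cancel₀ ((map_ne_zero θ).2 exp_ne_zero) (h5.symm.trans ?_)
    rw [← map_mul, ← exp_add]
    congr 2
    simp only [hD, Finsupp.sub_apply, Finsupp.add_apply, Finsupp.smul_apply, deS_apply,
      Finsupp.domCongr_apply, Finsupp.equivMapDomain_apply, Equiv.symm_symm,
      MP_ab3ecb_nt.Inv.dv_apply, nsmul_eq_mul]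
    push_cast
    ring
  refine ⟨D, fun Z0 => ?_, ?_, ?_, ?_, fun κ' h1 h2 h3 => ?_, fun Z0 s κs h1 h2 => ?_⟩
  · obtain ⟨Γ, _, v, θ, h1, h2, h3, -⟩ := hB Z0
    rw [h2, ← map_one θ, h1.le_iff_le, ← exp_zero, exp_le_exp] at h3
    exact neg_nonpos.1 h3
  · have h1 := de_sum (fun _ => (1 : ℤ)) D
    simp only [smul_eq_mul, mul_one] at h1
    rw [h1, hD, map_sub, map_add, map_add, map_nsmul, map_nsmul, map_add, de_lift, de_lift, de_lift,
      de_lift, de_dom pl _ deg (by simp)]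
    simp
  · have f1 := fun P1 P2 P3 => (I.fib p1 _ _ _ P1 P2 P3 hin.1).1
    have f2 := fun P1 P2 P3 => (I.fib p2 _ _ _ P1 P2 P3 hin.2.1).1
    have f3 := fun P1 P2 P3 => (I.fib p3 _ _ _ P1 P2 P3 hin.2.2).1
    have a1 := fun i => f2 _ _ _ (e.h21 i)
    have a2 := fun i => f3 _ _ _ (e.h31 i)
    have a3 := fun i => f2 _ _ _ (e.h23 i)
    have a4 := f3 _ _ _ ⟨_, _, e.he3⟩
    have a5 := fun i => I.conj (e.e1 i)
    have a6 := fun i => I.conj (e.e3 i)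
    rw [de_sum, hD, map_sub, map_add, map_add, map_nsmul, map_nsmul, map_add, de_lift, de_lift,
      de_lift, de_lift, de_dom pl _ cD hI, map_sub, cD_dv hG0, cD_dv hH0]
    simp only [Fintype.sum_prod_type, Fin.sum_univ_three, Fin.sum_univ_two, Function.uncurry]
    linear_combination (norm := abel) 2 • (a1 0 + a1 1 + a1 2 + a2 0 + a2 1 + a2 2) -
      (a3 0 + a3 1 + a3 2) - 3 • a4 - 2 • (a5 0 + a5 1 + a5 2) + (a6 0 + a6 1 + a6 2)
  · obtain ⟨Γ, _, v, θ, h1, h2, -, h3⟩ := hB κ.Z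
    have := ((hDU _ _ _ _ v f _ p1 p2 p3 _ _ g κ h3 hin hnd).2 hJ U1 U2 hcl).1
    rwa [h2, h1.injective.eq_iff, exp_inj, neg_inj] at this
  · obtain ⟨Γ, _, v, θ, h4, h5, -, h6⟩ := hB κ'.Z
    have := (hDU _ _ _ _ v f _ p1 p2 p3 _ _ g κ' h6 h1 h2).1 h3
    rw [h5, h4.lt_iff_lt, exp_lt_exp] at this
    omega
  · obtain ⟨Γ, _, v, θ, h4, h5, -, h6⟩ := hB Z0
    have := hDL _ _ _ _ v f _ p1 p2 p3 _ Z0 _ g h6 s κs h1 h2
    rwa [h5, de_pow, h4.le_iff_le, exp_le_exp, neg_le_neg_iff] at this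

end Pool.Agent.P.MP_9344a7_nt.Tor
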