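import Pool.Agent.P.MP_9344a7_nt.Tor.Iface

/-! Step DER. -/

set_option autoImplicit false
set_option linter.unusedSectionVars false

namespace Pool.Agent.P.MP_9344a7_nt.Tor

open Polynomial WithZero
open Pool.Agent.P.MP_6f117a_ag (Place FF)
open Pool.Agent.P.MP_ab3ecb_nt.Inv (ord Dv dv deg SA LS)
open scoped Classical IntermediateField

lemma der_quad {A M : Type} [Field A] [Field M] [Algebra A M] (δ : Derivation A M M)
    (s0 s1 x y z : M) (hx : δ x = 0) (hy : δ y = 0) (hz : δ z = 0) :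
    δ (s0 ^ 2 * x - 2 * s0 * s1 * y - s1 ^ 2 * z) =
      2 * (s0 * δ s0 * x - (δ s0 * s1 + s0 * δ s1) * y - s1 * δ s1 * z) := by
  have e : s0 ^ 2 * x - 2 * s0 * s1 * y - s1 ^ 2 * z =
      s0 * s0 * x - (s0 * s1 * y + s0 * s1 * y) - s1 * s1 * z := by ring
  rw [e]
  simp only [map_sub, map_add, Derivation.leibniz, hx, hy, hz, smul_eq_mul]
  ring

lemma der_eval {M : Type} [Field M] {g : M[X]} (hg : g.natDegree ≤ 3) (a : M) :
    g.eval a = g.coeff 0 + g.coeff 1 * a + g.coeff 2 * a ^ 2 + g.coeff 3 * a ^ 3 := by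
  rw [eval_eq_sum_range' (Nat.lt_succ_of_le hg)]
  simp [Finset.sum_range_succ]

lemma der_cubic {M : Type} [Field M] (t a1 a2 a3 : M) :
    C t * (X - C a1) * (X - C a2) * (X - C a3) =
      C t * X ^ 3 + C (-(t * (a1 + a2 + a3))) * X ^ 2 +
        C (t * (a1 * a2 + a1 * a3 + a2 * a3)) * X + C (-(t * (a1 * a2 * a3))) := by
  simp only [map_neg, map_mul, map_add]
  ring

lemma der_core {A M : Type} [Field A] [Field M] [Algebra A M] [CharZero M]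
    (δ : Derivation A M M) (u c w : ℕ → M) (hu : ∀ i, δ (u i) = 0) (hc : ∀ i, δ (c i) = 0)
    (hw : ∀ i, δ (w i) = 0) (s0 s1 t a1 a2 a3 y1 y2 : M) (ht : t ≠ 0) (hs : s0 ≠ 0 ∨ s1 ≠ 0)
    (hy1 : y1 ≠ 0) (hy2 : y2 ≠ 0)
    (E3 : s0 ^ 2 * w 3 - 2 * s0 * s1 * c 3 - s1 ^ 2 * u 3 = t)
    (E2 : s0 ^ 2 * w 2 - 2 * s0 * s1 * c 2 - s1 ^ 2 * u 2 = -(t * (a1 + a2 + a3)))
    (E1 : s0 ^ 2 * w 1 - 2 * s0 * s1 * c 1 - s1 ^ 2 * u 1 = t * (a1 * a2 + a1 * a3 + a2 * a3))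
    (E0 : s0 ^ 2 * w 0 - 2 * s0 * s1 * c 0 - s1 ^ 2 * u 0 = -(t * (a1 * a2 * a3)))
    (A1 : s0 * (y1 - (c 0 + c 1 * a1 + c 2 * a1 ^ 2 + c 3 * a1 ^ 3)) =
      s1 * (u 0 + u 1 * a1 + u 2 * a1 ^ 2 + u 3 * a1 ^ 3))
    (B1 : s1 * (y1 + (c 0 + c 1 * a1 + c 2 * a1 ^ 2 + c 3 * a1 ^ 3)) =
      s0 * (w 0 + w 1 * a1 + w 2 * a1 ^ 2 + w 3 * a1 ^ 3))
    (A2 : s0 * (y2 - (c 0 + c 1 * a2 + c 2 * a2 ^ 2 + c 3 * a2 ^ 3)) =
      s1 * (u 0 + u 1 * a2 + u 2 * a2 ^ 2 + u 3 * a2 ^ 3))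
    (B2 : s1 * (y2 + (c 0 + c 1 * a2 + c 2 * a2 ^ 2 + c 3 * a2 ^ 3)) =
      s0 * (w 0 + w 1 * a2 + w 2 * a2 ^ 2 + w 3 * a2 ^ 3)) :
    (a1 - a3) / y1 * δ a1 + (a2 - a3) / y2 * δ a2 = 0 ∧ (a1 = a2 → δ a1 = 0) := by
  have D3 := congrArg δ E3
  have D2 := congrArg δ E2
  have D1 := congrArg δ E1
  have D0 := congrArg δ E0
  rw [der_quad δ _ _ _ _ _ (hw _) (hc _) (hu _)] at D3 D2 D1 D0
  simp only [map_neg, map_add, Derivation.leibniz, smul_eq_mul] at D2 D1 D0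
  have K1 : 2 * y1 * (δ s0 * s1 - δ s1 * s0) = -(t * δ a1 * (a1 - a2) * (a1 - a3)) := by
    linear_combination D0 + a1 * D1 + a1 ^ 2 * D2 + a1 ^ 3 * D3 + 2 * δ s0 * B1 - 2 * δ s1 * A1
  have K2 : 2 * y2 * (δ s0 * s1 - δ s1 * s0) = -(t * δ a2 * (a2 - a1) * (a2 - a3)) := by
    linear_combination D0 + a2 * D1 + a2 ^ 2 * D2 + a2 ^ 3 * D3 + 2 * δ s0 * B2 - 2 * δ s1 * A2
  have second : a1 = a2 → δ a1 = 0 := by
    intro h
    subst h
    have hD : δ s0 * s1 - δ s1 * s0 = 0 := by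
      have h0 : 2 * y1 * (δ s0 * s1 - δ s1 * s0) = 0 := by rw [K1]; ring
      exact (mul_eq_zero.1 h0).resolve_left (mul_ne_zero two_ne_zero hy1)
    obtain ⟨μ, h0, h1⟩ : ∃ μ, δ s0 = μ * s0 ∧ δ s1 = μ * s1 := by
      rcases hs with h | h
      · refine ⟨δ s0 / s0, by field_simp, ?_⟩
        field_simp
        linear_combination -hD
      · refine ⟨δ s1 / s1, ?_, by field_simp⟩
        field_simp
        linear_combination hD
    rw [h0, h1] at D3 D2 D1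
    have hdt : δ t = 2 * μ * t := by linear_combination -D3 + 2 * μ * E3
    rw [hdt] at D2 D1
    have F2 : t * (2 * δ a1 + δ a3) = 0 := by linear_combination D2 - 2 * μ * E2
    have F1 : t * (2 * a1 * δ a1 + 2 * a1 * δ a3 + 2 * a3 * δ a1) = 0 := by
      linear_combination -D1 + 2 * μ * E1
    have G2 := (mul_eq_zero.1 F2).resolve_left ht
    have G1 := (mul_eq_zero.1 F1).resolve_left ht
    by_cases h3 : a3 = a1
    · rw [h3] at G2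
      have : 3 * δ a1 = 0 := by linear_combination G2
      exact (mul_eq_zero.1 this).resolve_left three_ne_zero
    · have : 2 * (a3 - a1) * δ a1 = 0 := by linear_combination G1 - 2 * a1 * G2
      exact (mul_eq_zero.1 this).resolve_left (mul_ne_zero two_ne_zero (sub_ne_zero.2 h3))
  refine ⟨?_, second⟩
  by_cases h : a1 = a2
  · have h1 := second h
    have h2 : δ a2 = 0 := h ▸ h1
    rw [h1, h2]
    simp
  · have hne : t * (a1 - a2) ≠ 0 := mul_ne_zero ht (sub_ne_zero.2 h)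
    have : t * (a1 - a2) * ((a1 - a3) * δ a1 * y2 + (a2 - a3) * δ a2 * y1) = 0 := by
      linear_combination y2 * K1 - y1 * K2
    have h4 := (mul_eq_zero.1 this).resolve_left hne
    field_simp
    linear_combination h4

theorem p_DER :
    S_DER := by
  intro k0 A M _ _ _ _ _ _ _ _ f δ p P1 P2 P3 h1 h2 h3 hF
  obtain ⟨s0, s1, hF⟩ := hF
  have hs := hF.ne
  obtain ⟨⟨t, ht, hV⟩, o1, o2, -⟩ := hF
  set q := p.map (IsScalarTower.toAlgHom k0 A M) with hq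
  have hu : ∀ i, δ (q.u.coeff i) = 0 := fun i => by
    simp [hq, Pen.map]
  have hc : ∀ i, δ (q.c.coeff i) = 0 := fun i => by
    simp [hq, Pen.map]
  have hw : ∀ i, δ (q.w.coeff i) = 0 := fun i => by
    simp [hq, Pen.map]
  rw [Pt.ell_aff h1.1, Pt.ell_aff h2.1, Pt.ell_aff h3.1, der_cubic] at hV
  have hco : ∀ i, (q.V s0 s1).coeff i =
      s0 ^ 2 * q.w.coeff i - 2 * s0 * s1 * q.c.coeff i - s1 ^ 2 * q.u.coeff i := fun i => by
    simp only [Pen.V, coeff_sub, coeff_C_mul]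
  unfold Pen.On at o1 o2
  rw [Pt.ev_aff h1.1 q.du, Pt.ev_aff h1.1 q.dc, Pt.ev_aff h1.1 q.dw, der_eval q.du, der_eval q.dc,
    der_eval q.dw] at o1
  rw [Pt.ev_aff h2.1 q.du, Pt.ev_aff h2.1 q.dc, Pt.ev_aff h2.1 q.dw, der_eval q.du, der_eval q.dc,
    der_eval q.dw] at o2
  refine der_core δ q.u.coeff q.c.coeff q.w.coeff hu hc hw s0 s1 t P1.a P2.a P3.a P1.y P2.y ht hs
    h1.2 h2.2 ?_ ?_ ?_ ?_ o1.1 o1.2 o2.1 o2.2
  all_goals
    rw [← hco, hV]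
    simp only [coeff_add, coeff_C_mul, coeff_X_pow, coeff_X, coeff_C]
    simp

end Pool.Agent.P.MP_9344a7_nt.Tor
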