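import Pool.Agent.P.MP_9344a7_nt.Tor.Iface

/-! Step DET. -/

set_option autoImplicit false
set_option linter.unusedSectionVars false

namespace Pool.Agent.P.MP_9344a7_nt.Tor

open Polynomial WithZero
open Pool.Agent.P.MP_6f117a_ag (Place FF)
open Pool.Agent.P.MP_ab3ecb_nt.Inv (ord Dv dv deg SA LS)
open scoped Classical IntermediateField

/-- The weighted sum of a divisor, as a homomorphism. -/
noncomputable def det_ev {α G : Type} [AddCommGroup G] (c : α → G) : (α →₀ ℤ) →+ G :=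
  Finsupp.liftAddHom fun P => zmultiplesHom G (c P)

lemma det_ev_apply {α G : Type} [AddCommGroup G] (c : α → G) (D : α →₀ ℤ) :
    det_ev c D = D.sum fun P n => n • c P := by
  rw [det_ev, Finsupp.liftAddHom_apply]
  rfl

lemma det_ev_single {α G : Type} [AddCommGroup G] (c : α → G) (P : α) (n : ℤ) :
    det_ev c (Finsupp.single P n) = n • c P := by
  simp [det_ev]

lemma det_tot {α : Type} (D : α →₀ ℤ) : det_ev (fun _ => (1 : ℤ)) D = D.sum fun _ n => n := by
  simp [det_ev_apply]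

lemma det_zero {α : Type} (D : α →₀ ℤ) (h0 : 0 ≤ D) (h : det_ev (fun _ => (1 : ℤ)) D = 0) :
    D = 0 := by
  rw [det_tot, Finsupp.sum, Finset.sum_eq_zero_iff_of_nonneg fun P _ => h0 P] at h
  ext P
  by_contra e
  exact e (h P (Finsupp.mem_support_iff.2 e))

lemma det_one {α : Type} (D : α →₀ ℤ) (h0 : 0 ≤ D) (h : det_ev (fun _ => (1 : ℤ)) D = 1) :
    ∃ P, D = Finsupp.single P 1 := by
  have hne : D ≠ 0 := by
    rintro rfl
    simp at h
  obtain ⟨P, hP⟩ := Finsupp.ne_iff.1 hne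
  refine ⟨P, sub_eq_zero.1 (det_zero _ (fun Q => ?_) ?_)⟩
  · have h1 : (0 : ℤ) ≤ D Q := h0 Q
    have h2 : (0 : ℤ) ≤ D P := h0 P
    have h3 : D P ≠ 0 := hP
    simp only [Finsupp.coe_zero, Pi.zero_apply, Finsupp.coe_sub, Pi.sub_apply,
      Finsupp.single_apply]
    split_ifs with e
    · subst e
      omega
    · omega
  · rw [map_sub, h, det_ev_single]
    simp

lemma det_sum_apply {α : Type} (t : Fin 10 → α) (P : α) :
    (∑ j, Finsupp.single (t j) (1 : ℤ)) P = ((Finset.univ.filter fun j => t j = P).card : ℤ) := by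
  rw [Finsupp.finsetSum_apply, Finset.card_filter]
  simp [Finsupp.single_apply]

section

variable {k0 L G : Type} [Field k0] [Field L] [Algebra k0 L] [AddCommGroup G] {f : k0[X]}

lemma det_le {κ0 : Cfg f L} {κs : Fin 10 → Cfg f L} {p1 p2 p3 : Pen f L}
    (h : Fam κ0 κs p1 p2 p3) (D : Pt f L →₀ ℤ) (n : ℤ) (hn : n ≤ D κ0.Z)
    (hs : ∀ (Z0 : Pt f L) (s : Finset (Fin 10)) (κs : Fin 10 → Cfg f L),
      (∀ j ∈ s, (κs j).In p1 p2 p3 ∧ (κs j).Ur ∧ (κs j).Z = Z0) →
      (∀ i ∈ s, ∀ j ∈ s, (κs i).X = (κs j).X → (κs i).Y = (κs j).Y → i = j) →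
      (s.card : ℤ) ≤ D Z0) :
    0 ≤ D - (Finsupp.single κ0.Z n + ∑ j, Finsupp.single (κs j).Z (1 : ℤ)) := by
  intro P
  simp only [Finsupp.coe_zero, Pi.zero_apply, Finsupp.coe_sub, Pi.sub_apply, Finsupp.coe_add,
    Pi.add_apply, det_sum_apply, Finsupp.single_apply]
  split_ifs with e
  · subst e
    rw [Finset.filter_false_of_mem fun j _ => h.ne j]
    simpa using hn
  · have := hs P (Finset.univ.filter fun j => (κs j).Z = P) κs
      (fun j hj => ⟨h.ins j, h.ur j, (Finset.mem_filter.1 hj).2⟩)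
      fun i hi j hj hX hY => h.inj i j hX hY
        ((Finset.mem_filter.1 hi).2.trans (Finset.mem_filter.1 hj).2.symm)
    omega

end

theorem p_DET :
    S_DET := by
  intro k0 L G _ _ _ _ f I hDE
  refine ⟨fun κ0 κs p1 p2 p3 h hJ ⟨j, U1, U2, hN, hJ', hC⟩ => ?_,
    fun κ0 κs p1 p2 p3 U1 U2 h hC hR => ?_⟩
  · obtain ⟨D, -, ht, hc, -, h2, hs⟩ := hDE p1 p2 p3 (κs j) U1 U2 (h.ins j) hN hJ' hC
    have h0 := det_le h D 2 (h2 κ0 h.in0 h.nd hJ) hs
    have hz := det_zero _ h0 (by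
      rw [map_sub, map_add, map_sum, det_tot, ht]
      simp [det_ev_single])
    rw [sub_eq_zero] at hz
    rw [← det_ev_apply, hz, map_add, map_sum, (I.fib p2 _ _ _ _ _ _ h.in0.2.1).1 (h.ins j).2.1,
      (I.fib p3 _ _ _ _ _ _ h.in0.2.2).1 (h.ins j).2.2] at hc
    simp only [det_ev_single, one_smul] at hc
    rw [PicI.Rel, ← hc, two_smul, two_smul]
  · by_contra hJ
    obtain ⟨D, -, ht, hc, h1, -, hs⟩ := hDE p1 p2 p3 κ0 U1 U2 h.in0 h.nd hJ hC
    have h0 := det_le h D 1 h1.ge hs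
    obtain ⟨P, hP⟩ := det_one _ h0 (by
      rw [map_sub, map_add, map_sum, det_tot, ht]
      simp [det_ev_single])
    rw [sub_eq_iff_eq_add] at hP
    rw [← det_ev_apply, hP, map_add, map_add, map_sum, ← hR] at hc
    simp only [det_ev_single, one_smul] at hc
    have hPZ : P = κ0.Z := I.one (by
      rw [two_smul, ← add_assoc] at hc
      exact add_right_cancel (add_right_cancel (add_right_cancel hc)))
    rw [hP, hPZ] at h1
    simp only [Finsupp.coe_add, Pi.add_apply, det_sum_apply, Finsupp.single_eq_same] at h1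
    omega

end Pool.Agent.P.MP_9344a7_nt.Tor
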