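import Pool.Agent.P.MP_9344a7_nt.Tor.Iface

/-! Step DF. -/

set_option autoImplicit false
set_option linter.unusedSectionVars false

namespace Pool.Agent.P.MP_9344a7_nt.Tor

open Polynomial WithZero
open Pool.Agent.P.MP_6f117a_ag (Place FF)
open Pool.Agent.P.MP_ab3ecb_nt.Inv (ord Dv dv deg SA LS)
open scoped Classical IntermediateField

section aux

variable {k0 k M Γ : Type} [Field k0] [Field k] [Field M] [Algebra k0 k] [Algebra k0 M]
  [LinearOrderedCommGroupWithZero Γ] {v : Valuation M Γ} {f : k0[X]} {φ : k →ₐ[k0] M}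
  {Z : Pt f M} {Z0 : Pt f k} {ϖ : Γ}

lemma df_vs (h : Abv v φ Z Z0 ϖ) : VS v f :=
  ⟨h.gd, fun c => by rw [← φ.commutes c]; exact h.triv _⟩

lemma df_int (h : Abv v φ Z Z0 ϖ) (p : Pen f k) : (p.map φ).Int v := fun i => by
  simp only [Pen.map, coeff_map]
  exact ⟨h.triv _, h.triv _, h.triv _⟩

lemma df_dZ (h : Abv v φ Z Z0 ϖ) (P : Pt f k) :
    dd v Z (P.map φ) = ϖ ^ (if P = Z0 then 1 else 0) := by
  rw [h.dZ]
  split_ifs <;> simp

lemma df_two (h : Abv v φ Z Z0 ϖ) (hD : DA v f) {p : Pen f k} (hp : NPs v (p.map φ))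
    {P t t' : Pt f k} {A B : Pt f M} (h1 : p.Fib P t t') (h2 : (p.map φ).Fib Z A B) :
    dd v A (P.map φ) * dd v B (P.map φ) =
      ϖ ^ (if t = Z0 then 1 else 0) * ϖ ^ (if t' = Z0 then 1 else 0) := by
  have e := hp.sym _ _ _ _ _ _ h2 (h1.map φ)
  have hne : dd v Z (P.map φ) ≠ 0 := by
    rw [df_dZ h]
    exact pow_ne_zero _ h.ne
  rw [d3, d3, hD.symm (P.map φ) Z, mul_assoc, mul_assoc, df_dZ h t, df_dZ h t'] at e
  rw [hD.symm A, hD.symm B]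
  exact (mul_left_cancel₀ hne e).symm

lemma df_cnt (t : Fin 3 → Fin 2 → Pt f k) (Z0 : Pt f k) (ϖ : Γ) :
    ϖ ^ cnt (Function.uncurry t) Z0 =
      ∏ l, (ϖ ^ (if t l 0 = Z0 then 1 else 0) * ϖ ^ (if t l 1 = Z0 then 1 else 0)) := by
  rw [cnt, Fintype.sum_prod_type, ← Finset.prod_pow_eq_pow_sum]
  refine Finset.prod_congr rfl fun l _ => ?_
  rw [Fin.sum_univ_two, pow_add]
  rfl

lemma df_d3 (A B : Pt f M) (E : Fin 3 → Pt f M) :
    d3 v A (E 0) (E 1) (E 2) * d3 v B (E 0) (E 1) (E 2) = ∏ l, (dd v A (E l) * dd v B (E l)) := by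
  rw [Fin.prod_univ_three, d3, d3]
  ac_rfl

lemma df_un (v : Valuation M Γ) (X A B C : Pt f M) :
    d3 v X A B C = dd v X A * dd v X B * dd v X C := rfl

end aux

theorem p_DF (hDD : S_DD) (hSYM : S_SYM) :
    S_DF := by
  intro k0 k M Γ _ _ _ _ _ _ v f φ p1 p2 p3 Z Z0 ϖ e g h
  have hD : DA v f := (hDD k0 M Γ v f (df_vs h)).toDA
  have n1 := hSYM k0 M Γ v f (df_vs h) _ (df_int h p1)
  have n2 := hSYM k0 M Γ v f (df_vs h) _ (df_int h p2)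
  have n3 := hSYM k0 M Γ v f (df_vs h) _ (df_int h p3)
  refine ⟨Finset.prod_le_one' fun i _ => Finset.prod_le_one' fun j _ =>
    Finset.prod_le_one' fun l _ => hD.le _ _, ?_⟩
  have hE := e.he1.map φ
  have hF := e.he3.map φ
  rw [map_zero, map_one] at hE hF
  have hx : ∀ (P : Fin 3 → Pt f k) (t : Fin 3 → Fin 2 → Pt f k),
      (∀ i, p2.Fib (P i).io (t i 0) (t i 1)) →
      d3 v (g.Xs 0) ((P 0).map φ) ((P 1).map φ) ((P 2).map φ) *
        d3 v (g.Xs 1) ((P 0).map φ) ((P 1).map φ) ((P 2).map φ) =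
        ϖ ^ cnt (Function.uncurry t) Z0 := fun P t ht => by
    rw [df_d3 _ _ fun l => (P l).map φ, df_cnt]
    refine Finset.prod_congr rfl fun l _ => ?_
    rw [← df_two h hD n2 (ht l) g.hX, Pt.map_io, hD.io, hD.io]
  have x1 := hx e.e1 e.t21 e.h21
  have x3 := hx e.e3 e.t23 e.h23
  have y1 : d3 v (g.Ys 0) ((e.e1 0).map φ) ((e.e1 1).map φ) ((e.e1 2).map φ) *
      d3 v (g.Ys 1) ((e.e1 0).map φ) ((e.e1 1).map φ) ((e.e1 2).map φ) =
      ϖ ^ cnt (Function.uncurry e.t31) Z0 := by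
    rw [df_d3 _ _ fun l => (e.e1 l).map φ, df_cnt]
    exact Finset.prod_congr rfl fun l _ => df_two h hD n3 (e.h31 l) ⟨_, _, g.hY⟩
  have z3 : d3 v Z ((e.e3 0).map φ) ((e.e3 1).map φ) ((e.e3 2).map φ) = ϖ ^ cnt e.e3 Z0 := by
    rw [d3, df_dZ h, df_dZ h, df_dZ h, cnt, Fin.sum_univ_three, pow_add, pow_add]
  have t1 := fun i j => n1.tau _ _ _ _ _ _ _ _ _ (g.ha i) (g.hU j) hE
  have t3 := fun i => n3.tau _ _ _ _ _ _ _ _ _ (g.hc i) g.hY hF
  have c0 : dd v (g.Xs 0) Z = 1 := by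
    rw [hD.symm, ← (g.Xs 0).io_io]
    exact n2.conj _ _ _ g.hX
  have c1 : dd v (g.Xs 1) Z = 1 := by
    rw [hD.symm, ← (g.Xs 1).io_io]
    exact n2.conj _ _ _ g.hX.s23
  have u0 := t3 0
  have u1 := t3 1
  rw [z3, df_un v _ Z, c0, one_mul] at u0
  rw [z3, df_un v _ Z, c1, one_mul] at u1
  have a00 := t1 0 0
  have a01 := t1 0 1
  have a10 := t1 1 0
  have a11 := t1 1 1
  rw [df_un v _ (g.Ys _)] at a00 a01 a10 a11
  simp only [GenD.G, GenD.H, Fin.prod_univ_two, map_mul]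
  rw [mul_add, pow_add, pow_add, pow_mul', pow_mul', pow_mul', ← x1, ← x3, ← y1]
  generalize d3 v (g.Xs 0) ((e.e1 0).map φ) ((e.e1 1).map φ) ((e.e1 2).map φ) = A0 at *
  generalize d3 v (g.Xs 1) ((e.e1 0).map φ) ((e.e1 1).map φ) ((e.e1 2).map φ) = A1 at *
  generalize d3 v (g.Ys 0) ((e.e1 0).map φ) ((e.e1 1).map φ) ((e.e1 2).map φ) = B0 at *
  generalize d3 v (g.Ys 1) ((e.e1 0).map φ) ((e.e1 1).map φ) ((e.e1 2).map φ) = B1 at *
  generalize d3 v (g.Xs 0) ((e.e3 0).map φ) ((e.e3 1).map φ) ((e.e3 2).map φ) = C0 at *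
  generalize d3 v (g.Xs 1) ((e.e3 0).map φ) ((e.e3 1).map φ) ((e.e3 2).map φ) = C1 at *
  calc _ = (v (g.a 0 - g.b 0) * A0 * B0) * (v (g.a 0 - g.b 1) * A0 * B1) *
        ((v (g.a 1 - g.b 0) * A1 * B0) * (v (g.a 1 - g.b 1) * A1 * B1)) := by
        rw [sq, sq]
        ac_rfl
    _ = (dd v (g.Xs 0) (g.Ys 0) * dd v (g.Xs 0) (g.Ys 1)) *
        (dd v (g.Xs 1) (g.Ys 0) * dd v (g.Xs 1) (g.Ys 1)) * g.Pr v := by
        rw [a00, a01, a10, a11]
        simp only [GenD.Pr, Fin.prod_univ_two]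
        ac_rfl
    _ = _ := by
        rw [← u0, ← u1, sq]
        ac_rfl

end Pool.Agent.P.MP_9344a7_nt.Tor
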