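import Pool.Agent.P.MP_9344a7_nt.Tor.Iface

/-! Step DIV. -/

set_option autoImplicit false
set_option linter.unusedSectionVars false

namespace Pool.Agent.P.MP_9344a7_nt.Tor

open Polynomial WithZero
open Pool.Agent.P.MP_6f117a_ag (Place FF)
open Pool.Agent.P.MP_ab3ecb_nt.Inv (ord Dv dv deg SA LS)
open scoped Classical IntermediateField

section

variable {k0 k E : Type} [Field k0] [Field k] [Field E] [Algebra k0 k] [Algebra k E]
  [Algebra k0 E] [IsScalarTower k0 k E] {f : k0[X]} {x y : E}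

lemma div_vs (hf : Gd f) (W : Place k E) : VS W.v f :=
  ⟨hf, fun c => by rw [IsScalarTower.algebraMap_apply k0 k E]; exact W.triv _⟩

lemma div_max (W : Place k E) {a b : k} (h : a ≠ 0 ∨ b ≠ 0) :
    max (W.v (algebraMap k E a)) (W.v (algebraMap k E b)) = 1 := by
  rcases h with h | h
  · rw [W.v_const h, max_eq_left (W.triv b)]
  · rw [W.v_const h, max_eq_right (W.triv a)]

lemma div_nm (W : Place k E) (P : Pt f k) :
    nm W.v (P.map (IsScalarTower.toAlgHom k0 k E)) = 1 :=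
  div_max W (by rcases P.nf with h | ⟨-, h⟩ <;> simp [h])

lemma div_dd {h : Hyp k f x y} {pl : Pt f k ≃ Place k E} (hp : IsPl h pl) (W : Place k E)
    (P : Pt f k) : dd W.v h.Z (P.map (IsScalarTower.toAlgHom k0 k E)) = exp (-pd pl P W) := by
  obtain ⟨Z0, rfl⟩ := pl.surjective W
  rw [hp Z0 P, pd, Finsupp.single_apply]
  by_cases e : P = Z0
  · simp [e]
  · simp [e]

lemma div_br (h : Hyp k f x y) (P : Pt f k) :
    br h.Z (P.map (IsScalarTower.toAlgHom k0 k E)) = aeval x P.ell := by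
  rw [Pt.ell, map_sub, map_mul, aeval_C, aeval_C, aeval_X]
  change x * algebraMap k E P.b - algebraMap k E P.a * 1 = _
  ring

lemma div_on (h : Hyp k f x y) (p : Pen f E) : ∃ t0 t1, (t0 ≠ 0 ∨ t1 ≠ 0) ∧ p.On t0 t1 h.Z := by
  have e := p.ev_eq h.Z
  by_cases h1 : h.Z.y - h.Z.ev p.c = 0
  · refine ⟨h.Z.y + h.Z.ev p.c, h.Z.ev p.w, .inl fun h2 => ?_, by linear_combination e,
      mul_comm _ _⟩
    have h3 : (2 : E) ≠ 0 := by
      rw [← map_ofNat (algebraMap k0 E) 2]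
      exact (_root_.map_ne_zero _).2 h.gd.two
    have h4 : y = 0 := (mul_eq_zero.1 (show 2 * h.Z.y = 0 by linear_combination h1 + h2)).resolve_left h3
    have h5 : aeval x (f.map (algebraMap k0 k)) = 0 := by
      rw [aeval_map_algebraMap, ← h.eq, h4, zero_pow two_ne_zero]
    have h6 := transcendental_iff.1 h.tr _ h5
    have h7 := h.gd.deg
    rw [(Polynomial.map_eq_zero _).1 h6] at h7
    simp at h7
  · exact ⟨h.Z.ev p.u, h.Z.y - h.Z.ev p.c, .inr h1, mul_comm _ _, by linear_combination e⟩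

lemma div_fib (hRHO : S_RHO) (hNP : S_NP) {h : Hyp k f x y} {pl : Pt f k ≃ Place k E}
    (hp : IsPl h pl) (p : Pen f k) {t0 t1 : E} (ht : t0 ≠ 0 ∨ t1 ≠ 0)
    (ho : (p.map (IsScalarTower.toAlgHom k0 k E)).On t0 t1 h.Z) {s0 s1 : k} {P1 P2 P3 : Pt f k}
    (hs : p.FibS s0 s1 P1 P2 P3) (W : Place k E) :
    W.v (algebraMap k E s0 * t1 - algebraMap k E s1 * t0) / max (W.v t0) (W.v t1) =
      exp (-(pd pl P1 + pd pl P2 + pd pl P3) W) := by
  have hi : (p.map (IsScalarTower.toAlgHom k0 k E)).Int W.v := fun i => by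
    simp only [Pen.map, coeff_map]
    exact ⟨W.triv _, W.triv _, W.triv _⟩
  have h1 := hNP k0 E _ W.v f (div_vs h.gd W) _ hi _ _ _ _ _
    (hs.map (IsScalarTower.toAlgHom k0 k E)) h.Z
  rw [(hRHO k0 E _ W.v f (div_vs h.gd W) _ hi).chd _ _ _ _ _ ht ho, d3, div_dd hp, div_dd hp,
    div_dd hp, chd, IsScalarTower.coe_toAlgHom', div_max W hs.ne, one_mul, ← exp_add,
    ← exp_add] at h1
  rw [h1, Finsupp.add_apply, Finsupp.add_apply, neg_add, neg_add]

end

theorem p_DIV (hDD : S_DD) (hRHO : S_RHO) (hNP : S_NP) :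
    S_DIV := by
  intro k0 k E _ _ _ _ _ _ _ _ _ f x y h pl hp
  obtain ⟨r, hr⟩ := IsAlgClosed.exists_pow_nat_eq (hev 6 (f.map (algebraMap k0 k)) 1 0) two_pos
  refine ⟨⟨⟨1, 0, r, .inr ⟨rfl, rfl⟩, hr⟩, rfl⟩, fun I P hI => ?_, ?_⟩
  · ext W
    have hd := hDD k0 E _ W.v f (div_vs h.gd W)
    have h1 := hd.br h.Z (P.map (IsScalarTower.toAlgHom k0 k E))
    have h2 := hd.br h.Z (I.map (IsScalarTower.toAlgHom k0 k E))
    have hIa : I.a = 1 := (I.nf.resolve_left (by rw [hI]; exact zero_ne_one)).2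
    rw [div_br, ← Pt.map_io, div_dd hp, div_dd hp, div_nm, mul_one, ← exp_add] at h1 h2
    rw [show aeval x I.ell = -1 by simp [Pt.ell, hI, hIa], Valuation.map_neg, map_one,
      eq_comm, mul_comm, mul_eq_one_iff_eq_inv₀ exp_ne_zero, ← exp_neg] at h2
    rw [h2, ← exp_add] at h1
    rw [MP_ab3ecb_nt.Inv.dv_apply, MP_ab3ecb_nt.Inv.ord_of_v h1, Finsupp.sub_apply,
      Finsupp.add_apply, Finsupp.add_apply]
    ring
  · rintro p P1 P2 P3 Q1 Q2 Q3 ⟨s0, s1, hs⟩ ⟨r0, r1, hr'⟩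
    obtain ⟨t0, t1, ht, ho⟩ := div_on h (p.map (IsScalarTower.toAlgHom k0 k E))
    have h1 := div_fib hRHO hNP hp p ht ho hs
    have h2 := div_fib hRHO hNP hp p ht ho hr'
    have hne : ∀ {z : E} {g : ℤᵐ⁰} {n : ℤ}, (pl P1).v z / g = exp n → z ≠ 0 := by
      rintro _ g n e rfl
      rw [map_zero, zero_div] at e
      exact exp_ne_zero e.symm
    rw [← cD_single, ← cD_single, ← cD_single, ← cD_single, ← cD_single, ← cD_single, ← map_add,
      ← map_add, ← map_add, ← map_add]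
    refine cD_eq_iff.2 ⟨_, div_ne_zero (hne (h1 _)) (hne (h2 _)), Finsupp.ext fun W => ?_⟩
    have hm : max (W.v t0) (W.v t1) ≠ 0 := fun e => by
      have := h1 W
      rw [e, div_zero] at this
      exact exp_ne_zero this.symm
    rw [MP_ab3ecb_nt.Inv.dv_apply, MP_ab3ecb_nt.Inv.ord_of_v (n := -_ - -_) (by
      rw [map_div₀, ← div_div_div_cancel_right₀ hm, h1, h2, exp_sub]), Finsupp.sub_apply]
    ring

end Pool.Agent.P.MP_9344a7_nt.Tor
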