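import Pool.Agent.P.MP_9344a7_nt.Tor.Iface

/-! Step DN. -/

set_option autoImplicit false
set_option linter.unusedSectionVars false

namespace Pool.Agent.P.MP_9344a7_nt.Tor

open Polynomial WithZero
open Pool.Agent.P.MP_6f117a_ag (Place FF)
open Pool.Agent.P.MP_ab3ecb_nt.Inv (ord Dv dv deg SA LS)
open scoped Classical IntermediateField

lemma dn_key {k0 L Γ : Type} [Field k0] [Field L] [Algebra k0 L]
    [LinearOrderedCommGroupWithZero Γ] {v : Valuation L Γ} {f : k0[X]} (D : DD v f)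
    {p : Pen f L} (N : NPs v p) {q0 q1 q2 P R1 R2 : Pt f L} {r : Γ} (h0 : p.Fib q0 q1 q2)
    (h1 : p.Fib P R1 R2) (hne : P ≠ q1) (hP : dd v P q0 ≤ r) :
    dd v R1 q1 * dd v R2 q1 ≤ r := by
  have h := N.sym _ _ _ _ _ _ h0.s12 h1
  have hz : dd v P q1 ≠ 0 := fun e => hne ((D.zero _ _).1 e)
  unfold d3 at h
  rw [D.symm q1 P, D.symm q1 R1, D.symm q1 R2, mul_assoc, mul_assoc] at h
  rw [mul_left_cancel₀ hz h]
  exact (mul_le_mul' hP (D.le _ _)).trans_eq (mul_one r)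

theorem p_DN (hDD : S_DD) (hSYM : S_SYM) (hFB : S_FB) :
    S_DN := by
  intro k0 k L Γ _ _ _ _ _ _ v f φ hf hφ p P0 Q1 Q2 P R1 R2 r h0 hQ h1 hr hP
  have hV : VS v f := ⟨hf, fun c => by rw [← φ.commutes c]; exact hφ _⟩
  have D := hDD k0 L Γ v f hV
  have hI : (p.map φ).Int v := fun i => by
    simp only [Pen.map, coeff_map]
    exact ⟨hφ _, hφ _, hφ _⟩
  have N := hSYM k0 L Γ v f hV _ hI
  have hm := h0.map φ
  have hz : ∀ T : Pt f L, dd v T T ≤ r := fun T => ((D.zero T T).2 rfl).trans_le zero_le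
  by_cases e : P = P0.map φ
  · rw [e] at h1
    rcases (hFB k0 L f hf).uniq _ _ _ _ _ _ hm h1 with ⟨a, b⟩ | ⟨a, b⟩
    · exact .inl ⟨a ▸ hz _, b ▸ hz _⟩
    · exact .inr ⟨b ▸ hz _, a ▸ hz _⟩
  have hne : ∀ Q : Pt f k, P ≠ Q.map φ := fun Q e' => by
    by_cases e2 : Q = P0
    · exact e (e2 ▸ e')
    · rw [e', D.cst k φ hφ Q P0 e2] at hP
      exact absurd hr (not_lt.2 hP)
  have ha := dn_key D N hm h1 (hne Q1) hP
  have hb := dn_key D N hm.s23 h1 (hne Q2) hP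
  have hone : ∀ T : Pt f L, dd v T (Q1.map φ) = 1 ∨ dd v T (Q2.map φ) = 1 := fun T => by
    have h := D.tri (Q1.map φ) T (Q2.map φ)
    rw [D.cst k φ hφ Q1 Q2 hQ, D.symm _ T] at h
    exact (le_max_iff.1 h).imp (le_antisymm (D.le _ _)) (le_antisymm (D.le _ _))
  rcases hone R1 with a | a
  · rw [a, one_mul] at ha
    rw [(hone R2).resolve_left (ha.trans_lt hr).ne, mul_one] at hb
    exact .inr ⟨hb, ha⟩
  · rw [a, one_mul] at hb
    rw [(hone R2).resolve_right (hb.trans_lt hr).ne, mul_one] at ha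
    exact .inl ⟨ha, hb⟩

end Pool.Agent.P.MP_9344a7_nt.Tor
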