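import Pool.Agent.P.MP_9344a7_nt.Tor.Iface

/-! Step DS. -/

set_option autoImplicit false
set_option linter.unusedSectionVars false

namespace Pool.Agent.P.MP_9344a7_nt.Tor

open Polynomial WithZero
open Pool.Agent.P.MP_6f117a_ag (Place FF)
open Pool.Agent.P.MP_ab3ecb_nt.Inv (ord Dv dv deg SA LS)
open scoped Classical IntermediateField

section aux

variable {k0 k M Γ : Type} [Field k0] [Field k] [Field M] [Algebra k0 k] [Algebra k0 M]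
  [LinearOrderedCommGroupWithZero Γ] {v : Valuation M Γ} {f : k0[X]} {φ : k →ₐ[k0] M}

lemma ds_one (ht : ∀ c, v (φ c) ≤ 1) {c : k} (hc : c ≠ 0) : v (φ c) = 1 := by
  refine le_antisymm (ht c) ?_
  have h : v (φ c) * v (φ c⁻¹) = 1 := by rw [← map_mul, ← map_mul, mul_inv_cancel₀ hc]; simp
  calc (1 : Γ) = v (φ c) * v (φ c⁻¹) := h.symm
    _ ≤ v (φ c) * 1 := mul_le_mul_right (ht _) _
    _ = v (φ c) := mul_one _

lemma ds_int (ht : ∀ c, v (φ c) ≤ 1) (p : Pen f k) : (p.map φ).Int v := fun i => by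
  simp only [Pen.map, coeff_map]
  exact ⟨ht _, ht _, ht _⟩

lemma ds_dist (hD : DD v f) (hg : Gd f) (ht : ∀ c, v (φ c) ≤ 1) {Q : Pt f k} (hQ : Q.Ok)
    {P P' : Pt f M} (h : dd v P (Q.map φ) < 1) (h' : dd v P' (Q.map φ) < 1) :
    dd v P P' = v (P.a - P'.a) := by
  have hb : (Q.map φ).b = 1 := ((Pt.ok_map φ).2 hQ).1
  obtain ⟨b1, a1⟩ := hD.near P _ hb (ht _) h
  obtain ⟨b2, a2⟩ := hD.near P' _ hb (ht _) h'
  have n1 : nm v P = 1 := by rw [nm, b1, map_one]; exact max_eq_right a1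
  have n2 : nm v P' = 1 := by rw [nm, b2, map_one]; exact max_eq_right a2
  have e : dd v P P'.io = 1 := by
    refine le_antisymm (hD.le _ _) (not_lt.1 fun hlt => ?_)
    have h1 := hD.cst k φ ht Q Q.io (hQ.ne_io hg.two)
    have h2 := hD.tri (Q.map φ) P (Q.io.map φ)
    have h3 := hD.tri P P'.io (Q.io.map φ)
    rw [Pt.map_io, hD.io] at h3
    rw [h1, hD.symm (Q.map φ) P, Pt.map_io] at h2
    exact absurd (h2.trans (max_le_max le_rfl h3)) (not_le.2 (max_lt h (max_lt hlt h')))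
  have h4 := hD.br P P'
  rw [e, n1, n2, br, b1, b2] at h4
  simpa using h4.symm

lemma ds_pick (hDN : S_DN) (hg : Gd f) (ht : ∀ c, v (φ c) ≤ 1) {p : Pen f k}
    {P0 Q1 Q2 : Pt f k} {P : Pt f M} (R : Fin 2 → Pt f M) {r : Γ} (h0 : p.Fib P0 Q1 Q2)
    (hne : Q1.a ≠ Q2.a) (h1 : (p.map φ).Fib P (R 0) (R 1)) (hr : r < 1)
    (hd : dd v P (P0.map φ) ≤ r) : ∃ i : Fin 2, dd v (R i) (Q1.map φ) ≤ r ∧
      dd v (R (i + 1)) (Q2.map φ) ≤ r ∧ (p.map φ).Fib P (R i) (R (i + 1)) := by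
  rcases hDN k0 k M Γ v f φ hg ht p P0 Q1 Q2 P (R 0) (R 1) r h0 (fun e => hne (e ▸ rfl)) h1 hr hd
    with h | h
  · exact ⟨0, h.1, h.2, h1⟩
  · exact ⟨1, h.2, h.1, h1.s23⟩

end aux

theorem p_DS (hDD : S_DD) (hDN : S_DN) (hSL : S_SL) :
    S_DS := by
  intro k0 k M Γ _ _ _ _ _ _ v f φ p1 p2 p3 Z ϖ g κ hA hI hN
  have hg := hA.gd
  have ht := hA.triv
  have hr := hA.lt
  have hD : DD v f := hDD k0 M Γ v f ⟨hg, fun c => by rw [← φ.commutes]; exact ht _⟩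
  obtain ⟨⟨oX, oY, oZ, oA, oB, oC⟩, ⟨nXY, nXA, nYA⟩, ⟨nXZ, nXC, nZC⟩, nYZ, nYB, nZB⟩ := hN
  obtain ⟨f1, f2, f3⟩ := hI
  have dZ : dd v Z (κ.Z.map φ) = ϖ := by rw [hA.dZ, if_pos rfl]
  obtain ⟨i, x1, x2, x3⟩ := ds_pick hDN hg ht (fun i => (g.Xs i).io) f2.s12 nXC g.hX hr dZ.le
  obtain ⟨j, y1, y2, y3⟩ := ds_pick hDN hg ht g.Ys f3.s12 nYB ⟨_, _, g.hY⟩ hr dZ.le
  obtain ⟨l, u1, u2, u3⟩ := ds_pick hDN hg ht (g.Us j) f1.s12 nXA ⟨_, _, g.hU j⟩ hr y1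
  have e1 := hSL k0 k M Γ v f φ hg ht _ (ds_int ht p2) κ.X.io κ.Z κ.C _ _ _ ϖ (Pt.ok_io.2 oX) oZ oC
    nXZ nXC nZC (f2.map φ) x3.s12 hr x1 dZ.le x2
  have e2 := hSL k0 k M Γ v f φ hg ht _ (ds_int ht p3) κ.Y κ.Z κ.B _ _ _ ϖ oY oZ oB
    nYZ nYB nZB (f3.map φ) y3.s12 hr y1 dZ.le y2
  have e3 := hSL k0 k M Γ v f φ hg ht _ (ds_int ht p1) κ.X κ.Y κ.A _ _ _ ϖ oX oY oA
    nXY nXA nYA (f1.map φ) u3.s12 hr u1 y1 u2
  simp only [Pt.io_a, Pt.io_y] at e1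
  have x1' : dd v (g.Xs i) (κ.X.map φ) < 1 := by
    rw [Pt.map_io, hD.io] at x1
    exact x1.trans_lt hr
  have x2' : dd v (g.Xs (i + 1)) (κ.C.io.map φ) < 1 := by
    rw [← hD.io, Pt.map_io, Pt.io_io]
    exact x2.trans_lt hr
  have eZ : v (Z.a - φ κ.Z.a) = ϖ := by
    rw [← dZ, ds_dist hD hg ht oZ (dZ.trans_lt hr) (P' := κ.Z.map φ)
      (by rw [(hD.zero _ _).2 rfl]; exact zero_lt_one)]
    rfl
  have hsq : ϖ ^ 2 < ϖ := by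
    calc ϖ ^ 2 = ϖ * ϖ := sq ϖ
      _ < ϖ * 1 := mul_lt_mul_of_pos_left hr (zero_lt_iff.2 hA.ne)
      _ = ϖ := mul_one ϖ
  have sm : ∀ (c : k) (z : M), v z ≤ ϖ ^ 2 → v (φ c * z) < ϖ := fun c z hz => by
    rw [map_mul]
    exact ((mul_le_mul' (ht c) hz).trans_eq (one_mul _)).trans_lt hsq
  have err := v.map_add_lt (v.map_add_lt (sm (-((κ.X.a - κ.A.a) * (κ.Y.a - κ.B.a))) _ e1)
    (sm ((κ.X.a - κ.C.a) * (κ.Y.a - κ.A.a)) _ e2)) (sm (-((κ.Y.a - κ.B.a) * (κ.X.a - κ.C.a))) _ e3)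
  have hT : (κ.X.a - κ.A.a) * (κ.Y.a - κ.B.a) * (κ.X.a - κ.C.a) / κ.X.y ≠ 0 :=
    div_ne_zero (mul_ne_zero (mul_ne_zero (sub_ne_zero.2 nXA) (sub_ne_zero.2 nYB))
      (sub_ne_zero.2 nXC)) oX.2
  have key : dd v (g.Xs i) (g.Us j l) = v (φ (κ.J / κ.Z.y) * (Z.a - φ κ.Z.a) +
      (φ (-((κ.X.a - κ.A.a) * (κ.Y.a - κ.B.a))) *
        (φ ((κ.X.a - κ.C.a) / -κ.X.y) * ((g.Xs i).a - φ κ.X.a) +
          φ ((κ.Z.a - κ.C.a) / κ.Z.y) * (Z.a - φ κ.Z.a)) +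
      φ ((κ.X.a - κ.C.a) * (κ.Y.a - κ.A.a)) *
        (φ ((κ.Y.a - κ.B.a) / κ.Y.y) * ((g.Ys j).a - φ κ.Y.a) +
          φ ((κ.Z.a - κ.B.a) / κ.Z.y) * (Z.a - φ κ.Z.a)) +
      φ (-((κ.Y.a - κ.B.a) * (κ.X.a - κ.C.a))) *
        (φ ((κ.X.a - κ.A.a) / κ.X.y) * ((g.Us j l).a - φ κ.X.a) +
          φ ((κ.Y.a - κ.A.a) / κ.Y.y) * ((g.Ys j).a - φ κ.Y.a)))) := by
    rw [ds_dist hD hg ht oX x1' (u1.trans_lt hr), ← one_mul (v ((g.Xs i).a - (g.Us j l).a)),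
      ← ds_one ht hT, ← map_mul]
    congr 1
    simp only [Cfg.J, map_div₀, map_mul, map_sub, map_neg]
    ring
  refine ⟨i, j, l, x1', x2', y1.trans_lt hr, y2.trans_lt hr, u1.trans_lt hr, u2.trans_lt hr,
    fun hJ => ?_, fun hJ => ?_⟩
  · rw [key, hJ, zero_div, map_zero, zero_mul, zero_add]
    exact err
  · have h5 : v (φ (κ.J / κ.Z.y) * (Z.a - φ κ.Z.a)) = ϖ := by
      rw [map_mul, ds_one ht (div_ne_zero hJ oZ.2), eZ, one_mul]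
    rw [key, v.map_add_eq_of_lt_left (h5 ▸ err), h5]

end Pool.Agent.P.MP_9344a7_nt.Tor
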