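import Pool.Agent.P.MP_9344a7_nt.Tor.Iface

/-! Step DU. -/

set_option autoImplicit false
set_option linter.unusedSectionVars false

namespace Pool.Agent.P.MP_9344a7_nt.Tor

open Polynomial WithZero
open Pool.Agent.P.MP_6f117a_ag (Place FF)
open Pool.Agent.P.MP_ab3ecb_nt.Inv (ord Dv dv deg SA LS)
open scoped Classical IntermediateField

lemma du_two (i i' : Fin 2) : i' = i ∨ i' = i + 1 := by revert i i'; decide

lemma du_prod {Γ : Type} [CommMonoid Γ] (F : Fin 2 → Γ) (i : Fin 2) :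
    ∏ j, F j = F i * F (i + 1) := by
  rw [Fin.prod_univ_two]
  rcases du_two 0 i with rfl | rfl
  · rfl
  · exact mul_comm _ _

section

variable {k0 L : Type} [Field k0] [Field L] [Algebra k0 L] {f : k0[X]}

lemma du_eq {p : Pen f L} {b : L} {P Q : Pt f L} (hP : p.On 1 b P) (hQ : p.On 1 b Q)
    (h : br P Q = 0) : P = Q := by
  have hab : P.a = Q.a ∧ P.b = Q.b := by
    unfold br at h
    rcases P.nf with h1 | ⟨h1, h2⟩ <;> rcases Q.nf with h3 | ⟨h3, h4⟩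
    · rw [h1, h3] at h
      exact ⟨by linear_combination h, h1.trans h3.symm⟩
    · rw [h1, h3, h4] at h
      simp at h
    · rw [h1, h2, h3] at h
      simp at h
    · exact ⟨h2.trans h4.symm, h1.trans h3.symm⟩
  have e : ∀ q : L[X], P.ev q = Q.ev q := fun q => by rw [Pt.ev, Pt.ev, hab.1, hab.2]
  refine Pt.ext hab.1 hab.2 ?_
  have h1 := hP.1
  have h2 := hQ.1
  rw [e, e] at h1
  linear_combination h1 - h2

lemma du_mem {p : Pen f L} {b : L} {P Y1 Y2 Y3 : Pt f L} (h : p.FibS 1 b Y1 Y2 Y3)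
    (hP : p.On 1 b P) : P = Y1 ∨ P = Y2 ∨ P = Y3 := by
  obtain ⟨⟨t, ht, e⟩, h1, h2, h3⟩ := h
  have h0 : P.ev (p.V 1 b) = 0 := by
    rw [Pen.ev_V]
    linear_combination b * hP.1 - hP.2
  rw [e, ev_ell] at h0
  rcases mul_eq_zero.1 h0 with h0 | h0
  · rcases mul_eq_zero.1 h0 with h0 | h0
    · exact .inl (du_eq hP h1 ((mul_eq_zero.1 h0).resolve_left ht))
    · exact .inr (.inl (du_eq hP h2 h0))
  · exact .inr (.inr (du_eq hP h3 h0))

variable {Γ : Type} [LinearOrderedCommGroupWithZero Γ] {v : Valuation L Γ}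

lemma du_far (hd : DA v f) {P P' Q : Pt f L} (h : dd v P P' < 1) (h1 : dd v P' Q = 1) :
    dd v P Q = 1 := by
  refine le_antisymm (hd.le _ _) ?_
  have := hd.tri P' P Q
  rw [h1, hd.symm P' P] at this
  exact (le_max_iff.1 this).resolve_left (not_le.2 h)

lemma du_d3 (hd : DA v f) {P Q1 Q2 Q3 : Pt f L} (h : d3 v P Q1 Q2 Q3 = 1) : dd v P Q1 = 1 := by
  refine le_antisymm (hd.le _ _) ?_
  rw [← h, d3, mul_assoc]
  exact mul_le_of_le_one_right' (mul_le_one' (hd.le _ _) (hd.le _ _))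

lemma du_d3lt (hd : DA v f) {P Q1 Q2 Q3 : Pt f L} (h : dd v P Q1 < 1) : d3 v P Q1 Q2 Q3 < 1 := by
  rw [d3, mul_assoc]
  exact (mul_le_of_le_one_right' (mul_le_one' (hd.le _ _) (hd.le _ _))).trans_lt h

end

theorem p_DU (hDD : S_DD) (hSYM : S_SYM) (hDS : S_DS) :
    S_DU := by
  intro k0 k M Γ _ _ _ _ _ _ v f φ p1 p2 p3 Z ϖ g κ hA hI hN
  have hvs : VS v f := ⟨hA.gd, fun c => by rw [← φ.commutes]; exact hA.triv _⟩
  have hD := hDD k0 M Γ v f hvs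
  have hd := hD.toDA
  have hn : NPs v (p1.map φ) := hSYM k0 M Γ v f hvs _ fun i => by
    simp only [Pen.map, coeff_map]
    exact ⟨hA.triv _, hA.triv _, hA.triv _⟩
  obtain ⟨i, j, l, x0, x1, y0, y1, u0, u1, j0, j1⟩ := hDS k0 k M Γ v f φ p1 p2 p3 Z ϖ g κ hA hI hN
  have hP : g.Pr v = dd v (g.Xs i) (g.Us j l) * dd v (g.Xs i) (g.Us j (l + 1)) *
      (dd v (g.Xs i) (g.Us (j + 1) 0) * dd v (g.Xs i) (g.Us (j + 1) 1)) *
      (dd v (g.Xs (i + 1)) (g.Us j l) * dd v (g.Xs (i + 1)) (g.Us j (l + 1)) *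
      (dd v (g.Xs (i + 1)) (g.Us (j + 1) 0) * dd v (g.Xs (i + 1)) (g.Us (j + 1) 1))) := by
    have e : ∀ W : Pt f M, ∏ j', ∏ l', dd v W (g.Us j' l') =
        dd v W (g.Us j l) * dd v W (g.Us j (l + 1)) *
          (dd v W (g.Us (j + 1) 0) * dd v W (g.Us (j + 1) 1)) := fun W => by
      rw [du_prod (fun j' => ∏ l', dd v W (g.Us j' l')) j,
        du_prod (fun l' => dd v W (g.Us j l')) l, Fin.prod_univ_two]
    rw [GenD.Pr, du_prod (fun i' => ∏ j', ∏ l', dd v (g.Xs i') (g.Us j' l')) i, e, e]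
  refine ⟨fun h => lt_of_le_of_lt ?_ (j0 h), fun h U1 U2 hC => ?_⟩
  · rw [hP, mul_assoc, mul_assoc]
    exact mul_le_of_le_one_right' (mul_le_one' (hd.le _ _) (mul_le_one'
      (mul_le_one' (hd.le _ _) (hd.le _ _)) (mul_le_one' (mul_le_one' (hd.le _ _) (hd.le _ _))
        (mul_le_one' (hd.le _ _) (hd.le _ _)))))
  obtain ⟨-, ⟨nXY, nXA, -⟩, ⟨nXZ, nXC, nZC⟩, ⟨-, nYB, -⟩⟩ := hN
  obtain ⟨fB, cBX, cBA, cCY, cCA, cCB, cC1, cC2⟩ := hC
  have cst := hD.cst k φ hA.triv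
  have one : ∀ {P : Pt f M} {Q Q' : Pt f k}, dd v P (Q.map φ) < 1 → Q ≠ Q' →
      dd v P (Q'.map φ) = 1 := fun h h' => du_far hd h (cst _ _ h')
  have far : ∀ {P P' : Pt f M} {Q Q' : Pt f k}, dd v P (Q.map φ) < 1 → dd v P' (Q'.map φ) < 1 →
      Q ≠ Q' → dd v P P' = 1 := fun h h' h'' =>
    du_far hd h ((hd.symm _ _).trans (one h' h''.symm))
  have ane : ∀ {P Q : Pt f k}, P.a ≠ Q.a → P ≠ Q := fun h e => h (congrArg _ e)
  have fU : (p1.map φ).Fib (g.Ys (j + 1)) (g.Us (j + 1) 0) (g.Us (j + 1) 1) := ⟨_, _, g.hU _⟩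
  have k1 : ∀ W W', (p1.map φ).Fib (g.Ys (j + 1)) W W' →
      dd v (g.Xs i) W = 1 ∧ dd v (g.Xs (i + 1)) W = 1 := fun W W' hW => by
    constructor
    · refine du_far hd x0 ((hd.symm _ _).trans (du_d3 hd
        ((hn.same _ _ _ _ _ _ hW (hI.1.map φ)).symm.trans ?_)))
      rw [d3, one y1 cBX, one y1 (ane nYB).symm, one y1 cBA, one_mul, one_mul]
    · refine du_far hd x1 (le_antisymm (hd.le _ _) ?_)
      have h1 := hn.lip _ _ _ (κ.C.io.map φ) W (fB.map φ)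
      rw [← hn.same _ _ _ _ _ _ hW (fB.map φ), d3, cst _ _ cCB, cst _ _ cC1, cst _ _ cC2, one_mul,
        one_mul] at h1
      exact (le_max_iff.1 h1).resolve_left (not_le.2 (du_d3lt hd y1))
  have hPr : g.Pr v = ϖ := by
    rw [hP, j1 h, far x0 u1 (ane nXA), (k1 _ _ fU).1, (k1 _ _ fU.s23).1,
      far x1 u0 (ane (P := κ.C.io) nXC.symm), far x1 u1 cCA, (k1 _ _ fU).2, (k1 _ _ fU.s23).2]
    simp
  have ne1 : ∀ {P P' : Pt f M}, dd v P P' = 1 → P ≠ P' := fun h e => by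
    rw [(hd.zero _ _).2 e] at h
    exact zero_ne_one h
  have nXYs : ∀ i' j', g.Xs i' ≠ g.Ys j' := fun i' j' => by
    rcases du_two i i' with rfl | rfl <;> rcases du_two j j' with rfl | rfl
    · exact ne1 (far x0 y0 (ane nXY))
    · exact ne1 (far x0 y1 cBX.symm)
    · exact ne1 (far x1 y0 cCY)
    · exact ne1 (far x1 y1 cCB)
  have nXUs : ∀ i' j' l', g.Xs i' ≠ g.Us j' l' := fun i' j' l' e => by
    refine hA.ne (hPr.symm.trans ?_)
    exact Finset.prod_eq_zero (Finset.mem_univ i') (Finset.prod_eq_zero (Finset.mem_univ j')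
      (Finset.prod_eq_zero (Finset.mem_univ l') ((hd.zero _ _).2 e)))
  have z0 : dd v Z (κ.Z.map φ) < 1 := by
    rw [hA.dZ, if_pos rfl]
    exact hA.lt
  have nXZs : ∀ i', g.Xs i' ≠ Z := fun i' => by
    rcases du_two i i' with rfl | rfl
    · exact ne1 (far x0 z0 (ane nXZ))
    · exact ne1 (far x1 z0 (ane (P := κ.C.io) nZC.symm))
  refine ⟨hPr, Finset.prod_ne_zero_iff.2 fun i' _ => Finset.prod_ne_zero_iff.2 fun j' _ e => ?_,
    Finset.prod_ne_zero_iff.2 fun i' _ e => ?_⟩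
  · rcases du_mem (g.hU j') (sub_eq_zero.1 e ▸ g.ha i') with e' | e' | e'
    exacts [nXYs _ _ e', nXUs _ _ _ e', nXUs _ _ _ e']
  · rcases du_mem g.hY (sub_eq_zero.1 e ▸ g.hc i') with e' | e' | e'
    exacts [nXZs _ e', nXYs _ _ e', nXYs _ _ e']

end Pool.Agent.P.MP_9344a7_nt.Tor
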