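import Pool.Agent.P.MP_9344a7_nt.Tor.Iface

/-! Step ENA. -/

set_option autoImplicit false
set_option linter.unusedSectionVars false

namespace Pool.Agent.P.MP_9344a7_nt.Tor

open Polynomial WithZero
open Pool.Agent.P.MP_6f117a_ag (Place FF)
open Pool.Agent.P.MP_ab3ecb_nt.Inv (ord Dv dv deg SA LS)
open scoped Classical IntermediateField

/-- Admissible data in coordinates. -/
def ena_R {L : Type} [Field L] (f : L[X]) (a y : Fin 5 → L) : Prop :=
  (∀ j, y j ^ 2 = f.eval (a j)) ∧ (∀ j, y j ≠ (0 : ℤ)) ∧ (∀ i j, i ≠ j → a i ≠ a j) ∧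
    ∃ z : Fin 3 × Fin 4 → L,
      f = pol (fun i => z (1, i)) ^ 2 + pol (fun i => z (0, i)) * pol (fun i => z (2, i)) ∧
      RFib (pol fun i => z (0, i)) (pol fun i => z (1, i)) (pol fun i => z (2, i))
        ![a 0, a 0, a 1] ![y 0, y 0, y 1] ∧
      RFib (pol fun i => z (0, i)) (pol fun i => z (1, i)) (pol fun i => z (2, i))
        ![a 2, a 3, a 4] ![y 2, y 3, y 4]

lemma ena_vec {L : Type} [Field L] {f : L[X]} (P : Fin 5 → Pt f L) :
    ![(P 0).a, (P 1).a, (P 2).a, (P 3).a, (P 4).a] = fun j => (P j).a := by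
  funext j
  fin_cases j <;> rfl

lemma ena_of {L : Type} [Field L] {f : L[X]} (hf : f.natDegree ≤ 6) (P : Fin 5 → Pt f L)
    (h : Adm (P 0) (P 1) (P 2) (P 3) (P 4)) :
    (∀ j, (P j).b = 1) ∧ ena_R f (fun j => (P j).a) fun j => (P j).y := by
  have hok : ∀ j, (P j).Ok := by
    intro j
    obtain ⟨h0, h1, h2, h3, h4⟩ := h.ok
    fin_cases j <;> assumption
  have hb : ∀ j, (P j).b = 1 := fun j => (hok j).1
  refine ⟨hb, fun j => ?_, fun j => ?_, fun i j hij e => ?_, ?_⟩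
  · have := Pt.eq_aff hf (hb j)
    rwa [coe_aeval_eq_eval] at this
  · rw [Int.cast_zero]
    exact (hok j).2
  · have := h.ne
    rw [ena_vec] at this
    exact hij (this e)
  · obtain ⟨p, h1, h2⟩ := h.fib
    have hu := pol_coeff (n := 4) (Nat.lt_succ_of_le p.du)
    have hc := pol_coeff (n := 4) (Nat.lt_succ_of_le p.dc)
    have hw := pol_coeff (n := 4) (Nat.lt_succ_of_le p.dw)
    refine ⟨fun i => (![p.u, p.c, p.w] i.1).coeff i.2, ?_⟩
    change f = pol (fun i : Fin 4 => p.c.coeff i) ^ 2 +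
        pol (fun i : Fin 4 => p.u.coeff i) * pol (fun i : Fin 4 => p.w.coeff i) ∧
      RFib (pol fun i : Fin 4 => p.u.coeff i) (pol fun i : Fin 4 => p.c.coeff i)
        (pol fun i : Fin 4 => p.w.coeff i) _ _ ∧
      RFib (pol fun i : Fin 4 => p.u.coeff i) (pol fun i : Fin 4 => p.c.coeff i)
        (pol fun i : Fin 4 => p.w.coeff i) _ _
    rw [hu, hc, hw]
    refine ⟨?_, (fib_iff p (hb 0) (hb 0) (hb 1)).1 h1, (fib_iff p (hb 2) (hb 3) (hb 4)).1 h2⟩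
    have := p.eq
    rwa [Algebra.algebraMap_self, Polynomial.map_id] at this

lemma ena_to {L : Type} [Field L] {f : L[X]} (hf : f.natDegree ≤ 6) {a y : Fin 5 → L}
    (h : ena_R f a y) : ∃ P : Fin 5 → Pt f L, (∀ j, (P j).b = 1 ∧ (P j).a = a j ∧ (P j).y = y j) ∧
      Adm (P 0) (P 1) (P 2) (P 3) (P 4) := by
  obtain ⟨h1, h2, h3, z, h4, h5, h6⟩ := h
  have h1' : ∀ j, y j ^ 2 = aeval (a j) f := fun j => by rw [coe_aeval_eq_eval, h1 j]
  have h2' : ∀ j, y j ≠ 0 := fun j => by simpa using h2 j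
  let P : Fin 5 → Pt f L := fun j => Pt.mkA hf (a j) (y j) (h1' j)
  have hok : ∀ j, (P j).Ok := fun j => ⟨rfl, h2' j⟩
  refine ⟨P, fun j => ⟨rfl, rfl, rfl⟩, ⟨hok 0, hok 1, hok 2, hok 3, hok 4⟩, ?_, ?_⟩
  · rw [ena_vec]
    intro i j e
    by_contra hij
    exact h3 i j hij e
  · let p : Pen f L := ⟨pol fun i => z (0, i), pol fun i => z (1, i), pol fun i => z (2, i),
      pol_deg _, pol_deg _, pol_deg _, by rw [Algebra.algebraMap_self, Polynomial.map_id]; exact h4⟩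
    exact ⟨p, (fib_iff p rfl rfl rfl).2 h5, (fib_iff p rfl rfl rfl).2 h6⟩

/-- The coordinate form on the standard tuple. -/
def ena_S : Prd (Fin 7 ⊕ Fin 5 × Fin 2) := fun _ _ x =>
  ena_R (pol (x ∘ .inl)) (fun j => x (.inr (j, 0))) fun j => x (.inr (j, 1))

lemma ena_ex (E : S_EXF) (G : S_ENG) : ExF ena_S := by
  have hf : TmP (ι := Fin 7 ⊕ Fin 5 × Fin 2) fun L _ x => pol (x ∘ Sum.inl) :=
    E.ppol fun i => E.var _
  have hz : ∀ k : Fin 3, TmP (ι := (Fin 7 ⊕ Fin 5 × Fin 2) ⊕ Fin 3 × Fin 4) fun L _ x =>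
      pol fun i => x (.inr (k, i)) := fun k => E.ppol fun i => E.var _
  have hf' : TmP (ι := (Fin 7 ⊕ Fin 5 × Fin 2) ⊕ Fin 3 × Fin 4) fun L _ x =>
      pol (x ∘ Sum.inl ∘ Sum.inl) := E.ppol fun i => E.var _
  have hv : ∀ (i j k : Fin 5) (l : Fin 2) (m : Fin 3),
      Tm (ι := (Fin 7 ⊕ Fin 5 × Fin 2) ⊕ Fin 3 × Fin 4) fun L _ x =>
        ![x (.inl (.inr (i, l))), x (.inl (.inr (j, l))), x (.inl (.inr (k, l)))] m := by
    intro i j k l m
    fin_cases m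
    · exact E.var _
    · exact E.var _
    · exact E.var _
  have h4 := E.ex (E.and (E.peq hf' (E.padd (E.ppow 2 (hz 1)) (E.pmul (hz 0) (hz 2))))
    (E.and ((G _).2 _ _ _ _ _ (hz 0) (hz 1) (hz 2) (hv 0 0 1 0) (hv 0 0 1 1))
      ((G _).2 _ _ _ _ _ (hz 0) (hz 1) (hz 2) (hv 2 3 4 0) (hv 2 3 4 1))))
  have h1 := E.all fun j : Fin 5 =>
    E.eq (E.pow 2 (E.var (ι := Fin 7 ⊕ Fin 5 × Fin 2) (.inr (j, 1))))
      (E.eval hf (E.var (Sum.inr (j, 0))))
  have h2 := E.all fun j : Fin 5 =>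
    E.ne (E.var (ι := Fin 7 ⊕ Fin 5 × Fin 2) (.inr (j, 1))) (E.int 0)
  have h3 := E.all fun i : Fin 5 => E.all fun j : Fin 5 => E.imp (i ≠ j) fun _ =>
    E.ne (E.var (ι := Fin 7 ⊕ Fin 5 × Fin 2) (.inr (i, 0))) (E.var (Sum.inr (j, 0)))
  exact E.iff (E.and h1 (E.and h2 (E.and h3 h4))) fun L _ x => Iff.rfl

lemma ena_two (E : S_EXF) (G : S_ENG) : ExF HTwo := by
  have hf : TmP (ι := Fin 7 ⊕ Fin 2 × Fin 2) fun L _ x => pol (x ∘ Sum.inl) :=
    E.ppol fun i => E.var _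
  have h0 := (G (Fin 7 ⊕ Fin 2 × Fin 2)).1 (fun L _ x => x ∘ Sum.inl) fun i => E.var _
  have h1 := E.all fun j : Fin 2 =>
    E.eq (E.pow 2 (E.var (ι := Fin 7 ⊕ Fin 2 × Fin 2) (.inr (j, 1))))
      (E.eval hf (E.var (Sum.inr (j, 0))))
  have h2 := E.all fun j : Fin 2 =>
    E.ne (E.var (ι := Fin 7 ⊕ Fin 2 × Fin 2) (.inr (j, 1))) (E.int 0)
  have h3 := E.ne (E.var (ι := Fin 7 ⊕ Fin 2 × Fin 2) (.inr (0, 0))) (E.var (Sum.inr (1, 0)))
  refine E.iff (E.and h0 (E.and h1 (E.and h2 h3))) fun L _ x => and_congr_right fun _ => ?_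
  have hd : (pol (x ∘ Sum.inl)).natDegree ≤ 6 := pol_deg _
  constructor
  · rintro ⟨P, hP, o0, o1, hne⟩
    refine ⟨fun j => ?_, fun j => ?_, ?_⟩
    · have := Pt.eq_aff hd (hP j).1
      rwa [coe_aeval_eq_eval, (hP j).2.1, (hP j).2.2] at this
    · have : (P j).y ≠ 0 := by
        fin_cases j
        · exact o0.2
        · exact o1.2
      rwa [(hP j).2.2, ← Int.cast_zero] at this
    · rwa [(hP 0).2.1, (hP 1).2.1] at hne
  · rintro ⟨a1, a2, a3⟩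
    have a2' : ∀ j : Fin 2, x (.inr (j, 1)) ≠ 0 := fun j => by simpa using a2 j
    exact ⟨fun j => Pt.mkA hd (x (.inr (j, 0))) (x (.inr (j, 1)))
      (by rw [coe_aeval_eq_eval, a1 j]), fun j => ⟨rfl, rfl, rfl⟩, ⟨rfl, a2' 0⟩, ⟨rfl, a2' 1⟩, a3⟩

lemma ena_adm (E : S_EXF) (G : S_ENG) : ExF HAdm := by
  have h0 := (G (Fin 7 ⊕ Fin 5 × Fin 2)).1 (fun L _ x => x ∘ Sum.inl) fun i => E.var _
  refine E.iff (E.and h0 (ena_ex E G)) fun L _ x => and_congr_right fun _ => ?_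
  have hd : (pol (x ∘ Sum.inl)).natDegree ≤ 6 := pol_deg _
  constructor
  · rintro ⟨P, hP, h⟩
    have := (ena_of hd P h).2
    rwa [funext fun j => (hP j).2.1, funext fun j => (hP j).2.2] at this
  · exact fun h => ena_to hd h

/-- The standard tuple from the data of a neighbour and three ordinates. -/
def ena_idx : Fin 7 ⊕ Fin 5 × Fin 2 → ((Fin 7 ⊕ Fin 2 × Fin 2) ⊕ Fin 3) ⊕ Fin 3 :=
  Sum.elim (fun i => .inl (.inl (.inl i))) fun i =>
    ![![.inl (.inl (.inr (0, 0))), .inl (.inl (.inr (1, 0))), .inl (.inr 0), .inl (.inr 1),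
        .inl (.inr 2)],
      ![.inl (.inl (.inr (0, 1))), .inl (.inl (.inr (1, 1))), .inr 0, .inr 1, .inr 2]] i.2 i.1

lemma ena_nb (E : S_EXF) (G : S_ENG) : ExF SNb := by
  have h0 := E.ex (E.sub' (e := fun L _ x => x ∘ ena_idx) (ena_ex E G) fun j => E.var _)
  refine E.iff h0 fun L _ x => ?_
  have hd : (pol (x ∘ Sum.inl ∘ Sum.inl)).natDegree ≤ 6 := pol_deg _
  constructor
  · rintro ⟨P, p0, p1, h, e2, e3, e4⟩
    refine ⟨![(P 2).y, (P 3).y, (P 4).y], ?_⟩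
    have := (ena_of hd P h).2
    change ena_R (pol (x ∘ Sum.inl ∘ Sum.inl)) _ _
    convert this using 1
    · funext j
      fin_cases j
      · exact p0.2.1.symm
      · exact p1.2.1.symm
      · exact e2
      · exact e3
      · exact e4
    · funext j
      fin_cases j
      · exact p0.2.2.symm
      · exact p1.2.2.symm
      · rfl
      · rfl
      · rfl
  · rintro ⟨z, h⟩
    obtain ⟨P, hP, hA⟩ := ena_to hd h
    exact ⟨P, hP 0, hP 1, hA, (hP 2).2.1.symm, (hP 3).2.1.symm, (hP 4).2.1.symm⟩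

theorem p_ENA (hEXF : S_EXF) (hENG : S_ENG) :
    S_ENA :=
  ⟨ena_two hEXF hENG, ena_adm hEXF hENG, ena_nb hEXF hENG⟩

end Pool.Agent.P.MP_9344a7_nt.Tor
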