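import Pool.Agent.P.MP_9344a7_nt.Tor.Iface

/-! Step ENG. -/

set_option autoImplicit false
set_option linter.unusedSectionVars false

namespace Pool.Agent.P.MP_9344a7_nt.Tor

open Polynomial WithZero
open Pool.Agent.P.MP_6f117a_ag (Place FF)
open Pool.Agent.P.MP_ab3ecb_nt.Inv (ord Dv dv deg SA LS)
open scoped Classical IntermediateField

lemma eng_ren {ι κ L : Type} [Field L] (x : ι ⊕ κ → L) (p : MvPolynomial ι ℤ) :
    MvPolynomial.aeval x (MvPolynomial.rename Sum.inl p) =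
      MvPolynomial.aeval (x ∘ Sum.inl) p := MvPolynomial.aeval_rename _ _ _

lemma eng_tm {ι : Type} (κ : Type) {e : ∀ (L : Type) [Field L], (ι → L) → L} (h : Tm e) :
    Tm (ι := ι ⊕ κ) fun L _ x => e L (x ∘ Sum.inl) := by
  obtain ⟨p, hp⟩ := h
  exact ⟨MvPolynomial.rename Sum.inl p, fun L _ x => by rw [eng_ren]; exact hp L _⟩

lemma eng_tmp {ι : Type} (κ : Type) {e : ∀ (L : Type) [Field L], (ι → L) → L[X]} (h : TmP e) :
    TmP (ι := ι ⊕ κ) fun L _ x => e L (x ∘ Sum.inl) := by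
  obtain ⟨p, hp⟩ := h
  refine ⟨p.map (MvPolynomial.rename Sum.inl : MvPolynomial ι ℤ →ₐ[ℤ] MvPolynomial (ι ⊕ κ) ℤ),
    fun L _ x => ?_⟩
  rw [Polynomial.map_map]
  refine (hp L _).trans ?_
  congr 1
  exact RingHom.ext fun q => (eng_ren x q).symm

lemma eng_bez {L : Type} [Field L] {f : L[X]} (hs : f.Separable) (hd : f.natDegree = 6) :
    ∃ a b : L[X], a.natDegree < 7 ∧ b.natDegree < 7 ∧ a * f + b * derivative f = 1 := by
  obtain ⟨a0, b0, h⟩ := hs
  have hf : f ≠ 0 := by rintro rfl; simp at hd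
  have hb : (b0 % f).natDegree ≤ 6 :=
    hd ▸ natDegree_le_natDegree (EuclideanDomain.mod_lt b0 hf).le
  have e : (a0 + b0 / f * derivative f) * f + b0 % f * derivative f = 1 := by
    have := EuclideanDomain.div_add_mod b0 f
    linear_combination h + derivative f * this
  refine ⟨_, _, ?_, by omega, e⟩
  by_cases ha : a0 + b0 / f * derivative f = 0
  · rw [ha]; simp
  · have h1 := natDegree_mul ha hf
    have h2 : (a0 + b0 / f * derivative f) * f = 1 - b0 % f * derivative f := by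
      linear_combination e
    have h3 : (1 - b0 % f * derivative f).natDegree ≤ 12 := by
      refine (natDegree_sub_le _ _).trans (max_le (by simp) (natDegree_mul_le.trans ?_))
      have := natDegree_derivative_le f
      omega
    rw [h2] at h1
    omega

lemma eng_top {L : Type} [Field L] (e : Fin 7 → L) : (pol e).coeff 6 = e 6 := by
  simp [pol, Fin.sum_univ_succ, coeff_X_pow]

lemma eng_gd {L : Type} [Field L] (e : Fin 7 → L) : Gd (pol e) ↔
    ∃ z : Fin 7 ⊕ Fin 7 → L, e 6 ≠ ((0 : ℤ) : L) ∧ ((2 : ℤ) : L) ≠ ((0 : ℤ) : L) ∧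
      pol (z ∘ .inl) * pol e + pol (z ∘ .inr) * derivative (pol e) = C ((1 : ℤ) : L) := by
  simp only [Int.cast_zero, Int.cast_ofNat, Int.cast_one, C_1]
  constructor
  · rintro ⟨hs, hd, h2⟩
    obtain ⟨a, b, ha, hb, h⟩ := eng_bez hs hd
    refine ⟨Sum.elim (fun i => a.coeff i) fun i => b.coeff i, ?_, h2, ?_⟩
    · rw [← eng_top e, ← hd]
      exact leadingCoeff_ne_zero.2 (by rintro h0; rw [h0] at hd; simp at hd)
    · rw [Sum.elim_comp_inl, Sum.elim_comp_inr, pol_coeff ha, pol_coeff hb, h]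
  · rintro ⟨z, h6, h2, h⟩
    exact ⟨⟨_, _, h⟩, le_antisymm (pol_deg e) (le_natDegree_of_ne_zero (by rwa [eng_top])), h2⟩

theorem p_ENG (hEXF : S_EXF) :
    S_ENG := by
  have H : ExC := hEXF
  intro ι
  constructor
  · intro e he
    have pe := eng_tmp (Fin 7 ⊕ Fin 7) (H.ppol he)
    have p1 : TmP (ι := ι ⊕ (Fin 7 ⊕ Fin 7)) fun L _ x => pol fun i => x (.inr (.inl i)) :=
      H.ppol fun i => H.var _
    have p2 : TmP (ι := ι ⊕ (Fin 7 ⊕ Fin 7)) fun L _ x => pol fun i => x (.inr (.inr i)) :=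
      H.ppol fun i => H.var _
    refine H.iff (H.ex (H.and (H.ne (eng_tm _ (he 6)) (H.int 0)) (H.and (H.ne (H.int 2) (H.int 0))
      (H.peq (H.padd (H.pmul p1 pe) (H.pmul p2 (H.pder pe))) (H.pC (H.int 1)))))) ?_
    intro L _ x
    exact eng_gd (e L x)
  · intro u c w a y hu hc hw ha hy
    have u' := eng_tmp (Fin 3) hu
    have c' := eng_tmp (Fin 3) hc
    have w' := eng_tmp (Fin 3) hw
    have a' := fun i => eng_tm (Fin 3) (ha i)
    have y' := fun i => eng_tm (Fin 3) (hy i)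
    have v := fun i : Fin 3 => H.var (ι := ι ⊕ Fin 3) (.inr i)
    have l := fun i => H.psub H.pX (H.pC (a' i))
    refine H.iff (H.ex (H.and (H.ne (v 2) (H.int 0)) (H.and
      (H.peq (H.psub (H.psub (H.pmul (H.pC (H.pow 2 (v 0))) w')
        (H.pmul (H.pC (H.mul (H.mul (H.int 2) (v 0)) (v 1))) c'))
        (H.pmul (H.pC (H.pow 2 (v 1))) u'))
        (H.pmul (H.pmul (H.pmul (H.pC (v 2)) (l 0)) (l 1)) (l 2)))
      (H.all fun i => H.and
        (H.eq (H.mul (v 0) (H.sub (y' i) (H.eval c' (a' i)))) (H.mul (v 1) (H.eval u' (a' i))))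
        (H.eq (H.mul (v 1) (H.add (y' i) (H.eval c' (a' i))))
          (H.mul (v 0) (H.eval w' (a' i)))))))) ?_
    intro L _ x
    simp only [RFib, Sum.elim_comp_inl, Sum.elim_inr, Int.cast_zero, Int.cast_ofNat]
    exact ⟨fun ⟨s0, s1, t, h⟩ => ⟨![s0, s1, t], h⟩, fun ⟨z, h⟩ => ⟨z 0, z 1, z 2, h⟩⟩

end Pool.Agent.P.MP_9344a7_nt.Tor
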