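import Pool.Agent.P.MP_9344a7_nt.Tor.Iface

/-! Step EX. -/

set_option autoImplicit false
set_option linter.unusedSectionVars false

namespace Pool.Agent.P.MP_9344a7_nt.Tor

open Polynomial WithZero
open Pool.Agent.P.MP_6f117a_ag (Place FF)
open Pool.Agent.P.MP_ab3ecb_nt.Inv (ord Dv dv deg SA LS)
open scoped Classical IntermediateField

/-- The position of the variables of the certificate number `j`. -/
def ex_ix {n : ℕ} (j : Fin n) : (Fin 7 ⊕ Fin 3 × Fin 2) ⊕ Fin 2 ⊕ Fin 4 ⊕ Fin 10 × Fin 6 →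
    (Fin n × Option (Fin 7 ⊕ Fin 5 × Fin 2) ⊕ Fin n × (Fin 4 ⊕ Fin 10 × Fin 6)) ⊕ Unit :=
  Sum.elim (Sum.elim (fun i => .inl (.inl (j, some (.inl i))))
    fun i => .inl (.inl (j, some (.inr (i.1.castLE (by omega), i.2)))))
    (Sum.elim ![.inl (.inl (j, none)), .inr ()] fun i => .inl (.inr (j, i)))

lemma ex_up (hREB : S_REB) {K A : Type} [Field K] [Field A] [Algebra K A] {n : ℕ} (j : Fin n)
    (x : Fin n × Option (Fin 7 ⊕ Fin 5 × Fin 2) → K)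
    (P : Fin 5 → Pt (pol ((x ∘ fun i => (j, some i)) ∘ .inl)) K)
    (h : ∀ l, (P l).At fun i => x (j, some (.inr (l, i)))) (τ : A)
    (z : Fin n × (Fin 4 ⊕ Fin 10 × Fin 6) → A)
    (a : CertZ ((P 0).up A) ((P 1).up A) ((P 2).up A) (algebraMap K A (x (j, none))) τ
      fun i => z (j, i)) :
    SCert A (Sum.elim (Sum.elim (algebraMap K A ∘ x) z) (fun _ => τ) ∘ ex_ix j) := by
  have e : pol (algebraMap K A ∘ (x ∘ fun i => (j, some i)) ∘ Sum.inl) =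
      (pol ((x ∘ fun i => (j, some i)) ∘ .inl)).map (algebraMap K A) := (pol_map _ _).symm
  exact ⟨fun l => ((P (l.castLE (by omega))).up A).reb e, fun l =>
    ⟨(congrArg (algebraMap K A) (h _).1).trans (map_one _), congrArg (algebraMap K A) (h _).2.1,
      congrArg (algebraMap K A) (h _).2.2⟩, (hREB _ _ _ _ e _ _ _).2 _ _ _ a⟩

theorem p_EX (hEXF : S_EXF) (hENA : S_ENA) (hENC : S_ENC) (hMTA : S_MTA) (hLAU : S_LAU) (hREB : S_REB) (hEXA : S_EXA) :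
    S_EX := by
  intro n
  obtain ⟨C0, p0, h⟩ := hMTA (Fin n × Option (Fin 7 ⊕ Fin 5 × Fin 2))
    (Fin n × (Fin 4 ⊕ Fin 10 × Fin 6)) (fun L _ x => ∀ j, HAdm L (x ∘ fun i => (j, some i)))
    (fun L _ y => ∃ τ : Unit → L, ∀ j, SCert L (Sum.elim y τ ∘ ex_ix j))
    {i | ∃ j l, i = (j, some (.inr (l, 0)))}
    (hEXF.all fun j => hEXF.sub' hENA.2.1 fun i => hEXF.var (j, some i))
    (hEXF.ex (hEXF.all fun j => hEXF.sub' hENC fun i => hEXF.var (ex_ix j i)))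
    fun K _ _ x hx => by
    obtain ⟨v, hv⟩ := hLAU K two_ne_zero
    choose h1 P h2 h3 using hx
    choose z z1 z2 using fun j => hEXA K (AL K) (LaurentSeries K) _ v _ _ hv (h1 j) _ _ _ _ _
      (x (j, none)) (h3 j)
    refine ⟨fun i => z i.1 i.2, ⟨_, fun j => ex_up hREB j x (P j) (h2 j) _ _ (z1 j)⟩,
      fun i => (z2 i.1 i.2).imp_right fun ⟨l, e⟩ => ⟨_, ⟨i.1, l, rfl⟩, e.trans (congrArg _ ?_)⟩⟩
    refine Eq.trans ?_ (h2 i.1 l).2.1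
    fin_cases l <;> rfl
  refine ⟨C0, p0, fun F _ _ hp f hf Q X C R1 R2 γ B hB hQ hA => ?_⟩
  obtain ⟨c, rfl⟩ : ∃ c : Fin 7 → F, f = pol c := ⟨_, (pol_coeff (by rw [hf.deg]; omega)).symm⟩
  let T : Fin n → Fin 5 → Pt (pol c) F := fun j => ![Q, X j, C j, R1 j, R2 j]
  have hT : ∀ j l, (T j l).b = 1 ∧ (T j l).a ∉ B := fun j l => by
    obtain ⟨⟨⟨a1, a2, a3, a4, a5⟩, -, -⟩, b2, b3, b4, b5⟩ := hA j
    fin_cases l
    exacts [⟨a1.1, hQ⟩, ⟨a2.1, b2⟩, ⟨a3.1, b3⟩, ⟨a4.1, b4⟩, ⟨a5.1, b5⟩]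
  obtain ⟨z, ⟨τ, z1⟩, z2⟩ := h F hp (fun i => i.2.elim (γ i.1)
    (Sum.elim c fun w => ![(T i.1 w.1).a, (T i.1 w.1).y] w.2))
    (fun j => ⟨hf, T j, fun l => ⟨(hT j l).1, rfl, rfl⟩, (hA j).1⟩) B hB
  refine ⟨τ (), fun j => ⟨fun i => z (j, i), ?_, fun i => ?_⟩⟩
  · obtain ⟨P, a1, a2⟩ := z1 j
    have e : ∀ l : Fin 3, P l = T j (l.castLE (by omega)) := fun l =>
      Pt.ext (a1 l).2.1 ((a1 l).1.trans (hT j _).1.symm) (a1 l).2.2
    rw [e, e, e] at a2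
    exact a2
  · rcases z2 (j, i) with e | ⟨_, ⟨j', l, rfl⟩, e⟩
    · exact e
    · exact fun b => (hT j' l).2 ((show z (j, i) = (T j' l).a from e) ▸ b)

end Pool.Agent.P.MP_9344a7_nt.Tor
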