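import Pool.Agent.P.MP_9344a7_nt.Tor.Iface

/-! Step EXA. -/

set_option autoImplicit false
set_option linter.unusedSectionVars false

namespace Pool.Agent.P.MP_9344a7_nt.Tor

open Polynomial WithZero
open Pool.Agent.P.MP_6f117a_ag (Place FF)
open Pool.Agent.P.MP_ab3ecb_nt.Inv (ord Dv dv deg SA LS)
open scoped Classical IntermediateField

theorem exa_nr {K A Γ : Type} [Field K] [Field A] [Algebra K A]
    [LinearOrderedCommGroupWithZero Γ] {w : Valuation A Γ} {f : K[X]} {κ : Cfg f A}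
    {κ0 : Cfg f K} (h : κ.Nr w κ0) (i : Fin 6) : Nr w (κ.pt i) (κ0.pt i) := by
  obtain ⟨h0, h1, h2, h3, h4, h5⟩ := h
  fin_cases i
  exacts [h0, h1, h2, h3, h4, h5]

theorem exa_ok {K A : Type} [Field K] [Field A] [Algebra K A] {f : K[X]} {κ : Cfg f A}
    (h : κ.Ok) (i : Fin 6) : (κ.pt i).Ok := by
  obtain ⟨h0, h1, h2, h3, h4, h5⟩ := h
  fin_cases i
  exacts [h0, h1, h2, h3, h4, h5]

theorem p_EXA (hFB : S_FB) (hNRB : S_NRB) (hLIM : S_LIM) (hYB : S_YB) (hPRE : S_PRE) :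
    S_EXA := by
  intro K A M Γ _ _ _ _ _ _ _ _ _ v t f hA hf Q X C R1 R2 γ hAdm
  obtain ⟨oQ, oX, oC, oR1, oR2⟩ := hAdm.ok
  have nQX : Q.a ≠ X.a := hAdm.ne.ne (show (0 : Fin 5) ≠ 1 by decide)
  have nQC : Q.a ≠ C.a := hAdm.ne.ne (show (0 : Fin 5) ≠ 2 by decide)
  have nQ1 : Q.a ≠ R1.a := hAdm.ne.ne (show (0 : Fin 5) ≠ 3 by decide)
  have nQ2 : Q.a ≠ R2.a := hAdm.ne.ne (show (0 : Fin 5) ≠ 4 by decide)
  have nXC : X.a ≠ C.a := hAdm.ne.ne (show (1 : Fin 5) ≠ 2 by decide)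
  have nC1 : C.a ≠ R1.a := hAdm.ne.ne (show (2 : Fin 5) ≠ 3 by decide)
  have nC2 : C.a ≠ R2.a := hAdm.ne.ne (show (2 : Fin 5) ≠ 4 by decide)
  have n12 : R1.a ≠ R2.a := hAdm.ne.ne (show (3 : Fin 5) ≠ 4 by decide)
  have pne : ∀ {P P' : Pt f K}, P.a ≠ P'.a → P ≠ P' := fun h e => h (congrArg Pt.a e)
  obtain ⟨B, nB, eB⟩ := hYB K A M Γ v t f hA hf Q γ oQ
  obtain ⟨Y, nY, eY⟩ := hYB K A M Γ v t f hA hf Q (γ + ((X.a - Q.a)⁻¹ - (C.a - Q.a)⁻¹)) oQ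
  rw [map_add] at eY
  have hδ : ((X.a - Q.a)⁻¹ - (C.a - Q.a)⁻¹) * ((X.a - Q.a) * (C.a - Q.a)) = C.a - X.a := by
    have h1 := sub_ne_zero.2 nQX.symm
    have h2 := sub_ne_zero.2 nQC.symm
    field_simp
    ring
  have hδ0 : ((X.a - Q.a)⁻¹ - (C.a - Q.a)⁻¹) ≠ 0 := fun e =>
    sub_ne_zero.2 nXC.symm (by rw [← hδ, e, zero_mul])
  generalize (X.a - Q.a)⁻¹ - (C.a - Q.a)⁻¹ = δ at hδ hδ0 eY
  have hδ' := congrArg (algebraMap K A) hδ
  simp only [map_mul, map_sub] at hδ'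
  have nBq : B.a ≠ algebraMap K A Q.a := fun e => by simp [e] at eB
  have nYq : Y.a ≠ algebraMap K A Q.a := fun e => by simp [e] at eY
  have nYB : Y.a ≠ B.a := fun e => by
    rw [e] at eY
    have : (B.a - algebraMap K A Q.a) * algebraMap K A δ = 0 := by linear_combination eY - eB
    exact (mul_ne_zero (sub_ne_zero.2 nBq) ((_root_.map_ne_zero _).2 hδ0)) this
  obtain ⟨U1, U2, W1, W2, p1, p2, p3, κs, hP⟩ :=
    hPRE K A M Γ v t f hA hf Q X C R1 R2 Y B hAdm nY nB nYB nYq nBq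
  have hVS : VS (v.comap (algebraMap A M)) f := ⟨hf, fun c => by
    rw [Valuation.comap_apply, ← IsScalarTower.algebraMap_apply]
    exact hA.ana.triv c⟩
  have fin : ∀ (P : Pt f A) (P0 : Pt f K), v (algebraMap A M (P.a - algebraMap K A P0.a)) < 1 →
      Transcendental K P.a ∨ P.a = algebraMap K A P0.a := by
    intro P P0 h
    by_cases ha : IsAlgebraic K P.a
    · right
      apply (algebraMap A M).injective
      rw [map_sub, ← IsScalarTower.algebraMap_apply] at h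
      rw [← IsScalarTower.algebraMap_apply]
      exact hA.ana.cst _ _ ha.algebraMap h
    · exact Or.inl ha
  obtain ⟨N, NC⟩ := hNRB K A Γ _ f hVS
  have fin' : ∀ (P : Pt f A) (P0 : Pt f K), Nr (v.comap (algebraMap A M)) P P0 → P0.Ok →
      Transcendental K P.a ∨ P.a = algebraMap K A P0.a :=
    fun P P0 h h0 => fin P P0 (N.ok P P0 h h0).2.2.2.1
  generalize v.comap (algebraMap A M) = w at *
  obtain ⟨L1, L2⟩ := hLIM K K f hf Q X C R1 R2 hAdm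
  have uQ := N.up Q
  have uX := N.up X
  have uC := N.up C
  have uQi := N.io _ _ uQ
  have uCi := N.io _ _ uC
  obtain ⟨nU1, nU2, nW1, nW2⟩ := hP.nU
  have ne : ∀ {P P' : Pt f A} {S S' : Pt f K}, Nr w P S → Nr w P' S' → S ≠ S' → P ≠ P' :=
    fun h h' e => (N.ne _ _ _ _ h h' e).2
  have ane : ∀ {P P' : Pt f A} {S S' : Pt f K}, Nr w P S → Nr w P' S' → S.Ok → S'.Ok →
      S.a ≠ S'.a → P.a ≠ P'.a := fun h h' o o' e => (N.ane _ _ _ _ h h' o o' e).2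
  have ok : ∀ {P : Pt f A} {S : Pt f K}, Nr w P S → S.Ok → P.Ok := fun h o => (N.ok _ _ h o).1
  have oQi : Q.io.Ok := Pt.ok_io.2 oQ
  have oR2i : R2.io.Ok := Pt.ok_io.2 oR2
  have nQi : Q.io ≠ Q := (oQ.ne_io hf.two).symm
  have oks : ∀ j, (κs j).Ok := fun j => (NC _ _ (hP.nr j) (L1 j).1).1
  have m8 : Nr w (κs 8).X R1 ∧ Nr w (κs 8).Y R2 ∧ Nr w (κs 8).Z R2.io ∧ Nr w (κs 8).A C ∧
      Nr w (κs 8).B Q ∧ Nr w (κs 8).C Q := hP.nr 8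
  obtain ⟨mX, mY, mZ, mA, mB, mC⟩ := m8
  have mCi := N.io _ _ mC
  have nYZ : (κs 8).Y.a ≠ (κs 8).Z.a := fun e => by
    rcases Pt.eq_or_io e ((ok mY oR2).1.trans (ok mZ oR2i).1.symm) with h | h
    · exact ne mY mZ (oR2.ne_io hf.two) h
    · exact ((hFB K A f hf).nc _ _ _ _ (hP.ins 8).2.2).1 (by rw [h, Pt.io_io])
  refine ⟨_, ⟨Y, B, U1, U2, W1, W2, p1, p2, p3, κs, ⟨hP.in0, ⟨⟨ok uX oX, ok nY oQ, ok uQi oQi,
    ok uQ oQ, ok nB oQ, ok uC oC⟩, ⟨ane uX nY oX oQ nQX.symm, ane uX uQ oX oQ nQX.symm, nYq⟩,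
    ⟨ane uX uQi oX oQi nQX.symm, ane uX uC oX oC nXC, ane uQi uC oQi oC nQC⟩,
    ⟨nYq, nYB, nBq.symm⟩⟩, hP.ins, fun j => ⟨?_, ?_⟩, fun j => ?_, fun i j h1 h2 h3 => ?_⟩, ?_,
    ⟨hP.fU, ne nB uX (pne nQX), fun e => nBq (congrArg Pt.a e), ne uCi nY (pne nQC.symm),
      ne uCi uQ (pne nQC.symm), ne uCi nB (pne nQC.symm), ne uCi nU1 (pne nXC.symm),
      ne uCi nU2 (pne nQC.symm)⟩,
    ⟨oks 8, ⟨ane mX mY oR1 oR2 n12, ane mX mA oR1 oC nC1.symm, ane mY mA oR2 oC nC2.symm⟩,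
      ⟨ane mX mZ oR1 oR2i n12, ane mX mC oR1 oQ nQ1.symm, ane mZ mC oR2i oQ nQ2.symm⟩,
      ⟨nYZ, ane mY mB oR2 oQ nQ2.symm, ane mZ mB oR2i oQ nQ2.symm⟩⟩,
    (NC _ _ (hP.nr 8) (L1 8).1).2 (L1 8).2.1,
    ⟨hP.fW, ne mB mX (pne nQ1), ne mB mA (pne nQC), ne mCi mY (pne nQ2), ne mCi mA (pne nQC),
      ne mCi mB nQi, ne mCi nW1 (pne nQX), ne mCi nW2 nQi⟩, eB,
    ⟨(ok nU1 oX).1, (ok nU2 oQ).1, (ok nW1 oX).1, (ok nW2 oQ).1⟩,
    fun j i => (exa_ok (oks j) i).1, rfl⟩, ?_⟩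
  · exact ne (N.io _ _ (hP.nr j).1) (hP.nr j).2.2.2.2.2 (L1 j).2.2.1.1
  · exact ne (hP.nr j).2.1 (hP.nr j).2.2.2.2.1 (L1 j).2.2.1.2
  · exact ne (hP.nr j).2.2.1 uQi (L1 j).2.2.2.1
  · refine L2 i j ?_ ?_ ?_
    · by_contra e
      exact ne (hP.nr i).1 (hP.nr j).1 e h1
    · by_contra e
      exact ne (hP.nr i).2.1 (hP.nr j).2.1 e h2
    · by_contra e
      exact ne (hP.nr i).2.2.1 (hP.nr j).2.2.1 e h3
  · change (algebraMap K A X.a - algebraMap K A Q.a) * (Y.a - B.a) *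
      (algebraMap K A Q.a - algebraMap K A C.a) - (algebraMap K A X.a - algebraMap K A C.a) *
        (Y.a - algebraMap K A Q.a) * (algebraMap K A Q.a - B.a) = 0
    generalize algebraMap K A X.a = x, algebraMap K A Q.a = q, algebraMap K A C.a = c,
      algebraMap K A δ = d, algebraMap K A γ = g at *
    linear_combination ((x - q) * (q - c) * (B.a - q)) * eY - ((x - q) * (q - c) * (Y.a - q)) * eB +
      ((Y.a - q) * (B.a - q)) * hδ'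
  · rintro (i | ⟨j, i⟩)
    · fin_cases i
      · exact (fin' Y Q nY oQ).imp id fun h => ⟨0, h⟩
      · exact (fin' B Q nB oQ).imp id fun h => ⟨0, h⟩
      · exact (fin' U1 X nU1 oX).imp id fun h => ⟨1, h⟩
      · exact (fin' U2 Q nU2 oQ).imp id fun h => ⟨0, h⟩
    · obtain ⟨l, hl⟩ := (L1 j).2.2.2.2 i
      exact (fin' _ _ (exa_nr (hP.nr j) i) (exa_ok (L1 j).1 i)).imp id fun h => ⟨l, hl ▸ h⟩

end Pool.Agent.P.MP_9344a7_nt.Tor
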