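import Pool.Agent.P.MP_9344a7_nt.Tor.Iface

/-! Step EXT. -/

set_option autoImplicit false
set_option linter.unusedSectionVars false

namespace Pool.Agent.P.MP_9344a7_nt.Tor

open Polynomial WithZero
open Pool.Agent.P.MP_6f117a_ag (Place FF)
open Pool.Agent.P.MP_ab3ecb_nt.Inv (ord Dv dv deg SA LS)
open scoped Classical IntermediateField

theorem ext_dom {E M : Type} [Field E] [Field M] [Algebra E M] (w : Valuation E ℤᵐ⁰) :
    ∃ A : ValuationSubring M, (∀ z, w z ≤ 1 → A.valuation (algebraMap E M z) ≤ 1) ∧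
      ∀ z, w z < 1 → A.valuation (algebraMap E M z) < 1 := by
  obtain ⟨A, h, hl⟩ := IsLocalRing.exists_factor_valuationRing
    ((algebraMap E M).comp w.valuationSubring.subtype)
  have h1 : ∀ z, w z ≤ 1 → algebraMap E M z ∈ A := fun z hz => h ⟨z, hz⟩
  refine ⟨A, fun z hz => (A.valuation_le_one_iff _).2 (h1 z hz), fun z hz => ?_⟩
  refine lt_of_le_of_ne ((A.valuation_le_one_iff _).2 (h1 z hz.le)) fun e => ?_
  have hu : IsUnit (⟨algebraMap E M z, h1 z hz.le⟩ : A) := (A.valuation_eq_one_iff _).2 e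
  have hu2 : IsUnit (⟨z, hz.le⟩ : w.valuationSubring) := hl.map_nonunit ⟨z, hz.le⟩ hu
  obtain ⟨y, hy⟩ := hu2.exists_right_inv
  have hy1 : w (y : E) ≤ 1 := y.2
  have hy2 : z * (y : E) = 1 := congrArg Subtype.val hy
  have : w z * w (y : E) < 1 := mul_lt_one_of_nonneg_of_lt_one_left zero_le hz hy1
  rw [← map_mul, hy2, map_one] at this
  exact lt_irrefl _ this

theorem p_EXT :
    S_EXT := by
  intro k E M _ _ _ _ _ P
  obtain ⟨A, h1, h2⟩ := ext_dom (M := M) P.v
  obtain ⟨p, hp⟩ := P.surj (exp (-1))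
  have hp0 : p ≠ 0 := fun h => by simpa [h] using hp.symm
  have hq0 : A.valuation (algebraMap E M p) ≠ 0 := by simpa using hp0
  have hq1 : A.valuation (algebraMap E M p) < 1 := h2 p (by rw [hp, ← exp_zero, exp_lt_exp]; omega)
  have h3 : ∀ z, P.v z = 1 → A.valuation (algebraMap E M z) = 1 := fun z hz => by
    have hz0 : z ≠ 0 := fun h => by simp [h] at hz
    have a := h1 z hz.le
    have b := h1 z⁻¹ (by rw [map_inv₀, hz, inv_one])
    rw [map_inv₀, map_inv₀] at b
    have c : 0 < A.valuation (algebraMap E M z) := zero_lt_iff.2 (by simpa using hz0)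
    exact le_antisymm a ((inv_le_one₀ c).1 b)
  let t : A.ValueGroupˣ := (Units.mk0 _ hq0)⁻¹
  let θ : ℤᵐ⁰ →*₀ A.ValueGroup :=
    WithZero.lift' ((Units.coeHom A.ValueGroup).comp (zpowersHom A.ValueGroupˣ t))
  have hθ : ∀ n : ℤ, θ (exp n) = (A.valuation (algebraMap E M p))⁻¹ ^ n := fun n => by
    have : θ (exp n) = ((t ^ n : A.ValueGroupˣ) : A.ValueGroup) := rfl
    rw [this, Units.val_zpow_eq_zpow_val]
    simp [t]
  have ht : 1 < (A.valuation (algebraMap E M p))⁻¹ := (one_lt_inv₀ (zero_lt_iff.2 hq0)).2 hq1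
  refine ⟨A.ValueGroup, inferInstance, A.valuation, θ, fun a b hab => ?_, fun z => ?_⟩
  · have hb : b ≠ 0 := (zero_le.trans_lt hab).ne'
    rw [← exp_log hb] at hab ⊢
    rcases eq_or_ne a 0 with rfl | ha
    · rw [map_zero, hθ]
      exact zpow_pos (zero_lt_one.trans ht) _
    · rw [← exp_log ha] at hab ⊢
      rw [hθ, hθ]
      exact zpow_lt_zpow_right₀ ht (exp_lt_exp.1 hab)
  · rcases eq_or_ne z 0 with rfl | hz
    · simp
    have hv : P.v z ≠ 0 := by simpa using hz
    have e := h3 (z * p ^ log (P.v z)) (by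
      rw [map_mul, map_zpow₀, hp, ← exp_zsmul, smul_eq_mul, mul_neg, mul_one]
      nth_rewrite 1 [← exp_log hv]
      rw [← exp_add, add_neg_cancel, exp_zero])
    rw [map_mul, map_mul, map_zpow₀, map_zpow₀] at e
    conv_rhs => rw [← exp_log hv, hθ, inv_zpow]
    exact eq_inv_of_mul_eq_one_left e

end Pool.Agent.P.MP_9344a7_nt.Tor
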