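import Pool.Agent.P.MP_9344a7_nt.Tor.Iface

/-! Step FB. -/

set_option autoImplicit false
set_option linter.unusedSectionVars false

namespace Pool.Agent.P.MP_9344a7_nt.Tor

open Polynomial WithZero
open Pool.Agent.P.MP_6f117a_ag (Place FF)
open Pool.Agent.P.MP_ab3ecb_nt.Inv (ord Dv dv deg SA LS)
open scoped Classical IntermediateField

section aux

variable {k0 L : Type} [Field k0] [Field L] [Algebra k0 L] {f : k0[X]}

lemma fb_two (hf : Gd f) : (2 : L) ≠ 0 := by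
  rw [← map_ofNat (algebraMap k0 L) 2]
  exact (_root_.map_ne_zero _).2 hf.two

lemma fb_ns (hf : Gd f) (P : Pt f L) {r : L} (hr : r ≠ 0) {g : L[X]} (hg : g.natDegree ≤ 4) :
    C r * f.map (algebraMap k0 L) ≠ P.ell ^ 2 * g := by
  intro h
  rcases P.nf with hb | ⟨hb, ha⟩
  · rw [Pt.ell_aff hb] at h
    have hs : Squarefree (f.map (algebraMap k0 L)) := (hf.sep.map).squarefree
    have hd : (X - C P.a) * (X - C P.a) ∣ f.map (algebraMap k0 L) := by
      refine ⟨C r⁻¹ * g, ?_⟩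
      have e : C r⁻¹ * C r = (1 : L[X]) := by rw [← C_mul, inv_mul_cancel₀ hr, C_1]
      calc f.map (algebraMap k0 L) = C r⁻¹ * (C r * f.map (algebraMap k0 L)) := by
            rw [← mul_assoc, e, one_mul]
        _ = _ := by rw [h]; ring
    exact not_isUnit_X_sub_C P.a (hs _ hd)
  · have e : P.ell ^ 2 = 1 := by simp [Pt.ell, hb, ha]
    rw [e, one_mul] at h
    have h6 : (C r * f.map (algebraMap k0 L)).natDegree = 6 := by
      rw [natDegree_C_mul hr, natDegree_map, hf.deg]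
    rw [h] at h6
    omega

lemma fb_div (P : Pt f L) {p : L[X]} (hp : p.natDegree ≤ 3) (h : P.ev p = 0) :
    ∃ q : L[X], q.natDegree ≤ 2 ∧ p = P.ell * q := by
  rcases P.nf with hb | ⟨hb, ha⟩
  · rw [Pt.ev_aff hb hp] at h
    obtain ⟨q, hq⟩ := dvd_iff_isRoot.2 h
    refine ⟨q, ?_, by rw [Pt.ell_aff hb, hq]⟩
    rcases eq_or_ne q 0 with rfl | h0
    · simp
    · rw [hq, natDegree_mul (X_sub_C_ne_zero _) h0, natDegree_X_sub_C] at hp
      omega
  · rw [Pt.ev, ha, hb, hev_inf] at h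
    refine ⟨-p, ?_, by simp [Pt.ell, hb, ha]⟩
    rw [natDegree_neg]
    rw [natDegree_le_iff_coeff_eq_zero] at hp ⊢
    intro n hn
    rcases eq_or_ne n 3 with rfl | h3
    · exact h
    · exact hp n (by omega)

lemma fb_deg4 {a b : L[X]} (ha : a.natDegree ≤ 2) (hb : b.natDegree ≤ 2) :
    (a * b).natDegree ≤ 4 := natDegree_mul_le.trans (by omega)

lemma fb_nz (hf : Gd f) (p : Pen f L) (P : Pt f L) (h1 : P.ev p.u = 0) (h2 : P.y - P.ev p.c = 0)
    (h3 : P.y + P.ev p.c = 0) (h4 : P.ev p.w = 0) : False := by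
  have hc : P.ev p.c = 0 := by
    have : (2 : L) * P.ev p.c = 0 := by linear_combination h3 - h2
    exact (mul_eq_zero.1 this).resolve_left (fb_two hf)
  obtain ⟨u, du, hu⟩ := fb_div P p.du h1
  obtain ⟨c, dc, hc⟩ := fb_div P p.dc hc
  obtain ⟨w, dw, hw⟩ := fb_div P p.dw h4
  refine fb_ns hf P one_ne_zero (g := c * c + u * w)
    ((natDegree_add_le _ _).trans (max_le (fb_deg4 dc dc) (fb_deg4 du dw))) ?_
  rw [C_1, one_mul, p.eq, hu, hc, hw]
  ring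

lemma fb_br {P Q : Pt f L} (h : br Q P = 0) : Q.a = P.a ∧ Q.b = P.b := by
  unfold br at h
  rcases P.nf with hb | ⟨hb, ha⟩ <;> rcases Q.nf with hb' | ⟨hb', ha'⟩
  · rw [hb, hb', mul_one, mul_one, sub_eq_zero] at h
    exact ⟨h, hb'.trans hb.symm⟩
  · simp [hb, hb', ha'] at h
  · simp [hb, hb', ha] at h
  · exact ⟨ha'.trans ha.symm, hb'.trans hb.symm⟩

lemma fb_same {p : Pen f L} {s0 s1 : L} (hs : s0 ≠ 0 ∨ s1 ≠ 0) {P Q : Pt f L}
    (hP : p.On s0 s1 P) (hQ : p.On s0 s1 Q) (h : br Q P = 0) : Q = P := by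
  obtain ⟨ha, hb⟩ := fb_br h
  have hev : ∀ g : L[X], Q.ev g = P.ev g := fun g => by rw [Pt.ev, Pt.ev, ha, hb]
  obtain ⟨p1, p2⟩ := hP
  obtain ⟨q1, q2⟩ := hQ
  rw [hev, hev] at q1 q2
  refine Pt.ext ha hb ?_
  rcases hs with hs | hs
  · exact mul_left_cancel₀ hs (by linear_combination q1 - p1)
  · exact mul_left_cancel₀ hs (by linear_combination q2 - p2)

lemma fb_uniq (hf : Gd f) (p : Pen f L) (P : Pt f L) (s0 s1 t0 t1 : L) (hs : p.On s0 s1 P)
    (ht : p.On t0 t1 P) : s0 * t1 = s1 * t0 := by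
  by_contra h
  have hD : s0 * t1 - s1 * t0 ≠ 0 := sub_ne_zero.2 h
  obtain ⟨a1, a2⟩ := hs
  obtain ⟨b1, b2⟩ := ht
  refine fb_nz hf p P (mul_left_cancel₀ hD ?_) (mul_left_cancel₀ hD ?_) (mul_left_cancel₀ hD ?_)
    (mul_left_cancel₀ hD ?_)
  · linear_combination t0 * a1 - s0 * b1
  · linear_combination t1 * a1 - s1 * b1
  · linear_combination s0 * b2 - t0 * a2
  · linear_combination s1 * b2 - t1 * a2

lemma fb_scale {p : Pen f L} {s0 s1 μ : L} (hμ : μ ≠ 0) {P1 P2 P3 : Pt f L}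
    (h : p.FibS s0 s1 P1 P2 P3) : p.FibS (μ * s0) (μ * s1) P1 P2 P3 := by
  have ho : ∀ P : Pt f L, p.On s0 s1 P → p.On (μ * s0) (μ * s1) P := fun P hP =>
    ⟨by linear_combination μ * hP.1, by linear_combination μ * hP.2⟩
  obtain ⟨⟨t, h0, h1⟩, h2, h3, h4⟩ := h
  refine ⟨⟨μ ^ 2 * t, mul_ne_zero (pow_ne_zero _ hμ) h0, ?_⟩, ho _ h2, ho _ h3, ho _ h4⟩
  have : p.V (μ * s0) (μ * s1) = C (μ ^ 2) * p.V s0 s1 := by
    simp only [Pen.V, map_mul, map_pow]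
    ring
  rw [this, h1, C_mul]
  ring

lemma fb_re (hf : Gd f) (p : Pen f L) (s0 s1 t0 t1 : L) (P1 P2 P3 : Pt f L)
    (h : p.FibS s0 s1 P1 P2 P3) (ht : t0 ≠ 0 ∨ t1 ≠ 0) (h1 : p.On t0 t1 P1) :
    p.FibS t0 t1 P1 P2 P3 := by
  have hu := fb_uniq hf p P1 s0 s1 t0 t1 h.2.1 h1
  have key : ∃ μ, t0 = μ * s0 ∧ t1 = μ * s1 := by
    rcases h.ne with hs | hs
    · refine ⟨t0 / s0, by field_simp, ?_⟩
      field_simp
      linear_combination hu
    · refine ⟨t1 / s1, ?_, by field_simp⟩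
      field_simp
      linear_combination -hu
  obtain ⟨μ, rfl, rfl⟩ := key
  refine fb_scale ?_ h
  rintro rfl
  simp at ht

lemma fb_nc (hf : Gd f) {p : Pen f L} {s0 s1 : L} {P1 P2 P3 : Pt f L}
    (h : p.FibS s0 s1 P1 P2 P3) : P2 ≠ P1.io := by
  rintro rfl
  have hs := h.ne
  obtain ⟨⟨t, -, hV⟩, ⟨a1, a2⟩, ⟨b1, b2⟩, -⟩ := h
  simp only [Pt.io_y, Pt.io_ev, Pt.io_ell] at b1 b2 hV
  have hy : P1.y = 0 := by
    rcases hs with hs | hs
    · exact mul_left_cancel₀ (mul_ne_zero (fb_two hf) hs) (by linear_combination a1 - b1)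
    · exact mul_left_cancel₀ (mul_ne_zero (fb_two hf) hs) (by linear_combination a2 - b2)
  rw [hy] at a1 a2
  have d31 : ∀ g : L[X], g.natDegree ≤ 3 → (C t * g * P3.ell).natDegree ≤ 4 := fun g hg =>
    natDegree_mul_le.trans (by
      have := (natDegree_C_mul_le t g).trans hg
      have := P3.ell_deg
      omega)
  have hf' := p.eq
  unfold Pen.V at hV
  simp only [map_mul, map_pow, map_ofNat] at hV
  rcases hs with hs | hs
  · obtain ⟨A, dA, hA⟩ := fb_div P1 (p := C s0 * p.c + C s1 * p.u)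
      ((natDegree_add_le _ _).trans (max_le ((natDegree_C_mul_le _ _).trans p.dc)
        ((natDegree_C_mul_le _ _).trans p.du))) (by
        rw [Pt.ev, hev_add, hev_C_mul, hev_C_mul]
        unfold Pt.ev at a1
        linear_combination -a1)
    refine fb_ns hf P1 (pow_ne_zero 2 hs) (g := C t * p.u * P3.ell + A * A)
      ((natDegree_add_le _ _).trans (max_le (d31 _ p.du) (fb_deg4 dA dA))) ?_
    rw [hf', map_pow]
    linear_combination p.u * hV + (C s0 * p.c + C s1 * p.u + P1.ell * A) * hA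
  · obtain ⟨B, dB, hB⟩ := fb_div P1 (p := C s0 * p.w - C s1 * p.c)
      ((natDegree_sub_le _ _).trans (max_le ((natDegree_C_mul_le _ _).trans p.dw)
        ((natDegree_C_mul_le _ _).trans p.dc))) (by
        rw [Pt.ev, hev_sub, hev_C_mul, hev_C_mul]
        unfold Pt.ev at a2
        linear_combination -a2)
    refine fb_ns hf P1 (pow_ne_zero 2 hs) (g := B * B - C t * p.w * P3.ell)
      ((natDegree_sub_le _ _).trans (max_le (fb_deg4 dB dB) (d31 _ p.dw))) ?_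
    rw [hf', map_pow]
    linear_combination (C s0 * p.w - C s1 * p.c + P1.ell * B) * hB - p.w * hV

lemma fb_mem {p : Pen f L} {s0 s1 : L} {P1 P2 P3 Q : Pt f L} (h : p.FibS s0 s1 P1 P2 P3)
    (hQ : p.On s0 s1 Q) : Q = P1 ∨ Q = P2 ∨ Q = P3 := by
  have hs := h.ne
  obtain ⟨⟨t, h0, hV⟩, h1, h2, h3⟩ := h
  have e : Q.ev (p.V s0 s1) = 0 := by
    rw [Pen.ev_V]
    linear_combination s1 * hQ.1 - s0 * hQ.2
  rw [hV, ev_ell] at e
  simp only [mul_eq_zero, h0, false_or] at e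
  rcases e with (e | e) | e
  · exact .inl (fb_same hs h1 hQ e)
  · exact .inr (.inl (fb_same hs h2 hQ e))
  · exact .inr (.inr (fb_same hs h3 hQ e))

lemma fb_one {p : Pen f L} {s0 s1 : L} (hs : s0 ≠ 0 ∨ s1 ≠ 0) {t t' : L} (h0 : t' ≠ 0)
    {Q R : Pt f L} (hQ : p.On s0 s1 Q) (hR : p.On s0 s1 R) (h : C t * Q.ell = C t' * R.ell) :
    Q = R := by
  have e := congrArg (fun g => hev 1 g Q.a Q.b) h
  simp only [hev_C_mul, hev_ell] at e
  have e0 : br Q Q = 0 := sub_self _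
  rw [e0, mul_zero] at e
  exact fb_same hs hR hQ ((mul_eq_zero.1 e.symm).resolve_left h0)

lemma fb_un (hf : Gd f) (p : Pen f L) (P Q1 Q2 R1 R2 : Pt f L) (hQ : p.Fib P Q1 Q2)
    (hR : p.Fib P R1 R2) : (Q1 = R1 ∧ Q2 = R2) ∨ (Q1 = R2 ∧ Q2 = R1) := by
  obtain ⟨s0, s1, hQ⟩ := hQ
  obtain ⟨r0, r1, hR⟩ := hR
  have hs := hQ.ne
  have hR' := fb_re hf p r0 r1 s0 s1 P R1 R2 hR hs hQ.2.1
  obtain ⟨⟨t, -, hV⟩, -, q1, q2⟩ := hQ
  obtain ⟨⟨t', h0, hV'⟩, -, r1, r2⟩ := hR'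
  have h2 : C t * (Q1.ell * Q2.ell) = C t' * (R1.ell * R2.ell) :=
    mul_left_cancel₀ P.ell_ne (by linear_combination hV' - hV)
  have e := congrArg (fun g => hev (1 + 1) g Q1.a Q1.b) h2
  simp only [hev_C_mul, hev_mul (Pt.ell_deg _) (Pt.ell_deg _), hev_ell] at e
  have e0 : br Q1 Q1 = 0 := sub_self _
  rw [e0, zero_mul, mul_zero] at e
  rcases mul_eq_zero.1 ((mul_eq_zero.1 e.symm).resolve_left h0) with e | e
  · obtain rfl := fb_same hs r1 q1 e
    exact .inl ⟨rfl, fb_one hs h0 q2 r2 (t := t)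
      (mul_left_cancel₀ Q1.ell_ne (by linear_combination h2))⟩
  · obtain rfl := fb_same hs r2 q1 e
    exact .inr ⟨rfl, fb_one hs h0 q2 r1 (t := t)
      (mul_left_cancel₀ Q1.ell_ne (by linear_combination h2))⟩

end aux

theorem p_FB :
    S_FB := by
  intro k0 L _ _ _ f hf
  refine ⟨fun p P => ?_, fb_uniq hf, fb_re hf, fun p P1 P2 P3 ⟨s0, s1, h⟩ =>
    ⟨fb_nc hf h, fb_nc hf h.s23, fb_nc hf h.s12.s23⟩,
    fun p s0 s1 P1 P2 P3 Q h hQ => fb_mem h hQ, fb_un hf⟩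
  have he := p.ev_eq P
  by_cases h : P.ev p.u ≠ 0 ∨ P.y - P.ev p.c ≠ 0
  · exact ⟨_, _, h, by ring, by linear_combination he⟩
  · have h' : P.ev p.u = 0 ∧ P.y - P.ev p.c = 0 := by simpa [not_or] using h
    refine ⟨P.y + P.ev p.c, P.ev p.w, ?_, by linear_combination he, by ring⟩
    by_contra h2
    have h3 : P.y + P.ev p.c = 0 ∧ P.ev p.w = 0 := by simpa [not_or] using h2
    exact fb_nz hf p P h'.1 h'.2 h3.1 h3.2

end Pool.Agent.P.MP_9344a7_nt.Tor
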