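import Pool.Agent.P.MP_9344a7_nt.Tor.Iface

/-! Step FC. -/

set_option autoImplicit false
set_option linter.unusedSectionVars false

namespace Pool.Agent.P.MP_9344a7_nt.Tor

open Polynomial WithZero
open Pool.Agent.P.MP_6f117a_ag (Place FF)
open Pool.Agent.P.MP_ab3ecb_nt.Inv (ord Dv dv deg SA LS)
open scoped Classical IntermediateField

section aux

variable {k0 : Type} [Field k0] {f : k0[X]} {L : Type} [Field L] [Algebra k0 L]

lemma fc_sq (hf : Gd f) {g : L[X]} {t : L} (h : f.map (algebraMap k0 L) = C t * g ^ 2) :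
    False := by
  have h1 : IsUnit g := (hf.sep.map (f := algebraMap k0 L)).squarefree g ⟨C t, by rw [h]; ring⟩
  have h2 : (f.map (algebraMap k0 L)).natDegree = 6 := by rw [natDegree_map, hf.deg]
  have h3 := natDegree_C_mul_le t (g ^ 2)
  rw [← h, h2, natDegree_eq_zero_of_isUnit (h1.pow 2)] at h3
  omega

lemma fc_Vne (hf : Gd f) (p : Pen f L) {s0 s1 : L} (hs : s0 ≠ 0 ∨ s1 ≠ 0) : p.V s0 s1 ≠ 0 := by
  intro h
  unfold Pen.V at h
  by_cases h0 : s0 = 0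
  · have h1 : s1 ≠ 0 := hs.resolve_left (not_not.2 h0)
    have hu : p.u = 0 := by
      rw [h0] at h
      simpa [h1] using h
    exact fc_sq hf (g := p.c) (t := 1) (by rw [p.eq, hu]; simp)
  · refine fc_sq hf (g := C s0 * p.c + C s1 * p.u) (t := (s0 ^ 2)⁻¹) ?_
    have h2 : C ((s0 ^ 2)⁻¹) * C s0 ^ 2 = (1 : L[X]) := by
      rw [← C_pow, ← C_mul, inv_mul_cancel₀ (pow_ne_zero 2 h0), C_1]
    simp only [C_mul, C_pow, map_ofNat] at h
    rw [p.eq]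
    linear_combination (C ((s0 ^ 2)⁻¹) * p.u) * h - (p.c ^ 2 + p.u * p.w) * h2

lemma fc_fac {n : ℕ} {q : L[X]} (hq : q.natDegree ≤ n + 1) {a b : L}
    (hn : b = 1 ∨ (b = 0 ∧ a = 1)) (h : hev (n + 1) q a b = 0) :
    ∃ m : L[X], m.natDegree ≤ n ∧ q = (C b * X - C a) * m := by
  rcases hn with rfl | ⟨rfl, rfl⟩
  · rw [hev_aff hq] at h
    obtain ⟨m, hm⟩ := dvd_iff_isRoot.2 h
    refine ⟨m, ?_, by rw [hm]; simp⟩
    by_cases h0 : m = 0
    · simp [h0]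
    · rw [hm, natDegree_mul (X_sub_C_ne_zero a) h0, natDegree_X_sub_C] at hq
      omega
  · rw [hev_inf] at h
    refine ⟨-q, ?_, by simp⟩
    rw [natDegree_neg, natDegree_le_iff_coeff_eq_zero]
    intro N hN
    rcases Nat.lt_or_eq_of_le (Nat.succ_le_of_lt hN) with h1 | h1
    · exact coeff_eq_zero_of_natDegree_lt (lt_of_le_of_lt hq h1)
    · rw [← h1]
      exact h

lemma fc_root {n : ℕ} (hr : ∀ q : L[X], q.natDegree = n + 1 → ∃ a, q.eval a = 0) {q : L[X]}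
    (hq : q.natDegree ≤ n + 1) :
    ∃ a b : L, (b = 1 ∨ (b = 0 ∧ a = 1)) ∧ hev (n + 1) q a b = 0 := by
  by_cases h : q.coeff (n + 1) = 0
  · exact ⟨1, 0, Or.inr ⟨rfl, rfl⟩, by rw [hev_inf, h]⟩
  · obtain ⟨a, ha⟩ := hr q (natDegree_eq_of_le_of_coeff_ne_zero hq h)
    exact ⟨a, 1, Or.inl rfl, by rw [hev_aff hq, ha]⟩

lemma fc_pt (p : Pen f L) {s0 s1 : L} (hs : s0 ≠ 0 ∨ s1 ≠ 0) {a b : L}
    (hn : b = 1 ∨ (b = 0 ∧ a = 1)) (h : hev 3 (p.V s0 s1) a b = 0) :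
    ∃ P : Pt f L, P.a = a ∧ P.b = b ∧ p.On s0 s1 P := by
  have he : hev 6 (f.map (algebraMap k0 L)) a b =
      hev 3 p.c a b ^ 2 + hev 3 p.u a b * hev 3 p.w a b := by
    rw [p.eq, hev_add, sq p.c, show 6 = 3 + 3 from rfl, hev_mul p.dc p.dc, hev_mul p.du p.dw, sq]
  simp only [Pen.V, hev_sub, hev_C_mul] at h
  by_cases h0 : s0 = 0
  · have h1 : s1 ≠ 0 := hs.resolve_left (not_not.2 h0)
    have hu : hev 3 p.u a b = 0 := by
      rw [h0] at h
      simpa [h1] using h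
    refine ⟨⟨a, b, -hev 3 p.c a b, hn, by rw [he, hu]; ring⟩, rfl, rfl, ?_, ?_⟩
    · simp only [Pt.ev]
      rw [h0, hu]
      ring
    · simp only [Pt.ev]
      rw [h0]
      ring
  · have h2 : s0 * s0⁻¹ = 1 := mul_inv_cancel₀ h0
    refine ⟨⟨a, b, hev 3 p.c a b + s1 * s0⁻¹ * hev 3 p.u a b, hn, ?_⟩, rfl, rfl, ?_, ?_⟩
    · rw [he]
      field_simp
      linear_combination (-hev 3 p.u a b) * h
    · simp only [Pt.ev]
      field_simp
      ring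
    · simp only [Pt.ev]
      field_simp
      linear_combination -h

lemma fc_step (p : Pen f L) {s0 s1 : L} (hs : s0 ≠ 0 ∨ s1 ≠ 0) {j n : ℕ} (hjn : j + (n + 1) = 3)
    (hr : ∀ q : L[X], q.natDegree = n + 1 → ∃ a, q.eval a = 0) {r q : L[X]}
    (hrd : r.natDegree ≤ j) (hq : q.natDegree ≤ n + 1) (hV : p.V s0 s1 = r * q) :
    ∃ (P : Pt f L) (m : L[X]), p.On s0 s1 P ∧ m.natDegree ≤ n ∧ q = P.ell * m := by
  obtain ⟨a, b, hn, h⟩ := fc_root hr hq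
  obtain ⟨m, hm, hqm⟩ := fc_fac hq hn h
  obtain ⟨P, rfl, rfl, hP⟩ := fc_pt p hs hn (by rw [hV, ← hjn, hev_mul hrd hq, h, mul_zero])
  exact ⟨P, m, hP, hm, hqm⟩

lemma fc_one (q : L[X]) (h : q.natDegree = 0 + 1) : ∃ a, q.eval a = 0 :=
  exists_root_of_degree_eq_one ((degree_eq_iff_natDegree_eq_of_pos Nat.one_pos).2 h)

lemma fc_two (hf : Gd f) (hsq : ∀ z : L, IsSquare z) (q : L[X]) (h : q.natDegree = 1 + 1) :
    ∃ a, q.eval a = 0 := by
  have h3 : (2 : L) ≠ 0 := by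
    rw [← map_ofNat (algebraMap k0 L) 2]
    exact (_root_.map_ne_zero _).2 hf.two
  have : NeZero (2 : L) := ⟨h3⟩
  have h0 : q.coeff 2 ≠ 0 := by
    have h1 : q ≠ 0 := by
      rintro rfl
      simp at h
    have := leadingCoeff_ne_zero.2 h1
    rwa [leadingCoeff, h] at this
  obtain ⟨a, ha⟩ := exists_quadratic_eq_zero (b := q.coeff 1) (c := q.coeff 0) h0 (hsq _)
  refine ⟨a, ?_⟩
  rw [eval_eq_sum_range, h]
  simp only [Finset.sum_range_succ, Finset.sum_range_zero]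
  linear_combination ha

lemma fc_end (hf : Gd f) (p : Pen f L) {s0 s1 : L} (hs : s0 ≠ 0 ∨ s1 ≠ 0)
    (hr : ∀ q : L[X], q.natDegree = 1 + 1 → ∃ a, q.eval a = 0) {P : Pt f L} {m : L[X]}
    (hP : p.On s0 s1 P) (hm : m.natDegree ≤ 2) (hV : p.V s0 s1 = P.ell * m) :
    ∃ Q1 Q2, p.FibS s0 s1 P Q1 Q2 := by
  obtain ⟨Q1, m1, h1, hm1, e1⟩ := fc_step p hs (j := 1) (n := 1) rfl hr P.ell_deg hm hV
  obtain ⟨Q2, m2, h2, hm2, e2⟩ := fc_step p hs (j := 1 + 1) (n := 0) rfl fc_one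
    (natDegree_mul_le.trans (add_le_add P.ell_deg Q1.ell_deg)) hm1 (by rw [hV, e1, mul_assoc])
  have e3 := eq_C_of_natDegree_le_zero hm2
  have e4 : p.V s0 s1 = C (m2.coeff 0) * P.ell * Q1.ell * Q2.ell := by
    rw [hV, e1, e2, ← e3]
    ring
  refine ⟨Q1, Q2, ⟨m2.coeff 0, fun h => fc_Vne hf p hs ?_, e4⟩, hP, h1, h2⟩
  rw [e4, h]
  simp

end aux

theorem p_FC (hFB : S_FB) :
    S_FC := by
  intro k0 L _ _ _ f hf
  refine ⟨fun hsq p P => ?_, fun hc p s0 s1 hs => ?_, fun L' _ _ φ p P1 P2 P3 h => ?_⟩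
  · obtain ⟨s0, s1, hs, hP⟩ := (hFB k0 L f hf).on_ex p P
    have h0 : hev (2 + 1) (p.V s0 s1) P.a P.b = 0 := by
      have := p.ev_V s0 s1 P
      unfold Pt.ev at this
      rw [this]
      have h1 := hP.1
      have h2 := hP.2
      unfold Pt.ev at h1 h2
      linear_combination s1 * h1 - s0 * h2
    obtain ⟨m, hm, e⟩ := fc_fac (p.V_deg s0 s1) P.nf h0
    obtain ⟨Q1, Q2, h⟩ := fc_end hf p hs (fc_two hf hsq) hP hm e
    exact ⟨Q1, Q2, s0, s1, h⟩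
  · have hr : ∀ n, ∀ q : L[X], q.natDegree = n + 1 → ∃ a, q.eval a = 0 := fun n q h =>
      IsAlgClosed.exists_root q (by
        rw [(degree_eq_iff_natDegree_eq_of_pos (Nat.succ_pos n)).2 h]
        exact_mod_cast Nat.succ_ne_zero n)
    obtain ⟨P, m, hP, hm, e⟩ := fc_step p hs (j := 0) (n := 2) rfl (hr 2) (r := 1) (by simp)
      (p.V_deg s0 s1) (one_mul _).symm
    obtain ⟨Q1, Q2, h⟩ := fc_end hf p hs (hr 1) hP hm e
    exact ⟨P, Q1, Q2, h⟩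
  · obtain ⟨s0, s1, hs, hP⟩ := (hFB k0 L f hf).on_ex p P1
    obtain ⟨t0, t1, h⟩ := h
    obtain ⟨⟨t, ht, e⟩, -, h2, h3⟩ := (hFB k0 L' f hf).re _ t0 t1 (φ s0) (φ s1) _ _ _ h
      (hs.imp (_root_.map_ne_zero φ).2 (_root_.map_ne_zero φ).2) ((Pen.On.map φ).2 hP)
    have hg : P1.ell * P2.ell * P3.ell ≠ 0 :=
      mul_ne_zero (mul_ne_zero P1.ell_ne P2.ell_ne) P3.ell_ne
    have e1 : (p.V s0 s1).map (φ : L →+* L') =
        C t * (P1.ell * P2.ell * P3.ell).map (φ : L →+* L') := by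
      rw [← Pen.map_V, e, Pt.map_ell, Pt.map_ell, Pt.map_ell, Polynomial.map_mul,
        Polynomial.map_mul]
      ring
    generalize hG : P1.ell * P2.ell * P3.ell = g at hg e1
    have hl : g.coeff g.natDegree ≠ 0 := leadingCoeff_ne_zero.2 hg
    have e2 := congrArg (fun q => q.coeff g.natDegree) e1
    simp only [coeff_map, coeff_C_mul] at e2
    have e3 : (φ : L →+* L') ((p.V s0 s1).coeff g.natDegree / g.coeff g.natDegree) = t := by
      rw [map_div₀, e2, mul_div_assoc, div_self ((_root_.map_ne_zero _).2 hl), mul_one]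
    refine ⟨s0, s1, ⟨(p.V s0 s1).coeff g.natDegree / g.coeff g.natDegree, fun h0 => ht ?_, ?_⟩,
      hP, (Pen.On.map φ).1 h2, (Pen.On.map φ).1 h3⟩
    · rw [← e3, h0, map_zero]
    · rw [mul_assoc, mul_assoc, ← mul_assoc P1.ell, hG]
      refine Polynomial.map_injective (φ : L →+* L') (φ : L →+* L').injective ?_
      rw [Polynomial.map_mul, map_C, e3, e1]

end Pool.Agent.P.MP_9344a7_nt.Tor
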