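import Pool.Agent.P.MP_9344a7_nt.Tor.Iface

/-! Step FFX. -/

set_option autoImplicit false
set_option linter.unusedSectionVars false

namespace Pool.Agent.P.MP_9344a7_nt.Tor

open Polynomial WithZero
open Pool.Agent.P.MP_6f117a_ag (Place FF)
open Pool.Agent.P.MP_ab3ecb_nt.Inv (ord Dv dv deg SA LS)
open scoped Classical IntermediateField

theorem p_FFX :
    S_FFX := by
  intro k0 k _ _ _ f hf
  obtain ⟨x0, hx0⟩ : ∃ x0 : AlgebraicClosure (RatFunc k), Transcendental k x0 :=
    ⟨algebraMap (RatFunc k) _ RatFunc.X, (transcendental_algebraMap_iff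
      (algebraMap (RatFunc k) (AlgebraicClosure (RatFunc k))).injective).mpr
        RatFunc.transcendental_X⟩
  obtain ⟨y0, hy0⟩ := IsAlgClosed.exists_pow_nat_eq (aeval x0 (f.map (algebraMap k0 k))) two_pos
  let E := IntermediateField.adjoin k {x0, y0}
  let _ : Algebra k0 E := ((algebraMap k E).comp (algebraMap k0 k)).toAlgebra
  have : IsScalarTower k0 k E := IsScalarTower.of_algebraMap_eq fun _ => rfl
  have hx : x0 ∈ E := IntermediateField.subset_adjoin _ _ (by simp)
  have hy : y0 ∈ E := IntermediateField.subset_adjoin _ _ (by simp)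
  refine ⟨E, inferInstance, inferInstance, inferInstance, inferInstance, ⟨x0, hx⟩, ⟨y0, hy⟩, hf,
    fun h => hx0 (h.algHom E.val), ?_, ?_⟩
  · apply E.val.injective
    rw [← aeval_map_algebraMap k]
    change E.val (_ ^ 2) = E.val _
    rw [map_pow, ← aeval_algHom_apply]
    exact hy0
  · apply IntermediateField.map_injective E.val
    rw [IntermediateField.adjoin_map, ← AlgHom.fieldRange_eq_map, IntermediateField.fieldRange_val]
    simp only [Set.image_insert_eq, Set.image_singleton]
    rfl

end Pool.Agent.P.MP_9344a7_nt.Tor
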