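import Pool.Agent.P.MP_9344a7_nt.Tor.Base

/-!
The intermediate statements of the Torelli theorem over a finite field.
-/

namespace Pool.Agent.P.MP_9344a7_nt.Tor

open Polynomial WithZero
open Pool.Agent.P.MP_6f117a_ag (Place FF)
open Pool.Agent.P.MP_ab3ecb_nt.Inv (ord Dv dv deg SA LS)
open scoped Classical IntermediateField

/-! ### Fibres -/

-- deps:
def S_FB : Prop := ∀ (k0 L : Type) [Field k0] [Field L] [Algebra k0 L] (f : k0[X]), Gd f → FB f L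

-- deps: FB
def S_FC : Prop := ∀ (k0 L : Type) [Field k0] [Field L] [Algebra k0 L] (f : k0[X]), Gd f → FC f L

/-! ### Valued fields -/

-- deps:
def S_DA : Prop := ∀ (k0 L Γ : Type) [Field k0] [Field L] [Algebra k0 L]
  [LinearOrderedCommGroupWithZero Γ] (v : Valuation L Γ) (f : k0[X]), VS v f → DA v f

-- deps: DA
def S_DD : Prop := ∀ (k0 L Γ : Type) [Field k0] [Field L] [Algebra k0 L]
  [LinearOrderedCommGroupWithZero Γ] (v : Valuation L Γ) (f : k0[X]), VS v f → DD v f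

-- deps: DD FB
def S_RHO : Prop := ∀ (k0 L Γ : Type) [Field k0] [Field L] [Algebra k0 L]
  [LinearOrderedCommGroupWithZero Γ] (v : Valuation L Γ) (f : k0[X]), VS v f →
  ∀ p : Pen f L, p.Int v → RH v p

-- deps: DA
def S_GAU : Prop := ∀ (k0 L Γ : Type) [Field k0] [Field L] [Algebra k0 L]
  [LinearOrderedCommGroupWithZero Γ] (v : Valuation L Γ) (f : k0[X]), VS v f →
  ∀ p : Pen f L, p.Int v → ∀ (s0 s1 t : L) (P1 P2 P3 : Pt f L),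
  p.V s0 s1 = C t * P1.ell * P2.ell * P3.ell →
    v t * nm v P1 * nm v P2 * nm v P3 = max (v s0) (v s1) ^ 2

-- deps: DD RHO GAU
def S_CONJ : Prop := ∀ (k0 L Γ : Type) [Field k0] [Field L] [Algebra k0 L]
  [LinearOrderedCommGroupWithZero Γ] (v : Valuation L Γ) (f : k0[X]), VS v f →
  ∀ p : Pen f L, p.Int v → ∀ P1 P2 P3, p.Fib P1 P2 P3 → dd v P1 P2.io = 1

-- deps: DD RHO GAU CONJ
def S_NP : Prop := ∀ (k0 L Γ : Type) [Field k0] [Field L] [Algebra k0 L]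
  [LinearOrderedCommGroupWithZero Γ] (v : Valuation L Γ) (f : k0[X]), VS v f →
  ∀ p : Pen f L, p.Int v → ∀ s0 s1 P1 P2 P3, p.FibS s0 s1 P1 P2 P3 →
    ∀ X, rho v p s0 s1 X = d3 v X P1 P2 P3

-- deps: RHO CONJ NP
def S_SYM : Prop := ∀ (k0 L Γ : Type) [Field k0] [Field L] [Algebra k0 L]
  [LinearOrderedCommGroupWithZero Γ] (v : Valuation L Γ) (f : k0[X]), VS v f →
  ∀ p : Pen f L, p.Int v → NPs v p

-- deps: DD RHO GAU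
def S_SL : Prop := ∀ (k0 k L Γ : Type) [Field k0] [Field k] [Field L] [Algebra k0 k] [Algebra k0 L]
  [LinearOrderedCommGroupWithZero Γ] (v : Valuation L Γ) (f : k0[X]) (φ : k →ₐ[k0] L), Gd f →
  (∀ c, v (φ c) ≤ 1) → ∀ p : Pen f L, p.Int v → ∀ (Q1 Q2 Q3 : Pt f k) (P1 P2 P3 : Pt f L) (r : Γ),
  Q1.Ok → Q2.Ok → Q3.Ok → Q1.a ≠ Q2.a → Q1.a ≠ Q3.a → Q2.a ≠ Q3.a →
  p.Fib (Q1.map φ) (Q2.map φ) (Q3.map φ) → p.Fib P1 P2 P3 → r < 1 →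
  dd v P1 (Q1.map φ) ≤ r → dd v P2 (Q2.map φ) ≤ r → dd v P3 (Q3.map φ) ≤ r →
    v (φ ((Q1.a - Q3.a) / Q1.y) * (P1.a - φ Q1.a) +
      φ ((Q2.a - Q3.a) / Q2.y) * (P2.a - φ Q2.a)) ≤ r ^ 2

-- deps: DD
def S_PD : Prop := ∀ (k0 L Γ : Type) [Field k0] [Field L] [Algebra k0 L]
  [LinearOrderedCommGroupWithZero Γ] (v : Valuation L Γ) (f : k0[X]), VS v f →
  ∀ P1 P2 P3 : Pt f L, (∀ P ∈ [P1, P2, P3], P.b = 1 ∧ v P.a ≤ 1 ∧ v P.y = 1) →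
  dd v P2 P1.io = 1 → dd v P3 P1.io = 1 → dd v P3 P2.io = 1 →
    ∃ p : Pen f L, p.Int v ∧ p.FibS 0 1 P1 P2 P3

-- deps: DD PD
def S_PD0 : Prop := ∀ (k0 L : Type) [Field k0] [Field L] [Algebra k0 L] (f : k0[X]), Gd f →
  ∀ P1 P2 P3 : Pt f L, P1.Ok → P2.Ok → P3.Ok → NC3 P1 P2 P3 →
    ∃ p : Pen f L, p.FibS 0 1 P1 P2 P3

-- deps: DD SYM FB
def S_DN : Prop := ∀ (k0 k L Γ : Type) [Field k0] [Field k] [Field L] [Algebra k0 k] [Algebra k0 L]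
  [LinearOrderedCommGroupWithZero Γ] (v : Valuation L Γ) (f : k0[X]) (φ : k →ₐ[k0] L), Gd f →
  (∀ c, v (φ c) ≤ 1) → ∀ (p : Pen f k) (P0 Q1 Q2 : Pt f k) (P R1 R2 : Pt f L) (r : Γ),
  p.Fib P0 Q1 Q2 → Q1 ≠ Q2 → (p.map φ).Fib P R1 R2 → r < 1 → dd v P (P0.map φ) ≤ r →
    (dd v R1 (Q1.map φ) ≤ r ∧ dd v R2 (Q2.map φ) ≤ r) ∨
      (dd v R1 (Q2.map φ) ≤ r ∧ dd v R2 (Q1.map φ) ≤ r)

-- deps: DD
def S_NRB : Prop := ∀ (k0 L Γ : Type) [Field k0] [Field L] [Algebra k0 L]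
  [LinearOrderedCommGroupWithZero Γ] (v : Valuation L Γ) (f : k0[X]), VS v f → NB v f ∧
  ∀ (κ : Cfg f L) (κ0 : Cfg f k0), κ.Nr v κ0 → κ0.Ok → κ.Ok ∧ (κ0.J ≠ 0 → κ.J ≠ 0)

-- deps:
def S_DDM : Prop := ∀ (k0 L L' Γ Γ' : Type) [Field k0] [Field L] [Algebra k0 L] [Field L']
  [Algebra k0 L'] [LinearOrderedCommGroupWithZero Γ] [LinearOrderedCommGroupWithZero Γ']
  (w : Valuation L Γ) (v : Valuation L' Γ') (θ : Γ →*₀ Γ') (φ : L →ₐ[k0] L') (f : k0[X]),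
  Monotone θ → (∀ z, v (φ z) = θ (w z)) →
    ∀ P Q : Pt f L, dd v (P.map φ) (Q.map φ) = θ (dd w P Q)

/-! ### Places -/

-- deps:
def S_HF : Prop := ∀ (k0 k E : Type) [Field k0] [Field k] [Field E] [Algebra k0 k] [Algebra k E]
  [Algebra k0 E] [IsScalarTower k0 k E] (f : k0[X]) (x y : E), Hyp k f x y →
  FF k E ∧ Module.finrank k⟮x⟯ E = 2 ∧ (∃ ι : E ≃ₐ[k] E, ι x = x ∧ ι y = -y) ∧
    (∀ z : E, ∃ A B N : k[X], N ≠ 0 ∧ z * aeval x N = aeval x A + aeval x B * y) ∧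
    ∀ A B : k[X], aeval x A + aeval x B * y = 0 → A = 0 ∧ B = 0

-- deps: HF DD
def S_PL : Prop := ∀ (k0 k E : Type) [Field k0] [Field k] [Field E] [Algebra k0 k] [Algebra k E]
  [Algebra k0 E] [IsScalarTower k0 k E] [IsAlgClosed k] [FF k E] (f : k0[X]) (x y : E)
  (h : Hyp k f x y), ∃ pl, IsPl h pl

-- deps:
def S_NAT : Prop := ∀ (k0 k E : Type) [Field k0] [Field k] [Field E] [Algebra k0 k] [Algebra k E]
  [Algebra k0 E] [IsScalarTower k0 k E] (f : k0[X]) (x y : E) (h : Hyp k f x y) (pl), IsPl h pl →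
  ∀ (σ : SA k E) (τ : k →ₐ[k0] k), (∀ c, σ.s0 c = τ c) → σ.s x = x →
    (σ.s y = y → ∀ P, σ.pl (pl P) = pl (P.map τ)) ∧
    (σ.s y = -y → ∀ P, σ.pl (pl P) = pl (P.map τ).io)

-- deps: DD RHO NP
def S_DIV : Prop := ∀ (k0 k E : Type) [Field k0] [Field k] [Field E] [Algebra k0 k] [Algebra k E]
  [Algebra k0 E] [IsScalarTower k0 k E] [IsAlgClosed k] [FF k E] (f : k0[X]) (x y : E)
  (h : Hyp k f x y) (pl), IsPl h pl →
  (∃ I : Pt f k, I.b = 0) ∧ (∀ I P : Pt f k, I.b = 0 →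
    dv k (aeval x P.ell) = pd pl P + pd pl P.io - (pd pl I + pd pl I.io)) ∧
  ∀ (p : Pen f k) P1 P2 P3 Q1 Q2 Q3, p.Fib P1 P2 P3 → p.Fib Q1 Q2 Q3 →
    cls (pl P1) + cls (pl P2) + cls (pl P3) = cls (pl Q1) + cls (pl Q2) + cls (pl Q3)

-- deps: HF DD NAT DIV
def S_LK : Prop := ∀ (k0 k E : Type) [Field k0] [Field k] [Field E] [Algebra k0 k] [Algebra k E]
  [Algebra k0 E] [IsScalarTower k0 k E] [IsAlgClosed k] [FF k E] (f : k0[X]) (x y : E)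
  (h : Hyp k f x y) (pl), IsPl h pl → ∀ I : Pt f k, I.b = 0 →
  (∀ z, z ∈ LS (2 • (pd pl I + pd pl I.io)) ↔ ∃ A : k[X], A.natDegree ≤ 2 ∧ z = aeval x A) ∧
    ell (pd pl I + pd pl I.io) = 2

-- deps: FB FC DIV LK
def S_PICK : Prop := ∀ (k0 k E : Type) [Field k0] [Field k] [Field E] [Algebra k0 k] [Algebra k E]
  [Algebra k0 E] [IsScalarTower k0 k E] [IsAlgClosed k] [FF k E] (f : k0[X]) (x y : E)
  (h : Hyp k f x y) (pl), IsPl h pl → ∃ I : PicI f k (Pic k E), ∀ P, I.cl P = cls (pl P)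

-- deps:
def S_FFX : Prop := ∀ (k0 k : Type) [Field k0] [Field k] [Algebra k0 k] (f : k0[X]), Gd f →
  ∃ (E : Type) (_ : Field E) (_ : Algebra k E) (_ : Algebra k0 E) (_ : IsScalarTower k0 k E)
    (x y : E), Hyp k f x y

-- deps: FC
def S_COM : Prop := ∀ (k0 L L' G : Type) [Field k0] [Field L] [Algebra k0 L] [Field L']
  [Algebra k0 L'] [AddCommGroup G] (f : k0[X]), Gd f → ∀ (φ : L →ₐ[k0] L') (I : PicI f L' G)
  (H : AddSubgroup G), I.K ∈ H → (∀ P : Pt f L, I.cl (P.map φ) ∈ H) →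
    ∃ I' : PicI f L H, (∀ P, (I'.cl P : G) = I.cl (P.map φ)) ∧ (I'.K : G) = I.K ∧ (I.Det → I'.Det)

-- deps: FFX HF PL PICK COM
def S_PIC : Prop := ∀ (k0 L : Type) [Field k0] [Field L] [Algebra k0 L] (f : k0[X]), Gd f →
  ∃ (G : Type) (_ : AddCommGroup G), Nonempty (PicI f L G)

/-! ### The detection lemma -/

-- deps:
def S_EXT : Prop := ∀ (k E M : Type) [Field k] [Field E] [Field M] [Algebra k E] [Algebra E M]
  (P : Place k E), ∃ (Γ : Type) (_ : LinearOrderedCommGroupWithZero Γ) (v : Valuation M Γ)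
    (θ : ℤᵐ⁰ →*₀ Γ), StrictMono θ ∧ ∀ z, v (algebraMap E M z) = θ (P.v z)

-- deps: FB FC
def S_GD : Prop := ∀ (k0 k E : Type) [Field k0] [Field k] [Field E] [Algebra k0 k] [Algebra k E]
  [Algebra k0 E] [IsScalarTower k0 k E] [IsAlgClosed k] (f : k0[X]) (x y : E) (h : Hyp k f x y)
  (p1 p2 p3 : Pen f k), ∃ (M : Type) (_ : Field M) (_ : Algebra E M) (_ : Algebra k0 M)
    (_ : IsScalarTower k0 E M)
    (g : GenD ((IsScalarTower.toAlgHom k0 E M).comp (IsScalarTower.toAlgHom k0 k E)) p1 p2 p3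
      (h.Z.map (IsScalarTower.toAlgHom k0 E M))) (G H : E),
      algebraMap E M G = g.G ∧ algebraMap E M H = g.H

-- deps: DD SYM
def S_DF : Prop := ∀ (k0 k M Γ : Type) [Field k0] [Field k] [Field M] [Algebra k0 k] [Algebra k0 M]
  [LinearOrderedCommGroupWithZero Γ] (v : Valuation M Γ) (f : k0[X]) (φ : k →ₐ[k0] M)
  (p1 p2 p3 : Pen f k) (Z : Pt f M) (Z0 : Pt f k) (ϖ : Γ) (e : CstD p1 p2 p3)
  (g : GenD φ p1 p2 p3 Z), Abv v φ Z Z0 ϖ → g.Pr v ≤ 1 ∧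
    v g.G * ϖ ^ (2 * (cnt (Function.uncurry e.t21) Z0 + cnt (Function.uncurry e.t31) Z0)) =
      v g.H * ϖ ^ (cnt (Function.uncurry e.t23) Z0 + 2 * cnt e.e3 Z0) * g.Pr v

-- deps: DD SYM DN
def S_DL : Prop := ∀ (k0 k M Γ : Type) [Field k0] [Field k] [Field M] [Algebra k0 k] [Algebra k0 M]
  [LinearOrderedCommGroupWithZero Γ] (v : Valuation M Γ) (f : k0[X]) (φ : k →ₐ[k0] M)
  (p1 p2 p3 : Pen f k) (Z : Pt f M) (Z0 : Pt f k) (ϖ : Γ) (g : GenD φ p1 p2 p3 Z),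
  Abv v φ Z Z0 ϖ → ∀ (s : Finset (Fin 10)) (κs : Fin 10 → Cfg f k),
  (∀ j ∈ s, (κs j).In p1 p2 p3 ∧ (κs j).Ur ∧ (κs j).Z = Z0) →
  (∀ i ∈ s, ∀ j ∈ s, (κs i).X = (κs j).X → (κs i).Y = (κs j).Y → i = j) → g.Pr v ≤ ϖ ^ s.card

-- deps: DD DN SL
def S_DS : Prop := ∀ (k0 k M Γ : Type) [Field k0] [Field k] [Field M] [Algebra k0 k] [Algebra k0 M]
  [LinearOrderedCommGroupWithZero Γ] (v : Valuation M Γ) (f : k0[X]) (φ : k →ₐ[k0] M)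
  (p1 p2 p3 : Pen f k) (Z : Pt f M) (ϖ : Γ) (g : GenD φ p1 p2 p3 Z) (κ : Cfg f k),
  Abv v φ Z κ.Z ϖ → κ.In p1 p2 p3 → κ.Nd → ∃ i j l : Fin 2,
    dd v (g.Xs i) (κ.X.map φ) < 1 ∧ dd v (g.Xs (i + 1)) (κ.C.io.map φ) < 1 ∧
    dd v (g.Ys j) (κ.Y.map φ) < 1 ∧ dd v (g.Ys (j + 1)) (κ.B.map φ) < 1 ∧
    dd v (g.Us j l) (κ.X.map φ) < 1 ∧ dd v (g.Us j (l + 1)) (κ.A.map φ) < 1 ∧
    (κ.J = 0 → dd v (g.Xs i) (g.Us j l) < ϖ) ∧ (κ.J ≠ 0 → dd v (g.Xs i) (g.Us j l) = ϖ)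

-- deps: DD SYM DS
def S_DU : Prop := ∀ (k0 k M Γ : Type) [Field k0] [Field k] [Field M] [Algebra k0 k] [Algebra k0 M]
  [LinearOrderedCommGroupWithZero Γ] (v : Valuation M Γ) (f : k0[X]) (φ : k →ₐ[k0] M)
  (p1 p2 p3 : Pen f k) (Z : Pt f M) (ϖ : Γ) (g : GenD φ p1 p2 p3 Z) (κ : Cfg f k),
  Abv v φ Z κ.Z ϖ → κ.In p1 p2 p3 → κ.Nd → (κ.J = 0 → g.Pr v < ϖ) ∧
    (κ.J ≠ 0 → ∀ U1 U2, κ.Cl p1 U1 U2 → g.Pr v = ϖ ∧ g.G ≠ 0 ∧ g.H ≠ 0)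

-- deps: FC EXT DDM GD DF DL DU
def S_DE : Prop := ∀ (k0 k E : Type) [Field k0] [Field k] [Field E] [Algebra k0 k] [Algebra k E]
  [Algebra k0 E] [IsScalarTower k0 k E] [IsAlgClosed k] [FF k E] (f : k0[X]) (x y : E)
  (h : Hyp k f x y) (pl), IsPl h pl → ∀ I : PicI f k (Pic k E), (∀ P, I.cl P = cls (pl P)) → I.DE

-- deps:
def S_DET : Prop := ∀ (k0 L G : Type) [Field k0] [Field L] [Algebra k0 L] [AddCommGroup G]
  (f : k0[X]) (I : PicI f L G), I.DE → I.Det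

/-! ### Transfer to finite fields -/

-- imports: Pool.Agent.P.MP_9344a7_nt.Lwm
-- deps:
def S_LWQ : Prop := ∀ n : ℕ, ∃ C0 p0 : ℕ, ∀ (κ : Type) [Field κ] [Finite κ] (Ψ : κ[X][X]),
  p0 < ringChar κ → Ψ.Monic → Ψ.natDegree ≤ n → (∀ i, (Ψ.coeff i).natDegree ≤ n) →
  Irreducible (Ψ.map (mapRingHom (algebraMap κ (AlgebraicClosure κ)))) →
    Nat.card κ ≤ C0 * {a : κ | ∃ b, Ψ.evalEval a b = 0 ∧ (derivative Ψ).evalEval a b ≠ 0}.ncard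

-- imports: Pool.Agent.P.MP_9344a7_nt.Lwm
-- deps:
def S_PTS : Prop := ∃ p0 : ℕ, ∀ (F : Type) [Field F] [Finite F] (f : F[X]) (ε : F),
  p0 < ringChar F → Squarefree f → f.natDegree ≠ 0 → f.natDegree ≤ 6 → ε ≠ 0 →
    3 * Nat.card F ≤ 2 * (3 + 1) * {a : F | ∃ b, b ≠ 0 ∧ b ^ 2 = ε * f.eval a}.ncard

-- deps:
def S_UP : Prop := ∀ (F : ℕ → Type) [∀ n, Field (F n)] (U : Ultrafilter ℕ),
  ∃ (K : Type) (_ : Field K) (π : (∀ n, F n) →+* K), IsUP U π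

-- deps: UP
def S_AIR : Prop := ∀ (F : ℕ → Type) [∀ n, Field (F n)] (U : Ultrafilter ℕ) (K : Type) [Field K]
  (π : (∀ n, F n) →+* K), IsUP U π → ∀ Ψ : (∀ n, F n)[X][X], Ψ.Monic →
  (∀ (Ω : Type) [Field Ω] (ρ : K →+* Ω), Irreducible (Ψ.map (mapRingHom (ρ.comp π)))) →
    ∀ᶠ n in U, Irreducible ((Ψ.map (mapRingHom (Pi.evalRingHom F n))).map
      (mapRingHom (algebraMap (F n) (AlgebraicClosure (F n)))))

-- deps:
def S_IRR : Prop := ∀ (K : Type) [Field K] (θ : LaurentSeries K) (Ψ : K[X][X]), Ψ.Monic →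
  0 < Ψ.natDegree → aevalAeval (tL K) θ Ψ = 0 →
  (∀ G : K[X][X], G.natDegree < Ψ.natDegree → aevalAeval (tL K) θ G = 0 → G = 0) →
    ∀ (Ω : Type) [Field Ω] (ρ : K →+* Ω), Irreducible (Ψ.map (mapRingHom ρ))

-- deps: IRR
def S_REG : Prop := ∀ (K κ : Type) [Field K] [CharZero K] [Finite κ] (z : κ → AL K),
  ∃ (Ψ : K[X][X]) (b : K[X]), Ψ.Monic ∧ b ≠ 0 ∧
    (∀ (Ω : Type) [Field Ω] (ρ : K →+* Ω), Irreducible (Ψ.map (mapRingHom ρ))) ∧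
    ∀ a θ : K, Ψ.evalEval a θ = 0 → b.eval a ≠ 0 → ∃ w : κ → K,
      ∀ p : MvPolynomial (Option κ) K, MvPolynomial.aeval (fun o => o.elim (tA K) z) p = 0 →
        MvPolynomial.aeval (fun o => o.elim a w) p = 0

-- deps:
def S_PJ : Prop := ∀ (K : Type) [Field K] (z : AL K), Transcendental K z →
  ∃ (P : K[X][X]) (a : ℕ → K[X]), aevalAeval z (tA K) P = 0 ∧
    ∑ i ∈ Finset.range (P.natDegree + 1), a i * P.coeff i = 1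

-- deps: UP AIR LWQ
def S_PAC : Prop := ∀ (F : ℕ → Type) [∀ n, Field (F n)] [∀ n, Fintype (F n)] (U : Ultrafilter ℕ)
  (K : Type) [Field K] (π : (∀ n, F n) →+* K), IsUP U π → (U : Filter ℕ) ≤ Filter.atTop →
  (∀ n, n < ringChar (F n)) → ∀ B : ∀ n, Finset (F n),
  (∀ n, (B n).card * n ≤ Fintype.card (F n)) → ∀ (Ψ : K[X][X]) (b : K[X]), Ψ.Monic → b ≠ 0 →
  (∀ (Ω : Type) [Field Ω] (ρ : K →+* Ω), Irreducible (Ψ.map (mapRingHom ρ))) →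
  ∀ (κ : Type) [Finite κ] (P : κ → K[X][X]), (∀ j, ∃ a : ℕ → K[X],
    ∑ i ∈ Finset.range ((P j).natDegree + 1), a i * (P j).coeff i = 1) →
    ∃ a θ : K, Ψ.evalEval a θ = 0 ∧ b.eval a ≠ 0 ∧
      ∀ j (ζ : ∀ n, F n), (P j).evalEval (π ζ) a = 0 → ∀ᶠ n in U, ζ n ∉ B n

-- deps: UP REG PJ PAC
def S_MTA : Prop := ∀ (ι κ : Type) [Finite ι] [Finite κ] (H : Prd ι) (S : Prd (ι ⊕ κ))
  (Al : Set ι), ExF H → ExF S →
  (∀ (K : Type) [Field K] [CharZero K] (x : ι → K), H K x → ∃ z : κ → AL K,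
    S (AL K) (Sum.elim (algebraMap K (AL K) ∘ x) z) ∧
      ∀ j, Transcendental K (z j) ∨ ∃ i ∈ Al, z j = algebraMap K (AL K) (x i)) →
  ∃ C0 p0 : ℕ, ∀ (F : Type) [Field F] [Fintype F], p0 < ringChar F → ∀ x : ι → F, H F x →
    ∀ B : Finset F, B.card * C0 ≤ Fintype.card F →
      ∃ z : κ → F, S F (Sum.elim x z) ∧ ∀ j, z j ∉ B ∨ ∃ i ∈ Al, z j = x i

-- deps:
def S_EXF : Prop := ExC

-- deps: EXF
def S_ENG : Prop := ∀ ι : Type, (∀ e : ∀ (L : Type) [Field L], (ι → L) → Fin 7 → L,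
    (∀ i, Tm fun L _ x => e L x i) → ExF fun L _ x => Gd (pol (e L x))) ∧
  ∀ (u c w : ∀ (L : Type) [Field L], (ι → L) → L[X])
    (a y : ∀ (L : Type) [Field L], (ι → L) → Fin 3 → L), TmP u → TmP c → TmP w →
    (∀ i, Tm fun L _ x => a L x i) → (∀ i, Tm fun L _ x => y L x i) →
    ExF fun L _ x => RFib (u L x) (c L x) (w L x) (a L x) (y L x)

-- deps: EXF ENG
def S_ENA : Prop := ExF HTwo ∧ ExF HAdm ∧ ExF SNb

-- deps: EXF ENG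
def S_ENC : Prop := ExF SCert

-- deps:
def S_REB : Prop := ∀ (k0 L : Type) [Field k0] [Field L] [Algebra k0 L] (f : k0[X]) (g : L[X])
  (h : g = f.map (algebraMap k0 L)) (Q X C : Pt f L),
  (∀ R1 R2, Adm Q X C R1 R2 → Adm (Q.reb h) (X.reb h) (C.reb h) (R1.reb h) (R2.reb h)) ∧
    ∀ γ τ z, CertZ Q X C γ τ z → CertZ (Q.reb h) (X.reb h) (C.reb h) γ τ z

/-! ### Lifting the limit points -/

-- deps:
def S_LAU : Prop := ∀ (K : Type) [Field K], (2 : K) ≠ 0 →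
  ∃ v : Valuation (LaurentSeries K) ℤᵐ⁰, AA K v (tA K)

-- deps: FB PD0
def S_NC : Prop := ∀ (k0 L G : Type) [Field k0] [Field L] [Algebra k0 L] [AddCommGroup G]
  (f : k0[X]), Gd f → ∀ (I : PicI f L G) (P1 P2 P3 Q1 Q2 Q3 : Pt f L), P1.Ok → P2.Ok → P3.Ok →
  NC3 P1 P2 P3 → I.cl Q1 + I.cl Q2 + I.cl Q3 = I.cl P1 + I.cl P2 + I.cl P3 → NC3 Q1 Q2 Q3

-- deps: FB DD NRB PD
def S_SPL : Prop := ∀ (K M Γ G : Type) [Field K] [Field M] [Algebra K M]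
  [LinearOrderedCommGroupWithZero Γ] [AddCommGroup G] (v : Valuation M Γ) (t : M) (f : K[X])
  (I : PicI f M G), Ana K v t → Gd f → ∀ (Q1 Q2 Q3 S0 U1 U2 : Pt f K) (P1 P2 P3 S : Pt f M),
  Q1.Ok → Q2.Ok → Q3.Ok → S0.Ok → U1.Ok → U2.Ok → NC3 Q1 Q2 Q3 → U1 ≠ U2 →
  I.cl (S0.up M) + I.cl (U1.up M) + I.cl (U2.up M) =
    I.cl (Q1.up M) + I.cl (Q2.up M) + I.cl (Q3.up M) →
  Nr v P1 Q1 → Nr v P2 Q2 → Nr v P3 Q3 → Nr v S S0 → ∃ V1 V2, Nr v V1 U1 ∧ Nr v V2 U2 ∧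
    I.cl S + I.cl V1 + I.cl V2 = I.cl P1 + I.cl P2 + I.cl P3

-- deps: DD NRB PD SYM
def S_GEN : Prop := ∀ (K M Γ G : Type) [Field K] [Field M] [Algebra K M]
  [LinearOrderedCommGroupWithZero Γ] [AddCommGroup G] (v : Valuation M Γ) (t : M) (f : K[X])
  (I : PicI f M G), Ana K v t → Gd f → ∀ (Q1 Q2 Q3 : Pt f K) (P1 P2 P3 R1 R2 R3 : Pt f M),
  Q1.Ok → Q2.Ok → Q3.Ok → NC3 Q1 Q2 Q3 → Q2 ≠ Q3 → Nr v P1 Q1 → Nr v P2 Q2 → Nr v P3 Q3 →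
  Nr v R1 Q1 → Nr v R2 Q2 → Nr v R3 Q3 →
  I.cl R1 + I.cl R2 + I.cl R3 = I.cl P1 + I.cl P2 + I.cl P3 →
    dd v P2 R2 ≤ dd v P1 R1 ∧ (Q1 = Q2 → dd v P3 R3 ≤ v t * dd v P1 R1)

-- deps: DD NRB SPL GEN
def S_LOOP : Prop := ∀ (K M Γ G : Type) [Field K] [Field M] [Algebra K M]
  [LinearOrderedCommGroupWithZero Γ] [AddCommGroup G] (v : Valuation M Γ) (t : M) (f : K[X])
  (I : PicI f M G), Ana K v t → Gd f → ∀ (Q S0 : Pt f K) (Y B : Pt f M)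
  (Mid : Pt f M → Pt f M → Prop), Q.Ok → S0.Ok → S0.a ≠ Q.a → Nr v Y Q → Nr v B Q →
  (∀ V, Nr v V Q → ∃ S, Nr v S S0 ∧ Mid V S) →
  (∀ V V' S S', Nr v V Q → Nr v V' Q → Nr v S S0 → Nr v S' S0 → Mid V S → Mid V' S' →
    dd v S S' ≤ dd v V V') →
    ∃ V S T, Nr v V Q ∧ Nr v S S0 ∧ Nr v T S0.io ∧ Mid V S ∧
      I.cl S + I.cl V + I.cl T = I.cl Y + I.cl (Q.up M).io + I.cl B

-- deps: NRB NC SPL GEN LOOP
def S_TY : Prop := ∀ (K M Γ G : Type) [Field K] [Field M] [Algebra K M]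
  [LinearOrderedCommGroupWithZero Γ] [AddCommGroup G] (v : Valuation M Γ) (t : M) (f : K[X])
  (I : PicI f M G) (Q X C : Pt f K) (Y B : Pt f M) (κ0 : Cfg f K), LS0 v t I Q X C Y B κ0 →
  I.cl (κ0.X.up M).io + I.cl (κ0.Z.up M) + I.cl (κ0.C.up M) =
    I.cl (X.up M).io + I.cl (Q.up M).io + I.cl (C.up M) →
  κ0.Y = Q → κ0.B = κ0.Z.io → κ0.Z.a ≠ Q.a → κ0.X ≠ κ0.A → κ0.Z ≠ κ0.C →
    Lifts v I Q X C Y B κ0

-- deps: NRB NC SPL GEN LOOP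
def S_TZ : Prop := ∀ (K M Γ G : Type) [Field K] [Field M] [Algebra K M]
  [LinearOrderedCommGroupWithZero Γ] [AddCommGroup G] (v : Valuation M Γ) (t : M) (f : K[X])
  (I : PicI f M G) (Q X C : Pt f K) (Y B : Pt f M) (κ0 : Cfg f K), LS0 v t I Q X C Y B κ0 →
  I.cl (κ0.X.up M).io + I.cl (κ0.Z.up M) + I.cl (κ0.C.up M) =
    I.cl (X.up M).io + I.cl (Q.up M).io + I.cl (C.up M) →
  κ0.Z = Q → κ0.B = κ0.Y.io → κ0.Y.a ≠ Q.a → κ0.X.io ≠ κ0.C → κ0.Y ≠ κ0.A →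
    Lifts v I Q X C Y B κ0

-- deps: NRB NC SPL GEN LOOP
def S_TW : Prop := ∀ (K M Γ G : Type) [Field K] [Field M] [Algebra K M]
  [LinearOrderedCommGroupWithZero Γ] [AddCommGroup G] (v : Valuation M Γ) (t : M) (f : K[X])
  (I : PicI f M G) (Q X C : Pt f K) (Y B : Pt f M) (κ0 : Cfg f K), LS0 v t I Q X C Y B κ0 →
  κ0.B = Q → κ0.Z = κ0.Y.io → κ0.Y.a ≠ Q.a → κ0.X ≠ κ0.Y →
  (κ0.A = Q ∧ κ0.C = C) ∨ (κ0.A = C ∧ κ0.C = Q) → Lifts v I Q X C Y B κ0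

-- deps:
def S_LIM : Prop := ∀ (k0 L : Type) [Field k0] [Field L] [Algebra k0 L] (f : k0[X]), Gd f →
  ∀ Q X C R1 R2 : Pt f L, Adm Q X C R1 R2 →
  (∀ j, (lim Q X C R1 R2 j).Ok ∧ (lim Q X C R1 R2 j).J ≠ 0 ∧ (lim Q X C R1 R2 j).Ur ∧
    (lim Q X C R1 R2 j).Z ≠ Q.io ∧
      ∀ i, ∃ l, ((lim Q X C R1 R2 j).pt i).a = ![Q.a, X.a, C.a, R1.a, R2.a] l) ∧
  ∀ i j, (lim Q X C R1 R2 i).X = (lim Q X C R1 R2 j).X →
    (lim Q X C R1 R2 i).Y = (lim Q X C R1 R2 j).Y →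
    (lim Q X C R1 R2 i).Z = (lim Q X C R1 R2 j).Z → i = j

-- deps: LIM TY TZ TW
def S_LIFT : Prop := ∀ (K M Γ G : Type) [Field K] [Field M] [Algebra K M]
  [LinearOrderedCommGroupWithZero Γ] [AddCommGroup G] (v : Valuation M Γ) (t : M) (f : K[X])
  (I : PicI f M G), Ana K v t → Gd f → ∀ (Q X C R1 R2 : Pt f K) (Y B : Pt f M),
  Adm Q X C R1 R2 → Nr v Y Q → Nr v B Q → ∀ j, Lifts v I Q X C Y B (lim Q X C R1 R2 j)

-- deps: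
def S_DER : Prop := ∀ (k0 A M : Type) [Field k0] [Field A] [Field M] [Algebra k0 A] [Algebra k0 M]
  [Algebra A M] [IsScalarTower k0 A M] [CharZero M] (f : k0[X]) (δ : Derivation A M M)
  (p : Pen f A) (P1 P2 P3 : Pt f M), P1.Ok → P2.Ok → P3.Ok →
  (p.map (IsScalarTower.toAlgHom k0 A M)).Fib P1 P2 P3 →
    (P1.a - P3.a) / P1.y * δ P1.a + (P2.a - P3.a) / P2.y * δ P2.a = 0 ∧
      (P1.a = P2.a → δ P1.a = 0)

-- deps: FB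
def S_AL2 : Prop := ∀ (k0 A M : Type) [Field k0] [Field A] [Field M] [Algebra k0 A] [Algebra k0 M]
  [Algebra A M] [IsScalarTower k0 A M] (f : k0[X]), Gd f →
  (∀ z : M, IsAlgebraic A z → ∃ a, algebraMap A M a = z) →
  (∀ P : Pt f M, IsAlgebraic A P.a → ∃ P' : Pt f A, P'.map (IsScalarTower.toAlgHom k0 A M) = P) ∧
    ∀ (p : Pen f A) (P : Pt f A) (V1 V2 : Pt f M), (p.map (IsScalarTower.toAlgHom k0 A M)).Fib
      (P.map (IsScalarTower.toAlgHom k0 A M)) V1 V2 → ∃ U1 U2 : Pt f A,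
        U1.map (IsScalarTower.toAlgHom k0 A M) = V1 ∧ U2.map (IsScalarTower.toAlgHom k0 A M) = V2

-- imports: Pool.Agent.P.MP_ab3ecb_nt.Inv.J.Dalg
-- deps: DER AL2
def S_ALG : Prop := ∀ (k0 A M : Type) [Field k0] [Field A] [Field M] [Algebra k0 A] [Algebra k0 M]
  [Algebra A M] [IsScalarTower k0 A M] [CharZero A] (f : k0[X]), Gd f →
  (∀ z : M, IsAlgebraic A z → ∃ a, algebraMap A M a = z) → ∀ (p1 p2 p3 : Pen f A) (κ : Cfg f M),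
  κ.In (p1.map (IsScalarTower.toAlgHom k0 A M)) (p2.map (IsScalarTower.toAlgHom k0 A M))
    (p3.map (IsScalarTower.toAlgHom k0 A M)) → κ.Ok → κ.J ≠ 0 →
    ∃ κ' : Cfg f A, κ'.map (IsScalarTower.toAlgHom k0 A M) = κ

-- deps: NRB AL2
def S_YB : Prop := ∀ (K A M Γ : Type) [Field K] [Field A] [Field M] [Algebra K A] [Algebra K M]
  [Algebra A M] [IsScalarTower K A M] [LinearOrderedCommGroupWithZero Γ] (v : Valuation M Γ)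
  (t : A) (f : K[X]), AA K v t → Gd f → ∀ (Q : Pt f K) (γ : K), Q.Ok →
    ∃ B : Pt f A, Nr (v.comap (algebraMap A M)) B Q ∧
      (B.a - algebraMap K A Q.a) * (t⁻¹ + algebraMap K A γ) = 1

-- deps: FC PIC DDM NRB PD0 SPL LIM LIFT AL2 ALG
def S_PRE : Prop := ∀ (K A M Γ : Type) [Field K] [Field A] [Field M] [Algebra K A] [Algebra K M]
  [Algebra A M] [IsScalarTower K A M] [LinearOrderedCommGroupWithZero Γ] [CharZero K]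
  (v : Valuation M Γ) (t : A) (f : K[X]), AA K v t → Gd f → ∀ (Q X C R1 R2 : Pt f K)
  (Y B : Pt f A), Adm Q X C R1 R2 → Nr (v.comap (algebraMap A M)) Y Q →
  Nr (v.comap (algebraMap A M)) B Q → Y.a ≠ B.a → Y.a ≠ algebraMap K A Q.a →
  B.a ≠ algebraMap K A Q.a → ∃ U1 U2 W1 W2 p1 p2 p3 κs,
    Pre (v.comap (algebraMap A M)) Q X C R1 R2 Y B U1 U2 W1 W2 p1 p2 p3 κs

-- deps: FB NRB LIM YB PRE
def S_EXA : Prop := ∀ (K A M Γ : Type) [Field K] [Field A] [Field M] [Algebra K A] [Algebra K M]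
  [Algebra A M] [IsScalarTower K A M] [LinearOrderedCommGroupWithZero Γ] [CharZero K]
  (v : Valuation M Γ) (t : A) (f : K[X]), AA K v t → Gd f → ∀ (Q X C R1 R2 : Pt f K) (γ : K),
  Adm Q X C R1 R2 → ∃ z, CertZ (Q.up A) (X.up A) (C.up A) (algebraMap K A γ) t⁻¹ z ∧
    ∀ i, Transcendental K (z i) ∨ ∃ l, z i = algebraMap K A (![Q.a, X.a, C.a, R1.a, R2.a] l)

-- imports: Pool.Agent.P.MP_ab3ecb_nt.Inv.J.Dalg
-- deps: FB FC PIC DDM NRB PD0 SPL DER AL2 YB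
def S_NBA : Prop := ∀ (K A M Γ : Type) [Field K] [Field A] [Field M] [Algebra K A] [Algebra K M]
  [Algebra A M] [IsScalarTower K A M] [LinearOrderedCommGroupWithZero Γ] [CharZero K]
  (v : Valuation M Γ) (t : A) (f : K[X]), AA K v t → Gd f → ∀ Q X : Pt f K, Q.Ok → X.Ok →
  Q.a ≠ X.a → ∃ C R1 R2 : Pt f A, Adm (Q.up A) (X.up A) C R1 R2 ∧ Transcendental K C.a ∧
    Transcendental K R1.a ∧ Transcendental K R2.a

-- deps: EXF ENA ENC MTA LAU REB EXA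
def S_EX : Prop := ∀ n : ℕ, ∃ C0 p0 : ℕ, ∀ (F : Type) [Field F] [Fintype F], p0 < ringChar F →
  ∀ (f : F[X]), Gd f → ∀ (Q : Pt f F) (X C R1 R2 : Fin n → Pt f F) (γ : Fin n → F) (B : Finset F),
  B.card * C0 ≤ Fintype.card F → Q.a ∉ B → (∀ j, Adm Q (X j) (C j) (R1 j) (R2 j) ∧ (X j).a ∉ B ∧
    (C j).a ∉ B ∧ (R1 j).a ∉ B ∧ (R2 j).a ∉ B) →
    ∃ τ, ∀ j, ∃ z, CertZ Q (X j) (C j) (γ j) τ z ∧ ∀ i, z i ∉ B

-- deps: ENA MTA LAU REB NBA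
def S_NB : Prop := ∃ C0 p0 : ℕ, ∀ (F : Type) [Field F] [Fintype F], p0 < ringChar F →
  ∀ (f : F[X]), Gd f → ∀ (Q X : Pt f F) (B : Finset F), Q.Ok → X.Ok → Q.a ≠ X.a →
  B.card * C0 ≤ Fintype.card F → ∃ C R1 R2, Adm Q X C R1 R2 ∧ C.a ∉ B ∧ R1.a ∉ B ∧ R2.a ∉ B

/-! ### The Torelli theorem -/

-- deps:
def S_TRB : Prop := ∀ (F G G' : Type) [Field F] [AddCommGroup G] [AddCommGroup G'] (f g : F[X])
  (T : Tr f g G G'), T.TB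

-- deps: FB PD0 TRB
def S_KEY : Prop := ∀ (F G G' : Type) [Field F] [AddCommGroup G] [AddCommGroup G'] (f g : F[X])
  (T : Tr f g G G') (Q X C : Pt f F) (γ τ : F) (z), Q.a ∉ T.B → X.a ∉ T.B → C.a ∉ T.B →
  CertZ Q X C γ τ z → (∀ i, z i ∉ T.B) → ∃ Y B : Pt f F, Y.a ∉ T.B ∧ B.a ∉ T.B ∧
    (B.a - Q.a) * (τ + γ) = 1 ∧ (Y.a - Q.a) * (τ + γ + (zz Q X - zz Q C)) = 1 ∧
    zz (T.φ Q) (T.φ Y) - zz (T.φ Q) (T.φ B) = zz (T.φ Q) (T.φ X) - zz (T.φ Q) (T.φ C)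

-- deps:
def S_FRE : Prop := ∀ (C0 : ℕ) (G G' : Type) [AddCommGroup G] [Fintype G] [AddCommGroup G']
  (D : Finset G) (l : G → G'),
  (∀ H : AddSubgroup G, Fintype.card G ≤ C0 * Nat.card H → H = ⊤) →
  Fintype.card G ≤ C0 * D.card → (∀ m ≤ 9 * C0 + 9, ∀ a b : Fin m → G, (∀ i, a i ∈ D) →
    (∀ i, b i ∈ D) → ∑ i, a i = ∑ i, b i → ∑ i, l (a i) = ∑ i, l (b i)) →
    ∃ (Λ : G →+ G') (e : G'), ∀ d ∈ D, l d = Λ d + e

-- deps: TRB KEY EX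
def S_TEL : Prop := ∀ m : ℕ, ∃ C0 p0 : ℕ, ∀ (F G G' : Type) [Field F] [Fintype F] [AddCommGroup G]
  [AddCommGroup G'] (f g : F[X]) (T : Tr f g G G'), p0 < ringChar F →
  T.B.card * C0 ≤ Fintype.card F → ∀ (Q X : Pt f F) (C C' : Fin m → Pt f F), Q.a ∉ T.B →
  X.a ∉ T.B → (∀ i, T.Nb Q X (C i)) → (∀ i, T.Nb Q X (C' i)) →
  ∑ i, zz Q (C i) = ∑ i, zz Q (C' i) →
    ∑ i, zz (T.φ Q) (T.φ (C i)) = ∑ i, zz (T.φ Q) (T.φ (C' i))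

-- deps: TRB NB TEL FRE
def S_AFF : Prop := ∃ C0 p0 : ℕ, ∀ (F G G' : Type) [Field F] [Fintype F] [AddCommGroup G]
  [AddCommGroup G'] (f g : F[X]) (T : Tr f g G G'), p0 < ringChar F →
  T.B.card * C0 ≤ Fintype.card F → ∀ Q X : Pt f F, Q.Ok → X.Ok → Q.a ≠ X.a → Q.a ∉ T.B →
  X.a ∉ T.B → ∃ (N : Finset F) (Λ : F →+ F) (e : F), Fintype.card F ≤ C0 * N.card ∧
    ∀ a ∈ N, a ∉ T.B ∧ a ≠ Q.a ∧ (∃ P : Pt f F, P.Ok ∧ P.a = a) ∧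
      ∀ P : Pt f F, P.a = a → zz (T.φ Q) (T.φ P) = Λ (zz Q P) + e

-- deps:
def S_LIN : Prop := ∀ (F : Type) [Field F] [Fintype F] (p n : ℕ) [CharP F p],
  Fintype.card F = p ^ n → ∀ Λ : F →+ F, ∃ a : Fin n → F, ∀ w, Λ w = ∑ i, a i * w ^ p ^ (i : ℕ)

-- deps: LIN
def S_HUA : Prop := ∀ (F : Type) [Field F] [Fintype F] (S : Finset F) (Λ Λ' : F →+ F) (a b : F),
  2 * Fintype.card F < ringChar F * S.card → 2 ≤ S.card →
  (∀ w ∈ S, w ≠ 0 ∧ (Λ w + a) * (Λ' w⁻¹ + b) = 1) → Set.InjOn Λ S →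
    ∃ (τ : F ≃+* F) (c : F), c ≠ 0 ∧ ∀ w, Λ w + a = c * τ w

-- deps: PTS TRB AFF HUA
def S_MB : Prop := ∃ C0 p0 : ℕ, ∀ (F G G' : Type) [Field F] [Fintype F] [AddCommGroup G]
  [AddCommGroup G'] (f g : F[X]) (T : Tr f g G G'), p0 < ringChar F →
  T.B.card * C0 ≤ Fintype.card F → ∃ (N : Finset F) (τ : F ≃+* F) (α β γ δ : F),
    Fintype.card F ≤ C0 * N.card ∧ T.Mb N τ α β γ δ

-- deps:
def S_CUB : Prop := ∀ (F : Type) [Field F] [Fintype F] (f g : F[X]) (W : Finset F[X]),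
  (2 : F) ≠ 0 → 6 < Fintype.card F → f.natDegree ≤ 6 → g.natDegree ≤ 6 → (∀ γ, f ≠ C γ * g) →
  (∀ c ∈ W, c.natDegree ≤ 3 ∧ ∃ (c' : F[X]) (γ : F), c'.natDegree ≤ 3 ∧
    f - c ^ 2 = C γ * (g - c' ^ 2)) → W.card ≤ 200 * Fintype.card F ^ 2

-- deps: FB PD0
def S_SIX : Prop := ∀ (k0 L G : Type) [Field k0] [Field L] [Algebra k0 L] [AddCommGroup G]
  (f : k0[X]), Gd f → ∀ (I : PicI f L G) (P : Fin 6 → Pt f L), (∀ i, (P i).Ok) →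
  (Function.Injective fun i => (P i).a) →
  I.cl (P 0) + I.cl (P 1) + I.cl (P 2) = I.cl (P 3) + I.cl (P 4) + I.cl (P 5) →
    ∃ (c : L[X]) (t : L), c.natDegree ≤ 3 ∧ t ≠ 0 ∧
      f.map (algebraMap k0 L) - c ^ 2 = C t * ∏ i, (X - C (P i).a)

-- deps:
def S_CNT : Prop := ∀ C0 : ℕ, ∃ q0 : ℕ, ∀ (q : ℕ) (α G : Type) [AddCommGroup G] (N : Finset α)
  (c : α → G) (W : Finset G), q0 ≤ q → q ≤ C0 * N.card → W.card ≤ 20 * q ^ 2 →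
  (∀ a ∈ N, ∀ b ∈ N, ∀ d ∈ N, c a + c b + c d ∈ W) →
  (∀ a ∈ N, ∀ b ∈ N, ∀ a' ∈ N, ∀ b' ∈ N, a ≠ b → c a + c b = c a' + c b' →
    (a = a' ∧ b = b') ∨ (a = b' ∧ b = a')) →
    ∃ T : Finset (Finset α), 200 * q ^ 2 < T.card ∧ ∀ s ∈ T, ∃ a : Fin 6 → α,
      Function.Injective a ∧ (∀ i, a i ∈ N) ∧ s = Finset.univ.image a ∧
        c (a 0) + c (a 1) + c (a 2) = c (a 3) + c (a 4) + c (a 5)

-- deps: TRB CUB SIX CNT
def S_SEX : Prop := ∀ C0 : ℕ, ∃ q0 : ℕ, ∀ (F G G' : Type) [Field F] [Fintype F] [AddCommGroup G]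
  [AddCommGroup G'] (f g : F[X]) (T : Tr f g G G'), q0 ≤ Fintype.card F → T.Few →
  ∀ (N : Finset F) (τ : F ≃+* F) (α β γ δ : F), Fintype.card F ≤ C0 * N.card →
    T.Mb N τ α β γ δ → Eqv f g

/-! ### The bridge to the curves of the statement -/

-- imports: Pool.Agent.P.MP_9344a7_nt.Dual Pool.Agent.P.MP_9344a7_nt.Lang
-- deps:
def S_MOD1 : Prop := ∀ (F E : Type) [Field F] [Fintype F] [Field E]
  [Algebra (AlgebraicClosure F) E] [Algebra F E] [IsScalarTower F (AlgebraicClosure F) E]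
  (C : Curve F E), (2 : F) ≠ 0 → Genus (AlgebraicClosure F) E 2 → ∃ (f : F[X]) (x y : E),
    Squarefree f ∧ (f.natDegree = 5 ∨ f.natDegree = 6) ∧ Transcendental (AlgebraicClosure F) x ∧
    y ^ 2 = aeval x f ∧ IntermediateField.adjoin (AlgebraicClosure F) {x, y} = ⊤ ∧
    C.Φ x = x ∧ C.Φ y = y

-- deps: PTS MOD1
def S_MOD : Prop := ∃ p0 : ℕ, ∀ (F E : Type) [Field F] [Fintype F] [Field E]
  [Algebra (AlgebraicClosure F) E] [Algebra F E] [IsScalarTower F (AlgebraicClosure F) E]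
  (C : Curve F E), p0 < ringChar F → Genus (AlgebraicClosure F) E 2 →
    ∃ (f : F[X]) (x y : E), Mdl C f x y

-- deps: NAT
def S_FRP : Prop := ∀ (F E : Type) [Field F] [Fintype F] [Field E]
  [Algebra (AlgebraicClosure F) E] [Algebra F E] [IsScalarTower F (AlgebraicClosure F) E]
  (C : Curve F E) (f : F[X]) (x y : E) (h : Mdl C f x y) (pl), IsPl h.hyp pl →
  (∀ P : Pt f F, P.b = 1) ∧ (∀ P, C.fr P = P ↔ ∃ Q : Pt f F, pl (Q.up _) = P) ∧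
    (∃ τ : AlgebraicClosure F →ₐ[F] AlgebraicClosure F, ∀ P, C.fr (pl P) = pl (P.map τ)) ∧
    C.pts 1 = Nat.card (Pt f F) ∧ C.pts 2 ≤ 2 * Fintype.card F ^ 2 + 2

-- deps: PTS
def S_NUB : Prop := ∃ p0 : ℕ, ∀ (F : Type) [Field F] [Fintype F] (f : F[X]), p0 < ringChar F →
  Gd f → (∀ P : Pt f F, P.b = 1) →
    3 * Fintype.card F ≤ 4 * Nat.card (Pt f F) ∧ 2 * Nat.card (Pt f F) ≤ 3 * Fintype.card F

-- deps: HF
def S_ISO : Prop := ∀ (F E E' : Type) [Field F] [Fintype F] [Field E]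
  [Algebra (AlgebraicClosure F) E] [Algebra F E] [IsScalarTower F (AlgebraicClosure F) E]
  [Field E'] [Algebra (AlgebraicClosure F) E'] [Algebra F E']
  [IsScalarTower F (AlgebraicClosure F) E'] (C : Curve F E) (D : Curve F E') (f g : F[X])
  (x y : E) (x' y' : E'), Mdl C f x y → Mdl D g x' y' → Eqv f g →
    ∃ (i : E ≃+* E') (s : AlgebraicClosure F ≃+* AlgebraicClosure F),
      (∀ c, i (algebraMap _ E c) = algebraMap _ E' (s c)) ∧ ∀ z, i (C.Φ z) = D.Φ (i z)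

end Pool.Agent.P.MP_9344a7_nt.Tor
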