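import Pool.Agent.P.MP_9344a7_nt.Tor.Iface2
import Pool.Agent.P.MP_9344a7_nt.Tor.Iface

/-! Step FIN. -/

set_option autoImplicit false
set_option linter.unusedSectionVars false

namespace Pool.Agent.P.MP_9344a7_nt.Tor

open Polynomial WithZero
open Pool.Agent.P.MP_6f117a_ag (Place FF)
open Pool.Agent.P.MP_ab3ecb_nt.Inv (ord Dv dv deg SA LS)
open scoped Classical IntermediateField

theorem p_FIN (hMB : S_MB) (hSEX : S_SEX) (hMOD : S_MOD) (hNUB : S_NUB) (hISO : S_ISO) (hPA : S_PA) (hSIDE : S_SIDE) (hTA : S_TA) :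
    S_FIN := by
  obtain ⟨C0, p1, h1⟩ := hMB
  obtain ⟨p2, h2⟩ := hSEX C0
  obtain ⟨p3, h3⟩ := hMOD
  obtain ⟨p4, h4⟩ := hNUB
  obtain ⟨p5, h5⟩ := hPA C0
  refine ⟨p1 + p2 + p3 + p4 + p5, fun F E E' _ _ _ _ _ _ C D hp hi => ?_⟩
  have hq : ringChar F ≤ Fintype.card F := Nat.le_of_dvd Fintype.card_pos
    ((ringChar.spec F _).1 (FiniteField.cast_card_eq_zero F))
  letI : Algebra F E :=
    ((algebraMap (AlgebraicClosure F) E).comp (algebraMap F (AlgebraicClosure F))).toAlgebra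
  letI : Algebra F E' :=
    ((algebraMap (AlgebraicClosure F) E').comp (algebraMap F (AlgebraicClosure F))).toAlgebra
  haveI : IsScalarTower F (AlgebraicClosure F) E := .of_algebraMap_eq fun _ => rfl
  haveI : IsScalarTower F (AlgebraicClosure F) E' := .of_algebraMap_eq fun _ => rfl
  obtain ⟨f, x, y, m⟩ := h3 F E C (by omega) hi.1
  obtain ⟨g, x', y', m'⟩ := h3 F E' D (by omega) hi.2.1
  obtain ⟨-, -, -, a1, -, -, -, a2, a3⟩ := hSIDE F E C f x y m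
  obtain ⟨-, -, -, b1, -⟩ := hSIDE F E' D g x' y' m'
  obtain ⟨c1, c2⟩ := h4 F f (by omega) m.hyp.gd a1
  obtain ⟨d1, -⟩ := h4 F g (by omega) m'.hyp.gd b1
  have hne : Nonempty (Pt g F) := (Nat.card_pos_iff.1 (by
    have := Fintype.card_pos (α := F)
    omega)).1
  obtain ⟨T, t1, t2⟩ := hTA C0 F E E' C D f g x y x' y' m m' hne
    (h5 F E E' C D (by omega) (a2 ▸ c1) (a2 ▸ c2) a3 hi)
  obtain ⟨N, τ, α, β, γ, δ, n1, n2⟩ := h1 F _ _ f g T (by omega) t1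
  exact hISO F E E' C D f g x y x' y' m m'
    (h2 F _ _ f g T (by omega) t2 N τ α β γ δ n1 n2)

end Pool.Agent.P.MP_9344a7_nt.Tor
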