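import Pool.Agent.P.MP_9344a7_nt.Tor.Iface

/-! Step FRP. -/

set_option autoImplicit false
set_option linter.unusedSectionVars false

namespace Pool.Agent.P.MP_9344a7_nt.Tor

open Polynomial WithZero
open Pool.Agent.P.MP_6f117a_ag (Place FF)
open Pool.Agent.P.MP_ab3ecb_nt.Inv (ord Dv dv deg SA LS)
open scoped Classical IntermediateField

/-- The solutions of `c ^ n = c`. -/
lemma frp_fin (k : Type) [Field k] {n : ℕ} (hn : 1 < n) :
    ∃ S : Finset k, S.card ≤ n ∧ ∀ c, c ^ n = c → c ∈ S := by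
  have h0 : (X ^ n - X : k[X]) ≠ 0 := FiniteField.X_pow_card_sub_X_ne_zero k hn
  refine ⟨(X ^ n - X : k[X]).roots.toFinset, ?_, fun c hc => ?_⟩
  · refine (Multiset.toFinset_card_le _).trans ((card_roots' _).trans ?_)
    rw [FiniteField.X_pow_card_sub_X_natDegree_eq k hn]
  · simp [h0, hc]

lemma frp_fix (F k : Type) [Field F] [Fintype F] [Field k] [Algebra F k] (c : k)
    (hc : c ^ Fintype.card F = c) : ∃ d : F, algebraMap F k d = c := by
  obtain ⟨S, hS, h⟩ := frp_fin k (Fintype.one_lt_card (α := F))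
  have e : Finset.univ.image (algebraMap F k) = S := by
    refine Finset.eq_of_subset_of_card_le (fun z hz => ?_) ?_
    · obtain ⟨d, -, rfl⟩ := Finset.mem_image.1 hz
      exact h _ (by rw [← map_pow, FiniteField.pow_card])
    · rwa [Finset.card_image_of_injective _ (algebraMap F k).injective]
  have := h c hc
  rw [← e] at this
  obtain ⟨d, -, hd⟩ := Finset.mem_image.1 this
  exact ⟨d, hd⟩

lemma frp_pt {F k : Type} [Field F] [Fintype F] [Field k] [Algebra F k] {f : F[X]}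
    (τ : k →ₐ[F] k) (hτ : ∀ c, τ c = c ^ Fintype.card F) (P : Pt f k) :
    P.map τ = P ↔ ∃ Q : Pt f F, Q.up k = P := by
  refine ⟨fun h => ?_, fun ⟨Q, h⟩ => by rw [← h, Pt.map_up]⟩
  obtain ⟨a, ha⟩ := frp_fix F k P.a (by rw [← hτ]; exact congrArg Pt.a h)
  obtain ⟨b, hb⟩ := frp_fix F k P.b (by rw [← hτ]; exact congrArg Pt.b h)
  obtain ⟨y, hy⟩ := frp_fix F k P.y (by rw [← hτ]; exact congrArg Pt.y h)
  have hi := (algebraMap F k).injective
  refine ⟨⟨a, b, y, ?_, hi ?_⟩, Pt.ext ha hb hy⟩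
  · rcases P.nf with h | ⟨h, h'⟩
    · exact .inl (hi (by rw [hb, h, map_one]))
    · exact .inr ⟨hi (by rw [hb, h, map_zero]), hi (by rw [ha, h', map_one])⟩
  · rw [map_pow, hy, P.eq, ← hev_map, ha, hb, Algebra.algebraMap_self, Polynomial.map_id]

lemma frp_two {F k : Type} [Field F] [Field k] [Algebra F k] {f : F[X]} (S : Finset k)
    (T : Set (Pt f k)) (h : ∀ P ∈ T, P.a ∈ S) : T.ncard ≤ 2 * S.card + 2 := by
  let g : Pt f k → k × k := fun P => (P.a, P.b)
  let U : Finset (k × k) := insert (1, 0) (S.image fun a => (a, 1))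
  have hU : U.card ≤ S.card + 1 :=
    (Finset.card_insert_le _ _).trans (by have := Finset.card_image_le (s := S) (f := fun a => (a, (1 : k))); omega)
  have key : ∀ W : Finset (Pt f k), (∀ P ∈ W, P ∈ T) → W.card ≤ 2 * S.card + 2 := by
    intro W hW
    have := Finset.card_le_mul_card_image_of_maps_to (s := W) (t := U) (f := g) (fun P hP => by
      rcases P.nf with e | ⟨e, e'⟩
      · exact Finset.mem_insert_of_mem (Finset.mem_image.2 ⟨P.a, h P (hW P hP), by simp [g, e]⟩)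
      · simp [U, g, e, e']) 2 (fun u _ => by
      rcases (W.filter fun P => g P = u).eq_empty_or_nonempty with e | ⟨Q, hQ⟩
      · simp [e]
      · refine (Finset.card_le_card (t := {Q, Q.io}) fun P hP => ?_).trans Finset.card_le_two
        have e := (Finset.mem_filter.1 hP).2.trans (Finset.mem_filter.1 hQ).2.symm
        simpa using Pt.eq_or_io (congrArg Prod.fst e) (congrArg Prod.snd e))
    omega
  by_cases hT : T.Finite
  · rw [Set.ncard_eq_toFinset_card T hT]
    exact key _ fun P hP => hT.mem_toFinset.1 hP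
  · rw [Set.Infinite.ncard hT]
    omega

theorem p_FRP (hNAT : S_NAT) :
    S_FRP := by
  intro F E _ _ _ _ _ _ C f x y h pl hpl
  let τ' := FiniteField.frobeniusAlgEquivOfAlgebraic F (AlgebraicClosure F)
  let τ : AlgebraicClosure F →ₐ[F] AlgebraicClosure F := τ'
  have hτ : ∀ c, τ c = c ^ Fintype.card F := fun _ => rfl
  let σ : SA (AlgebraicClosure F) E := ⟨C.Φ, τ'.toRingEquiv, C.frob⟩
  have h1 : ∀ P, C.fr (pl P) = pl (P.map τ) :=
    (hNAT F _ E f x y h.hyp pl hpl σ τ (fun _ => rfl) h.fx).1 h.fy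
  have h2 : ∀ P, C.fr P = P ↔ ∃ Q : Pt f F, pl (Q.up _) = P := pl.surjective.forall.2 fun P => by
    simp only [h1, pl.injective.eq_iff, frp_pt τ hτ]
  refine ⟨fun P => P.nf.resolve_right fun ⟨hb, ha⟩ => h.lc ⟨P.y, ?_⟩, h2, ⟨τ, h1⟩, ?_, ?_⟩
  · have := P.eq
    rw [ha, hb, hev_inf, Algebra.algebraMap_self, Polynomial.map_id] at this
    rw [leadingCoeff, h.hyp.gd.deg, ← this, sq]
  · refine (Nat.card_congr (Equiv.ofBijective
      (fun Q : Pt f F => (⟨pl (Q.up _), (h2 _).2 ⟨Q, rfl⟩⟩ : {P // C.fr^[1] P = P}))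
      ⟨fun Q Q' e => Pt.map_inj _ (pl.injective (congrArg Subtype.val e)), fun P => ?_⟩)).symm
    obtain ⟨Q, hQ⟩ := (h2 P.1).1 P.2
    exact ⟨Q, Subtype.ext hQ⟩
  · obtain ⟨S, hS, hm⟩ := frp_fin (AlgebraicClosure F) (n := Fintype.card F ^ 2)
      (Nat.one_lt_pow two_ne_zero Fintype.one_lt_card)
    have e : C.pts 2 = Set.ncard {P : Pt f (AlgebraicClosure F) | C.fr^[2] (pl P) = pl P} :=
      (Nat.card_congr (pl.subtypeEquiv fun _ => Iff.rfl)).symm
    refine e.trans_le ((frp_two S _ fun P hP => hm _ ?_).trans (by omega))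
    have : C.fr (C.fr (pl P)) = pl P := hP
    rw [h1, h1] at this
    have := congrArg Pt.a (pl.injective this)
    rwa [Pt.map_a, Pt.map_a, hτ, hτ, ← pow_mul, ← sq] at this

end Pool.Agent.P.MP_9344a7_nt.Tor
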