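import Pool.Agent.P.MP_9344a7_nt.Tor.Iface

/-! Step GAU. -/

set_option autoImplicit false
set_option linter.unusedSectionVars false

namespace Pool.Agent.P.MP_9344a7_nt.Tor

open Polynomial WithZero
open Pool.Agent.P.MP_6f117a_ag (Place FF)
open Pool.Agent.P.MP_ab3ecb_nt.Inv (ord Dv dv deg SA LS)
open scoped Classical IntermediateField

lemma gau_sq {κ : Type} [Field κ] {F g : κ[X]} {a : κ} (hs : F.Separable) (hd : F.natDegree = 6)
    (ha : a ≠ 0) (h : C (a ^ 2) * F = g ^ 2) : False := by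
  have e : F = (C a⁻¹ * g) * (C a⁻¹ * g) := by
    have h1 : C a⁻¹ * C a = (1 : κ[X]) := by rw [← C_mul, inv_mul_cancel₀ ha, C_1]
    rw [C_pow] at h
    linear_combination (C a⁻¹) ^ 2 * h - F * (C a⁻¹ * C a + 1) * h1
  have hu := natDegree_eq_zero_of_isUnit (hs.squarefree _ e.symm.dvd)
  have := natDegree_mul_le (p := C a⁻¹ * g) (q := C a⁻¹ * g)
  rw [← e] at this
  omega

lemma gau_prim {κ : Type} [Field κ] {F u c w : κ[X]} {a b : κ} (hs : F.Separable)
    (hd : F.natDegree = 6) (e : F = c ^ 2 + u * w) (h : a ≠ 0 ∨ b ≠ 0) :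
    C (a ^ 2) * w - C (2 * a * b) * c - C (b ^ 2) * u ≠ 0 := by
  intro h0
  have e2 : C (2 : κ) = 2 := map_ofNat C 2
  simp only [C_mul, C_pow, e2] at h0
  rcases h with h | h
  · refine gau_sq (g := C a * c + C b * u) hs hd h ?_
    rw [e, C_pow]
    linear_combination u * h0
  · refine gau_sq (g := C a * w - C b * c) hs hd h ?_
    rw [e, C_pow]
    linear_combination (-w) * h0

lemma gau_lin {κ : Type} [Field κ] {a b : κ} (h : a ≠ 0 ∨ b ≠ 0) : C b * X - C a ≠ 0 := by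
  intro h0
  have h1 := congrArg (coeff · 0) h0
  have h2 := congrArg (coeff · 1) h0
  simp [coeff_C] at h1 h2
  exact h.elim (· h1) (· h2)

section
variable {L Γ : Type} [Field L] [LinearOrderedCommGroupWithZero Γ] (v : Valuation L Γ)

lemma gau_inj : Function.Injective (Polynomial.map v.integer.subtype) :=
  Polynomial.map_injective _ Subtype.val_injective

lemma gau_lt {A B : v.integer[X]} {τ : L} (hτ : v τ < 1)
    (h : A.map v.integer.subtype = C τ * B.map v.integer.subtype) :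
    A.map (IsLocalRing.residue v.integer) = 0 := by
  have e : A = C (⟨τ, hτ.le⟩ : v.integer) * B := gau_inj v (by rw [h]; simp)
  have h0 : IsLocalRing.residue v.integer ⟨τ, hτ.le⟩ = 0 :=
    (IsLocalRing.residue_eq_zero_iff _).2
      (Valuation.Integer.not_isUnit_iff_valuation_lt_one.2 hτ)
  rw [e, Polynomial.map_mul, map_C, h0, C_0, zero_mul]

lemma gau_pair {x y : L} (h : max (v x) (v y) ≠ 0) :
    ∃ n : L, n ≠ 0 ∧ v n = max (v x) (v y) ∧ ∃ x' y' : v.integer, x = n * x' ∧ y = n * y' ∧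
      (IsLocalRing.residue v.integer x' ≠ 0 ∨ IsLocalRing.residue v.integer y' ≠ 0) := by
  rcases le_total (v x) (v y) with h1 | h1
  · rw [max_eq_right h1] at h ⊢
    have h2 : y ≠ 0 := (Valuation.ne_zero_iff v).1 h
    refine ⟨y, h2, rfl, ⟨x / y, ?_⟩, 1, ?_, by simp, Or.inr (by simp)⟩
    · rw [Valuation.mem_integer_iff, map_div₀]
      exact div_le_one_of_le₀ h1 zero_le
    · field_simp
  · rw [max_eq_left h1] at h ⊢
    have h2 : x ≠ 0 := (Valuation.ne_zero_iff v).1 h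
    refine ⟨x, h2, rfl, 1, ⟨y / x, ?_⟩, by simp, ?_, Or.inl (by simp)⟩
    · rw [Valuation.mem_integer_iff, map_div₀]
      exact div_le_one_of_le₀ h1 zero_le
    · field_simp

lemma gau_lift {g : L[X]} (h : ∀ i, v (g.coeff i) ≤ 1) :
    ∃ g' : v.integer[X], g'.map v.integer.subtype = g :=
  (mem_lifts g).1 ((lifts_iff_coeff_lifts g).2 fun i => ⟨⟨_, h i⟩, rfl⟩)

end

theorem p_GAU (hDA : S_DA) :
    S_GAU := by
  intro k0 L Γ _ _ _ _ v f hv p hp s0 s1 t P1 P2 P3 h
  by_cases h0 : max (v s0) (v s1) = 0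
  · have e0 : s0 = 0 := (Valuation.zero_iff v).1 (le_zero_iff.1 (h0 ▸ le_max_left _ _))
    have e1 : s1 = 0 := (Valuation.zero_iff v).1 (le_zero_iff.1 (h0 ▸ le_max_right _ _))
    have e2 : t = 0 := by
      by_contra ht
      exact mul_ne_zero (mul_ne_zero (mul_ne_zero (C_ne_zero.2 ht) P1.ell_ne) P2.ell_ne) P3.ell_ne
        (by rw [← h, e0, e1]; simp [Pen.V])
    rw [h0, e2]
    simp
  obtain ⟨σ, hσ, vσ, a, b, rfl, rfl, hab⟩ := gau_pair v h0
  have hn := (hDA k0 L Γ v f hv).nm_ne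
  obtain ⟨n1, z1, v1, a1, b1, ea1, eb1, h1⟩ := gau_pair v (hn P1)
  obtain ⟨n2, z2, v2, a2, b2, ea2, eb2, h2⟩ := gau_pair v (hn P2)
  obtain ⟨n3, z3, v3, a3, b3, ea3, eb3, h3⟩ := gau_pair v (hn P3)
  obtain ⟨u, hu⟩ := gau_lift v fun i => (hp i).1
  obtain ⟨c, hc⟩ := gau_lift v fun i => (hp i).2.1
  obtain ⟨w, hw⟩ := gau_lift v fun i => (hp i).2.2
  let ψ : k0 →+* v.integer := (algebraMap k0 L).codRestrict v.integer hv.triv
  have hf : f.map ψ = c ^ 2 + u * w := gau_inj v (by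
    rw [Polynomial.map_map, Polynomial.map_add, Polynomial.map_pow, Polynomial.map_mul, hu, hc, hw,
      ← p.eq]
    rfl)
  set r := IsLocalRing.residue v.integer with hr
  have hA : (C (a ^ 2) * w - C (2 * a * b) * c - C (b ^ 2) * u).map r ≠ 0 := by
    have := gau_prim (F := f.map (r.comp ψ)) (u := u.map r) (c := c.map r) (w := w.map r)
      hv.gd.sep.map (by rw [natDegree_map, hv.gd.deg])
      (by rw [← Polynomial.map_map, hf]; simp) hab
    simpa [map_ofNat] using this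
  have hB : ((C b1 * X - C a1) * (C b2 * X - C a2) * (C b3 * X - C a3)).map r ≠ 0 := by
    have := mul_ne_zero (mul_ne_zero (gau_lin h1) (gau_lin h2)) (gau_lin h3)
    simpa using this
  have key : C (σ ^ 2) * (C (a ^ 2) * w - C (2 * a * b) * c - C (b ^ 2) * u).map v.integer.subtype =
      C (t * n1 * n2 * n3) *
        ((C b1 * X - C a1) * (C b2 * X - C a2) * (C b3 * X - C a3)).map v.integer.subtype := by
    simp only [Pen.V, Pt.ell, ea1, eb1, ea2, eb2, ea3, eb3, ← hu, ← hc, ← hw, C_mul, C_pow] at h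
    simp only [Polynomial.map_sub, Polynomial.map_mul, Polynomial.map_pow, map_C, map_X, C_mul,
      C_pow, Subring.coe_subtype, map_ofNat, Polynomial.map_ofNat] at h ⊢
    linear_combination h
  have hσ2 : σ ^ 2 ≠ 0 := pow_ne_zero 2 hσ
  have goal : v (t * n1 * n2 * n3) = v (σ ^ 2) := by
    rcases lt_trichotomy (v (t * n1 * n2 * n3)) (v (σ ^ 2)) with hl | hl | hl
    · refine absurd (gau_lt v (τ := t * n1 * n2 * n3 / σ ^ 2)
        (B := (C b1 * X - C a1) * (C b2 * X - C a2) * (C b3 * X - C a3)) ?_ ?_) hA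
      · rw [map_div₀]
        exact (div_lt_one₀ ((Valuation.pos_iff v).2 hσ2)).2 hl
      · refine mul_left_cancel₀ (C_ne_zero.2 hσ2) ?_
        rw [key, ← mul_assoc, ← C_mul, mul_div_cancel₀ _ hσ2]
    · exact hl
    · have ht : t * n1 * n2 * n3 ≠ 0 := (Valuation.pos_iff v).1 (lt_of_le_of_lt zero_le hl)
      refine absurd (gau_lt v (τ := σ ^ 2 / (t * n1 * n2 * n3))
        (B := C (a ^ 2) * w - C (2 * a * b) * c - C (b ^ 2) * u) ?_ ?_) hB
      · rw [map_div₀]
        exact (div_lt_one₀ ((Valuation.pos_iff v).2 ht)).2 hl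
      · refine mul_left_cancel₀ (C_ne_zero.2 ht) ?_
        rw [← key, ← mul_assoc, ← C_mul, mul_div_cancel₀ _ ht]
  rw [map_mul, map_mul, map_mul, map_pow, vσ, v1, v2, v3] at goal
  exact goal

end Pool.Agent.P.MP_9344a7_nt.Tor
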