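import Pool.Agent.P.MP_9344a7_nt.Tor.Iface

/-! Step GD. -/

set_option autoImplicit false
set_option linter.unusedSectionVars false

namespace Pool.Agent.P.MP_9344a7_nt.Tor

open Polynomial WithZero
open Pool.Agent.P.MP_6f117a_ag (Place FF)
open Pool.Agent.P.MP_ab3ecb_nt.Inv (ord Dv dv deg SA LS)
open scoped Classical IntermediateField

section

variable {k0 k M : Type} [Field k0] [Field k] [Field M] [Algebra k0 k] [Algebra k0 M] {f : k0[X]}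
  {φ : k →ₐ[k0] M}

lemma gd_fix (p : Pen f k) {σ : M →ₐ[k0] M} (h : ∀ c, σ (φ c) = φ c) :
    (p.map φ).map σ = p.map φ := by
  have e : (σ : M →+* M).comp (φ : k →+* M) = φ := RingHom.ext h
  simp only [Pen.map, Polynomial.map_map, e]

lemma gd_cst [IsAlgClosed k] (hB : FB f M) (hC : FC f k) {p : Pen f k} {P Q1 Q2 : Pt f M}
    (h : (p.map φ).Fib P Q1 Q2) (hP : P ∉ Set.range (Pt.map φ)) : Q1 ∉ Set.range (Pt.map φ) := by
  rintro ⟨Q, rfl⟩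
  obtain ⟨R1, R2, hR⟩ := hC.thru IsAlgClosed.exists_eq_mul_self p Q
  rcases hB.uniq _ _ _ _ _ _ h.s12 (hR.map φ) with e | e
  exacts [hP ⟨_, e.1.symm⟩, hP ⟨_, e.1.symm⟩]

lemma gd_on [IsAlgClosed k] (hB : FB f M) (hC : FC f k) (p : Pen f k) {P : Pt f M}
    (hP : P ∉ Set.range (Pt.map φ)) : ∃ a, (p.map φ).On 1 a P := by
  obtain ⟨s0, s1, h0, h1, h2⟩ := hB.on_ex (p.map φ) P
  rcases eq_or_ne s0 0 with rfl | h
  · have h3 := h0.resolve_left (not_not.2 rfl)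
    obtain ⟨E1, E2, E3, hE⟩ := hC.full inferInstance p 0 1 (.inr one_ne_zero)
    have h4 : (p.map φ).On (φ 0) (φ 1) P := by
      rw [map_zero, map_one]
      exact ⟨mul_left_cancel₀ h3 (by linear_combination h1),
        mul_left_cancel₀ h3 (by linear_combination h2)⟩
    rcases hB.mem _ _ _ _ _ _ _ (hE.map φ) h4 with e | e | e <;> exact absurd ⟨_, e.symm⟩ hP
  · exact ⟨s1 / s0, mul_left_cancel₀ h (by field_simp; linear_combination h1),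
      mul_left_cancel₀ h (by field_simp; linear_combination h2)⟩

lemma gd_val (hB : FB f M) {p : Pen f k} {σ : M →ₐ[k0] M} (h : ∀ c, σ (φ c) = φ c) {P Q : Pt f M}
    {a b : M} (ha : (p.map φ).On 1 a P) (hb : (p.map φ).On 1 b Q) (e : P.map σ = Q) : σ a = b := by
  have h1 := (Pen.On.map σ).2 ha
  rw [gd_fix p h, e, map_one] at h1
  simpa using (hB.on_uniq _ _ _ _ _ _ h1 hb).symm

lemma gd_ex [IsAlgClosed k] (hB : FB f M) (hC : FC f k) (hM : FC f M) (hs : ∀ z : M, IsSquare z)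
    (p1 p2 p3 : Pen f k) {Z : Pt f M} (hZ : Z ∉ Set.range (Pt.map φ)) :
    Nonempty (GenD φ p1 p2 p3 Z) := by
  obtain ⟨X0, X1, hX⟩ := hM.thru hs (p2.map φ) Z
  obtain ⟨Y0, Y1, hY⟩ := hM.thru hs (p3.map φ) Z
  have hio : ∀ {P : Pt f M}, P ∉ Set.range (Pt.map φ) → P.io ∉ Set.range (Pt.map φ) := by
    rintro P hP ⟨Q, e⟩
    exact hP ⟨Q.io, by rw [Pt.map_io, e, Pt.io_io]⟩
  have hXs : ∀ i, ![X0.io, X1.io] i ∉ Set.range (Pt.map φ) :=
    Fin.forall_fin_two.2 ⟨hio (gd_cst hB hC hX hZ), hio (gd_cst hB hC hX.s23 hZ)⟩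
  have hYs : ∀ i, ![Y0, Y1] i ∉ Set.range (Pt.map φ) :=
    Fin.forall_fin_two.2 ⟨gd_cst hB hC hY hZ, gd_cst hB hC hY.s23 hZ⟩
  choose a ha using fun i => gd_on hB hC p1 (hXs i)
  choose c hc using fun i => gd_on hB hC p3 (hXs i)
  choose b hb using fun i => gd_on hB hC p1 (hYs i)
  obtain ⟨c0, hc0⟩ := gd_on hB hC p3 hZ
  choose U0 U1 s0 s1 hU using fun i => hM.thru hs (p1.map φ) (![Y0, Y1] i)
  obtain ⟨t0, t1, hY⟩ := hY
  exact ⟨⟨![X0.io, X1.io], ![Y0, Y1], fun j => ![U0 j, U1 j], a, b, c, c0, by simpa using hX,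
    hB.re _ _ _ _ _ _ _ _ hY (.inl one_ne_zero) hc0,
    fun j => hB.re _ _ _ _ _ _ _ _ (hU j) (.inl one_ne_zero) (hb j), ha, hc⟩⟩

lemma gd_inv (hB : FB f M) {p1 p2 p3 : Pen f k} {Z : Pt f M} (g : GenD φ p1 p2 p3 Z)
    {σ : M →ₐ[k0] M} (h : ∀ c, σ (φ c) = φ c) (hZ : Z.map σ = Z) : σ g.G = g.G ∧ σ g.H = g.H := by
  have hX := g.hX.map σ
  have hY := Pen.Fib.map σ ⟨_, _, g.hY⟩
  rw [gd_fix _ h, hZ] at hX hY
  have h0 := gd_val hB h g.hY.2.1 g.hY.2.1 hZ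
  have ha := fun i j => gd_val hB h (g.ha i) (g.ha j)
  have hc := fun i j => gd_val hB h (g.hc i) (g.hc j)
  have hb := fun i j => gd_val hB h (g.hU i).2.1 (g.hU j).2.1
  simp only [GenD.G, GenD.H, Fin.prod_univ_two, map_mul, map_sub, h0]
  rcases hB.uniq _ _ _ _ _ _ hX g.hX with ⟨e0, e1⟩ | ⟨e0, e1⟩ <;>
    rw [Pt.map_io, Pt.io_inj] at e0 e1 <;>
    rcases hB.uniq _ _ _ _ _ _ hY ⟨_, _, g.hY⟩ with ⟨e2, e3⟩ | ⟨e2, e3⟩ <;>
    rw [ha _ _ e0, ha _ _ e1, hc _ _ e0, hc _ _ e1, hb _ _ e2, hb _ _ e3] <;>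
    exact ⟨by ring, by ring⟩

end

theorem p_GD (hFB : S_FB) (hFC : S_FC) :
    S_GD := by
  intro k0 k E _ _ _ _ _ _ _ _ f x y h p1 p2 p3
  let M := SeparableClosure E
  let ψ := IsScalarTower.toAlgHom k0 E M
  have h2 : (2 : M) ≠ 0 := by
    rw [← map_ofNat (algebraMap k0 M) 2]
    exact (_root_.map_ne_zero _).2 h.gd.two
  have hs : ∀ z : M, IsSquare z := fun z => by
    have : NeZero ((2 : ℕ) : M) := ⟨h2⟩
    obtain ⟨w, rfl⟩ := IsSepClosed.exists_pow_nat_eq z 2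
    exact ⟨w, sq w⟩
  have hZ : h.Z.map ψ ∉ Set.range (Pt.map (ψ.comp (IsScalarTower.toAlgHom k0 k E))) := by
    rintro ⟨P, e⟩
    have e1 : algebraMap k E P.a = x := ψ.injective (congrArg Pt.a e)
    exact h.tr (e1 ▸ isAlgebraic_algebraMap _)
  obtain ⟨g⟩ := gd_ex (hFB k0 M f h.gd) (hFC k0 k f h.gd) (hFC k0 M f h.gd) hs p1 p2 p3 hZ
  have hg := fun σ : M ≃ₐ[E] M => gd_inv (hFB k0 M f h.gd) g
    (σ := (σ : M →ₐ[E] M).restrictScalars k0) (fun c => σ.commutes _)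
    (Pt.ext (σ.commutes _) (σ.commutes _) (σ.commutes _))
  obtain ⟨G, hG⟩ := (InfiniteGalois.mem_range_algebraMap_iff_fixed g.G).2 fun σ => (hg σ).1
  obtain ⟨H, hH⟩ := (InfiniteGalois.mem_range_algebraMap_iff_fixed g.H).2 fun σ => (hg σ).2
  exact ⟨M, inferInstance, inferInstance, inferInstance, inferInstance, g, G, H, hG, hH⟩

end Pool.Agent.P.MP_9344a7_nt.Tor
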