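import Pool.Agent.P.MP_9344a7_nt.Tor.Iface

/-! Step GEN. -/

set_option autoImplicit false
set_option linter.unusedSectionVars false

namespace Pool.Agent.P.MP_9344a7_nt.Tor

open Polynomial WithZero
open Pool.Agent.P.MP_6f117a_ag (Place FF)
open Pool.Agent.P.MP_ab3ecb_nt.Inv (ord Dv dv deg SA LS)
open scoped Classical IntermediateField

theorem p_GEN (hDD : S_DD) (hNRB : S_NRB) (hPD : S_PD) (hSYM : S_SYM) :
    S_GEN := by
  intro K M Γ G _ _ _ _ _ v t f I hA hf Q1 Q2 Q3 P1 P2 P3 R1 R2 R3 o1 o2 o3 hnc h23 n1 n2 n3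
    m1 m2 m3 hcl
  have vs : VS v f := ⟨hf, hA.triv⟩
  have D := hDD K M Γ v f vs
  have N := (hNRB K M Γ v f vs).1
  obtain ⟨p, hp, hfib⟩ := hPD K M Γ v f vs P1 P2 P3
    (by
      intro P hP
      simp only [List.mem_cons, List.not_mem_nil, or_false] at hP
      rcases hP with rfl | rfl | rfl
      · exact ⟨(N.ok _ _ n1 o1).1.1, (N.ok _ _ n1 o1).2.1, (N.ok _ _ n1 o1).2.2.1⟩
      · exact ⟨(N.ok _ _ n2 o2).1.1, (N.ok _ _ n2 o2).2.1, (N.ok _ _ n2 o2).2.2.1⟩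
      · exact ⟨(N.ok _ _ n3 o3).1.1, (N.ok _ _ n3 o3).2.1, (N.ok _ _ n3 o3).2.2.1⟩)
    (N.ne _ _ _ _ n2 (N.io _ _ n1) hnc.1).1 (N.ne _ _ _ _ n3 (N.io _ _ n1) hnc.2.1).1
    (N.ne _ _ _ _ n3 (N.io _ _ n2) hnc.2.2).1
  have fP : p.Fib P1 P2 P3 := ⟨_, _, hfib⟩
  have fR : p.Fib R1 R2 R3 := (I.fib p _ _ _ _ _ _ fP).2 hcl
  have S := hSYM K M Γ v f vs p hp
  have e23 : dd v P2 R3 = 1 := (N.ne _ _ _ _ n2 m3 h23).1
  have e32 : dd v P3 R2 = 1 := (N.ne _ _ _ _ n3 m2 h23.symm).1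
  have a2 : dd v P1 R1 * dd v P1 R2 * dd v P1 R3 = dd v P2 R1 * dd v P2 R2 := by
    have := S.same _ _ _ _ _ _ fP fR
    rwa [d3, d3, e23, mul_one] at this
  have a3 : dd v P1 R1 * dd v P1 R2 * dd v P1 R3 = dd v P1 R2 * dd v P2 R2 := by
    have := (S.sym _ _ _ _ _ _ fP fR).trans (S.same _ _ _ _ _ _ fR fP)
    rwa [d3, d3, D.symm R2 P1, D.symm R2 P2, D.symm R2 P3, e32, mul_one] at this
  have h1 : dd v P2 R2 ≤ dd v P1 R1 := by
    by_cases h0 : dd v P1 R2 = 0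
    · rw [h0, mul_zero, zero_mul] at a2
      rcases mul_eq_zero.1 a2.symm with h | h
      · rw [← (D.zero _ _).1 h0, ← (D.zero _ _).1 h, D.symm]
      · rw [h]; exact zero_le
    · have : dd v P2 R2 = dd v P1 R1 * dd v P1 R3 := by
        refine mul_left_cancel₀ h0 ?_
        rw [← a3, mul_comm (dd v P1 R1) (dd v P1 R2), mul_assoc]
      rw [this]
      exact mul_le_of_le_one_right' (D.le _ _)
  refine ⟨h1, fun h12 => ?_⟩
  subst h12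
  have e31 : dd v P3 R1 = 1 := (N.ne _ _ _ _ n3 m1 h23.symm).1
  have a4 : dd v P2 R1 * dd v P2 R2 = dd v P3 R3 := by
    have := S.same _ _ _ _ _ _ fP.rot fR
    rwa [d3, d3, e23, mul_one, e31, e32, one_mul, one_mul] at this
  have h2 : dd v P2 R1 ≤ v t := by
    have h3 := N.lt _ _ _ n2 m1
    rw [N.dist _ _ _ n2 m1 o1] at h3 ⊢
    exact hA.disc _ h3
  rw [← a4]
  exact mul_le_mul' h2 h1

end Pool.Agent.P.MP_9344a7_nt.Tor
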