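import Pool.Agent.P.MP_9344a7_nt.Tor.Iface

/-! Step HF. -/

set_option autoImplicit false
set_option linter.unusedSectionVars false

namespace Pool.Agent.P.MP_9344a7_nt.Tor

open Polynomial WithZero
open Pool.Agent.P.MP_6f117a_ag (Place FF)
open Pool.Agent.P.MP_ab3ecb_nt.Inv (ord Dv dv deg SA LS)
open scoped Classical IntermediateField

lemma hf_frac {k E : Type} [Field k] [Field E] [Algebra k E] {x : E} (hx : Transcendental k x)
    (c : k⟮x⟯) : ∃ r s : k[X], s ≠ 0 ∧ (c : E) * aeval x s = aeval x r := by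
  obtain ⟨r, s, h⟩ := (IntermediateField.mem_adjoin_simple_iff k (c : E)).1 c.2
  by_cases hs : s = 0
  · exact ⟨0, 1, one_ne_zero, by simp [h, hs]⟩
  · have : aeval x s ≠ 0 := fun e => hs (transcendental_iff.1 hx s e)
    exact ⟨r, s, hs, by rw [h, div_mul_cancel₀ _ this]⟩

theorem p_HF :
    S_HF := by
  intro k0 k E _ _ _ _ _ _ _ f x y h
  have hfx : aeval x (f.map (algebraMap k0 k)) = y ^ 2 := by
    rw [aeval_map_algebraMap, h.eq]
  have indep : ∀ A B : k[X], aeval x A + aeval x B * y = 0 → A = 0 ∧ B = 0 := by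
    intro A B hAB
    by_cases hB : B = 0
    · refine ⟨transcendental_iff.1 h.tr A ?_, hB⟩
      simpa [hB] using hAB
    exfalso
    have e : A ^ 2 - B ^ 2 * f.map (algebraMap k0 k) = 0 := by
      refine transcendental_iff.1 h.tr _ ?_
      rw [map_sub, map_mul, map_pow, map_pow, hfx]
      linear_combination (aeval x A - aeval x B * y) * hAB
    have hd : B ^ 2 ∣ A ^ 2 := ⟨_, sub_eq_zero.1 e⟩
    obtain ⟨D, rfl⟩ := (UniqueFactorizationMonoid.pow_dvd_pow_iff_dvd two_ne_zero).1 hd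
    have e2 : f.map (algebraMap k0 k) = D * D := by
      apply mul_left_cancel₀ (pow_ne_zero 2 hB)
      linear_combination -e
    have hu : IsUnit D := (h.gd.sep.map (f := algebraMap k0 k)).squarefree D (by rw [e2])
    have := congrArg natDegree e2
    rw [natDegree_map, h.gd.deg, natDegree_eq_zero_of_isUnit (hu.mul hu)] at this
    omega
  have hmem : aeval x f ∈ k⟮x⟯ := by
    exact (IntermediateField.mem_adjoin_simple_iff k _).2 ⟨f.map (algebraMap k0 k), 1, by simp⟩
  set a : k⟮x⟯ := ⟨aeval x f, hmem⟩ with ha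
  have hroot : ∀ z : E, z ^ 2 = y ^ 2 → aeval z (X ^ 2 - C a : k⟮x⟯[X]) = 0 := fun z hz => by
    rw [map_sub, map_pow, aeval_X, aeval_C, hz, h.eq]
    exact sub_self _
  have hm : (X ^ 2 - C a : k⟮x⟯[X]).Monic := monic_X_pow_sub_C a two_ne_zero
  have hy : IsIntegral k⟮x⟯ y := ⟨_, hm, by simpa [aeval_def] using hroot y rfl⟩
  have htop : k⟮x⟯⟮y⟯ = ⊤ := by
    rw [← IntermediateField.restrictScalars_eq_top_iff (K := k),
      IntermediateField.adjoin_simple_adjoin_simple, h.gen]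
  have hdeg : (minpoly k⟮x⟯ y).natDegree = 2 := by
    have h1 : (minpoly k⟮x⟯ y).natDegree ≤ 2 := by
      have := natDegree_le_of_dvd (minpoly.dvd _ _ (hroot y rfl)) hm.ne_zero
      rwa [natDegree_X_pow_sub_C] at this
    have h2 : 2 ≤ (minpoly k⟮x⟯ y).natDegree := by
      rw [minpoly.two_le_natDegree_iff hy]
      rintro ⟨c, hc⟩
      obtain ⟨r, s, hs, e⟩ := hf_frac h.tr c
      have : aeval x (-r) + aeval x s * y = 0 := by
        rw [← hc, map_neg, ← e]
        change -((c : E) * _) + _ * (c : E) = 0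
        ring
      exact hs (indep _ _ this).2
    omega
  have hmin : minpoly k⟮x⟯ y = X ^ 2 - C a := by
    refine eq_of_monic_of_dvd_of_natDegree_le (minpoly.monic hy) hm
      (minpoly.dvd _ _ (hroot y rfl)) ?_ |>.symm
    rw [natDegree_X_pow_sub_C, hdeg]
  let pb : PowerBasis k⟮x⟯ E := (IntermediateField.adjoin.powerBasis hy).map
    ((IntermediateField.equivOfEq htop).trans IntermediateField.topEquiv)
  have hgen : pb.gen = y := rfl
  have hdim : pb.dim = 2 := hdeg
  have hfin : FiniteDimensional k⟮x⟯ E := pb.finite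
  refine ⟨(Pool.Agent.P.MP_ab3ecb_nt.Inv.PL.ff_of_finite k E E x).1, by rw [pb.finrank, hdim], ?_, ?_, indep⟩
  · have hr : aeval (-y) (minpoly k⟮x⟯ pb.gen) = 0 := by
      rw [hgen, hmin]; exact hroot _ (neg_sq y)
    refine ⟨(AlgEquiv.ofBijective (pb.lift (-y) hr)
      (Algebra.IsAlgebraic.algHom_bijective _)).restrictScalars k, ?_, ?_⟩
    · exact (pb.lift (-y) hr).commutes ⟨x, IntermediateField.mem_adjoin_simple_self k x⟩
    · exact pb.lift_gen (-y) hr
  · intro z
    obtain ⟨g, hg, hz⟩ := pb.exists_eq_aeval z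
    rw [hdim] at hg
    rw [hgen, aeval_eq_sum_range' hg, Finset.sum_range_succ, Finset.sum_range_one] at hz
    obtain ⟨r0, s0, hs0, e0⟩ := hf_frac h.tr (g.coeff 0)
    obtain ⟨r1, s1, hs1, e1⟩ := hf_frac h.tr (g.coeff 1)
    refine ⟨r0 * s1, r1 * s0, s0 * s1, mul_ne_zero hs0 hs1, ?_⟩
    rw [hz, map_mul, map_mul, map_mul, ← e0, ← e1, Algebra.smul_def, Algebra.smul_def]
    change ((g.coeff 0 : E) * _ + (g.coeff 1 : E) * _) * _ = _
    ring

end Pool.Agent.P.MP_9344a7_nt.Tor
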