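import Pool.Agent.P.MP_9344a7_nt.Tor.Iface

/-! Step ISO. -/

set_option autoImplicit false
set_option linter.unusedSectionVars false

namespace Pool.Agent.P.MP_9344a7_nt.Tor

open Polynomial WithZero
open Pool.Agent.P.MP_6f117a_ag (Place FF)
open Pool.Agent.P.MP_ab3ecb_nt.Inv (ord Dv dv deg SA LS)
open scoped Classical IntermediateField

lemma iso_frac {R E E' : Type} [CommRing R] [Field E] [Field E'] (φ : R →+* E) (ψ : R →+* E')
    (h : ∀ r, φ r = 0 ↔ ψ r = 0) (h1 : ∀ z, ∃ a b, z = φ a / φ b)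
    (h2 : ∀ z, ∃ a b, z = ψ a / ψ b) : ∃ i : E ≃+* E', ∀ r, i (φ r) = ψ r := by
  let φ' : R ⧸ RingHom.ker φ →+* E := Ideal.Quotient.lift _ φ fun _ ha => ha
  let ψ' : R ⧸ RingHom.ker φ →+* E' := Ideal.Quotient.lift _ ψ fun a ha => (h a).1 ha
  have i1 : Function.Injective φ' := RingHom.lift_injective_of_ker_le_ideal _ _ le_rfl
  have i2 : Function.Injective ψ' :=
    RingHom.lift_injective_of_ker_le_ideal _ _ fun a ha => (h a).2 ha
  let _ := φ'.toAlgebra
  let _ := ψ'.toAlgebra
  have := (faithfulSMul_iff_algebraMap_injective _ E).2 i1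
  have := (faithfulSMul_iff_algebraMap_injective _ E').2 i2
  have : IsFractionRing (R ⧸ RingHom.ker φ) E := IsFractionRing.of_field _ _ fun z => by
    obtain ⟨a, b, e⟩ := h1 z
    exact ⟨Ideal.Quotient.mk _ a, Ideal.Quotient.mk _ b, e⟩
  have : IsFractionRing (R ⧸ RingHom.ker φ) E' := IsFractionRing.of_field _ _ fun z => by
    obtain ⟨a, b, e⟩ := h2 z
    exact ⟨Ideal.Quotient.mk _ a, Ideal.Quotient.mk _ b, e⟩
  exact ⟨(IsLocalization.algEquiv (nonZeroDivisors (R ⧸ RingHom.ker φ)) E E').toRingEquiv,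
    fun r => (IsLocalization.algEquiv (nonZeroDivisors (R ⧸ RingHom.ker φ)) E E').commutes
      (Ideal.Quotient.mk _ r)⟩

lemma iso_semi {k E E' : Type} [Field k] [Field E] [Field E'] [Algebra k E] [Algebra k E']
    (s : k ≃+* k) (p : k[X]) {x y : E} {x' y' : E'} (e : y ^ 2 = aeval x p)
    (e' : y' ^ 2 = aeval x' (p.map (s : k →+* k)))
    (r : ∀ z : E, ∃ A B N : k[X], N ≠ 0 ∧ z * aeval x N = aeval x A + aeval x B * y)
    (r' : ∀ z : E', ∃ A B N : k[X], N ≠ 0 ∧ z * aeval x' N = aeval x' A + aeval x' B * y')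
    (d : ∀ A B : k[X], aeval x A + aeval x B * y = 0 → A = 0 ∧ B = 0)
    (d' : ∀ A B : k[X], aeval x' A + aeval x' B * y' = 0 → A = 0 ∧ B = 0) :
    ∃ i : E ≃+* E', (∀ c, i (algebraMap k E c) = algebraMap k E' (s c)) ∧ i x = x' ∧ i y = y' := by
  let φ : k[X][X] →+* E := eval₂RingHom (aeval x : k[X] →ₐ[k] E) y
  let ψ : k[X][X] →+* E' :=
    eval₂RingHom (((aeval x' : k[X] →ₐ[k] E') : k[X] →+* E').comp (mapRingHom (s : k →+* k))) y'
  have φC : ∀ A, φ (C A) = aeval x A := fun A => eval₂_C _ _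
  have ψC : ∀ A, ψ (C A) = aeval x' (A.map (s : k →+* k)) := fun A => eval₂_C _ _
  have φX : φ X = y := eval₂_X _ _
  have ψX : ψ X = y' := eval₂_X _ _
  have key : ∀ q, ∃ A B : k[X], φ q = aeval x A + aeval x B * y ∧
      ψ q = aeval x' (A.map (s : k →+* k)) + aeval x' (B.map (s : k →+* k)) * y' := by
    intro q
    induction q using Polynomial.induction_on with
    | C A => exact ⟨A, 0, by simp [φC], by simp [ψC]⟩
    | add q q' h1 h2 =>
      obtain ⟨A, B, a1, a2⟩ := h1
      obtain ⟨A', B', b1, b2⟩ := h2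
      refine ⟨A + A', B + B', ?_, ?_⟩
      · rw [map_add, a1, b1, map_add, map_add]; ring
      · rw [map_add, a2, b2, Polynomial.map_add, Polynomial.map_add, map_add, map_add]; ring
    | monomial n A0 h1 =>
      obtain ⟨A, B, a1, a2⟩ := h1
      refine ⟨B * p, A, ?_, ?_⟩
      · rw [pow_succ, ← mul_assoc, map_mul, a1, φX, map_mul, ← e]; ring
      · rw [pow_succ, ← mul_assoc, map_mul, a2, ψX, Polynomial.map_mul, map_mul, ← e']; ring
  have ms : ∀ A : k[X], (A.map (s.symm : k →+* k)).map (s : k →+* k) = A := fun A => by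
    rw [Polynomial.map_map]; simp
  obtain ⟨i, hi⟩ := iso_frac φ ψ (fun q => by
      obtain ⟨A, B, a1, a2⟩ := key q
      rw [a1, a2]
      constructor
      · intro h
        obtain ⟨rfl, rfl⟩ := d A B h
        simp
      · intro h
        obtain ⟨h1, h2⟩ := d' _ _ h
        rw [(Polynomial.map_eq_zero _).1 h1, (Polynomial.map_eq_zero _).1 h2]
        simp)
    (fun z => by
      obtain ⟨A, B, N, hN, h⟩ := r z
      refine ⟨C A + C B * X, C N, ?_⟩
      rw [map_add, map_mul, φC, φC, φC, φX, ← h, mul_div_cancel_right₀]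
      exact fun h0 => hN (d N 0 (by simp [h0])).1)
    (fun z => by
      obtain ⟨A, B, N, hN, h⟩ := r' z
      refine ⟨C (A.map (s.symm : k →+* k)) + C (B.map (s.symm : k →+* k)) * X,
        C (N.map (s.symm : k →+* k)), ?_⟩
      rw [map_add, map_mul, ψC, ψC, ψC, ψX, ms, ms, ms, ← h, mul_div_cancel_right₀]
      exact fun h0 => hN (d' N 0 (by simp [h0])).1)
  refine ⟨i, fun c => ?_, ?_, ?_⟩
  · simpa [φC, ψC] using hi (C (C c))
  · simpa [φC, ψC] using hi (C X)
  · simpa [φX, ψX] using hi X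

lemma iso_mob {F E : Type} [Field F] [Field E] [Algebra F E] (g : F[X]) (α β γ δ : F) (z : E) :
    aeval z (mob 6 g α β γ δ) = hev 6 (g.map (algebraMap F E))
      (algebraMap F E α * z + algebraMap F E β) (algebraMap F E γ * z + algebraMap F E δ) := by
  simp [mob, hev]

theorem p_ISO (hHF : S_HF) :
    S_ISO := by
  intro F E E' _ _ _ _ _ _ _ _ _ _ C D f g x y x' y' hC hD ⟨τ, α, β, γ, δ, κ, hΔ, hκ, hf⟩
  let s := IsAlgClosure.equivOfEquiv (AlgebraicClosure F) (AlgebraicClosure F) τ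
  have hs : ∀ c, s (algebraMap F _ c) = algebraMap F _ (τ c) :=
    IsAlgClosure.equivOfEquiv_algebraMap _ _ τ
  have al : ∀ c : F, algebraMap F E' c = algebraMap (AlgebraicClosure F) E' (algebraMap F _ c) :=
    IsScalarTower.algebraMap_apply F _ E'
  have fx : ∀ c : F, D.Φ (algebraMap F E' c) = algebraMap F E' c := fun c => by
    rw [al, D.frob, ← map_pow, FiniteField.pow_card]
  have hΔ' : algebraMap F E' α * algebraMap F E' δ - algebraMap F E' β * algebraMap F E' γ ≠ 0 := by
    rw [← map_mul, ← map_mul, ← map_sub]; exact (_root_.map_ne_zero _).2 hΔ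
  have hκ' : algebraMap F E' κ ≠ 0 := (_root_.map_ne_zero _).2 hκ
  have hw : algebraMap F E' α - algebraMap F E' γ * x' ≠ 0 := fun h => by
    have h1 := transcendental_iff.1 hD.hyp.tr
      (Polynomial.C (algebraMap F _ α) - Polynomial.C (algebraMap F _ γ) * X)
      (by simpa [← al] using h)
    have h2 := congrArg (coeff · 0) h1
    have h3 := congrArg (coeff · 1) h1
    simp [coeff_C] at h2 h3
    exact hΔ (by rw [h2, h3]; ring)
  obtain ⟨x2, hx2⟩ : ∃ x2, x2 = (algebraMap F E' δ * x' - algebraMap F E' β) /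
    (algebraMap F E' α - algebraMap F E' γ * x') := ⟨_, rfl⟩
  obtain ⟨u, hu⟩ : ∃ u, u = algebraMap F E' γ * x2 + algebraMap F E' δ := ⟨_, rfl⟩
  have hx3 := (eq_div_iff hw).1 hx2
  have hu0 : u ≠ 0 := fun h => hΔ' (by
    rw [hu] at h
    linear_combination (algebraMap F E' α - algebraMap F E' γ * x') * h - algebraMap F E' γ * hx3)
  have hux : algebraMap F E' α * x2 + algebraMap F E' β = u * x' := by
    rw [hu]; linear_combination hx3
  have mem : ∀ K : IntermediateField (AlgebraicClosure F) E', x2 ∈ K → u ∈ K ∧ x' ∈ K := by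
    intro K h
    have hc : ∀ c : F, algebraMap F E' c ∈ K := fun c => al c ▸ K.algebraMap_mem _
    have h1 : u ∈ K := hu ▸ add_mem (mul_mem (hc _) h) (hc _)
    refine ⟨h1, ?_⟩
    rw [← mul_div_cancel_left₀ x' hu0, ← hux]
    exact div_mem (add_mem (mul_mem (hc _) h) (hc _)) h1
  have hy : Hyp (AlgebraicClosure F) (f.map (τ : F →+* F)) x2 (algebraMap F E' κ * u ^ 3 * y') := by
    refine ⟨⟨hC.hyp.gd.sep.map, by rw [natDegree_map, hC.hyp.gd.deg], hC.hyp.gd.two⟩,
      fun h => hD.hyp.tr ?_, ?_, ?_⟩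
    · exact mem_algebraicClosure_iff.1 (mem _ (mem_algebraicClosure_iff.2 h)).2
    · have := hev_smul 6 (g.map (algebraMap F E')) u x' 1
      rw [mul_one, hev_aff (natDegree_map_le.trans hD.hyp.gd.deg.le), eval_map_algebraMap,
        ← hD.hyp.eq] at this
      rw [hf, map_mul, aeval_C, iso_mob, hux, ← hu, this, map_pow]
      ring
    · rw [eq_top_iff, ← hD.hyp.gen, IntermediateField.adjoin_le_iff]
      have h2 := IntermediateField.subset_adjoin (AlgebraicClosure F)
        ({x2, algebraMap F E' κ * u ^ 3 * y'} : Set E')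
      generalize IntermediateField.adjoin (AlgebraicClosure F)
        ({x2, algebraMap F E' κ * u ^ 3 * y'} : Set E') = K at h2 ⊢
      have h0 := mem K (h2 (Set.mem_insert _ _))
      have h3 : algebraMap F E' κ * u ^ 3 * y' ∈ K := h2 (Set.mem_insert_of_mem _ rfl)
      have h4 : algebraMap F E' κ ∈ K := by rw [al]; exact K.algebraMap_mem _
      have h1 := div_mem h3 (mul_mem h4 (pow_mem h0.1 3))
      rw [mul_div_cancel_left₀ _ (mul_ne_zero hκ' (pow_ne_zero 3 hu0))] at h1
      exact Set.insert_subset h0.2 (Set.singleton_subset_iff.2 h1)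
  obtain ⟨-, -, -, r, d⟩ := hHF F _ E f x y hC.hyp
  obtain ⟨-, -, -, r', d'⟩ := hHF F _ E' _ _ _ hy
  obtain ⟨i, i1, i2, i3⟩ := iso_semi s (f.map (algebraMap F _))
    (by rw [aeval_map_algebraMap]; exact hC.hyp.eq) (by
      rw [hy.eq, ← aeval_map_algebraMap (AlgebraicClosure F), Polynomial.map_map,
        Polynomial.map_map]
      exact congrArg (fun ρ => aeval x2 (f.map ρ)) (RingHom.ext fun c => (hs c).symm)) r r' d d'
  have f2 : D.Φ x2 = x2 := by
    rw [hx2]; simp only [map_div₀, map_sub, map_mul, fx, hD.fx]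
  have f3 : D.Φ u = u := by
    rw [hu]; simp only [map_add, map_mul, fx, f2]
  refine ⟨i, s, i1, fun z => ?_⟩
  have hz : z ∈ IntermediateField.adjoin (AlgebraicClosure F) {x, y} := hC.hyp.gen ▸ trivial
  induction hz using IntermediateField.adjoin_induction with
  | mem z hz =>
    rcases hz with rfl | rfl
    · rw [hC.fx, i2, f2]
    · rw [hC.fy, i3]; simp only [map_mul, map_pow, fx, f3, hD.fy]
  | algebraMap c => rw [C.frob, i1, i1, D.frob, map_pow]
  | add a b _ _ h1 h2 => simp only [map_add, h1, h2]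
  | inv a _ h1 => simp only [map_inv₀, h1]
  | mul a b _ _ h1 h2 => simp only [map_mul, h1, h2]

end Pool.Agent.P.MP_9344a7_nt.Tor
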