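import Pool.Agent.P.MP_9344a7_nt.Tor.Iface

/-! Step KEY. -/

set_option autoImplicit false
set_option linter.unusedSectionVars false

namespace Pool.Agent.P.MP_9344a7_nt.Tor

open Polynomial WithZero
open Pool.Agent.P.MP_6f117a_ag (Place FF)
open Pool.Agent.P.MP_ab3ecb_nt.Inv (ord Dv dv deg SA LS)
open scoped Classical IntermediateField

lemma key_J {L : Type} [Field L] {x y q b c : L} (hx : x ≠ q) (hy : y ≠ q) (hb : q ≠ b)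
    (hc : q ≠ c) (h : (x - q) * (y - b) * (q - c) - (x - c) * (y - q) * (q - b) = 0) :
    (y - q)⁻¹ - (b - q)⁻¹ = (x - q)⁻¹ - (c - q)⁻¹ := by
  have h1 : x - q ≠ 0 := sub_ne_zero.2 hx
  have h2 : y - q ≠ 0 := sub_ne_zero.2 hy
  have h3 : b - q ≠ 0 := sub_ne_zero.2 hb.symm
  have h4 : c - q ≠ 0 := sub_ne_zero.2 hc.symm
  field_simp
  linear_combination h

section

variable {F G G' : Type} [Field F] [AddCommGroup G] [AddCommGroup G'] {f g : F[X]}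
  {T : Tr f g G G'}

/-- All six points are off the bad set. -/
def key_Off (T : Tr f g G G') (κ : Cfg f F) : Prop :=
  κ.X.a ∉ T.B ∧ κ.Y.a ∉ T.B ∧ κ.Z.a ∉ T.B ∧ κ.A.a ∉ T.B ∧ κ.B.a ∉ T.B ∧ κ.C.a ∉ T.B

lemma key_ne (h : T.TB) {P Q : Pt f F} (hP : P.a ∉ T.B) (hQ : Q.a ∉ T.B) (e : P ≠ Q) :
    T.φ P ≠ T.φ Q := fun e' => e (h.inj P Q hP hQ e')

lemma key_nio (h : T.TB) {P Q : Pt f F} (hP : P.a ∉ T.B) (hQ : Q.a ∉ T.B) (e : P.io ≠ Q) :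
    (T.φ P).io ≠ T.φ Q := by
  rw [← h.io P hP]
  exact key_ne h hP hQ e

lemma key_na (h : T.TB) {P Q : Pt f F} (hP : P.a ∉ T.B) (hQ : Q.a ∉ T.B) (e : P.a ≠ Q.a) :
    (T.φ P).a ≠ (T.φ Q).a := fun e' => e ((h.a P Q hP hQ).1 e')

lemma key_nd (h : T.TB) {κ : Cfg f F} (o : key_Off T κ) (n : κ.Nd) : (κ.ap T.φ).Nd := by
  obtain ⟨oX, oY, oZ, oA, oB, oC⟩ := o
  obtain ⟨⟨kX, kY, kZ, kA, kB, kC⟩, ⟨a1, a2, a3⟩, ⟨b1, b2, b3⟩, c1, c2, c3⟩ := n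
  exact ⟨⟨h.ok _ oX kX, h.ok _ oY kY, h.ok _ oZ kZ, h.ok _ oA kA, h.ok _ oB kB, h.ok _ oC kC⟩,
    ⟨key_na h oX oY a1, key_na h oX oA a2, key_na h oY oA a3⟩,
    ⟨key_na h oX oZ b1, key_na h oX oC b2, key_na h oZ oC b3⟩,
    key_na h oY oZ c1, key_na h oY oB c2, key_na h oZ oB c3⟩

lemma key_nc {P1 P2 P3 : Pt g F} (h12 : P1.a ≠ P2.a) (h13 : P1.a ≠ P3.a) (h23 : P2.a ≠ P3.a) :
    NC3 P1 P2 P3 :=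
  ⟨fun e => h12 (by rw [e]; rfl), fun e => h13 (by rw [e]; rfl), fun e => h23 (by rw [e]; rfl)⟩

lemma key_pen (hPD0 : S_PD0) (hg : Gd g) {κ : Cfg g F} (n : κ.Nd) :
    ∃ p1 p2 p3 : Pen g F, κ.In p1 p2 p3 := by
  obtain ⟨⟨kX, kY, kZ, kA, kB, kC⟩, ⟨a1, a2, a3⟩, ⟨b1, b2, b3⟩, c1, c2, c3⟩ := n
  obtain ⟨p1, h1⟩ := hPD0 F F g hg _ _ _ kX kY kA (key_nc a1 a2 a3)
  obtain ⟨p2, h2⟩ := hPD0 F F g hg κ.X.io _ _ (Pt.ok_io.2 kX) kZ kC (key_nc b1 b2 b3)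
  obtain ⟨p3, h3⟩ := hPD0 F F g hg _ _ _ kY kZ kB (key_nc c1 c2 c3)
  exact ⟨p1, p2, p3, ⟨_, _, h1⟩, ⟨_, _, h2⟩, ⟨_, _, h3⟩⟩

lemma key_in (h : T.TB) {κ0 κ : Cfg f F} (o0 : key_Off T κ0) (o : key_Off T κ)
    {p1 p2 p3 : Pen f F} {q1 q2 q3 : Pen g F} (i0 : κ0.In p1 p2 p3) (i : κ.In p1 p2 p3)
    (j0 : (κ0.ap T.φ).In q1 q2 q3) : (κ.ap T.φ).In q1 q2 q3 := by
  obtain ⟨oX, oY, oZ, oA, oB, oC⟩ := o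
  obtain ⟨pX, pY, pZ, pA, pB, pC⟩ := o0
  refine ⟨h.fib p1 q1 _ _ _ _ _ _ pX pY pA oX oY oA i0.1 i.1 j0.1, ?_,
    h.fib p3 q3 _ _ _ _ _ _ pY pZ pB oY oZ oB i0.2.2 i.2.2 j0.2.2⟩
  have h1 : q2.Fib (T.φ κ0.X.io) (T.φ κ0.Z) (T.φ κ0.C) := by
    rw [h.io _ pX]
    exact j0.2.1
  have h2 := h.fib p2 q2 κ0.X.io _ _ κ.X.io _ _ pX pZ pC oX oZ oC i0.2.1 i.2.1 h1
  rw [h.io _ oX] at h2
  exact h2

lemma key_fam (h : T.TB) {κ0 : Cfg f F} {κs : Fin 10 → Cfg f F} (o0 : key_Off T κ0)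
    (o : ∀ j, key_Off T (κs j)) {p1 p2 p3 : Pen f F} {q1 q2 q3 : Pen g F}
    (a : Fam κ0 κs p1 p2 p3) (j0 : (κ0.ap T.φ).In q1 q2 q3) :
    Fam (κ0.ap T.φ) (fun j => (κs j).ap T.φ) q1 q2 q3 where
  in0 := j0
  nd := key_nd h o0 a.nd
  ins j := key_in h o0 (o j) a.in0 (a.ins j) j0
  ur j := ⟨key_nio h (o j).1 (o j).2.2.2.2.2 (a.ur j).1,
    key_ne h (o j).2.1 (o j).2.2.2.2.1 (a.ur j).2⟩
  ne j := key_ne h (o j).2.2.1 o0.2.2.1 (a.ne j)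
  inj i j hX hY hZ := a.inj i j (h.inj _ _ (o i).1 (o j).1 hX) (h.inj _ _ (o i).2.1 (o j).2.1 hY)
    (h.inj _ _ (o i).2.2.1 (o j).2.2.1 hZ)

lemma key_cl (h : T.TB) {κ : Cfg f F} (o : key_Off T κ) {U1 U2 : Pt f F} (o1 : U1.a ∉ T.B)
    (o2 : U2.a ∉ T.B) {p1 : Pen f F} {q1 : Pen g F} (i : p1.Fib κ.X κ.Y κ.A)
    (j : q1.Fib (T.φ κ.X) (T.φ κ.Y) (T.φ κ.A)) (c : κ.Cl p1 U1 U2) :
    (κ.ap T.φ).Cl q1 (T.φ U1) (T.φ U2) := by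
  obtain ⟨oX, oY, oZ, oA, oB, oC⟩ := o
  obtain ⟨c0, c1, c2, c3, c4, c5, c6, c7⟩ := c
  exact ⟨h.fib p1 q1 _ _ _ _ _ _ oX oY oA oB o1 o2 i c0 j, key_ne h oB oX c1, key_ne h oB oA c2,
    key_nio h oC oY c3, key_nio h oC oA c4, key_nio h oC oB c5, key_nio h oC o1 c6,
    key_nio h oC o2 c7⟩

lemma key_rel (h : T.TB) {κ0 : Cfg f F} {κs : Fin 10 → Cfg f F} (o0 : key_Off T κ0)
    (o : ∀ j, key_Off T (κs j)) (r : T.I.Rel κ0 κs) :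
    T.I'.Rel (κ0.ap T.φ) (fun j => (κs j).ap T.φ) := by
  obtain ⟨pX, pY, pZ, pA, pB, pC⟩ := o0
  have r' := congrArg T.θ r
  have hs : ∑ j, T.θ (T.I.cl (κs j).Z) = ∑ j, T.I'.cl (T.φ (κs j).Z) :=
    Finset.sum_congr rfl fun j _ => T.cl _ (o j).2.2.1
  simp only [map_add, map_nsmul, map_sum, T.K] at r'
  rw [hs, T.cl _ pZ, T.cl _ pY, T.cl _ pB, T.cl _ pC, T.cl κ0.X.io pX, h.io _ pX] at r'
  exact r'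

end

theorem p_KEY (hFB : S_FB) (hPD0 : S_PD0) (hTRB : S_TRB) :
    S_KEY := by
  intro F G G' _ _ _ f g T Q X C γ τ z hQ hX hC hc hz
  obtain ⟨Y, B, U1, U2, W1, W2, p1, p2, p3, κs, fam, hJ, hcl, n8, j8, c8, hB, -, -, rfl⟩ := hc
  have h := hTRB F G G' f g T
  have oY : Y.a ∉ T.B := hz (.inl 0)
  have oB : B.a ∉ T.B := hz (.inl 1)
  have o1 : U1.a ∉ T.B := hz (.inl 2)
  have o2 : U2.a ∉ T.B := hz (.inl 3)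
  have o : ∀ j, key_Off T (κs j) := fun j =>
    ⟨hz (.inr (j, 0)), hz (.inr (j, 1)), hz (.inr (j, 2)), hz (.inr (j, 3)), hz (.inr (j, 4)),
      hz (.inr (j, 5))⟩
  have o0 : key_Off T ⟨X, Y, Q.io, Q, B, C⟩ := ⟨hX, oY, hQ, hQ, oB, hC⟩
  have r := key_rel h o0 o (T.det.dc _ _ _ _ _ fam hJ ⟨8, W1, W2, n8, j8, c8⟩)
  have n' := key_nd h o0 fam.nd
  obtain ⟨q1, q2, q3, j0⟩ := key_pen hPD0 T.gg n'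
  have hJ' := T.det'.dd _ _ _ _ _ _ _ (key_fam h o0 o fam j0)
    (key_cl h o0 o1 o2 fam.in0.1 j0.1 hcl) r
  obtain ⟨-, ⟨-, a2, a3⟩, ⟨-, -, b3⟩, -, -, c3⟩ := fam.nd
  obtain ⟨-, ⟨-, a2', a3'⟩, ⟨-, -, b3'⟩, -, -, c3'⟩ := n'
  have e : (T.φ Q.io).a = (T.φ Q).a := by rw [h.io Q hQ]; rfl
  have k1 : (Y.a - Q.a)⁻¹ - (B.a - Q.a)⁻¹ = (X.a - Q.a)⁻¹ - (C.a - Q.a)⁻¹ :=
    key_J a2 a3 c3 b3 hJ
  refine ⟨Y, B, oY, oB, hB, ?_, ?_⟩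
  · have h2 : Y.a - Q.a ≠ 0 := sub_ne_zero.2 a3
    have h3 : τ + γ = (B.a - Q.a)⁻¹ := eq_inv_of_mul_eq_one_right hB
    rw [h3, zz, zz, ← k1, add_sub_cancel, mul_inv_cancel₀ h2]
  · simp only [Cfg.J, Cfg.ap, e] at hJ' a2' a3' b3' c3'
    exact key_J a2' a3' c3' b3' hJ'

end Pool.Agent.P.MP_9344a7_nt.Tor
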