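import Pool.Agent.P.MP_9344a7_nt.Tor.Iface

/-! Step LIFT. -/

set_option autoImplicit false
set_option linter.unusedSectionVars false

namespace Pool.Agent.P.MP_9344a7_nt.Tor

open Polynomial WithZero
open Pool.Agent.P.MP_6f117a_ag (Place FF)
open Pool.Agent.P.MP_ab3ecb_nt.Inv (ord Dv dv deg SA LS)
open scoped Classical IntermediateField

theorem p_LIFT (hLIM : S_LIM) (hTY : S_TY) (hTZ : S_TZ) (hTW : S_TW) :
    S_LIFT := by
  intro K M Γ G _ _ _ _ _ v t f I hA hf Q X C R1 R2 Y B hAdm hY hB j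
  have hok := fun j => ((hLIM K K f hf Q X C R1 R2 hAdm).1 j).1
  obtain ⟨p, hp1, hp2⟩ := hAdm.fib
  have H : I.cl (C.up M) + I.cl (R1.up M) + I.cl (R2.up M) =
      I.cl (Q.up M) + I.cl (Q.up M) + I.cl (X.up M) :=
    (I.fib _ _ _ _ _ _ _ (hp1.map (Algebra.ofId K M))).1 (hp2.map (Algebra.ofId K M))
  have hio : ∀ P : Pt f M, I.cl P.io = I.K - I.cl P := fun P => by
    rw [← I.conj P]; abel
  have hn : ∀ i l : Fin 5, i ≠ l →
      ![Q.a, X.a, C.a, R1.a, R2.a] i ≠ ![Q.a, X.a, C.a, R1.a, R2.a] l :=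
    fun i l h e => h (hAdm.ne e)
  have hne : ∀ P P' : Pt f K, P.a ≠ P'.a → P ≠ P' := fun P P' h e => h (congrArg Pt.a e)
  have L0 : ∀ j, I.cl ((lim Q X C R1 R2 j).X.up M) + I.cl ((lim Q X C R1 R2 j).Y.up M) +
      I.cl ((lim Q X C R1 R2 j).A.up M) = I.cl (X.up M) + I.cl (Q.up M) + I.cl (Q.up M) →
      LS0 v t I Q X C Y B (lim Q X C R1 R2 j) := fun j h =>
    ⟨hA, hf, ⟨hAdm.ok.1, hAdm.ok.2.1, hAdm.ok.2.2.1⟩,
      ⟨hn 0 1 (by decide), hn 0 2 (by decide), hn 1 2 (by decide)⟩, hY, hB, hok j, h⟩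
  have E1 : I.cl (R1.up M).io + I.cl (Q.up M) + I.cl (R2.up M).io =
      I.cl (X.up M).io + I.cl (Q.up M).io + I.cl (C.up M) := by
    rw [hio, hio, hio, hio, ← sub_eq_zero, ← neg_eq_zero, ← sub_eq_zero.2 H]
    abel
  have E2 : I.cl (R2.up M).io + I.cl (Q.up M) + I.cl (R1.up M).io =
      I.cl (X.up M).io + I.cl (Q.up M).io + I.cl (C.up M) := by
    rw [← E1]; abel
  have F : ∀ a, a = I.cl (C.up M) + I.cl (R1.up M) + I.cl (R2.up M) →
      a = I.cl (X.up M) + I.cl (Q.up M) + I.cl (Q.up M) := fun a h => by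
    rw [h, H]; abel
  have mio : ∀ P : Pt f K, P.io.up M = (P.up M).io := fun P => Pt.map_io _ P
  fin_cases j
  · refine hTY K M Γ G v t f I Q X C Y B _ (L0 0 rfl) ?_ rfl rfl (hn 2 0 (by decide))
      (hne _ _ (hn 1 0 (by decide))) (hne _ _ (hn 2 0 (by decide)))
    show I.cl (X.up M).io + I.cl (C.up M) + I.cl (Q.io.up M) = _
    rw [mio]; abel
  · refine hTY K M Γ G v t f I Q X C Y B _ (L0 1 ?_) ?_ rfl (Pt.io_io X).symm
      (hn 1 0 (by decide)) (hne _ _ (hn 0 1 (by decide))) (hne _ _ (hn 1 2 (by decide)))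
    · show I.cl (Q.up M) + I.cl (Q.up M) + I.cl (X.up M) = _
      abel
    · show I.cl (Q.up M).io + I.cl (X.io.up M) + I.cl (C.up M) = _
      rw [mio]; abel
  · refine hTY K M Γ G v t f I Q X C Y B _ (L0 2 ?_) ?_ rfl rfl
      (hn 2 0 (by decide)) (hne _ _ (hn 0 1 (by decide))) (hne _ _ (hn 2 1 (by decide)))
    · show I.cl (Q.up M) + I.cl (Q.up M) + I.cl (X.up M) = _
      abel
    · show I.cl (Q.up M).io + I.cl (C.up M) + I.cl (X.io.up M) = _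
      rw [mio]; abel
  · refine hTZ K M Γ G v t f I Q X C Y B _ (L0 3 (F _ ?_)) ?_ rfl rfl
      (hn 2 0 (by decide)) (hne _ _ (hn 3 4 (by decide))) (hne _ _ (hn 2 4 (by decide)))
    · show I.cl (R1.up M) + I.cl (C.up M) + I.cl (R2.up M) = _
      abel
    · show I.cl (R1.up M).io + I.cl (Q.up M) + I.cl (R2.io.up M) = _
      rw [mio, E1]
  · refine hTZ K M Γ G v t f I Q X C Y B _ (L0 4 (F _ ?_)) ?_ rfl rfl
      (hn 4 0 (by decide)) (hne _ _ (hn 3 4 (by decide))) (hne _ _ (hn 4 2 (by decide)))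
    · show I.cl (R1.up M) + I.cl (R2.up M) + I.cl (C.up M) = _
      abel
    · show I.cl (R1.up M).io + I.cl (Q.up M) + I.cl (R2.io.up M) = _
      rw [mio, E1]
  · refine hTZ K M Γ G v t f I Q X C Y B _ (L0 5 (F _ ?_)) ?_ rfl rfl
      (hn 2 0 (by decide)) (hne _ _ (hn 4 3 (by decide))) (hne _ _ (hn 2 3 (by decide)))
    · show I.cl (R2.up M) + I.cl (C.up M) + I.cl (R1.up M) = _
      abel
    · show I.cl (R2.up M).io + I.cl (Q.up M) + I.cl (R1.io.up M) = _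
      rw [mio, E2]
  · refine hTZ K M Γ G v t f I Q X C Y B _ (L0 6 (F _ ?_)) ?_ rfl rfl
      (hn 3 0 (by decide)) (hne _ _ (hn 4 3 (by decide))) (hne _ _ (hn 3 2 (by decide)))
    · show I.cl (R2.up M) + I.cl (R1.up M) + I.cl (C.up M) = _
      abel
    · show I.cl (R2.up M).io + I.cl (Q.up M) + I.cl (R1.io.up M) = _
      rw [mio, E2]
  · refine hTW K M Γ G v t f I Q X C Y B _ (L0 7 ?_) rfl rfl
      (hn 1 0 (by decide)) (hne _ _ (hn 0 1 (by decide))) (.inl ⟨rfl, rfl⟩)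
    show I.cl (Q.up M) + I.cl (X.up M) + I.cl (Q.up M) = _
    abel
  · refine hTW K M Γ G v t f I Q X C Y B _ (L0 8 (F _ ?_)) rfl rfl
      (hn 4 0 (by decide)) (hne _ _ (hn 3 4 (by decide))) (.inr ⟨rfl, rfl⟩)
    show I.cl (R1.up M) + I.cl (R2.up M) + I.cl (C.up M) = _
    abel
  · refine hTW K M Γ G v t f I Q X C Y B _ (L0 9 (F _ ?_)) rfl rfl
      (hn 3 0 (by decide)) (hne _ _ (hn 4 3 (by decide))) (.inr ⟨rfl, rfl⟩)
    show I.cl (R2.up M) + I.cl (R1.up M) + I.cl (C.up M) = _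
    abel

end Pool.Agent.P.MP_9344a7_nt.Tor
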