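import Pool.Agent.P.MP_9344a7_nt.Tor.Iface

/-! Step LIM. -/

set_option autoImplicit false
set_option linter.unusedSectionVars false

namespace Pool.Agent.P.MP_9344a7_nt.Tor

open Polynomial WithZero
open Pool.Agent.P.MP_6f117a_ag (Place FF)
open Pool.Agent.P.MP_ab3ecb_nt.Inv (ord Dv dv deg SA LS)
open scoped Classical IntermediateField

/-- The indices of the abscissas of the ten limit points. -/
def lim_ix : Fin 10 → Fin 6 → Fin 5 :=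
  ![![1, 0, 2, 0, 2, 0], ![0, 0, 1, 1, 1, 2], ![0, 0, 2, 1, 2, 1], ![3, 2, 0, 4, 2, 4],
    ![3, 4, 0, 2, 4, 4], ![4, 2, 0, 3, 2, 3], ![4, 3, 0, 2, 3, 3], ![0, 1, 1, 0, 0, 2],
    ![3, 4, 4, 2, 0, 0], ![4, 3, 3, 2, 0, 0]]

lemma lim_ix_inj : ∀ i j : Fin 10, lim_ix i 0 = lim_ix j 0 → lim_ix i 1 = lim_ix j 1 →
    lim_ix i 2 = lim_ix j 2 → i = j := by decide

lemma lim_a {k0 L : Type} [Field k0] [Field L] [Algebra k0 L] {f : k0[X]}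
    (Q X C R1 R2 : Pt f L) (j : Fin 10) (i : Fin 6) :
    ((lim Q X C R1 R2 j).pt i).a = ![Q.a, X.a, C.a, R1.a, R2.a] (lim_ix j i) := by
  fin_cases j <;> fin_cases i <;> rfl

lemma lim_ne {k0 L : Type} [Field k0] [Field L] [Algebra k0 L] {f : k0[X]} {P Q : Pt f L}
    (h : P.a ≠ Q.a) : P ≠ Q := fun e => h (congrArg Pt.a e)

theorem p_LIM :
    S_LIM := by
  intro k0 L _ _ _ f hf Q X C R1 R2 h
  obtain ⟨⟨oQ, oX, oC, o1, o2⟩, hne, -⟩ := h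
  have n : ∀ i j : Fin 5, i ≠ j →
      ![Q.a, X.a, C.a, R1.a, R2.a] i - ![Q.a, X.a, C.a, R1.a, R2.a] j ≠ 0 :=
    fun i j e => sub_ne_zero.2 (hne.ne e)
  have qx : Q.a - X.a ≠ 0 := n 0 1 (by decide)
  have qc : Q.a - C.a ≠ 0 := n 0 2 (by decide)
  have q1 : Q.a - R1.a ≠ 0 := n 0 3 (by decide)
  have q2 : Q.a - R2.a ≠ 0 := n 0 4 (by decide)
  have xc : X.a - C.a ≠ 0 := n 1 2 (by decide)
  have c1 : C.a - R1.a ≠ 0 := n 2 3 (by decide)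
  have c2 : C.a - R2.a ≠ 0 := n 2 4 (by decide)
  have r12 : R1.a - R2.a ≠ 0 := n 3 4 (by decide)
  have a : ∀ {P P' : Pt f L}, P.a - P'.a ≠ 0 → P ≠ P' := fun e => lim_ne (sub_ne_zero.1 e)
  have b : ∀ {P P' : Pt f L}, P'.a - P.a ≠ 0 → P ≠ P' := fun e => (a e).symm
  have io : ∀ {P : Pt f L}, P.Ok → P.io.Ok := fun e => Pt.ok_io.2 e
  have m : ∀ {z u v w : L}, u ≠ 0 → v ≠ 0 → w ≠ 0 → z = u * v * w ∨ z = -(u * v * w) → z ≠ 0 := by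
    intro z u v w hu hv hw e
    have := mul_ne_zero (mul_ne_zero hu hv) hw
    rcases e with rfl | rfl
    · exact this
    · exact neg_ne_zero.2 this
  refine ⟨fun j => ?_, fun i j e0 e1 e2 => ?_⟩
  · suffices s : (lim Q X C R1 R2 j).Ok ∧ (lim Q X C R1 R2 j).J ≠ 0 ∧ (lim Q X C R1 R2 j).Ur ∧
        (lim Q X C R1 R2 j).Z ≠ Q.io from
      ⟨s.1, s.2.1, s.2.2.1, s.2.2.2, fun i => ⟨_, lim_a Q X C R1 R2 j i⟩⟩
    fin_cases j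
    · exact ⟨⟨oX, oQ, oC, oQ, io oC, io oQ⟩, m qx qc qc (.inl (by simp [lim, Cfg.J]; ring)),
        ⟨b qx, a qc⟩, b qc⟩
    · exact ⟨⟨oQ, oQ, io oX, oX, oX, oC⟩, m qx qx xc (.inl (by simp [lim, Cfg.J])),
        ⟨a qc, a qx⟩, b qx⟩
    · exact ⟨⟨oQ, oQ, oC, oX, io oC, io oX⟩, m qx qc xc (.inr (by simp [lim, Cfg.J]; ring)),
        ⟨a qx, a qc⟩, b qc⟩
    · exact ⟨⟨o1, oC, oQ, o2, io oC, io o2⟩, m r12 c2 qc (.inr (by simp [lim, Cfg.J])),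
        ⟨a r12, oC.ne_io hf.two⟩, oQ.ne_io hf.two⟩
    · exact ⟨⟨o1, o2, oQ, oC, io o2, io o2⟩, m r12 c2 q2 (.inl (by simp [lim, Cfg.J]; ring)),
        ⟨a r12, o2.ne_io hf.two⟩, oQ.ne_io hf.two⟩
    · exact ⟨⟨o2, oC, oQ, o1, io oC, io o1⟩, m r12 c1 qc (.inl (by simp [lim, Cfg.J]; ring)),
        ⟨b r12, oC.ne_io hf.two⟩, oQ.ne_io hf.two⟩
    · exact ⟨⟨o2, o1, oQ, oC, io o1, io o1⟩, m r12 c1 q1 (.inr (by
        show (R2.a - C.a) * (R1.a - R1.a) * (Q.a - R1.a) -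
          (R2.a - R1.a) * (R1.a - C.a) * (Q.a - R1.a) = _
        ring)),
        ⟨b r12, o1.ne_io hf.two⟩, oQ.ne_io hf.two⟩
    · exact ⟨⟨oQ, oX, io oX, oQ, oQ, oC⟩, m qc qx qx (.inr (by simp [lim, Cfg.J]; ring)),
        ⟨a qc, b qx⟩, b qx⟩
    · exact ⟨⟨o1, o2, io o2, oC, oQ, oQ⟩, m q2 r12 qc (.inl (by simp [lim, Cfg.J]; ring)),
        ⟨b q1, b q2⟩, b q2⟩
    · exact ⟨⟨o2, o1, io o1, oC, oQ, oQ⟩, m q1 r12 qc (.inr (by simp [lim, Cfg.J]; ring)),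
        ⟨b q2, b q1⟩, b q1⟩
  · have t : ∀ l, ((lim Q X C R1 R2 i).pt l) = ((lim Q X C R1 R2 j).pt l) →
        lim_ix i l = lim_ix j l := fun l e =>
      hne (by rw [← lim_a, ← lim_a, e])
    exact lim_ix_inj i j (t 0 e0) (t 1 e1) (t 2 e2)

end Pool.Agent.P.MP_9344a7_nt.Tor
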