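import Pool.Agent.P.MP_9344a7_nt.Tor.Iface

/-! Step LK. -/

set_option autoImplicit false
set_option linter.unusedSectionVars false

namespace Pool.Agent.P.MP_9344a7_nt.Tor

open Polynomial WithZero
open Pool.Agent.P.MP_6f117a_ag (Place FF)
open Pool.Agent.P.MP_ab3ecb_nt.Inv (ord Dv dv deg SA LS)
open scoped Classical IntermediateField

section

variable {k E : Type} [Field k] [Field E] [Algebra k E] [IsAlgClosed k] {x : E}

lemma lk_poly (hx : Transcendental k x) {S : Set (Place k E)}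
    (hS : ∀ r : k, ∃ W ∈ S, W.v (x - algebraMap k E r) < 1) {z : E} (hz : ∀ W ∈ S, W.v z ≤ 1)
    {A N : k[X]} (hN : N ≠ 0) (e : z * aeval x N = aeval x A) : ∃ Q : k[X], z = aeval x Q := by
  obtain ⟨N', A', c, hc, rfl, rfl⟩ := UniqueFactorizationMonoid.exists_reduced_factors N hN A
  have hc0 : aeval x c ≠ 0 := fun h =>
    left_ne_zero_of_mul hN (transcendental_iff.1 hx _ h)
  have e' : z * aeval x N' = aeval x A' := by
    apply mul_left_cancel₀ hc0
    rw [map_mul, map_mul] at e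
    linear_combination e
  have hu : IsUnit N' := by
    by_contra hu
    obtain ⟨r, hr⟩ := IsAlgClosed.exists_root N' fun h => hu (isUnit_iff_degree_eq_zero.2 h)
    obtain ⟨W, hW, hv⟩ := hS r
    have hxv : W.v x ≤ 1 := by
      rw [← sub_add_cancel x (algebraMap k E r)]
      exact W.v.map_add_le hv.le (W.triv r)
    have key : ∀ p : k[X], W.v (aeval x ((X - C r) * p)) < 1 := fun p => by
      rw [map_mul, map_mul, map_sub, aeval_X, aeval_C]
      exact mul_lt_one_of_lt_of_le hv (W.v_aeval hxv p)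
    obtain ⟨N1, h1⟩ := dvd_iff_isRoot.2 hr
    obtain ⟨A1, h2⟩ := X_sub_C_dvd_sub_C_eval (a := r) (p := A')
    have h3 : W.v (aeval x A') < 1 := by
      rw [← e', map_mul, h1]
      exact (mul_le_of_le_one_left' (hz W hW)).trans_lt (key _)
    have h4 : A'.eval r = 0 := by
      by_contra h0
      have h5 : algebraMap k E (A'.eval r) = aeval x A' - aeval x ((X - C r) * A1) := by
        rw [← h2, map_sub, aeval_C]; ring
      have h6 := W.v_const h0
      rw [h5] at h6
      exact (W.v.map_sub_lt h3 (key _)).ne h6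
    exact not_isUnit_X_sub_C r (hc ⟨N1, h1⟩ (dvd_iff_isRoot.2 h4))
  obtain ⟨u, rfl⟩ := hu
  refine ⟨A' * ↑u⁻¹, ?_⟩
  rw [map_mul, ← e', mul_assoc, ← map_mul, Units.mul_inv, map_one, mul_one]

lemma lk_le (W : Place k E) {g : ℤᵐ⁰} (h1 : 1 ≤ g) (hx : W.v x ≤ g) {A : k[X]} {n : ℕ}
    (hA : A.natDegree ≤ n) : W.v (aeval x A) ≤ g ^ n := by
  rw [aeval_eq_sum_range' (Nat.lt_succ_of_le hA)]
  refine W.v.map_sum_le fun i hi => ?_
  rw [Algebra.smul_def, map_mul, map_pow]
  exact (mul_le_of_le_one_left' (W.triv _)).trans ((pow_le_pow_left' hx i).trans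
    (pow_le_pow_right' h1 (Nat.lt_succ_iff.1 (Finset.mem_range.1 hi))))

lemma lk_deg (W : Place k E) (h1 : 1 < W.v x) {A : k[X]} {n : ℕ}
    (hA : W.v (aeval x A) ≤ W.v x ^ n) : A.natDegree ≤ n := by
  rcases eq_or_ne A 0 with rfl | h0
  · simp
  have : W.v.IsTrivialOn k := ⟨fun c hc => W.v_const hc⟩
  rw [valuation_aeval_eq_valuation_X_pow_natDegree_of_one_lt_valuation_X x h1 h0] at hA
  exact (pow_le_pow_iff_right₀ h1).1 hA

end

theorem p_LK (hHF : S_HF) (hDD : S_DD) (hNAT : S_NAT) (hDIV : S_DIV) :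
    S_LK := by
  intro k0 k E _ _ _ _ _ _ _ _ _ f x y h pl hp I hI
  obtain ⟨-, -, ⟨ι, hιx, hιy⟩, hrep, -⟩ := hHF k0 k E f x y h
  have hdv := (hDIV k0 k E f x y h pl hp).2.1 I
  set D : Dv k E := pd pl I + pd pl I.io with hD
  have hne : ∀ P Q : Pt f k, P.b = 1 → Q.b = 0 → pd pl P (pl Q) = 0 ∧ pd pl Q (pl P) = 0 := by
    intro P Q h1 h2
    have : P ≠ Q := fun e => by rw [e, h2] at h1; exact zero_ne_one h1
    exact ⟨Finsupp.single_eq_of_ne (pl.injective.ne this.symm),
      Finsupp.single_eq_of_ne (pl.injective.ne this)⟩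
  have hpd : ∀ (P : Pt f k) W, 0 ≤ pd pl P W := fun P W => by
    rw [pd, Finsupp.single_apply]; split_ifs <;> simp
  have hDaff : ∀ P : Pt f k, P.b = 1 → D (pl P) = 0 := fun P h1 => by
    rw [hD, Finsupp.add_apply, (hne P I h1 hI).2, (hne P I.io h1 hI).2, add_zero]
  have hD0 : ∀ W, 0 ≤ D W := fun W => add_nonneg (hpd _ W) (hpd _ W)
  have hDI : 0 < D (pl I) := by
    have := hpd I.io (pl I)
    rw [hD, Finsupp.add_apply, pd, Finsupp.single_eq_same]
    omega
  have hxr : ∀ r : k, x - algebraMap k E r ≠ 0 := fun r e =>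
    X_sub_C_ne_zero r (transcendental_iff.1 h.tr _ (by rw [map_sub, aeval_X, aeval_C, e]))
  have hpt : ∀ r : k, ∃ P : Pt f k, P.b = 1 ∧ ∀ W,
      ord W (x - algebraMap k E r) = pd pl P W + pd pl P.io W - D W := fun r => by
    obtain ⟨s, hs⟩ := IsAlgClosed.exists_pow_nat_eq (aeval r f) two_pos
    refine ⟨Pt.mkA h.gd.deg.le r s hs, rfl, fun W => ?_⟩
    have := congrArg (· W) (hdv (Pt.mkA h.gd.deg.le r s hs) hI)
    simpa [Pt.ell_aff] using this
  have hS : ∀ r : k, ∃ W ∈ pl '' {P | P.b = 1}, W.v (x - algebraMap k E r) < 1 := fun r => by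
    obtain ⟨P, h1, h2⟩ := hpt r
    refine ⟨_, ⟨P, h1, rfl⟩, (MP_ab3ecb_nt.Inv.lt_one_iff (hxr r)).2 ?_⟩
    have := hpd P.io (pl P)
    rw [h2, hDaff P h1, pd, Finsupp.single_eq_same]
    omega
  obtain ⟨P0, hP0, h0⟩ := hpt 0
  have hx0 := hxr 0
  rw [map_zero, sub_zero] at h0 hx0
  have hxI : (pl I).v x = exp (D (pl I)) := by
    rw [MP_ab3ecb_nt.Inv.v_eq _ hx0, h0, (hne P0 I hP0 hI).1, (hne P0.io I hP0 hI).1]
    simp
  have hx1 : 1 < (pl I).v x := by rw [hxI, ← exp_zero, exp_lt_exp]; exact hDI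
  have hpow : ∀ (n : ℕ) W, exp ((n • D) W) = exp (D W) ^ n := fun n W => by
    rw [Finsupp.smul_apply, exp_nsmul]
  have haff : ∀ (n : ℕ) z, z ∈ LS (n • D) → ∀ W ∈ pl '' {P | P.b = 1}, W.v z ≤ 1 := by
    rintro n z hz _ ⟨P, h1, rfl⟩
    have := MP_ab3ecb_nt.Inv.mem_LS.1 hz (pl P)
    rwa [hpow, hDaff P h1, exp_zero, one_pow] at this
  let σ : SA k E := ⟨ι.toRingEquiv, RingEquiv.refl k, ι.commutes⟩
  have hσ : σ.dm D = D := by
    have e := (hNAT k0 k E f x y h pl hp σ (AlgHom.id k0 k) (fun _ => rfl) hιx).2 hιy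
    have e1 : σ.pl (pl I) = pl I.io := e I
    have e2 : σ.pl (pl I.io) = pl I := (e I.io).trans (congrArg pl I.io_io)
    rw [hD, map_add, pd, pd, SA.dm_single, SA.dm_single, e1, e2, add_comm]
  have hι : ∀ p : k[X], ι (aeval x p) = aeval x p := fun p => by
    rw [← aeval_algHom_apply, hιx]
  have main : ∀ n : ℕ, n ≤ 2 → ∀ z, z ∈ LS (n • D) ↔
      ∃ A : k[X], A.natDegree ≤ n ∧ z = aeval x A := by
    intro n hn z
    constructor
    · intro hz
      obtain ⟨A, B, N, hN, e⟩ := hrep z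
      have hz' : ι z ∈ LS (n • D) := by
        have := σ.mem_LS_dm.2 hz
        rwa [map_nsmul, hσ] at this
      have hw := sub_mem hz hz'
      have e2 : ι z * aeval x N = aeval x A - aeval x B * y := by
        have := congrArg ι e
        rw [map_mul, map_add, map_mul, hι, hι, hι, hιy] at this
        rw [this]; ring
      have hy : y ^ 2 = aeval x (f.map (algebraMap k0 k)) := by rw [aeval_map_algebraMap, h.eq]
      have e3 : (z - ι z) ^ 2 * aeval x (N ^ 2) =
          aeval x ((2 * B) ^ 2 * f.map (algebraMap k0 k)) := by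
        rw [map_mul, map_pow, map_pow, map_mul, map_ofNat, ← hy]
        linear_combination ((z - ι z) * aeval x N + 2 * aeval x B * y) * (e - e2)
      obtain ⟨Q, hQ⟩ := lk_poly h.tr hS (fun W hW => by
        rw [map_pow]; exact pow_le_one' (haff n _ hw W hW) 2) (pow_ne_zero 2 hN) e3
      have hQd : Q.natDegree ≤ n * 2 := by
        refine lk_deg (pl I) hx1 ?_
        rw [← hQ, map_pow, pow_mul, hxI, ← hpow]
        exact pow_le_pow_left' (MP_ab3ecb_nt.Inv.mem_LS.1 hw _) 2
      have e4 : Q * N ^ 2 = (2 * B) ^ 2 * f.map (algebraMap k0 k) := by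
        rw [← sub_eq_zero]
        refine transcendental_iff.1 h.tr _ ?_
        rw [map_sub, map_mul, ← hQ, e3, sub_self]
      have hB : B = 0 := by
        by_contra hB
        have h2 : (2 : k[X]) ≠ 0 := by
          rw [← map_ofNat C 2, ← map_ofNat (algebraMap k0 k) 2]
          exact C_ne_zero.2 ((_root_.map_ne_zero _).2 h.gd.two)
        obtain ⟨N', B', c, hc, rfl, hB'⟩ :=
          UniqueFactorizationMonoid.exists_reduced_factors N hN (2 * B)
        have hB0 : B' ≠ 0 := right_ne_zero_of_mul (hB' ▸ mul_ne_zero h2 hB)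
        have e5 : Q * N' ^ 2 = B' ^ 2 * f.map (algebraMap k0 k) := by
          apply mul_left_cancel₀ (pow_ne_zero 2 (left_ne_zero_of_mul hN))
          rw [← hB'] at e4
          linear_combination e4
        have hsq : Squarefree (f.map (algebraMap k0 k)) := h.gd.sep.map.squarefree
        have hu : IsUnit N' := hsq N' (by
          rw [← sq]
          exact (IsRelPrime.pow hc).dvd_of_dvd_mul_left ⟨Q, by rw [← e5, mul_comm]⟩)
        have hQ0 : Q ≠ 0 := left_ne_zero_of_mul (e5 ▸ mul_ne_zero (pow_ne_zero 2 hB0) hsq.ne_zero)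
        have e6 := congrArg natDegree e5
        rw [natDegree_mul hQ0 (pow_ne_zero 2 hu.ne_zero), natDegree_mul (pow_ne_zero 2 hB0)
          hsq.ne_zero, natDegree_pow, natDegree_eq_zero_of_isUnit hu, natDegree_map, h.gd.deg] at e6
        omega
      rw [hB, map_zero, zero_mul, add_zero] at e
      obtain ⟨A', rfl⟩ := lk_poly h.tr hS (haff n z hz) hN e
      refine ⟨A', lk_deg (pl I) hx1 ?_, rfl⟩
      rw [hxI, ← hpow]
      exact MP_ab3ecb_nt.Inv.mem_LS.1 hz _
    · rintro ⟨A, hA, rfl⟩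
      refine MP_ab3ecb_nt.Inv.mem_LS.2 fun W => ?_
      rw [hpow]
      refine lk_le W (by rw [← exp_zero, exp_le_exp]; exact hD0 W) ?_ hA
      have h1 := hpd P0 W
      have h2 := hpd P0.io W
      rw [MP_ab3ecb_nt.Inv.le_exp_iff hx0, h0]
      omega
  refine ⟨main 2 le_rfl, ?_⟩
  have hli : LinearIndependent k ![(1 : E), x] := by
    rw [LinearIndependent.pair_iff]
    intro s t e
    have e1 : C t * X + C s = 0 := transcendental_iff.1 h.tr _ (by
      rw [map_add, map_mul, aeval_C, aeval_C, aeval_X, ← e, Algebra.smul_def, Algebra.smul_def]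
      ring)
    exact ⟨by simpa using congrArg (coeff · 0) e1, by simpa using congrArg (coeff · 1) e1⟩
  have hset : {z : E | ∀ P : Place k E, P.v z ≤ exp (D P)} =
      Submodule.span k (Set.range ![(1 : E), x]) := by
    ext z
    rw [Set.mem_ofPred_eq, ← MP_ab3ecb_nt.Inv.mem_LS, ← one_nsmul D, main 1 one_le_two,
      Matrix.range_cons_cons_empty, SetLike.mem_coe, Submodule.mem_span_pair]
    constructor
    · rintro ⟨A, hA, rfl⟩
      refine ⟨A.coeff 0, A.coeff 1, ?_⟩
      rw [aeval_eq_sum_range' (Nat.lt_succ_of_le hA)]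
      simp [Finset.sum_range_succ]
    · rintro ⟨s, t, rfl⟩
      refine ⟨C t * X + C s, natDegree_linear_le, ?_⟩
      rw [map_add, map_mul, aeval_C, aeval_C, aeval_X, Algebra.smul_def, Algebra.smul_def]
      ring
  rw [ell, hset, Submodule.span_eq, finrank_span_eq_card hli]
  simp

end Pool.Agent.P.MP_9344a7_nt.Tor
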