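import Pool.Agent.P.MP_9344a7_nt.Tor.Iface

/-! Step LOOP. -/

set_option autoImplicit false
set_option linter.unusedSectionVars false

namespace Pool.Agent.P.MP_9344a7_nt.Tor

open Polynomial WithZero
open Pool.Agent.P.MP_6f117a_ag (Place FF)
open Pool.Agent.P.MP_ab3ecb_nt.Inv (ord Dv dv deg SA LS)
open scoped Classical IntermediateField

lemma loop_aeval {K M Γ : Type} [Field K] [Field M] [Algebra K M]
    [LinearOrderedCommGroupWithZero Γ] (v : Valuation M Γ) (hv : ∀ c, v (algebraMap K M c) ≤ 1)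
    {z : M} {a : K} (h : v (z - algebraMap K M a) < 1) (p : K[X]) :
    v (aeval z p - algebraMap K M (aeval a p)) < 1 := by
  have hz : v z ≤ 1 := by simpa using v.map_add_le h.le (hv a)
  have hp : ∀ n : ℕ, v (z ^ n - algebraMap K M (a ^ n)) < 1 := by
    intro n
    induction n with
    | zero => simp
    | succ n ih =>
      rw [show z ^ (n + 1) - algebraMap K M (a ^ (n + 1)) = z * (z ^ n - algebraMap K M (a ^ n)) +
        algebraMap K M (a ^ n) * (z - algebraMap K M a) by rw [map_pow, map_pow]; ring]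
      refine v.map_add_lt ?_ ?_ <;> rw [map_mul]
      · exact mul_lt_one_of_nonneg_of_lt_one_right hz zero_le ih
      · exact mul_lt_one_of_nonneg_of_lt_one_right (hv _) zero_le h
  induction p using Polynomial.induction_on' with
  | add p q h1 h2 =>
    rw [map_add, map_add, map_add, add_sub_add_comm]
    exact v.map_add_lt h1 h2
  | monomial n c =>
    rw [aeval_monomial, aeval_monomial, map_mul, Algebra.algebraMap_self_apply, ← mul_sub, map_mul]
    exact mul_lt_one_of_nonneg_of_lt_one_right (hv _) zero_le (hp n)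

theorem p_LOOP (hDD : S_DD) (hNRB : S_NRB) (hSPL : S_SPL) (hGEN : S_GEN) :
    S_LOOP := by
  intro K M Γ G _ _ _ _ _ v t f I ha hf Q S0 Y B Mid hQ hS hne hY hB hex hlip
  have hd := hDD K M Γ v f ⟨hf, ha.triv⟩
  have hn := (hNRB K M Γ v f ⟨hf, ha.triv⟩).1
  have n1 : Q ≠ S0.io.io := fun e => hne (congrArg Pt.a e).symm
  have n2 : Q ≠ S0.io := fun e => hne (congrArg Pt.a e).symm
  have hSi : S0.io.Ok := Pt.ok_io.2 hS
  have key : ∀ z : M, ∃ V S W T : Pt f M, v (z - algebraMap K M Q.a) < 1 →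
      Nr v V Q ∧ V.a = z ∧ Nr v S S0 ∧ Mid V S ∧ Nr v W Q ∧ Nr v T S0.io ∧
        I.cl S + I.cl W + I.cl T = I.cl Y + I.cl (Q.up M).io + I.cl B := by
    intro z
    by_cases hz : v (z - algebraMap K M Q.a) < 1
    · obtain ⟨y, hy, hy'⟩ := ha.sq (aeval z f) Q.y hQ.2
        (by rw [Pt.eq_aff hf.deg.le hQ.1]; exact loop_aeval v ha.triv hz f)
      have hV : Nr v (Pt.mkA hf.deg.le z y hy) Q := hn.of _ _ rfl hQ.1 hz hy'
      obtain ⟨S, h1, h2⟩ := hex _ hV
      obtain ⟨W, T, h3, h4, h5⟩ := hSPL K M Γ G v t f I ha hf S0.io Q Q Q Q S0.io S.io Y B (Q.up M)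
        hSi hQ hQ hQ hQ hSi ⟨n1, n1, hQ.ne_io hf.two⟩ n2 (by abel) (hn.io _ _ h1) hY hB (hn.up Q)
      refine ⟨_, S, W, T, fun _ => ⟨hV, rfl, h1, h2, h3, h4, ?_⟩⟩
      have e1 := I.conj S
      have e2 := I.conj (Q.up M)
      linear_combination (norm := abel1) h5 + e1 - e2
    · exact ⟨Y, Y, Y, Y, fun h => absurd h hz⟩
  choose V S W T hk using key
  obtain ⟨z, hz, e⟩ := ha.ban (algebraMap K M Q.a) (fun z => (W z).a)
    (fun z hz => (hn.ok _ _ (hk z hz).2.2.2.2.1 hQ).2.2.2.1) (fun z z' hz hz' => by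
      obtain ⟨a1, a2, a3, a4, a5, a6, a7⟩ := hk z hz
      obtain ⟨b1, b2, b3, b4, b5, b6, b7⟩ := hk z' hz'
      have h1 := (hGEN K M Γ G v t f I ha hf S0.io S0.io Q (S z').io (T z) (W z) (S z).io (T z')
        (W z') hSi hSi hQ ⟨hSi.ne_io hf.two, n1, n1⟩ n2.symm (hn.io _ _ b3) a6 a5 (hn.io _ _ a3)
        b6 b5 (by
          have e1 := I.conj (S z)
          have e2 := I.conj (S z')
          linear_combination (norm := abel1) b7 - a7 + e1 - e2)).2 rfl
      have h2 := hlip _ _ _ _ a1 b1 a3 b3 a4 b4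
      rw [hn.dist _ _ _ a1 b1 hQ, a2, b2] at h2
      rw [hn.dist _ _ _ a5 b5 hQ, hd.io, hd.symm] at h1
      exact h1.trans (mul_le_mul_right h2 _))
  obtain ⟨a1, a2, a3, a4, a5, a6, a7⟩ := hk z hz
  have e1 : W z = V z := (hd.zero _ _).1 (by
    rw [hn.dist _ _ _ a5 a1 hQ, a2, show (W z).a = z from e, sub_self, map_zero])
  exact ⟨V z, S z, T z, a1, a3, a6, a4, e1 ▸ a7⟩

end Pool.Agent.P.MP_9344a7_nt.Tor
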