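import Pool.Agent.P.MP_9344a7_nt.Tor.Iface

/-! Step MB. -/

set_option autoImplicit false
set_option linter.unusedSectionVars false

namespace Pool.Agent.P.MP_9344a7_nt.Tor

open Polynomial WithZero
open Pool.Agent.P.MP_6f117a_ag (Place FF)
open Pool.Agent.P.MP_ab3ecb_nt.Inv (ord Dv dv deg SA LS)
open scoped Classical IntermediateField

lemma mb_bonf {α ι : Type} (N : ι → Finset α) (m : ℕ) (s : Finset ι)
    (h : ∀ i ∈ s, ∀ j ∈ s, i ≠ j → (N i ∩ N j).card ≤ m) :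
    ∑ i ∈ s, (N i).card ≤ (s.biUnion N).card + s.card ^ 2 * m := by
  induction s using Finset.induction_on with
  | empty => simp
  | insert j s hj ih =>
    have h1 := ih fun a ha b hb => h a (Finset.mem_insert_of_mem ha) b (Finset.mem_insert_of_mem hb)
    have h2 := Finset.card_union_add_card_inter (N j) (s.biUnion N)
    have h3 : (N j ∩ s.biUnion N).card ≤ s.card * m := by
      rw [Finset.inter_biUnion]
      exact Finset.card_biUnion_le_card_mul _ _ _ fun i hi =>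
        h j (Finset.mem_insert_self _ _) i (Finset.mem_insert_of_mem hi) fun e => hj (e ▸ hi)
    rw [Finset.sum_insert hj, Finset.biUnion_insert, Finset.card_insert_of_notMem hj]
    nlinarith [Nat.zero_le (s.card * m), Nat.zero_le m]

lemma mb_core (hHUA : S_HUA) {F G G' : Type} [Field F] [Fintype F] [AddCommGroup G]
    [AddCommGroup G'] {f g : F[X]} (T : Tr f g G G') (tb : T.TB) (Q1 Q2 : Pt f F)
    (h12 : Q1.a ≠ Q2.a) (b1 : Q1.a ∉ T.B) (b2 : Q2.a ∉ T.B) (N : Finset F) (L1 L2 : F →+ F)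
    (e1 e2 : F) (hN : ∀ a ∈ N, a ∉ T.B ∧ a ≠ Q1.a ∧ a ≠ Q2.a ∧ ∃ P : Pt f F, P.Ok ∧ P.a = a ∧
      zz (T.φ Q1) (T.φ P) = L1 (zz Q1 P) + e1 ∧ zz (T.φ Q2) (T.φ P) = L2 (zz Q2 P) + e2)
    (c1 : 2 * Fintype.card F < ringChar F * N.card) (c2 : 2 ≤ N.card) :
    ∃ (τ : F ≃+* F) (α β γ δ : F), T.Mb N τ α β γ δ := by
  obtain ⟨k, hk⟩ : ∃ k, k = Q1.a - Q2.a := ⟨_, rfl⟩
  obtain ⟨k', hk'⟩ : ∃ k', k' = (T.φ Q1).a - (T.φ Q2).a := ⟨_, rfl⟩
  have k0 : k ≠ 0 := hk ▸ sub_ne_zero.2 h12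
  have k0' : k' ≠ 0 := hk' ▸ sub_ne_zero.2 fun e => h12 ((tb.a _ _ b1 b2).1 e)
  have inj : Function.Injective fun a : F => (a - Q1.a)⁻¹ + k⁻¹ := fun a b e => by
    simpa using e
  have cS : (N.image fun a : F => (a - Q1.a)⁻¹ + k⁻¹).card = N.card :=
    Finset.card_image_of_injective _ inj
  have key : ∀ P : Pt f F, zz (T.φ Q1) (T.φ P) = L1 (zz Q1 P) + e1 →
      L1 ((P.a - Q1.a)⁻¹ + k⁻¹) + (e1 + k'⁻¹ - L1 k⁻¹) = ((T.φ P).a - (T.φ Q1).a)⁻¹ + k'⁻¹ := by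
    intro P h
    rw [zz, zz] at h
    rw [map_add, h]
    ring
  obtain ⟨τ, c, c0, hc⟩ := hHUA F (N.image fun a : F => (a - Q1.a)⁻¹ + k⁻¹) L1
    ((AddMonoidHom.mulLeft (-k' ^ 2)).comp (L2.comp (AddMonoidHom.mulLeft (-(k ^ 2)⁻¹))))
    (e1 + k'⁻¹ - L1 k⁻¹) (-k' ^ 2 * (L2 k⁻¹ + e2 - k'⁻¹)) (cS ▸ c1) (cS ▸ c2) (by
      intro w hw
      obtain ⟨a, ha, rfl⟩ := Finset.mem_image.1 hw
      obtain ⟨hb, n1, n2, P, -, rfl, z1, z2⟩ := hN a ha
      have m1 := sub_ne_zero.2 n1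
      have m2 := sub_ne_zero.2 n2
      have m1' := sub_ne_zero.2 fun e => n1 ((tb.a _ _ hb b1).1 e)
      have m2' := sub_ne_zero.2 fun e => n2 ((tb.a _ _ hb b2).1 e)
      have w1 : (P.a - Q1.a)⁻¹ + k⁻¹ = (P.a - Q2.a) / (k * (P.a - Q1.a)) := by
        field_simp
        linear_combination hk
      have w0 : (P.a - Q1.a)⁻¹ + k⁻¹ ≠ 0 := by
        rw [w1]
        exact div_ne_zero m2 (mul_ne_zero k0 m1)
      refine ⟨w0, ?_⟩
      have w2 : -(k ^ 2)⁻¹ * ((P.a - Q1.a)⁻¹ + k⁻¹)⁻¹ = zz Q2 P - k⁻¹ := by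
        rw [w1, zz]
        field_simp
        linear_combination -hk
      rw [key P z1]
      simp only [AddMonoidHom.comp_apply, AddMonoidHom.coe_mulLeft]
      rw [w2, map_sub, eq_sub_of_add_eq z2.symm, zz]
      have w3 : (T.φ P).a - (T.φ Q2).a = (T.φ P).a - (T.φ Q1).a + k' := by
        rw [hk']
        ring
      rw [w3] at m2' ⊢
      field_simp
      ring) (by
      intro w hw w' hw' e
      obtain ⟨a, ha, rfl⟩ := Finset.mem_image.1 (Finset.mem_coe.1 hw)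
      obtain ⟨a', ha', rfl⟩ := Finset.mem_image.1 (Finset.mem_coe.1 hw')
      obtain ⟨hb, -, -, P, -, rfl, z1, -⟩ := hN a ha
      obtain ⟨hb', -, -, P', -, rfl, z1', -⟩ := hN a' ha'
      have e2 := key P z1
      rw [e, key P' z1'] at e2
      have e3 : (T.φ P').a = (T.φ P).a := by simpa using e2
      rw [(tb.a _ _ hb' hb).1 e3])
  have t0 : τ k ≠ 0 := (_root_.map_ne_zero τ).2 k0
  refine ⟨τ, (T.φ Q1).a * (c * k' - τ k) + k' * τ k,
    (T.φ Q1).a * (c * k' * (τ k - τ Q1.a) + τ k * τ Q1.a) - k' * τ k * τ Q1.a, c * k' - τ k,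
    c * k' * (τ k - τ Q1.a) + τ k * τ Q1.a, ?_, fun a ha => ?_⟩
  · have : c * (k' * τ k) ^ 2 ≠ 0 := mul_ne_zero c0 (pow_ne_zero _ (mul_ne_zero k0' t0))
    intro e
    exact this (by linear_combination e)
  · obtain ⟨hb, n1, -, P, ok, rfl, z1, -⟩ := hN a ha
    refine ⟨hb, P, ok, rfl, ?_⟩
    have m1 : τ P.a - τ Q1.a ≠ 0 := sub_ne_zero.2 fun e => n1 (τ.injective e)
    have m1' := sub_ne_zero.2 fun e => n1 ((tb.a _ _ hb b1).1 e)
    have e2 := key P z1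
    rw [hc, map_add, map_inv₀, map_inv₀, map_sub] at e2
    field_simp at e2
    linear_combination e2

theorem p_MB (hPTS : S_PTS) (hTRB : S_TRB) (hAFF : S_AFF) (hHUA : S_HUA) :
    S_MB := by
  obtain ⟨p1, h1⟩ := hPTS
  obtain ⟨C1, p2, h2⟩ := hAFF
  obtain ⟨M, hM⟩ : ∃ M, M = 2 * (C1 + 1) := ⟨_, rfl⟩
  refine ⟨M ^ 2 + 8, p1 + p2 + 2 * M ^ 2 + 4 * M + 4, ?_⟩
  intro F G G' _ _ _ _ f g T hp hB
  have tb := hTRB F G G' f g T
  have q0 : 0 < Fintype.card F := Fintype.card_pos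
  have pq : ringChar F ≤ Fintype.card F :=
    Nat.le_of_dvd q0 ((ringChar.spec F _).1 (FiniteField.cast_card_eq_zero F))
  have hA := h1 F f 1 (by omega) T.gf.sep.squarefree (by rw [T.gf.deg]; omega) T.gf.deg.le
    one_ne_zero
  rw [Nat.card_eq_fintype_card, Set.ncard_eq_toFinset_card'] at hA
  obtain ⟨A, hA'⟩ : ∃ A, A = {a : F | ∃ b, b ≠ 0 ∧ b ^ 2 = 1 * f.eval a}.toFinset := ⟨_, rfl⟩
  rw [← hA'] at hA
  have hpt : ∀ a ∈ A \ T.B, ∃ P : Pt f F, P.Ok ∧ P.a = a := by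
    intro a ha
    have := (Finset.mem_sdiff.1 ha).1
    rw [hA', Set.mem_toFinset] at this
    obtain ⟨b, b0, hb⟩ := this
    exact ⟨Pt.mkA T.gf.deg.le a b (by rw [hb, one_mul, coe_aeval_eq_eval]), ⟨rfl, b0⟩, rfl⟩
  have cA : M + 1 ≤ (A \ T.B).card := by
    have := Finset.le_card_sdiff T.B A
    have h8 : T.B.card * 8 ≤ T.B.card * (M ^ 2 + 8) := Nat.mul_le_mul_left _ (by omega)
    omega
  obtain ⟨x, hx⟩ : (A \ T.B).Nonempty := Finset.card_pos.1 (by omega)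
  obtain ⟨X, okX, rfl⟩ := hpt x hx
  obtain ⟨s, hs, cs⟩ := Finset.exists_subset_card_eq (s := (A \ T.B).erase X.a) (n := M)
    (by rw [Finset.card_erase_of_mem hx]; omega)
  have : Nonempty (Pt f F) := ⟨X⟩
  choose! Q okQ aQ using hpt
  have sA : ∀ a ∈ s, a ∈ A \ T.B := fun a ha => Finset.mem_of_mem_erase (hs ha)
  have hC : T.B.card * C1 ≤ Fintype.card F :=
    (Nat.mul_le_mul_left _ (by nlinarith)).trans hB
  have h3 : ∀ a ∈ s, ∃ (N : Finset F) (Λ : F →+ F) (e : F), Fintype.card F ≤ C1 * N.card ∧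
      ∀ b ∈ N, b ∉ T.B ∧ b ≠ (Q a).a ∧ (∃ P : Pt f F, P.Ok ∧ P.a = b) ∧
        ∀ P : Pt f F, P.a = b → zz (T.φ (Q a)) (T.φ P) = Λ (zz (Q a) P) + e := fun a ha =>
    h2 F G G' f g T (by omega) hC (Q a) X (okQ a (sA a ha)) okX
      (by rw [aQ a (sA a ha)]; exact Finset.ne_of_mem_erase (hs ha))
      (by rw [aQ a (sA a ha)]; exact (Finset.mem_sdiff.1 (sA a ha)).2) (Finset.mem_sdiff.1 hx).2
  choose! N Λ e cN hN using h3
  obtain ⟨i, hi, j, hj, ij, big⟩ : ∃ i ∈ s, ∃ j ∈ s, i ≠ j ∧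
      Fintype.card F ≤ M ^ 2 * (N i ∩ N j).card := by
    by_contra hcon
    push Not at hcon
    have M0 : 0 < M ^ 2 := pow_pos (by omega) _
    have b1 := mb_bonf N ((Fintype.card F - 1) / M ^ 2) s fun i hi j hj ij =>
      (Nat.le_div_iff_mul_le M0).2 (by have := hcon i hi j hj ij; rw [mul_comm]; omega)
    have b2 := Nat.mul_div_le (Fintype.card F - 1) (M ^ 2)
    have b3 := Finset.card_le_univ (s.biUnion N)
    have b4 : s.card • Fintype.card F ≤ ∑ i ∈ s, C1 * (N i).card := Finset.card_nsmul_le_sum _ _ _ cN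
    rw [← Finset.mul_sum, smul_eq_mul, cs] at b4
    rw [cs] at b1
    have b5 : ∑ i ∈ s, (N i).card ≤ 2 * Fintype.card F := by omega
    have b6 := Nat.mul_le_mul_left C1 b5
    rw [hM] at b4
    nlinarith
  have c2 : 2 ≤ (N i ∩ N j).card := by
    by_contra hcon
    have := Nat.mul_le_mul_left (M ^ 2) (show (N i ∩ N j).card ≤ 1 by omega)
    omega
  obtain ⟨τ, α, β, γ, δ, h⟩ := mb_core hHUA T tb (Q i) (Q j)
    (by rwa [aQ i (sA i hi), aQ j (sA j hj)])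
    (by rw [aQ i (sA i hi)]; exact (Finset.mem_sdiff.1 (sA i hi)).2)
    (by rw [aQ j (sA j hj)]; exact (Finset.mem_sdiff.1 (sA j hj)).2) (N i ∩ N j) (Λ i) (Λ j) (e i)
    (e j) (fun a ha => by
      obtain ⟨u1, u2, ⟨P, ok, hP⟩, u3⟩ := hN i hi a (Finset.mem_inter.1 ha).1
      obtain ⟨-, v2, -, v3⟩ := hN j hj a (Finset.mem_inter.1 ha).2
      exact ⟨u1, u2, v2, P, ok, hP, u3 P hP, v3 P hP⟩) (by
      have := Nat.mul_le_mul_right (N i ∩ N j).card (show 2 * M ^ 2 + 1 ≤ ringChar F by omega)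
      nlinarith) c2
  exact ⟨_, τ, α, β, γ, δ, big.trans (Nat.mul_le_mul_right _ (by omega)), h⟩

end Pool.Agent.P.MP_9344a7_nt.Tor
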