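import Pool.Agent.P.MP_9344a7_nt.Tor.Iface

/-! Step MOD. -/

set_option autoImplicit false
set_option linter.unusedSectionVars false

namespace Pool.Agent.P.MP_9344a7_nt.Tor

open Polynomial WithZero
open Pool.Agent.P.MP_6f117a_ag (Place FF)
open Pool.Agent.P.MP_ab3ecb_nt.Inv (ord Dv dv deg SA LS)
open scoped Classical IntermediateField

lemma mod_gd {F : Type} [Field F] [Finite F] {f : F[X]} (hs : Squarefree f)
    (hd : f.natDegree = 5 ∨ f.natDegree = 6) (h2 : (2 : F) ≠ 0) {a : F} (ha : f.eval a ≠ 0) :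
    Gd (reflect 6 (taylor a f)) ∧ (reflect 6 (taylor a f)).leadingCoeff = f.eval a := by
  have c6 : (reflect 6 (taylor a f)).coeff 6 = f.eval a := by
    rw [coeff_reflect, revAt_le le_rfl, taylor_coeff_zero]
  have dt : (taylor a f).natDegree = f.natDegree := natDegree_taylor f a
  have d6 : (reflect 6 (taylor a f)).natDegree = 6 :=
    natDegree_eq_of_le_of_coeff_ne_zero (natDegree_le_iff_coeff_eq_zero.2 fun n hn => by
      rw [coeff_reflect, revAt_eq_self_of_lt hn]
      exact coeff_eq_zero_of_natDegree_lt (by omega)) (by rwa [c6])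
  refine ⟨⟨PerfectField.separable_iff_squarefree.2 ?_, d6, h2⟩, by rw [leadingCoeff, d6, c6]⟩
  rintro p ⟨g, hg⟩
  have f0 : p * p * g ≠ 0 := fun e => by simp [hg, e] at d6
  have p0 : p ≠ 0 := left_ne_zero_of_mul (left_ne_zero_of_mul f0)
  have e1 := d6
  rw [hg, natDegree_mul (mul_ne_zero p0 p0) (right_ne_zero_of_mul f0), natDegree_mul p0 p0] at e1
  have e2 : taylor a f = reflect p.natDegree p * reflect p.natDegree p * reflect g.natDegree g := by
    rw [← reflect_mul _ _ le_rfl le_rfl, ← reflect_mul _ _ natDegree_mul_le le_rfl, e1, ← hg,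
      reflect_reflect]
  have e3 : IsUnit (taylor (-a) (reflect p.natDegree p)) := hs _
    ⟨taylor (-a) (reflect g.natDegree g), by
      rw [← taylor_mul, ← taylor_mul, ← e2, taylor_taylor, neg_add_cancel, taylor_zero]⟩
  have e4 := natDegree_eq_zero_of_isUnit e3
  rw [natDegree_taylor] at e4
  have e5 := natDegree_mul_le (p := reflect p.natDegree p * reflect p.natDegree p)
    (q := reflect g.natDegree g)
  have e6 := natDegree_mul_le (p := reflect p.natDegree p) (q := reflect p.natDegree p)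
  have e7 : (reflect g.natDegree g).natDegree ≤ g.natDegree := g.reverse_natDegree_le
  rw [← e2, dt] at e5
  exact isUnit_iff_degree_eq_zero.2 (by
    rw [degree_eq_natDegree p0, show p.natDegree = 0 by omega]; rfl)

theorem p_MOD (hPTS : S_PTS) (hMOD1 : S_MOD1) :
    S_MOD := by
  obtain ⟨p0, hP⟩ := hPTS
  refine ⟨p0 + 2, fun F E _ _ _ _ _ _ C hp hg => ?_⟩
  have hc : ringChar F ≠ 2 := by omega
  have h2 : (2 : F) ≠ 0 := Ring.two_ne_zero hc
  obtain ⟨f, x, y, hs, hd, ht, e, hg, hx, hy⟩ := hMOD1 F E C h2 hg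
  obtain ⟨ε, hε⟩ := FiniteField.exists_nonsquare hc
  have ε0 : ε ≠ 0 := by rintro rfl; exact hε IsSquare.zero
  have h1 := hP F f ε (by omega) hs (by omega) (by omega) ε0
  have := Nat.card_pos (α := F)
  obtain ⟨a, b, b0, hb⟩ := Set.nonempty_of_ncard_ne_zero (s :=
    {a : F | ∃ b, b ≠ 0 ∧ b ^ 2 = ε * f.eval a}) (by omega)
  have a0 : f.eval a ≠ 0 := fun h => b0 (by simpa [h] using hb)
  obtain ⟨h3, h4⟩ := mod_gd hs hd h2 a0
  have ea : algebraMap F E a = algebraMap _ E (algebraMap F (AlgebraicClosure F) a) :=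
    IsScalarTower.algebraMap_apply _ _ _ a
  have t1 : Transcendental (AlgebraicClosure F) (x - algebraMap F E a) :=
    ea ▸ MP_6f117a_ag.trans_sub ht _
  have t0 := MP_6f117a_ag.trans_ne t1
  have pa : C.Φ (algebraMap F E a) = algebraMap F E a := by
    rw [ea, C.frob, ← map_pow, FiniteField.pow_card]
  refine ⟨_, (x - algebraMap F E a)⁻¹, y * (x - algebraMap F E a)⁻¹ ^ 3,
    ⟨h3, MP_6f117a_ag.trans_inv t1, ?_, ?_⟩, ?_, by simp [hx, pa], by simp [hx, hy, pa]⟩
  · let := invertibleOfNonzero t0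
    have h5 := eval₂_reflect_mul_pow (algebraMap F E) (x - algebraMap F E a) 6 (taylor a f)
      (by rw [natDegree_taylor]; omega)
    rw [invOf_eq_inv, ← aeval_def, ← aeval_def, taylor_apply, aeval_comp] at h5
    simp only [map_add, aeval_X, aeval_C, sub_add_cancel] at h5
    rw [taylor_apply, mul_pow, e, ← h5]
    field_simp
  · refine eq_top_iff.2 (hg ▸ IntermediateField.adjoin_le_iff.2 ?_)
    set K := IntermediateField.adjoin (AlgebraicClosure F)
      {(x - algebraMap F E a)⁻¹, y * (x - algebraMap F E a)⁻¹ ^ 3}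
    have k1 : x - algebraMap F E a ∈ K :=
      inv_mem_iff.1 (IntermediateField.subset_adjoin _ _ (by simp))
    have k2 : y * (x - algebraMap F E a)⁻¹ ^ 3 ∈ K := IntermediateField.subset_adjoin _ _ (by simp)
    rintro z (rfl | rfl)
    · simpa [← ea] using add_mem k1 (K.algebraMap_mem (algebraMap F _ a))
    · have := mul_mem k2 (pow_mem k1 3)
      rwa [mul_assoc, ← mul_pow, inv_mul_cancel₀ t0, one_pow, mul_one] at this
  · rw [h4]
    rintro ⟨r, hr⟩
    have r0 : r ≠ 0 := fun h => a0 (by simp [hr, h])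
    exact hε ⟨b / r, by field_simp; rw [hb, hr]; ring⟩

end Pool.Agent.P.MP_9344a7_nt.Tor
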