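import Pool.Agent.P.MP_9344a7_nt.Tor.Iface
import Pool.Agent.P.MP_9344a7_nt.Dual
import Pool.Agent.P.MP_9344a7_nt.Lang
import Pool.Agent.P.MP_9344a7_nt.Tor.Mod1A

/-! Step MOD1. -/

set_option autoImplicit false
set_option linter.unusedSectionVars false

namespace Pool.Agent.P.MP_9344a7_nt.Tor

open Polynomial WithZero
open Pool.Agent.P.MP_6f117a_ag (Place FF)
open Pool.Agent.P.MP_ab3ecb_nt.Inv (ord Dv dv deg SA LS)
open scoped Classical IntermediateField

namespace MOD1x

open Module Mod1x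
open Pool.Agent.P.MP_ab3ecb_nt.Inv

variable {F E : Type} [Field F] [Fintype F] [Field E] [Algebra (AlgebraicClosure F) E]
  (C : Curve F E)

/-- The Frobenius automorphism, as a semilinear automorphism. -/
noncomputable def sa : SA (AlgebraicClosure F) E :=
  ⟨C.Φ, (FiniteField.frobeniusAlgEquivOfAlgebraic F (AlgebraicClosure F)).toRingEquiv, C.frob⟩

lemma mem_range {c : AlgebraicClosure F} (h : c ^ Fintype.card F = c) :
    c ∈ Set.range (algebraMap F (AlgebraicClosure F)) := by
  have h1 := FiniteField.X_pow_card_sub_X_ne_zero (AlgebraicClosure F) (Fintype.one_lt_card (α := F))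
  have h2 : c ∈ (X ^ Fintype.card F - X : (AlgebraicClosure F)[X]).roots :=
    (mem_roots h1).2 (by simp [h])
  have h3 : (X ^ Fintype.card F - X : (AlgebraicClosure F)[X]) =
      (X ^ Fintype.card F - X : F[X]).map (algebraMap F _) := by simp
  rw [h3, ← roots_map_of_injective_of_card_eq_natDegree (algebraMap F _).injective (by
    rw [FiniteField.roots_X_pow_card_sub_X,
      FiniteField.X_pow_card_sub_X_natDegree_eq F Fintype.one_lt_card]
    rfl)] at h2
  obtain ⟨a, -, rfl⟩ := Multiset.mem_map.1 h2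
  exact ⟨a, rfl⟩

lemma phi_aeval {x : E} (hx : C.Φ x = x) (p : (AlgebraicClosure F)[X]) :
    C.Φ (aeval x p) = aeval x (p.map (sa C).s0.toRingHom) := by
  induction p using Polynomial.induction_on' with
  | add p q hp hq => simp only [map_add, Polynomial.map_add, hp, hq]
  | monomial n a =>
    rw [Polynomial.map_monomial, aeval_monomial, aeval_monomial, map_mul, map_pow, hx]
    exact congrArg (· * x ^ n) ((sa C).h a)

variable [FF (AlgebraicClosure F) E]

lemma fixed {D : Dv (AlgebraicClosure F) E} {u : E} (u0 : u ≠ 0)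
    (hu : (sa C).dm D = D + dv _ u) (V : Submodule (AlgebraicClosure F) E)
    (h : ∀ z ∈ LS D, u * C.Φ z = z → z ∈ V) : LS D ≤ V := by
  have := R.rr_fd D
  let θ : LS D →ₛₗ[(sa C).s0.toRingHom] LS D :=
    { toFun := fun z => ⟨u * C.Φ z, by
        refine (LS_add_dv u0 D).ge ⟨C.Φ z, ?_, rfl⟩
        rw [← hu]
        exact (sa C).mem_LS_dm.2 z.2⟩
      map_add' := fun a b => Subtype.ext (by simp [mul_add])
      map_smul' := fun c a => Subtype.ext (by
        simp only [Submodule.coe_smul, Algebra.smul_def, map_mul]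
        rw [mul_left_comm]
        exact congrArg (· * _) ((sa C).h c)) }
  have h1 := R.span_fixed (Q := Fintype.card F) Fintype.one_lt_card (fun _ => rfl) θ
    fun a b e => Subtype.ext (C.Φ.injective (mul_left_cancel₀ u0 (congrArg Subtype.val e)))
  intro z hz
  have h2 : Submodule.span _ {w | θ w = w} ≤ V.comap (LS D).subtype :=
    Submodule.span_le.2 fun w hw => h w w.2 (congrArg Subtype.val hw)
  exact h2 (x := ⟨z, hz⟩) (h1 ▸ Submodule.mem_top)

include C in
lemma exists_can (hg : Genus (AlgebraicClosure F) E 2) :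
    ∃ W : Dv (AlgebraicClosure F) E, Can W := by
  obtain ⟨t, ht⟩ : ∃ t : E, Transcendental (AlgebraicClosure F) t := by
    by_contra h
    have : Algebra.IsAlgebraic (AlgebraicClosure F) E := ⟨fun t => not_not.1 fun e => h ⟨t, e⟩⟩
    have h1 := C.tr
    rw [trdeg_eq_zero] at h1
    exact zero_ne_one h1
  obtain ⟨g, hR⟩ := R.exists_RR ht
  obtain ⟨O, -⟩ := PL.exists_pole ht
  have e : ∀ D : Dv (AlgebraicClosure F) E, ell D = finrank _ (LS D) := fun D => by
    rw [ell, show {z : E | ∀ P : Place (AlgebraicClosure F) E, P.v z ≤ exp (D P)} = LS D from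
      Set.ext fun z => mem_LS.symm, Submodule.span_eq]
  have e' : ∀ D : Dv (AlgebraicClosure F) E, MP_9344a7_nt.degree D = deg D := fun D => rfl
  obtain ⟨⟨D0, h0⟩, h1⟩ := hg
  obtain ⟨c, hc⟩ := hR.big
  have h2 := h1 ⟨Finsupp.single O c, rfl⟩
  have h3 := hc (Finsupp.single O c) (by simp)
  have h4 := hR.rie D0
  simp only [e, e'] at h0 h2
  obtain ⟨W, hW⟩ := hR.canonical O
  exact ⟨W, fun D => by rw [hW D]; omega⟩

lemma exists_hy (hg : Genus (AlgebraicClosure F) E 2) :
    ∃ D x, Hy (AlgebraicClosure F) D x ∧ (sa C).dm D = D ∧ C.Φ x = x := by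
  obtain ⟨W, hW⟩ := exists_can C hg
  obtain ⟨u, u0, hu⟩ := hW.prin (D := (sa C).dm W) (by rw [SA.deg_dm, hW.two.2])
    (by rw [SA.finrank_LS_dm, hW.two.1])
  have hu' : (sa C).dm W = W + dv _ u := by rw [hu]; abel
  have key : ∀ s : E, ∃ z ∈ LS W, u * C.Φ z = z ∧ z ∉ Submodule.span (AlgebraicClosure F) {s} := by
    intro s
    by_contra h
    push Not at h
    have h1 := Submodule.finrank_mono (fixed C u0 hu' _ h)
    have h2 := finrank_span_le_card (R := AlgebraicClosure F) ({s} : Set E)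
    rw [hW.two.1] at h1
    simp at h2
    omega
  obtain ⟨s, s1, s2, s3⟩ := key 0
  obtain ⟨t, t1, t2, t3⟩ := key s
  have s0 : s ≠ 0 := fun e => s3 (by simp [e])
  have p0 : C.Φ s ≠ 0 := (map_ne_zero C.Φ).2 s0
  refine ⟨W + dv _ s, t / s, ⟨hW.congr ⟨s, s0, by abel⟩, ?_, ?_, ?_⟩, ?_, ?_⟩
  · rw [add_comm]
    exact (mem_LS' s0).1 s1
  · have : s⁻¹ ∈ LS (dv (AlgebraicClosure F) s) := (mem_LS' (inv_ne_zero s0)).2 (by simp)
    rw [div_eq_mul_inv]
    exact mul_mem_LS t1 this
  · refine (MP_6f117a_ag.const_or_trans _).resolve_left fun ⟨c, hc⟩ => t3 ?_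
    exact Submodule.mem_span_singleton.2 ⟨c, by rw [Algebra.smul_def, hc, div_mul_cancel₀ _ s0]⟩
  · rw [map_add, hu', ← (sa C).dv_s, add_assoc]
    exact congrArg (W + ·) ((dv_mul u0 p0).symm.trans (congrArg (dv _) s2))
  · rw [map_div₀, ← mul_div_mul_left _ _ u0, s2, t2]

end MOD1x

open MOD1x Mod1x Pool.Agent.P.MP_ab3ecb_nt.Inv in
theorem p_MOD1 :
    S_MOD1 := by
  intro F E _ _ _ _ _ _ C h2 hg
  have : FF (AlgebraicClosure F) E := FF.of_fg C.fg C.tr.le
  obtain ⟨D, x, h, hD, hx⟩ := exists_hy C hg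
  obtain ⟨y, y1, y2, y3⟩ : ∃ y ∈ LS (3 • D), C.Φ y = y ∧
      y ∉ LinearMap.range (TT (k := AlgebraicClosure F) x 0 4 0) := by
    by_contra h1
    push Not at h1
    have h3 := Submodule.finrank_mono (fixed C one_ne_zero (D := 3 • D)
      (by rw [map_nsmul, hD, dv_one, add_zero]) _ fun z hz e => h1 z hz (by simpa using e))
    rw [h.rank (by omega), TT0_rank h.tr] at h3
    omega
  have hi := h.ind y1 y3
  obtain ⟨a, b, ha, hb, e⟩ := h.quad y1 hi
  have e1 := congrArg C.Φ e
  rw [map_pow, map_add, map_mul, y2, phi_aeval C hx, phi_aeval C hx, e] at e1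
  obtain ⟨a1, b1⟩ := hi (a - a.map (sa C).s0.toRingHom) (b - b.map (sa C).s0.toRingHom)
    (by rw [map_sub, map_sub]; linear_combination e1)
  rw [sub_eq_zero] at a1 b1
  have lf : ∀ p : (AlgebraicClosure F)[X], p = p.map (sa C).s0.toRingHom →
      ∃ q : F[X], q.map (algebraMap F _) = p := fun p hp =>
    (mem_lifts p).1 ((lifts_iff_coeff_lifts p).2 fun n => mem_range (by
      have := congrArg (coeff · n) hp
      simp only [coeff_map] at this
      exact this.symm))
  obtain ⟨a, rfl⟩ := lf a a1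
  obtain ⟨b, rfl⟩ := lf b b1
  rw [natDegree_map] at ha hb
  have k2 : (2 : E) ≠ 0 := by
    have := (map_ne_zero (algebraMap F E)).2 h2
    rwa [map_ofNat] at this
  have hi' : ∀ p q : (AlgebraicClosure F)[X], aeval x p + aeval x q *
      (2 * y - aeval x (b.map (algebraMap F (AlgebraicClosure F)))) = 0 → p = 0 ∧ q = 0 := by
    intro p q e2
    obtain ⟨h3, h4⟩ := hi (p - q * b.map (algebraMap F _)) (2 * q) (by
      rw [map_sub, map_mul, map_mul, map_ofNat]; linear_combination e2)
    have h5 : q = 0 := by_contra fun q0 => MP_6f117a_ag.aeval_ne h.tr q0 (by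
      have := congrArg (aeval x) h4
      rw [map_mul, map_ofNat, map_zero] at this
      exact (mul_eq_zero.1 this).resolve_left k2)
    exact ⟨by simpa [h5] using h3, h5⟩
  have e3 : (2 * y - aeval x (b.map (algebraMap F (AlgebraicClosure F)))) ^ 2 =
      aeval x ((4 * a + b ^ 2).map (algebraMap F (AlgebraicClosure F))) := by
    simp only [Polynomial.map_add, Polynomial.map_mul, Polynomial.map_pow, Polynomial.map_ofNat,
      map_add, map_mul, map_pow, map_ofNat]
    linear_combination 4 * e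
  have hd : (4 * a + b ^ 2).natDegree ≤ 6 := by
    refine natDegree_add_le_of_degree_le ?_ (natDegree_pow_le.trans (by omega))
    exact (natDegree_C_mul_le 4 a).trans ha
  generalize 4 * a + b ^ 2 = f at e3 hd
  have hy : C.Φ (2 * y - aeval x (b.map (algebraMap F (AlgebraicClosure F)))) =
      2 * y - aeval x (b.map (algebraMap F (AlgebraicClosure F))) := by
    rw [map_sub, map_mul, map_ofNat, y2, phi_aeval C hx, ← b1]
  generalize 2 * y - aeval x (b.map (algebraMap F (AlgebraicClosure F))) = z at e3 hi' hy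
  have d5 : ¬ f.natDegree ≤ 4 := fun h4 => by
    obtain ⟨p, hp⟩ := h.sq (by rwa [natDegree_map]) e3
    exact one_ne_zero (hi' (-p) 1 (by simp [hp])).2
  refine ⟨f, x, z, fun p hp => by_contra fun hu => ?_, by omega, h.tr,
    by rw [e3, aeval_map_algebraMap], h.top hi', hx, hy⟩
  have f0 : f ≠ 0 := by rintro rfl; simp at d5
  have p0 : p ≠ 0 := by rintro rfl; simp [f0] at hp
  obtain ⟨r, hr⟩ := IsAlgClosed.exists_root (p.map (algebraMap F (AlgebraicClosure F))) (by
    rw [degree_map]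
    exact fun e => hu (isUnit_iff_degree_eq_zero.2 e))
  have h3 := dvd_iff_isRoot.2 hr
  have h5 := Polynomial.map_dvd (algebraMap F (AlgebraicClosure F)) hp
  rw [Polynomial.map_mul] at h5
  obtain ⟨g, hg⟩ := (mul_dvd_mul h3 h3).trans h5
  have g0 : g ≠ 0 := by
    rintro rfl
    exact f0 (by simpa using hg)
  have h4 := congrArg natDegree hg
  rw [natDegree_map, natDegree_mul (mul_ne_zero (X_sub_C_ne_zero r) (X_sub_C_ne_zero r)) g0,
    natDegree_mul (X_sub_C_ne_zero r) (X_sub_C_ne_zero r), natDegree_X_sub_C] at h4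
  have t0 := MP_6f117a_ag.trans_ne (MP_6f117a_ag.trans_sub h.tr r)
  obtain ⟨q, hq⟩ := h.sq (z := z / (x - algebraMap _ E r)) (g := g) (by omega) (by
    rw [div_pow, e3, hg, div_eq_iff (pow_ne_zero 2 t0)]
    simp only [map_mul, map_sub, aeval_X, aeval_C]
    ring)
  refine one_ne_zero (hi' (-(q * (X - Polynomial.C r))) 1 ?_).2
  rw [div_eq_iff t0] at hq
  simp [hq]

end Pool.Agent.P.MP_9344a7_nt.Tor
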