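import Pool.Agent.P.MP_9344a7_nt.Tor.Iface

/-! Step MTA. -/

set_option autoImplicit false
set_option linter.unusedSectionVars false

namespace Pool.Agent.P.MP_9344a7_nt.Tor

open Polynomial WithZero
open Pool.Agent.P.MP_6f117a_ag (Place FF)
open Pool.Agent.P.MP_ab3ecb_nt.Inv (ord Dv dv deg SA LS)
open scoped Classical IntermediateField

lemma mta_hom {A A' σ : Type} [CommRing A] [CommRing A'] (φ : A →+* A') (u : σ → A) (w : σ → A')
    (h : ∀ i, φ (u i) = w i) (p : MvPolynomial σ ℤ) :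
    φ (MvPolynomial.aeval u p) = MvPolynomial.aeval w p := by
  obtain rfl : (fun i => φ (u i)) = w := funext h
  exact MvPolynomial.comp_aeval_apply u φ.toIntAlgHom p

lemma mta_two {K A A' : Type} [Field K] [CommRing A] [CommRing A'] [Algebra K A] [Algebra K A']
    (φ : A →ₐ[K] A') (x y : A) (P : K[X][X]) :
    φ (aevalAeval x y P) = aevalAeval (φ x) (φ y) P :=
  DFunLike.congr_fun (show φ.comp (aevalAeval x y) = aevalAeval (φ x) (φ y) by ext <;> simp) P

theorem p_MTA (hUP : S_UP) (hREG : S_REG) (hPJ : S_PJ) (hPAC : S_PAC) :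
    S_MTA := by
  rintro ι κ _ _ H S Al ⟨κ1, μ1, _, _, p1, h1⟩ ⟨κ2, μ2, _, _, p2, h2⟩ h
  by_contra hc
  push Not at hc
  choose F i1 i2 hch x hx B hB hn using fun n => hc n n
  obtain ⟨K, _, π, hπ⟩ := hUP F (Ultrafilter.of Filter.atTop)
  have hU := Ultrafilter.of_le (Filter.atTop : Filter ℕ)
  generalize Ultrafilter.of (Filter.atTop : Filter ℕ) = U at hπ hU
  have : CharZero K := charZero_of_inj_zero fun m hm => by
    rw [← map_natCast π, hπ.ker] at hm
    obtain ⟨n, a1, a2⟩ := (hm.and (hU (Filter.eventually_ge_atTop m))).exists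
    by_contra a3
    have := Nat.le_of_dvd (Nat.pos_of_ne_zero a3) (ringChar.dvd (R := F n) a1)
    have := hch n
    omega
  choose y hy using fun n => (h1 _ _).1 (hx n)
  obtain ⟨z, z1, z2⟩ := h K (fun i => π fun n => x n i) ((h1 _ _).2 ⟨fun k => π fun n => y n k,
    fun j => by
      rw [← mta_hom π (fun s n => Sum.elim (x n) (y n) s) _ (by rintro (s | s) <;> rfl), hπ.ker]
      exact Filter.Eventually.of_forall fun n => (mta_hom (Pi.evalRingHom F n) _ _
        (fun _ => rfl) _).trans (hy n j)⟩)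
  obtain ⟨w, hw⟩ := (h2 _ _).1 z1
  obtain ⟨Ψ, b, r1, r2, r3, r4⟩ := hREG K (κ ⊕ κ2) (Sum.elim z w)
  have hP : ∀ j, ∃ P : K[X][X], (∃ a : ℕ → K[X],
      ∑ i ∈ Finset.range (P.natDegree + 1), a i * P.coeff i = 1) ∧ (aevalAeval (z j) (tA K) P = 0 ∨
        ∃ i ∈ Al, z j = algebraMap K (AL K) (π fun n => x n i)) := fun j => by
    rcases z2 j with e | e
    · obtain ⟨P, a, a1, a2⟩ := hPJ K (z j) e
      exact ⟨P, ⟨a, a2⟩, .inl a1⟩
    · exact ⟨1, ⟨fun _ => 1, by simp⟩, .inr e⟩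
  choose P q1 q2 using hP
  obtain ⟨a, θ, a1, a2, a3⟩ := hPAC F U K π hπ hU hch B hB Ψ b r1 r2 r3 κ P q1
  obtain ⟨u, hu⟩ := r4 a θ a1 a2
  choose v hv using fun s => hπ.surj (u s)
  have e1 : ∀ᶠ n in U, ∀ j, MvPolynomial.aeval (Sum.elim (Sum.elim (x n) fun k => v (.inl k) n)
      fun k => v (.inr k) n) (p2 j) = 0 := Filter.eventually_all.2 fun j => by
    let g : (ι ⊕ κ) ⊕ κ2 → MvPolynomial (Option (κ ⊕ κ2)) K := Sum.elim (Sum.elim
      (fun i => MvPolynomial.C (π fun n => x n i)) fun k => .X (some (.inl k)))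
        fun k => .X (some (.inr k))
    have b1 := hu (MvPolynomial.aeval g (p2 j)) ((mta_hom (MvPolynomial.aeval (R := K)
      fun o : Option (κ ⊕ κ2) => o.elim (tA K) (Sum.elim z w)).toRingHom g _ (by
        rintro ((s | s) | s) <;> simp [g]) _).trans (hw j))
    let g' : (ι ⊕ κ) ⊕ κ2 → ∀ n, F n := Sum.elim (Sum.elim (fun i n => x n i)
      fun k => v (.inl k)) fun k => v (.inr k)
    have b2 := (mta_hom π g' _ (fun _ => rfl) _).trans ((mta_hom (MvPolynomial.aeval (R := K)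
      fun o : Option (κ ⊕ κ2) => o.elim a u).toRingHom g (fun s => π (g' s)) (by
        rintro ((s | s) | s) <;> simp [g, g', hv]) (p2 j)).symm.trans b1)
    exact ((hπ.ker _).1 b2).mono fun n e => (mta_hom (Pi.evalRingHom F n) g' _ (by
      rintro ((s | s) | s) <;> rfl) _).symm.trans e
  have e2 : ∀ᶠ n in U, ∀ j, v (.inl j) n ∉ B n ∨ ∃ i ∈ Al, v (.inl j) n = x n i :=
    Filter.eventually_all.2 fun j => by
    rcases q2 j with e | ⟨i, hi, e⟩
    · have b1 := hu (aevalAeval (.X (some (.inl j))) (.X none) (P j)) (by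
        rw [mta_two]
        simpa using e)
      rw [mta_two, coe_aevalAeval_eq_evalEval] at b1
      exact (a3 j (v (.inl j)) (by simpa [hv] using b1)).mono fun n => .inl
    · have b1 := hu (.X (some (.inl j)) - .C (π fun n => x n i)) (by simp [e])
      have b2 : π (v (.inl j) - fun n => x n i) = 0 := by simpa [hv] using b1
      exact ((hπ.ker _).1 b2).mono fun n e => .inr ⟨i, hi, sub_eq_zero.1 e⟩
  obtain ⟨n, b1, b2⟩ := (e1.and e2).exists
  obtain ⟨j, c1, c2⟩ := hn n _ ((h2 _ _).2 ⟨_, b1⟩)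
  rcases b2 j with e | ⟨i, hi, e⟩
  · exact e c1
  · exact c2 i hi e

end Pool.Agent.P.MP_9344a7_nt.Tor
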