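import Pool.Agent.P.MP_9344a7_nt.Tor.Iface

/-! Step NAT. -/

set_option autoImplicit false
set_option linter.unusedSectionVars false

namespace Pool.Agent.P.MP_9344a7_nt.Tor

open Polynomial WithZero
open Pool.Agent.P.MP_6f117a_ag (Place FF)
open Pool.Agent.P.MP_ab3ecb_nt.Inv (ord Dv dv deg SA LS)
open scoped Classical IntermediateField

lemma nat_dd {k0 k E : Type} [Field k0] [Field k] [Field E] [Algebra k0 k] [Algebra k E]
    [Algebra k0 E] {f : k0[X]} (σ : SA k E) (p : Place k E) (A B A' B' : Pt f E)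
    (h1 : A'.a = σ.s A.a) (h2 : A'.b = σ.s A.b) (h4 : B'.a = σ.s B.a) (h5 : B'.b = σ.s B.b)
    (h3 : A'.y = σ.s A.y ∧ B'.y = σ.s B.y ∨ A'.y = -σ.s A.y ∧ B'.y = -σ.s B.y) :
    dd (σ.pl p).v A' B' = dd p.v A B := by
  have e : ∀ z, (σ.pl p).v (σ.s z) = p.v z := fun z => σ.pl_v p z
  have e1 : (σ.pl p).v (br A' B') = p.v (br A B) := by
    rw [← e, br, br, h1, h2, h4, h5]
    simp
  have e2 : (σ.pl p).v (A'.y * B'.b ^ 3 - B'.y * A'.b ^ 3) =
      p.v (A.y * B.b ^ 3 - B.y * A.b ^ 3) := by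
    rw [← e]
    rcases h3 with ⟨h3, h6⟩ | ⟨h3, h6⟩ <;> rw [h3, h6, h2, h5]
    · simp
    · rw [← Valuation.map_neg]
      congr 1
      simp only [map_sub, map_mul, map_pow]
      ring
  have e3 : (σ.pl p).v (A'.y * B'.a ^ 3 - B'.y * A'.a ^ 3) =
      p.v (A.y * B.a ^ 3 - B.y * A.a ^ 3) := by
    rw [← e]
    rcases h3 with ⟨h3, h6⟩ | ⟨h3, h6⟩ <;> rw [h3, h6, h1, h4]
    · simp
    · rw [← Valuation.map_neg]
      congr 1
      simp only [map_sub, map_mul, map_pow]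
      ring
  unfold dd nm
  rw [e1, e2, e3, h1, h2, h4, h5]
  simp only [e]

theorem p_NAT :
    S_NAT := by
  intro k0 k E _ _ _ _ _ _ _ f x y h pl hpl σ τ hτ hx
  have key : ∀ P Q : Pt f k, dd (σ.pl (pl P)).v h.Z (Q.map (IsScalarTower.toAlgHom k0 k E)) =
      dd (pl P).v h.Z (P.map (IsScalarTower.toAlgHom k0 k E)) → σ.pl (pl P) = pl Q := by
    intro P Q hd
    obtain ⟨P', hP'⟩ := pl.surjective (σ.pl (pl P))
    rw [← hP', hpl, hpl, if_pos rfl] at hd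
    by_cases hq : Q = P'
    · rw [hq, hP']
    · rw [if_neg hq] at hd
      exact absurd hd.symm (by simp)
  have c : ∀ t : k, algebraMap k E (τ t) = σ.s (algebraMap k E t) := fun t => by rw [σ.h, hτ]
  refine ⟨fun hy P => key _ _ ?_, fun hy P => key _ _ ?_⟩
  · exact nat_dd σ _ _ _ _ _ hx.symm (map_one σ.s).symm (c _) (c _) (Or.inl ⟨hy.symm, c _⟩)
  · refine nat_dd σ _ _ _ _ _ hx.symm (map_one σ.s).symm (c _) (c _) (Or.inr ⟨?_, ?_⟩)
    · show y = -σ.s y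
      rw [hy, neg_neg]
    · show algebraMap k E (-τ P.y) = -σ.s (algebraMap k E P.y)
      rw [map_neg, c]

end Pool.Agent.P.MP_9344a7_nt.Tor
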