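import Pool.Agent.P.MP_9344a7_nt.Tor.Iface

/-! Step NB. -/

set_option autoImplicit false
set_option linter.unusedSectionVars false

namespace Pool.Agent.P.MP_9344a7_nt.Tor

open Polynomial WithZero
open Pool.Agent.P.MP_6f117a_ag (Place FF)
open Pool.Agent.P.MP_ab3ecb_nt.Inv (ord Dv dv deg SA LS)
open scoped Classical IntermediateField

lemma nb_at {K A : Type} [Field K] [Field A] [Algebra K A] {f : K[X]} {g : A[X]}
    (e : g = f.map (algebraMap K A)) {P : Pt f K} {c : Fin 2 → K} (h : P.At c) :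
    ((P.up A).reb e).At fun i => algebraMap K A (c i) :=
  ⟨(congrArg (algebraMap K A) h.1).trans (map_one _), congrArg (algebraMap K A) h.2.1,
    congrArg (algebraMap K A) h.2.2⟩

lemma nb_up (hREB : S_REB) {K A : Type} [Field K] [Field A] [Algebra K A]
    (x : Fin 7 ⊕ Fin 2 × Fin 2 → K) (P : Fin 2 → Pt (pol (x ∘ .inl)) K)
    (h : ∀ j, (P j).At fun i => x (.inr (j, i))) (C R1 R2 : Pt (pol (x ∘ .inl)) A)
    (a : Adm ((P 0).up A) ((P 1).up A) C R1 R2) :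
    SNb A (Sum.elim (algebraMap K A ∘ x) ![C.a, R1.a, R2.a]) := by
  have e : pol (algebraMap K A ∘ x ∘ Sum.inl) = (pol (x ∘ .inl)).map (algebraMap K A) :=
    (pol_map _ _).symm
  exact ⟨![((P 0).up _).reb e, ((P 1).up _).reb e, C.reb e, R1.reb e, R2.reb e], nb_at e (h 0),
    nb_at e (h 1), (hREB _ _ _ _ e _ _ _).1 _ _ a, rfl, rfl, rfl⟩

theorem p_NB (hENA : S_ENA) (hMTA : S_MTA) (hLAU : S_LAU) (hREB : S_REB) (hNBA : S_NBA) :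
    S_NB := by
  obtain ⟨C0, p0, h⟩ := hMTA _ (Fin 3) HTwo SNb ∅ hENA.1 hENA.2.2
    fun K _ _ x ⟨h1, P, h2, h3, h4, h5⟩ => by
    obtain ⟨v, hv⟩ := hLAU K h1.two
    obtain ⟨C, R1, R2, a1, a2, a3, a4⟩ := hNBA K (AL K) (LaurentSeries K) _ v _ _ hv h1 _ _ h3 h4 h5
    refine ⟨_, nb_up hREB x P h2 C R1 R2 a1, fun j => .inl ?_⟩
    fin_cases j
    exacts [a2, a3, a4]
  refine ⟨C0, p0, fun F _ _ hp f hf Q X B hQ hX hne hB => ?_⟩
  obtain ⟨c, rfl⟩ : ∃ c : Fin 7 → F, f = pol c := ⟨_, (pol_coeff (by rw [hf.deg]; omega)).symm⟩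
  obtain ⟨z, ⟨P, a1, a2, a3, a4, a5, a6⟩, hz⟩ := h F hp
    (Sum.elim c fun w => ![![Q.a, Q.y], ![X.a, X.y]] w.1 w.2) ⟨hf, ![Q, X], fun j => by
      fin_cases j
      exacts [⟨hQ.1, rfl, rfl⟩, ⟨hX.1, rfl, rfl⟩], hQ, hX, hne⟩ B hB
  have e1 : P 0 = Q := Pt.ext a1.2.1 (a1.1.trans hQ.1.symm) a1.2.2
  have e2 : P 1 = X := Pt.ext a2.2.1 (a2.1.trans hX.1.symm) a2.2.2
  have hz' : ∀ j, z j ∉ B := fun j => (hz j).resolve_right fun ⟨_, e, _⟩ => e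
  rw [e1, e2] at a3
  exact ⟨P 2, P 3, P 4, a3, a4 ▸ hz' 0, a5 ▸ hz' 1, a6 ▸ hz' 2⟩

end Pool.Agent.P.MP_9344a7_nt.Tor
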