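import Pool.Agent.P.MP_9344a7_nt.Tor.Iface
import Pool.Agent.P.MP_ab3ecb_nt.Inv.J.Dalg

/-! Step NBA. -/

set_option autoImplicit false
set_option linter.unusedSectionVars false

namespace Pool.Agent.P.MP_9344a7_nt.Tor

open Polynomial WithZero
open Pool.Agent.P.MP_6f117a_ag (Place FF)
open Pool.Agent.P.MP_ab3ecb_nt.Inv (ord Dv dv deg SA LS)
open scoped Classical IntermediateField

lemma nba_map_map {k0 L L' L'' : Type} [Field k0] [Field L] [Algebra k0 L] [Field L']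
    [Algebra k0 L'] [Field L''] [Algebra k0 L''] {f : k0[X]} (φ : L →ₐ[k0] L') (ψ : L' →ₐ[k0] L'')
    (p : Pen f L) : (p.map φ).map ψ = p.map (ψ.comp φ) := by
  simp only [Pen.map, Polynomial.map_map]
  rfl

lemma nba_alg {K M Γ : Type} [Field K] [Field M] [Algebra K M]
    [LinearOrderedCommGroupWithZero Γ] {v : Valuation M Γ} {t : M} {f : K[X]} (ha : Ana K v t)
    (hg : Gd f) (hn : NB v f) {P : Pt f M} {P0 : Pt f K} (h0 : P0.Ok) (h : Nr v P P0)
    (hP : IsAlgebraic K P.a) : P = P0.up M := by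
  obtain ⟨h1, -, -, h2, -⟩ := hn.ok P P0 h h0
  rcases Pt.eq_or_io (P := P) (Q := P0.up M) (ha.cst _ _ hP h2)
    (h1.1.trans ((Pt.ok_map _).2 h0).1.symm) with e | e
  · exact e
  · refine absurd rfl (hn.ne P P P0 P0.io h ?_ (h0.ne_io hg.two)).2
    rw [e, ← Pt.map_io]
    exact hn.up _

theorem p_NBA (hFB : S_FB) (hFC : S_FC) (hPIC : S_PIC) (hDDM : S_DDM) (hNRB : S_NRB) (hPD0 : S_PD0) (hSPL : S_SPL) (hDER : S_DER) (hAL2 : S_AL2) (hYB : S_YB) :
    S_NBA := by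
  intro K A M Γ _ _ _ _ _ _ _ _ _ v t f haa hg Q X hQ hX hQX
  set φ := IsScalarTower.toAlgHom K A M with hφ
  have ha := haa.ana
  have hn := (hNRB K M Γ v f ⟨hg, ha.triv⟩).1
  obtain ⟨R1, hR1, hR1a⟩ := hYB K A M Γ v t f haa hg Q 0 hQ
  have hS : Nr v (R1.map φ) Q := by
    have := hDDM K A M Γ Γ (v.comap (algebraMap A M)) v (MonoidWithZeroHom.id Γ) φ f
      (fun _ _ h => h) (fun _ => rfl) R1 (Q.up A)
    rw [Pt.map_up] at this
    unfold Nr
    rw [this]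
    exact hR1
  have hSQ : R1.map φ ≠ Q.up M := by
    intro e
    rw [← Pt.map_up φ] at e
    have h1 : R1.a = algebraMap K A Q.a := congrArg Pt.a (Pt.map_inj φ e)
    rw [h1, sub_self, zero_mul] at hR1a
    exact zero_ne_one hR1a
  have hne : Q ≠ X := fun e => hQX (congrArg Pt.a e)
  have hXio : X ≠ Q.io := fun e => hQX (congrArg Pt.a e).symm
  have hnc : NC3 Q Q X := ⟨hQ.ne_io hg.two, hXio, hXio⟩
  obtain ⟨p, hp⟩ := hPD0 K K f hg Q Q X hQ hQ hX hnc
  have hpA : (p.map (Algebra.ofId K A)).Fib (Q.up A) (Q.up A) (X.up A) :=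
    Pen.Fib.map _ ⟨0, 1, hp⟩
  have hpM := hpA.map φ
  simp only [Pt.map_up] at hpM
  obtain ⟨G, _, ⟨I⟩⟩ := hPIC K M f hg
  obtain ⟨V1, V2, hV1, hV2, hcl⟩ := hSPL K M Γ G v _ f I ha hg Q Q X Q Q X (Q.up M) (Q.up M)
    (X.up M) (R1.map φ) hQ hQ hX hQ hQ hX hnc hne rfl (hn.up _) (hn.up _) (hn.up _) hS
  have hfib := (I.fib _ _ _ _ _ _ _ hpM).2 hcl
  obtain ⟨R2, C, rfl, rfl⟩ := (hAL2 K A M f hg haa.cl).2 _ R1 V1 V2 hfib
  have hfibA := (hFC K A f hg).refl M φ _ _ _ _ hfib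
  have halg : ∀ (P : Pt f A) (P0 : Pt f K), P0.Ok → Nr v (P.map φ) P0 → IsAlgebraic K P.a →
      P.map φ = P0.up M := fun P P0 h0 h hP => nba_alg ha hg hn h0 h (hP.algHom φ)
  have hQM : (Q.up M).Ok := (Pt.ok_map _).2 hQ
  have t1 : Transcendental K R1.a := fun h => hSQ (halg R1 Q hQ hS h)
  have tC : Transcendental K C.a := by
    intro h
    rw [halg C X hX hV2 h, add_left_inj] at hcl
    rcases I.two _ _ _ _ hcl with e | e | e
    · exact hSQ e.1
    · exact hSQ e.1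
    · exact hQM.ne_io hg.two e.2
  have t2 : Transcendental K R2.a := by
    intro h
    rw [halg R2 Q hQ hV1 h, add_right_comm, add_right_comm (I.cl (Q.up M)), add_left_inj] at hcl
    rcases I.two _ _ _ _ hcl with e | e | e
    · exact hSQ e.1
    · exact (hn.ne _ _ Q X hS (hn.up X) hne).2 e.1
    · exact hXio (Pt.map_inj _ (e.2.trans (Pt.map_io _ _).symm))
  have o1 := (hn.ok _ _ hS hQ).1
  have o2 := (hn.ok _ _ hV1 hQ).1
  have oC := (hn.ok _ _ hV2 hX).1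
  have n12 : R1.a ≠ R2.a := by
    intro e
    have : CharZero M := charZero_of_injective_algebraMap (algebraMap K M).injective
    have h1 := (MP_ab3ecb_nt.Inv.p_DALG K M ∅ (φ R1.a)).1 (fun δ _ => by
      rw [nba_map_map, Subsingleton.elim (φ.comp _) (IsScalarTower.toAlgHom K K M)] at hfib
      exact (hDER K K M f δ p _ _ _ o1 o2 oC hfib).2 (congrArg φ e))
    rw [IntermediateField.adjoin_empty] at h1
    exact t1 ((isAlgebraic_algHom_iff φ φ.injective).1 (h1.restrictScalars K))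
  have nC1 : C.a ≠ R1.a := fun e => (hn.ane _ _ X Q hV2 hS hX hQ hQX.symm).2 (congrArg φ e)
  have nC2 : C.a ≠ R2.a := fun e => (hn.ane _ _ X Q hV2 hV1 hX hQ hQX.symm).2 (congrArg φ e)
  have hc : ∀ (P : Pt f K) (z : A), Transcendental K z → (P.up A).a ≠ z := fun P z hz e =>
    hz (e ▸ isAlgebraic_algebraMap P.a)
  have hqx : (Q.up A).a ≠ (X.up A).a := fun e => hQX ((algebraMap K A).injective e)
  refine ⟨C, R1, R2, ⟨⟨(Pt.ok_map _).2 hQ, (Pt.ok_map _).2 hX, (Pt.ok_map φ).1 oC,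
    (Pt.ok_map φ).1 o1, (Pt.ok_map φ).1 o2⟩, ?_, _, hpA, hfibA.rot.rot⟩, tC, t1, t2⟩
  have := hc Q _ tC
  have := hc Q _ t1
  have := hc Q _ t2
  have := hc X _ tC
  have := hc X _ t1
  have := hc X _ t2
  generalize (Q.up A).a = q at *
  generalize (X.up A).a = x at *
  intro i j h
  fin_cases i <;> fin_cases j <;> first | rfl | (exfalso; simp at h; first | contradiction | exact absurd h.symm ‹_›)

end Pool.Agent.P.MP_9344a7_nt.Tor
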