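import Pool.Agent.P.MP_9344a7_nt.Tor.Iface

/-! Step NC. -/

set_option autoImplicit false
set_option linter.unusedSectionVars false

namespace Pool.Agent.P.MP_9344a7_nt.Tor

open Polynomial WithZero
open Pool.Agent.P.MP_6f117a_ag (Place FF)
open Pool.Agent.P.MP_ab3ecb_nt.Inv (ord Dv dv deg SA LS)
open scoped Classical IntermediateField

theorem p_NC (hFB : S_FB) (hPD0 : S_PD0) :
    S_NC := by
  intro k0 L G _ _ _ _ f hf I P1 P2 P3 Q1 Q2 Q3 h1 h2 h3 hn he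
  obtain ⟨p, hp⟩ := hPD0 k0 L f hf P1 P2 P3 h1 h2 h3 hn
  exact (hFB k0 L f hf).nc p Q1 Q2 Q3 ((I.fib p P1 P2 P3 Q1 Q2 Q3 ⟨0, 1, hp⟩).2 he)

end Pool.Agent.P.MP_9344a7_nt.Tor
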