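import Pool.Agent.P.MP_9344a7_nt.Tor.Iface

/-! Step NP. -/

set_option autoImplicit false
set_option linter.unusedSectionVars false

namespace Pool.Agent.P.MP_9344a7_nt.Tor

open Polynomial WithZero
open Pool.Agent.P.MP_6f117a_ag (Place FF)
open Pool.Agent.P.MP_ab3ecb_nt.Inv (ord Dv dv deg SA LS)
open scoped Classical IntermediateField

section np

variable {k0 L Γ : Type} [Field k0] [Field L] [Algebra k0 L] [LinearOrderedCommGroupWithZero Γ]
  {v : Valuation L Γ} {f : k0[X]} {p : Pen f L} {s0 s1 : L} {P1 P2 P3 : Pt f L}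

lemma np_s12 (X P1 P2 P3 : Pt f L) : d3 v X P2 P1 P3 = d3 v X P1 P2 P3 := by
  unfold d3
  rw [mul_comm (dd v X P2)]

lemma np_s23 (X P1 P2 P3 : Pt f L) : d3 v X P1 P3 P2 = d3 v X P1 P2 P3 := by
  unfold d3
  rw [mul_right_comm]

lemma np_io (D : DD v f) (X P : Pt f L) : dd v X.io P = dd v X P.io := by
  rw [← D.io X P.io, Pt.io_io]

lemma np_mul (D : DD v f) (R : RH v p) (h : p.FibS s0 s1 P1 P2 P3)
    (hG : ∀ t, p.V s0 s1 = C t * P1.ell * P2.ell * P3.ell →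
      v t * nm v P1 * nm v P2 * nm v P3 = max (v s0) (v s1) ^ 2) (X : Pt f L) :
    rho v p s0 s1 X * rho v p s0 s1 X.io = d3 v X P1 P2 P3 * d3 v X.io P1 P2 P3 := by
  obtain ⟨t, ht, hV⟩ := h.1
  rw [R.mul, ← hG t hV, hV, ev_ell, map_mul, map_mul, map_mul, D.br, D.br, D.br]
  have h0 : v t ≠ 0 := (Valuation.ne_zero_iff v).2 ht
  have h1 := D.nm_ne P1
  have h2 := D.nm_ne P2
  have h3 := D.nm_ne P3
  have h4 := D.nm_ne X
  unfold d3
  rw [np_io D, np_io D, np_io D]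
  field_simp

lemma np_le1 (R : RH v p) {P : Pt f L} (h : p.On s0 s1 P) (X : Pt f L) :
    rho v p s0 s1 X ≤ dd v X P := by
  have h1 := R.lip s0 s1 X P
  rwa [R.zero s0 s1 P h, max_eq_right zero_le] at h1

lemma np_far (D : DD v f) {X P Q : Pt f L} (h : dd v P Q.io = 1) (hX : dd v X P < 1) :
    dd v X Q.io = 1 := by
  refine le_antisymm (D.le _ _) ?_
  have h1 := D.tri P X Q.io
  rw [h, D.symm P X] at h1
  rcases le_max_iff.1 h1 with h2 | h2
  · exact absurd hX (not_lt.2 h2)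
  · exact h2

lemma np_two (D : DD v f) (R : RH v p) (h : p.FibS s0 s1 P1 P2 P3)
    (hC : ∀ P1 P2 P3, p.Fib P1 P2 P3 → dd v P1 P2.io = 1) {X : Pt f L}
    (hm : rho v p s0 s1 X * rho v p s0 s1 X.io = d3 v X P1 P2 P3 * d3 v X.io P1 P2 P3)
    (h1 : dd v X P1 < 1) (h2 : dd v X P2 < 1) : rho v p s0 s1 X ≤ d3 v X P1 P2 P3 := by
  have e1 : dd v X P1.io = 1 := np_far D (hC P2 P1 P3 ⟨_, _, h.s12⟩) h2
  have e2 : dd v X P2.io = 1 := np_far D (hC P1 P2 P3 ⟨_, _, h⟩) h1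
  have e3 : dd v X P3.io = 1 := np_far D (hC P1 P3 P2 ⟨_, _, h.s23⟩) h1
  have e4 : d3 v X.io P1 P2 P3 = 1 := by
    unfold d3
    rw [np_io D, np_io D, np_io D, e1, e2, e3, mul_one, mul_one]
  have e5 : rho v p s0 s1 X.io = 1 := by
    refine le_antisymm (R.le _ _ _) (not_lt.1 fun hlt => ?_)
    have a1 := R.lip s0 s1 P1.io X.io
    rw [R.io s0 s1 P1 h.ne h.2.1, D.io, D.symm P1 X] at a1
    have a2 : dd v P1 P1.io < 1 := lt_of_le_of_lt a1 (max_lt hlt h1)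
    have a3 := D.tri X P1 P1.io
    rw [e1] at a3
    exact absurd (max_lt h1 a2) (not_lt.2 a3)
  rw [e4, e5, mul_one, mul_one] at hm
  exact hm.le

lemma np_le (D : DD v f) (R : RH v p) (h : p.FibS s0 s1 P1 P2 P3)
    (hC : ∀ P1 P2 P3, p.Fib P1 P2 P3 → dd v P1 P2.io = 1) {X : Pt f L}
    (hm : rho v p s0 s1 X * rho v p s0 s1 X.io = d3 v X P1 P2 P3 * d3 v X.io P1 P2 P3) :
    rho v p s0 s1 X ≤ d3 v X P1 P2 P3 := by
  rcases (D.le X P1).lt_or_eq with h1 | h1 <;> rcases (D.le X P2).lt_or_eq with h2 | h2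
  · exact np_two D R h hC hm h1 h2
  · rcases (D.le X P3).lt_or_eq with h3 | h3
    · rw [← np_s23]
      exact np_two D R h.s23 hC (by rw [hm, np_s23 X, np_s23 X.io]) h1 h3
    · unfold d3
      rw [h2, h3, mul_one, mul_one]
      exact np_le1 R h.2.1 X
  · rcases (D.le X P3).lt_or_eq with h3 | h3
    · rw [← np_s12, ← np_s23]
      exact np_two D R h.s12.s23 hC
        (by rw [hm, np_s23 X P2 P1 P3, np_s23 X.io P2 P1 P3, np_s12 X P1 P2 P3,
          np_s12 X.io P1 P2 P3]) h2 h3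
    · unfold d3
      rw [h1, h3, mul_one, one_mul]
      exact np_le1 R h.2.2.1 X
  · unfold d3
    rw [h1, h2, mul_one, one_mul]
    exact np_le1 R h.2.2.2 X

lemma np_at (D : DD v f) (R : RH v p) (h : p.FibS s0 s1 P1 P2 P3)
    (hC : ∀ P1 P2 P3, p.Fib P1 P2 P3 → dd v P1 P2.io = 1) :
    rho v p s0 s1 P1.io = d3 v P1.io P1 P2 P3 := by
  unfold d3
  rw [R.io s0 s1 P1 h.ne h.2.1, np_io D, np_io D, np_io D, hC P1 P2 P3 ⟨_, _, h⟩,
    hC P1 P3 P2 ⟨_, _, h.s23⟩, mul_one, mul_one]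

end np

theorem p_NP (hDD : S_DD) (hRHO : S_RHO) (hGAU : S_GAU) (hCONJ : S_CONJ) :
    S_NP := by
  intro k0 L Γ _ _ _ _ v f hv p hp s0 s1 P1 P2 P3 h X
  have D := hDD k0 L Γ v f hv
  have R := hRHO k0 L Γ v f hv p hp
  have hC := hCONJ k0 L Γ v f hv p hp
  have hm := np_mul D R h (fun t ht => hGAU k0 L Γ v f hv p hp s0 s1 t P1 P2 P3 ht)
  by_cases h0 : d3 v X.io P1 P2 P3 = 0
  · unfold d3 at h0
    rcases mul_eq_zero.1 h0 with h0 | h0
    · rcases mul_eq_zero.1 h0 with h0 | h0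
      · rw [← Pt.io_eq_comm.1 ((D.zero _ _).1 h0)]
        exact np_at D R h hC
      · rw [← Pt.io_eq_comm.1 ((D.zero _ _).1 h0), ← np_s12]
        exact np_at D R h.s12 hC
    · rw [← Pt.io_eq_comm.1 ((D.zero _ _).1 h0), ← np_s23, ← np_s12]
      exact np_at D R h.s23.s12 hC
  · have a1 := np_le D R h hC (hm X)
    have a2 := np_le D R h hC (hm X.io)
    refine le_antisymm a1 (not_lt.1 fun hlt => ?_)
    have a3 : rho v p s0 s1 X * rho v p s0 s1 X.io ≤ rho v p s0 s1 X * d3 v X.io P1 P2 P3 :=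
      mul_le_mul_right a2 _
    have a4 : rho v p s0 s1 X * d3 v X.io P1 P2 P3 < d3 v X P1 P2 P3 * d3 v X.io P1 P2 P3 :=
      mul_lt_mul_of_pos_right hlt (zero_lt_iff.2 h0)
    exact absurd (hm X) (lt_of_le_of_lt a3 a4).ne

end Pool.Agent.P.MP_9344a7_nt.Tor
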