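import Pool.Agent.P.MP_9344a7_nt.Tor.Iface

/-! Step NRB. -/

set_option autoImplicit false
set_option linter.unusedSectionVars false

namespace Pool.Agent.P.MP_9344a7_nt.Tor

open Polynomial WithZero
open Pool.Agent.P.MP_6f117a_ag (Place FF)
open Pool.Agent.P.MP_ab3ecb_nt.Inv (ord Dv dv deg SA LS)
open scoped Classical IntermediateField

section aux

variable {k0 L Γ : Type} [Field k0] [Field L] [Algebra k0 L] [LinearOrderedCommGroupWithZero Γ]
  {v : Valuation L Γ}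

theorem nrb_one (hc : ∀ c, v (algebraMap k0 L c) ≤ 1) {c : k0} (h : c ≠ 0) :
    v (algebraMap k0 L c) = 1 := by
  refine le_antisymm (hc c) ?_
  have h1 : v (algebraMap k0 L c) * v (algebraMap k0 L c⁻¹) = 1 := by
    rw [← map_mul, ← map_mul, mul_inv_cancel₀ h, map_one, map_one]
  calc (1 : Γ) = _ := h1.symm
    _ ≤ v (algebraMap k0 L c) * 1 := mul_le_mul_right (hc _) _
    _ = _ := mul_one _

theorem nrb_le (hc : ∀ c, v (algebraMap k0 L c) ≤ 1) {x : L} {c : k0}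
    (h : v (x - algebraMap k0 L c) < 1) : v x ≤ 1 := by
  have := v.map_add (x - algebraMap k0 L c) (algebraMap k0 L c)
  rw [sub_add_cancel] at this
  exact this.trans (max_le h.le (hc c))

theorem nrb_eq (hc : ∀ c, v (algebraMap k0 L c) ≤ 1) {x : L} {c : k0} (h0 : c ≠ 0)
    (h : v (x - algebraMap k0 L c) < 1) : v x = 1 := by
  rw [← nrb_one hc h0] at h ⊢
  exact v.map_eq_of_sub_lt h

theorem nrb_sub {x y : L} {c d : k0} (h : v (x - algebraMap k0 L c) < 1)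
    (h' : v (y - algebraMap k0 L d) < 1) : v (x - y - algebraMap k0 L (c - d)) < 1 := by
  have : x - y - algebraMap k0 L (c - d) = (x - algebraMap k0 L c) - (y - algebraMap k0 L d) := by
    rw [map_sub]; ring
  rw [this]
  exact (v.map_sub _ _).trans_lt (max_lt h h')

theorem nrb_mul (hc : ∀ c, v (algebraMap k0 L c) ≤ 1) {x y : L} {c d : k0}
    (h : v (x - algebraMap k0 L c) < 1) (h' : v (y - algebraMap k0 L d) < 1) :
    v (x * y - algebraMap k0 L (c * d)) < 1 := by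
  have : x * y - algebraMap k0 L (c * d) =
      (x - algebraMap k0 L c) * y + algebraMap k0 L c * (y - algebraMap k0 L d) := by
    rw [map_mul]; ring
  rw [this]
  refine (v.map_add _ _).trans_lt (max_lt ?_ ?_)
  · rw [map_mul]
    exact (mul_le_of_le_one_right' (nrb_le hc h')).trans_lt h
  · rw [map_mul]
    exact (mul_le_of_le_one_left' (hc c)).trans_lt h'

theorem nrb_nb {f : k0[X]} (hv : VS v f) (D : DD v f) : NB v f := by
  have hc := hv.triv
  have hio : ∀ (P : Pt f L) Q, Nr v P Q → Nr v P.io Q.io := fun P Q h => by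
    unfold Nr at h ⊢
    rwa [Pt.up, Pt.map_io, D.io]
  have hne : ∀ (P P' : Pt f L) Q Q', Nr v P Q → Nr v P' Q' → Q ≠ Q' →
      dd v P P' = 1 ∧ P ≠ P' := fun P P' Q Q' h h' hq => by
    have h1 : dd v (Q.up L) (Q'.up L) = 1 := D.cst k0 (Algebra.ofId k0 L) hc Q Q' hq
    have h2 : dd v P P' = 1 := by
      refine le_antisymm (D.le _ _) (not_lt.1 fun h3 => ?_)
      have h4 := (D.tri (Q.up L) P (Q'.up L)).trans_lt
        (max_lt (by rw [D.symm]; exact h) ((D.tri P P' _).trans_lt (max_lt h3 h')))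
      exact h4.ne h1
    exact ⟨h2, fun e => by
      rw [(D.zero P P').2 e] at h2
      exact zero_ne_one h2⟩
  have hok : ∀ (P : Pt f L) Q, Nr v P Q → Q.Ok → P.Ok ∧ v P.a ≤ 1 ∧ v P.y = 1 ∧
      v (P.a - algebraMap k0 L Q.a) < 1 ∧ v (P.y - algebraMap k0 L Q.y) < 1 := fun P Q h hq => by
    have hb : (Q.up L).b = 1 := ((Pt.ok_map _).2 hq).1
    have ha : v (Q.up L).a ≤ 1 := hc _
    obtain ⟨h1, h2⟩ := D.near P _ hb ha h
    unfold Nr at h
    rw [D.aff P _ h1 hb h2 ha, max_lt_iff] at h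
    have h3 : v P.y = 1 := nrb_eq hc hq.2 h.2
    refine ⟨⟨h1, fun e => ?_⟩, h2, h3, h.1, h.2⟩
    rw [e, map_zero] at h3
    exact zero_ne_one h3
  refine ⟨fun Q => ?_, hio, hne, fun P P' Q h h' => ?_, hok, fun P Q h1 h2 h3 h4 => ?_,
    fun P P' Q Q' h h' hq hq' hn => ?_, fun P P' Q h h' hq => ?_⟩
  · unfold Nr
    rw [(D.zero _ _).2 rfl]
    exact zero_lt_one
  · exact (D.tri P (Q.up L) P').trans_lt (max_lt h (by rw [D.symm]; exact h'))
  · have hb : (Q.up L).b = 1 := by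
      rw [Pt.map_b, h2, map_one]
    unfold Nr
    rw [D.aff P _ h1 hb (nrb_le hc h3) (hc _)]
    exact max_lt h3 h4
  · have h1 : v (P.a - P'.a) = 1 := nrb_eq hc (sub_ne_zero.2 hn)
      (nrb_sub (hok P Q h hq).2.2.2.1 (hok P' Q' h' hq').2.2.2.1)
    refine ⟨h1, fun e => ?_⟩
    rw [e, sub_self, map_zero] at h1
    exact zero_ne_one h1
  · obtain ⟨⟨b1, -⟩, a1, -⟩ := hok P Q h hq
    obtain ⟨⟨b2, -⟩, a2, -⟩ := hok P' Q h' hq
    have h1 := D.br P P'
    rw [(hne P P'.io Q Q.io h (hio _ _ h') (hq.ne_io hv.gd.two)).1, nm, nm, b1, b2, map_one,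
      max_eq_right a1, max_eq_right a2, br, b1, b2] at h1
    simpa using h1.symm

end aux

theorem p_NRB (hDD : S_DD) :
    S_NRB := by
  intro k0 L Γ _ _ _ _ v f hv
  have N := nrb_nb hv (hDD k0 L Γ v f hv)
  have hc := hv.triv
  refine ⟨N, fun κ κ0 ⟨n1, n2, n3, n4, n5, n6⟩ ⟨o1, o2, o3, o4, o5, o6⟩ => ?_⟩
  have h1 := N.ok _ _ n1 o1
  have h2 := N.ok _ _ n2 o2
  have h3 := N.ok _ _ n3 o3
  have h4 := N.ok _ _ n4 o4
  have h5 := N.ok _ _ n5 o5
  have h6 := N.ok _ _ n6 o6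
  refine ⟨⟨h1.1, h2.1, h3.1, h4.1, h5.1, h6.1⟩, fun hJ e => ?_⟩
  have a1 := h1.2.2.2.1
  have a2 := h2.2.2.2.1
  have a3 := h3.2.2.2.1
  have a4 := h4.2.2.2.1
  have a5 := h5.2.2.2.1
  have a6 := h6.2.2.2.1
  have h7 : v κ.J = 1 := nrb_eq hc hJ (nrb_sub
    (nrb_mul hc (nrb_mul hc (nrb_sub a1 a4) (nrb_sub a2 a5)) (nrb_sub a3 a6))
    (nrb_mul hc (nrb_mul hc (nrb_sub a1 a6) (nrb_sub a2 a4)) (nrb_sub a3 a5)))
  rw [e, map_zero] at h7
  exact zero_ne_one h7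

end Pool.Agent.P.MP_9344a7_nt.Tor
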