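import Pool.Agent.P.MP_9344a7_nt.Tor.Iface

/-! Step NUB. -/

set_option autoImplicit false
set_option linter.unusedSectionVars false

namespace Pool.Agent.P.MP_9344a7_nt.Tor

open Polynomial WithZero
open Pool.Agent.P.MP_6f117a_ag (Place FF)
open Pool.Agent.P.MP_ab3ecb_nt.Inv (ord Dv dv deg SA LS)
open scoped Classical IntermediateField

theorem p_NUB (hPTS : S_PTS) :
    S_NUB := by
  obtain ⟨p0, hP⟩ := hPTS
  refine ⟨p0 + 2, fun F _ _ f hp hf hb => ?_⟩
  have hc : ringChar F ≠ 2 := by omega
  obtain ⟨ε, hε⟩ := FiniteField.exists_nonsquare hc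
  have ε0 : ε ≠ 0 := by rintro rfl; exact hε IsSquare.zero
  have d := hf.deg
  have h1 := hP F f 1 (by omega) hf.sep.squarefree (by omega) (by omega) one_ne_zero
  have h2 := hP F f ε (by omega) hf.sep.squarefree (by omega) (by omega) ε0
  rw [Nat.card_eq_fintype_card] at h1 h2
  set S1 := {a : F | ∃ b, b ≠ 0 ∧ b ^ 2 = 1 * f.eval a}
  set S2 := {a : F | ∃ b, b ≠ 0 ∧ b ^ 2 = ε * f.eval a}
  have ev : ∀ a : F, aeval a f = f.eval a := fun a => by simp
  have inj : Function.Injective fun P : Pt f F => (P.a, P.y) := fun P Q h =>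
    Pt.ext (congrArg Prod.fst h) (by rw [hb, hb]) (congrArg Prod.snd h)
  have : Finite (Pt f F) := Finite.of_injective _ inj
  constructor
  · have h3 : ∀ a : S1, ∃ P : Pt f F, P.a = a ∧ P.y ≠ 0 := fun ⟨a, b, b0, e⟩ =>
      ⟨Pt.mkA d.le a b (by rw [e, ev, one_mul]), rfl, b0⟩
    choose P h3 h4 using h3
    have h5 := Nat.card_le_card_of_injective (fun s : S1 × Bool => if s.2 then P s.1 else (P s.1).io)
      (by
        rintro ⟨a, s⟩ ⟨b, t⟩ h
        have e : a = b := Subtype.ext (by
          have := congrArg Pt.a h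
          cases s <;> cases t <;> simpa [h3] using this)
        subst e
        have := Pt.Ok.ne_io hf.two ⟨hb _, h4 a⟩
        cases s <;> cases t
        · rfl
        · exact (this (by simpa using h.symm)).elim
        · exact (this (by simpa using h)).elim
        · rfl)
    rw [Nat.card_prod, Nat.card_coe_set_eq] at h5
    simp only [Nat.card_eq_fintype_card, Fintype.card_bool] at h5 ⊢
    omega
  · have h3 : ∀ P : Pt f F, P.a ∈ S2ᶜ := fun P ⟨b, b0, e⟩ => by
      have e1 := Pt.eq_aff d.le (hb P)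
      rw [ev] at e1
      have y0 : P.y ≠ 0 := fun h => b0 (by simpa [← e1, h] using e)
      exact hε ⟨b / P.y, by field_simp; rw [e, e1]⟩
    have h4 : ∀ a : F, ∃ r : F, ∀ P : Pt f F, P.a = a → P.y = r ∨ P.y = -r := fun a => by
      by_cases h : ∃ Q : Pt f F, Q.a = a
      · obtain ⟨Q, rfl⟩ := h
        exact ⟨Q.y, fun P e => (Pt.eq_or_io e (by rw [hb, hb])).imp (congrArg Pt.y)
          (congrArg Pt.y)⟩
      · exact ⟨0, fun P e => (h ⟨P, e⟩).elim⟩
    choose r h4 using h4
    have h5 := Nat.card_le_card_of_injective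
      (fun P : Pt f F => ((⟨P.a, h3 P⟩, decide (P.y = r P.a)) : (S2ᶜ : Set F) × Bool)) (by
        intro P Q h
        have e : P.a = Q.a := congrArg (fun s => s.1.1) h
        have e' : P.y = r P.a ↔ Q.y = r Q.a := by simpa using congrArg Prod.snd h
        refine inj (Prod.ext e ?_)
        have a1 := h4 _ P rfl
        have a2 := h4 _ Q rfl
        rw [← e] at a2 e'
        by_cases h6 : P.y = r P.a
        · exact h6.trans (e'.1 h6).symm
        · exact (a1.resolve_left h6).trans (a2.resolve_left fun h7 => h6 (e'.2 h7)).symm)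
    have h6 := Set.ncard_add_ncard_compl S2
    rw [Nat.card_prod, Nat.card_coe_set_eq] at h5
    simp only [Nat.card_eq_fintype_card, Fintype.card_bool] at h5 h6 ⊢
    omega

end Pool.Agent.P.MP_9344a7_nt.Tor
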