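import Pool.Agent.P.MP_9344a7_nt.Tor.Iface2
import Pool.Agent.P.MP_9344a7_nt.Br
import Pool.Agent.P.MP_9344a7_nt.Red
import Pool.Agent.P.MP_9344a7_nt.CoreC

/-! Step PA. -/

set_option autoImplicit false
set_option linter.unusedSectionVars false

namespace Pool.Agent.P.MP_9344a7_nt.Tor

open Polynomial WithZero
open Pool.Agent.P.MP_6f117a_ag (Place FF)
open Pool.Agent.P.MP_ab3ecb_nt.Inv (ord Dv dv deg SA LS)
open scoped Classical IntermediateField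

open R in
theorem p_PA :
    S_PA := by
  intro C0
  obtain ⟨q0, H⟩ := p_RED p_CORE C0
  refine ⟨q0, fun F E E' _ _ _ _ _ _ C D hq n1 n2 n3 ⟨g1, g2, ⟨γ, hγ⟩, h6, hN, e, e', d, d', hH⟩ =>
    ?_⟩
  obtain ⟨_, σ, K, h, g, -, -, a1, a2, a3, ⟨a4⟩⟩ := pack C g1
  obtain ⟨_, σ', K', h', g', -, -, b1, b2, b3, -⟩ := pack D g2
  have e1 := (a1 _).1 e.2
  have e1' := (b1 _).1 e'.2
  rw [hasDeg] at d d'
  obtain ⟨κ, hκ⟩ := g.kap e1 d
  obtain ⟨κ', hκ'⟩ := g'.kap e1' d'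
  have := (h.card_J g).1
  have := (h'.card_J g').1
  have hN' : ∀ m, m ≠ 0 → (fx σ m).card = (fx σ' m).card := fun m hm => by
    rw [← a2, ← b2, hN m (Nat.pos_of_ne_zero hm)]
  have c1 := h.class_J g
  have c2 := h'.class_J g'
  rw [← hN' 1 one_ne_zero, ← hN' 2 two_ne_zero] at c2
  have c3 : C.h = Nat.card (J σ) := Nat.card_congr a4
  have s1 := h.card_SS g e1 d
  rw [a2] at n1 n2 n3
  have cyc : IsAddCyclic (J σ) := ⟨⟨γ.1, mem_J.2 ⟨(a1 _).1 γ.2,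
    hasDeg.1 ((hγ γ).2 (AddSubgroup.mem_zmultiples γ))⟩⟩, fun x => by
      obtain ⟨n, hn⟩ := (hγ ⟨x.1, (a1 _).2 (mem_J.1 x.2).1⟩).1 (hasDeg.2 (mem_J.1 x.2).2)
      exact ⟨n, Subtype.ext (congrArg (fun y : C.PicF => y.1) hn)⟩⟩
  obtain ⟨θ, t1, B, t2, t3⟩ := H _ (J σ) (J σ') (SS σ e) (SS σ' e') κ κ' hq cyc (c3 ▸ h6)
    (by omega) (by rw [s1]; omega) (by rw [s1, h'.card_SS g' e1' d', hN' 1 one_ne_zero]) (by omega)
    (by omega) (h.sym_SS g hκ) (h'.sym_SS g' hκ') (h.sid_SS g) (h'.sid_SS g')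
    (match_roots h g e1 d hκ h' g' e1' d' hκ' hN' fun m hm => by
      rw [← a3, ← b3, hH m (Nat.pos_of_ne_zero hm)])
  obtain ⟨ψ, hψ⟩ := exists_psi a1 e1 d b1 e1' d' θ
  refine ⟨by have := h.1; nlinarith, .of_equiv _ a4.symm, ψ,
    (fx σ 1).filter fun P => cls P - e.1 ∈ B.image Subtype.val, ?_,
    fun w w' W W' w1 w2 w3 w4 w5 w6 => Subtype.ext ?_, fun x P hP hx => ?_⟩
  · rw [mul_comm]
    refine (Nat.mul_le_mul_left _ ((Finset.card_le_card_of_injOn (fun P => cls P - e.1)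
      (fun P hP => (Finset.mem_filter.1 hP).2) fun P _ P' _ e =>
        g.cls_inj (sub_left_injective e)).trans Finset.card_image_le)).trans t2
  · have k1 : w.1 = K := by_contra fun e => by
      have := g.two (w1 ▸ w3) e
      rw [← w1, ll_mk, ← ell_eq] at this
      omega
    have k2 : w'.1 = K' := by_contra fun e => by
      have := g'.two (w2 ▸ w5) e
      rw [← w2, ll_mk, ← ell_eq] at this
      omega
    rw [hψ w κ 2 (by rw [hκ, k1, two_nsmul, two_zsmul, sub_add_cancel]), t1, hκ', k2, two_nsmul,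
      two_zsmul, sub_add_cancel]
  · have p1 : σ.pl P = P := g.fix_iff.1 (hx ▸ (a1 _).1 x.2)
    let s : J σ := ⟨cls P - e.1, mem_J.2 ⟨by rw [map_sub, e1, g.fix_iff.2 p1], by simp [d]⟩⟩
    obtain ⟨Q, -, q2⟩ := (h'.mem_SS g').1 (t3 s ((h.mem_SS g).2 ⟨P, p1, rfl⟩) fun hs => hP
      (Finset.mem_filter.2 ⟨(h.mem_fx g one_ne_zero).2 p1, Finset.mem_image_of_mem _ hs⟩))
    exact ⟨Q, by rw [hψ x s 1 (by simp [s, hx]), q2, one_zsmul, sub_add_cancel]⟩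

end Pool.Agent.P.MP_9344a7_nt.Tor
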