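import Pool.Agent.P.MP_9344a7_nt.Tor.Iface

/-! Step PD. -/

set_option autoImplicit false
set_option linter.unusedSectionVars false

namespace Pool.Agent.P.MP_9344a7_nt.Tor

open Polynomial WithZero
open Pool.Agent.P.MP_6f117a_ag (Place FF)
open Pool.Agent.P.MP_ab3ecb_nt.Inv (ord Dv dv deg SA LS)
open scoped Classical IntermediateField

lemma pd_step {O : Type} [CommRing O] {F m l g : O[X]} {a y : O} (h : F - l ^ 2 = m * g)
    (hy : y ^ 2 = F.eval a) (hu : IsUnit (m.eval a) ∨ IsUnit (y + l.eval a)) :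
    ∃ (μ : O) (g' : O[X]), F - (l + C μ * m) ^ 2 = m * (X - C a) * g' ∧
      (l + C μ * m).eval a = y := by
  have h1 : y ^ 2 - l.eval a ^ 2 = m.eval a * g.eval a := by
    rw [hy, ← eval_pow, ← eval_sub, h, eval_mul]
  obtain ⟨μ, h2, h3⟩ : ∃ μ : O, l.eval a + μ * m.eval a = y ∧
      g.eval a - 2 * μ * l.eval a - μ ^ 2 * m.eval a = 0 := by
    rcases hu with hu | hu
    · obtain ⟨n, hn⟩ := hu.exists_right_inv
      refine ⟨(y - l.eval a) * n, by linear_combination (y - l.eval a) * hn, ?_⟩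
      linear_combination (-n) * h1 - (g.eval a + (y - l.eval a) ^ 2 * n) * hn
    · obtain ⟨n, hn⟩ := hu.exists_right_inv
      have h4 : l.eval a + g.eval a * n * m.eval a = y := by
        linear_combination (-n) * h1 + (y - l.eval a) * hn
      refine ⟨g.eval a * n, h4, ?_⟩
      linear_combination (-(g.eval a * n)) * h4 - g.eval a * hn
  have h4 : IsRoot (g - C (2 * μ) * l - C (μ ^ 2) * m) a := by
    simpa only [IsRoot.def, eval_sub, eval_mul, eval_C] using h3
  obtain ⟨g', hg⟩ := dvd_iff_isRoot.2 h4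
  refine ⟨μ, g', ?_, by simpa only [eval_add, eval_mul, eval_C] using h2⟩
  rw [mul_assoc, ← hg]
  simp only [map_mul, map_pow, map_ofNat]
  linear_combination h

section

variable {L Γ : Type} [Field L] [LinearOrderedCommGroupWithZero Γ] {v : Valuation L Γ}

lemma pd_unit {z : v.integer} (h : v z = 1) : IsUnit z :=
  (Valuation.integer.integers v).isUnit_of_one' h

lemma pd_near {l : v.integer[X]} {a a' y y' : v.integer} (h : l.eval a' = y')
    (hd : max (v (a - a' : L)) (v (y + y' : L)) = 1) :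
    IsUnit (a - a') ∨ IsUnit (y + l.eval a) := by
  rcases (show v ((a - a' : v.integer) : L) ≤ 1 from (a - a').2).eq_or_lt with e | e
  · exact Or.inl (pd_unit e)
  · right
    have e' : v (a - a' : L) < 1 := e
    have h1 : v (y + y' : L) = 1 := by
      rcases max_choice (v (a - a' : L)) (v (y + y' : L)) with h2 | h2
      · rw [h2] at hd; exact absurd hd e'.ne
      · rwa [h2] at hd
    obtain ⟨c, hc⟩ := sub_dvd_eval_sub a a' l
    have h2 : y + l.eval a = (y + y') + (a - a') * c := by rw [← hc, h]; ring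
    have h3 : v ((a - a' : L) * c) < v (y + y' : L) := by
      rw [h1, map_mul]
      exact lt_of_le_of_lt (mul_le_of_le_one_right' c.2) e'
    apply pd_unit
    rw [h2]
    push_cast
    rw [Valuation.map_add_eq_of_lt_left _ h3, h1]

end

theorem p_PD (hDD : S_DD) :
    S_PD := by
  intro k0 L Γ _ _ _ _ v f hv P1 P2 P3 hP d21 d31 d32
  have D := hDD k0 L Γ v f hv
  obtain ⟨b1, a1, y1⟩ := hP P1 (by simp)
  obtain ⟨b2, a2, y2⟩ := hP P2 (by simp)
  obtain ⟨b3, a3, y3⟩ := hP P3 (by simp)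
  rw [D.aff P2 P1.io b2 b1 a2 a1, Pt.io_a, Pt.io_y, sub_neg_eq_add] at d21
  rw [D.aff P3 P1.io b3 b1 a3 a1, Pt.io_a, Pt.io_y, sub_neg_eq_add] at d31
  rw [D.aff P3 P2.io b3 b2 a3 a2, Pt.io_a, Pt.io_y, sub_neg_eq_add] at d32
  let φ : k0 →+* v.integer := (algebraMap k0 L).codRestrict v.integer hv.triv
  let ι : v.integer →+* L := v.integer.subtype
  have hι : Function.Injective ι := Subtype.val_injective
  have hF : (f.map φ).map ι = f.map (algebraMap k0 L) := by rw [Polynomial.map_map]; rfl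
  have ev : ∀ (p : v.integer[X]) (a : v.integer), (p.map ι).eval (a : L) = ι (p.eval a) :=
    fun p a => eval_map_apply (f := ι) a
  have hy : ∀ (P : Pt f L) (_ : P.b = 1) (ha : v P.a ≤ 1) (hy : v P.y = 1),
      (⟨P.y, hy.le⟩ : v.integer) ^ 2 = (f.map φ).eval ⟨P.a, ha⟩ := by
    intro P hb ha hy
    apply hι
    rw [← ev, hF, eval_map_algebraMap, ← Pt.eq_aff hv.gd.deg.le hb]
    rfl
  set A1 : v.integer := ⟨P1.a, a1⟩
  set A2 : v.integer := ⟨P2.a, a2⟩
  set A3 : v.integer := ⟨P3.a, a3⟩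
  set Y1 : v.integer := ⟨P1.y, y1.le⟩
  set Y2 : v.integer := ⟨P2.y, y2.le⟩
  set Y3 : v.integer := ⟨P3.y, y3.le⟩
  obtain ⟨μ1, g1, e1, r1⟩ := pd_step (F := f.map φ) (m := 1) (l := 0) (g := f.map φ) (by ring)
    (hy P1 b1 a1 y1) (Or.inl (by simp))
  obtain ⟨μ2, g2, e2, r2⟩ := pd_step e1 (hy P2 b2 a2 y2) (by
    simpa only [one_mul, eval_sub, eval_X, eval_C] using
      pd_near (a := A2) (a' := A1) (y := Y2) (y' := Y1) r1 d21)
  set l2 := 0 + C μ1 * 1 + C μ2 * (1 * (X - C A1)) with hl2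
  have r21 : l2.eval A1 = Y1 := by
    rw [hl2, eval_add, r1]; simp [Y1]
  obtain ⟨μ3, g3, e3, r3⟩ := pd_step e2 (hy P3 b3 a3 y3) (by
    rcases pd_near (a := A3) (a' := A1) (y := Y3) (y' := Y1) r21 d31 with h1 | h1
    · rcases pd_near (a := A3) (a' := A2) (y := Y3) (y' := Y2) r2 d32 with h2 | h2
      · left
        simpa only [one_mul, eval_mul, eval_sub, eval_X, eval_C] using h1.mul h2
      · exact Or.inr h2
    · exact Or.inr h1)
  set l3 := l2 + C μ3 * (1 * (X - C A1) * (X - C A2)) with hl3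
  have r31 : l3.eval A1 = Y1 := by
    rw [hl3, eval_add, r21]; simp
  have r32 : l3.eval A2 = Y2 := by
    rw [hl3, eval_add, r2]; simp [Y2]
  have dl : l3.natDegree ≤ 3 := by
    rw [hl3, hl2]
    compute_degree!
  set u : L[X] := (X - C P1.a) * (X - C P2.a) * (X - C P3.a) with hu
  have hum : (1 * (X - C A1) * (X - C A2) * (X - C A3)).map ι = u := by
    simp [hu, ι, A1, A2, A3]
  have mu : u.Monic := ((monic_X_sub_C _).mul (monic_X_sub_C _)).mul (monic_X_sub_C _)
  have du : u.natDegree = 3 := by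
    rw [hu, ((monic_X_sub_C _).mul (monic_X_sub_C _)).natDegree_mul (monic_X_sub_C _),
      (monic_X_sub_C _).natDegree_mul (monic_X_sub_C _)]
    simp
  have e4 : f.map (algebraMap k0 L) - (l3.map ι) ^ 2 = u * g3.map ι := by
    rw [← hF, ← hum, ← Polynomial.map_mul, ← e3, Polynomial.map_sub, Polynomial.map_pow]
  have dl' : (l3.map ι).natDegree ≤ 3 := natDegree_map_le.trans dl
  have dw : (g3.map ι).natDegree ≤ 3 := by
    by_cases h0 : g3.map ι = 0
    · simp [h0]
    · have h1 := mu.natDegree_mul' h0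
      have h2 : (f.map (algebraMap k0 L) - (l3.map ι) ^ 2).natDegree ≤ 6 :=
        (natDegree_sub_le _ _).trans (max_le (natDegree_map_le.trans hv.gd.deg.le)
          (natDegree_pow_le.trans (by omega)))
      rw [e4] at h2
      omega
  have dc : (-l3.map ι).natDegree ≤ 3 := by rwa [natDegree_neg]
  have int : ∀ (p : v.integer[X]) (i : ℕ), v ((p.map ι).coeff i) ≤ 1 := fun p i => by
    rw [coeff_map]; exact (p.coeff i).2
  have on : ∀ (P : Pt f L) (_ : P.b = 1) (A Y : v.integer), (A : L) = P.a → (Y : L) = P.y →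
      u.eval P.a = 0 → l3.eval A = Y →
      0 * (P.y - P.ev (-l3.map ι)) = 1 * P.ev u ∧
        1 * (P.y + P.ev (-l3.map ι)) = 0 * P.ev (g3.map ι) := by
    intro P hb A Y hA hY h1 h2
    rw [Pt.ev_aff hb du.le, Pt.ev_aff hb dc, h1, eval_neg, ← hA, ev, h2, ← hY]
    simp [ι]
  refine ⟨⟨u, -l3.map ι, g3.map ι, du.le, dc, dw, by linear_combination e4⟩,
    fun i => ⟨hum ▸ int _ i, ?_, int _ i⟩, ⟨-1, by simp, ?_⟩,
    on P1 b1 A1 Y1 rfl rfl (by simp [hu]) r31, on P2 b2 A2 Y2 rfl rfl (by simp [hu]) r32,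
    on P3 b3 A3 Y3 rfl rfl (by simp [hu]) r3⟩
  · change v ((-l3.map ι).coeff i) ≤ 1
    rw [coeff_neg, Valuation.map_neg]
    exact int _ i
  · rw [Pt.ell_aff b1, Pt.ell_aff b2, Pt.ell_aff b3]
    simp only [Pen.V, hu]
    simp
    ring

end Pool.Agent.P.MP_9344a7_nt.Tor
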