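import Pool.Agent.P.MP_9344a7_nt.Tor.Iface

/-! Step PD0. -/

set_option autoImplicit false
set_option linter.unusedSectionVars false

namespace Pool.Agent.P.MP_9344a7_nt.Tor

open Polynomial WithZero
open Pool.Agent.P.MP_6f117a_ag (Place FF)
open Pool.Agent.P.MP_ab3ecb_nt.Inv (ord Dv dv deg SA LS)
open scoped Classical IntermediateField

theorem p_PD0 (hDD : S_DD) (hPD : S_PD) :
    S_PD0 := by
  intro k0 L _ _ _ f hf P1 P2 P3 h1 h2 h3 hn
  let v : Valuation L ℤᵐ⁰ := 1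
  have hv1 : ∀ z : L, z ≠ 0 → v z = 1 := fun z hz => Valuation.one_apply_of_ne_zero hz
  have hv : ∀ z : L, v z ≤ 1 := fun z => by
    by_cases hz : z = 0
    · simp [hz]
    · exact (hv1 z hz).le
  have hs : VS v f := ⟨hf, fun c => hv _⟩
  have hd : ∀ P Q : Pt f L, P ≠ Q → dd v P Q = 1 := fun P Q h =>
    (hDD k0 L _ v f hs).cst L (AlgHom.id k0 L) (fun c => hv _) P Q h
  obtain ⟨p, -, hp⟩ := hPD k0 L _ v f hs P1 P2 P3 (by
    intro P hP
    have : P.Ok := by
      simp only [List.mem_cons, List.not_mem_nil, or_false] at hP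
      rcases hP with rfl | rfl | rfl <;> assumption
    exact ⟨this.1, hv _, hv1 _ this.2⟩) (hd _ _ hn.1) (hd _ _ hn.2.1) (hd _ _ hn.2.2)
  exact ⟨p, hp⟩

end Pool.Agent.P.MP_9344a7_nt.Tor
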