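import Pool.Agent.P.MP_9344a7_nt.Tor.Iface

/-! Step PIC. -/

set_option autoImplicit false
set_option linter.unusedSectionVars false

namespace Pool.Agent.P.MP_9344a7_nt.Tor

open Polynomial WithZero
open Pool.Agent.P.MP_6f117a_ag (Place FF)
open Pool.Agent.P.MP_ab3ecb_nt.Inv (ord Dv dv deg SA LS)
open scoped Classical IntermediateField

theorem p_PIC (hFFX : S_FFX) (hHF : S_HF) (hPL : S_PL) (hPICK : S_PICK) (hCOM : S_COM) :
    S_PIC := by
  intro k0 L _ _ _ f hf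
  obtain ⟨E, _, _, _, _, x, y, h⟩ := hFFX k0 (AlgebraicClosure L) f hf
  have : FF (AlgebraicClosure L) E := (hHF k0 (AlgebraicClosure L) E f x y h).1
  obtain ⟨pl, hpl⟩ := hPL k0 (AlgebraicClosure L) E f x y h
  obtain ⟨I, -⟩ := hPICK k0 (AlgebraicClosure L) E f x y h pl hpl
  obtain ⟨I', -⟩ := hCOM k0 L (AlgebraicClosure L) _ f hf
    (IsScalarTower.toAlgHom k0 L (AlgebraicClosure L)) I ⊤ trivial fun _ => trivial
  exact ⟨_, inferInstance, ⟨I'⟩⟩

end Pool.Agent.P.MP_9344a7_nt.Tor
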