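import Pool.Agent.P.MP_9344a7_nt.Tor.Iface

/-! Step PICK. -/

set_option autoImplicit false
set_option linter.unusedSectionVars false

namespace Pool.Agent.P.MP_9344a7_nt.Tor

open Polynomial WithZero
open Pool.Agent.P.MP_6f117a_ag (Place FF)
open Pool.Agent.P.MP_ab3ecb_nt.Inv (ord Dv dv deg SA LS)
open scoped Classical IntermediateField

section comb

variable {α β : Type} (pl : α ≃ β)

/-- The indicator of a point. -/
noncomputable abbrev pick_e (a : α) : β →₀ ℤ := Finsupp.single (pl a) 1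

lemma pick_inj {a b : α} (h : pick_e pl a = pick_e pl b) : a = b :=
  pl.injective (Finsupp.single_left_injective one_ne_zero h)

lemma pick_mem {a b c d x : α} {D : β →₀ ℤ} (hD : 0 ≤ D)
    (h : pick_e pl x + D = pick_e pl a + pick_e pl b + pick_e pl c + pick_e pl d) :
    x = a ∨ x = b ∨ x = c ∨ x = d := by
  by_contra hc
  simp only [not_or] at hc
  obtain ⟨h1, h2, h3, h4⟩ := hc
  have e := DFunLike.congr_fun h (pl x)
  have e2 : (0 : ℤ) ≤ D (pl x) := hD (pl x)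
  simp only [Finsupp.add_apply, Finsupp.single_apply, pl.injective.eq_iff, if_neg (Ne.symm h1),
    if_neg (Ne.symm h2), if_neg (Ne.symm h3), if_neg (Ne.symm h4), if_true] at e
  omega

lemma pick_nonneg (a : α) : 0 ≤ pick_e pl a := Finsupp.single_nonneg.2 zero_le_one

variable {σ : α → α}

lemma pick_pair (hσ : ∀ a, σ (σ a) = a) {a b s : α}
    (h : pick_e pl a + pick_e pl b = pick_e pl s + pick_e pl (σ s)) : b = σ a := by
  have h1 : pick_e pl a + (pick_e pl b + pick_e pl s + pick_e pl s) =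
      pick_e pl s + pick_e pl s + pick_e pl s + pick_e pl (σ s) := by
    rw [← add_assoc, ← add_assoc, h]; abel
  rcases pick_mem pl (add_nonneg (add_nonneg (pick_nonneg pl _) (pick_nonneg pl _))
    (pick_nonneg pl _)) h1 with rfl | rfl | rfl | rfl
  · exact pick_inj pl (add_left_cancel h)
  · exact pick_inj pl (add_left_cancel h)
  · exact pick_inj pl (add_left_cancel h)
  · rw [hσ]
    rw [add_comm (pick_e pl s)] at h
    exact pick_inj pl (add_left_cancel h)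

lemma pick_three (hσ : ∀ a, σ (σ a) = a) {a b c x s : α}
    (h : pick_e pl a + pick_e pl b + pick_e pl c = pick_e pl x + (pick_e pl s + pick_e pl (σ s))) :
    (x = a ∧ c = σ b) ∨ (x = b ∧ c = σ a) ∨ (x = c ∧ b = σ a) := by
  have h1 : pick_e pl x + (pick_e pl s + pick_e pl (σ s) + pick_e pl c) =
      pick_e pl a + pick_e pl b + pick_e pl c + pick_e pl c := by
    rw [h]; abel
  have h2 : x = a ∨ x = b ∨ x = c := by
    have := pick_mem pl (add_nonneg (add_nonneg (pick_nonneg pl _) (pick_nonneg pl _))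
      (pick_nonneg pl _)) h1
    tauto
  rcases h2 with rfl | rfl | rfl
  · exact .inl ⟨rfl, pick_pair pl hσ (s := s) (add_left_cancel ((add_assoc _ _ _).symm.trans h))⟩
  · refine .inr (.inl ⟨rfl, pick_pair pl hσ (s := s) (add_left_cancel (a := pick_e pl x) ?_)⟩)
    rw [← h]; abel
  · refine .inr (.inr ⟨rfl, pick_pair pl hσ (s := s) (add_left_cancel (a := pick_e pl x) ?_)⟩)
    rw [← h]; abel

lemma pick_four (hσ : ∀ a, σ (σ a) = a) {q a b c s t : α}
    (h : pick_e pl q + (pick_e pl a + pick_e pl b + pick_e pl c) =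
      pick_e pl s + pick_e pl (σ s) + pick_e pl t + pick_e pl (σ t)) :
    (σ q = a ∧ c = σ b) ∨ (σ q = b ∧ c = σ a) ∨ (σ q = c ∧ b = σ a) := by
  rcases pick_mem pl (add_nonneg (add_nonneg (pick_nonneg pl _) (pick_nonneg pl _))
    (pick_nonneg pl _)) h with rfl | rfl | rfl | rfl
  · refine pick_three pl hσ (s := t) (add_left_cancel (a := pick_e pl q) ?_)
    rw [h]; abel
  · refine pick_three pl hσ (s := t) (add_left_cancel (a := pick_e pl (σ s)) ?_)
    rw [h, hσ]; abel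
  · refine pick_three pl hσ (s := s) (add_left_cancel (a := pick_e pl q) ?_)
    rw [h]; abel
  · refine pick_three pl hσ (s := s) (add_left_cancel (a := pick_e pl (σ t)) ?_)
    rw [h, hσ]; abel

end comb

section fac

variable {k0 k : Type} [Field k0] [Field k] [Algebra k0 k] [IsAlgClosed k] {f : k0[X]}

lemma pick_pt (hf : f.natDegree ≤ 6) (a : k) : ∃ S : Pt f k, S.b = 1 ∧ S.a = a := by
  obtain ⟨y, hy⟩ := IsAlgClosed.exists_pow_nat_eq (aeval a f) (n := 2) two_pos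
  exact ⟨Pt.mkA hf a y hy, rfl, rfl⟩

lemma pick_fac (hf : f.natDegree ≤ 6) {I : Pt f k} (hI : I.b = 0) {n : ℕ} {A : k[X]} (h0 : A ≠ 0)
    (hA : A.natDegree ≤ n + 1) : ∃ (S : Pt f k) (B : k[X]), B ≠ 0 ∧ B.natDegree ≤ n ∧
      A = S.ell * B := by
  by_cases hn : A.natDegree ≤ n
  · have ha : I.a = 1 := (I.nf.resolve_left (by rw [hI]; exact zero_ne_one)).2
    exact ⟨I, -A, neg_ne_zero.2 h0, by rwa [natDegree_neg], by simp [Pt.ell, hI, ha]⟩
  · obtain ⟨a, ha⟩ := IsAlgClosed.exists_root A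
      (natDegree_pos_iff_degree_pos.1 (by omega)).ne'
    obtain ⟨S, hb, rfl⟩ := pick_pt hf a
    obtain ⟨B, rfl⟩ := dvd_iff_isRoot.2 ha
    have hB : B ≠ 0 := right_ne_zero_of_mul h0
    rw [natDegree_mul (X_sub_C_ne_zero _) hB, natDegree_X_sub_C] at hA
    exact ⟨S, B, hB, by omega, by rw [Pt.ell_aff hb]⟩

end fac

open Pool.Agent.P.MP_ab3ecb_nt.Inv (dv_mul dv_const mem_LS') in
theorem p_PICK (hFB : S_FB) (hFC : S_FC) (hDIV : S_DIV) (hLK : S_LK) :
    S_PICK := by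
  intro k0 k E _ _ _ _ _ _ _ _ _ f x y h pl hpl
  obtain ⟨⟨I, hI⟩, hd, hf⟩ := hDIV k0 k E f x y h pl hpl
  have hL := (hLK k0 k E f x y h pl hpl I hI).1
  have h6 : f.natDegree ≤ 6 := h.gd.deg.le
  have hne : ∀ {A : k[X]}, A ≠ 0 → aeval x A ≠ 0 := fun hA e => h.tr ⟨_, hA, e⟩
  have two : ∀ P1 P2 Q1 Q2 : Pt f k, cls (pl P1) + cls (pl P2) = cls (pl Q1) + cls (pl Q2) →
      (P1 = Q1 ∧ P2 = Q2) ∨ (P1 = Q2 ∧ P2 = Q1) ∨ (P2 = P1.io ∧ Q2 = Q1.io) := by
    intro P1 P2 Q1 Q2 e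
    have e1 : cD (pd pl Q1 + pd pl Q2) = cD (pd pl P1 + pd pl P2) := by
      rw [map_add, map_add]; exact e.symm
    obtain ⟨z, hz, e2⟩ := cD_eq_iff.1 e1
    have n1 := hne P1.ell_ne
    have n2 := hne P2.ell_ne
    have e3 : dv k (z * aeval x P1.ell * aeval x P2.ell) + 2 • (pd pl I + pd pl I.io) =
        pd pl Q1 + (pd pl Q2 + pd pl P1.io + pd pl P2.io) := by
      rw [dv_mul (mul_ne_zero hz n1) n2, dv_mul hz n1, e2, hd I P1 hI, hd I P2 hI]
      abel
    have n3 := mul_ne_zero (mul_ne_zero hz n1) n2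
    obtain ⟨A, hA, e4⟩ := (hL _).1 ((mem_LS' n3).2 (by
      rw [e3]
      exact add_nonneg (pick_nonneg pl _) (add_nonneg (add_nonneg (pick_nonneg pl _)
        (pick_nonneg pl _)) (pick_nonneg pl _))))
    have hA0 : A ≠ 0 := by
      rintro rfl
      exact n3 (e4.trans (map_zero _))
    obtain ⟨S, B, hB0, hB, rfl⟩ := pick_fac h6 hI (n := 1) hA0 hA
    obtain ⟨T, B, hC0, hC, rfl⟩ := pick_fac h6 hI (n := 0) hB0 hB
    have e5 : dv k (aeval x B) = 0 := by
      rw [eq_C_of_natDegree_le_zero hC, aeval_C, dv_const]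
    rw [e4, map_mul, map_mul, dv_mul (hne S.ell_ne) (mul_ne_zero (hne T.ell_ne) (hne hC0)),
      dv_mul (hne T.ell_ne) (hne hC0), e5, hd I S hI, hd I T hI] at e3
    have e6 : pick_e pl Q1 + (pick_e pl Q2 + pick_e pl P1.io + pick_e pl P2.io) =
        pick_e pl S + pick_e pl S.io + pick_e pl T + pick_e pl T.io := by
      refine e3.symm.trans ?_
      abel
    rcases pick_four pl (σ := Pt.io) Pt.io_io e6 with ⟨a, b⟩ | ⟨a, b⟩ | ⟨a, b⟩
    · exact .inr (.inr ⟨Pt.io_inj.1 b, a.symm⟩)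
    · exact .inl ⟨(Pt.io_inj.1 a).symm, Pt.io_inj.1 b⟩
    · exact .inr (.inl ⟨Pt.io_inj.1 b, (Pt.io_inj.1 a).symm⟩)
  refine ⟨⟨fun P => cls (pl P), cls (pl I) + cls (pl I.io), fun P => ?_, fun P Q e => ?_, two,
    fun p P1 P2 P3 Q1 Q2 Q3 hp => ⟨fun hq => hf p _ _ _ _ _ _ hq hp, fun e => ?_⟩⟩, fun _ => rfl⟩
  · have := cD_dv (k := k) (hne P.ell_ne)
    rw [hd I P hI, map_sub, map_add, map_add, sub_eq_zero] at this
    exact this
  · obtain ⟨R, hR⟩ : ∃ R : Pt f k, R ≠ P.io := by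
      obtain ⟨S, hS, -⟩ := pick_pt h6 (0 : k)
      by_cases e1 : S = P.io
      · refine ⟨I, fun e2 => ?_⟩
        rw [e1, ← e2, hI] at hS
        exact zero_ne_one hS
      · exact ⟨S, e1⟩
    rcases two P R Q R (congrArg (· + cls (pl R)) e) with ⟨a, -⟩ | ⟨a, b⟩ | ⟨a, -⟩
    · exact a
    · exact a.trans b
    · exact absurd a hR
  · obtain ⟨R1, R2, hR⟩ := (hFC k0 k f h.gd).thru
      (fun z => IsAlgClosed.exists_eq_mul_self z) p Q1
    have e1 := (hf p _ _ _ _ _ _ hR hp).trans e.symm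
    rw [add_assoc, add_assoc] at e1
    rcases two _ _ _ _ (add_left_cancel e1) with ⟨rfl, rfl⟩ | ⟨rfl, rfl⟩ | ⟨a, -⟩
    · exact hR
    · exact hR.s23
    · exact absurd a ((hFB k0 k f h.gd).nc p _ _ _ hR).2.2

end Pool.Agent.P.MP_9344a7_nt.Tor
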