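import Pool.Agent.P.MP_9344a7_nt.Tor.Iface

/-! Step REB. -/

set_option autoImplicit false
set_option linter.unusedSectionVars false

namespace Pool.Agent.P.MP_9344a7_nt.Tor

open Polynomial WithZero
open Pool.Agent.P.MP_6f117a_ag (Place FF)
open Pool.Agent.P.MP_ab3ecb_nt.Inv (ord Dv dv deg SA LS)
open scoped Classical IntermediateField

section reb

variable {k0 L : Type} [Field k0] [Field L] [Algebra k0 L] {f : k0[X]} {g : L[X]}
  (h : g = f.map (algebraMap k0 L))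

/-- Change of the base field for pencils. -/
def rebPen (p : Pen f L) : Pen g L :=
  ⟨p.u, p.c, p.w, p.du, p.dc, p.dw, by
    rw [← p.eq, h, Algebra.algebraMap_self, Polynomial.map_id]⟩

lemma reb_fib {p : Pen f L} {P1 P2 P3 : Pt f L} (hp : p.Fib P1 P2 P3) :
    (rebPen h p).Fib (P1.reb h) (P2.reb h) (P3.reb h) := hp

lemma reb_io (P : Pt f L) : P.io.reb h = (P.reb h).io := rfl

lemma reb_inj {P Q : Pt f L} (e : P.reb h = Q.reb h) : P = Q :=
  Pt.ext (congrArg Pt.a e :) (congrArg Pt.b e :) (congrArg Pt.y e :)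

lemma reb_ne {P Q : Pt f L} (e : P ≠ Q) : P.reb h ≠ Q.reb h := fun e' => e (reb_inj h e')

lemma reb_in {κ : Cfg f L} {p1 p2 p3 : Pen f L} (e : κ.In p1 p2 p3) :
    (κ.ap (Pt.reb h)).In (rebPen h p1) (rebPen h p2) (rebPen h p3) := e

lemma reb_cl {κ : Cfg f L} {p1 : Pen f L} {U1 U2 : Pt f L} (e : κ.Cl p1 U1 U2) :
    (κ.ap (Pt.reb h)).Cl (rebPen h p1) (U1.reb h) (U2.reb h) := by
  obtain ⟨e1, e2, e3, e4, e5, e6, e7, e8⟩ := e
  exact ⟨e1, reb_ne h e2, reb_ne h e3, reb_ne h e4, reb_ne h e5, reb_ne h e6, reb_ne h e7,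
    reb_ne h e8⟩

lemma reb_pt (κ : Cfg f L) (i : Fin 6) : (κ.ap (Pt.reb h)).pt i = (κ.pt i).reb h := by
  fin_cases i <;> rfl

lemma reb_nd {κ : Cfg f L} (e : κ.Nd) : (κ.ap (Pt.reb h)).Nd := e

lemma reb_J (κ : Cfg f L) : (κ.ap (Pt.reb h)).J = κ.J := rfl

lemma reb_fam {κ0 : Cfg f L} {κs : Fin 10 → Cfg f L} {p1 p2 p3 : Pen f L}
    (hF : Fam κ0 κs p1 p2 p3) : Fam (κ0.ap (Pt.reb h)) (fun j => (κs j).ap (Pt.reb h))
      (rebPen h p1) (rebPen h p2) (rebPen h p3) where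
  in0 := reb_in h hF.in0
  nd := reb_nd h hF.nd
  ins j := reb_in h (hF.ins j)
  ur j := ⟨reb_ne h (hF.ur j).1, reb_ne h (hF.ur j).2⟩
  ne j := reb_ne h (hF.ne j)
  inj i j e1 e2 e3 := hF.inj i j (reb_inj h e1) (reb_inj h e2) (reb_inj h e3)

end reb

theorem p_REB :
    S_REB := by
  intro k0 L _ _ _ f g h Q X C
  refine ⟨fun R1 R2 hA => ⟨hA.ok, hA.ne, ?_⟩, ?_⟩
  · obtain ⟨p, h1, h2⟩ := hA.fib
    exact ⟨rebPen h p, reb_fib h h1, reb_fib h h2⟩
  · rintro γ τ z ⟨Y, B, U1, U2, W1, W2, p1, p2, p3, κs, hF, hJ, hC, hN, hJ8, hC8, hB, hb, hb', hz⟩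
    have a1 := reb_fam h hF
    have a2 := (reb_J h _).trans hJ
    have a3 := reb_cl h hC
    have a4 := reb_nd h hN
    have a5 : ((κs 8).ap (Pt.reb h)).J ≠ 0 := by rw [reb_J]; exact hJ8
    have a6 := reb_cl h hC8
    have a7 : ∀ j i, (((κs j).ap (Pt.reb h)).pt i).b = 1 := fun j i => by
      rw [reb_pt]
      exact hb' j i
    have a8 : z = Sum.elim ![(Y.reb h).a, (B.reb h).a, (U1.reb h).a, (U2.reb h).a]
        fun i : Fin 10 × Fin 6 => (((κs i.1).ap (Pt.reb h)).pt i.2).a := by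
      rw [hz]
      funext i
      rcases i with i | i
      · rfl
      · simp only [Sum.elim_inr, reb_pt]
        rfl
    exact ⟨Y.reb h, B.reb h, U1.reb h, U2.reb h, W1.reb h, W2.reb h, rebPen h p1, rebPen h p2,
      rebPen h p3, fun j => (κs j).ap (Pt.reb h), a1, a2, a3, a4, a5, a6, hB, hb, a7, a8⟩

end Pool.Agent.P.MP_9344a7_nt.Tor
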