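import Pool.Agent.P.MP_9344a7_nt.Tor.Iface

/-! Step RHO. -/

set_option autoImplicit false
set_option linter.unusedSectionVars false

namespace Pool.Agent.P.MP_9344a7_nt.Tor

open Polynomial WithZero
open Pool.Agent.P.MP_6f117a_ag (Place FF)
open Pool.Agent.P.MP_ab3ecb_nt.Inv (ord Dv dv deg SA LS)
open scoped Classical IntermediateField

section aux

variable {k0 L Γ : Type} [Field k0] [Field L] [Algebra k0 L] [LinearOrderedCommGroupWithZero Γ]
  {v : Valuation L Γ} {f : k0[X]}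

lemma rho_mul_le {x y : L} {m n : Γ} (hx : v x ≤ m) (hy : v y ≤ n) : v (x * y) ≤ m * n := by
  rw [map_mul]; exact mul_le_mul' hx hy

lemma rho_one_mul_le {x y : L} {n : Γ} (hx : v x ≤ 1) (hy : v y ≤ n) : v (x * y) ≤ n := by
  simpa using rho_mul_le hx hy

lemma rho_maxmul (a b c d : Γ) :
    max a b * max c d = max (max (a * c) (a * d)) (max (b * c) (b * d)) := by
  rw [max_mul, mul_max, mul_max]

lemma rho_two (h : VS v f) : v (2 : L) = 1 := by
  have h1 : v (2 : L) ≤ 1 := by simpa [map_ofNat] using h.triv 2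
  have h2 : v (2 : L)⁻¹ ≤ 1 := by simpa [map_ofNat] using h.triv 2⁻¹
  have h3 : (2 : L) ≠ 0 := by
    rw [← map_ofNat (algebraMap k0 L) 2]
    exact (_root_.map_ne_zero _).2 h.gd.two
  have h4 : v (2 : L) ≠ 0 := (_root_.map_ne_zero v).2 h3
  rw [map_inv₀, inv_le_one₀ (zero_lt_iff.2 h4)] at h2
  exact le_antisymm h1 h2

lemma rho_ev3 (X : Pt f L) (g : L[X]) : X.ev g = g.coeff 0 * X.b ^ 3 + g.coeff 1 * (X.a * X.b ^ 2) +
    g.coeff 2 * (X.a ^ 2 * X.b) + g.coeff 3 * X.a ^ 3 := by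
  simp [Pt.ev, hev, Finset.sum_range_succ, mul_assoc]

lemma rho_a_le (X : Pt f L) : v X.a ≤ nm v X := le_max_left _ _
lemma rho_b_le (X : Pt f L) : v X.b ≤ nm v X := le_max_right _ _

lemma rho_ev_le (X : Pt f L) {g : L[X]} (hg : ∀ i, v (g.coeff i) ≤ 1) :
    v (X.ev g) ≤ nm v X ^ 3 := by
  have ha := rho_a_le (v := v) X
  have hb := rho_b_le (v := v) X
  have e : nm v X ^ 3 = nm v X * nm v X * nm v X := pow_three' _
  rw [rho_ev3, e]
  refine v.map_add_le (v.map_add_le (v.map_add_le (rho_one_mul_le (hg _) ?_)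
    (rho_one_mul_le (hg _) ?_)) (rho_one_mul_le (hg _) ?_)) (rho_one_mul_le (hg _) ?_)
  · rw [pow_three']; exact rho_mul_le (rho_mul_le hb hb) hb
  · rw [sq, ← mul_assoc]; exact rho_mul_le (rho_mul_le ha hb) hb
  · rw [sq]; exact rho_mul_le (rho_mul_le ha ha) hb
  · rw [pow_three']; exact rho_mul_le (rho_mul_le ha ha) ha

lemma rho_nat (n : ℕ) : v (n : L) ≤ 1 := by
  induction n with
  | zero => simp
  | succ n ih => rw [Nat.cast_succ]; exact v.map_add_le ih (by simp)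

lemma rho_der_le {g : L[X]} (hg : ∀ i, v (g.coeff i) ≤ 1) {a : L} (ha : v a ≤ 1) :
    v ((derivative g).eval a) ≤ 1 := by
  rw [eval_eq_sum_range]
  refine v.map_sum_le fun i _ => rho_one_mul_le ?_ ?_
  · rw [coeff_derivative]
    exact rho_one_mul_le (hg _) (by simpa using rho_nat (v := v) (i + 1))
  · rw [map_pow]; exact pow_le_one' ha _

lemma rho_prim (h : VS v f) (hd : DD v f) {p : Pen f L} (hp : p.Int v) (X : Pt f L) :
    max (max (v (X.ev p.u)) (v (X.y - X.ev p.c))) (max (v (X.y + X.ev p.c)) (v (X.ev p.w))) =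
      nm v X ^ 3 := by
  have hu := rho_ev_le X fun i => (hp i).1
  have hc := rho_ev_le X fun i => (hp i).2.1
  have hw := rho_ev_le X fun i => (hp i).2.2
  have hy := hd.y_le X
  refine le_antisymm (max_le (max_le hu (v.map_sub_le hy hc)) (max_le (v.map_add_le hy hc) hw)) ?_
  by_contra hlt
  simp only [not_le, max_lt_iff] at hlt
  obtain ⟨⟨h1, h2⟩, h3, h4⟩ := hlt
  have h5 : v X.y < nm v X ^ 3 := by
    have := v.map_add_lt h2 h3
    rwa [show X.y - X.ev p.c + (X.y + X.ev p.c) = 2 * X.y by ring, map_mul, rho_two h,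
      one_mul] at this
  have h6 : v (X.ev p.c) < nm v X ^ 3 := by
    have := v.map_sub_lt h3 h2
    rwa [show X.y + X.ev p.c - (X.y - X.ev p.c) = 2 * X.ev p.c by ring, map_mul, rho_two h,
      one_mul] at this
  obtain ⟨hb, ha, hf⟩ := hd.small X h5
  have hn : nm v X = 1 := by rw [nm, hb, map_one, max_eq_right ha]
  rw [hn, one_pow] at h1 h4 h6
  rw [Pt.ev_aff hb p.du] at h1
  rw [Pt.ev_aff hb p.dw] at h4
  rw [Pt.ev_aff hb p.dc] at h6
  have e : aeval X.a (derivative f) = 2 * (derivative p.c).eval X.a * p.c.eval X.a +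
      (derivative p.u).eval X.a * p.w.eval X.a + (derivative p.w).eval X.a * p.u.eval X.a := by
    rw [← eval_map_algebraMap, ← derivative_map, p.eq]
    simp [derivative_pow]
    ring
  have lt : ∀ x y : L, v x ≤ 1 → v y < 1 → v (x * y) < 1 := fun x y hx hy =>
    (rho_one_mul_le hx le_rfl).trans_lt hy
  refine absurd hf (ne_of_lt ?_)
  rw [e]
  exact v.map_add_lt (v.map_add_lt
    (lt _ _ (rho_one_mul_le (rho_two h).le (rho_der_le (fun i => (hp i).2.1) ha)) h6)
    (lt _ _ (rho_der_le (fun i => (hp i).1) ha) h4)) (lt _ _ (rho_der_le (fun i => (hp i).2.2) ha) h1)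

lemma rho_q3 {g1 g2 g3 x x' z : L} {m : Γ} (h1 : v g1 ≤ 1) (h2 : v g2 ≤ 1) (h3 : v g3 ≤ 1)
    (hx : v x ≤ m) (hx' : v x' ≤ m) (hz : v z ≤ m) :
    v (g1 * (z * z) + g2 * (z * (x + x')) + g3 * (x * x + x * x' + x' * x')) ≤ m * m :=
  v.map_add_le (v.map_add_le (rho_one_mul_le h1 (rho_mul_le hz hz))
    (rho_one_mul_le h2 (rho_mul_le hz (v.map_add_le hx hx'))))
    (rho_one_mul_le h3 (v.map_add_le (v.map_add_le (rho_mul_le hx hx) (rho_mul_le hx hx'))
      (rho_mul_le hx' hx')))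

lemma rho_dd (hd : DD v f) (X X' : Pt f L) :
    v (br X X') ≤ dd v X X' * (nm v X * nm v X') ∧
    v (X.y * X'.b ^ 3 - X'.y * X.b ^ 3) ≤ dd v X X' * (nm v X * nm v X') ^ 3 ∧
    v (X.y * X'.a ^ 3 - X'.y * X.a ^ 3) ≤ dd v X X' * (nm v X * nm v X') ^ 3 := by
  have h0 : 0 < nm v X * nm v X' := zero_lt_iff.2 (mul_ne_zero (hd.nm_ne X) (hd.nm_ne X'))
  have h3 : 0 < (nm v X * nm v X') ^ 3 := pow_pos h0 3
  have e1 : v (br X X') / (nm v X * nm v X') ≤ dd v X X' := le_max_left _ _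
  have e2 : max (v (X.y * X'.b ^ 3 - X'.y * X.b ^ 3)) (v (X.y * X'.a ^ 3 - X'.y * X.a ^ 3)) /
      (nm v X * nm v X') ^ 3 ≤ dd v X X' := le_max_right _ _
  rw [div_le_iff₀ h0] at e1
  rw [div_le_iff₀ h3, max_le_iff] at e2
  exact ⟨e1, e2⟩

lemma rho_diff (hd : DD v f) (X X' : Pt f L) {g : L[X]} (hg : ∀ i, v (g.coeff i) ≤ 1) :
    v (X.ev g * X'.b ^ 3 - X'.ev g * X.b ^ 3) ≤ dd v X X' * (nm v X * nm v X') ^ 3 ∧
    v (X.ev g * X'.a ^ 3 - X'.ev g * X.a ^ 3) ≤ dd v X X' * (nm v X * nm v X') ^ 3 := by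
  have ha := rho_a_le (v := v) X
  have hb := rho_b_le (v := v) X
  have ha' := rho_a_le (v := v) X'
  have hb' := rho_b_le (v := v) X'
  have e : dd v X X' * (nm v X * nm v X') ^ 3 =
      dd v X X' * (nm v X * nm v X') * (nm v X * nm v X' * (nm v X * nm v X')) := by
    rw [pow_three, ← mul_assoc]
  rw [e]
  constructor
  · have := rho_mul_le (rho_dd hd X X').1 (rho_q3 (hg 1) (hg 2) (hg 3) (rho_mul_le ha hb')
      (rho_mul_le hb ha') (rho_mul_le hb hb'))
    refine le_of_eq_of_le (congrArg v ?_) this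
    rw [rho_ev3, rho_ev3, br]
    ring
  · have := rho_mul_le (rho_dd hd X X').1 (rho_q3 (hg 2) (hg 1) (hg 0) (rho_mul_le ha hb')
      (rho_mul_le hb ha') (rho_mul_le ha ha'))
    rw [← v.map_neg]
    refine le_of_eq_of_le (congrArg v ?_) this
    rw [rho_ev3, rho_ev3, br]
    ring

lemma rho_nm3 (X : Pt f L) : nm v X ^ 3 = max (v X.a ^ 3) (v X.b ^ 3) := by
  rcases le_total (v X.a) (v X.b) with h | h
  · rw [nm, max_eq_right h, max_eq_right (pow_le_pow_left' h 3)]
  · rw [nm, max_eq_left h, max_eq_left (pow_le_pow_left' h 3)]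

/-- One step of the Lipschitz bound. -/
lemma rho_step {A A' e e' s0 s1 d0 d1 : L} {S D N R : Γ} (h0 : v s0 ≤ S) (h1 : v s1 ≤ S)
    (hd0 : v d0 ≤ D) (hd1 : v d1 ≤ D) (he : v e ≤ N) (hA : v A' ≤ R)
    (h : A * e' ^ 3 = A' * e ^ 3 + (s0 * d0 - s1 * d1)) :
    v A * v e' ^ 3 ≤ max (R * N ^ 3) (S * D) := by
  rw [← map_pow, ← map_mul, h]
  refine v.map_add_le (le_max_of_le_left (rho_mul_le hA ?_))
    (le_max_of_le_right (v.map_sub_le (rho_mul_le h0 hd0) (rho_mul_le h1 hd1)))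
  rw [map_pow]
  exact pow_le_pow_left' he 3

end aux

theorem p_RHO (hDD : S_DD) (hFB : S_FB) :
    S_RHO := by
  intro k0 L Γ _ _ _ _ v f h p hp
  have hd := hDD k0 L Γ v f h
  have hu : ∀ i, v (p.u.coeff i) ≤ 1 := fun i => (hp i).1
  have hc : ∀ i, v (p.c.coeff i) ≤ 1 := fun i => (hp i).2.1
  have hw : ∀ i, v (p.w.coeff i) ≤ 1 := fun i => (hp i).2.2
  have hS : ∀ s0 s1 : L, s0 ≠ 0 ∨ s1 ≠ 0 → max (v s0) (v s1) ≠ 0 := fun s0 s1 hs e => by
    have h0 : v s0 = 0 := le_zero_iff.1 ((le_max_left _ _).trans e.le)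
    have h1 : v s1 = 0 := le_zero_iff.1 ((le_max_right _ _).trans e.le)
    exact hs.elim (fun a => a ((map_eq_zero v).1 h0)) fun a => a ((map_eq_zero v).1 h1)
  refine ⟨fun s0 s1 X X' => ?_, fun s0 s1 X hX => ?_, fun s0 s1 t0 t1 X ht hX => ?_,
    fun s0 s1 X => ?_, fun s0 s1 X hs hX => ?_, fun s0 s1 X => ?_⟩
  · by_cases hs : max (v s0) (v s1) = 0
    · simp [rho, hs]
    have hN := hd.nm_ne X
    have hN' := hd.nm_ne X'
    obtain ⟨-, y1, y2⟩ := rho_dd hd X X'
    obtain ⟨u1, u2⟩ := rho_diff hd X X' hu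
    obtain ⟨c1, c2⟩ := rho_diff hd X X' hc
    obtain ⟨w1, w2⟩ := rho_diff hd X X' hw
    have l0 : v s0 ≤ max (v s0) (v s1) := le_max_left _ _
    have l1 : v s1 ≤ max (v s0) (v s1) := le_max_right _ _
    have key : max (v (s0 * (X.y - X.ev p.c) - s1 * X.ev p.u))
        (v (s0 * X.ev p.w - s1 * (X.y + X.ev p.c))) * nm v X' ^ 3 ≤
        max (max (v (s0 * (X'.y - X'.ev p.c) - s1 * X'.ev p.u))
          (v (s0 * X'.ev p.w - s1 * (X'.y + X'.ev p.c))) * nm v X ^ 3)
          (max (v s0) (v s1) * (dd v X X' * (nm v X * nm v X') ^ 3)) := by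
      rw [rho_nm3 X', rho_maxmul]
      refine max_le (max_le ?_ ?_) (max_le ?_ ?_)
      · exact rho_step l0 l1 (v.map_sub_le y2 c2) u2 (rho_a_le X) (le_max_left _ _) (by ring)
      · exact rho_step l0 l1 (v.map_sub_le y1 c1) u1 (rho_b_le X) (le_max_left _ _) (by ring)
      · exact rho_step l0 l1 w2 (v.map_add_le y2 c2) (rho_a_le X) (le_max_right _ _) (by ring)
      · exact rho_step l0 l1 w1 (v.map_add_le y1 c1) (rho_b_le X) (le_max_right _ _) (by ring)
    have hpos : 0 < max (v s0) (v s1) * (nm v X * nm v X') ^ 3 :=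
      zero_lt_iff.2 (mul_ne_zero hs (pow_ne_zero _ (mul_ne_zero hN hN')))
    refine le_of_mul_le_mul_right ?_ hpos
    rw [max_mul (rho v p s0 s1 X')]
    refine le_of_eq_of_le ?_ (key.trans_eq (congrArg₂ max ?_ ?_))
    · rw [rho]; field_simp
    · rw [rho]; field_simp
    · exact mul_left_comm _ _ _
  · rw [rho, hX.1, ← hX.2]
    simp
  · have hN := hd.nm_ne X
    have hT := hS t0 t1 ht
    have key : max (v (s0 * (X.y - X.ev p.c) - s1 * X.ev p.u))
        (v (s0 * X.ev p.w - s1 * (X.y + X.ev p.c))) * max (v t0) (v t1) =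
        v (s0 * t1 - s1 * t0) * nm v X ^ 3 := by
      rw [rho_maxmul, ← rho_prim h hd hp X, mul_max, mul_max, mul_max]
      simp only [← map_mul]
      refine congrArg₂ max (congrArg₂ max (congrArg v ?_) (congrArg v ?_))
        (congrArg₂ max (congrArg v ?_) (congrArg v ?_))
      · linear_combination s0 * hX.1
      · linear_combination s1 * hX.1
      · linear_combination (-s0) * hX.2
      · linear_combination (-s1) * hX.2
    by_cases hs : max (v s0) (v s1) = 0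
    · simp [rho, chd, hs]
    rw [rho, chd, div_eq_div_iff (mul_ne_zero hs (pow_ne_zero _ hN)) (mul_ne_zero hs hT),
      mul_left_comm, key, mul_left_comm]
  · have hN := hd.nm_ne X
    have he := p.ev_eq X
    have key : max (v (s0 * (X.y - X.ev p.c) - s1 * X.ev p.u))
        (v (s0 * X.ev p.w - s1 * (X.y + X.ev p.c))) *
        max (v (s0 * (-X.y - X.ev p.c) - s1 * X.ev p.u))
          (v (s0 * X.ev p.w - s1 * (-X.y + X.ev p.c))) =
        v (X.ev (p.V s0 s1)) * nm v X ^ 3 := by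
      rw [rho_maxmul, ← rho_prim h hd hp X, mul_max, mul_max, mul_max, p.ev_V]
      simp only [← map_mul]
      refine congrArg₂ max (congrArg₂ max ((v.map_neg _).symm.trans (congrArg v ?_))
        (congrArg v ?_)) (congrArg₂ max ((v.map_neg _).symm.trans (congrArg v ?_)) (congrArg v ?_))
      · linear_combination s0 ^ 2 * he
      · linear_combination s0 * s1 * he
      · linear_combination (-(s0 * s1)) * he
      · linear_combination (-(s1 ^ 2)) * he
    by_cases hs : max (v s0) (v s1) = 0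
    · simp [rho, hs]
    have e : nm v X.io = nm v X := rfl
    rw [rho, rho, e, Pt.io_y, Pt.io_ev, Pt.io_ev, Pt.io_ev, div_mul_div_comm, key]
    field_simp
  · have hN := hd.nm_ne X
    have hs' := hS s0 s1 hs
    have e : nm v X.io = nm v X := rfl
    have e1 : s0 * (-X.y - X.ev p.c) - s1 * X.ev p.u = -(2 * (s0 * X.y)) := by
      linear_combination hX.1
    have e2 : s0 * X.ev p.w - s1 * (-X.y + X.ev p.c) = 2 * (s1 * X.y) := by
      linear_combination -hX.2
    rw [rho, e, Pt.io_y, Pt.io_ev, Pt.io_ev, Pt.io_ev, e1, e2, v.map_neg, map_mul, map_mul, map_mul,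
      map_mul, rho_two h, one_mul, one_mul, ← max_mul, hd.self, mul_div_mul_left _ _ hs']
  · have l0 : v s0 ≤ max (v s0) (v s1) := le_max_left _ _
    have l1 : v s1 ≤ max (v s0) (v s1) := le_max_right _ _
    have hy := hd.y_le X
    refine div_le_one_of_le₀ (max_le ?_ ?_) zero_le
    · exact v.map_sub_le (rho_mul_le l0 (v.map_sub_le hy (rho_ev_le X hc)))
        (rho_mul_le l1 (rho_ev_le X hu))
    · exact v.map_sub_le (rho_mul_le l0 (rho_ev_le X hw))
        (rho_mul_le l1 (v.map_add_le hy (rho_ev_le X hc)))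

end Pool.Agent.P.MP_9344a7_nt.Tor
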