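import Pool.Agent.P.MP_9344a7_nt.Tor.Iface

/-! Step SEX. -/

set_option autoImplicit false
set_option linter.unusedSectionVars false

namespace Pool.Agent.P.MP_9344a7_nt.Tor

open Polynomial WithZero
open Pool.Agent.P.MP_6f117a_ag (Place FF)
open Pool.Agent.P.MP_ab3ecb_nt.Inv (ord Dv dv deg SA LS)
open scoped Classical IntermediateField

section sex

variable {F : Type} [Field F] (α β γ δ : F)

lemma sex_deg (n : ℕ) (g : F[X]) : (mob n g α β γ δ).natDegree ≤ n := by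
  unfold mob hev
  refine natDegree_sum_le_of_forall_le _ _ fun i hi => ?_
  have hi' : i ≤ n := Nat.lt_succ_iff.1 (Finset.mem_range.1 hi)
  have h1 : (C α * X + C β : F[X]).natDegree ≤ 1 := natDegree_linear_le
  have h2 : (C γ * X + C δ : F[X]).natDegree ≤ 1 := natDegree_linear_le
  have h3 := natDegree_pow_le_of_le i h1
  have h4 := natDegree_pow_le_of_le (n - i) h2
  rw [coeff_map, mul_assoc]
  refine (natDegree_C_mul_le _ _).trans (natDegree_mul_le.trans ?_)
  omega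

lemma sex_sub (n : ℕ) (p q : F[X]) :
    mob n (p - q) α β γ δ = mob n p α β γ δ - mob n q α β γ δ := by
  unfold mob
  rw [Polynomial.map_sub, hev_sub]

lemma sex_mul {m n : ℕ} {p q : F[X]} (hp : p.natDegree ≤ m) (hq : q.natDegree ≤ n) :
    mob (m + n) (p * q) α β γ δ = mob m p α β γ δ * mob n q α β γ δ := by
  unfold mob
  rw [Polynomial.map_mul, hev_mul (natDegree_map_le.trans hp) (natDegree_map_le.trans hq)]

lemma sex_C (n : ℕ) (t : F) (p : F[X]) :
    mob n (C t * p) α β γ δ = C t * mob n p α β γ δ := by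
  unfold mob
  rw [Polynomial.map_mul, map_C, hev_C_mul]

lemma sex_lin {x u : F} (h : x * (γ * u + δ) = α * u + β) :
    mob 1 (X - C x) α β γ δ = C (α - x * γ) * (X - C u) := by
  unfold mob
  have e : ((X - C x : F[X]).map C) = C 1 * X - C (C x) := by simp
  have h' : (C x * (C γ * C u + C δ) : F[X]) = C α * C u + C β := by
    rw [← C_mul, ← C_add, ← C_mul, h, C_add, C_mul]
  rw [e, hev_lin, C_sub, C_mul]
  linear_combination -h'

lemma sex_prod {ι : Type} (s : Finset ι) (x u : ι → F)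
    (h : ∀ i, x i * (γ * u i + δ) = α * u i + β) :
    mob s.card (∏ i ∈ s, (X - C (x i))) α β γ δ =
      C (∏ i ∈ s, (α - x i * γ)) * ∏ i ∈ s, (X - C (u i)) := by
  induction s using Finset.induction_on with
  | empty => simp [mob, hev]
  | insert i s hi ih =>
    have hd : (∏ i ∈ s, (X - C (x i))).natDegree ≤ s.card :=
      (natDegree_finsetProd_X_sub_C_eq_card s x).le
    rw [Finset.card_insert_of_notMem hi, Finset.prod_insert hi, Finset.prod_insert hi,
      Finset.prod_insert hi, add_comm s.card, sex_mul α β γ δ (natDegree_X_sub_C_le _) hd, ih,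
      sex_lin α β γ δ (h i), C_mul]
    ring

lemma sex_eval (n : ℕ) (g : F[X]) (u : F) :
    (mob n g α β γ δ).eval u = hev n g (α * u + β) (γ * u + δ) := by
  have h := hev_map (evalRingHom u) n (g.map C) (C α * X + C β) (C γ * X + C δ)
  have e : (evalRingHom u).comp (C : F →+* F[X]) = RingHom.id F := by
    ext a
    simp
  rw [Polynomial.map_map, e, Polynomial.map_id] at h
  simpa [mob] using h.symm

lemma sex_step {f g c c' : F[X]} (τ : F ≃+* F) (hdet : α * δ - β * γ ≠ 0) {a x : Fin 6 → F}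
    (h : ∀ i, x i * (γ * τ (a i) + δ) = α * τ (a i) + β) {t t' : F} (ht' : t' ≠ 0)
    (hc' : c'.natDegree ≤ 3) (e : f - c ^ 2 = C t * ∏ i, (X - C (a i)))
    (e' : g - c' ^ 2 = C t' * ∏ i, (X - C (x i))) :
    ∃ γ0, f.map (τ : F →+* F) - (c.map (τ : F →+* F)) ^ 2 =
      C γ0 * (mob 6 g α β γ δ - (mob 3 c' α β γ δ) ^ 2) := by
  have h1 := congrArg (Polynomial.map (τ : F →+* F)) e
  simp only [Polynomial.map_sub, Polynomial.map_pow, Polynomial.map_mul, Polynomial.map_prod,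
    map_C, map_X, RingHom.coe_coe] at h1
  have h2 := congrArg (fun p => mob 6 p α β γ δ) e'
  have h3 := sex_prod α β γ δ Finset.univ x (fun i => τ (a i)) h
  rw [Finset.card_univ, Fintype.card_fin] at h3
  simp only [sex_sub, sex_C, h3] at h2
  have h5 : mob 6 (c' ^ 2) α β γ δ = mob 3 c' α β γ δ ^ 2 := by
    have h6 := sex_mul α β γ δ hc' hc'
    rwa [← sq, ← sq, show 3 + 3 = 6 from rfl] at h6
  rw [h5, ← mul_assoc, ← C_mul] at h2
  have h4 : ∏ i, (α - x i * γ) ≠ 0 := by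
    refine Finset.prod_ne_zero_iff.2 fun i _ h0 => hdet ?_
    linear_combination (δ + γ * τ (a i)) * h0 + γ * h i
  refine ⟨τ t / (t' * ∏ i, (α - x i * γ)), ?_⟩
  rw [h1, h2, ← mul_assoc, ← C_mul, div_mul_cancel₀ _ (mul_ne_zero ht' h4)]

end sex

theorem p_SEX (hTRB : S_TRB) (hCUB : S_CUB) (hSIX : S_SIX) (hCNT : S_CNT) :
    S_SEX := by
  intro C0
  obtain ⟨q0, hq0⟩ := hCNT C0
  refine ⟨max q0 7, ?_⟩
  intro F G G' _ _ _ _ f g T hq ⟨W, hW, hW'⟩ N τ α β γ δ hN ⟨hdet, hM⟩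
  have TB := hTRB F G G' f g T
  have hq1 : q0 ≤ Fintype.card F := (le_max_left _ _).trans hq
  have hq2 : 7 ≤ Fintype.card F := (le_max_right _ _).trans hq
  obtain ⟨a0, ha0⟩ : N.Nonempty := by
    rw [← Finset.card_pos]
    by_contra h0
    rw [Nat.eq_zero_of_not_pos h0] at hN
    omega
  obtain ⟨-, P0, hP0, hPa0, hx0⟩ := hM a0 ha0
  have : Nonempty (Pt f F) := ⟨P0⟩
  choose! hB P hok hPa hx using hM
  obtain ⟨S, hS, hS'⟩ := hq0 (Fintype.card F) F G N (fun a => T.I.cl (P a)) W hq1 hN hW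
    (fun a _ b _ d _ => hW' _ _ _) (by
      intro a ha b hb a' ha' b' hb' hab e
      rcases T.I.two _ _ _ _ e with ⟨e1, e2⟩ | ⟨e1, e2⟩ | ⟨e1, -⟩
      · exact .inl ⟨by rw [← hPa a ha, e1, hPa a' ha'], by rw [← hPa b hb, e2, hPa b' hb']⟩
      · exact .inr ⟨by rw [← hPa a ha, e1, hPa b' hb'], by rw [← hPa b hb, e2, hPa a' ha']⟩
      · exact absurd (by rw [← hPa b hb, e1, Pt.io_a, hPa a ha]) hab)
  have key : ∀ s ∈ S, ∃ c : F[X], c.natDegree ≤ 3 ∧
      (∃ t, t ≠ 0 ∧ f - c ^ 2 = C t * ∏ b ∈ s, (X - C b)) ∧ ∃ (c' : F[X]) (γ0 : F),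
        c'.natDegree ≤ 3 ∧ f.map (τ : F →+* F) - (c.map (τ : F →+* F)) ^ 2 =
          C γ0 * (mob 6 g α β γ δ - c' ^ 2) := by
    intro s hs
    obtain ⟨a, ha, haN, rfl, e⟩ := hS' s hs
    have hb : ∀ i, (P (a i)).a ∉ T.B := fun i => by
      rw [hPa _ (haN i)]
      exact hB _ (haN i)
    obtain ⟨c, t, hc, ht, e1⟩ := hSIX F F G f T.gf T.I (fun i => P (a i)) (fun i => hok _ (haN i))
      (fun i j hij => ha (by simpa only [hPa _ (haN _)] using hij)) e
    obtain ⟨c', t', hc', ht', e2⟩ := hSIX F F G' g T.gg T.I' (fun i => T.φ (P (a i)))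
      (fun i => TB.ok _ (hb i) (hok _ (haN i)))
      (fun i j hij => ha (by
        simpa only [hPa _ (haN _)] using (TB.a _ _ (hb i) (hb j)).1 hij))
      (by simpa only [map_add, T.cl _ (hb _)] using congrArg T.θ e)
    rw [Algebra.algebraMap_self, Polynomial.map_id] at e1 e2
    simp only [hPa _ (haN _)] at e1
    obtain ⟨γ0, e3⟩ := sex_step α β γ δ τ hdet (fun i => hx _ (haN i)) ht' hc' e1 e2
    refine ⟨c, hc, ⟨t, ht, ?_⟩, _, γ0, sex_deg α β γ δ 3 c', e3⟩
    rw [e1, Finset.prod_image fun i _ j _ hij => ha hij]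
  choose! c hc1 hc2 hc3 using key
  have hsub : ∀ s ∈ S, ∀ s' ∈ S, c s = c s' → s ⊆ s' := by
    intro s hs s' hs' e b hb
    obtain ⟨t, -, e1⟩ := hc2 s hs
    obtain ⟨t', ht', e2⟩ := hc2 s' hs'
    rw [e, e2] at e1
    have e3 := congrArg (eval b) e1
    simp only [eval_mul, eval_C, eval_prod, eval_sub, eval_X] at e3
    rw [Finset.prod_eq_zero hb (sub_self b), mul_zero] at e3
    obtain ⟨b', hb', e4⟩ := Finset.prod_eq_zero_iff.1 ((mul_eq_zero.1 e3).resolve_left ht')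
    rwa [sub_eq_zero.1 e4]
  have hcard : (S.image fun s => (c s).map (τ : F →+* F)).card = S.card := by
    refine Finset.card_image_of_injOn fun s hs s' hs' e => ?_
    have e' : c s = c s' := Polynomial.map_injective _ τ.injective e
    exact Finset.Subset.antisymm (hsub s hs s' hs' e') (hsub s' hs' s hs e'.symm)
  obtain ⟨γ0, e⟩ : ∃ γ0, f.map (τ : F →+* F) = C γ0 * mob 6 g α β γ δ := by
    by_contra hne
    have := hCUB F (f.map (τ : F →+* F)) (mob 6 g α β γ δ)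
      (S.image fun s => (c s).map (τ : F →+* F)) T.gf.two (by omega)
      (natDegree_map_le.trans T.gf.deg.le) (sex_deg α β γ δ 6 g) (fun γ0 h => hne ⟨γ0, h⟩) (by
        intro d hd
        obtain ⟨s, hs, rfl⟩ := Finset.mem_image.1 hd
        exact ⟨natDegree_map_le.trans (hc1 s hs), hc3 s hs⟩)
    omega
  have e1 := congrArg (eval (τ a0)) e
  have e2 : (f.map (τ : F →+* F)).eval (τ a0) = τ P0.y ^ 2 := by
    rw [← map_pow, Pt.eq_aff T.gf.deg.le hP0.1, hPa0, coe_aeval_eq_eval]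
    exact eval_map_apply (τ : F →+* F) a0
  have e3 : (mob 6 g α β γ δ).eval (τ a0) = ((γ * τ a0 + δ) ^ 3 * (T.φ P0).y) ^ 2 := by
    have h1 := hev_smul 6 g (γ * τ a0 + δ) (T.φ P0).a 1
    rw [mul_one, mul_comm _ (T.φ P0).a, hx0, hev_aff T.gg.deg.le] at h1
    rw [sex_eval, h1, mul_pow, Pt.eq_aff T.gg.deg.le (T.ag _), coe_aeval_eq_eval, ← pow_mul]
  rw [eval_mul, eval_C, e2, e3] at e1
  have h1 : τ P0.y ≠ 0 := (map_ne_zero τ).2 hP0.2
  have h2 : (γ * τ a0 + δ) ^ 3 * (T.φ P0).y ≠ 0 := by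
    intro h0
    rw [h0] at e1
    exact pow_ne_zero 2 h1 (by rw [e1]; ring)
  refine ⟨τ, α, β, γ, δ, τ P0.y / ((γ * τ a0 + δ) ^ 3 * (T.φ P0).y), hdet, div_ne_zero h1 h2, ?_⟩
  rw [e, div_pow, e1, mul_div_cancel_right₀ _ (pow_ne_zero 2 h2)]

end Pool.Agent.P.MP_9344a7_nt.Tor
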