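import Pool.Agent.P.MP_9344a7_nt.Tor.Iface2
import Pool.Agent.P.MP_9344a7_nt.Tor.Iface

/-! Step SIDE. -/

set_option autoImplicit false
set_option linter.unusedSectionVars false

namespace Pool.Agent.P.MP_9344a7_nt.Tor

open Polynomial WithZero
open Pool.Agent.P.MP_6f117a_ag (Place FF)
open Pool.Agent.P.MP_ab3ecb_nt.Inv (ord Dv dv deg SA LS)
open scoped Classical IntermediateField

lemma side_phi {F E : Type} [Field F] [Fintype F] [Field E] [Algebra (AlgebraicClosure F) E]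
    (C : Curve F E) (P : Place (AlgebraicClosure F) E) : C.φ (cls P) = cls (C.fr P) := by
  unfold Curve.φ cls
  rw [QuotientAddGroup.map_mk]
  congr 1
  simp [Finsupp.domCongr_apply]

theorem p_SIDE (hHF : S_HF) (hPL : S_PL) (hDIV : S_DIV) (hLK : S_LK) (hPICK : S_PICK) (hCOM : S_COM) (hDE : S_DE) (hDET : S_DET) (hFRP : S_FRP) :
    S_SIDE := by
  intro F E _ _ _ _ _ _ C f x y h
  obtain ⟨hF, -⟩ := hHF F _ E f x y h.hyp
  obtain ⟨pl, hpl⟩ := hPL F _ E f x y h.hyp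
  obtain ⟨I, hI⟩ := hPICK F _ E f x y h.hyp pl hpl
  obtain ⟨⟨O, hO⟩, -⟩ := hDIV F _ E f x y h.hyp pl hpl
  obtain ⟨h1, h2, ⟨τ, h3⟩, h4, h5⟩ := hFRP F E C f x y h pl hpl
  have hm : ∀ z, z ∈ C.PicF ↔ C.φ z = z := fun _ => Iff.rfl
  have hK : I.K ∈ C.PicF := by
    rw [hm, ← I.conj O, map_add, hI, hI, side_phi, side_phi, h3, h3, ← hI, ← hI, ← hI, ← hI,
      Pt.map_io, I.conj, I.conj]
  obtain ⟨I', e1, e2, e3⟩ := hCOM F F _ _ f h.hyp.gd (Algebra.ofId F _) I C.PicF hK fun P => by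
    rw [hm, hI, side_phi, (h2 _).2 ⟨P, rfl⟩]
  refine ⟨fun P => pl (P.up _), I', e3 (hDET _ _ _ _ _ (hDE F _ E f x y h.hyp pl hpl I hI)), h1,
    fun P => (e1 P).trans (hI _), fun Q hQ => (h2 Q).1 ?_, ⟨pd pl O + pd pl O.io, ?_, ?_,
      (hLK F _ E f x y h.hyp pl hpl O hO).2⟩, h4, h5⟩
  · obtain ⟨R, rfl⟩ := pl.surjective Q
    rw [hm, side_phi, h3, ← hI, ← hI] at hQ
    rw [h3, I.one hQ]
  · rw [e2, ← I.conj O, hI, hI]
    rfl
  · change deg _ = _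
    simp

end Pool.Agent.P.MP_9344a7_nt.Tor
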