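import Pool.Agent.P.MP_9344a7_nt.Tor.Iface

/-! Step SIX. -/

set_option autoImplicit false
set_option linter.unusedSectionVars false

namespace Pool.Agent.P.MP_9344a7_nt.Tor

open Polynomial WithZero
open Pool.Agent.P.MP_6f117a_ag (Place FF)
open Pool.Agent.P.MP_ab3ecb_nt.Inv (ord Dv dv deg SA LS)
open scoped Classical IntermediateField

theorem p_SIX (hFB : S_FB) (hPD0 : S_PD0) :
    S_SIX := by
  intro k0 L G _ _ _ _ f hf I P hok hinj hcl
  have hne : ∀ i j, i ≠ j → (P i).a ≠ (P j).a := fun i j h e => h (hinj e)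
  have hnc : ∀ i j, i ≠ j → P i ≠ (P j).io := fun i j h e =>
    hne i j h (by rw [e, Pt.io_a])
  obtain ⟨p, hp⟩ := hPD0 k0 L f hf (P 0) (P 1) (P 2) (hok 0) (hok 1) (hok 2)
    ⟨hnc 1 0 (by decide), hnc 2 0 (by decide), hnc 2 1 (by decide)⟩
  obtain ⟨s0, s1, hq⟩ := (I.fib p _ _ _ (P 3) (P 4) (P 5) ⟨0, 1, hp⟩).2 hcl.symm
  have hs : s0 ≠ 0 := by
    rintro rfl
    have h1 : s1 ≠ 0 := hq.ne.resolve_left (by simp)
    have h3 : p.On 0 1 (P 3) := by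
      obtain ⟨h2, h3⟩ := hq.2.1
      rw [zero_mul] at h2 h3
      refine ⟨?_, ?_⟩
      · rw [zero_mul, one_mul, (mul_eq_zero.1 h2.symm).resolve_left h1]
      · rw [zero_mul, one_mul, (mul_eq_zero.1 h3).resolve_left h1]
    rcases (hFB k0 L f hf).mem p 0 1 _ _ _ _ hp h3 with e | e | e
    · exact hne 3 0 (by decide) (by rw [e])
    · exact hne 3 1 (by decide) (by rw [e])
    · exact hne 3 2 (by decide) (by rw [e])
  obtain ⟨⟨t1, h1, e1⟩, -⟩ := hp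
  obtain ⟨⟨t2, h2, e2⟩, -⟩ := hq
  rw [Pt.ell_aff (hok _).1, Pt.ell_aff (hok _).1, Pt.ell_aff (hok _).1] at e1 e2
  refine ⟨p.c + C (s1 * s0⁻¹) * p.u, -(t1 * t2 * s0⁻¹ ^ 2), ?_, ?_, ?_⟩
  · exact (natDegree_add_le _ _).trans (max_le p.dc ((natDegree_C_mul_le _ _).trans p.du))
  · exact neg_ne_zero.2 (mul_ne_zero (mul_ne_zero h1 h2) (pow_ne_zero _ (inv_ne_zero hs)))
  · have e0 : (C s0 : L[X]) * C s0⁻¹ = 1 := by rw [← C_mul, mul_inv_cancel₀ hs, C_1]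
    simp only [Pen.V, map_mul, map_pow, map_zero, map_one, map_ofNat] at e1 e2
    rw [p.eq, Fin.prod_univ_six]
    simp only [map_mul, map_neg, map_pow]
    have e3 : p.u = -(C t1 * (X - C (P 0).a) * (X - C (P 1).a) * (X - C (P 2).a)) := by
      rw [← e1]; ring
    have e4 : p.w - 2 * C s1 * C s0⁻¹ * p.c - (C s1 * C s0⁻¹) ^ 2 * p.u =
        C s0⁻¹ ^ 2 * (C t2 * (X - C (P 3).a) * (X - C (P 4).a) * (X - C (P 5).a)) := by
      rw [← e2]
      linear_combination (-(C s0 * C s0⁻¹ + 1) * p.w + 2 * C s1 * C s0⁻¹ * p.c) * e0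
    linear_combination p.u * e4 +
      C s0⁻¹ ^ 2 * (C t2 * (X - C (P 3).a) * (X - C (P 4).a) * (X - C (P 5).a)) * e3

end Pool.Agent.P.MP_9344a7_nt.Tor
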