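import Pool.Agent.P.MP_9344a7_nt.Tor.Iface

/-! Step SL. -/

set_option autoImplicit false
set_option linter.unusedSectionVars false

namespace Pool.Agent.P.MP_9344a7_nt.Tor

open Polynomial WithZero
open Pool.Agent.P.MP_6f117a_ag (Place FF)
open Pool.Agent.P.MP_ab3ecb_nt.Inv (ord Dv dv deg SA LS)
open scoped Classical IntermediateField

section

variable {L Γ : Type} [Field L] [LinearOrderedCommGroupWithZero Γ] {v : Valuation L Γ}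

lemma sl_mul {x y : L} {m n : Γ} (hx : v x ≤ m) (hy : v y ≤ n) : v (x * y) ≤ m * n := by
  rw [map_mul]; exact mul_le_mul' hx hy

lemma sl_one {x y : L} {n : Γ} (hx : v x ≤ 1) (hy : v y ≤ n) : v (x * y) ≤ n := by
  simpa using sl_mul hx hy

lemma sl_ne {x : L} (hx : v x = 1) : x ≠ 0 := fun h => by simp [h] at hx

lemma sl_inv {x : L} (hx : v x = 1) : v x⁻¹ ≤ 1 := by rw [map_inv₀, hx, inv_one]

lemma sl_err {r : Γ} (hr : r ≤ 1) {t D e ε δ δ' a a' y : L} (vt : v t = 1) (vD : v D ≤ r)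
    (ve : v e ≤ 1) (h1 : v ε ≤ r) (h2 : v δ ≤ r) (h3 : v δ' ≤ r) (ha : v a ≤ 1) (ha' : v a' ≤ 1)
    (vy : v y = 1) : v (y⁻¹ * (t * (ε * (a' * δ + a * δ' - δ * δ')) - e * (D * D))) ≤ r ^ 2 := by
  rw [sq]
  exact sl_one (sl_inv vy) (v.map_sub_le (sl_one vt.le (sl_mul h1 (v.map_sub_le
    (v.map_add_le (sl_one ha' h2) (sl_one ha h3)) (sl_one (h2.trans hr) h3))))
    (sl_one ve (sl_mul vD vD)))

lemma sl_core {r : Γ} (hr : r ≤ 1) {t κ D a1 a2 a3 y1 y2 e1 e2 ε1 ε2 ε3 : L} (vt : v t = 1)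
    (vD : v D ≤ r) (h1 : v a1 ≤ 1) (h2 : v a2 ≤ 1) (h3 : v a3 ≤ 1) (h12 : v (a1 - a2) = 1)
    (vy1 : v y1 = 1) (vy2 : v y2 = 1) (ve1 : v e1 ≤ 1) (ve2 : v e2 ≤ 1) (k1 : v ε1 ≤ r)
    (k2 : v ε2 ≤ r) (k3 : v ε3 ≤ r)
    (E1 : t * (-ε1) * (a1 - a2 - ε2) * (a1 - a3 - ε3) = κ * D * y1 + D ^ 2 * e1)
    (E2 : t * (a2 - a1 - ε1) * (-ε2) * (a2 - a3 - ε3) = κ * D * y2 + D ^ 2 * e2) :
    v ((a1 - a3) / y1 * ε1 + (a2 - a3) / y2 * ε2) ≤ r ^ 2 := by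
  have n1 := sl_ne vt
  have n2 := sl_ne h12
  have n3 := sl_ne vy1
  have n4 := sl_ne vy2
  have e : (a1 - a3) / y1 * ε1 + (a2 - a3) / y2 * ε2 = t⁻¹ * ((a1 - a2)⁻¹ *
      (y1⁻¹ * (t * (ε1 * ((a1 - a3) * ε2 + (a1 - a2) * ε3 - ε2 * ε3)) - e1 * (D * D)) -
        y2⁻¹ * (t * (ε2 * ((a2 - a3) * ε1 + (a2 - a1) * ε3 - ε1 * ε3)) - e2 * (D * D)))) := by
    field_simp
    linear_combination (-y2) * E1 + y1 * E2
  rw [e]
  exact sl_one (sl_inv vt) (sl_one (sl_inv h12) (v.map_sub_le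
    (sl_err hr vt vD ve1 k1 k2 k3 (v.map_sub_le h1 h2) (v.map_sub_le h1 h3) vy1)
    (sl_err hr vt vD ve2 k2 k1 k3 (v.map_sub_le h2 h1) (v.map_sub_le h2 h3) vy2)))

variable {k0 : Type} [Field k0] [Algebra k0 L] {f : k0[X]}

lemma sl_ev {X : Pt f L} (hb : X.b = 1) (ha : v X.a ≤ 1) {g : L[X]}
    (hg : ∀ i, v (g.coeff i) ≤ 1) : v (X.ev g) ≤ 1 := by
  rw [Pt.ev, hev, hb]
  refine v.map_sum_le fun i _ => ?_
  rw [one_pow, mul_one]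
  refine sl_one (hg i) ?_
  rw [map_pow]
  exact pow_le_one' ha _

lemma sl_scale {p : Pen f L} {s0 s1 c : L} (hc : c ≠ 0) {P1 P2 P3 : Pt f L}
    (h : p.FibS s0 s1 P1 P2 P3) : p.FibS (c * s0) (c * s1) P1 P2 P3 := by
  have on : ∀ P : Pt f L, p.On s0 s1 P → p.On (c * s0) (c * s1) P := fun P hP =>
    ⟨by rw [mul_assoc, hP.1, mul_assoc], by rw [mul_assoc, hP.2, mul_assoc]⟩
  obtain ⟨⟨t, h0, h1⟩, h2, h3, h4⟩ := h
  refine ⟨⟨c ^ 2 * t, mul_ne_zero (pow_ne_zero _ hc) h0, ?_⟩, on _ h2, on _ h3, on _ h4⟩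
  have e : p.V (c * s0) (c * s1) = C (c ^ 2) * p.V s0 s1 := by
    simp only [Pen.V, C_mul, C_pow]
    ring
  rw [e, h1, C_mul]
  ring

lemma sl_norm {p : Pen f L} {P1 P2 P3 : Pt f L} (h : p.Fib P1 P2 P3) :
    ∃ s0 s1, p.FibS s0 s1 P1 P2 P3 ∧ max (v s0) (v s1) = 1 := by
  obtain ⟨s0, s1, h⟩ := h
  have key : ∀ x y : L, x ≠ 0 ∨ y ≠ 0 → v x ≤ v y →
      y ≠ 0 ∧ v (y⁻¹ * x) ≤ 1 ∧ v (y⁻¹ * y) = 1 := by
    intro x y hn hl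
    have hy : y ≠ 0 := by
      rintro rfl
      rw [map_zero, le_zero_iff, Valuation.zero_iff] at hl
      exact hn.elim (fun e => e hl) (fun e => e rfl)
    refine ⟨hy, ?_, by rw [inv_mul_cancel₀ hy, map_one]⟩
    rw [← div_eq_inv_mul, map_div₀]
    exact div_le_one_of_le₀ hl zero_le
  rcases le_total (v s0) (v s1) with h1 | h1
  · obtain ⟨a, b, c⟩ := key s0 s1 h.ne h1
    exact ⟨_, _, sl_scale (inv_ne_zero a) h, by rw [c, max_eq_right b]⟩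
  · obtain ⟨a, b, c⟩ := key s1 s0 h.ne.symm h1
    exact ⟨_, _, sl_scale (inv_ne_zero a) h, by rw [c, max_eq_left b]⟩

lemma sl_exp {p : Pen f L} (hp : p.Int v) (s0 s1 : L) {t0 t1 : L} (ht : max (v t0) (v t1) = 1) :
    ∃ κ : L, ∀ Q : Pt f L, Q.b = 1 → v Q.a ≤ 1 → p.On t0 t1 Q → ∃ e : L, v e ≤ 1 ∧
      Q.ev (p.V s0 s1) = κ * (s0 * t1 - s1 * t0) * Q.y + (s0 * t1 - s1 * t0) ^ 2 * e := by
  rcases max_choice (v t0) (v t1) with h | h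
  · rw [ht] at h
    have n := sl_ne h.symm
    refine ⟨2 * s0 / t0, fun Q hb ha hQ => ⟨t0⁻¹ * (t0⁻¹ * -Q.ev p.u), ?_, ?_⟩⟩
    · refine sl_one (sl_inv h.symm) (sl_one (sl_inv h.symm) ?_)
      rw [Valuation.map_neg]
      exact sl_ev hb ha fun i => (hp i).1
    · rw [Pen.ev_V]
      field_simp
      linear_combination (-(s0 ^ 2 * t0)) * hQ.2 +
        (s0 ^ 2 * t1 - 2 * s0 * (s0 * t1 - s1 * t0)) * hQ.1
  · rw [ht] at h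
    have n := sl_ne h.symm
    refine ⟨2 * s1 / t1, fun Q hb ha hQ => ⟨t1⁻¹ * (t1⁻¹ * Q.ev p.w), ?_, ?_⟩⟩
    · exact sl_one (sl_inv h.symm) (sl_one (sl_inv h.symm) (sl_ev hb ha fun i => (hp i).2.2))
    · rw [Pen.ev_V]
      field_simp
      linear_combination (s1 ^ 2 * t1) * hQ.1 -
        (s1 ^ 2 * t0 + 2 * s1 * (s0 * t1 - s1 * t0)) * hQ.2

end

theorem p_SL (hDD : S_DD) (hRHO : S_RHO) (hGAU : S_GAU) :
    S_SL := by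
  intro k0 k L Γ _ _ _ _ _ _ v f φ hf hφ p hp Q1 Q2 Q3 P1 P2 P3 r o1 o2 o3 n12 _ _ hQ hP hr
    d1 d2 d3
  have hv : VS v f := ⟨hf, fun c => by rw [← φ.commutes]; exact hφ _⟩
  have hd := hDD k0 L Γ v f hv
  have hR := hRHO k0 L Γ v f hv p hp
  have unit : ∀ c : k, c ≠ 0 → v (φ c) = 1 := by
    intro c hc
    refine le_antisymm (hφ c) ?_
    have h1 := sl_mul (hφ c⁻¹) (le_refl (v (φ c)))
    rwa [← map_mul, inv_mul_cancel₀ hc, map_one, map_one, one_mul] at h1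
  have near : ∀ (P : Pt f L) (Q : Pt f k), Q.Ok → dd v P (Q.map φ) ≤ r →
      (Q.map φ).b = 1 ∧ P.b = 1 ∧ nm v P = 1 ∧ v (P.a - φ Q.a) ≤ r := by
    intro P Q o d
    have hb : (Q.map φ).b = 1 := ((Pt.ok_map φ).2 o).1
    obtain ⟨a1, a2⟩ := hd.near P _ hb (hφ _) (d.trans_lt hr)
    refine ⟨hb, a1, by rw [nm, a1, map_one, max_eq_right a2], ?_⟩
    rw [hd.aff P _ a1 hb a2 (hφ _)] at d
    exact (le_max_left _ _).trans d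
  obtain ⟨b1, c1, m1, k1⟩ := near P1 Q1 o1 d1
  obtain ⟨b2, c2, m2, k2⟩ := near P2 Q2 o2 d2
  obtain ⟨-, c3, m3, k3⟩ := near P3 Q3 o3 d3
  obtain ⟨s0, s1, ⟨⟨t, -, hV⟩, on1, -, -⟩, hs⟩ := sl_norm (v := v) hP
  obtain ⟨t0, t1, hF, ht⟩ := sl_norm (v := v) hQ
  have vt : v t = 1 := by
    have := hGAU k0 L Γ v f hv p hp s0 s1 t P1 P2 P3 hV
    rwa [m1, m2, m3, hs, one_pow, mul_one, mul_one, mul_one] at this
  have vD : v (s0 * t1 - s1 * t0) ≤ r := by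
    have h1 := hR.lip s0 s1 (Q1.map φ) P1
    rw [hR.zero _ _ _ on1, hR.chd _ _ _ _ _ hF.ne hF.2.1, chd, hs, ht, mul_one, div_one,
      max_eq_right zero_le, hd.symm] at h1
    exact h1.trans d1
  obtain ⟨κ, hκ⟩ := sl_exp hp s0 s1 ht
  obtain ⟨e1, ve1, E1⟩ := hκ _ b1 (hφ _) hF.2.1
  obtain ⟨e2, ve2, E2⟩ := hκ _ b2 (hφ _) hF.2.2.1
  rw [hV, ev_ell] at E1 E2
  simp only [br, b1, b2, c1, c2, c3, mul_one, Pt.map_a, Pt.map_y] at E1 E2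
  rw [map_div₀, map_div₀, map_sub, map_sub]
  refine sl_core (κ := κ) hr.le vt vD (hφ _) (hφ _) (hφ _)
    (by rw [← map_sub]; exact unit _ (sub_ne_zero.2 n12)) (unit _ o1.2) (unit _ o2.2) ve1 ve2
    k1 k2 k3 ?_ ?_
  · rw [← E1]; ring
  · rw [← E2]; ring

end Pool.Agent.P.MP_9344a7_nt.Tor
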