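import Pool.Agent.P.MP_9344a7_nt.Tor.Iface

/-! Step SPL. -/

set_option autoImplicit false
set_option linter.unusedSectionVars false

namespace Pool.Agent.P.MP_9344a7_nt.Tor

open Polynomial WithZero
open Pool.Agent.P.MP_6f117a_ag (Place FF)
open Pool.Agent.P.MP_ab3ecb_nt.Inv (ord Dv dv deg SA LS)
open scoped Classical IntermediateField

section red

variable {O K M : Type} [CommRing O] [Field K] [Field M] (ι : O →+* M) (r : O →+* K)

/-- `z` is integral and reduces to `c`. -/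
def splR (z : M) (c : K) : Prop := ∃ o, ι o = z ∧ r o = c

/-- `p` is integral and reduces to `q`. -/
def splP (p : M[X]) (q : K[X]) : Prop := ∃ o : O[X], o.map ι = p ∧ o.map r = q

variable {ι r} {z z' : M} {c c' : K} {p p' : M[X]} {q q' : K[X]}

lemma splR.add (h : splR ι r z c) (h' : splR ι r z' c') : splR ι r (z + z') (c + c') := by
  obtain ⟨o, rfl, rfl⟩ := h
  obtain ⟨o', rfl, rfl⟩ := h'
  exact ⟨o + o', map_add _ _ _, map_add _ _ _⟩

lemma splR.sub (h : splR ι r z c) (h' : splR ι r z' c') : splR ι r (z - z') (c - c') := by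
  obtain ⟨o, rfl, rfl⟩ := h
  obtain ⟨o', rfl, rfl⟩ := h'
  exact ⟨o - o', map_sub _ _ _, map_sub _ _ _⟩

lemma splR.mul (h : splR ι r z c) (h' : splR ι r z' c') : splR ι r (z * z') (c * c') := by
  obtain ⟨o, rfl, rfl⟩ := h
  obtain ⟨o', rfl, rfl⟩ := h'
  exact ⟨o * o', map_mul _ _ _, map_mul _ _ _⟩

lemma splR.neg (h : splR ι r z c) : splR ι r (-z) (-c) := by
  obtain ⟨o, rfl, rfl⟩ := h
  exact ⟨-o, map_neg _ _, map_neg _ _⟩

lemma spl_two : splR ι r 2 2 := ⟨2, map_ofNat _ _, map_ofNat _ _⟩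

lemma spl_zero : splR ι r 0 0 := ⟨0, map_zero _, map_zero _⟩

lemma spl_one : splR ι r 1 1 := ⟨1, map_one _, map_one _⟩

lemma splR.uniq (hι : Function.Injective ι) (h : splR ι r z c) (h' : splR ι r z c') : c = c' := by
  obtain ⟨o, rfl, rfl⟩ := h
  obtain ⟨o', e, rfl⟩ := h'
  rw [hι e]

lemma splP.eval (h : splP ι r p q) (h' : splR ι r z c) : splR ι r (p.eval z) (q.eval c) := by
  obtain ⟨o, rfl, rfl⟩ := h
  obtain ⟨o', rfl, rfl⟩ := h'
  exact ⟨o.eval o', by simp [eval_map, eval₂_at_apply], by simp [eval_map, eval₂_at_apply]⟩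

lemma splP.coeff (h : splP ι r p q) (i : ℕ) : splR ι r (p.coeff i) (q.coeff i) := by
  obtain ⟨o, rfl, rfl⟩ := h
  exact ⟨o.coeff i, (coeff_map _ _).symm, (coeff_map _ _).symm⟩

lemma splP.add (h : splP ι r p q) (h' : splP ι r p' q') : splP ι r (p + p') (q + q') := by
  obtain ⟨o, rfl, rfl⟩ := h
  obtain ⟨o', rfl, rfl⟩ := h'
  exact ⟨o + o', Polynomial.map_add _, Polynomial.map_add _⟩

lemma splP.sub (h : splP ι r p q) (h' : splP ι r p' q') : splP ι r (p - p') (q - q') := by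
  obtain ⟨o, rfl, rfl⟩ := h
  obtain ⟨o', rfl, rfl⟩ := h'
  exact ⟨o - o', Polynomial.map_sub _, Polynomial.map_sub _⟩

lemma splP.mul (h : splP ι r p q) (h' : splP ι r p' q') : splP ι r (p * p') (q * q') := by
  obtain ⟨o, rfl, rfl⟩ := h
  obtain ⟨o', rfl, rfl⟩ := h'
  exact ⟨o * o', Polynomial.map_mul _, Polynomial.map_mul _⟩

lemma splR.C (h : splR ι r z c) : splP ι r (C z) (C c) := by
  obtain ⟨o, rfl, rfl⟩ := h
  exact ⟨Polynomial.C o, map_C _, map_C _⟩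

lemma splR.lin (h : splR ι r z c) : splP ι r (X - Polynomial.C z) (X - Polynomial.C c) := by
  obtain ⟨o, rfl, rfl⟩ := h
  exact ⟨X - Polynomial.C o, by simp, by simp⟩

lemma splP.uniq (hι : Function.Injective ι) (h : splP ι r p q) (h' : splP ι r p q') : q = q' := by
  obtain ⟨o, rfl, rfl⟩ := h
  obtain ⟨o', e, rfl⟩ := h'
  rw [map_injective ι hι e]

lemma splP.deg (hι : Function.Injective ι) (h : splP ι r p q) : q.natDegree ≤ p.natDegree := by
  obtain ⟨o, rfl, rfl⟩ := h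
  rw [natDegree_map_eq_of_injective hι]
  exact natDegree_map_le

lemma splP.div (h : splP ι r p q) (h' : splR ι r z c) :
    splP ι r (p /ₘ (X - Polynomial.C z)) (q /ₘ (X - Polynomial.C c)) := by
  obtain ⟨o, rfl, rfl⟩ := h
  obtain ⟨o', rfl, rfl⟩ := h'
  exact ⟨o /ₘ (X - Polynomial.C o'), by simp [map_divByMonic _ (monic_X_sub_C o')],
    by simp [map_divByMonic _ (monic_X_sub_C o')]⟩

end red

section val

variable {K M Γ : Type} [Field K] [Field M] [Algebra K M] [LinearOrderedCommGroupWithZero Γ]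
  {v : Valuation M Γ} {t : M}

lemma spl_cst (hA : Ana K v t) {c : K} (h : v (algebraMap K M c) < 1) : c = 0 := by
  by_contra e
  have h1 : v (algebraMap K M c) * v (algebraMap K M c⁻¹) = 1 := by
    rw [← map_mul, ← map_mul, mul_inv_cancel₀ e, map_one, map_one]
  have h2 : v (algebraMap K M c) * v (algebraMap K M c⁻¹) ≤ v (algebraMap K M c) :=
    mul_le_of_le_one_right' (hA.triv _)
  exact absurd (h1 ▸ h2) (not_le.2 h)

lemma spl_cong (hA : Ana K v t) {z : M} {c c' : K} (h : v (z - algebraMap K M c) < 1)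
    (h' : v (z - algebraMap K M c') < 1) : c = c' := by
  have : v (algebraMap K M (c - c')) < 1 := by
    have e : algebraMap K M (c - c') = (z - algebraMap K M c') - (z - algebraMap K M c) := by
      rw [map_sub]
      ring
    rw [e]
    exact v.map_sub_lt h' h
  exact sub_eq_zero.1 (spl_cst hA this)

/-- The residue map. -/
lemma spl_res (hA : Ana K v t) : ∃ r : v.integer →+* K, ∀ (z : M) (c : K),
    splR v.integer.subtype r z c ↔ v (z - algebraMap K M c) < 1 := by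
  choose ρ hρ using fun o : v.integer => hA.res o o.2
  have key : ∀ (o : v.integer) c, v (o - algebraMap K M c) < 1 → ρ o = c := fun o c h =>
    spl_cong hA (hρ o) h
  refine ⟨⟨⟨⟨ρ, key _ _ (by simp)⟩, fun a b => key _ _ ?_⟩, key _ _ (by simp),
    fun a b => key _ _ ?_⟩, fun z c => ⟨?_, fun h => ?_⟩⟩
  · have e : ((a * b : v.integer) : M) - algebraMap K M (ρ a * ρ b) =
        (a - algebraMap K M (ρ a)) * b + algebraMap K M (ρ a) * (b - algebraMap K M (ρ b)) := by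
      rw [map_mul, Subring.coe_mul]
      ring
    rw [e]
    refine v.map_add_lt ?_ ?_ <;> rw [map_mul]
    · exact (mul_le_of_le_one_right' b.2).trans_lt (hρ a)
    · exact (mul_le_of_le_one_left' (hA.triv _)).trans_lt (hρ b)
  · have e : ((a + b : v.integer) : M) - algebraMap K M (ρ a + ρ b) =
        (a - algebraMap K M (ρ a)) + (b - algebraMap K M (ρ b)) := by
      rw [map_add, Subring.coe_add]
      ring
    exact e ▸ v.map_add_lt (hρ a) (hρ b)
  · rintro ⟨o, rfl, rfl⟩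
    exact hρ o
  · have hz : v z ≤ 1 := by
      have e : z = (z - algebraMap K M c) + algebraMap K M c := by ring
      rw [e]
      exact v.map_add_le h.le (hA.triv c)
    exact ⟨⟨z, hz⟩, rfl, key ⟨z, hz⟩ c h⟩

variable {r : v.integer →+* K}

lemma spl_inj : Function.Injective v.integer.subtype := Subtype.val_injective

lemma spl_inv {z : M} {c : K} (h : splR v.integer.subtype r z c) (hz : v z = 1) :
    splR v.integer.subtype r z⁻¹ c⁻¹ ∧ c ≠ 0 := by
  obtain ⟨o, rfl, rfl⟩ := h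
  have h0 : (o : M) ≠ 0 := fun e => by simp [e] at hz
  have h1 : v (o : M)⁻¹ ≤ 1 := by
    rw [map_inv₀]
    exact le_of_eq (by rw [show v (o : M) = 1 from hz, inv_one])
  have h2 : o * ⟨_, h1⟩ = 1 := Subtype.ext (mul_inv_cancel₀ h0)
  have h3 := congrArg r h2
  rw [map_mul, map_one] at h3
  exact ⟨⟨⟨_, h1⟩, rfl, eq_inv_of_mul_eq_one_right h3⟩, left_ne_zero_of_mul_eq_one h3⟩

lemma spl_unit (hr : ∀ z c, splR v.integer.subtype r z c ↔ v (z - algebraMap K M c) < 1)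
    {z : M} {c : K} (h : splR v.integer.subtype r z c) (hc : c ≠ 0) :
    splR v.integer.subtype r z⁻¹ c⁻¹ ∧ z ≠ 0 := by
  have hz : v z = 1 := by
    obtain ⟨o, rfl, e⟩ := id h
    refine le_antisymm o.2 (not_lt.1 fun h1 => hc ?_)
    exact h.uniq spl_inj ((hr _ _).2 (by simpa using h1))
  exact ⟨(spl_inv h hz).1, fun e => by simp [e] at hz⟩

lemma spl_lift {p : M[X]} (h : ∀ i, v (p.coeff i) ≤ 1) : ∃ q, splP v.integer.subtype r p q := by
  obtain ⟨o, ho⟩ := (mem_lifts p).1 ((lifts_iff_coeff_lifts (f := v.integer.subtype) p).2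
    fun i => ⟨⟨_, h i⟩, rfl⟩)
  exact ⟨_, o, ho, rfl⟩

lemma spl_up (hA : Ana K v t)
    (hr : ∀ z c, splR v.integer.subtype r z c ↔ v (z - algebraMap K M c) < 1) (f : K[X]) :
    splP v.integer.subtype r (f.map (algebraMap K M)) f := by
  obtain ⟨q, hq⟩ := spl_lift (r := r) (p := f.map (algebraMap K M)) fun i => by
    rw [coeff_map]
    exact hA.triv _
  have : q = f := by
    ext i
    exact (hq.coeff i).uniq spl_inj ((hr _ _).2 (by simp))
  exact this ▸ hq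

/-- Normalisation of a parameter. -/
lemma spl_norm {f : K[X]} {p : Pen f M} {S : Pt f M} {s0 s1 : M} (h0 : s0 ≠ 0 ∨ s1 ≠ 0)
    (h : p.On s0 s1 S) : ∃ (s0 s1 : M) (σ0 σ1 : K), p.On s0 s1 S ∧ (σ0 ≠ 0 ∨ σ1 ≠ 0) ∧
      splR v.integer.subtype r s0 σ0 ∧ splR v.integer.subtype r s1 σ1 := by
  rcases le_total (v s0) (v s1) with e | e
  · have h1 : s1 ≠ 0 := h0.elim (fun h1 h2 => h1 (by simpa [h2] using e)) id
    have h2 : v (s0 / s1) ≤ 1 := by
      rw [map_div₀]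
      exact div_le_one_of_le₀ e zero_le
    refine ⟨s0 / s1, 1, r ⟨_, h2⟩, 1, ⟨?_, ?_⟩, .inr one_ne_zero, ⟨⟨_, h2⟩, rfl, rfl⟩, spl_one⟩
    · field_simp
      linear_combination h.1
    · field_simp
      linear_combination h.2
  · have h1 : s0 ≠ 0 := h0.elim id fun h1 h2 => h1 (by simpa [h2] using e)
    have h2 : v (s1 / s0) ≤ 1 := by
      rw [map_div₀]
      exact div_le_one_of_le₀ e zero_le
    refine ⟨1, s1 / s0, 1, r ⟨_, h2⟩, ⟨?_, ?_⟩, .inl one_ne_zero, spl_one, ⟨⟨_, h2⟩, rfl, rfl⟩⟩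
    · field_simp
      linear_combination h.1
    · field_simp
      linear_combination h.2

variable {f : K[X]} {p : Pen f M} {pb : Pen f K} {s0 s1 : M} {σ0 σ1 : K}

/-- Reduction of an incidence. -/
lemma spl_on (hu : splP v.integer.subtype r p.u pb.u) (hc : splP v.integer.subtype r p.c pb.c)
    (hw : splP v.integer.subtype r p.w pb.w) (h0 : splR v.integer.subtype r s0 σ0)
    (h1 : splR v.integer.subtype r s1 σ1) {P : Pt f M} {Q : Pt f K} (hP : P.b = 1) (hQ : Q.b = 1)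
    (ha : splR v.integer.subtype r P.a Q.a) (hy : splR v.integer.subtype r P.y Q.y)
    (h : p.On s0 s1 P) : pb.On σ0 σ1 Q := by
  simp only [Pen.On, Pt.ev_aff hP p.du, Pt.ev_aff hP p.dc, Pt.ev_aff hP p.dw, Pt.ev_aff hQ pb.du,
    Pt.ev_aff hQ pb.dc, Pt.ev_aff hQ pb.dw] at h ⊢
  exact ⟨(h0.mul (hy.sub (hc.eval ha))).uniq spl_inj (h.1 ▸ h1.mul (hu.eval ha)),
    (h1.mul (hy.add (hc.eval ha))).uniq spl_inj (h.2 ▸ h0.mul (hw.eval ha))⟩

lemma spl_V (hu : splP v.integer.subtype r p.u pb.u) (hc : splP v.integer.subtype r p.c pb.c)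
    (hw : splP v.integer.subtype r p.w pb.w) (h0 : splR v.integer.subtype r s0 σ0)
    (h1 : splR v.integer.subtype r s1 σ1) :
    splP v.integer.subtype r (p.V s0 s1) (pb.V σ0 σ1) := by
  unfold Pen.V
  rw [sq s0, sq s1, sq σ0, sq σ1]
  exact (((h0.mul h0).C.mul hw).sub (((spl_two.mul h0).mul h1).C.mul hc)).sub
    ((h1.mul h1).C.mul hu)

/-- A root of the cubic form gives a point of the fibre. -/
lemma spl_pt (hf : f.natDegree ≤ 6)
    (hr : ∀ z c, splR v.integer.subtype r z c ↔ v (z - algebraMap K M c) < 1)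
    (hu : splP v.integer.subtype r p.u pb.u) (hc : splP v.integer.subtype r p.c pb.c)
    (hw : splP v.integer.subtype r p.w pb.w) (h0 : splR v.integer.subtype r s0 σ0)
    (h1 : splR v.integer.subtype r s1 σ1) (hσ : σ0 ≠ 0 ∨ σ1 ≠ 0) {x : M} {U : Pt f K}
    (hU : U.b = 1) (ha : splR v.integer.subtype r x U.a) (hx : (p.V s0 s1).eval x = 0)
    (h : pb.On σ0 σ1 U) : ∃ V : Pt f M, V.b = 1 ∧ V.a = x ∧
      splR v.integer.subtype r V.y U.y ∧ p.On s0 s1 V := by
  simp only [Pen.On, Pt.ev_aff hU pb.du, Pt.ev_aff hU pb.dc, Pt.ev_aff hU pb.dw] at h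
  simp only [Pen.V, eval_sub, eval_mul, eval_C] at hx
  have hfx : aeval x f = p.c.eval x ^ 2 + p.u.eval x * p.w.eval x := by
    rw [← eval_map_algebraMap, p.eq]
    simp
  have fin : ∀ y : M, y ^ 2 = aeval x f → splR v.integer.subtype r y U.y →
      s0 * (y - p.c.eval x) = s1 * p.u.eval x → s1 * (y + p.c.eval x) = s0 * p.w.eval x →
      ∃ V : Pt f M, V.b = 1 ∧ V.a = x ∧ splR v.integer.subtype r V.y U.y ∧ p.On s0 s1 V :=
    fun y e hy e1 e2 => ⟨Pt.mkA hf x y e, rfl, rfl, hy, by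
      simp only [Pen.On, Pt.ev_aff (Pt.mkA_b hf x y e) p.du, Pt.ev_aff (Pt.mkA_b hf x y e) p.dc,
        Pt.ev_aff (Pt.mkA_b hf x y e) p.dw]
      exact ⟨e1, e2⟩⟩
  rcases hσ with e | e
  · obtain ⟨hi, hn⟩ := spl_unit hr h0 e
    refine fin (p.c.eval x + s0⁻¹ * (s1 * p.u.eval x)) ?_ ?_ ?_ ?_
    · rw [hfx]
      field_simp
      linear_combination (-p.u.eval x) * hx
    · have : U.y = pb.c.eval U.a + σ0⁻¹ * (σ1 * pb.u.eval U.a) := by
        field_simp
        linear_combination h.1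
      rw [this]
      exact (hc.eval ha).add (hi.mul (h1.mul (hu.eval ha)))
    · field_simp
      ring
    · field_simp
      linear_combination (-1 : M) * hx
  · obtain ⟨hi, hn⟩ := spl_unit hr h1 e
    refine fin (s1⁻¹ * (s0 * p.w.eval x) - p.c.eval x) ?_ ?_ ?_ ?_
    · rw [hfx]
      field_simp
      linear_combination (p.w.eval x) * hx
    · have : U.y = σ1⁻¹ * (σ0 * pb.w.eval U.a) - pb.c.eval U.a := by
        field_simp
        linear_combination h.2
      rw [this]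
      exact (hi.mul (h0.mul (hw.eval ha))).sub (hc.eval ha)
    · field_simp
      linear_combination hx
    · field_simp
      ring

/-- Splitting of a quadratic polynomial with distinct roots in the residue field. -/
lemma spl_quad (hA : Ana K v t) (h2 : (2 : K) ≠ 0)
    (hr : ∀ z c, splR v.integer.subtype r z c ↔ v (z - algebraMap K M c) < 1) {m : M[X]}
    {τ a1 a2 : K} (hτ : τ ≠ 0) (ha : a1 ≠ a2) (hm : m.natDegree ≤ 2)
    (h : splP v.integer.subtype r m (C τ * (X - C a1) * (X - C a2))) :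
    ∃ T x1 x2, T ≠ 0 ∧ m = C T * (X - C x1) * (X - C x2) ∧ splR v.integer.subtype r x1 a1 ∧
      splR v.integer.subtype r x2 a2 := by
  have e : C τ * (X - C a1) * (X - C a2) =
      C τ * X ^ 2 + C (-(τ * (a1 + a2))) * X + C (τ * a1 * a2) := by
    simp only [map_neg, map_mul, map_add]
    ring
  have c2 := h.coeff 2
  have c1 := h.coeff 1
  have c0 := h.coeff 0
  simp only [e, coeff_add, coeff_C_mul, coeff_X_pow, coeff_X, coeff_C] at c0 c1 c2
  norm_num at c0 c1 c2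
  have hm' : m = C (m.coeff 2) * X ^ 2 + C (m.coeff 1) * X + C (m.coeff 0) := by
    conv_lhs => rw [m.as_sum_range_C_mul_X_pow' (Nat.lt_succ_of_le hm)]
    simp only [Finset.sum_range_succ, Finset.sum_range_zero]
    ring
  generalize m.coeff 2 = m2 at c2 hm'
  generalize m.coeff 1 = m1 at c1 hm'
  generalize m.coeff 0 = m0 at c0 hm'
  have hD := (c1.mul c1).sub (((spl_two.mul spl_two).mul c2).mul c0)
  obtain ⟨δ, hδ, hδ'⟩ := hA.sq (m1 * m1 - 2 * 2 * m2 * m0) (τ * (a1 - a2))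
    (mul_ne_zero hτ (sub_ne_zero.2 ha)) ((hr _ _).1 (by convert hD using 1; ring))
  have hd := (hr _ _).2 hδ'
  obtain ⟨hi, hn⟩ := spl_unit hr (spl_two.mul c2) (mul_ne_zero h2 hτ)
  refine ⟨m2, (δ - m1) * (2 * m2)⁻¹, (-δ - m1) * (2 * m2)⁻¹, right_ne_zero_of_mul hn, ?_, ?_, ?_⟩
  · have e1 : m1 = -(m2 * ((δ - m1) * (2 * m2)⁻¹ + (-δ - m1) * (2 * m2)⁻¹)) := by
      have := left_ne_zero_of_mul hn
      have := right_ne_zero_of_mul hn
      field_simp
      ring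
    have e0 : m0 = m2 * ((δ - m1) * (2 * m2)⁻¹) * ((-δ - m1) * (2 * m2)⁻¹) := by
      have := left_ne_zero_of_mul hn
      have := right_ne_zero_of_mul hn
      field_simp
      linear_combination hδ
    generalize (δ - m1) * (2 * m2)⁻¹ = x1 at e0 e1 ⊢
    generalize (-δ - m1) * (2 * m2)⁻¹ = x2 at e0 e1 ⊢
    rw [hm', e0, e1]
    simp only [map_neg, map_mul, map_add]
    ring
  · convert (hd.sub c1).mul hi using 1
    field_simp
    ring
  · convert (hd.neg.sub c1).mul hi using 1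
    field_simp
    ring

end val

theorem p_SPL (hFB : S_FB) (hDD : S_DD) (hNRB : S_NRB) (hPD : S_PD) :
    S_SPL := by
  intro K M Γ G _ _ _ _ _ v t f I hA hG Q1 Q2 Q3 S0 U1 U2 P1 P2 P3 S o1 o2 o3 oS oU1 oU2 hNC hU hcl
    n1 n2 n3 nS
  have hVS : VS v f := ⟨hG, hA.triv⟩
  have hN := (hNRB K M Γ v f hVS).1
  have hM := hFB K M f hG
  obtain ⟨r, hr⟩ := spl_res hA
  obtain ⟨⟨b1, -⟩, a1, y1, ra1, ry1⟩ := hN.ok _ _ n1 o1
  obtain ⟨⟨b2, -⟩, a2, y2, ra2, ry2⟩ := hN.ok _ _ n2 o2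
  obtain ⟨⟨b3, -⟩, a3, y3, ra3, ry3⟩ := hN.ok _ _ n3 o3
  obtain ⟨⟨bS, -⟩, -, -, raS, ryS⟩ := hN.ok _ _ nS oS
  rw [← hr] at ra1 ry1 ra2 ry2 ra3 ry3 raS ryS
  obtain ⟨p, hp, hP⟩ := hPD K M Γ v f hVS P1 P2 P3 (by simp [*])
    (hN.ne _ _ _ _ n2 (hN.io _ _ n1) hNC.1).1 (hN.ne _ _ _ _ n3 (hN.io _ _ n1) hNC.2.1).1
    (hN.ne _ _ _ _ n3 (hN.io _ _ n2) hNC.2.2).1
  obtain ⟨u, hu⟩ := spl_lift (r := r) fun i => (hp i).1
  obtain ⟨c, hc⟩ := spl_lift (r := r) fun i => (hp i).2.1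
  obtain ⟨w, hw⟩ := spl_lift (r := r) fun i => (hp i).2.2
  have hf : f = c ^ 2 + u * w := (spl_up hA hr f).uniq spl_inj (by
    rw [p.eq, sq, sq]
    exact (hc.mul hc).add (hu.mul hw))
  let pb : Pen f K := ⟨u, c, w, (hu.deg spl_inj).trans p.du, (hc.deg spl_inj).trans p.dc,
    (hw.deg spl_inj).trans p.dw, by rw [Algebra.algebraMap_self, Polynomial.map_id]; exact hf⟩
  have hV01 := spl_V (pb := pb) hu hc hw spl_zero spl_one
  have hQ : pb.FibS 0 1 Q1 Q2 Q3 := by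
    obtain ⟨⟨T, -, hT⟩, h1, h2, h3⟩ := hP
    refine ⟨?_, spl_on (pb := pb) hu hc hw spl_zero spl_one b1 o1.1 ra1 ry1 h1,
      spl_on (pb := pb) hu hc hw spl_zero spl_one b2 o2.1 ra2 ry2 h2,
      spl_on (pb := pb) hu hc hw spl_zero spl_one b3 o3.1 ra3 ry3 h3⟩
    rw [Pt.ell_aff b1, Pt.ell_aff b2, Pt.ell_aff b3] at hT
    have hTc : (p.V 0 1).coeff 3 = T := by
      rw [hT, mul_assoc, mul_assoc, coeff_C_mul]
      have hm : ((X - C P1.a) * ((X - C P2.a) * (X - C P3.a))).Monic :=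
        (monic_X_sub_C _).mul ((monic_X_sub_C _).mul (monic_X_sub_C _))
      have hd : ((X - C P1.a) * ((X - C P2.a) * (X - C P3.a))).natDegree = 3 := by
        compute_degree!
      rw [← hd, hm.coeff_natDegree, mul_one]
    have hτ := hV01.coeff 3
    rw [hTc] at hτ
    have e := hV01.uniq spl_inj (hT ▸ ((hτ.C.mul ra1.lin).mul ra2.lin).mul ra3.lin)
    rw [Pt.ell_aff o1.1, Pt.ell_aff o2.1, Pt.ell_aff o3.1]
    refine ⟨_, fun h0 => ?_, e⟩
    rw [h0] at e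
    have hu0 : u = 0 := by simpa [Pen.V, pb] using e
    have hsq : c * c ∣ f := by
      rw [hf, hu0, zero_mul, add_zero, sq]
    have hcu := natDegree_eq_zero_of_isUnit (hG.sep.squarefree c hsq)
    have := hG.deg
    rw [hf, hu0, zero_mul, add_zero, natDegree_pow, hcu] at this
    omega
  have hS0 := (I.fib _ _ _ _ _ _ _ (Pen.Fib.map (Algebra.ofId K M) ⟨_, _, hQ⟩)).2 hcl
  obtain ⟨s0', s1', hs', hS'⟩ := hM.on_ex p S
  obtain ⟨s0, s1, σ0, σ1, hS, hσ, h0, h1⟩ := spl_norm (r := r) hs' hS'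
  have hon := spl_on (pb := pb) hu hc hw h0 h1 bS oS.1 raS ryS hS
  obtain ⟨_, _, hS1⟩ := id hS0
  obtain ⟨⟨T, hT0, hT⟩, -, hU1, hU2⟩ := hM.re _ _ _ (Algebra.ofId K M σ0) (Algebra.ofId K M σ1)
    _ _ _ hS1 (by simpa using hσ) ((Pen.On.map _).2 hon)
  rw [Pen.On.map] at hU1 hU2
  have hne : U1.a ≠ U2.a := fun e => by
    rcases Pt.eq_or_io e (oU1.1.trans oU2.1.symm) with e' | e'
    · exact hU e'
    · exact (hM.nc _ _ _ _ hS0).2.2 (by rw [e']; simp)
  have hV : pb.V σ0 σ1 =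
      C ((pb.V σ0 σ1).coeff 3) * (X - C S0.a) * (X - C U1.a) * (X - C U2.a) ∧
      (pb.V σ0 σ1).coeff 3 ≠ 0 := by
    rw [Pen.map_V, Pt.map_ell, Pt.map_ell, Pt.map_ell, Pt.ell_aff oS.1, Pt.ell_aff oU1.1,
      Pt.ell_aff oU2.1, mul_assoc, mul_assoc, ← Polynomial.map_mul, ← Polynomial.map_mul] at hT
    have hm : ((X - C S0.a) * ((X - C U1.a) * (X - C U2.a))).Monic :=
      (monic_X_sub_C _).mul ((monic_X_sub_C _).mul (monic_X_sub_C _))
    have hd : ((X - C S0.a) * ((X - C U1.a) * (X - C U2.a))).natDegree = 3 := by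
      compute_degree!
    have hTc : (Algebra.ofId K M : K →+* M) ((pb.V σ0 σ1).coeff 3) = T := by
      rw [← coeff_map, hT, coeff_C_mul, coeff_map, ← hd, hm.coeff_natDegree, map_one, mul_one]
    refine ⟨map_injective _ (Algebra.ofId K M : K →+* M).injective ?_, fun e => hT0 ?_⟩
    · rw [hT, mul_assoc, mul_assoc, Polynomial.map_mul (p := C _), map_C, hTc]
    · rw [← hTc, e, map_zero]
  have hroot : (p.V s0 s1).IsRoot S.a := by
    rw [IsRoot, ← Pt.ev_aff bS (p.V_deg s0 s1), Pen.ev_V]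
    linear_combination (-s0) * hS.2 + s1 * hS.1
  have hfac := mul_divByMonic_eq_iff_isRoot.2 hroot
  have hm := (spl_V (pb := pb) hu hc hw h0 h1).div raS
  have hq : pb.V σ0 σ1 /ₘ (X - C S0.a) =
      C ((pb.V σ0 σ1).coeff 3) * (X - C U1.a) * (X - C U2.a) := by
    conv_lhs => rw [hV.1]
    rw [← mul_divByMonic_cancel_left (C ((pb.V σ0 σ1).coeff 3) * (X - C U1.a) * (X - C U2.a))
      (monic_X_sub_C S0.a)]
    congr 1
    ring
  rw [hq] at hm
  obtain ⟨T', x1, x2, hT', hx, r1, r2⟩ := spl_quad hA hG.two hr hV.2 hne (by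
    rw [natDegree_divByMonic _ (monic_X_sub_C _), natDegree_X_sub_C]
    have := p.V_deg s0 s1
    omega) hm
  rw [hx] at hfac
  obtain ⟨V1, c1, rfl, d1, e1⟩ := spl_pt (pb := pb) hG.deg.le hr hu hc hw h0 h1 hσ oU1.1 r1
    (by rw [← hfac]; simp) hU1
  obtain ⟨V2, c2, rfl, d2, e2⟩ := spl_pt (pb := pb) hG.deg.le hr hu hc hw h0 h1 hσ oU2.1 r2
    (by rw [← hfac]; simp) hU2
  refine ⟨V1, V2, hN.of _ _ c1 oU1.1 ((hr _ _).1 r1) ((hr _ _).1 d1),
    hN.of _ _ c2 oU2.1 ((hr _ _).1 r2) ((hr _ _).1 d2),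
    (I.fib p _ _ _ _ _ _ ⟨_, _, hP⟩).1 ⟨s0, s1, ⟨T', hT', ?_⟩, hS, e1, e2⟩⟩
  rw [← hfac, Pt.ell_aff bS, Pt.ell_aff c1, Pt.ell_aff c2]
  ring

end Pool.Agent.P.MP_9344a7_nt.Tor
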