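import Pool.Agent.P.MP_9344a7_nt.Tor.Iface

/-! Step SYM. -/

set_option autoImplicit false
set_option linter.unusedSectionVars false

namespace Pool.Agent.P.MP_9344a7_nt.Tor

open Polynomial WithZero
open Pool.Agent.P.MP_6f117a_ag (Place FF)
open Pool.Agent.P.MP_ab3ecb_nt.Inv (ord Dv dv deg SA LS)
open scoped Classical IntermediateField

lemma sym_chd {L Γ : Type} [Field L] [LinearOrderedCommGroupWithZero Γ] (v : Valuation L Γ)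
    (s0 s1 t0 t1 : L) : chd v s0 s1 t0 t1 = chd v t0 t1 s0 s1 := by
  unfold chd
  rw [mul_comm (max (v s0) (v s1)), ← v.map_neg]
  congr 2
  ring

theorem p_SYM (hRHO : S_RHO) (hCONJ : S_CONJ) (hNP : S_NP) :
    S_SYM := by
  intro k0 L Γ _ _ _ _ v f hv p hp
  have hR := hRHO k0 L Γ v f hv p hp
  have hN := hNP k0 L Γ v f hv p hp
  have key : ∀ s0 s1 t0 t1 X Q1 Q2 Q3, s0 ≠ 0 ∨ s1 ≠ 0 → p.On s0 s1 X →
      p.FibS t0 t1 Q1 Q2 Q3 → d3 v X Q1 Q2 Q3 = chd v t0 t1 s0 s1 := by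
    intro s0 s1 t0 t1 X Q1 Q2 Q3 hs hX hQ
    rw [← hN t0 t1 Q1 Q2 Q3 hQ X, hR.chd t0 t1 s0 s1 X hs hX]
  refine ⟨hCONJ k0 L Γ v f hv p hp, ?_, ?_, ?_, ?_⟩
  · rintro P1 P2 P3 Q1 Q2 Q3 ⟨s0, s1, hP⟩ ⟨t0, t1, hQ⟩
    rw [key s0 s1 t0 t1 P1 _ _ _ hP.ne hP.2.1 hQ, key t0 t1 s0 s1 Q1 _ _ _ hQ.ne hQ.2.1 hP,
      sym_chd]
  · rintro P1 P2 P3 Q1 Q2 Q3 ⟨s0, s1, hP⟩ ⟨t0, t1, hQ⟩
    rw [key s0 s1 t0 t1 P1 _ _ _ hP.ne hP.2.1 hQ, key s0 s1 t0 t1 P2 _ _ _ hP.ne hP.2.2.1 hQ]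
  · rintro P1 P2 P3 X X' ⟨s0, s1, hP⟩
    rw [← hN s0 s1 P1 P2 P3 hP X, ← hN s0 s1 P1 P2 P3 hP X']
    exact hR.lip s0 s1 X X'
  · intro a b X Y1 Y2 Y3 E1 E2 E3 hX hY hE
    rw [key 1 a 0 1 X _ _ _ (.inl one_ne_zero) hX hE,
      key 1 b 0 1 Y1 _ _ _ (.inl one_ne_zero) hY.2.1 hE,
      key 1 a 1 b X _ _ _ (.inl one_ne_zero) hX hY]
    have h1 : ∀ c : L, max (1 : Γ) (v c) ≠ 0 := fun c =>
      (lt_of_lt_of_le zero_lt_one (le_max_left _ _)).ne'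
    have ha := h1 a
    have hb := h1 b
    unfold chd
    simp only [zero_mul, one_mul, mul_one, zero_sub, Valuation.map_neg, map_one, map_zero,
      zero_le_one, max_eq_right]
    field_simp

end Pool.Agent.P.MP_9344a7_nt.Tor
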