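import Pool.Agent.P.MP_9344a7_nt.Tor.Iface2

/-! Step TA. -/

set_option autoImplicit false
set_option linter.unusedSectionVars false

namespace Pool.Agent.P.MP_9344a7_nt.Tor

open Polynomial WithZero
open Pool.Agent.P.MP_6f117a_ag (Place FF)
open Pool.Agent.P.MP_ab3ecb_nt.Inv (ord Dv dv deg SA LS)
open scoped Classical IntermediateField

theorem p_TA (hSIDE : S_SIDE) :
    S_TA := by
  intro C0 F E E' _ _ _ _ _ _ _ _ _ _ C D f g x y x' y' h h' hne ⟨hh, hfin, ψ, B, hB, hW, hP⟩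
  obtain ⟨pl, I, hd, ha, hc, -, ⟨W, w1, w2, w3⟩, -⟩ := hSIDE F E C f x y h
  obtain ⟨pl', I', hd', ha', hc', hr', ⟨W', w1', w2', w3'⟩, -⟩ := hSIDE F E' D g x' y' h'
  have hi : Function.Injective pl := fun P Q e => I.one (Subtype.ext (by rw [hc, hc, e]))
  have key : ∀ P : Pt f F, ∃ Q : Pt g F, pl P ∉ B → ψ (I.cl P) = I'.cl Q := fun P => by
    by_cases e : pl P ∈ B
    · exact ⟨hne.some, fun e' => absurd e e'⟩
    obtain ⟨Q, hQ⟩ := hP _ _ e (hc P)
    obtain ⟨R, rfl⟩ := hr' Q (hQ ▸ (ψ (I.cl P)).2)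
    exact ⟨R, fun _ => Subtype.ext (hQ.trans (hc' R).symm)⟩
  choose φ hφ using key
  refine ⟨⟨h.hyp.gd, h'.hyp.gd, ha, ha', I, I', hd, hd', B.image (Function.extend pl Pt.a 0), φ,
    ψ, ψ.injective, hW _ _ W W' w1 w1' w2 w3 w2' w3', fun P e => hφ P fun e' =>
      e (Finset.mem_image.2 ⟨_, e', hi.extend_apply _ _ _⟩)⟩,
    (Nat.mul_le_mul_right _ Finset.card_image_le).trans hB, ?_⟩
  rcases isEmpty_or_nonempty (Pt f F) with e | ⟨⟨O⟩⟩
  · exact ⟨∅, by simp, fun P => isEmptyElim P⟩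
  have := Fintype.ofFinite {x : C.PicF // HasDeg x.1 0}
  refine ⟨Finset.univ.image fun z : {x : C.PicF // HasDeg x.1 0} => z.1 + 3 • I.cl O,
    Finset.card_image_le.trans ?_, fun P1 P2 P3 => Finset.mem_image.2
      ⟨⟨I.cl P1 + I.cl P2 + I.cl P3 - 3 • I.cl O, Finsupp.single (pl P1) 1 +
        Finsupp.single (pl P2) 1 + Finsupp.single (pl P3) 1 - 3 • Finsupp.single (pl O) 1, ?_, ?_⟩,
        Finset.mem_univ _, sub_add_cancel _ _⟩⟩
  · rwa [Finset.card_univ, ← Nat.card_eq_fintype_card]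
  · rw [← cD_coe, map_sub, map_add, map_add, map_nsmul, cD_single, cD_single, cD_single,
      cD_single, ← hc, ← hc, ← hc, ← hc]
    rfl
  · change deg _ = _
    rw [map_sub, map_add, map_add, map_nsmul]
    simp

end Pool.Agent.P.MP_9344a7_nt.Tor
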