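import Pool.Agent.P.MP_9344a7_nt.Tor.Iface

/-! Step TEL. -/

set_option autoImplicit false
set_option linter.unusedSectionVars false

namespace Pool.Agent.P.MP_9344a7_nt.Tor

open Polynomial WithZero
open Pool.Agent.P.MP_6f117a_ag (Place FF)
open Pool.Agent.P.MP_ab3ecb_nt.Inv (ord Dv dv deg SA LS)
open scoped Classical IntermediateField

lemma tel_sum {F : Type} [AddCommGroup F] {m : ℕ} (g : Fin (m + 1) → F) :
    ∑ j : Fin m, (g j.succ - g j.castSucc) = g (Fin.last m) - g 0 := by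
  have h := (Fin.sum_univ_succ g).symm.trans (Fin.sum_univ_castSucc g)
  rw [Finset.sum_sub_distrib, sub_eq_sub_iff_add_eq_add, add_comm, h, add_comm]

lemma tel_chain {F : Type} [AddCommGroup F] {m : ℕ} (ψ : F → F) (τ : F) (δ ε : Fin m → F)
    (h : ∀ j : Fin m, ψ (τ + Fin.partialSum δ j.castSucc + δ j) -
      ψ (τ + Fin.partialSum δ j.castSucc) = ε j) : ∑ j, ε j = ψ (τ + ∑ j, δ j) - ψ τ := by
  have h1 := tel_sum (Fin.partialSum δ)
  have h2 := tel_sum fun j => ψ (τ + Fin.partialSum δ j)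
  simp only [Fin.partialSum_succ, add_sub_cancel_left, Fin.partialSum_zero, sub_zero, add_zero,
    ← add_assoc, h] at h1 h2
  rw [h2, h1]

theorem p_TEL (hTRB : S_TRB) (hKEY : S_KEY) (hEX : S_EX) :
    S_TEL := by
  intro m
  obtain ⟨C0, p0, hE⟩ := hEX (m + m)
  refine ⟨C0, p0, fun F G G' _ _ _ _ f g T hp hB Q X C C' hQ hX hC hC' hs => ?_⟩
  have tb := hTRB F G G' f g T
  choose R1 R2 hR using hC
  choose R1' R2' hR' using hC'
  obtain ⟨τ, hτ⟩ := hE F hp f T.gf Q (fun _ => X) (Fin.append C C') (Fin.append R1 R1')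
    (Fin.append R2 R2')
    (Fin.append (fun j => Fin.partialSum (fun i => zz Q X - zz Q (C i)) j.castSucc)
      fun j => Fin.partialSum (fun i => zz Q X - zz Q (C' i)) j.castSucc) T.B hB hQ (fun j => by
      refine Fin.addCases (fun j => ?_) (fun j => ?_) j
      · simp only [Fin.append_left]
        exact ⟨(hR j).1, hX, (hR j).2⟩
      · simp only [Fin.append_right]
        exact ⟨(hR' j).1, hX, (hR' j).2⟩)
  obtain ⟨ψ, hψ⟩ : ∃ ψ : F → F, ∀ (s : F) (P : Pt f F), P.a ∉ T.B → (P.a - Q.a) * s = 1 →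
      ψ s = zz (T.φ Q) (T.φ P) := by
    refine ⟨fun s => if h : ∃ P : Pt f F, P.a ∉ T.B ∧ (P.a - Q.a) * s = 1 then
      zz (T.φ Q) (T.φ h.choose) else 0, fun s P h1 h2 => ?_⟩
    have h : ∃ P : Pt f F, P.a ∉ T.B ∧ (P.a - Q.a) * s = 1 := ⟨P, h1, h2⟩
    have h3 : h.choose.a = P.a := sub_left_injective
      (mul_right_cancel₀ (right_ne_zero_of_mul_eq_one h2) (h.choose_spec.2.trans h2.symm))
    simp only [dif_pos h, zz, (tb.a _ _ h.choose_spec.1 h1).2 h3]
  have key : ∀ (D : Pt f F) (γ : F), D.a ∉ T.B → (∃ z, CertZ Q X D γ τ z ∧ ∀ i, z i ∉ T.B) →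
      ψ (τ + γ + (zz Q X - zz Q D)) - ψ (τ + γ) = zz (T.φ Q) (T.φ X) - zz (T.φ Q) (T.φ D) := by
    rintro D γ hD ⟨z, h1, h2⟩
    obtain ⟨Y, B, hY, hB, e1, e2, e3⟩ := hKEY F G G' f g T Q X D γ τ z hQ hX hD h1 h2
    rw [hψ _ Y hY e2, hψ _ B hB e1, e3]
  have a1 := tel_chain ψ τ (fun i => zz Q X - zz Q (C i)) _ fun j =>
    key (C j) _ (hR j).2.1 (by simpa only [Fin.append_left] using hτ (Fin.castAdd m j))
  have a2 := tel_chain ψ τ (fun i => zz Q X - zz Q (C' i)) _ fun j =>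
    key (C' j) _ (hR' j).2.1 (by simpa only [Fin.append_right] using hτ (Fin.natAdd m j))
  simp only [Finset.sum_sub_distrib] at a1 a2
  rw [hs, ← a2] at a1
  exact sub_right_injective a1

end Pool.Agent.P.MP_9344a7_nt.Tor
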