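import Pool.Agent.P.MP_9344a7_nt.Tor.Iface

/-! Step TRB. -/

set_option autoImplicit false
set_option linter.unusedSectionVars false

namespace Pool.Agent.P.MP_9344a7_nt.Tor

open Polynomial WithZero
open Pool.Agent.P.MP_6f117a_ag (Place FF)
open Pool.Agent.P.MP_ab3ecb_nt.Inv (ord Dv dv deg SA LS)
open scoped Classical IntermediateField

theorem p_TRB :
    S_TRB := by
  intro F G G' _ _ _ f g T
  have hio : ∀ P : Pt f F, P.a ∉ T.B → T.φ P.io = (T.φ P).io := by
    intro P hP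
    apply T.I'.one
    have h1 := congrArg T.θ (T.I.conj P)
    rw [map_add, T.cl P hP, T.cl P.io hP, T.K, ← T.I'.conj (T.φ P)] at h1
    exact add_left_cancel h1
  have hinj : ∀ P Q : Pt f F, P.a ∉ T.B → Q.a ∉ T.B → T.φ P = T.φ Q → P = Q := by
    intro P Q hP hQ h
    apply T.I.one
    apply T.inj
    rw [T.cl P hP, T.cl Q hQ, h]
  refine ⟨hio, hinj, ?_, ?_, ?_⟩
  · intro P Q hP hQ
    constructor
    · intro h
      rcases Pt.eq_or_io h ((T.ag _).trans (T.ag _).symm) with e | e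
      · rw [hinj P Q hP hQ e]
      · rw [← hio Q hQ] at e
        rw [hinj P Q.io hP hQ e, Pt.io_a]
    · intro h
      rcases Pt.eq_or_io h ((T.af _).trans (T.af _).symm) with e | e
      · rw [e]
      · rw [e, hio Q hQ, Pt.io_a]
  · intro P hP hok
    refine ⟨T.ag _, fun h => hok.ne_io T.gf.two (hinj P P.io hP hP ?_)⟩
    rw [hio P hP]
    exact Pt.ext rfl rfl (by rw [Pt.io_y, h, neg_zero])
  · intro p p' P1 P2 P3 Q1 Q2 Q3 h1 h2 h3 h4 h5 h6 hP hQ hP'
    have h := congrArg T.θ ((T.I.fib p P1 P2 P3 Q1 Q2 Q3 hP).1 hQ)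
    simp only [map_add, T.cl _ h1, T.cl _ h2, T.cl _ h3, T.cl _ h4, T.cl _ h5, T.cl _ h6] at h
    exact (T.I'.fib p' _ _ _ _ _ _ hP').2 h

end Pool.Agent.P.MP_9344a7_nt.Tor
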