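import Pool.Agent.P.MP_9344a7_nt.Tor.Iface

/-! Step TW. -/

set_option autoImplicit false
set_option linter.unusedSectionVars false

namespace Pool.Agent.P.MP_9344a7_nt.Tor

open Polynomial WithZero
open Pool.Agent.P.MP_6f117a_ag (Place FF)
open Pool.Agent.P.MP_ab3ecb_nt.Inv (ord Dv dv deg SA LS)
open scoped Classical IntermediateField

lemma tw_s12 {k0 L : Type} [Field k0] [Field L] [Algebra k0 L] {f : k0[X]} {P1 P2 P3 : Pt f L}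
    (h : NC3 P1 P2 P3) : NC3 P2 P1 P3 :=
  ⟨fun e => h.1 (Pt.io_eq_comm.1 e.symm).symm, h.2.2, h.2.1⟩

lemma tw_s23 {k0 L : Type} [Field k0] [Field L] [Algebra k0 L] {f : k0[X]} {P1 P2 P3 : Pt f L}
    (h : NC3 P1 P2 P3) : NC3 P1 P3 P2 :=
  ⟨h.2.1, h.1, fun e => h.2.2 (Pt.io_eq_comm.1 e.symm).symm⟩

lemma tw_up {K M : Type} [Field K] [Field M] [Algebra K M] {f : K[X]} {P1 P2 P3 : Pt f K} :
    NC3 (P1.up M) (P2.up M) (P3.up M) ↔ NC3 P1 P2 P3 := by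
  simp only [NC3, ← Pt.map_io, (Pt.map_inj _).ne_iff]

lemma tw_nc (hNC : S_NC) {K M G : Type} [Field K] [Field M] [Algebra K M] [AddCommGroup G]
    {f : K[X]} (hf : Gd f) (I : PicI f M G) {P1 P2 P3 Q1 Q2 Q3 : Pt f K} (h1 : P1.Ok)
    (h2 : P2.Ok) (h3 : P3.Ok) (h : NC3 P1 P2 P3)
    (e : I.cl (Q1.up M) + I.cl (Q2.up M) + I.cl (Q3.up M) =
      I.cl (P1.up M) + I.cl (P2.up M) + I.cl (P3.up M)) : NC3 Q1 Q2 Q3 :=
  tw_up.1 (hNC K M G f hf I _ _ _ _ _ _ ((Pt.ok_map _).2 h1) ((Pt.ok_map _).2 h2)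
    ((Pt.ok_map _).2 h3) (tw_up.2 h) e)

lemma tw_ane {K : Type} [Field K] {f : K[X]} {P Q : Pt f K} (h : P.a ≠ Q.a) : P ≠ Q :=
  fun e => h (congrArg Pt.a e)

theorem p_TW (hNRB : S_NRB) (hNC : S_NC) (hSPL : S_SPL) (hGEN : S_GEN) (hLOOP : S_LOOP) :
    S_TW := by
  intro K M Γ G _ _ _ _ _ v t f I Q X0 C0 Y B κ0 L hB hZ hY hXY hAC
  have N := (hNRB K M Γ v f ⟨L.gd, L.ana.triv⟩).1
  obtain ⟨oQ, oX, oC⟩ := L.ok
  obtain ⟨nQX, nQC, nXC⟩ := L.ne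
  obtain ⟨o1, o2, o3, o4, o5, o6⟩ := L.ok0
  have hcl := L.cl
  have c1 : NC3 X0 Q Q := ⟨tw_ane nQX, tw_ane nQX, oQ.ne_io L.gd.two⟩
  have d1 : NC3 κ0.X κ0.Y κ0.A := tw_nc hNC L.gd I oX oQ oQ c1 hcl
  have c3 : NC3 Q C0 Q := ⟨tw_ane nQC.symm, oQ.ne_io L.gd.two, tw_ane nQC⟩
  have hne : κ0.A ≠ κ0.C := by
    rcases hAC with ⟨h1, h2⟩ | ⟨h1, h2⟩ <;> rw [h1, h2]
    · exact tw_ane nQC
    · exact tw_ane nQC.symm
  have e3 : I.cl (Q.up M) + I.cl (κ0.A.up M) + I.cl (κ0.C.up M) =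
      I.cl (Q.up M) + I.cl (C0.up M) + I.cl (Q.up M) := by
    rcases hAC with ⟨h1, h2⟩ | ⟨h1, h2⟩ <;> rw [h1, h2]
    abel
  have d3 : NC3 Q κ0.A κ0.C := tw_nc hNC L.gd I oQ oC oQ c3 e3
  obtain ⟨V, S, T, nV, nS, nT, ⟨X', A', C', nX, nA, nC, m1, m2⟩, m3⟩ :=
    hLOOP K M Γ G v t f I L.ana L.gd Q κ0.Y Y B
      (fun V S => ∃ X' A' C', Nr v X' κ0.X ∧ Nr v A' κ0.A ∧ Nr v C' κ0.C ∧
        I.cl A' + I.cl X' + I.cl S = I.cl (X0.up M) + I.cl Y + I.cl (Q.up M) ∧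
        I.cl B + I.cl A' + I.cl C' = I.cl (Q.up M) + I.cl (C0.up M) + I.cl V)
      oQ o2 hY L.nY L.nB
      (fun V nV => by
        obtain ⟨A', C', nA, nC, m2⟩ := hSPL K M Γ G v t f I L.ana L.gd Q C0 Q Q κ0.A κ0.C
          (Q.up M) (C0.up M) V B oQ oC oQ oQ o4 o6 c3 hne e3 (N.up _) (N.up _) nV L.nB
        obtain ⟨X', S, nX, nS, m1⟩ := hSPL K M Γ G v t f I L.ana L.gd X0 Q Q κ0.A κ0.X κ0.Y
          (X0.up M) Y (Q.up M) A' oX oQ oQ o4 o1 o2 c1 hXY (by rw [← hcl]; abel) (N.up _) L.nY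
          (N.up _) nA
        exact ⟨S, nS, X', A', C', nX, nA, nC, m1, m2⟩)
      (fun V V' S S' nV nV' nS nS' ⟨X1, A1, C1, nX1, nA1, nC1, m1, m2⟩
          ⟨X2, A2, C2, nX2, nA2, nC2, m1', m2'⟩ => by
        have g1 := (hGEN K M Γ G v t f I L.ana L.gd Q κ0.A κ0.C V' A1 C1 V A2 C2 oQ o4 o6 d3 hne
          nV' nA1 nC1 nV nA2 nC2 (by linear_combination (norm := abel) m2' - m2)).1
        have g2 := (hGEN K M Γ G v t f I L.ana L.gd κ0.A κ0.Y κ0.X A1 S X1 A2 S' X2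
          o4 o2 o1 (tw_s12 (tw_s23 (tw_s12 d1))) hXY.symm nA1 nS nX1 nA2 nS' nX2
          (by linear_combination (norm := abel) m1' - m1)).1
        refine g2.trans (g1.trans_eq ?_)
        rw [N.dist _ _ _ nV' nV oQ, N.dist _ _ _ nV nV' oQ, Valuation.map_sub_swap])
  refine ⟨⟨X', S, T, A', V, C'⟩, ⟨nX, nS, hZ ▸ nT, nA, hB ▸ nV, nC⟩, ?_, ?_, ?_⟩
  · rw [← m1]; abel
  · have k1 := I.conj X'
    have k2 := I.conj (X0.up M)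
    show I.cl X'.io + I.cl T + I.cl C' = _
    linear_combination (norm := abel) k1 - k2 - m1 + m2 + m3
  · rw [← m3]; abel

end Pool.Agent.P.MP_9344a7_nt.Tor
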