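import Pool.Agent.P.MP_9344a7_nt.Tor.Iface

/-! Step TY. -/

set_option autoImplicit false
set_option linter.unusedSectionVars false

namespace Pool.Agent.P.MP_9344a7_nt.Tor

open Polynomial WithZero
open Pool.Agent.P.MP_6f117a_ag (Place FF)
open Pool.Agent.P.MP_ab3ecb_nt.Inv (ord Dv dv deg SA LS)
open scoped Classical IntermediateField

lemma ty_s12 {k0 L : Type} [Field k0] [Field L] [Algebra k0 L] {f : k0[X]} {P1 P2 P3 : Pt f L}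
    (h : NC3 P1 P2 P3) : NC3 P2 P1 P3 :=
  ⟨fun e => h.1 (Pt.io_eq_comm.1 e.symm).symm, h.2.2, h.2.1⟩

lemma ty_s23 {k0 L : Type} [Field k0] [Field L] [Algebra k0 L] {f : k0[X]} {P1 P2 P3 : Pt f L}
    (h : NC3 P1 P2 P3) : NC3 P1 P3 P2 :=
  ⟨h.2.1, h.1, fun e => h.2.2 (Pt.io_eq_comm.1 e.symm).symm⟩

lemma ty_up {K M : Type} [Field K] [Field M] [Algebra K M] {f : K[X]} {P1 P2 P3 : Pt f K} :
    NC3 (P1.up M) (P2.up M) (P3.up M) ↔ NC3 P1 P2 P3 := by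
  simp only [NC3, ← Pt.map_io, (Pt.map_inj _).ne_iff]

lemma ty_nc (hNC : S_NC) {K M G : Type} [Field K] [Field M] [Algebra K M] [AddCommGroup G]
    {f : K[X]} (hf : Gd f) (I : PicI f M G) {P1 P2 P3 Q1 Q2 Q3 : Pt f K} (h1 : P1.Ok)
    (h2 : P2.Ok) (h3 : P3.Ok) (h : NC3 P1 P2 P3)
    (e : I.cl (Q1.up M) + I.cl (Q2.up M) + I.cl (Q3.up M) =
      I.cl (P1.up M) + I.cl (P2.up M) + I.cl (P3.up M)) : NC3 Q1 Q2 Q3 :=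
  ty_up.1 (hNC K M G f hf I _ _ _ _ _ _ ((Pt.ok_map _).2 h1) ((Pt.ok_map _).2 h2)
    ((Pt.ok_map _).2 h3) (ty_up.2 h) e)

lemma ty_ane {K : Type} [Field K] {f : K[X]} {P Q : Pt f K} (h : P.a ≠ Q.a) : P ≠ Q :=
  fun e => h (congrArg Pt.a e)

theorem p_TY (hNRB : S_NRB) (hNC : S_NC) (hSPL : S_SPL) (hGEN : S_GEN) (hLOOP : S_LOOP) :
    S_TY := by
  intro K M Γ G _ _ _ _ _ v t f I Q X0 C0 Y B κ0 L e2 hY hB hZ hXA hZC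
  have N := (hNRB K M Γ v f ⟨L.gd, L.ana.triv⟩).1
  obtain ⟨oQ, oX, oC⟩ := L.ok
  obtain ⟨nQX, nQC, nXC⟩ := L.ne
  obtain ⟨o1, o2, o3, o4, o5, o6⟩ := L.ok0
  have hcl := L.cl
  have c1 : NC3 X0 Q Q := ⟨ty_ane nQX, ty_ane nQX, oQ.ne_io L.gd.two⟩
  have c2 : NC3 X0.io Q.io C0 := ⟨ty_ane nQX, ty_ane nXC.symm, ty_ane nQC.symm⟩
  have e2' : I.cl (κ0.X.io.up M) + I.cl (κ0.Z.up M) + I.cl (κ0.C.up M) =
      I.cl (X0.io.up M) + I.cl (Q.io.up M) + I.cl (C0.up M) := by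
    simpa only [Pt.map_io] using e2
  have d1 : NC3 κ0.X κ0.Y κ0.A := ty_nc hNC L.gd I oX oQ oQ c1 hcl
  have d2 : NC3 κ0.X.io κ0.Z κ0.C := ty_nc hNC L.gd I (Pt.ok_io.2 oX) (Pt.ok_io.2 oQ) oC c2 e2'
  obtain ⟨V, S, T, nV, nS, nT, ⟨X', A', C', nX, nA, nC, m1, m2⟩, m3⟩ :=
    hLOOP K M Γ G v t f I L.ana L.gd Q κ0.Z Y B
      (fun V S => ∃ X' A' C', Nr v X' κ0.X ∧ Nr v A' κ0.A ∧ Nr v C' κ0.C ∧
        I.cl V + I.cl X' + I.cl A' = I.cl (X0.up M) + I.cl Y + I.cl (Q.up M) ∧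
        I.cl X'.io + I.cl S + I.cl C' = I.cl (X0.io.up M) + I.cl (Q.io.up M) + I.cl (C0.up M))
      oQ o3 hZ L.nY L.nB
      (fun V nV => by
        obtain ⟨X', A', nX, nA, m1⟩ := hSPL K M Γ G v t f I L.ana L.gd X0 Q Q Q κ0.X κ0.A
          (X0.up M) Y (Q.up M) V oX oQ oQ oQ o1 o4 c1 hXA
          (by rw [← hcl, hY]; abel) (N.up _) L.nY (N.up _) nV
        obtain ⟨S, C', nS, nC, m2⟩ := hSPL K M Γ G v t f I L.ana L.gd X0.io Q.io C0 κ0.X.io κ0.Z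
          κ0.C _ _ _ X'.io (Pt.ok_io.2 oX) (Pt.ok_io.2 oQ) oC (Pt.ok_io.2 o1) o3 o6 c2 hZC e2'
          (N.up _) (N.up _) (N.up _) (N.io _ _ nX)
        exact ⟨S, nS, X', A', C', nX, nA, nC, m1, m2⟩)
      (fun V V' S S' nV nV' nS nS' ⟨X1, A1, C1, nX1, nA1, nC1, m1, m2⟩
          ⟨X2, A2, C2, nX2, nA2, nC2, m1', m2'⟩ => by
        have g1 := (hGEN K M Γ G v t f I L.ana L.gd Q κ0.X κ0.A V X1 A1 V' X2 A2 oQ o1 o4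
          (hY ▸ ty_s12 d1) hXA nV nX1 nA1 nV' nX2 nA2 (m1'.trans m1.symm)).1
        have g2 := (hGEN K M Γ G v t f I L.ana L.gd κ0.X.io κ0.Z κ0.C X1.io S C1 X2.io S' C2
          (Pt.ok_io.2 o1) o3 o6 d2 hZC (N.io _ _ nX1) nS nC1 (N.io _ _ nX2) nS' nC2
          (m2'.trans m2.symm)).1
        rw [N.dist _ _ _ (N.io _ _ nX1) (N.io _ _ nX2) (Pt.ok_io.2 o1)] at g2
        rw [N.dist _ _ _ nX1 nX2 o1] at g1
        exact g2.trans g1)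
  refine ⟨⟨X', V, S, A', T, C'⟩, ⟨nX, hY ▸ nV, nS, nA, hB ▸ nT, nC⟩, ?_, ?_, ?_⟩
  · rw [← m1]; abel
  · simpa only [Pt.map_io] using m2
  · rw [← m3]; abel

end Pool.Agent.P.MP_9344a7_nt.Tor
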