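import Pool.Agent.P.MP_9344a7_nt.Tor.Iface

/-! Step YB. -/

set_option autoImplicit false
set_option linter.unusedSectionVars false

namespace Pool.Agent.P.MP_9344a7_nt.Tor

open Polynomial WithZero
open Pool.Agent.P.MP_6f117a_ag (Place FF)
open Pool.Agent.P.MP_ab3ecb_nt.Inv (ord Dv dv deg SA LS)
open scoped Classical IntermediateField

lemma yb_pow {M Γ : Type} [Field M] [LinearOrderedCommGroupWithZero Γ] (v : Valuation M Γ)
    {x y : M} (hx : v x ≤ 1) (hy : v y ≤ 1) (n : ℕ) : v (x ^ n - y ^ n) ≤ v (x - y) := by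
  induction n with
  | zero => simp
  | succ n ih =>
    have e : x ^ (n + 1) - y ^ (n + 1) = x * (x ^ n - y ^ n) + y ^ n * (x - y) := by ring
    rw [e]
    refine v.map_add_le ?_ ?_
    · rw [map_mul]
      exact (mul_le_of_le_one_left' hx).trans ih
    · rw [map_mul, map_pow]
      exact mul_le_of_le_one_left' (pow_le_one' hy n)

lemma yb_aeval {K M Γ : Type} [Field K] [Field M] [Algebra K M]
    [LinearOrderedCommGroupWithZero Γ] (v : Valuation M Γ) (ht : ∀ c, v (algebraMap K M c) ≤ 1)
    {x y : M} (hx : v x ≤ 1) (hy : v y ≤ 1) (f : K[X]) :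
    v (aeval x f - aeval y f) ≤ v (x - y) := by
  induction f using Polynomial.induction_on' with
  | add p q hp hq =>
    have e : aeval x (p + q) - aeval y (p + q) =
        (aeval x p - aeval y p) + (aeval x q - aeval y q) := by
      rw [map_add, map_add]
      ring
    rw [e]
    exact v.map_add_le hp hq
  | monomial n c =>
    rw [aeval_monomial, aeval_monomial, ← mul_sub, map_mul]
    exact (mul_le_of_le_one_left' (ht c)).trans (yb_pow v hx hy n)

theorem p_YB (hNRB : S_NRB) (hAL2 : S_AL2) :
    S_YB := by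
  intro K A M Γ _ _ _ _ _ _ _ _ v t f hA hf Q γ hQ
  have an := hA.ana
  have ht0 : t ≠ 0 := fun h => an.ne (by rw [h, map_zero])
  have htw : ∀ c, algebraMap A M (algebraMap K A c) = algebraMap K M c := fun c =>
    (IsScalarTower.algebraMap_apply K A M c).symm
  have hg : v (algebraMap K M γ * algebraMap A M t) < 1 := by
    rw [map_mul]
    exact lt_of_le_of_lt (mul_le_of_le_one_left' (an.triv γ)) an.lt
  have h1 : v (algebraMap A M (1 + algebraMap K A γ * t)) = 1 := by
    rw [map_add, map_one, map_mul, htw]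
    exact v.map_one_add_of_lt hg
  have hd : 1 + algebraMap K A γ * t ≠ 0 := fun h => by
    rw [h, map_zero, map_zero] at h1
    exact zero_ne_one h1
  set a : A := algebraMap K A Q.a + t / (1 + algebraMap K A γ * t) with ha
  have hva : v (algebraMap A M a - algebraMap K M Q.a) < 1 := by
    rw [ha, map_add, htw, add_sub_cancel_left, map_div₀, map_div₀, h1, div_one]
    exact an.lt
  have hva1 : v (algebraMap A M a) ≤ 1 := by
    have := v.map_add_le hva.le (an.triv Q.a)
    rwa [sub_add_cancel] at this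
  have hy : v (aeval (algebraMap A M a) f - algebraMap K M (Q.y ^ 2)) < 1 := by
    rw [Pt.eq_aff hf.deg.le hQ.1, ← aeval_algebraMap_apply]
    exact lt_of_le_of_lt (yb_aeval v an.triv hva1 (an.triv _) f) hva
  obtain ⟨y, hy2, hyv⟩ := an.sq _ _ hQ.2 hy
  obtain ⟨B, hB⟩ := (hAL2 K A M f hf hA.cl).1 (Pt.mkA hf.deg.le (algebraMap A M a) y hy2)
    (isAlgebraic_algebraMap a)
  have hBa : B.a = a := (algebraMap A M).injective (congrArg Pt.a hB)
  have hBb : B.b = 1 := (algebraMap A M).injective (by
    rw [map_one]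
    exact congrArg Pt.b hB)
  have hBy : algebraMap A M B.y = y := congrArg Pt.y hB
  have hVS : VS (v.comap (algebraMap A M)) f := ⟨hf, fun c => by
    rw [Valuation.comap_apply, htw]
    exact an.triv c⟩
  refine ⟨B, (hNRB K A Γ _ f hVS).1.of B Q hBb hQ.1 ?_ ?_, ?_⟩
  · rw [Valuation.comap_apply, map_sub, htw, hBa]
    exact hva
  · rw [Valuation.comap_apply, map_sub, htw, hBy]
    exact hyv
  · rw [hBa, ha, add_sub_cancel_left, div_mul_eq_mul_div, mul_add, mul_inv_cancel₀ ht0,
      mul_comm t, div_self hd]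

end Pool.Agent.P.MP_9344a7_nt.Tor
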