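import Pool.Agent.P.MP_9344a7_nt.Tor.TPTS
import Pool.Agent.P.MP_9344a7_nt.Tor.TTRB
import Pool.Agent.P.MP_9344a7_nt.Tor.TEXF
import Pool.Agent.P.MP_9344a7_nt.Tor.TENG
import Pool.Agent.P.MP_9344a7_nt.Tor.TENA
import Pool.Agent.P.MP_9344a7_nt.Tor.TUP
import Pool.Agent.P.MP_9344a7_nt.Tor.TIRR
import Pool.Agent.P.MP_9344a7_nt.Tor.TREG
import Pool.Agent.P.MP_9344a7_nt.Tor.TPJ
import Pool.Agent.P.MP_9344a7_nt.Tor.TAIR
import Pool.Agent.P.MP_9344a7_nt.Tor.TLWQ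
import Pool.Agent.P.MP_9344a7_nt.Tor.TPAC
import Pool.Agent.P.MP_9344a7_nt.Tor.TMTA
import Pool.Agent.P.MP_9344a7_nt.Tor.TLAU
import Pool.Agent.P.MP_9344a7_nt.Tor.TREB
import Pool.Agent.P.MP_9344a7_nt.Tor.TFB
import Pool.Agent.P.MP_9344a7_nt.Tor.TFC
import Pool.Agent.P.MP_9344a7_nt.Tor.TFFX
import Pool.Agent.P.MP_9344a7_nt.Tor.THF
import Pool.Agent.P.MP_9344a7_nt.Tor.TDA
import Pool.Agent.P.MP_9344a7_nt.Tor.TDD
import Pool.Agent.P.MP_9344a7_nt.Tor.TPL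
import Pool.Agent.P.MP_9344a7_nt.Tor.TRHO
import Pool.Agent.P.MP_9344a7_nt.Tor.TGAU
import Pool.Agent.P.MP_9344a7_nt.Tor.TCONJ
import Pool.Agent.P.MP_9344a7_nt.Tor.TNP
import Pool.Agent.P.MP_9344a7_nt.Tor.TDIV
import Pool.Agent.P.MP_9344a7_nt.Tor.TNAT
import Pool.Agent.P.MP_9344a7_nt.Tor.TLK
import Pool.Agent.P.MP_9344a7_nt.Tor.TPICK
import Pool.Agent.P.MP_9344a7_nt.Tor.TCOM
import Pool.Agent.P.MP_9344a7_nt.Tor.TPIC
import Pool.Agent.P.MP_9344a7_nt.Tor.TDDM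
import Pool.Agent.P.MP_9344a7_nt.Tor.TNRB
import Pool.Agent.P.MP_9344a7_nt.Tor.TPD
import Pool.Agent.P.MP_9344a7_nt.Tor.TPD0
import Pool.Agent.P.MP_9344a7_nt.Tor.TSPL
import Pool.Agent.P.MP_9344a7_nt.Tor.TDER
import Pool.Agent.P.MP_9344a7_nt.Tor.TAL2
import Pool.Agent.P.MP_9344a7_nt.Tor.TYB
import Pool.Agent.P.MP_9344a7_nt.Tor.TNBA
import Pool.Agent.P.MP_9344a7_nt.Tor.TNB
import Pool.Agent.P.MP_9344a7_nt.Tor.TKEY
import Pool.Agent.P.MP_9344a7_nt.Tor.TENC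
import Pool.Agent.P.MP_9344a7_nt.Tor.TLIM
import Pool.Agent.P.MP_9344a7_nt.Tor.TNC
import Pool.Agent.P.MP_9344a7_nt.Tor.TSYM
import Pool.Agent.P.MP_9344a7_nt.Tor.TGEN
import Pool.Agent.P.MP_9344a7_nt.Tor.TLOOP
import Pool.Agent.P.MP_9344a7_nt.Tor.TTY
import Pool.Agent.P.MP_9344a7_nt.Tor.TTZ
import Pool.Agent.P.MP_9344a7_nt.Tor.TTW
import Pool.Agent.P.MP_9344a7_nt.Tor.TLIFT
import Pool.Agent.P.MP_9344a7_nt.Tor.TALG
import Pool.Agent.P.MP_9344a7_nt.Tor.TPRE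
import Pool.Agent.P.MP_9344a7_nt.Tor.TEXA
import Pool.Agent.P.MP_9344a7_nt.Tor.TEX
import Pool.Agent.P.MP_9344a7_nt.Tor.TTEL
import Pool.Agent.P.MP_9344a7_nt.Tor.TFRE
import Pool.Agent.P.MP_9344a7_nt.Tor.TAFF
import Pool.Agent.P.MP_9344a7_nt.Tor.TLIN
import Pool.Agent.P.MP_9344a7_nt.Tor.THUA
import Pool.Agent.P.MP_9344a7_nt.Tor.TMB
import Pool.Agent.P.MP_9344a7_nt.Tor.TCUB
import Pool.Agent.P.MP_9344a7_nt.Tor.TSIX
import Pool.Agent.P.MP_9344a7_nt.Tor.TCNT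
import Pool.Agent.P.MP_9344a7_nt.Tor.TSEX
import Pool.Agent.P.MP_9344a7_nt.Tor.TMOD1
import Pool.Agent.P.MP_9344a7_nt.Tor.TMOD
import Pool.Agent.P.MP_9344a7_nt.Tor.TNUB
import Pool.Agent.P.MP_9344a7_nt.Tor.TISO
import Pool.Agent.P.MP_9344a7_nt.Tor.TPA
import Pool.Agent.P.MP_9344a7_nt.Tor.TEXT
import Pool.Agent.P.MP_9344a7_nt.Tor.TGD
import Pool.Agent.P.MP_9344a7_nt.Tor.TDF
import Pool.Agent.P.MP_9344a7_nt.Tor.TDN
import Pool.Agent.P.MP_9344a7_nt.Tor.TDL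
import Pool.Agent.P.MP_9344a7_nt.Tor.TSL
import Pool.Agent.P.MP_9344a7_nt.Tor.TDS
import Pool.Agent.P.MP_9344a7_nt.Tor.TDU
import Pool.Agent.P.MP_9344a7_nt.Tor.TDE
import Pool.Agent.P.MP_9344a7_nt.Tor.TDET
import Pool.Agent.P.MP_9344a7_nt.Tor.TFRP
import Pool.Agent.P.MP_9344a7_nt.Tor.TSIDE
import Pool.Agent.P.MP_9344a7_nt.Tor.TTA
import Pool.Agent.P.MP_9344a7_nt.Tor.TFIN

namespace Pool.Agent.P.MP_9344a7_nt.Tor

theorem all_PTS : S_PTS := p_PTS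
theorem all_TRB : S_TRB := p_TRB
theorem all_EXF : S_EXF := p_EXF
theorem all_ENG : S_ENG := p_ENG all_EXF
theorem all_ENA : S_ENA := p_ENA all_EXF all_ENG
theorem all_UP : S_UP := p_UP
theorem all_IRR : S_IRR := p_IRR
theorem all_REG : S_REG := p_REG all_IRR
theorem all_PJ : S_PJ := p_PJ
theorem all_AIR : S_AIR := p_AIR all_UP
theorem all_LWQ : S_LWQ := p_LWQ
theorem all_PAC : S_PAC := p_PAC all_UP all_AIR all_LWQ
theorem all_MTA : S_MTA := p_MTA all_UP all_REG all_PJ all_PAC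
theorem all_LAU : S_LAU := p_LAU
theorem all_REB : S_REB := p_REB
theorem all_FB : S_FB := p_FB
theorem all_FC : S_FC := p_FC all_FB
theorem all_FFX : S_FFX := p_FFX
theorem all_HF : S_HF := p_HF
theorem all_DA : S_DA := p_DA
theorem all_DD : S_DD := p_DD all_DA
theorem all_PL : S_PL := p_PL all_HF all_DD
theorem all_RHO : S_RHO := p_RHO all_DD all_FB
theorem all_GAU : S_GAU := p_GAU all_DA
theorem all_CONJ : S_CONJ := p_CONJ all_DD all_RHO all_GAU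
theorem all_NP : S_NP := p_NP all_DD all_RHO all_GAU all_CONJ
theorem all_DIV : S_DIV := p_DIV all_DD all_RHO all_NP
theorem all_NAT : S_NAT := p_NAT
theorem all_LK : S_LK := p_LK all_HF all_DD all_NAT all_DIV
theorem all_PICK : S_PICK := p_PICK all_FB all_FC all_DIV all_LK
theorem all_COM : S_COM := p_COM all_FC
theorem all_PIC : S_PIC := p_PIC all_FFX all_HF all_PL all_PICK all_COM
theorem all_DDM : S_DDM := p_DDM
theorem all_NRB : S_NRB := p_NRB all_DD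
theorem all_PD : S_PD := p_PD all_DD
theorem all_PD0 : S_PD0 := p_PD0 all_DD all_PD
theorem all_SPL : S_SPL := p_SPL all_FB all_DD all_NRB all_PD
theorem all_DER : S_DER := p_DER
theorem all_AL2 : S_AL2 := p_AL2 all_FB
theorem all_YB : S_YB := p_YB all_NRB all_AL2
theorem all_NBA : S_NBA := p_NBA all_FB all_FC all_PIC all_DDM all_NRB all_PD0 all_SPL all_DER all_AL2 all_YB
theorem all_NB : S_NB := p_NB all_ENA all_MTA all_LAU all_REB all_NBA
theorem all_KEY : S_KEY := p_KEY all_FB all_PD0 all_TRB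
theorem all_ENC : S_ENC := p_ENC all_EXF all_ENG
theorem all_LIM : S_LIM := p_LIM
theorem all_NC : S_NC := p_NC all_FB all_PD0
theorem all_SYM : S_SYM := p_SYM all_RHO all_CONJ all_NP
theorem all_GEN : S_GEN := p_GEN all_DD all_NRB all_PD all_SYM
theorem all_LOOP : S_LOOP := p_LOOP all_DD all_NRB all_SPL all_GEN
theorem all_TY : S_TY := p_TY all_NRB all_NC all_SPL all_GEN all_LOOP
theorem all_TZ : S_TZ := p_TZ all_NRB all_NC all_SPL all_GEN all_LOOP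
theorem all_TW : S_TW := p_TW all_NRB all_NC all_SPL all_GEN all_LOOP
theorem all_LIFT : S_LIFT := p_LIFT all_LIM all_TY all_TZ all_TW
theorem all_ALG : S_ALG := p_ALG all_DER all_AL2
theorem all_PRE : S_PRE := p_PRE all_FC all_PIC all_DDM all_NRB all_PD0 all_SPL all_LIM all_LIFT all_AL2 all_ALG
theorem all_EXA : S_EXA := p_EXA all_FB all_NRB all_LIM all_YB all_PRE
theorem all_EX : S_EX := p_EX all_EXF all_ENA all_ENC all_MTA all_LAU all_REB all_EXA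
theorem all_TEL : S_TEL := p_TEL all_TRB all_KEY all_EX
theorem all_FRE : S_FRE := p_FRE
theorem all_AFF : S_AFF := p_AFF all_TRB all_NB all_TEL all_FRE
theorem all_LIN : S_LIN := p_LIN
theorem all_HUA : S_HUA := p_HUA all_LIN
theorem all_MB : S_MB := p_MB all_PTS all_TRB all_AFF all_HUA
theorem all_CUB : S_CUB := p_CUB
theorem all_SIX : S_SIX := p_SIX all_FB all_PD0
theorem all_CNT : S_CNT := p_CNT
theorem all_SEX : S_SEX := p_SEX all_TRB all_CUB all_SIX all_CNT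
theorem all_MOD1 : S_MOD1 := p_MOD1
theorem all_MOD : S_MOD := p_MOD all_PTS all_MOD1
theorem all_NUB : S_NUB := p_NUB all_PTS
theorem all_ISO : S_ISO := p_ISO all_HF
theorem all_PA : S_PA := p_PA
theorem all_EXT : S_EXT := p_EXT
theorem all_GD : S_GD := p_GD all_FB all_FC
theorem all_DF : S_DF := p_DF all_DD all_SYM
theorem all_DN : S_DN := p_DN all_DD all_SYM all_FB
theorem all_DL : S_DL := p_DL all_DD all_SYM all_DN
theorem all_SL : S_SL := p_SL all_DD all_RHO all_GAU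
theorem all_DS : S_DS := p_DS all_DD all_DN all_SL
theorem all_DU : S_DU := p_DU all_DD all_SYM all_DS
theorem all_DE : S_DE := p_DE all_FC all_EXT all_DDM all_GD all_DF all_DL all_DU
theorem all_DET : S_DET := p_DET
theorem all_FRP : S_FRP := p_FRP all_NAT
theorem all_SIDE : S_SIDE := p_SIDE all_HF all_PL all_DIV all_LK all_PICK all_COM all_DE all_DET all_FRP
theorem all_TA : S_TA := p_TA all_SIDE
theorem all_FIN : S_FIN := p_FIN all_MB all_SEX all_MOD all_NUB all_ISO all_PA all_SIDE all_TA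

end Pool.Agent.P.MP_9344a7_nt.Tor
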