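import Pool.Agent.P.MP_9344a7_nt.Defs
import Pool.Agent.P.MP_ab3ecb_nt.Inv.BaseG

/-!
Points, pencils, distances and configurations on the curve `y ^ 2 = f(x)`, `deg f = 6`.
-/

namespace Pool.Agent.P.MP_9344a7_nt.Tor

open Polynomial WithZero
open Pool.Agent.P.MP_6f117a_ag (Place FF)
open Pool.Agent.P.MP_ab3ecb_nt.Inv (ord Dv dv deg SA LS)
open scoped Classical

set_option linter.unusedSectionVars false

/-! ### Homogeneous evaluation -/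

section hev

variable {R S : Type} [CommRing R] [CommRing S]

/-- The value at `(a, b)` of the binary form of degree `n` attached to `p`. -/
noncomputable def hev (n : ℕ) (p : R[X]) (a b : R) : R :=
  ∑ i ∈ Finset.range (n + 1), p.coeff i * a ^ i * b ^ (n - i)

lemma hev_eq (n : ℕ) (p : R[X]) (a b : R) :
    hev n p a b = MvPolynomial.eval ![a, b] (p.homogenize n) := by
  rw [hev, homogenize, map_sum, Finset.Nat.sum_antidiagonal_eq_sum_range_succ_mk]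
  refine Finset.sum_congr rfl fun i _ => ?_
  rw [MvPolynomial.eval_monomial, Finsupp.prod_fintype _ _ (by simp)]
  simp [mul_assoc]

@[simp] lemma hev_zero (n : ℕ) (a b : R) : hev n (0 : R[X]) a b = 0 := by simp [hev]

lemma hev_add (n : ℕ) (p q : R[X]) (a b : R) :
    hev n (p + q) a b = hev n p a b + hev n q a b := by
  simp [hev, add_mul, Finset.sum_add_distrib]

lemma hev_neg (n : ℕ) (p : R[X]) (a b : R) : hev n (-p) a b = -hev n p a b := by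
  simp [hev]

lemma hev_sub (n : ℕ) (p q : R[X]) (a b : R) :
    hev n (p - q) a b = hev n p a b - hev n q a b := by
  rw [sub_eq_add_neg, hev_add, hev_neg, sub_eq_add_neg]

lemma hev_C_mul (n : ℕ) (c : R) (p : R[X]) (a b : R) :
    hev n (C c * p) a b = c * hev n p a b := by
  simp [hev, Finset.mul_sum, mul_assoc]

lemma hev_mul {m n : ℕ} {p q : R[X]} (hp : p.natDegree ≤ m) (hq : q.natDegree ≤ n) (a b : R) :
    hev (m + n) (p * q) a b = hev m p a b * hev n q a b := by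
  rw [hev_eq, hev_eq, hev_eq, homogenize_mul p q hp hq, map_mul]

lemma hev_aff {n : ℕ} {p : R[X]} (hp : p.natDegree ≤ n) (a : R) : hev n p a 1 = p.eval a := by
  rw [hev, eval_eq_sum_range' (Nat.lt_succ_of_le hp)]
  simp

lemma hev_inf (n : ℕ) (p : R[X]) : hev n p 1 0 = p.coeff n := by
  rw [hev, Finset.sum_range_succ, Finset.sum_eq_zero fun i hi => by
    rw [zero_pow (Nat.sub_ne_zero_of_lt (Finset.mem_range.1 hi)), mul_zero]]
  simp

lemma hev_map (φ : R →+* S) (n : ℕ) (p : R[X]) (a b : R) :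
    hev n (p.map φ) (φ a) (φ b) = φ (hev n p a b) := by
  simp [hev]

lemma hev_smul (n : ℕ) (p : R[X]) (t a b : R) :
    hev n p (t * a) (t * b) = t ^ n * hev n p a b := by
  rw [hev, hev, Finset.mul_sum]
  refine Finset.sum_congr rfl fun i hi => ?_
  have : t ^ n = t ^ i * t ^ (n - i) := by
    rw [← pow_add, Nat.add_sub_cancel' (Nat.lt_succ_iff.1 (Finset.mem_range.1 hi))]
  rw [this]
  ring

lemma hev_lin (s t a b : R) : hev 1 (C s * X - C t) a b = s * a - t * b := by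
  simp [hev, Finset.sum_range_succ, coeff_X, coeff_C]
  ring

/-- The transform of a form of degree `n` by a matrix. -/
noncomputable def mob (n : ℕ) (g : R[X]) (α β γ δ : R) : R[X] :=
  hev n (g.map C) (C α * X + C β) (C γ * X + C δ)

end hev

/-! ### Points and pencils -/

section pt

variable {k0 : Type} [Field k0]

/-- A good sextic. -/
structure Gd (f : k0[X]) : Prop where
  sep : f.Separable
  deg : f.natDegree = 6
  two : (2 : k0) ≠ 0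

/-- The points of the smooth projective model with coordinates in `L`. -/
@[ext] structure Pt (f : k0[X]) (L : Type) [Field L] [Algebra k0 L] where
  a : L
  b : L
  y : L
  nf : b = 1 ∨ (b = 0 ∧ a = 1)
  eq : y ^ 2 = hev 6 (f.map (algebraMap k0 L)) a b

/-- A pencil of degree three. -/
structure Pen (f : k0[X]) (L : Type) [Field L] [Algebra k0 L] where
  u : L[X]
  c : L[X]
  w : L[X]
  du : u.natDegree ≤ 3
  dc : c.natDegree ≤ 3
  dw : w.natDegree ≤ 3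
  eq : f.map (algebraMap k0 L) = c ^ 2 + u * w

variable {f : k0[X]} {L L' : Type} [Field L] [Algebra k0 L] [Field L'] [Algebra k0 L']

lemma map_alg (φ : L →ₐ[k0] L') (p : k0[X]) :
    (p.map (algebraMap k0 L)).map (φ : L →+* L') = p.map (algebraMap k0 L') := by
  rw [Polynomial.map_map, φ.comp_algebraMap]

namespace Pt

/-- The hyperelliptic involution. -/
def io (P : Pt f L) : Pt f L := ⟨P.a, P.b, -P.y, P.nf, by rw [neg_sq, P.eq]⟩

/-- Extension of the field of coordinates. -/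
def map (φ : L →ₐ[k0] L') (P : Pt f L) : Pt f L' :=
  ⟨φ P.a, φ P.b, φ P.y, by rcases P.nf with h | ⟨h, h'⟩ <;> simp [*], by
    rw [← map_pow, P.eq, ← map_alg φ]
    exact (hev_map (φ : L →+* L') 6 _ _ _).symm⟩

/-- From the base field. -/
abbrev up (L : Type) [Field L] [Algebra k0 L] (P : Pt f k0) : Pt f L := P.map (Algebra.ofId k0 L)

/-- An affine point. -/
def mkA (hf : f.natDegree ≤ 6) (x y : L) (h : y ^ 2 = aeval x f) : Pt f L :=
  ⟨x, 1, y, .inl rfl, by rw [hev_aff (natDegree_map_le.trans hf), eval_map_algebraMap, h]⟩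

/-- The linear form that vanishes at the point. -/
noncomputable def ell (P : Pt f L) : L[X] := C P.b * X - C P.a

/-- The value of a cubic form. -/
noncomputable def ev (P : Pt f L) (p : L[X]) : L := hev 3 p P.a P.b

/-- Affine and not a Weierstrass point. -/
def Ok (P : Pt f L) : Prop := P.b = 1 ∧ P.y ≠ 0

@[simp] lemma io_a (P : Pt f L) : P.io.a = P.a := rfl
@[simp] lemma io_b (P : Pt f L) : P.io.b = P.b := rfl
@[simp] lemma io_y (P : Pt f L) : P.io.y = -P.y := rfl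
@[simp] lemma io_io (P : Pt f L) : P.io.io = P := Pt.ext rfl rfl (neg_neg _)
@[simp] lemma io_ell (P : Pt f L) : P.io.ell = P.ell := rfl
@[simp] lemma io_ev (P : Pt f L) (p : L[X]) : P.io.ev p = P.ev p := rfl
@[simp] lemma map_a (φ : L →ₐ[k0] L') (P : Pt f L) : (P.map φ).a = φ P.a := rfl
@[simp] lemma map_b (φ : L →ₐ[k0] L') (P : Pt f L) : (P.map φ).b = φ P.b := rfl
@[simp] lemma map_y (φ : L →ₐ[k0] L') (P : Pt f L) : (P.map φ).y = φ P.y := rfl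
@[simp] lemma mkA_a (hf : f.natDegree ≤ 6) (x y : L) (h) : (mkA hf x y h).a = x := rfl
@[simp] lemma mkA_b (hf : f.natDegree ≤ 6) (x y : L) (h) : (mkA hf x y h).b = 1 := rfl
@[simp] lemma mkA_y (hf : f.natDegree ≤ 6) (x y : L) (h) : (mkA hf x y h).y = y := rfl

lemma io_inj {P Q : Pt f L} : P.io = Q.io ↔ P = Q :=
  ⟨fun h => by simpa using congrArg io h, fun h => h ▸ rfl⟩

lemma io_eq_comm {P Q : Pt f L} : P.io = Q ↔ Q.io = P :=
  ⟨fun h => by rw [← h, io_io], fun h => by rw [← h, io_io]⟩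

@[simp] lemma map_io (φ : L →ₐ[k0] L') (P : Pt f L) : P.io.map φ = (P.map φ).io :=
  Pt.ext rfl rfl (map_neg φ _)

lemma map_inj (φ : L →ₐ[k0] L') : Function.Injective (map φ : Pt f L → Pt f L') := fun _ _ h =>
  Pt.ext (φ.injective (congrArg a h)) (φ.injective (congrArg b h)) (φ.injective (congrArg y h))

lemma map_map {L'' : Type} [Field L''] [Algebra k0 L''] (φ : L →ₐ[k0] L') (ψ : L' →ₐ[k0] L'')
    (P : Pt f L) : (P.map φ).map ψ = P.map (ψ.comp φ) := rfl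

@[simp] lemma map_up (φ : L →ₐ[k0] L') (P : Pt f k0) : (P.up L).map φ = P.up L' :=
  Pt.ext (φ.commutes _) (φ.commutes _) (φ.commutes _)

lemma map_ell (φ : L →ₐ[k0] L') (P : Pt f L) : (P.map φ).ell = P.ell.map (φ : L →+* L') := by
  simp [ell]

lemma map_ev (φ : L →ₐ[k0] L') (P : Pt f L) (p : L[X]) :
    (P.map φ).ev (p.map (φ : L →+* L')) = φ (P.ev p) := hev_map (φ : L →+* L') 3 p _ _

@[simp] lemma ok_io {P : Pt f L} : P.io.Ok ↔ P.Ok := by simp [Ok]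

@[simp] lemma ok_map (φ : L →ₐ[k0] L') {P : Pt f L} : (P.map φ).Ok ↔ P.Ok :=
  and_congr (map_eq_one_iff φ φ.injective) (_root_.map_ne_zero φ)

lemma ell_deg (P : Pt f L) : P.ell.natDegree ≤ 1 := by
  unfold ell
  compute_degree

lemma ell_aff {P : Pt f L} (h : P.b = 1) : P.ell = X - C P.a := by simp [ell, h]

lemma ell_ne (P : Pt f L) : P.ell ≠ 0 := by
  rcases P.nf with h | ⟨h, h'⟩
  · rw [ell_aff h]
    exact X_sub_C_ne_zero _
  · simp [ell, h, h']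

lemma ev_aff {P : Pt f L} (h : P.b = 1) {p : L[X]} (hp : p.natDegree ≤ 3) :
    P.ev p = p.eval P.a := by rw [ev, h, hev_aff hp]

lemma eq_aff (hf : f.natDegree ≤ 6) {P : Pt f L} (h : P.b = 1) : P.y ^ 2 = aeval P.a f := by
  rw [P.eq, h, hev_aff (natDegree_map_le.trans hf), eval_map_algebraMap]

/-- Points with the same abscissa are equal or conjugate. -/
lemma eq_or_io {P Q : Pt f L} (ha : P.a = Q.a) (hb : P.b = Q.b) : P = Q ∨ P = Q.io := by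
  have : P.y ^ 2 = Q.y ^ 2 := by rw [P.eq, Q.eq, ha, hb]
  exact (sq_eq_sq_iff_eq_or_eq_neg.1 this).imp (Pt.ext ha hb) (Pt.ext ha hb)

lemma Ok.ne_io (h2 : (2 : k0) ≠ 0) {P : Pt f L} (h : P.Ok) : P ≠ P.io := fun e => by
  have h1 : (2 : L) * P.y = 0 := by
    have h0 : P.y = -P.y := congrArg y e
    linear_combination h0
  have h3 : (2 : L) ≠ 0 := by
    rw [← map_ofNat (algebraMap k0 L) 2]
    exact (_root_.map_ne_zero _).2 h2
  exact h.2 ((mul_eq_zero.1 h1).resolve_left h3)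

end Pt

/-- The bracket of two points. -/
def br (P Q : Pt f L) : L := P.a * Q.b - Q.a * P.b

lemma hev_ell (P Q : Pt f L) : hev 1 Q.ell P.a P.b = br P Q := by
  rw [Pt.ell, hev_lin, br, mul_comm]

lemma ev_ell (P Q1 Q2 Q3 : Pt f L) (t : L) :
    P.ev (C t * Q1.ell * Q2.ell * Q3.ell) = t * br P Q1 * br P Q2 * br P Q3 := by
  have h : (Q1.ell * Q2.ell).natDegree ≤ 1 + 1 :=
    natDegree_mul_le.trans (add_le_add Q1.ell_deg Q2.ell_deg)
  rw [mul_assoc (C t), mul_assoc (C t), Pt.ev, hev_C_mul, show 3 = 1 + 1 + 1 from rfl,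
    hev_mul h Q3.ell_deg, hev_mul Q1.ell_deg Q2.ell_deg, hev_ell, hev_ell, hev_ell]
  ring

/-- No two of the three points are conjugate. -/
def NC3 (P1 P2 P3 : Pt f L) : Prop := P2 ≠ P1.io ∧ P3 ≠ P1.io ∧ P3 ≠ P2.io

/-- The coordinate with its pole at `Q`. -/
def zz (Q P : Pt f L) : L := (P.a - Q.a)⁻¹

namespace Pen

/-- Extension of the field of coefficients. -/
noncomputable def map (φ : L →ₐ[k0] L') (p : Pen f L) : Pen f L' :=
  ⟨p.u.map (φ : L →+* L'), p.c.map (φ : L →+* L'), p.w.map (φ : L →+* L'),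
    natDegree_map_le.trans p.du, natDegree_map_le.trans p.dc, natDegree_map_le.trans p.dw, by
      rw [← map_alg φ, p.eq]
      simp⟩

/-- The cubic form that cuts out the fibre at `(s0 : s1)`. -/
noncomputable def V (p : Pen f L) (s0 s1 : L) : L[X] :=
  C (s0 ^ 2) * p.w - C (2 * s0 * s1) * p.c - C (s1 ^ 2) * p.u

/-- The point lies on the fibre at `(s0 : s1)`. -/
def On (p : Pen f L) (s0 s1 : L) (P : Pt f L) : Prop :=
  s0 * (P.y - P.ev p.c) = s1 * P.ev p.u ∧ s1 * (P.y + P.ev p.c) = s0 * P.ev p.w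

/-- The fibre at `(s0 : s1)` is `P1 + P2 + P3`. -/
def FibS (p : Pen f L) (s0 s1 : L) (P1 P2 P3 : Pt f L) : Prop :=
  (∃ t, t ≠ 0 ∧ p.V s0 s1 = C t * P1.ell * P2.ell * P3.ell) ∧
    p.On s0 s1 P1 ∧ p.On s0 s1 P2 ∧ p.On s0 s1 P3

/-- `P1 + P2 + P3` is a fibre. -/
def Fib (p : Pen f L) (P1 P2 P3 : Pt f L) : Prop := ∃ s0 s1, p.FibS s0 s1 P1 P2 P3

lemma V_deg (p : Pen f L) (s0 s1 : L) : (p.V s0 s1).natDegree ≤ 3 :=
  (natDegree_sub_le _ _).trans (max_le ((natDegree_sub_le _ _).trans (max_le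
    ((natDegree_C_mul_le _ _).trans p.dw) ((natDegree_C_mul_le _ _).trans p.dc)))
    ((natDegree_C_mul_le _ _).trans p.du))

lemma ev_V (p : Pen f L) (s0 s1 : L) (P : Pt f L) : P.ev (p.V s0 s1) =
    s0 ^ 2 * P.ev p.w - 2 * s0 * s1 * P.ev p.c - s1 ^ 2 * P.ev p.u := by
  simp only [V, Pt.ev, hev_sub, hev_C_mul]

lemma ev_eq (p : Pen f L) (P : Pt f L) : P.y ^ 2 = P.ev p.c ^ 2 + P.ev p.u * P.ev p.w := by
  rw [P.eq, p.eq, hev_add, sq p.c, show 6 = 3 + 3 from rfl, hev_mul p.dc p.dc, hev_mul p.du p.dw,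
    sq]
  rfl

variable {p : Pen f L} {s0 s1 : L} {P1 P2 P3 : Pt f L}

lemma FibS.ne (h : p.FibS s0 s1 P1 P2 P3) : s0 ≠ 0 ∨ s1 ≠ 0 := by
  by_contra e
  obtain ⟨rfl, rfl⟩ : s0 = 0 ∧ s1 = 0 := by simpa [not_or] using e
  obtain ⟨t, h0, h1⟩ := h.1
  have : C t * P1.ell * P2.ell * P3.ell ≠ 0 :=
    mul_ne_zero (mul_ne_zero (mul_ne_zero (C_ne_zero.2 h0) P1.ell_ne) P2.ell_ne) P3.ell_ne
  exact this (by rw [← h1]; simp [V])

lemma FibS.s12 (h : p.FibS s0 s1 P1 P2 P3) : p.FibS s0 s1 P2 P1 P3 :=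
  ⟨h.1.imp fun _ h => ⟨h.1, by rw [h.2]; ring⟩, h.2.2.1, h.2.1, h.2.2.2⟩

lemma FibS.s23 (h : p.FibS s0 s1 P1 P2 P3) : p.FibS s0 s1 P1 P3 P2 :=
  ⟨h.1.imp fun _ h => ⟨h.1, by rw [h.2]; ring⟩, h.2.1, h.2.2.2, h.2.2.1⟩

lemma Fib.s12 (h : p.Fib P1 P2 P3) : p.Fib P2 P1 P3 := let ⟨_, _, h⟩ := h; ⟨_, _, h.s12⟩

lemma Fib.s23 (h : p.Fib P1 P2 P3) : p.Fib P1 P3 P2 := let ⟨_, _, h⟩ := h; ⟨_, _, h.s23⟩

lemma Fib.rot (h : p.Fib P1 P2 P3) : p.Fib P2 P3 P1 := h.s12.s23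

lemma On.map (φ : L →ₐ[k0] L') {P : Pt f L} :
    (p.map φ).On (φ s0) (φ s1) (P.map φ) ↔ p.On s0 s1 P := by
  simp only [On, Pen.map, Pt.map_ev, Pt.map_y, ← map_sub, ← map_add, ← map_mul]
  exact and_congr φ.injective.eq_iff φ.injective.eq_iff

lemma map_V (φ : L →ₐ[k0] L') (p : Pen f L) (s0 s1 : L) :
    (p.map φ).V (φ s0) (φ s1) = (p.V s0 s1).map (φ : L →+* L') := by
  simp [V, Pen.map, map_ofNat]

lemma FibS.map (φ : L →ₐ[k0] L') (h : p.FibS s0 s1 P1 P2 P3) :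
    (p.map φ).FibS (φ s0) (φ s1) (P1.map φ) (P2.map φ) (P3.map φ) := by
  obtain ⟨⟨t, h0, h1⟩, h2, h3, h4⟩ := h
  exact ⟨⟨φ t, (map_ne_zero φ).2 h0, by simp [map_V, h1, Pt.map_ell]⟩, (On.map φ).2 h2,
    (On.map φ).2 h3, (On.map φ).2 h4⟩

lemma Fib.map (φ : L →ₐ[k0] L') (h : p.Fib P1 P2 P3) :
    (p.map φ).Fib (P1.map φ) (P2.map φ) (P3.map φ) := let ⟨_, _, h⟩ := h; ⟨_, _, h.map φ⟩

end Pen

/-- The basic properties of fibres. -/
structure FB (f : k0[X]) (L : Type) [Field L] [Algebra k0 L] : Prop where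
  on_ex : ∀ (p : Pen f L) P, ∃ s0 s1, (s0 ≠ 0 ∨ s1 ≠ 0) ∧ p.On s0 s1 P
  on_uniq : ∀ (p : Pen f L) P s0 s1 t0 t1, p.On s0 s1 P → p.On t0 t1 P → s0 * t1 = s1 * t0
  re : ∀ (p : Pen f L) s0 s1 t0 t1 P1 P2 P3, p.FibS s0 s1 P1 P2 P3 → t0 ≠ 0 ∨ t1 ≠ 0 →
    p.On t0 t1 P1 → p.FibS t0 t1 P1 P2 P3
  nc : ∀ (p : Pen f L) P1 P2 P3, p.Fib P1 P2 P3 → NC3 P1 P2 P3
  mem : ∀ (p : Pen f L) s0 s1 P1 P2 P3 Q, p.FibS s0 s1 P1 P2 P3 → p.On s0 s1 Q →
    Q = P1 ∨ Q = P2 ∨ Q = P3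
  uniq : ∀ (p : Pen f L) P Q1 Q2 R1 R2, p.Fib P Q1 Q2 → p.Fib P R1 R2 →
    (Q1 = R1 ∧ Q2 = R2) ∨ (Q1 = R2 ∧ Q2 = R1)

/-- Existence and descent of fibres. -/
structure FC (f : k0[X]) (L : Type) [Field L] [Algebra k0 L] : Prop where
  thru : (∀ z : L, IsSquare z) → ∀ (p : Pen f L) P, ∃ Q1 Q2, p.Fib P Q1 Q2
  full : IsAlgClosed L → ∀ (p : Pen f L) s0 s1, s0 ≠ 0 ∨ s1 ≠ 0 →
    ∃ P1 P2 P3, p.FibS s0 s1 P1 P2 P3
  refl : ∀ (L' : Type) [Field L'] [Algebra k0 L'] (φ : L →ₐ[k0] L') (p : Pen f L) P1 P2 P3,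
    (p.map φ).Fib (P1.map φ) (P2.map φ) (P3.map φ) → p.Fib P1 P2 P3

/-- Change of the base field. -/
def Pt.reb {g : L[X]} (h : g = f.map (algebraMap k0 L)) (P : Pt f L) : Pt g L :=
  ⟨P.a, P.b, P.y, P.nf, by rw [P.eq, h, Algebra.algebraMap_self, Polynomial.map_id]⟩

/-! ### Valued fields -/

section val

variable {Γ : Type} [LinearOrderedCommGroupWithZero Γ] (v : Valuation L Γ)

/-- The size of the homogeneous coordinates. -/
noncomputable def nm (P : Pt f L) : Γ := max (v P.a) (v P.b)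

/-- The distance of two points. -/
noncomputable def dd (P Q : Pt f L) : Γ :=
  max (v (br P Q) / (nm v P * nm v Q))
    (max (v (P.y * Q.b ^ 3 - Q.y * P.b ^ 3)) (v (P.y * Q.a ^ 3 - Q.y * P.a ^ 3)) /
      (nm v P * nm v Q) ^ 3)

/-- The product of the distances to three points. -/
noncomputable def d3 (X P1 P2 P3 : Pt f L) : Γ := dd v X P1 * dd v X P2 * dd v X P3

/-- The distance of the image of `X` in the projective line to `(s0 : s1)`. -/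
noncomputable def rho (p : Pen f L) (s0 s1 : L) (X : Pt f L) : Γ :=
  max (v (s0 * (X.y - X.ev p.c) - s1 * X.ev p.u)) (v (s0 * X.ev p.w - s1 * (X.y + X.ev p.c))) /
    (max (v s0) (v s1) * nm v X ^ 3)

/-- The chordal distance. -/
noncomputable def chd (s0 s1 t0 t1 : L) : Γ :=
  v (s0 * t1 - s1 * t0) / (max (v s0) (v s1) * max (v t0) (v t1))

/-- Integral coefficients. -/
def Pen.Int (p : Pen f L) : Prop :=
  ∀ i, v (p.u.coeff i) ≤ 1 ∧ v (p.c.coeff i) ≤ 1 ∧ v (p.w.coeff i) ≤ 1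

/-- A good sextic over a field on which the valuation is trivial. -/
structure VS (f : k0[X]) : Prop where
  gd : Gd f
  triv : ∀ c, v (algebraMap k0 L c) ≤ 1

/-- The distance is an ultrametric. -/
structure DA (f : k0[X]) : Prop where
  nm_ne : ∀ P : Pt f L, nm v P ≠ 0
  y_le : ∀ P : Pt f L, v P.y ≤ nm v P ^ 3
  le : ∀ P Q : Pt f L, dd v P Q ≤ 1
  symm : ∀ P Q : Pt f L, dd v P Q = dd v Q P
  zero : ∀ P Q : Pt f L, dd v P Q = 0 ↔ P = Q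
  io : ∀ P Q : Pt f L, dd v P.io Q.io = dd v P Q
  tri : ∀ P Q R : Pt f L, dd v P R ≤ max (dd v P Q) (dd v Q R)
  self : ∀ P : Pt f L, dd v P P.io = v P.y / nm v P ^ 3

/-- The basic properties of the distance. -/
structure DD (f : k0[X]) : Prop extends DA v f where
  aff : ∀ P Q : Pt f L, P.b = 1 → Q.b = 1 → v P.a ≤ 1 → v Q.a ≤ 1 →
    dd v P Q = max (v (P.a - Q.a)) (v (P.y - Q.y))
  near : ∀ P Q : Pt f L, Q.b = 1 → v Q.a ≤ 1 → dd v P Q < 1 → P.b = 1 ∧ v P.a ≤ 1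
  small : ∀ P : Pt f L, v P.y < nm v P ^ 3 →
    P.b = 1 ∧ v P.a ≤ 1 ∧ v (aeval P.a (derivative f)) = 1
  cst : ∀ (k : Type) [Field k] [Algebra k0 k] (φ : k →ₐ[k0] L), (∀ c, v (φ c) ≤ 1) →
    ∀ P Q : Pt f k, P ≠ Q → dd v (P.map φ) (Q.map φ) = 1
  br : ∀ P Q : Pt f L, v (br P Q) = dd v P Q * dd v P Q.io * (nm v P * nm v Q)

/-- The basic properties of `rho`. -/
structure RH (p : Pen f L) : Prop where
  lip : ∀ s0 s1 X X', rho v p s0 s1 X ≤ max (rho v p s0 s1 X') (dd v X X')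
  zero : ∀ s0 s1 X, p.On s0 s1 X → rho v p s0 s1 X = 0
  chd : ∀ s0 s1 t0 t1 X, t0 ≠ 0 ∨ t1 ≠ 0 → p.On t0 t1 X → rho v p s0 s1 X = chd v s0 s1 t0 t1
  mul : ∀ s0 s1 X, rho v p s0 s1 X * rho v p s0 s1 X.io =
    v (X.ev (p.V s0 s1)) / (max (v s0) (v s1) ^ 2 * nm v X ^ 3)
  io : ∀ s0 s1 X, s0 ≠ 0 ∨ s1 ≠ 0 → p.On s0 s1 X → rho v p s0 s1 X.io = dd v X X.io
  le : ∀ s0 s1 X, rho v p s0 s1 X ≤ 1

/-- Distances between the fibres of an integral pencil. -/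
structure NPs (p : Pen f L) : Prop where
  conj : ∀ P1 P2 P3, p.Fib P1 P2 P3 → dd v P1 P2.io = 1
  sym : ∀ P1 P2 P3 Q1 Q2 Q3, p.Fib P1 P2 P3 → p.Fib Q1 Q2 Q3 →
    d3 v P1 Q1 Q2 Q3 = d3 v Q1 P1 P2 P3
  same : ∀ P1 P2 P3 Q1 Q2 Q3, p.Fib P1 P2 P3 → p.Fib Q1 Q2 Q3 →
    d3 v P1 Q1 Q2 Q3 = d3 v P2 Q1 Q2 Q3
  lip : ∀ P1 P2 P3 X X', p.Fib P1 P2 P3 →
    d3 v X P1 P2 P3 ≤ max (d3 v X' P1 P2 P3) (dd v X X')
  tau : ∀ a b X Y1 Y2 Y3 E1 E2 E3, p.On 1 a X → p.FibS 1 b Y1 Y2 Y3 → p.FibS 0 1 E1 E2 E3 →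
    v (a - b) * d3 v X E1 E2 E3 * d3 v Y1 E1 E2 E3 = d3 v X Y1 Y2 Y3

/-- The point is near a point of the base field. -/
def Nr (P : Pt f L) (Q : Pt f k0) : Prop := dd v P (Q.up L) < 1

/-- The basic properties of nearness. -/
structure NB (f : k0[X]) : Prop where
  up : ∀ Q : Pt f k0, Nr v (Q.up L) Q
  io : ∀ (P : Pt f L) Q, Nr v P Q → Nr v P.io Q.io
  ne : ∀ (P P' : Pt f L) Q Q', Nr v P Q → Nr v P' Q' → Q ≠ Q' → dd v P P' = 1 ∧ P ≠ P'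
  lt : ∀ (P P' : Pt f L) Q, Nr v P Q → Nr v P' Q → dd v P P' < 1
  ok : ∀ (P : Pt f L) Q, Nr v P Q → Q.Ok → P.Ok ∧ v P.a ≤ 1 ∧ v P.y = 1 ∧
    v (P.a - algebraMap k0 L Q.a) < 1 ∧ v (P.y - algebraMap k0 L Q.y) < 1
  of : ∀ (P : Pt f L) (Q : Pt f k0), P.b = 1 → Q.b = 1 → v (P.a - algebraMap k0 L Q.a) < 1 →
    v (P.y - algebraMap k0 L Q.y) < 1 → Nr v P Q
  ane : ∀ (P P' : Pt f L) Q Q', Nr v P Q → Nr v P' Q' → Q.Ok → Q'.Ok → Q.a ≠ Q'.a →
    v (P.a - P'.a) = 1 ∧ P.a ≠ P'.a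
  dist : ∀ (P P' : Pt f L) Q, Nr v P Q → Nr v P' Q → Q.Ok → dd v P P' = v (P.a - P'.a)

end val

/-! ### Configurations -/

/-- Six points. -/
@[ext] structure Cfg (f : k0[X]) (L : Type) [Field L] [Algebra k0 L] where
  X : Pt f L
  Y : Pt f L
  Z : Pt f L
  A : Pt f L
  B : Pt f L
  C : Pt f L

namespace Cfg

variable (κ : Cfg f L)

/-- The six points as a family. -/
def pt : Fin 6 → Pt f L := ![κ.X, κ.Y, κ.Z, κ.A, κ.B, κ.C]

/-- A map applied to the six points. -/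
def ap {k1 : Type} [Field k1] {g : k1[X]} {M : Type} [Field M] [Algebra k1 M]
    (φ : Pt f L → Pt g M) : Cfg g M := ⟨φ κ.X, φ κ.Y, φ κ.Z, φ κ.A, φ κ.B, φ κ.C⟩

/-- Extension of the field of coordinates. -/
abbrev map (φ : L →ₐ[k0] L') : Cfg f L' := κ.ap (Pt.map φ)

/-- The configuration lies over three pencils. -/
def In (p1 p2 p3 : Pen f L) : Prop :=
  p1.Fib κ.X κ.Y κ.A ∧ p2.Fib κ.X.io κ.Z κ.C ∧ p3.Fib κ.Y κ.Z κ.B

/-- The Jacobian determinant. -/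
def J : L := (κ.X.a - κ.A.a) * (κ.Y.a - κ.B.a) * (κ.Z.a - κ.C.a) -
  (κ.X.a - κ.C.a) * (κ.Y.a - κ.A.a) * (κ.Z.a - κ.B.a)

/-- All points are affine and not Weierstrass points. -/
def Ok : Prop := κ.X.Ok ∧ κ.Y.Ok ∧ κ.Z.Ok ∧ κ.A.Ok ∧ κ.B.Ok ∧ κ.C.Ok

/-- Non-degenerate. -/
def Nd : Prop := κ.Ok ∧ (κ.X.a ≠ κ.Y.a ∧ κ.X.a ≠ κ.A.a ∧ κ.Y.a ≠ κ.A.a) ∧
  (κ.X.a ≠ κ.Z.a ∧ κ.X.a ≠ κ.C.a ∧ κ.Z.a ≠ κ.C.a) ∧
  (κ.Y.a ≠ κ.Z.a ∧ κ.Y.a ≠ κ.B.a ∧ κ.Z.a ≠ κ.B.a)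

/-- Unramified. -/
def Ur : Prop := κ.X.io ≠ κ.C ∧ κ.Y ≠ κ.B

/-- Clean: no other point of the fibre has the same `Z`. -/
def Cl (p1 : Pen f L) (U1 U2 : Pt f L) : Prop :=
  p1.Fib κ.B U1 U2 ∧ κ.B ≠ κ.X ∧ κ.B ≠ κ.A ∧ κ.C.io ≠ κ.Y ∧ κ.C.io ≠ κ.A ∧ κ.C.io ≠ κ.B ∧
    κ.C.io ≠ U1 ∧ κ.C.io ≠ U2

/-- All six points are near those of a configuration of the base field. -/
def Nr {Γ : Type} [LinearOrderedCommGroupWithZero Γ] (v : Valuation L Γ) (κ0 : Cfg f k0) : Prop :=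
  Tor.Nr v κ.X κ0.X ∧ Tor.Nr v κ.Y κ0.Y ∧ Tor.Nr v κ.Z κ0.Z ∧
    Tor.Nr v κ.A κ0.A ∧ Tor.Nr v κ.B κ0.B ∧ Tor.Nr v κ.C κ0.C

end Cfg

/-- Eleven distinct points of one fibre. -/
structure Fam (κ0 : Cfg f L) (κs : Fin 10 → Cfg f L) (p1 p2 p3 : Pen f L) : Prop where
  in0 : κ0.In p1 p2 p3
  nd : κ0.Nd
  ins : ∀ j, (κs j).In p1 p2 p3
  ur : ∀ j, (κs j).Ur
  ne : ∀ j, (κs j).Z ≠ κ0.Z
  inj : ∀ i j, (κs i).X = (κs j).X → (κs i).Y = (κs j).Y → (κs i).Z = (κs j).Z → i = j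

/-- The classes of points in a group of divisor classes. -/
structure PicI (f : k0[X]) (L : Type) [Field L] [Algebra k0 L] (G : Type) [AddCommGroup G] where
  cl : Pt f L → G
  K : G
  conj : ∀ P, cl P + cl P.io = K
  one : Function.Injective cl
  two : ∀ P1 P2 Q1 Q2, cl P1 + cl P2 = cl Q1 + cl Q2 →
    (P1 = Q1 ∧ P2 = Q2) ∨ (P1 = Q2 ∧ P2 = Q1) ∨ (P2 = P1.io ∧ Q2 = Q1.io)
  fib : ∀ (p : Pen f L) P1 P2 P3 Q1 Q2 Q3, p.Fib P1 P2 P3 →
    (p.Fib Q1 Q2 Q3 ↔ cl Q1 + cl Q2 + cl Q3 = cl P1 + cl P2 + cl P3)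

variable {G : Type} [AddCommGroup G]

/-- The relation between classes that detects the double point. -/
def PicI.Rel (I : PicI f L G) (κ0 : Cfg f L) (κs : Fin 10 → Cfg f L) : Prop :=
  2 • I.cl κ0.Z + ∑ j, I.cl (κs j).Z + 3 • I.K =
    3 • (I.cl κ0.X.io + I.cl κ0.Z + I.cl κ0.C) + 3 • (I.cl κ0.Y + I.cl κ0.Z + I.cl κ0.B)

/-- The configuration lies over three classes. -/
def PicI.In (I : PicI f L G) (κ : Cfg f L) (d1 d2 d3 : G) : Prop :=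
  I.cl κ.X + I.cl κ.Y + I.cl κ.A = d1 ∧ I.cl κ.X.io + I.cl κ.Z + I.cl κ.C = d2 ∧
    I.cl κ.Y + I.cl κ.Z + I.cl κ.B = d3

/-- The detection lemma. -/
structure PicI.Det (I : PicI f L G) : Prop where
  dc : ∀ κ0 κs p1 p2 p3, Fam κ0 κs p1 p2 p3 → κ0.J = 0 →
    (∃ j U1 U2, (κs j).Nd ∧ (κs j).J ≠ 0 ∧ (κs j).Cl p1 U1 U2) → I.Rel κ0 κs
  dd : ∀ κ0 κs p1 p2 p3 U1 U2, Fam κ0 κs p1 p2 p3 → κ0.Cl p1 U1 U2 → I.Rel κ0 κs → κ0.J = 0

/-- The divisor of the `Z`-coordinates of a fibre. -/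
def PicI.DE (I : PicI f L G) : Prop :=
  ∀ (p1 p2 p3 : Pen f L) (κ : Cfg f L) (U1 U2 : Pt f L), κ.In p1 p2 p3 → κ.Nd → κ.J ≠ 0 →
    κ.Cl p1 U1 U2 → ∃ D : Pt f L →₀ ℤ, 0 ≤ D ∧ (D.sum fun _ n => n) = 12 ∧
      (D.sum fun P n => n • I.cl P) + 3 • I.K =
        3 • (I.cl κ.X.io + I.cl κ.Z + I.cl κ.C) + 3 • (I.cl κ.Y + I.cl κ.Z + I.cl κ.B) ∧
      D κ.Z = 1 ∧ (∀ κ' : Cfg f L, κ'.In p1 p2 p3 → κ'.Nd → κ'.J = 0 → 2 ≤ D κ'.Z) ∧
      ∀ (Z0 : Pt f L) (s : Finset (Fin 10)) (κs : Fin 10 → Cfg f L),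
        (∀ j ∈ s, (κs j).In p1 p2 p3 ∧ (κs j).Ur ∧ (κs j).Z = Z0) →
        (∀ i ∈ s, ∀ j ∈ s, (κs i).X = (κs j).X → (κs i).Y = (κs j).Y → i = j) →
        (s.card : ℤ) ≤ D Z0

/-- The ten limit points. -/
def lim (Q X C R1 R2 : Pt f L) : Fin 10 → Cfg f L :=
  ![⟨X, Q, C, Q, C.io, Q.io⟩, ⟨Q, Q, X.io, X, X, C⟩, ⟨Q, Q, C, X, C.io, X.io⟩,
    ⟨R1, C, Q, R2, C.io, R2.io⟩, ⟨R1, R2, Q, C, R2.io, R2.io⟩, ⟨R2, C, Q, R1, C.io, R1.io⟩,
    ⟨R2, R1, Q, C, R1.io, R1.io⟩, ⟨Q, X, X.io, Q, Q, C⟩, ⟨R1, R2, R2.io, C, Q, Q⟩,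
    ⟨R2, R1, R1.io, C, Q, Q⟩]

/-- Admissible data. -/
structure Adm (Q X C R1 R2 : Pt f L) : Prop where
  ok : Q.Ok ∧ X.Ok ∧ C.Ok ∧ R1.Ok ∧ R2.Ok
  ne : Function.Injective ![Q.a, X.a, C.a, R1.a, R2.a]
  fib : ∃ p : Pen f L, p.Fib Q Q X ∧ p.Fib C R1 R2

/-- A certificate. The family `z` lists the abscissas of the points that must be transported. -/
def CertZ (Q X C : Pt f L) (γ τ : L) (z : Fin 4 ⊕ Fin 10 × Fin 6 → L) : Prop :=
  ∃ (Y B U1 U2 W1 W2 : Pt f L) (p1 p2 p3 : Pen f L) (κs : Fin 10 → Cfg f L),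
    Fam ⟨X, Y, Q.io, Q, B, C⟩ κs p1 p2 p3 ∧ Cfg.J ⟨X, Y, Q.io, Q, B, C⟩ = 0 ∧
    Cfg.Cl ⟨X, Y, Q.io, Q, B, C⟩ p1 U1 U2 ∧ (κs 8).Nd ∧ (κs 8).J ≠ 0 ∧ (κs 8).Cl p1 W1 W2 ∧
    (B.a - Q.a) * (τ + γ) = 1 ∧ (U1.b = 1 ∧ U2.b = 1 ∧ W1.b = 1 ∧ W2.b = 1) ∧
    (∀ j i, ((κs j).pt i).b = 1) ∧
    z = Sum.elim ![Y.a, B.a, U1.a, U2.a] fun i => ((κs i.1).pt i.2).a

end pt

/-! ### Places -/

section place

variable {k0 : Type} [Field k0] {f : k0[X]} (k : Type) {E : Type} [Field k] [Field E]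
  [Algebra k0 k] [Algebra k E] [Algebra k0 E] [IsScalarTower k0 k E]

/-- `E = k(x, y)` is the function field of the curve. -/
structure Hyp (f : k0[X]) (x y : E) : Prop where
  gd : Gd f
  tr : Transcendental k x
  eq : y ^ 2 = aeval x f
  gen : IntermediateField.adjoin k {x, y} = ⊤

variable {k} {x y : E}

/-- The generic point. -/
def Hyp.Z (h : Hyp k f x y) : Pt f E := Pt.mkA h.gd.deg.le x y h.eq

/-- The bijection between points and places. -/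
def IsPl (h : Hyp k f x y) (pl : Pt f k ≃ Place k E) : Prop :=
  ∀ Z0 P : Pt f k, dd (pl Z0).v h.Z (P.map (IsScalarTower.toAlgHom k0 k E)) =
    if P = Z0 then exp (-1) else 1

/-- The divisor of a point. -/
noncomputable abbrev pd (pl : Pt f k ≃ Place k E) (P : Pt f k) : Dv k E := Finsupp.single (pl P) 1

end place

/-! ### The generic fibre point -/

section gen

variable {k0 : Type} [Field k0] {f : k0[X]} {k M : Type} [Field k] [Field M] [Algebra k0 k]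
  [Algebra k0 M]

/-- The constant points needed to describe the poles. -/
structure CstD (p1 p2 p3 : Pen f k) where
  e1 : Fin 3 → Pt f k
  e3 : Fin 3 → Pt f k
  t21 : Fin 3 → Fin 2 → Pt f k
  t31 : Fin 3 → Fin 2 → Pt f k
  t23 : Fin 3 → Fin 2 → Pt f k
  he1 : p1.FibS 0 1 (e1 0) (e1 1) (e1 2)
  he3 : p3.FibS 0 1 (e3 0) (e3 1) (e3 2)
  h21 : ∀ i, p2.Fib (e1 i).io (t21 i 0) (t21 i 1)
  h31 : ∀ i, p3.Fib (e1 i) (t31 i 0) (t31 i 1)
  h23 : ∀ i, p2.Fib (e3 i).io (t23 i 0) (t23 i 1)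

/-- How often `Z0` occurs in a family. -/
noncomputable def cnt {ι : Type} [Fintype ι] (t : ι → Pt f k) (Z0 : Pt f k) : ℕ :=
  ∑ i, if t i = Z0 then 1 else 0

/-- The points attached to `Z`. -/
structure GenD (φ : k →ₐ[k0] M) (p1 p2 p3 : Pen f k) (Z : Pt f M) where
  Xs : Fin 2 → Pt f M
  Ys : Fin 2 → Pt f M
  Us : Fin 2 → Fin 2 → Pt f M
  a : Fin 2 → M
  b : Fin 2 → M
  c : Fin 2 → M
  c0 : M
  hX : (p2.map φ).Fib Z (Xs 0).io (Xs 1).io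
  hY : (p3.map φ).FibS 1 c0 Z (Ys 0) (Ys 1)
  hU : ∀ j, (p1.map φ).FibS 1 (b j) (Ys j) (Us j 0) (Us j 1)
  ha : ∀ i, (p1.map φ).On 1 (a i) (Xs i)
  hc : ∀ i, (p3.map φ).On 1 (c i) (Xs i)

variable {φ : k →ₐ[k0] M} {p1 p2 p3 : Pen f k} {Z : Pt f M}
  {Γ : Type} [LinearOrderedCommGroupWithZero Γ]

/-- The first function. -/
def GenD.G (g : GenD φ p1 p2 p3 Z) : M := ∏ i, ∏ j, (g.a i - g.b j)

/-- The second function. -/
def GenD.H (g : GenD φ p1 p2 p3 Z) : M := ∏ i, (g.c i - g.c0)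

/-- The local intersection number, written multiplicatively. -/
noncomputable def GenD.Pr (g : GenD φ p1 p2 p3 Z) (v : Valuation M Γ) : Γ :=
  ∏ i, ∏ j, ∏ l, dd v (g.Xs i) (g.Us j l)

/-- A valuation above the place of `Z0`, with uniformizer of size `ϖ`. -/
structure Abv (v : Valuation M Γ) (φ : k →ₐ[k0] M) (Z : Pt f M) (Z0 : Pt f k) (ϖ : Γ) : Prop where
  gd : Gd f
  triv : ∀ c, v (φ c) ≤ 1
  ne : ϖ ≠ 0
  lt : ϖ < 1
  dZ : ∀ P : Pt f k, dd v Z (P.map φ) = if P = Z0 then ϖ else 1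

end gen

/-! ### Complete discretely valued fields -/

/-- What is used of the field of Laurent series. -/
structure Ana (K : Type) {M Γ : Type} [Field K] [Field M] [Algebra K M]
    [LinearOrderedCommGroupWithZero Γ] (v : Valuation M Γ) (t : M) : Prop where
  triv : ∀ c, v (algebraMap K M c) ≤ 1
  ne : t ≠ 0
  lt : v t < 1
  disc : ∀ z, v z < 1 → v z ≤ v t
  res : ∀ z, v z ≤ 1 → ∃ c, v (z - algebraMap K M c) < 1
  ban : ∀ (z0 : M) (Ψ : M → M), (∀ z, v (z - z0) < 1 → v (Ψ z - z0) < 1) →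
    (∀ z z', v (z - z0) < 1 → v (z' - z0) < 1 → v (Ψ z - Ψ z') ≤ v t * v (z - z')) →
    ∃ z, v (z - z0) < 1 ∧ Ψ z = z
  sq : ∀ (z : M) (c : K), c ≠ 0 → v (z - algebraMap K M (c ^ 2)) < 1 →
    ∃ y, y ^ 2 = z ∧ v (y - algebraMap K M c) < 1
  cst : ∀ (z : M) (c : K), IsAlgebraic K z → v (z - algebraMap K M c) < 1 → z = algebraMap K M c

/-- The common hypotheses of the lifting lemmas. -/
structure LS0 {K M Γ G : Type} [Field K] [Field M] [Algebra K M]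
    [LinearOrderedCommGroupWithZero Γ] [AddCommGroup G] (v : Valuation M Γ) (t : M) {f : K[X]}
    (I : PicI f M G) (Q X C : Pt f K) (Y B : Pt f M) (κ0 : Cfg f K) : Prop where
  ana : Ana K v t
  gd : Gd f
  ok : Q.Ok ∧ X.Ok ∧ C.Ok
  ne : Q.a ≠ X.a ∧ Q.a ≠ C.a ∧ X.a ≠ C.a
  nY : Nr v Y Q
  nB : Nr v B Q
  ok0 : κ0.Ok
  cl : I.cl (κ0.X.up M) + I.cl (κ0.Y.up M) + I.cl (κ0.A.up M) =
    I.cl (X.up M) + I.cl (Q.up M) + I.cl (Q.up M)

/-- The limit point lifts to a point of the fibre. -/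
def Lifts {K M Γ G : Type} [Field K] [Field M] [Algebra K M] [LinearOrderedCommGroupWithZero Γ]
    [AddCommGroup G] (v : Valuation M Γ) {f : K[X]} (I : PicI f M G) (Q X C : Pt f K)
    (Y B : Pt f M) (κ0 : Cfg f K) : Prop :=
  ∃ κ : Cfg f M, κ.Nr v κ0 ∧ I.In κ (I.cl (X.up M) + I.cl Y + I.cl (Q.up M))
    (I.cl (X.up M).io + I.cl (Q.up M).io + I.cl (C.up M)) (I.cl Y + I.cl (Q.up M).io + I.cl B)

/-- A subfield `A` that contains the variable and is algebraically closed in `M`. -/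
structure AA (K : Type) {A M Γ : Type} [Field K] [Field A] [Field M] [Algebra K M] [Algebra A M]
    [LinearOrderedCommGroupWithZero Γ] (v : Valuation M Γ) (t : A) : Prop where
  ana : Ana K v (algebraMap A M t)
  cl : ∀ z : M, IsAlgebraic A z → ∃ a, algebraMap A M a = z

/-- The lifted configuration, with coordinates in `A` and the valuation `w` of `A`. -/
structure Pre {K A Γ : Type} [Field K] [Field A] [Algebra K A] [LinearOrderedCommGroupWithZero Γ]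
    (w : Valuation A Γ) {f : K[X]} (Q X C R1 R2 : Pt f K) (Y B U1 U2 W1 W2 : Pt f A)
    (p1 p2 p3 : Pen f A) (κs : Fin 10 → Cfg f A) : Prop where
  in0 : Cfg.In ⟨X.up A, Y, (Q.up A).io, Q.up A, B, C.up A⟩ p1 p2 p3
  ins : ∀ j, (κs j).In p1 p2 p3
  nr : ∀ j, (κs j).Nr w (lim Q X C R1 R2 j)
  fU : p1.Fib B U1 U2
  fW : p1.Fib (κs 8).B W1 W2
  nU : Nr w U1 X ∧ Nr w U2 Q ∧ Nr w W1 X ∧ Nr w W2 Q

/-- The variable of the field of Laurent series. -/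
noncomputable def tL (K : Type) [Field K] : LaurentSeries K := HahnSeries.single 1 1

/-- The field of algebraic Laurent series. -/
noncomputable def ALf (K : Type) [Field K] : IntermediateField K (LaurentSeries K) :=
  (algebraicClosure (IntermediateField.adjoin K {tL K}) (LaurentSeries K)).restrictScalars K

/-- The algebraic Laurent series. -/
abbrev AL (K : Type) [Field K] : Type := ALf K

lemma mem_ALf {K : Type} [Field K] {z : LaurentSeries K} :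
    z ∈ ALf K ↔ IsAlgebraic (IntermediateField.adjoin K {tL K}) z :=
  (IntermediateField.mem_restrictScalars K).trans mem_algebraicClosure_iff

/-- The variable, as an algebraic Laurent series. -/
noncomputable def tA (K : Type) [Field K] : AL K :=
  ⟨tL K, mem_ALf.2 (isAlgebraic_algebraMap (IntermediateField.AdjoinSimple.gen K (tL K)))⟩

/-! ### Existential formulas -/

/-- A property of tuples in all fields. -/
abbrev Prd (ι : Type) : Type 1 := ∀ (L : Type) [Field L], (ι → L) → Prop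

/-- Existentially definable properties. -/
def ExF {ι : Type} (S : Prd ι) : Prop :=
  ∃ (κ μ : Type) (_ : Finite κ) (_ : Finite μ) (p : μ → MvPolynomial (ι ⊕ κ) ℤ),
    ∀ (L : Type) [Field L] (x : ι → L), S L x ↔
      ∃ z : κ → L, ∀ j, MvPolynomial.aeval (Sum.elim x z) (p j) = 0

/-- Terms. -/
def Tm {ι : Type} (e : ∀ (L : Type) [Field L], (ι → L) → L) : Prop :=
  ∃ p : MvPolynomial ι ℤ, ∀ (L : Type) [Field L] (x : ι → L), e L x = MvPolynomial.aeval x p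

/-- Polynomials whose coefficients are terms. -/
def TmP {ι : Type} (e : ∀ (L : Type) [Field L], (ι → L) → L[X]) : Prop :=
  ∃ p : (MvPolynomial ι ℤ)[X], ∀ (L : Type) [Field L] (x : ι → L),
    e L x = p.map (MvPolynomial.aeval x : MvPolynomial ι ℤ →ₐ[ℤ] L)

/-- The polynomial with given coefficients. -/
noncomputable def pol {R : Type} [CommRing R] {n : ℕ} (c : Fin n → R) : R[X] :=
  ∑ i, C (c i) * X ^ (i : ℕ)

lemma pol_coeff {R : Type} [CommRing R] {n : ℕ} {p : R[X]} (h : p.natDegree < n) :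
    pol (fun i : Fin n => p.coeff i) = p := by
  rw [pol, Fin.sum_univ_eq_sum_range (fun i => C (p.coeff i) * X ^ i) n]
  exact (p.as_sum_range_C_mul_X_pow' h).symm

lemma pol_map {R S : Type} [CommRing R] [CommRing S] {n : ℕ} (φ : R →+* S) (c : Fin n → R) :
    (pol c).map φ = pol (φ ∘ c) := by simp [pol, Polynomial.map_sum]

lemma pol_deg {R : Type} [CommRing R] {n : ℕ} (c : Fin (n + 1) → R) : (pol c).natDegree ≤ n :=
  natDegree_sum_le_of_forall_le _ _ fun i _ =>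
    (natDegree_C_mul_X_pow_le _ _).trans (Nat.lt_succ_iff.1 i.2)

/-- The closure properties of terms and of existential formulas. -/
structure ExC : Prop where
  var : ∀ {ι : Type} (i : ι), Tm fun _ _ x => x i
  int : ∀ {ι : Type} (n : ℤ), Tm (ι := ι) fun L _ _ => (n : L)
  add : ∀ {ι : Type} {e e' : ∀ (L : Type) [Field L], (ι → L) → L}, Tm e → Tm e' →
    Tm fun L _ x => e L x + e' L x
  sub : ∀ {ι : Type} {e e' : ∀ (L : Type) [Field L], (ι → L) → L}, Tm e → Tm e' →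
    Tm fun L _ x => e L x - e' L x
  mul : ∀ {ι : Type} {e e' : ∀ (L : Type) [Field L], (ι → L) → L}, Tm e → Tm e' →
    Tm fun L _ x => e L x * e' L x
  neg : ∀ {ι : Type} {e : ∀ (L : Type) [Field L], (ι → L) → L}, Tm e → Tm fun L _ x => -e L x
  pow : ∀ {ι : Type} {e : ∀ (L : Type) [Field L], (ι → L) → L} (n : ℕ), Tm e →
    Tm fun L _ x => e L x ^ n
  eval : ∀ {ι : Type} {p : ∀ (L : Type) [Field L], (ι → L) → L[X]}
    {e : ∀ (L : Type) [Field L], (ι → L) → L}, TmP p → Tm e → Tm fun L _ x => (p L x).eval (e L x)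
  pC : ∀ {ι : Type} {e : ∀ (L : Type) [Field L], (ι → L) → L}, Tm e → TmP fun L _ x => C (e L x)
  pX : ∀ {ι : Type}, TmP (ι := ι) fun _ _ _ => X
  padd : ∀ {ι : Type} {p q : ∀ (L : Type) [Field L], (ι → L) → L[X]}, TmP p → TmP q →
    TmP fun L _ x => p L x + q L x
  psub : ∀ {ι : Type} {p q : ∀ (L : Type) [Field L], (ι → L) → L[X]}, TmP p → TmP q →
    TmP fun L _ x => p L x - q L x
  pmul : ∀ {ι : Type} {p q : ∀ (L : Type) [Field L], (ι → L) → L[X]}, TmP p → TmP q →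
    TmP fun L _ x => p L x * q L x
  ppow : ∀ {ι : Type} {p : ∀ (L : Type) [Field L], (ι → L) → L[X]} (n : ℕ), TmP p →
    TmP fun L _ x => p L x ^ n
  pder : ∀ {ι : Type} {p : ∀ (L : Type) [Field L], (ι → L) → L[X]}, TmP p →
    TmP fun L _ x => derivative (p L x)
  ppol : ∀ {ι : Type} {n : ℕ} {e : ∀ (L : Type) [Field L], (ι → L) → Fin n → L},
    (∀ i, Tm fun L _ x => e L x i) → TmP fun L _ x => pol (e L x)
  eq : ∀ {ι : Type} {e e' : ∀ (L : Type) [Field L], (ι → L) → L}, Tm e → Tm e' →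
    ExF fun L _ x => e L x = e' L x
  ne : ∀ {ι : Type} {e e' : ∀ (L : Type) [Field L], (ι → L) → L}, Tm e → Tm e' →
    ExF fun L _ x => e L x ≠ e' L x
  peq : ∀ {ι : Type} {p q : ∀ (L : Type) [Field L], (ι → L) → L[X]}, TmP p → TmP q →
    ExF fun L _ x => p L x = q L x
  and : ∀ {ι : Type} {S S' : Prd ι}, ExF S → ExF S' → ExF fun L _ x => S L x ∧ S' L x
  or : ∀ {ι : Type} {S S' : Prd ι}, ExF S → ExF S' → ExF fun L _ x => S L x ∨ S' L x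
  all : ∀ {ι μ : Type} [Finite μ] {S : μ → Prd ι}, (∀ j, ExF (S j)) →
    ExF fun L _ x => ∀ j, S j L x
  imp : ∀ {ι : Type} {S : Prd ι} (c : Prop), (c → ExF S) → ExF fun L _ x => c → S L x
  ex : ∀ {ι κ : Type} [Finite κ] {S : Prd (ι ⊕ κ)}, ExF S →
    ExF fun L _ (x : ι → L) => ∃ z : κ → L, S L (Sum.elim x z)
  sub' : ∀ {ι κ : Type} {S : Prd κ} {e : ∀ (L : Type) [Field L], (ι → L) → κ → L}, ExF S →
    (∀ j, Tm fun L _ x => e L x j) → ExF fun L _ x => S L (e L x)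
  iff : ∀ {ι : Type} {S S' : Prd ι}, ExF S → (∀ (L : Type) [Field L] (x : ι → L), S' L x ↔ S L x) →
    ExF S'

/-- A fibre of affine points, in coordinates. -/
def RFib {L : Type} [Field L] (u c w : L[X]) (a y : Fin 3 → L) : Prop :=
  ∃ s0 s1 t, t ≠ 0 ∧ C (s0 ^ 2) * w - C (2 * s0 * s1) * c - C (s1 ^ 2) * u =
    C t * (X - C (a 0)) * (X - C (a 1)) * (X - C (a 2)) ∧
    ∀ i, s0 * (y i - c.eval (a i)) = s1 * u.eval (a i) ∧
      s1 * (y i + c.eval (a i)) = s0 * w.eval (a i)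

lemma fib_iff {k0 : Type} [Field k0] {f : k0[X]} {L : Type} [Field L] [Algebra k0 L] (p : Pen f L)
    {P1 P2 P3 : Pt f L} (h1 : P1.b = 1) (h2 : P2.b = 1) (h3 : P3.b = 1) :
    p.Fib P1 P2 P3 ↔ RFib p.u p.c p.w ![P1.a, P2.a, P3.a] ![P1.y, P2.y, P3.y] := by
  simp only [Pen.Fib, Pen.FibS, Pen.On, Pen.V, RFib, Pt.ell_aff h1, Pt.ell_aff h2, Pt.ell_aff h3,
    Pt.ev_aff h1 p.du, Pt.ev_aff h1 p.dc, Pt.ev_aff h1 p.dw, Pt.ev_aff h2 p.du, Pt.ev_aff h2 p.dc,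
    Pt.ev_aff h2 p.dw, Pt.ev_aff h3 p.du, Pt.ev_aff h3 p.dc, Pt.ev_aff h3 p.dw,
    Fin.forall_fin_succ, exists_and_right, ← and_assoc]
  simp

/-- `P` is the affine point with the coordinates `c 0`, `c 1`. -/
def Pt.At {k0 : Type} [Field k0] {f : k0[X]} {L : Type} [Field L] [Algebra k0 L] (P : Pt f L)
    (c : Fin 2 → L) : Prop := P.b = 1 ∧ P.a = c 0 ∧ P.y = c 1

/-- Two good points of a good sextic. -/
def HTwo : Prd (Fin 7 ⊕ Fin 2 × Fin 2) := fun L _ x =>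
  Gd (pol (x ∘ .inl)) ∧ ∃ P : Fin 2 → Pt (pol (x ∘ .inl)) L,
    (∀ j, (P j).At fun i => x (.inr (j, i))) ∧ (P 0).Ok ∧ (P 1).Ok ∧ (P 0).a ≠ (P 1).a

/-- Admissible data on a good sextic. -/
def HAdm : Prd (Fin 7 ⊕ Fin 5 × Fin 2) := fun L _ x =>
  Gd (pol (x ∘ .inl)) ∧ ∃ P : Fin 5 → Pt (pol (x ∘ .inl)) L,
    (∀ j, (P j).At fun i => x (.inr (j, i))) ∧ Adm (P 0) (P 1) (P 2) (P 3) (P 4)

/-- A neighbour, in coordinates. -/
def SNb : Prd ((Fin 7 ⊕ Fin 2 × Fin 2) ⊕ Fin 3) := fun L _ x =>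
  ∃ P : Fin 5 → Pt (pol (x ∘ .inl ∘ .inl)) L, (P 0).At (fun i => x (.inl (.inr (0, i)))) ∧
    (P 1).At (fun i => x (.inl (.inr (1, i)))) ∧ Adm (P 0) (P 1) (P 2) (P 3) (P 4) ∧
    x (.inr 0) = (P 2).a ∧ x (.inr 1) = (P 3).a ∧ x (.inr 2) = (P 4).a

/-- A certificate, in coordinates. -/
def SCert : Prd ((Fin 7 ⊕ Fin 3 × Fin 2) ⊕ Fin 2 ⊕ Fin 4 ⊕ Fin 10 × Fin 6) := fun L _ x =>
  ∃ P : Fin 3 → Pt (pol (x ∘ .inl ∘ .inl)) L, (∀ j, (P j).At fun i => x (.inl (.inr (j, i)))) ∧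
    CertZ (P 0) (P 1) (P 2) (x (.inr (.inl 0))) (x (.inr (.inl 1))) (x ∘ .inr ∘ .inr)

/-- `K` is the ultraproduct of the fields `F n`. -/
structure IsUP {F : ℕ → Type} [∀ n, Field (F n)] {K : Type} [Field K] (U : Ultrafilter ℕ)
    (π : (∀ n, F n) →+* K) : Prop where
  surj : Function.Surjective π
  ker : ∀ x, π x = 0 ↔ ∀ᶠ n in U, x n = 0

/-! ### Transport of points between two curves over a finite field -/

/-- The data of the Torelli theorem. -/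
structure Tr {F : Type} [Field F] (f g : F[X]) (G G' : Type) [AddCommGroup G]
    [AddCommGroup G'] where
  gf : Gd f
  gg : Gd g
  af : ∀ P : Pt f F, P.b = 1
  ag : ∀ P : Pt g F, P.b = 1
  I : PicI f F G
  I' : PicI g F G'
  det : I.Det
  det' : I'.Det
  B : Finset F
  φ : Pt f F → Pt g F
  θ : G →+ G'
  inj : Function.Injective θ
  K : θ I.K = I'.K
  cl : ∀ P, P.a ∉ B → θ (I.cl P) = I'.cl (φ P)

/-- The basic properties of the transport. -/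
structure Tr.TB {F : Type} [Field F] {f g : F[X]} {G G' : Type} [AddCommGroup G] [AddCommGroup G']
    (T : Tr f g G G') : Prop where
  io : ∀ P, P.a ∉ T.B → T.φ P.io = (T.φ P).io
  inj : ∀ P Q, P.a ∉ T.B → Q.a ∉ T.B → T.φ P = T.φ Q → P = Q
  a : ∀ P Q, P.a ∉ T.B → Q.a ∉ T.B → ((T.φ P).a = (T.φ Q).a ↔ P.a = Q.a)
  ok : ∀ P, P.a ∉ T.B → P.Ok → (T.φ P).Ok
  fib : ∀ (p : Pen f F) (p' : Pen g F) P1 P2 P3 Q1 Q2 Q3, P1.a ∉ T.B → P2.a ∉ T.B → P3.a ∉ T.B →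
    Q1.a ∉ T.B → Q2.a ∉ T.B → Q3.a ∉ T.B → p.Fib P1 P2 P3 → p.Fib Q1 Q2 Q3 →
    p'.Fib (T.φ P1) (T.φ P2) (T.φ P3) → p'.Fib (T.φ Q1) (T.φ Q2) (T.φ Q3)

/-- `C` is a neighbour of `X`. -/
def Tr.Nb {F : Type} [Field F] {f g : F[X]} {G G' : Type} [AddCommGroup G] [AddCommGroup G']
    (T : Tr f g G G') (Q X C : Pt f F) : Prop :=
  ∃ R1 R2, Adm Q X C R1 R2 ∧ C.a ∉ T.B ∧ R1.a ∉ T.B ∧ R2.a ∉ T.B

/-- On `N` the transport is a Moebius map after a field automorphism. -/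
def Tr.Mb {F : Type} [Field F] {f g : F[X]} {G G' : Type} [AddCommGroup G] [AddCommGroup G']
    (T : Tr f g G G') (N : Finset F) (τ : F ≃+* F) (α β γ δ : F) : Prop :=
  α * δ - β * γ ≠ 0 ∧ ∀ a ∈ N, a ∉ T.B ∧ ∃ P : Pt f F, P.Ok ∧ P.a = a ∧
    (T.φ P).a * (γ * τ a + δ) = α * τ a + β

/-- Few classes of degree three. -/
def Tr.Few {F : Type} [Field F] [Fintype F] {f g : F[X]} {G G' : Type} [AddCommGroup G]
    [AddCommGroup G'] (T : Tr f g G G') : Prop :=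
  ∃ W : Finset G, W.card ≤ 20 * Fintype.card F ^ 2 ∧
    ∀ P1 P2 P3, T.I.cl P1 + T.I.cl P2 + T.I.cl P3 ∈ W

/-- The two sextics differ by a field automorphism, a Moebius map and a square. -/
def Eqv {F : Type} [Field F] (f g : F[X]) : Prop :=
  ∃ (τ : F ≃+* F) (α β γ δ κ : F), α * δ - β * γ ≠ 0 ∧ κ ≠ 0 ∧
    f.map (τ : F →+* F) = C (κ ^ 2) * mob 6 g α β γ δ

/-- A model of the curve without rational points at infinity. -/
structure Mdl {F E : Type} [Field F] [Fintype F] [Field E] [Algebra (AlgebraicClosure F) E]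
    [Algebra F E] (C : Curve F E) (f : F[X]) (x y : E) : Prop where
  hyp : Hyp (AlgebraicClosure F) f x y
  lc : ¬ IsSquare f.leadingCoeff
  fx : C.Φ x = x
  fy : C.Φ y = y

/-! ### Divisor classes -/

section chr

variable {k E : Type} [Field k] [Field E] [Algebra k E]

/-- The class of a divisor. -/
noncomputable def cD : Dv k E →+ Pic k E := QuotientAddGroup.mk' (Prin k E)

lemma cD_single (P : Place k E) : cD (Finsupp.single P 1) = cls P := rfl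

lemma cD_coe (D : Dv k E) : cD D = (D : Pic k E) := rfl

lemma cD_eq_iff [IsAlgClosed k] [FF k E] {D D' : Dv k E} :
    cD D = cD D' ↔ ∃ z : E, z ≠ 0 ∧ dv k z = D - D' := by
  rw [← sub_eq_zero, ← map_sub]
  refine (QuotientAddGroup.eq_zero_iff _).trans (exists_congr fun z => and_congr_right fun hz => ?_)
  rw [Finsupp.ext_iff]
  exact forall_congr' fun P => by
    rw [MP_ab3ecb_nt.Inv.dv_apply, MP_ab3ecb_nt.Inv.ord_eq_iff hz]

lemma cD_dv [IsAlgClosed k] [FF k E] {z : E} (hz : z ≠ 0) : cD (dv k z) = 0 :=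
  (cD_eq_iff.2 ⟨z, hz, (sub_zero _).symm⟩).trans (map_zero _)

lemma deg_eq_of_cD [IsAlgClosed k] [FF k E] {D D' : Dv k E} (h : cD D = cD D') :
    deg D = deg D' := by
  obtain ⟨z, -, h1⟩ := cD_eq_iff.1 h
  have := MP_ab3ecb_nt.Inv.deg_dv (k := k) z
  rwa [h1, map_sub, sub_eq_zero] at this

end chr

end Pool.Agent.P.MP_9344a7_nt.Tor
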