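import Pool.Agent.P.MP_9344a7_nt.Tor.Iface

/-!
The last steps of the Torelli theorem over a finite field.
-/

namespace Pool.Agent.P.MP_9344a7_nt.Tor

open Polynomial WithZero
open Pool.Agent.P.MP_6f117a_ag (Place FF)
open Pool.Agent.P.MP_ab3ecb_nt.Inv (ord Dv dv deg SA LS)
open scoped Classical IntermediateField

section

variable {F E E' : Type} [Field F] [Fintype F] [Field E] [Algebra (AlgebraicClosure F) E]
  [Field E'] [Algebra (AlgebraicClosure F) E'] (C : Curve F E) (D : Curve F E')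

/-- The hypotheses on the two curves. -/
def InA : Prop := Genus (AlgebraicClosure F) E 2 ∧ Genus (AlgebraicClosure F) E' 2 ∧
  (∃ g : C.PicF, ∀ x : C.PicF, HasDeg x.1 0 ↔ x ∈ AddSubgroup.zmultiples g) ∧ C.h.Coprime 6 ∧
  (∀ m, 0 < m → C.pts m = D.pts m) ∧ ∃ (e : C.PicF) (e' : D.PicF), HasDeg e.1 1 ∧ HasDeg e'.1 1 ∧
    ∀ m, 0 < m → C.ptsH e m = D.ptsH e' m

/-- What the L-functions give. -/
def OutA (C0 : ℕ) : Prop := C.h ≤ 20 * Fintype.card F ^ 2 ∧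
  Finite {x : C.PicF // HasDeg x.1 0} ∧
  ∃ (ψ : C.PicF ≃+ D.PicF) (B : Finset (Place (AlgebraicClosure F) E)),
    B.card * C0 ≤ Fintype.card F ∧
    (∀ (w : C.PicF) (w' : D.PicF) (W : Div (AlgebraicClosure F) E)
      (W' : Div (AlgebraicClosure F) E'), (W : Pic _ E) = w.1 → (W' : Pic _ E') = w'.1 →
      degree W = 2 → ell W = 2 → degree W' = 2 → ell W' = 2 → ψ w = w') ∧
    ∀ (x : C.PicF) (P), P ∉ B → x.1 = cls P → ∃ Q, (ψ x).1 = cls Q

end

-- deps: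
def S_PA : Prop := ∀ C0 : ℕ, ∃ q0 : ℕ, ∀ (F E E' : Type) [Field F] [Fintype F] [Field E]
  [Algebra (AlgebraicClosure F) E] [Field E'] [Algebra (AlgebraicClosure F) E'] (C : Curve F E)
  (D : Curve F E'), q0 ≤ Fintype.card F → 3 * Fintype.card F ≤ 4 * C.pts 1 →
  2 * C.pts 1 ≤ 3 * Fintype.card F → C.pts 2 ≤ 2 * Fintype.card F ^ 2 + 2 → InA C D → OutA C D C0

-- deps: HF PL DIV LK PICK COM DE DET FRP
def S_SIDE : Prop := ∀ (F E : Type) [Field F] [Fintype F] [Field E]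
  [Algebra (AlgebraicClosure F) E] [Algebra F E] [IsScalarTower F (AlgebraicClosure F) E]
  (C : Curve F E) (f : F[X]) (x y : E), Mdl C f x y →
  ∃ (pl : Pt f F → Place (AlgebraicClosure F) E) (I : PicI f F C.PicF), I.Det ∧
    (∀ P : Pt f F, P.b = 1) ∧ (∀ P, (I.cl P).1 = cls (pl P)) ∧
    (∀ Q, cls Q ∈ C.PicF → ∃ P, pl P = Q) ∧
    (∃ W : Div (AlgebraicClosure F) E, (W : Pic _ E) = I.K.1 ∧ degree W = 2 ∧ ell W = 2) ∧
    C.pts 1 = Nat.card (Pt f F) ∧ C.pts 2 ≤ 2 * Fintype.card F ^ 2 + 2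

-- deps: SIDE
def S_TA : Prop := ∀ (C0 : ℕ) (F E E' : Type) [Field F] [Fintype F] [Field E]
  [Algebra (AlgebraicClosure F) E] [Algebra F E] [IsScalarTower F (AlgebraicClosure F) E]
  [Field E'] [Algebra (AlgebraicClosure F) E'] [Algebra F E']
  [IsScalarTower F (AlgebraicClosure F) E'] (C : Curve F E) (D : Curve F E') (f g : F[X])
  (x y : E) (x' y' : E'), Mdl C f x y → Mdl D g x' y' → Nonempty (Pt g F) → OutA C D C0 →
    ∃ T : Tr f g C.PicF D.PicF, T.B.card * C0 ≤ Fintype.card F ∧ T.Few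

-- deps: MB SEX MOD NUB ISO PA SIDE TA
def S_FIN : Prop := ∃ p0 : ℕ, ∀ (F E E' : Type) [Field F] [Fintype F] [Field E]
  [Algebra (AlgebraicClosure F) E] [Field E'] [Algebra (AlgebraicClosure F) E'] (C : Curve F E)
  (D : Curve F E'), p0 < ringChar F → InA C D →
    ∃ (i : E ≃+* E') (s : AlgebraicClosure F ≃+* AlgebraicClosure F),
      (∀ c, i (algebraMap _ E c) = algebraMap _ E' (s c)) ∧ ∀ z, i (C.Φ z) = D.Φ (i z)

end Pool.Agent.P.MP_9344a7_nt.Tor
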