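import Pool.Agent.P.MP_9344a7_nt.Tor.Iface

/-! Step CNT. -/

set_option autoImplicit false
set_option linter.unusedSectionVars false

namespace Pool.Agent.P.MP_9344a7_nt.Tor

open Polynomial WithZero
open Pool.Agent.P.MP_6f117a_ag (Place FF)
open Pool.Agent.P.MP_ab3ecb_nt.Inv (ord Dv dv deg SA LS)
open scoped Classical IntermediateField

theorem p_CNT :
    S_CNT := by
  intro C0
  refine ⟨C0 * (1050000 * C0 ^ 2 + 3) + 1, fun q α G _ N c W hq hN hW h3 h2 => ?_⟩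
  have hn : 1050000 * C0 ^ 2 + 3 < N.card := lt_of_mul_lt_mul_left (a := C0) (by omega) (by omega)
  obtain ⟨k, k1, k2⟩ : ∃ k, 3 * k ≤ N.card ∧ N.card < 3 * k + 3 := ⟨N.card / 3, by omega, by omega⟩
  obtain ⟨N1, s1, c1⟩ := Finset.exists_subset_card_eq (s := N) (n := k) (by omega)
  obtain ⟨N2, s2, c2⟩ := Finset.exists_subset_card_eq (s := N \ N1) (n := k)
    (by rw [Finset.card_sdiff_of_subset s1]; omega)
  obtain ⟨N3, s3, c3⟩ := Finset.exists_subset_card_eq (s := (N \ N1) \ N2) (n := k)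
    (by rw [Finset.card_sdiff_of_subset s2, Finset.card_sdiff_of_subset s1]; omega)
  let A := N1 ×ˢ N2 ×ˢ N3
  have hA : ∀ t ∈ A, ∀ u ∈ A, (t.1 ∈ N ∧ t.2.1 ∈ N ∧ t.2.2 ∈ N) ∧ t.1 ≠ u.2.1 ∧ t.1 ≠ u.2.2 ∧
      t.2.1 ≠ u.2.2 := fun t ht u hu => by
    simp only [A, Finset.mem_product] at ht hu
    have a1 := Finset.mem_sdiff.1 (s2 ht.2.1)
    have a2 := Finset.mem_sdiff.1 (s3 ht.2.2)
    have a3 := Finset.mem_sdiff.1 (s2 hu.2.1)
    have a4 := Finset.mem_sdiff.1 (s3 hu.2.2)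
    exact ⟨⟨s1 ht.1, a1.1, (Finset.mem_sdiff.1 a2.1).1⟩, fun e => a3.2 (e ▸ ht.1),
      fun e => (Finset.mem_sdiff.1 a4.1).2 (e ▸ ht.1), fun e => a4.2 (e ▸ ht.2.1)⟩
  let σ : α × α × α → G := fun t => c t.1 + c t.2.1 + c t.2.2
  have hσ : ∀ t ∈ A, σ t ∈ W := fun t ht =>
    h3 _ (hA t ht t ht).1.1 _ (hA t ht t ht).1.2.1 _ (hA t ht t ht).1.2.2
  let P := (A ×ˢ A).filter fun z => σ z.1 = σ z.2
  let Q := P.filter fun z => z.1 ≠ z.2
  let v : (α × α × α) × α × α × α → Fin 6 → α := fun z =>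
    ![z.1.1, z.1.2.1, z.1.2.2, z.2.1, z.2.2.1, z.2.2.2]
  have e1 : A.card ^ 2 ≤ W.card * P.card := by
    rw [Finset.card_eq_sum_card_fiberwise (f := σ) (t := W) fun t ht => hσ t ht,
      Finset.card_eq_sum_card_fiberwise (s := P) (f := fun z => σ z.1) (t := W) fun z hz =>
        hσ _ (Finset.mem_product.1 (Finset.mem_filter.1 hz).1).1]
    refine sq_sum_le_card_mul_sum_sq.trans (Nat.mul_le_mul_left _ (Finset.sum_le_sum fun w _ => ?_))
    rw [sq, ← Finset.card_product]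
    refine Finset.card_le_card fun z hz => ?_
    simp only [P, Finset.mem_filter, Finset.mem_product (s := A.filter _),
      Finset.mem_product (s := A)] at hz ⊢
    exact ⟨⟨⟨hz.1.1, hz.2.1⟩, hz.1.2.trans hz.2.2.symm⟩, hz.1.2⟩
  have e2 : P.card ≤ A.card + Q.card := by
    rw [← Finset.card_filter_add_card_filter_not (s := P) fun z => z.1 = z.2]
    refine Nat.add_le_add_right (Finset.card_le_card_of_injOn Prod.fst (fun z hz =>
      (Finset.mem_product.1 (Finset.mem_filter.1 (Finset.mem_filter.1 hz).1).1).1)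
      fun z hz y hy e => Prod.ext e ?_) _
    rw [← (Finset.mem_filter.1 hz).2, ← (Finset.mem_filter.1 hy).2, e]
  have e3 : Q.card ≤ 6 ^ 6 * (Q.image fun z => Finset.univ.image (v z)).card := by
    refine Finset.card_le_mul_card_image _ _ fun s hs => ?_
    obtain ⟨y, -, rfl⟩ := Finset.mem_image.1 hs
    set s := Finset.univ.image (v y)
    have hs : s.card ≤ 6 := Finset.card_image_le.trans (by simp)
    refine (Finset.card_le_card_of_injOn (t := Fintype.piFinset fun _ : Fin 6 => s) v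
      (fun z hz => ?_) fun z _ y _ e => ?_).trans ?_
    · refine Finset.mem_coe.2 (Fintype.mem_piFinset.2 fun i => ?_)
      rw [← (Finset.mem_filter.1 hz).2]
      exact Finset.mem_image_of_mem _ (Finset.mem_univ i)
    · exact Prod.ext (Prod.ext (congrFun e 0) (Prod.ext (congrFun e 1) (congrFun e 2)))
        (Prod.ext (congrFun e 3) (Prod.ext (congrFun e 4) (congrFun e 5)))
    · rw [Fintype.card_piFinset_const]
      exact Nat.pow_le_pow_left hs 6
  refine ⟨Q.image fun z => Finset.univ.image (v z), ?_, fun s hs => ?_⟩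
  · by_contra hT
    have cA : A.card = k ^ 3 := by simp only [A, Finset.card_product, c1, c2, c3]; ring
    have b1 : q ≤ C0 * (5 * k) := hN.trans (Nat.mul_le_mul_left _ (by omega))
    have b2 : 14000 * q ^ 2 ≤ A.card := by
      rw [cA]
      calc 14000 * q ^ 2 ≤ 14000 * (C0 * (5 * k)) ^ 2 := by gcongr
        _ = 350000 * C0 ^ 2 * k ^ 2 := by ring
        _ ≤ k * k ^ 2 := Nat.mul_le_mul_right _ (by omega)
        _ = k ^ 3 := by ring
    have b3 : A.card ^ 2 ≤ 20 * q ^ 2 * (A.card + 6 ^ 6 * (200 * q ^ 2)) :=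
      e1.trans (Nat.mul_le_mul hW (by omega))
    have b4 : 0 < q ^ 2 := pow_pos (by omega) 2
    generalize q ^ 2 = r at b2 b3 b4
    nlinarith
  · obtain ⟨⟨⟨a, b, d⟩, a', b', d'⟩, hz, rfl⟩ := Finset.mem_image.1 hs
    obtain ⟨hz, hne⟩ := Finset.mem_filter.1 hz
    obtain ⟨hz, e⟩ := Finset.mem_filter.1 hz
    obtain ⟨m1, m2⟩ := Finset.mem_product.1 hz
    obtain ⟨⟨n1, n2, n3⟩, d1, d2, d3⟩ := hA _ m1 _ m1
    obtain ⟨⟨n4, n5, n6⟩, d4, d5, d6⟩ := hA _ m2 _ m2
    obtain ⟨-, d7, d8, d9⟩ := hA _ m1 _ m2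
    obtain ⟨-, f1, f2, f3⟩ := hA _ m2 _ m1
    simp only [σ] at e n1 n2 n3 n4 n5 n6 d1 d2 d3 d4 d5 d6 d7 d8 d9 f1 f2 f3 hne
    have g1 : a ≠ a' := by
      rintro rfl
      rcases h2 b n2 d n3 b' n5 d' n6 d3 (by rwa [add_assoc, add_assoc, add_right_inj] at e) with
        ⟨rfl, rfl⟩ | h
      exacts [hne rfl, d9 h.1]
    have g2 : b ≠ b' := by
      rintro rfl
      rcases h2 a n1 d n3 a' n4 d' n6 d2 (by
        rwa [add_right_comm, add_right_comm (c a'), add_left_inj] at e) with ⟨rfl, rfl⟩ | h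
      exacts [hne rfl, d8 h.1]
    have g3 : d ≠ d' := by
      rintro rfl
      rcases h2 a n1 b n2 a' n4 b' n5 d1 (add_right_cancel e) with ⟨rfl, rfl⟩ | h
      exacts [hne rfl, d7 h.1]
    refine ⟨v _, ?_, fun i => by fin_cases i <;> assumption, rfl, e⟩
    refine List.nodup_ofFn.1 ?_
    simp [v, List.ofFn_succ, *, f1.symm, f2.symm, f3.symm]

end Pool.Agent.P.MP_9344a7_nt.Tor
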