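import Pool.Agent.P.MP_9344a7_nt.Tor.Iface

/-! Step DDM. -/

set_option autoImplicit false
set_option linter.unusedSectionVars false

namespace Pool.Agent.P.MP_9344a7_nt.Tor

open Polynomial WithZero
open Pool.Agent.P.MP_6f117a_ag (Place FF)
open Pool.Agent.P.MP_ab3ecb_nt.Inv (ord Dv dv deg SA LS)
open scoped Classical IntermediateField

theorem p_DDM :
    S_DDM := by
  intro k0 L L' Γ Γ' _ _ _ _ _ _ _ w v θ φ f hθ h P Q
  have ha : ∀ P : Pt f L, (P.map φ).a = φ P.a := fun _ => rfl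
  have hb : ∀ P : Pt f L, (P.map φ).b = φ P.b := fun _ => rfl
  have hy : ∀ P : Pt f L, (P.map φ).y = φ P.y := fun _ => rfl
  simp only [dd, nm, br, ha, hb, hy, ← map_mul φ, ← map_pow φ, ← map_sub φ, h, hθ.map_max,
    map_div₀ θ, map_mul θ, map_pow θ]

end Pool.Agent.P.MP_9344a7_nt.Tor
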