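import Pool.Agent.P.MP_9344a7_nt.Tor.Iface

/-! Step DL. -/

set_option autoImplicit false
set_option linter.unusedSectionVars false

namespace Pool.Agent.P.MP_9344a7_nt.Tor

open Polynomial WithZero
open Pool.Agent.P.MP_6f117a_ag (Place FF)
open Pool.Agent.P.MP_ab3ecb_nt.Inv (ord Dv dv deg SA LS)
open scoped Classical IntermediateField

lemma dl_prod {Γ ι : Type} [LinearOrderedCommGroupWithZero Γ] [Fintype ι] (F : ι → Γ) (ϖ : Γ)
    (hF : ∀ x, F x ≤ 1) (s : Finset (Fin 10)) (e : Fin 10 → ι) (he : Set.InjOn e s)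
    (h : ∀ j ∈ s, F (e j) ≤ ϖ) : ∏ x, F x ≤ ϖ ^ s.card := by
  have h1 : ∏ x, F x ≤ ∏ x ∈ s.image e, F x :=
    Finset.prod_le_prod_of_subset_of_le_one' (Finset.subset_univ _) fun x _ _ => hF x
  refine h1.trans ?_
  rw [Finset.prod_image he, ← Finset.prod_const]
  exact Finset.prod_le_prod' h

lemma dl_two {Γ : Type} [LinearOrderedCommGroupWithZero Γ] {a b c d ϖ : Γ} (ha : a ≤ 1)
    (hb : b ≤ 1) (h1 : a ≤ max ϖ c) (h2 : b ≤ max ϖ d) (h : c * d ≤ ϖ) : a * b ≤ ϖ := by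
  rcases le_max_iff.1 h1 with h1 | h1
  · simpa using mul_le_mul' h1 hb
  rcases le_max_iff.1 h2 with h2 | h2
  · simpa using mul_le_mul' ha h2
  exact (mul_le_mul' h1 h2).trans h

theorem p_DL (hDD : S_DD) (hSYM : S_SYM) (hDN : S_DN) :
    S_DL := by
  intro k0 k M Γ _ _ _ _ _ _ v f φ p1 p2 p3 Z Z0 ϖ g A s κs hκ hinj
  have hV : VS v f := ⟨A.gd, fun c => by rw [← φ.commutes]; exact A.triv _⟩
  have D := hDD k0 M Γ v f hV
  have hI : (p1.map φ).Int v := fun i => by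
    simp only [Pen.map, coeff_map]
    exact ⟨A.triv _, A.triv _, A.triv _⟩
  have N := hSYM k0 M Γ v f hV _ hI
  have hZ : dd v Z (Z0.map φ) ≤ ϖ := by rw [A.dZ, if_pos rfl]
  have hc : ∀ (P Q : Pt f k) (R : Pt f M), dd v R (P.map φ) ≤ ϖ → dd v R (Q.map φ) ≤ ϖ → P = Q := by
    intro P Q R h1 h2
    by_contra hne
    have h3 := D.tri (P.map φ) R (Q.map φ)
    rw [D.cst k φ A.triv P Q hne, D.symm _ R] at h3
    exact absurd (h3.trans (max_le h1 h2)) (not_le.2 A.lt)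
  have key : ∀ j, j ∈ s → ∃ x : Fin 2 × Fin 2, dd v (g.Xs x.1) ((κs j).X.map φ) ≤ ϖ ∧
      dd v (g.Ys x.2) ((κs j).Y.map φ) ≤ ϖ := by
    intro j hj
    obtain ⟨⟨-, h2, h3⟩, ⟨u1, u2⟩, hz⟩ := hκ j hj
    rw [hz] at h2 h3
    have a1 : ∃ i, dd v (g.Xs i) ((κs j).X.map φ) ≤ ϖ := by
      rcases hDN k0 k M Γ v f φ A.gd A.triv p2 _ _ _ Z _ _ ϖ h2.s12 u1 g.hX A.lt hZ with h | h
      · exact ⟨0, by rw [← D.io, ← Pt.map_io]; exact h.1⟩
      · exact ⟨1, by rw [← D.io, ← Pt.map_io]; exact h.2⟩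
    have a2 : ∃ l, dd v (g.Ys l) ((κs j).Y.map φ) ≤ ϖ := by
      rcases hDN k0 k M Γ v f φ A.gd A.triv p3 _ _ _ Z _ _ ϖ h3.s12 u2 ⟨_, _, g.hY⟩ A.lt hZ with
        h | h
      · exact ⟨0, h.1⟩
      · exact ⟨1, h.2⟩
    obtain ⟨i, hi⟩ := a1
    obtain ⟨l, hl⟩ := a2
    exact ⟨(i, l), hi, hl⟩
  choose! e he using key
  have hP : g.Pr v = ∏ x : Fin 2 × Fin 2,
      (dd v (g.Xs x.1) (g.Us x.2 0) * dd v (g.Xs x.1) (g.Us x.2 1)) := by
    rw [GenD.Pr, Fintype.prod_prod_type]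
    simp only [Fin.prod_univ_two]
  rw [hP]
  refine dl_prod _ ϖ (fun x => by simpa using mul_le_mul' (D.le _ _) (D.le _ _)) s e ?_ ?_
  · intro i hi j hj hij
    exact hinj i hi j hj (hc _ _ _ (he i hi).1 (hij ▸ (he j hj).1))
      (hc _ _ _ (he i hi).2 (hij ▸ (he j hj).2))
  intro j hj
  obtain ⟨hx, hy⟩ := he j hj
  obtain ⟨⟨h1, -, -⟩, -, -⟩ := hκ j hj
  have hU : (p1.map φ).Fib (g.Ys (e j).2) (g.Us (e j).2 0) (g.Us (e j).2 1) := ⟨_, _, g.hU _⟩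
  refine dl_two (D.le _ _) (D.le _ _) ((D.tri _ ((κs j).X.map φ) _).trans (max_le_max hx le_rfl))
    ((D.tri _ ((κs j).X.map φ) _).trans (max_le_max hx le_rfl)) ?_
  by_cases hXA : (κs j).X = (κs j).A
  · have h4 := N.sym _ _ _ _ _ _ (h1.map φ) hU
    by_cases h0 : dd v ((κs j).X.map φ) (g.Ys (e j).2) = 0
    · have e1 := (D.zero _ _).1 h0
      have e2 : (κs j).X = (κs j).Y := hc _ _ (g.Ys (e j).2)
        (by rw [D.symm, h0]; exact zero_le) hy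
      have h5 := N.sym _ _ _ _ _ _ hU.s12 (h1.map φ)
      rw [← hXA, ← e2, d3, d3, h0, mul_zero, zero_mul] at h5
      have h6 : dd v (g.Us (e j).2 0) ((κs j).X.map φ) = 0 := by simpa using h5
      rw [D.symm, h6, zero_mul]
      exact zero_le
    · rw [d3, d3, D.symm (g.Ys (e j).2) ((κs j).X.map φ), mul_assoc, mul_assoc] at h4
      rw [mul_left_cancel₀ h0 h4]
      simpa using mul_le_mul' hy (D.le _ _)
  · rcases hDN k0 k M Γ v f φ A.gd A.triv p1 _ _ _ _ _ _ ϖ h1.s12 hXA hU A.lt hy with h | h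
    · rw [D.symm]
      simpa using mul_le_mul' h.1 (D.le _ _)
    · rw [D.symm _ (g.Us (e j).2 1)]
      simpa using mul_le_mul' (D.le _ _) h.2

end Pool.Agent.P.MP_9344a7_nt.Tor
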