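import Pool.Agent.P.MP_9344a7_nt.Tor.Iface

/-! Step ENC. -/

set_option autoImplicit false
set_option linter.unusedSectionVars false

namespace Pool.Agent.P.MP_9344a7_nt.Tor

open Polynomial WithZero
open Pool.Agent.P.MP_6f117a_ag (Place FF)
open Pool.Agent.P.MP_ab3ecb_nt.Inv (ord Dv dv deg SA LS)
open scoped Classical IntermediateField

section gen

variable {ι : Type} (D : ∀ (L : Type) [Field L], (ι → L) → Type)

/-- A property of data attached to a tuple that is an existential property of the tuple. -/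
def enc_Ex (G : ∀ (L : Type) [Field L] (x : ι → L), D L x → Prop) : Prop :=
  ∃ R : Prd ι, ExF R ∧ ∀ (L : Type) [Field L] (x : ι → L) (d : D L x), G L x d ↔ R L x

/-- A value attached to the data that is a term of the tuple. -/
def enc_Tm (e : ∀ (L : Type) [Field L] (x : ι → L), D L x → L) : Prop :=
  ∃ e' : ∀ (L : Type) [Field L], (ι → L) → L, Tm e' ∧
    ∀ (L : Type) [Field L] (x : ι → L) (d : D L x), e L x d = e' L x

/-- A polynomial attached to the data whose coefficients are terms of the tuple. -/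
def enc_Tp (e : ∀ (L : Type) [Field L] (x : ι → L), D L x → L[X]) : Prop :=
  ∃ e' : ∀ (L : Type) [Field L], (ι → L) → L[X], TmP e' ∧
    ∀ (L : Type) [Field L] (x : ι → L) (d : D L x), e L x d = e' L x

variable {f : ∀ (L : Type) [Field L], (ι → L) → L[X]}

/-- An affine point whose coordinates are terms. -/
structure enc_Pt (P : ∀ (L : Type) [Field L] (x : ι → L), D L x → Pt (f L x) L) : Prop where
  b : ∀ (L : Type) [Field L] (x : ι → L) (d : D L x), (P L x d).b = 1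
  a : enc_Tm D fun L _ x d => (P L x d).a
  y : enc_Tm D fun L _ x d => (P L x d).y

/-- A pencil whose coefficients are terms. -/
structure enc_Pn (p : ∀ (L : Type) [Field L] (x : ι → L), D L x → Pen (f L x) L) : Prop where
  u : enc_Tp D fun L _ x d => (p L x d).u
  c : enc_Tp D fun L _ x d => (p L x d).c
  w : enc_Tp D fun L _ x d => (p L x d).w

/-- A configuration of such points. -/
structure enc_Cf (κ : ∀ (L : Type) [Field L] (x : ι → L), D L x → Cfg (f L x) L) : Prop where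
  X : enc_Pt D fun L _ x d => (κ L x d).X
  Y : enc_Pt D fun L _ x d => (κ L x d).Y
  Z : enc_Pt D fun L _ x d => (κ L x d).Z
  A : enc_Pt D fun L _ x d => (κ L x d).A
  B : enc_Pt D fun L _ x d => (κ L x d).B
  C : enc_Pt D fun L _ x d => (κ L x d).C

variable {D} {G G' : ∀ (L : Type) [Field L] (x : ι → L), D L x → Prop}
  {e e' : ∀ (L : Type) [Field L] (x : ι → L), D L x → L}
  {P Q R : ∀ (L : Type) [Field L] (x : ι → L), D L x → Pt (f L x) L}
  {p q r : ∀ (L : Type) [Field L] (x : ι → L), D L x → Pen (f L x) L}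
  {κ : ∀ (L : Type) [Field L] (x : ι → L), D L x → Cfg (f L x) L}

lemma enc_iff (h : enc_Ex D G)
    (h' : ∀ (L : Type) [Field L] (x : ι → L) (d : D L x), G' L x d ↔ G L x d) : enc_Ex D G' :=
  let ⟨R, h1, h2⟩ := h; ⟨R, h1, fun L _ x d => (h' L x d).trans (h2 L x d)⟩

lemma enc_and (H : ExC) (h : enc_Ex D G) (h' : enc_Ex D G') :
    enc_Ex D fun L _ x d => G L x d ∧ G' L x d :=
  let ⟨_, h1, h2⟩ := h; let ⟨_, h3, h4⟩ := h'
  ⟨_, H.and h1 h3, fun L _ x d => and_congr (h2 L x d) (h4 L x d)⟩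

lemma enc_or (H : ExC) (h : enc_Ex D G) (h' : enc_Ex D G') :
    enc_Ex D fun L _ x d => G L x d ∨ G' L x d :=
  let ⟨_, h1, h2⟩ := h; let ⟨_, h3, h4⟩ := h'
  ⟨_, H.or h1 h3, fun L _ x d => or_congr (h2 L x d) (h4 L x d)⟩

lemma enc_all (H : ExC) {μ : Type} [Finite μ]
    {S : μ → ∀ (L : Type) [Field L] (x : ι → L), D L x → Prop} (h : ∀ j, enc_Ex D (S j)) :
    enc_Ex D fun L _ x d => ∀ j, S j L x d := by
  choose R h1 h2 using h
  exact ⟨_, H.all h1, fun L _ x d => forall_congr' fun j => h2 j L x d⟩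

lemma enc_imp (H : ExC) (c : Prop) (h : enc_Ex D G) : enc_Ex D fun L _ x d => c → G L x d :=
  let ⟨_, h1, h2⟩ := h
  ⟨_, H.imp c fun _ => h1, fun L _ x d => imp_congr_right fun _ => h2 L x d⟩

lemma enc_eq (H : ExC) (h : enc_Tm D e) (h' : enc_Tm D e') :
    enc_Ex D fun L _ x d => e L x d = e' L x d :=
  let ⟨_, h1, h2⟩ := h; let ⟨_, h3, h4⟩ := h'
  ⟨_, H.eq h1 h3, fun L _ x d => by beta_reduce; rw [h2 L x d, h4 L x d]⟩

lemma enc_ne (H : ExC) (h : enc_Tm D e) (h' : enc_Tm D e') :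
    enc_Ex D fun L _ x d => e L x d ≠ e' L x d :=
  let ⟨_, h1, h2⟩ := h; let ⟨_, h3, h4⟩ := h'
  ⟨_, H.ne h1 h3, fun L _ x d => by beta_reduce; rw [h2 L x d, h4 L x d]⟩

lemma enc_var (H : ExC) (i : ι) : enc_Tm D fun _ _ x _ => x i := ⟨_, H.var i, fun _ _ _ _ => rfl⟩

lemma enc_zero (H : ExC) : enc_Tm D fun _ _ _ _ => 0 :=
  ⟨_, H.int 0, fun _ _ _ _ => Int.cast_zero.symm⟩

lemma enc_one (H : ExC) : enc_Tm D fun _ _ _ _ => 1 :=
  ⟨_, H.int 1, fun _ _ _ _ => Int.cast_one.symm⟩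

lemma enc_add (H : ExC) (h : enc_Tm D e) (h' : enc_Tm D e') :
    enc_Tm D fun L _ x d => e L x d + e' L x d :=
  let ⟨_, h1, h2⟩ := h; let ⟨_, h3, h4⟩ := h'
  ⟨_, H.add h1 h3, fun L _ x d => by beta_reduce; rw [h2 L x d, h4 L x d]⟩

lemma enc_sub (H : ExC) (h : enc_Tm D e) (h' : enc_Tm D e') :
    enc_Tm D fun L _ x d => e L x d - e' L x d :=
  let ⟨_, h1, h2⟩ := h; let ⟨_, h3, h4⟩ := h'
  ⟨_, H.sub h1 h3, fun L _ x d => by beta_reduce; rw [h2 L x d, h4 L x d]⟩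

lemma enc_mul (H : ExC) (h : enc_Tm D e) (h' : enc_Tm D e') :
    enc_Tm D fun L _ x d => e L x d * e' L x d :=
  let ⟨_, h1, h2⟩ := h; let ⟨_, h3, h4⟩ := h'
  ⟨_, H.mul h1 h3, fun L _ x d => by beta_reduce; rw [h2 L x d, h4 L x d]⟩

lemma enc_io (H : ExC) (h : enc_Pt D P) : enc_Pt D fun L _ x d => (P L x d).io :=
  let ⟨_, h1, h2⟩ := h.y
  ⟨h.b, h.a, _, H.neg h1, fun L _ x d => congrArg Neg.neg (h2 L x d)⟩

lemma enc_ok (H : ExC) (h : enc_Pt D P) : enc_Ex D fun L _ x d => (P L x d).Ok :=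
  enc_iff (enc_ne H h.y (enc_zero H)) fun L _ x d => and_iff_right (h.b L x d)

lemma enc_pne (H : ExC) (h : enc_Pt D P) (h' : enc_Pt D Q) :
    enc_Ex D fun L _ x d => P L x d ≠ Q L x d :=
  enc_iff (enc_or H (enc_ne H h.a h'.a) (enc_ne H h.y h'.y)) fun L _ x d => by
    rw [Ne, Pt.ext_iff, h.b, h'.b, not_and_or]
    simp

lemma enc_fib (E : S_ENG) (hp : enc_Pn D p) (h1 : enc_Pt D P) (h2 : enc_Pt D Q)
    (h3 : enc_Pt D R) : enc_Ex D fun L _ x d => (p L x d).Fib (P L x d) (Q L x d) (R L x d) := by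
  obtain ⟨⟨u, u1, u2⟩, ⟨c, c1, c2⟩, ⟨w, w1, w2⟩⟩ := hp
  obtain ⟨b1, ⟨a1, a11, a12⟩, ⟨y1, y11, y12⟩⟩ := h1
  obtain ⟨b2, ⟨a2, a21, a22⟩, ⟨y2, y21, y22⟩⟩ := h2
  obtain ⟨b3, ⟨a3, a31, a32⟩, ⟨y3, y31, y32⟩⟩ := h3
  refine ⟨_, (E ι).2 u c w (fun L _ x => ![a1 L x, a2 L x, a3 L x])
    (fun L _ x => ![y1 L x, y2 L x, y3 L x]) u1 c1 w1 (fun i => ?_) (fun i => ?_),
    fun L _ x d => ?_⟩
  · fin_cases i
    exacts [a11, a21, a31]
  · fin_cases i
    exacts [y11, y21, y31]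
  · beta_reduce
    rw [fib_iff _ (b1 L x d) (b2 L x d) (b3 L x d), ← u2 L x d, ← c2 L x d, ← w2 L x d,
      ← a12 L x d, ← a22 L x d, ← a32 L x d, ← y12 L x d, ← y22 L x d, ← y32 L x d]

lemma enc_in (H : ExC) (E : S_ENG) (h : enc_Cf D κ) (hp : enc_Pn D p) (hq : enc_Pn D q)
    (hr : enc_Pn D r) : enc_Ex D fun L _ x d => (κ L x d).In (p L x d) (q L x d) (r L x d) :=
  enc_and H (enc_fib E hp h.X h.Y h.A)
    (enc_and H (enc_fib E hq (enc_io H h.X) h.Z h.C) (enc_fib E hr h.Y h.Z h.B))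

lemma enc_J (H : ExC) (h : enc_Cf D κ) : enc_Tm D fun L _ x d => (κ L x d).J :=
  enc_sub H
    (enc_mul H (enc_mul H (enc_sub H h.X.a h.A.a) (enc_sub H h.Y.a h.B.a)) (enc_sub H h.Z.a h.C.a))
    (enc_mul H (enc_mul H (enc_sub H h.X.a h.C.a) (enc_sub H h.Y.a h.A.a)) (enc_sub H h.Z.a h.B.a))

lemma enc_nd (H : ExC) (h : enc_Cf D κ) : enc_Ex D fun L _ x d => (κ L x d).Nd :=
  enc_and H (enc_and H (enc_ok H h.X) (enc_and H (enc_ok H h.Y) (enc_and H (enc_ok H h.Z)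
    (enc_and H (enc_ok H h.A) (enc_and H (enc_ok H h.B) (enc_ok H h.C))))))
    (enc_and H (enc_and H (enc_ne H h.X.a h.Y.a)
      (enc_and H (enc_ne H h.X.a h.A.a) (enc_ne H h.Y.a h.A.a)))
    (enc_and H (enc_and H (enc_ne H h.X.a h.Z.a)
      (enc_and H (enc_ne H h.X.a h.C.a) (enc_ne H h.Z.a h.C.a)))
    (enc_and H (enc_ne H h.Y.a h.Z.a) (enc_and H (enc_ne H h.Y.a h.B.a) (enc_ne H h.Z.a h.B.a)))))

lemma enc_ur (H : ExC) (h : enc_Cf D κ) : enc_Ex D fun L _ x d => (κ L x d).Ur :=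
  enc_and H (enc_pne H (enc_io H h.X) h.C) (enc_pne H h.Y h.B)

lemma enc_cl (H : ExC) (E : S_ENG) (h : enc_Cf D κ) (hp : enc_Pn D p) (h1 : enc_Pt D P)
    (h2 : enc_Pt D Q) : enc_Ex D fun L _ x d => (κ L x d).Cl (p L x d) (P L x d) (Q L x d) :=
  have c := enc_io H h.C
  enc_and H (enc_fib E hp h.B h1 h2) (enc_and H (enc_pne H h.B h.X) (enc_and H (enc_pne H h.B h.A)
    (enc_and H (enc_pne H c h.Y) (enc_and H (enc_pne H c h.A) (enc_and H (enc_pne H c h.B)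
    (enc_and H (enc_pne H c h1) (enc_pne H c h2)))))))

lemma enc_fam (H : ExC) (E : S_ENG) (h : enc_Cf D κ)
    {κs : ∀ (L : Type) [Field L] (x : ι → L), D L x → Fin 10 → Cfg (f L x) L}
    (hs : ∀ j, enc_Cf D fun L _ x d => κs L x d j) (hp : enc_Pn D p) (hq : enc_Pn D q)
    (hr : enc_Pn D r) :
    enc_Ex D fun L _ x d => Fam (κ L x d) (κs L x d) (p L x d) (q L x d) (r L x d) :=
  enc_iff (enc_and H (enc_in H E h hp hq hr) (enc_and H (enc_nd H h)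
    (enc_and H (enc_all H fun j => enc_in H E (hs j) hp hq hr)
    (enc_and H (enc_all H fun j => enc_ur H (hs j))
    (enc_and H (enc_all H fun j => enc_pne H (hs j).Z h.Z)
    (enc_all H fun i => enc_all H fun j => enc_imp H (i ≠ j) (enc_or H
      (enc_pne H (hs i).X (hs j).X)
      (enc_or H (enc_pne H (hs i).Y (hs j).Y) (enc_pne H (hs i).Z (hs j).Z))))))))) fun L _ x d =>
    ⟨fun h => ⟨h.in0, h.nd, h.ins, h.ur, h.ne, fun i j n => by
      by_contra c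
      simp only [not_or, not_not] at c
      exact n (h.inj i j c.1 c.2.1 c.2.2)⟩,
    fun ⟨h1, h2, h3, h4, h5, h6⟩ => ⟨h1, h2, h3, h4, h5, fun i j e1 e2 e3 => by
      by_contra n
      rcases h6 i j n with c | c | c
      exacts [c e1, c e2, c e3]⟩⟩

lemma enc_ex (H : ExC) (hD : ExF fun L _ x => Nonempty (D L x)) (h : enc_Ex D G) :
    ExF fun L _ x => ∃ d, G L x d :=
  let ⟨_, h1, h2⟩ := h
  H.iff (H.and hD h1) fun L _ x =>
    ⟨fun ⟨d, g⟩ => ⟨⟨d⟩, (h2 L x d).1 g⟩, fun ⟨⟨d⟩, g⟩ => ⟨d, (h2 L x d).2 g⟩⟩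

end gen

section dat

variable {ι α β : Type} (cf : Fin 7 → ι) (co : α → Fin 2 → ι) (cp : β → Fin 3 → Fin 4 → ι)

/-- Points and pencils with given coordinates. -/
structure enc_D (L : Type) [Field L] (x : ι → L) where
  T : α → Pt (pol (x ∘ cf)) L
  p : β → Pen (pol (x ∘ cf)) L
  hP : ∀ j, (T j).At fun i => x (co j i)
  hu : ∀ k, (p k).u = pol fun i => x (cp k 0 i)
  hc : ∀ k, (p k).c = pol fun i => x (cp k 1 i)
  hw : ∀ k, (p k).w = pol fun i => x (cp k 2 i)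

lemma enc_D_pt (H : ExC) (j : α) :
    enc_Pt (enc_D cf co cp) (f := fun _ _ x => pol (x ∘ cf)) fun _ _ _ d => d.T j :=
  ⟨fun _ _ _ d => (d.hP j).1, ⟨_, H.var (co j 0), fun _ _ _ d => (d.hP j).2.1⟩,
    ⟨_, H.var (co j 1), fun _ _ _ d => (d.hP j).2.2⟩⟩

lemma enc_D_pn (H : ExC) (k : β) :
    enc_Pn (enc_D cf co cp) (f := fun _ _ x => pol (x ∘ cf)) fun _ _ _ d => d.p k :=
  ⟨⟨_, H.ppol fun i => H.var (cp k 0 i), fun _ _ _ d => d.hu k⟩,
    ⟨_, H.ppol fun i => H.var (cp k 1 i), fun _ _ _ d => d.hc k⟩,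
    ⟨_, H.ppol fun i => H.var (cp k 2 i), fun _ _ _ d => d.hw k⟩⟩

lemma enc_D_ne [Finite α] [Finite β] (H : ExC) :
    ExF fun L _ x => Nonempty (enc_D cf co cp L x) := by
  have pf : TmP (ι := ι) fun L _ x => pol (x ∘ cf) := H.ppol fun i => H.var (cf i)
  have pp : ∀ k l, TmP (ι := ι) fun L _ x => pol fun i => x (cp k l i) := fun k l =>
    H.ppol fun i => H.var (cp k l i)
  refine H.iff (H.and
    (H.all fun j => H.eq (H.pow 2 (H.var (co j 1))) (H.eval pf (H.var (co j 0))))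
    (H.all fun k => H.peq pf (H.padd (H.ppow 2 (pp k 1)) (H.pmul (pp k 0) (pp k 2))))) ?_
  intro L _ x
  constructor
  · rintro ⟨d⟩
    refine ⟨fun j => ?_, fun k => ?_⟩
    · obtain ⟨h1, h2, h3⟩ := d.hP j
      have := Pt.eq_aff (pol_deg _) h1
      rwa [h2, h3, coe_aeval_eq_eval] at this
    · have := (d.p k).eq
      rwa [d.hu, d.hc, d.hw, Algebra.algebraMap_self, Polynomial.map_id] at this
  · rintro ⟨h1, h2⟩
    have e1 : ∀ j, x (co j 1) ^ 2 = aeval (x (co j 0)) (pol (x ∘ cf)) := fun j => by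
      rw [coe_aeval_eq_eval]
      exact h1 j
    have e2 : ∀ k, (pol (x ∘ cf)).map (algebraMap L L) = (pol fun i => x (cp k 1 i)) ^ 2 +
        (pol fun i => x (cp k 0 i)) * pol fun i => x (cp k 2 i) := fun k => by
      rw [Algebra.algebraMap_self, Polynomial.map_id]
      exact h2 k
    exact ⟨⟨fun j => Pt.mkA (pol_deg (n := 6) _) (x (co j 0)) (x (co j 1)) (e1 j),
      fun k => ⟨pol fun i => x (cp k 0 i), pol fun i => x (cp k 1 i), pol fun i => x (cp k 2 i),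
        pol_deg (n := 3) _, pol_deg (n := 3) _, pol_deg (n := 3) _, e2 k⟩,
      fun j => ⟨rfl, rfl, rfl⟩, fun _ => rfl, fun _ => rfl, fun _ => rfl⟩⟩

end dat

/-- The indices of the coordinates of the points. -/
def enc_co : Fin 3 ⊕ Fin 6 ⊕ Fin 10 × Fin 6 → Fin 2 →
    ((Fin 7 ⊕ Fin 3 × Fin 2) ⊕ Fin 2 ⊕ Fin 4 ⊕ Fin 10 × Fin 6) ⊕
      (Fin 6 ⊕ Fin 10 × Fin 6) × Fin 2 ⊕ Fin 3 × Fin 3 × Fin 4 :=
  Sum.elim (fun j i => .inl (.inl (.inr (j, i)))) fun j i => .inr (.inl (j, i))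

/-- The configurations read off from a family of points. -/
def enc_cf {L : Type} [Field L] {f : L[X]} (P : Fin 3 ⊕ Fin 6 ⊕ Fin 10 × Fin 6 → Pt f L)
    (j : Fin 10) : Cfg f L :=
  ⟨P (.inr (.inr (j, 0))), P (.inr (.inr (j, 1))), P (.inr (.inr (j, 2))), P (.inr (.inr (j, 3))),
    P (.inr (.inr (j, 4))), P (.inr (.inr (j, 5)))⟩

/-- The first configuration. -/
def enc_c0 {L : Type} [Field L] {f : L[X]} (P : Fin 3 ⊕ Fin 6 ⊕ Fin 10 × Fin 6 → Pt f L) :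
    Cfg f L :=
  ⟨P (.inl 1), P (.inr (.inl 0)), (P (.inl 0)).io, P (.inl 0), P (.inr (.inl 1)), P (.inl 2)⟩

lemma enc_cf_pt {L : Type} [Field L] {f : L[X]} (P : Fin 3 ⊕ Fin 6 ⊕ Fin 10 × Fin 6 → Pt f L)
    (j : Fin 10) (i : Fin 6) : (enc_cf P j).pt i = P (.inr (.inr (j, i))) := by
  fin_cases i <;> rfl

theorem p_ENC (hEXF : S_EXF) (hENG : S_ENG) :
    S_ENC := by
  have H : ExC := hEXF
  have pt := enc_D_pt (.inl ∘ .inl ∘ .inl) enc_co
    (fun (k : Fin 3) l i => .inr (.inr (k, l, i))) H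
  have pn := enc_D_pn (.inl ∘ .inl ∘ .inl) enc_co
    (fun (k : Fin 3) l i => .inr (.inr (k, l, i))) H
  have c0 : enc_Cf _ fun _ _ _ d => enc_c0 (enc_D.T d) :=
    ⟨pt _, pt _, enc_io H (pt _), pt _, pt _, pt _⟩
  have cs : ∀ j, enc_Cf _ fun _ _ _ d => enc_cf (enc_D.T d) j := fun j =>
    ⟨pt _, pt _, pt _, pt _, pt _, pt _⟩
  refine H.iff (H.ex (enc_ex H (enc_D_ne _ _ _ H)
    (enc_and H (enc_fam H hENG c0 cs (pn 0) (pn 1) (pn 2))
    (enc_and H (enc_eq H (enc_J H c0) (enc_zero H))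
    (enc_and H (enc_cl H hENG c0 (pn 0) (pt (.inr (.inl 2))) (pt (.inr (.inl 3))))
    (enc_and H (enc_nd H (cs 8))
    (enc_and H (enc_ne H (enc_J H (cs 8)) (enc_zero H))
    (enc_and H (enc_cl H hENG (cs 8) (pn 0) (pt (.inr (.inl 4))) (pt (.inr (.inl 5))))
    (enc_and H (enc_eq H (enc_mul H (enc_sub H (pt (.inr (.inl 1))).a (pt (.inl 0)).a)
      (enc_add H (enc_var H (.inl (.inr (.inl 1)))) (enc_var H (.inl (.inr (.inl 0))))))
      (enc_one H))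
    (enc_and H (enc_all H fun i : Fin 4 => enc_eq H (enc_var H (.inl (.inr (.inr (.inl i)))))
      (pt (.inr (.inl (i.castAdd 2)))).a)
    (enc_all H fun i => enc_eq H (enc_var H (.inl (.inr (.inr (.inr i)))))
      (pt (.inr (.inr i))).a))))))))))) ?_
  intro L _ x
  constructor
  · rintro ⟨P, hP, Y, B, U1, U2, W1, W2, p1, p2, p3, κs, h1, h2, h3, h4, h5, h6, h7,
      ⟨b1, b2, b3, b4⟩, h9, h10⟩
    let T : Fin 6 ⊕ Fin 10 × Fin 6 → Pt (pol (x ∘ .inl ∘ .inl)) L :=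
      Sum.elim ![Y, B, U1, U2, W1, W2] fun i => (κs i.1).pt i.2
    let p : Fin 3 → Pen (pol (x ∘ .inl ∘ .inl)) L := ![p1, p2, p3]
    refine ⟨Sum.elim (fun j => ![(T j.1).a, (T j.1).y] j.2)
      fun k => (![(p k.1).u, (p k.1).c, (p k.1).w] k.2.1).coeff k.2.2,
      ⟨Sum.elim P T, p, ?_, fun k => (pol_coeff (Nat.lt_succ_of_le (p k).du)).symm,
        fun k => (pol_coeff (Nat.lt_succ_of_le (p k).dc)).symm,
        fun k => (pol_coeff (Nat.lt_succ_of_le (p k).dw)).symm⟩,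
      h1, h2, h3, h4, h5, h6, h7, fun i => ?_, fun i => congrFun h10 (.inr i)⟩
    · rintro (j | j | j)
      · exact hP j
      · refine ⟨?_, rfl, rfl⟩
        fin_cases j
        exacts [h1.nd.1.2.1.1, h1.nd.1.2.2.2.2.1.1, b1, b2, b3, b4]
      · exact ⟨h9 _ _, rfl, rfl⟩
    · refine (congrFun h10 (.inl i)).trans ?_
      fin_cases i <;> rfl
  · rintro ⟨z, d, h1, h2, h3, h4, h5, h6, h7, h8, h9⟩
    refine ⟨fun j => d.T (.inl j), fun j => d.hP (.inl j), _, _, _, _, _, _, _, _, _, _,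
      h1, h2, h3, h4, h5, h6, h7, ⟨(d.hP _).1, (d.hP _).1, (d.hP _).1, (d.hP _).1⟩,
      fun j i => ?_, funext ?_⟩
    · exact (congrArg Pt.b (enc_cf_pt d.T j i)).trans (d.hP _).1
    · rintro (i | i)
      · refine (h8 i).trans ?_
        fin_cases i <;> rfl
      · exact (h9 i).trans (congrArg Pt.a (enc_cf_pt d.T i.1 i.2).symm)

end Pool.Agent.P.MP_9344a7_nt.Tor
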