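import Pool.Agent.P.MP_9344a7_nt.Tor.Iface

/-! Step PL. -/

set_option autoImplicit false
set_option linter.unusedSectionVars false

namespace Pool.Agent.P.MP_9344a7_nt.Tor

open Polynomial WithZero
open Pool.Agent.P.MP_6f117a_ag (Place FF)
open Pool.Agent.P.MP_ab3ecb_nt.Inv (ord Dv dv deg SA LS)
open scoped Classical IntermediateField

section pl

variable {k0 k E : Type} [Field k0] [Field k] [Field E] [Algebra k0 k] [Algebra k E]
  [Algebra k0 E] [IsScalarTower k0 k E] {f : k0[X]} {x y : E}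

lemma pl_comap {Γ : Type} [LinearOrderedCommGroupWithZero Γ] (v w : Valuation E Γ)
    (ψ : E →ₐ[k0] E) (hw : ∀ z, w z = v (ψ z)) (P Q : Pt f E) :
    dd w P Q = dd v (P.map ψ) (Q.map ψ) := by
  simp [dd, nm, br, hw]

lemma pl_vs (h : Gd f) (P : Place k E) : VS P.v f :=
  ⟨h, fun c => by rw [IsScalarTower.algebraMap_apply k0 k E]; exact P.triv _⟩

lemma pl_nm (P : Place k E) (R : Pt f k) :
    nm P.v (R.map (IsScalarTower.toAlgHom k0 k E)) = 1 := by
  rcases R.nf with h | ⟨h, h'⟩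
  · simpa [nm, h] using P.triv R.a
  · simp [nm, h, h']

lemma pl_ne (h : Hyp k f x y) (R : Pt f k) : h.Z ≠ R.map (IsScalarTower.toAlgHom k0 k E) :=
  fun e => h.tr (by
    rw [show x = algebraMap k E R.a from congrArg Pt.a e]
    exact isAlgebraic_algebraMap _)

variable [IsAlgClosed k] [FF k E]

lemma pl_res (P : Place k E) {a b c : E} (ha : P.v a ≤ 1) (hb : P.v b ≤ 1) (hc : P.v c ≤ 1)
    (h : c ^ 2 = hev 6 (f.map (algebraMap k0 E)) a b) :
    MP_ab3ecb_nt.Inv.ev P c ^ 2 =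
      hev 6 (f.map (algebraMap k0 k)) (MP_ab3ecb_nt.Inv.ev P a) (MP_ab3ecb_nt.Inv.ev P b) := by
  let ρ : P.v.integer →+* k := MP_ab3ecb_nt.Inv.evHom P P.v.integer.subtype fun r => r.2
  let j : k0 →+* P.v.integer := (algebraMap k0 E).codRestrict _ fun c => by
    rw [IsScalarTower.algebraMap_apply k0 k E]; exact P.triv _
  have h1 : (⟨c, hc⟩ : P.v.integer) ^ 2 = hev 6 (f.map j) ⟨a, ha⟩ ⟨b, hb⟩ :=
    Subtype.ext (by
      have := hev_map P.v.integer.subtype 6 (f.map j) ⟨a, ha⟩ ⟨b, hb⟩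
      rw [Polynomial.map_map] at this
      exact h.trans this)
  have h2 := hev_map ρ 6 (f.map j) ⟨a, ha⟩ ⟨b, hb⟩
  rw [Polynomial.map_map, ← h1, map_pow, show ρ.comp j = algebraMap k0 k from RingHom.ext fun c => by
    change MP_ab3ecb_nt.Inv.ev P (algebraMap k0 E c) = _
    rw [IsScalarTower.algebraMap_apply k0 k E, MP_ab3ecb_nt.Inv.ev_const]] at h2
  exact h2.symm

lemma pl_red (h : Hyp k f x y) (P : Place k E) (D : DD P.v f) :
    ∃ R : Pt f k, dd P.v h.Z (R.map (IsScalarTower.toAlgHom k0 k E)) < 1 := by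
  have hy := D.y_le h.Z
  rcases le_or_gt (P.v x) 1 with hx | hx
  · have h1 : nm P.v h.Z = 1 := by simpa [nm, Hyp.Z] using hx
    rw [h1, one_pow] at hy
    have h2 := pl_res P hx (le_of_eq P.v.map_one) hy h.Z.eq
    rw [MP_ab3ecb_nt.Inv.ev_one] at h2
    refine ⟨⟨_, 1, _, .inl rfl, h2⟩, ?_⟩
    rw [D.aff _ _ rfl (map_one _) hx (P.triv _)]
    exact max_lt (MP_ab3ecb_nt.Inv.ev_spec hx) (MP_ab3ecb_nt.Inv.ev_spec hy)
  · have x0 : x ≠ 0 := MP_6f117a_ag.trans_ne h.tr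
    have v0 : 0 < P.v x := zero_lt_one.trans hx
    have h1 : nm P.v h.Z = P.v x := by simpa [nm, Hyp.Z] using hx.le
    have ht : P.v x⁻¹ < 1 := by rwa [map_inv₀, inv_lt_one₀ v0]
    have hc : P.v (x⁻¹ ^ 3 * y) ≤ 1 := by
      rw [map_mul, map_pow, map_inv₀, inv_pow, inv_mul_le_iff₀ (pow_pos v0 3), mul_one, ← h1]
      exact hy
    have h2 := pl_res P (f := f) (le_of_eq P.v.map_one) ht.le hc (by
      have := hev_smul 6 (f.map (algebraMap k0 E)) x⁻¹ x 1
      rw [inv_mul_cancel₀ x0, mul_one] at this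
      rw [this, mul_pow, ← pow_mul]
      exact congrArg _ h.Z.eq)
    rw [MP_ab3ecb_nt.Inv.ev_one, MP_ab3ecb_nt.Inv.ev_of_lt ht] at h2
    have h3 := MP_ab3ecb_nt.Inv.ev_spec hc
    generalize MP_ab3ecb_nt.Inv.ev P (x⁻¹ ^ 3 * y) = c at h2 h3
    refine ⟨⟨1, 0, _, .inr ⟨rfl, rfl⟩, h2⟩, ?_⟩
    have h4 := P.triv c
    rw [dd, pl_nm, h1, mul_one]
    refine max_lt ?_ ?_
    · rw [div_lt_one₀ v0]
      simpa [br, Hyp.Z] using hx
    · rw [div_lt_one₀ (pow_pos v0 3)]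
      refine max_lt ?_ ?_
      · simpa [Hyp.Z] using h4.trans_lt (one_lt_pow₀ hx three_ne_zero)
      · have : y - algebraMap k E c * x ^ 3 = x ^ 3 * (x⁻¹ ^ 3 * y - algebraMap k E c) := by
          field_simp
        have h5 : P.v (y - algebraMap k E c * x ^ 3) < P.v x ^ 3 := by
          rw [this, map_mul, map_pow]
          exact mul_lt_of_lt_one_right (pow_pos v0 3) h3
        simpa [Hyp.Z] using h5

lemma pl_par (h : Hyp k f x y) (hD : ∀ P : Place k E, DD P.v f) (R : Pt f k) :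
    ∃ t : E, Transcendental k t ∧ k⟮t⟯ = k⟮x⟯ ∧ ∀ P : Place k E,
      dd P.v h.Z (R.map (IsScalarTower.toAlgHom k0 k E)) *
        dd P.v h.Z (R.io.map (IsScalarTower.toAlgHom k0 k E)) = min (P.v t) 1 := by
  have x0 : x ≠ 0 := MP_6f117a_ag.trans_ne h.tr
  have hn : ∀ P : Place k E, nm P.v h.Z = max (P.v x) 1 := fun P => by simp [nm, Hyp.Z]
  have hp : ∀ P : Place k E, 0 < max (P.v x) 1 := fun P => lt_max_of_lt_right zero_lt_one
  have key : ∀ P : Place k E, dd P.v h.Z (R.map (IsScalarTower.toAlgHom k0 k E)) *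
      dd P.v h.Z (R.io.map (IsScalarTower.toAlgHom k0 k E)) =
        P.v (x * algebraMap k E R.b - algebraMap k E R.a) / max (P.v x) 1 := fun P => by
    have := (hD P).br h.Z (R.map (IsScalarTower.toAlgHom k0 k E))
    rw [pl_nm, hn, mul_one, ← Pt.map_io] at this
    rw [eq_div_iff (hp P).ne', ← this]
    simp [br, Hyp.Z]
  rcases R.nf with h1 | ⟨h1, h2⟩
  · refine ⟨x - algebraMap k E R.a, MP_6f117a_ag.trans_sub h.tr _, MP_6f117a_ag.adjoin_sub _ _,
      fun P => ?_⟩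
    rw [key, h1, map_one, mul_one]
    rcases le_or_gt (P.v x) 1 with hx | hx
    · rw [max_eq_right hx, div_one, min_eq_left (P.v.map_sub_le hx (P.triv _))]
    · rw [P.v.map_sub_eq_of_lt_left ((P.triv _).trans_lt hx), max_eq_left hx.le,
        min_eq_right hx.le, div_self (zero_lt_one.trans hx).ne']
  · refine ⟨x⁻¹, MP_6f117a_ag.trans_inv h.tr, MP_6f117a_ag.adjoin_inv _, fun P => ?_⟩
    have v0 : 0 < P.v x := zero_lt_iff.2 (MP_ab3ecb_nt.Inv.v_ne P x0)
    rw [key, h1, h2, map_one, map_zero, mul_zero, zero_sub, P.v.map_neg, map_one, map_inv₀]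
    rcases le_or_gt (P.v x) 1 with hx | hx
    · rw [max_eq_right hx, div_one, min_eq_right ((one_le_inv₀ v0).2 hx)]
    · rw [max_eq_left hx.le, one_div, min_eq_left ((inv_le_one₀ v0).2 hx.le)]

lemma pl_one (h : Hyp k f x y) (hD : ∀ P : Place k E, DD P.v f)
    (h2 : Module.finrank k⟮x⟯ E = 2) (ι : E ≃ₐ[k] E) (ix : ι x = x) (iy : ι y = -y) (R : Pt f k) :
    ∃ P0 : Place k E, ∀ P : Place k E,
      dd P.v h.Z (R.map (IsScalarTower.toAlgHom k0 k E)) = if P = P0 then exp (-1) else 1 := by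
  let σ : SA k E := ⟨ι.toRingEquiv, RingEquiv.refl k, fun c => ι.commutes c⟩
  let d : Place k E → Pt f k → ℤᵐ⁰ := fun P R => dd P.v h.Z (R.map (IsScalarTower.toAlgHom k0 k E))
  have d0 : ∀ P R, d P R ≠ 0 := fun P R e => pl_ne h R (((hD P).zero _ _).1 e)
  have d1 : ∀ P R, 0 ≤ -log (d P R) := fun P R => by
    rw [neg_nonneg, ← exp_le_exp, exp_log (d0 P R)]
    exact (hD P).le _ _
  have hσ : ∀ P R, d (σ.pl.symm P) R = d P R.io := fun P R => by
    let ψ : E →ₐ[k0] E := (ι : E →ₐ[k] E).restrictScalars k0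
    have e1 : h.Z.map ψ = h.Z.io := Pt.ext ix (map_one ψ) iy
    have e2 : (R.map (IsScalarTower.toAlgHom k0 k E)).map ψ =
        R.map (IsScalarTower.toAlgHom k0 k E) :=
      Pt.ext (ι.commutes _) (ι.commutes _) (ι.commutes _)
    simp only [d]
    rw [pl_comap P.v _ ψ fun _ => rfl, e1, e2, ← (hD P).io, Pt.io_io, Pt.map_io]
  obtain ⟨t, ht, h3, h4⟩ := pl_par h hD R
  have h4' : ∀ P, d P R * d P R.io = min (P.v t) 1 := h4
  obtain ⟨S, hS, h5⟩ := (MP_ab3ecb_nt.Inv.PL.model ht).fund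
  have hS' : ∀ P, P ∈ S ↔ d P R * d P R.io < 1 := fun P => by simp [hS, h4']
  have h6 : ∑ P ∈ S, -log (d P R.io) = ∑ P ∈ S, -log (d P R) :=
    Finset.sum_equiv σ.pl.symm (fun P => by rw [hS', hS', hσ, hσ, Pt.io_io, mul_comm])
      fun P _ => by rw [hσ]
  have h7 : ∑ P ∈ S, -log (d P R) = 1 := by
    have : ∑ P ∈ S, -log (P.v t) = ∑ P ∈ S, -log (d P R) + ∑ P ∈ S, -log (d P R.io) := by
      rw [← Finset.sum_add_distrib]
      refine Finset.sum_congr rfl fun P hP => ?_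
      rw [← neg_add, ← log_mul (d0 _ _) (d0 _ _), h4', min_eq_left ((hS P).1 hP).le]
    rw [h3, h2, this, h6] at h5
    omega
  obtain ⟨P0, hP0, h8⟩ := Finset.exists_ne_zero_of_sum_ne_zero (h7.trans_ne one_ne_zero)
  rw [← Finset.add_sum_erase _ _ hP0] at h7
  have h9 := Finset.sum_nonneg fun P (_ : P ∈ S.erase P0) => d1 P R
  have h10 := d1 P0 R
  refine ⟨P0, fun P => ?_⟩
  change d P R = _
  rw [← exp_log (d0 P R)]
  split_ifs with e
  · rw [e, exp_inj]
    omega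
  · rw [← exp_zero, exp_inj, ← neg_eq_zero]
    by_cases hP : P ∈ S
    · exact (Finset.sum_eq_zero_iff_of_nonneg fun P _ => d1 P R).1 (by omega) P
        (Finset.mem_erase.2 ⟨e, hP⟩)
    · rw [hS', ← exp_log (d0 P R), ← exp_log (d0 P R.io), ← exp_add, ← exp_zero, exp_lt_exp] at hP
      have := d1 P R
      have := d1 P R.io
      omega

end pl

theorem p_PL (hHF : S_HF) (hDD : S_DD) :
    S_PL := by
  intro k0 k E _ _ _ _ _ _ _ _ _ f x y h
  obtain ⟨-, h2, ⟨ι, ix, iy⟩, -⟩ := hHF k0 k E f x y h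
  have hD : ∀ P : Place k E, DD P.v f := fun P => hDD k0 E _ P.v f (pl_vs h.gd P)
  choose p hp using pl_one h hD h2 ι ix iy
  have lt : (exp (-1) : ℤᵐ⁰) < 1 := by
    rw [← exp_zero, exp_lt_exp]
    omega
  have inj : Function.Injective p := fun R R' e => by
    by_contra hne
    have h1 := (hD (p R)).tri (R.map (IsScalarTower.toAlgHom k0 k E)) h.Z
      (R'.map (IsScalarTower.toAlgHom k0 k E))
    rw [(hD _).cst k _ (p R).triv _ _ hne, (hD _).symm _ h.Z, hp, hp, if_pos rfl, if_pos e,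
      max_self] at h1
    exact lt.not_ge h1
  have sur : Function.Surjective p := fun P => by
    obtain ⟨R, hR⟩ := pl_red h P (hD P)
    refine ⟨R, by_contra fun e => ?_⟩
    rw [hp, if_neg (Ne.symm e)] at hR
    exact hR.false
  refine ⟨Equiv.ofBijective p ⟨inj, sur⟩, fun Z0 R => ?_⟩
  rw [Equiv.ofBijective_apply, hp]
  exact if_congr (inj.eq_iff.trans eq_comm) rfl rfl

end Pool.Agent.P.MP_9344a7_nt.Tor
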