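import Pool.Agent.P.MP_9344a7_nt.Tor.Iface

/-! Step PRE. -/

set_option autoImplicit false
set_option linter.unusedSectionVars false

namespace Pool.Agent.P.MP_9344a7_nt.Tor

open Polynomial WithZero
open Pool.Agent.P.MP_6f117a_ag (Place FF)
open Pool.Agent.P.MP_ab3ecb_nt.Inv (ord Dv dv deg SA LS)
open scoped Classical IntermediateField

lemma pre_nc {k0 L : Type} [Field k0] [Field L] [Algebra k0 L] {f : k0[X]} {P1 P2 P3 : Pt f L}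
    (h12 : P1.a ≠ P2.a) (h13 : P1.a ≠ P3.a) (h23 : P2.a ≠ P3.a) : NC3 P1 P2 P3 :=
  ⟨fun e => h12 (congrArg Pt.a e).symm, fun e => h13 (congrArg Pt.a e).symm,
    fun e => h23 (congrArg Pt.a e).symm⟩

theorem p_PRE (hFC : S_FC) (hPIC : S_PIC) (hDDM : S_DDM) (hNRB : S_NRB) (hPD0 : S_PD0) (hSPL : S_SPL) (hLIM : S_LIM) (hLIFT : S_LIFT) (hAL2 : S_AL2) (hALG : S_ALG) :
    S_PRE := by
  intro K A M Γ _ _ _ _ _ _ _ _ _ v t f hA hf Q X C R1 R2 Y B hAd nY nB hYB hYQ hBQ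
  have : CharZero A := charZero_of_injective_algebraMap (algebraMap K A).injective
  have hN : ∀ (P : Pt f A) (T : Pt f K), Nr (v.comap (algebraMap A M)) P T ↔
      Nr v (P.map (IsScalarTower.toAlgHom K A M)) T := fun P T => by
    have h := hDDM K A M Γ Γ (v.comap (algebraMap A M)) v (MonoidWithZeroHom.id Γ)
      (IsScalarTower.toAlgHom K A M) f monotone_id (fun _ => rfl) P (T.up A)
    rw [Pt.map_up] at h
    unfold Nr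
    rw [h]
    rfl
  obtain ⟨N, hN2⟩ := hNRB K M Γ v f ⟨hf, hA.ana.triv⟩
  have Nw := (hNRB K A Γ (v.comap (algebraMap A M)) f ⟨hf, fun c => by
    rw [Valuation.comap_apply, ← IsScalarTower.algebraMap_apply]
    exact hA.ana.triv c⟩).1
  obtain ⟨G, _, ⟨I⟩⟩ := hPIC K M f hf
  obtain ⟨oQ, oX, oC, -, -⟩ := hAd.ok
  have hQX : Q.a ≠ X.a := fun e => absurd (hAd.ne (a₁ := 0) (a₂ := 1) e) (by decide)
  have hQC : Q.a ≠ C.a := fun e => absurd (hAd.ne (a₁ := 0) (a₂ := 2) e) (by decide)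
  have hXC : X.a ≠ C.a := fun e => absurd (hAd.ne (a₁ := 1) (a₂ := 2) e) (by decide)
  have ou : ∀ {T : Pt f K}, T.Ok → (T.up A).Ok := fun h => (Pt.ok_map _).2 h
  have oY := (Nw.ok _ _ nY oQ).1
  have oB := (Nw.ok _ _ nB oQ).1
  have inj := (algebraMap K A).injective
  obtain ⟨p1, h1⟩ := hPD0 K A f hf (X.up A) Y (Q.up A) (ou oX) oY (ou oQ)
    (pre_nc (Nw.ane _ _ _ _ (Nw.up X) nY oX oQ hQX.symm).2 (inj.ne hQX.symm) hYQ)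
  obtain ⟨p2, h2⟩ := hPD0 K A f hf (X.up A).io (Q.up A).io (C.up A) (Pt.ok_io.2 (ou oX))
    (Pt.ok_io.2 (ou oQ)) (ou oC) (pre_nc (inj.ne hQX.symm) (inj.ne hXC) (inj.ne hQC))
  obtain ⟨p3, h3⟩ := hPD0 K A f hf Y (Q.up A).io B oY (Pt.ok_io.2 (ou oQ)) oB
    (pre_nc hYQ hYB hBQ.symm)
  have f1 : p1.Fib _ _ _ := ⟨_, _, h1⟩
  have f2 : p2.Fib _ _ _ := ⟨_, _, h2⟩
  have f3 : p3.Fib _ _ _ := ⟨_, _, h3⟩
  have g1 := f1.map (IsScalarTower.toAlgHom K A M)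
  have g2 := f2.map (IsScalarTower.toAlgHom K A M)
  have g3 := f3.map (IsScalarTower.toAlgHom K A M)
  simp only [Pt.map_io, Pt.map_up] at g1 g2 g3
  have R := (hFC K A f hf).refl M (IsScalarTower.toAlgHom K A M)
  have hU : ∀ S : Pt f A, Nr (v.comap (algebraMap A M)) S Q → ∃ U1 U2, p1.Fib S U1 U2 ∧
      Nr (v.comap (algebraMap A M)) U1 X ∧ Nr (v.comap (algebraMap A M)) U2 Q := fun S nS => by
    have hne : Q ≠ X.io := fun e => hQX (congrArg Pt.a e :)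
    obtain ⟨V1, V2, n1, n2, e⟩ := hSPL K M Γ G v _ f I hA.ana hf X Q Q Q X Q (X.up M) _ (Q.up M) _
      oX oQ oQ oQ oX oQ ⟨hne, hne, oQ.ne_io hf.two⟩ (fun e => hQX (congrArg Pt.a e).symm)
      (by abel) (N.up X) ((hN _ _).1 nY) (N.up Q) ((hN _ _).1 nS)
    have g := (I.fib _ _ _ _ _ _ _ g1).2 e
    obtain ⟨U1, U2, rfl, rfl⟩ := (hAL2 K A M f hf hA.cl).2 _ _ _ _ g
    exact ⟨U1, U2, R _ _ _ _ g, (hN _ _).2 n1, (hN _ _).2 n2⟩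
  have hK : ∀ j, ∃ κ : Cfg f A, κ.In p1 p2 p3 ∧
      κ.Nr (v.comap (algebraMap A M)) (lim Q X C R1 R2 j) := fun j => by
    obtain ⟨κ, n, e1, e2, e3⟩ := hLIFT K M Γ G v _ f I hA.ana hf Q X C R1 R2 _ _ hAd
      ((hN _ _).1 nY) ((hN _ _).1 nB) j
    obtain ⟨l1, l2, -⟩ := (hLIM K K f hf Q X C R1 R2 hAd).1 j
    have i1 := (I.fib _ _ _ _ _ _ _ g1).2 e1
    have i2 := (I.fib _ _ _ _ _ _ _ g2).2 e2
    have i3 := (I.fib _ _ _ _ _ _ _ g3).2 e3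
    obtain ⟨κ', rfl⟩ := hALG K A M f hf hA.cl p1 p2 p3 κ ⟨i1, i2, i3⟩ (hN2 _ _ n l1).1
      ((hN2 _ _ n l1).2 l2)
    obtain ⟨n1, n2, n3, n4, n5, n6⟩ := n
    exact ⟨κ', ⟨R _ _ _ _ i1, R _ _ _ _ (by rw [Pt.map_io]; exact i2), R _ _ _ _ i3⟩,
      (hN _ _).2 n1, (hN _ _).2 n2, (hN _ _).2 n3, (hN _ _).2 n4, (hN _ _).2 n5, (hN _ _).2 n6⟩
  choose κs hin hnr using hK
  obtain ⟨U1, U2, fU, u1, u2⟩ := hU B nB
  obtain ⟨W1, W2, fW, w1, w2⟩ := hU (κs 8).B (hnr 8).2.2.2.2.1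
  exact ⟨U1, U2, W1, W2, p1, p2, p3, κs, ⟨f1, f2, f3⟩, hin, hnr, fU, fW, u1, u2, w1, w2⟩

end Pool.Agent.P.MP_9344a7_nt.Tor
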