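import Pool.Agent.P.MP_9344a7_nt.Tor.Iface
import Pool.Agent.P.MP_9344a7_nt.Lwm

/-! Step PTS. -/

set_option autoImplicit false
set_option linter.unusedSectionVars false

namespace Pool.Agent.P.MP_9344a7_nt.Tor

open Polynomial WithZero
open Pool.Agent.P.MP_6f117a_ag (Place FF)
open Pool.Agent.P.MP_ab3ecb_nt.Inv (ord Dv dv deg SA LS)
open scoped Classical IntermediateField

theorem p_PTS :
    S_PTS := Lwm.lw_sq 6 3

end Pool.Agent.P.MP_9344a7_nt.Tor
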